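import Pool.Agent.P.MP_29cb78_nt.C.Iface
import Pool.Agent.P.MP_29cb78_nt.Abel

/-! The Artin map of a cyclotomic extension, and the abelian condition. -/

namespace Pool.Agent.P.MP_29cb78_nt.C

open NumberField NumberField.Units Ideal
open scoped nonZeroDivisors

namespace Abel2

variable {k K E : Type} [Field k] [Field K] [Field E] [NumberField k] [NumberField K]
  [NumberField E] [Algebra k K] [Algebra K E] [Algebra k E] [IsScalarTower k K E]

/-- Inertia is trivial below a prime with trivial inertia. -/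
theorem inertia_bot [IsGalois k K] [IsGalois k E] (Q' : Ideal (𝓞 E)) (hQ' : Q'.IsMaximal)
    (h : Q'.inertia Gal(E/k) = ⊥) : (Q'.under (𝓞 K)).inertia Gal(K/k) = ⊥ := by
  have hQ : (Q'.under (𝓞 K)).IsMaximal := inferInstance
  have hP : (Q'.under (𝓞 k)).IsMaximal := inferInstance
  have h0 : Q'.under (𝓞 k) ≠ ⊥ :=
    Ring.ne_bot_of_isMaximal_of_not_isField hP (RingOfIntegers.not_isField k)
  have : Finite (𝓞 k ⧸ Q'.under (𝓞 k)) := Ring.HasFiniteQuotients.finiteQuotient h0
  have : (Q'.under (𝓞 K)).LiesOver (Q'.under (𝓞 k)) := ⟨(under_under Q').symm⟩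
  have h1 := card_inertia_eq_ramificationIdxIn (G := Gal(E/k)) (Q'.under (𝓞 k)) Q'
  have h2 := card_inertia_eq_ramificationIdxIn (G := Gal(K/k)) (Q'.under (𝓞 k)) (Q'.under (𝓞 K))
  rw [ramificationIdxIn_eq_ramificationIdx _ Q' Gal(E/k), h, Subgroup.card_bot,
    ramificationIdx_tower (Q'.under (𝓞 K)) Q'] at h1
  rw [ramificationIdxIn_eq_ramificationIdx _ (Q'.under (𝓞 K)) Gal(K/k),
    Nat.eq_one_of_mul_eq_one_right h1.symm] at h2
  exact Subgroup.eq_bot_of_card_eq _ h2

theorem frob_zeta [IsGalois k E] {m : ℕ} [NeZero m] {ζ : E} (hζ : IsPrimitiveRoot ζ m) (Q' : Ideal (𝓞 E))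
    (hm : (m : 𝓞 E) ∉ Q') {σ : Gal(E/k)}
    (hσ : ∀ z : 𝓞 E, σ • z - z ^ absNorm (Q'.under (𝓞 k)) ∈ Q') :
    σ ζ = ζ ^ absNorm (Q'.under (𝓞 k)) := by
  rw [absNorm_apply, Submodule.cardQuot_apply] at hσ ⊢
  have h1 : IsArithFrobAt (𝓞 k) σ Q' := hσ
  have h2 := h1.apply_of_pow_eq_one (ζ := hζ.toInteger) hζ.toInteger_isPrimitiveRoot.pow_eq_one hm
  exact congrArg (algebraMap (𝓞 E) E) h2

theorem prime_step {m : ℕ} [NeZero m] [IsCyclotomicExtension {m} k E] {ζ : E}
    {pm : (ZMod m)ˣ →* Gal(K/k)} (hζ : IsPrimitiveRoot ζ m) (hpm : IsCycMap ζ pm)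
    (P : Ideal (𝓞 k)) (hP : P.IsMaximal) (hm : (m : 𝓞 k) ∉ P) (τ : Gal(K/k))
    (hτ : ∀ Q : Ideal (𝓞 K), Q.IsMaximal → Q.under (𝓞 k) = P →
      ∀ z : 𝓞 K, τ • z - z ^ absNorm P ∈ Q) :
    ∃ u : (ZMod m)ˣ, (absNorm P : ZMod m) = u ∧ τ = pm u := by
  have : IsAbelianGalois k E := IsCyclotomicExtension.isAbelianGalois {m} k E
  have : IsAbelianGalois k K := IsAbelianGalois.tower_bot k K E
  obtain ⟨Q', hQ', hQP⟩ := exists_maximal_ideal_liesOver_of_isIntegral (S := 𝓞 E) P
  obtain rfl : P = Q'.under (𝓞 k) := hQP.over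
  have hm' : (m : 𝓞 E) ∉ Q' := fun h => hm (by
    rw [under_def, mem_comap, map_natCast]
    exact h)
  have hQ0 : Q' ≠ ⊥ := Ring.ne_bot_of_isMaximal_of_not_isField hQ' (RingOfIntegers.not_isField E)
  have : Finite (𝓞 E ⧸ Q') := Ring.HasFiniteQuotients.finiteQuotient hQ0
  obtain ⟨σ, hσ0⟩ := IsArithFrobAt.exists_of_isInvariant (𝓞 k) Gal(E/k) Q'
  have hσ : ∀ z : 𝓞 E, σ • z - z ^ absNorm (Q'.under (𝓞 k)) ∈ Q' := fun z => by
    rw [absNorm_apply, Submodule.cardQuot_apply]
    exact hσ0 z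
  have hz := frob_zeta hζ Q' hm' hσ
  have hcop : (absNorm (Q'.under (𝓞 k))).Coprime m := by
    rw [← hζ.pow_iff_coprime (NeZero.pos m), ← hz]
    exact hζ.map_of_injective σ.injective
  refine ⟨ZMod.unitOfCoprime _ hcop, (ZMod.coe_unitOfCoprime _ hcop).symm, ?_⟩
  have hres : ∀ x : K, σ (algebraMap K E x) = algebraMap K E (pm (ZMod.unitOfCoprime _ hcop) x) :=
    hpm E (RingHom.id E) (σ : E →+* E) _ (fun y => by
      rw [← IsScalarTower.algebraMap_apply]
      exact σ.commutes y) (by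
      rw [ZMod.coe_unitOfCoprime, ZMod.val_natCast, RingHom.id_apply]
      refine hz.trans ?_
      conv_lhs => rw [← Nat.mod_add_div (absNorm (Q'.under (𝓞 k))) m]
      rw [pow_add, pow_mul, hζ.pow_eq_one, one_pow, mul_one])
  have hin : Q'.inertia Gal(E/k) = ⊥ := by
    rw [eq_bot_iff]
    intro ι hι
    have h1 : ∀ z : 𝓞 E, (ι * σ) • z - z ^ absNorm (Q'.under (𝓞 k)) ∈ Q' := fun z => by
      have := add_mem (hι (σ • z)) (hσ z)
      simpa [mul_smul] using this
    have h2 : ι * σ = σ := IsCyclotomicExtension.algEquiv_eq_of_apply_eq {m} k E (by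
      rintro n rfl -
      exact ⟨ζ, hζ, (frob_zeta hζ Q' hm' h1).trans hz.symm⟩)
    exact mul_eq_right.1 h2
  have hin2 := inertia_bot (K := K) Q' hQ' hin
  have h3 := hτ (Q'.under (𝓞 K)) inferInstance (under_under Q')
  have h4 : ∀ z : 𝓞 K, pm (ZMod.unitOfCoprime _ hcop) • z - z ^ absNorm (Q'.under (𝓞 k)) ∈
      Q'.under (𝓞 K) := fun z => by
    have h5 : algebraMap (𝓞 K) (𝓞 E) (pm (ZMod.unitOfCoprime _ hcop) • z) =
        σ • algebraMap (𝓞 K) (𝓞 E) z := by
      ext
      exact (hres z).symm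
    rw [under_def, mem_comap, map_sub, map_pow, h5]
    exact hσ _
  have h6 : τ * (pm (ZMod.unitOfCoprime _ hcop))⁻¹ ∈ (Q'.under (𝓞 K)).inertia Gal(K/k) := by
    intro z
    have := sub_mem (h3 ((pm (ZMod.unitOfCoprime _ hcop))⁻¹ • z))
      (h4 ((pm (ZMod.unitOfCoprime _ hcop))⁻¹ • z))
    rw [smul_inv_smul, sub_sub_sub_cancel_right, ← mul_smul] at this
    exact this
  rw [hin2, Subgroup.mem_bot] at h6
  exact mul_inv_eq_one.1 h6

end Abel2

theorem artcyc : ARTCYC := by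
  intro k K E _ _ _ _ _ _ _ _ _ _ m _ _ ζ pm f art hζ hpm hf hart
  have key : ∀ (I : Ideal (𝓞 k)) (h : I ∈ (Ideal (𝓞 k))⁰), IsCoprime I f →
      ∃ u : (ZMod m)ˣ, (absNorm I : ZMod m) = u ∧ art ⟨I, h⟩ = pm u := by
    intro I
    induction I using UniqueFactorizationMonoid.induction_on_prime with
    | h₁ => exact fun h => absurd rfl (nonZeroDivisors.ne_zero h)
    | h₂ I hI =>
      obtain rfl : I = 1 := by simpa using hI
      exact fun h _ => ⟨1, by simp, by rw [map_one, ← map_one art]; rfl⟩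
    | h₃ I P hI hP ih =>
      intro h hc
      have hI' : I ∈ (Ideal (𝓞 k))⁰ := mem_nonZeroDivisors_of_ne_zero hI
      have hP' : P ∈ (Ideal (𝓞 k))⁰ := mem_nonZeroDivisors_of_ne_zero hP.ne_zero
      have hPm : P.IsMaximal := (isPrime_of_prime hP).isMaximal hP.ne_zero
      have hfP : ¬ f ≤ P := fun hle => hPm.ne_top (by
        have := isCoprime_iff_sup_eq.1 hc.of_mul_left_left
        rwa [sup_eq_left.2 hle] at this)
      obtain ⟨u, hu, hu'⟩ := ih hI' hc.of_mul_left_right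
      obtain ⟨v, hv, hv'⟩ := Abel2.prime_step hζ hpm P hPm (fun h => hfP (hf P hPm h))
        (art ⟨P, hP'⟩) fun Q hQ hQP => hart ⟨P, hP'⟩ Q hQ hQP hfP
      refine ⟨v * u, by rw [map_mul, Nat.cast_mul, hu, hv, Units.val_mul], ?_⟩
      rw [map_mul, ← hu', ← hv', ← map_mul]
      rfl
  exact fun I => key I.1 I.2

open Abel in
theorem abel2 : ABEL2 := by
  intro k K _ _ _ _ _ _ u n α hu hn hα hsym x hx
  let L := AlgebraicClosure K
  have : Algebra.IsAlgebraic k L := Algebra.IsAlgebraic.trans k K L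
  have : IsAlgClosure k L := ⟨inferInstance, inferInstance⟩
  have := ab_abelian k L
  have he := torsionOrder_ne_zero K
  have hK : ∀ y : K, algebraMap K L y ∈ ab k L := fun y a b => by
    simp only [← AlgEquiv.restrictNormal_commutes]
    rw [← AlgEquiv.mul_apply, ← AlgEquiv.mul_apply, IsMulCommutative.is_comm.comm]
  have hx0 : x ≠ 0 := fun h => by
    rw [h, zero_pow he] at hx
    exact hu ((algebraMap K L).injective (by rw [← hx, map_zero]))
  have hα0 : ∀ σ, α σ ≠ 0 := fun σ h => by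
    have h1 := hα σ
    rw [h, zero_pow he, mul_zero] at h1
    exact hu (σ.injective (by rw [h1, map_zero]))
  have key : ∀ a : Gal(L/k), ∃ z : K, z ^ torsionOrder K = 1 ∧
      a x = algebraMap K L z * (x ^ n (a.restrictNormal K) *
        algebraMap K L (α (a.restrictNormal K))) := by
    intro a
    have h0 : x ^ n (a.restrictNormal K) * algebraMap K L (α (a.restrictNormal K)) ≠ 0 :=
      mul_ne_zero (zpow_ne_zero _ hx0) ((map_ne_zero _).mpr (hα0 _))
    have h1 : (a x / (x ^ n (a.restrictNormal K) * algebraMap K L (α (a.restrictNormal K)))) ^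
        torsionOrder K = 1 := by
      rw [div_pow, div_eq_one_iff_eq (pow_ne_zero _ h0), ← map_pow, hx,
        ← AlgEquiv.restrictNormal_commutes, hα, map_mul, map_zpow₀, map_pow, ← hx, mul_pow,
        ← zpow_natCast x, ← zpow_natCast (x ^ _), ← zpow_mul, ← zpow_mul, mul_comm (n _)]
    obtain ⟨z, hz⟩ := root_mem K L h1
    exact ⟨z, (algebraMap K L).injective (by rw [map_pow, hz, h1, map_one]),
      by rw [hz, div_mul_cancel₀ _ h0]⟩
  have hxA : x ∈ ab k L := fun a b => by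
    obtain ⟨za, ha, ha'⟩ := key a
    obtain ⟨zb, hb, hb'⟩ := key b
    have hs := congrArg (algebraMap K L) (hsym (a.restrictNormal K) (b.restrictNormal K))
    rw [map_mul, map_mul, map_zpow₀, map_zpow₀] at hs
    rw [hb', map_mul, map_mul, map_zpow₀, ha', map_mul, map_mul, map_zpow₀, hb',
      ← AlgEquiv.restrictNormal_commutes, ← AlgEquiv.restrictNormal_commutes,
      ← AlgEquiv.restrictNormal_commutes, ← AlgEquiv.restrictNormal_commutes, hn _ _ ha, hn _ _ hb,
      map_zpow₀, map_zpow₀, mul_zpow, mul_zpow, mul_zpow, mul_zpow, ← zpow_mul, ← zpow_mul,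
      mul_comm (n _)]
    linear_combination (-(algebraMap K L zb ^ n (a.restrictNormal K) *
      algebraMap K L za ^ n (b.restrictNormal K) *
      x ^ (n (b.restrictNormal K) * n (a.restrictNormal K)))) * hs
  have hle : ∀ t ∈ IntermediateField.adjoin K {x}, t ∈ ab k L := by
    intro t ht
    induction ht using IntermediateField.adjoin_induction with
    | mem t ht => exact ht ▸ hxA
    | algebraMap t => exact hK t
    | add _ _ _ _ h1 h2 => exact add_mem h1 h2
    | inv _ _ h1 => exact inv_mem h1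
    | mul _ _ _ _ h1 h2 => exact mul_mem h1 h2
  exact IsAbelianGalois.of_algHom (M := ab k L)
    (((IntermediateField.adjoin K {x}).val.restrictScalars k).codRestrict
      (ab k L).toSubalgebra fun t => hle t t.2)

end Pool.Agent.P.MP_29cb78_nt.C
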