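import Pool.Agent.P.MP_29cb78_nt.C.Iface

/-!
Bases of ideals of imaginary quadratic fields.
-/

namespace Pool.Agent.P.MP_29cb78_nt.C

open NumberField NumberField.InfinitePlace Ideal Module
open scoped Classical ComplexConjugate

namespace Bas

variable {F : Type} [Field F] [NumberField F]

theorem norm_eq [IsTotallyComplex F] (φ : F →+* ℂ) (h2 : finrank ℚ F = 2) (x : F) :
    ((|Algebra.norm ℚ x| : ℚ) : ℝ) = ‖φ x‖ ^ 2 := by
  have h1 : Fintype.card (InfinitePlace F) = 1 := by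
    have h3 := card_eq_nrRealPlaces_add_nrComplexPlaces F
    have h4 := IsTotallyComplex.finrank F
    rw [IsTotallyComplex.nrRealPlaces_eq_zero] at h3
    omega
  have h5 : Subsingleton (InfinitePlace F) := Fintype.card_le_one_iff_subsingleton.mp h1.le
  rw [← prod_eq_abs_norm x, Fintype.prod_subsingleton _ (InfinitePlace.mk φ),
    IsTotallyComplex.mult_eq, InfinitePlace.apply]

theorem abs_eq [IsTotallyComplex F] (φ : F →+* ℂ) (h2 : finrank ℚ F = 2) (α : 𝓞 F) :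
    (absNorm (span {α}) : ℝ) = ‖φ α‖ ^ 2 := by
  rw [← norm_eq φ h2, absNorm_span_singleton, ← Algebra.coe_norm_int, Nat.cast_natAbs,
    ← Int.cast_abs, Rat.cast_intCast]

/-- The norm form on the lattice spanned by `1` and `γ`. -/
theorem quad [IsTotallyComplex F] (φ : F →+* ℂ) (h2 : finrank ℚ F = 2) (γ : 𝓞 F) :
    ∃ t s : ℤ, (t : ℝ) = 2 * (φ γ).re ∧ (s : ℝ) = (φ γ).re ^ 2 + (φ γ).im ^ 2 ∧
      ∀ k n : ℤ, (absNorm (span {(k : 𝓞 F) + n * γ}) : ℤ) = k ^ 2 + k * n * t + n ^ 2 * s := by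
  have key : ∀ k n : ℤ, ((absNorm (span {(k : 𝓞 F) + n * γ}) : ℤ) : ℝ) =
      k ^ 2 + k * n * (2 * (φ γ).re) + n ^ 2 * ((φ γ).re ^ 2 + (φ γ).im ^ 2) := by
    intro k n
    rw [Int.cast_natCast, abs_eq φ h2, Complex.sq_norm, Complex.normSq_apply]
    have : φ (((k : 𝓞 F) + n * γ : 𝓞 F) : F) = k + n * φ γ := by simp
    rw [this]
    simp
    ring
  have hs := key 0 1
  have ht := key 1 1
  refine ⟨(absNorm (span {((1 : ℤ) : 𝓞 F) + (1 : ℤ) * γ}) : ℤ) - 1 -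
    (absNorm (span {((0 : ℤ) : 𝓞 F) + (1 : ℤ) * γ}) : ℤ),
    (absNorm (span {((0 : ℤ) : 𝓞 F) + (1 : ℤ) * γ}) : ℤ), ?_, ?_, fun k n => ?_⟩
  · rw [Int.cast_sub, Int.cast_sub, hs, ht]
    push_cast
    ring
  · rw [hs]
    push_cast
    ring
  · apply Int.cast_injective (α := ℝ)
    rw [key k n, Int.cast_add, Int.cast_add, Int.cast_mul, Int.cast_mul, Int.cast_mul,
      Int.cast_sub, Int.cast_sub, hs, ht]
    push_cast
    ring

theorem exists_nonreal [IsTotallyComplex F] (φ : F →+* ℂ) : ∃ γ : 𝓞 F, (φ γ).im ≠ 0 := by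
  by_contra h
  push Not at h
  apply IsTotallyComplex.complexEmbedding_not_isReal φ
  rw [ComplexEmbedding.isReal_iff]
  ext1 x
  obtain ⟨a, b, _, rfl⟩ := IsFractionRing.div_surjective (A := 𝓞 F) x
  have ha : conj (φ (algebraMap (𝓞 F) F a)) = φ (algebraMap (𝓞 F) F a) :=
    Complex.conj_eq_iff_im.mpr (h a)
  have hb : conj (φ (algebraMap (𝓞 F) F b)) = φ (algebraMap (𝓞 F) F b) :=
    Complex.conj_eq_iff_im.mpr (h b)
  rw [ComplexEmbedding.conjugate_coe_eq, map_div₀, map_div₀, ha, hb]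

/-- The alternating form. -/
def alt (a b : ℂ) : ℝ := a.im * b.re - a.re * b.im

theorem ori_iff (w : Fin 2 → ℂ) : Ori w ↔ 0 < alt (w 0) (w 1) := by
  unfold Ori alt
  rw [Complex.div_im, ← sub_div]
  by_cases h : w 1 = 0
  · simp [h]
  · exact div_pos_iff_of_pos_right (Complex.normSq_pos.mpr h)

theorem alt_comb (a b : ℂ) (p q r s : ℤ) :
    alt (p * a + q * b) (r * a + s * b) = ((p * s - q * r : ℤ) : ℝ) * alt a b := by
  unfold alt
  simp
  ring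

theorem exists_bas [IsTotallyComplex F] (φ : F →+* ℂ) (h2 : finrank ℚ F = 2) (I : Ideal (𝓞 F))
    (hI : I ≠ ⊥) : ∃ w, IsBas φ I w := by
  let b : Basis (Fin 2) ℤ (𝓞 F) := finBasisOfFinrankEq ℤ (𝓞 F) ((RingOfIntegers.rank F).trans h2)
  let c : Basis (Fin 2) ℤ I := Ideal.selfBasis b I hI
  have hc : ∀ x : 𝓞 F, x ∈ I ↔ ∃ m n : ℤ, x = m * (c 0 : 𝓞 F) + n * (c 1 : 𝓞 F) := by
    intro x
    constructor
    · intro hx
      refine ⟨c.repr ⟨x, hx⟩ 0, c.repr ⟨x, hx⟩ 1, ?_⟩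
      have h := congrArg (fun y : I => (y : 𝓞 F)) (c.sum_repr ⟨x, hx⟩)
      simp only [Fin.sum_univ_two, Submodule.coe_add, Submodule.coe_smul_of_tower,
        zsmul_eq_mul] at h
      exact h.symm
    · rintro ⟨m, n, rfl⟩
      exact I.add_mem (I.mul_mem_left _ (c 0).2) (I.mul_mem_left _ (c 1).2)
  have h1 : φ (c 1 : 𝓞 F) ≠ 0 := by
    intro h
    apply c.ne_zero 1
    have h' : ((c 1 : 𝓞 F) : F) = 0 := φ.injective (by rw [h, map_zero])
    have h'' : (c 1 : 𝓞 F) = 0 := by exact_mod_cast h'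
    exact Subtype.ext h''
  have hne : alt (φ (c 0 : 𝓞 F)) (φ (c 1 : 𝓞 F)) ≠ 0 := by
    intro h
    obtain ⟨γ, hγ⟩ := exists_nonreal φ
    obtain ⟨m, n, hmn⟩ := (hc (γ * c 1)).mp (I.mul_mem_left _ (c 1).2)
    have h3 : φ γ * φ (c 1 : 𝓞 F) = m * φ (c 0 : 𝓞 F) + n * φ (c 1 : 𝓞 F) := by
      have := congrArg (fun y : 𝓞 F => φ y) hmn
      simpa using this
    have h4 := alt_comb (φ (c 0 : 𝓞 F)) (φ (c 1 : 𝓞 F)) m n 0 1
    rw [h, mul_zero, ← h3] at h4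
    have h5 : (φ γ).im * Complex.normSq (φ (c 1 : 𝓞 F)) = 0 := by
      rw [← h4, Complex.normSq_apply]
      unfold alt
      simp
      ring
    exact mul_ne_zero hγ (Complex.normSq_pos.mpr h1).ne' h5
  rcases lt_or_gt_of_ne hne with h | h
  · refine ⟨![-(c 0 : 𝓞 F), c 1], (ori_iff _).mpr ?_, fun x => ?_⟩
    · have : alt (-φ (c 0 : 𝓞 F)) (φ (c 1 : 𝓞 F)) = -alt (φ (c 0 : 𝓞 F)) (φ (c 1 : 𝓞 F)) := by
        unfold alt
        simp
        ring
      simp only [Matrix.cons_val_zero, Matrix.cons_val_one]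
      rw [show ((-(c 0 : 𝓞 F) : 𝓞 F) : F) = -((c 0 : 𝓞 F) : F) by simp, map_neg, this]
      linarith
    · rw [hc]
      simp only [Matrix.cons_val_zero, Matrix.cons_val_one]
      constructor
      · rintro ⟨m, n, h⟩
        exact ⟨-m, n, by rw [h]; push_cast; ring⟩
      · rintro ⟨m, n, h⟩
        exact ⟨-m, n, by rw [h]; push_cast; ring⟩
  · exact ⟨![c 0, c 1], (ori_iff _).mpr h, hc⟩

theorem natAbs_det (φ : F →+* ℂ) (b : Basis (Fin 2) ℤ (𝓞 F)) (I : Ideal (𝓞 F))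
    (w : Fin 2 → 𝓞 F) (hw : IsBas φ I w) : (b.det w).natAbs = absNorm I := by
  have hmem : ∀ i, w i ∈ I := by
    intro i
    fin_cases i
    · exact (hw.2 _).mpr ⟨1, 0, by simp⟩
    · exact (hw.2 _).mpr ⟨0, 1, by simp⟩
  have hpos := (ori_iff _).mp hw.1
  have hli : LinearIndependent ℤ (fun i => (⟨w i, hmem i⟩ : I)) := by
    rw [Fintype.linearIndependent_iff]
    intro g hg
    have h := congrArg (fun y : I => φ (y : 𝓞 F)) hg
    simp only [Fin.sum_univ_two, Submodule.coe_add, Submodule.coe_smul_of_tower,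
      zsmul_eq_mul] at h
    have h' : (g 0 : ℂ) * φ (w 0) + g 1 * φ (w 1) = 0 := by simpa using h
    have h3 := alt_comb (φ (w 0)) (φ (w 1)) (g 0) (g 1) 0 1
    have h4 := alt_comb (φ (w 0)) (φ (w 1)) (g 0) (g 1) 1 0
    rw [h'] at h3 h4
    have h0 : ∀ z, alt 0 z = 0 := fun z => by simp [alt]
    rw [h0] at h3 h4
    have h5 := (mul_eq_zero.mp h3.symm).resolve_right hpos.ne'
    have h6 := (mul_eq_zero.mp h4.symm).resolve_right hpos.ne'
    have h7 : g 0 * 1 - g 1 * 0 = 0 := by exact_mod_cast h5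
    have h8 : g 0 * 0 - g 1 * 1 = 0 := by exact_mod_cast h6
    intro i
    fin_cases i
    · show g 0 = 0
      omega
    · show g 1 = 0
      omega
  have hsp : ⊤ ≤ Submodule.span ℤ (Set.range fun i => (⟨w i, hmem i⟩ : I)) := by
    rintro ⟨x, hx⟩ -
    obtain ⟨m, n, h⟩ := (hw.2 x).mp hx
    have : (⟨x, hx⟩ : I) = m • (⟨w 0, hmem 0⟩ : I) + n • (⟨w 1, hmem 1⟩ : I) := by
      apply Subtype.ext
      simp only [Submodule.coe_add, Submodule.coe_smul_of_tower, zsmul_eq_mul]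
      exact h
    rw [this]
    exact Submodule.add_mem _ (Submodule.smul_mem _ _ (Submodule.subset_span ⟨0, rfl⟩))
      (Submodule.smul_mem _ _ (Submodule.subset_span ⟨1, rfl⟩))
  have h := Ideal.natAbs_det_basis_change b I (Basis.mk hli hsp)
  rw [← h]
  congr 2
  funext i
  simp

theorem index (φ : F →+* ℂ) (h2 : finrank ℚ F = 2) (I J : Ideal (𝓞 F)) (w w' : Fin 2 → 𝓞 F)
    (hw : IsBas φ I w) (hw' : IsBas φ J w') (hJI : J ≤ I) :
    ∃ A : Mat, (∀ i, w' i = A i 0 * w 0 + A i 1 * w 1) ∧ A.det * (absNorm I : ℤ) = absNorm J := by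
  let b : Basis (Fin 2) ℤ (𝓞 F) := finBasisOfFinrankEq ℤ (𝓞 F) ((RingOfIntegers.rank F).trans h2)
  obtain ⟨p, q, hpq⟩ := (hw.2 (w' 0)).mp (hJI ((hw'.2 _).mpr ⟨1, 0, by simp⟩))
  obtain ⟨r, s, hrs⟩ := (hw.2 (w' 1)).mp (hJI ((hw'.2 _).mpr ⟨0, 1, by simp⟩))
  refine ⟨!![p, q; r, s], fun i => ?_, ?_⟩
  · fin_cases i
    · exact hpq
    · exact hrs
  · have hpos := (ori_iff _).mp hw.1
    have hpos' := (ori_iff _).mp hw'.1
    have e0 : φ (w' 0) = p * φ (w 0) + q * φ (w 1) := by rw [hpq]; simp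
    have e1 : φ (w' 1) = r * φ (w 0) + s * φ (w 1) := by rw [hrs]; simp
    simp only [e0, e1, alt_comb] at hpos'
    have hd : 0 < p * s - q * r := by exact_mod_cast (mul_pos_iff_of_pos_right hpos).mp hpos'
    have hdet : b.det w' = (p * s - q * r) * b.det w := by
      rw [Basis.det_apply, Basis.det_apply, Matrix.det_fin_two, Matrix.det_fin_two]
      simp only [Basis.toMatrix_apply]
      rw [hpq, hrs]
      simp only [← zsmul_eq_mul, map_add, map_smul, Finsupp.add_apply, Finsupp.smul_apply,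
        smul_eq_mul]
      ring
    rw [← natAbs_det φ b I w hw, ← natAbs_det φ b J w' hw', hdet, Matrix.det_fin_two_of,
      Int.natCast_natAbs, Int.natCast_natAbs, abs_mul, abs_of_pos hd]

theorem norm_mod [IsTotallyComplex F] (φ : F →+* ℂ) (h2 : finrank ℚ F = 2) (n : ℕ) (α : 𝓞 F)
    (h : α - 1 ∈ span {(n : 𝓞 F)}) : (absNorm (span {α}) : ZMod n) = 1 := by
  obtain ⟨γ, hγ⟩ := mem_span_singleton'.mp h
  obtain ⟨t, s, -, -, hq⟩ := quad φ h2 γ
  have h1 : α = ((1 : ℤ) : 𝓞 F) + ((n : ℤ) : 𝓞 F) * γ := by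
    push_cast
    linear_combination -hγ
  have h3 := congrArg (Int.cast : ℤ → ZMod n) (hq 1 n)
  rw [← h1] at h3
  simpa using h3

theorem unit_eq [IsTotallyComplex F] (φ : F →+* ℂ) (h2 : finrank ℚ F = 2) (n : ℕ) (u : (𝓞 F)ˣ)
    (hn : 3 ≤ n) (h : (u : 𝓞 F) - 1 ∈ span {(n : 𝓞 F)}) : u = 1 := by
  obtain ⟨γ, hγ⟩ := mem_span_singleton'.mp h
  by_cases h0 : γ = 0
  · apply Units.ext
    rw [h0, zero_mul] at hγ
    exact sub_eq_zero.mp hγ.symm
  exfalso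
  have h1 : ‖φ (u : 𝓞 F)‖ = 1 := by
    have h3 := abs_eq φ h2 (u : 𝓞 F)
    rw [span_singleton_eq_top.mpr u.isUnit, absNorm_top, Nat.cast_one] at h3
    exact (pow_eq_one_iff_of_nonneg (norm_nonneg _) two_ne_zero).mp h3.symm
  have h3 : 1 ≤ ‖φ γ‖ := by
    have h4 : absNorm (span {γ}) ≠ 0 := by
      rw [Ne, absNorm_eq_zero_iff, span_singleton_eq_bot]
      exact h0
    have h5 : (1 : ℝ) ≤ ‖φ γ‖ ^ 2 := by
      rw [← abs_eq φ h2]
      exact_mod_cast Nat.one_le_iff_ne_zero.mpr h4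
    exact (one_le_sq_iff₀ (norm_nonneg _)).mp h5
  have h4 : φ γ * n = φ (u : 𝓞 F) - 1 := by
    have := congrArg (fun y : 𝓞 F => φ y) hγ
    simpa using this
  have h5 : ‖φ γ‖ * n ≤ 2 := by
    have h6 := norm_sub_le (φ (u : 𝓞 F)) 1
    rw [← h4, norm_mul, h1, norm_one, Complex.norm_natCast] at h6
    linarith
  have h6 : (3 : ℝ) ≤ n := by exact_mod_cast hn
  nlinarith

theorem nonsq [IsTotallyComplex F] (φ : F →+* ℂ) (h2 : finrank ℚ F = 2) :
    ∃ α : 𝓞 F, ¬ IsSquare (absNorm (span {α})) := by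
  obtain ⟨γ, hγ⟩ := exists_nonreal φ
  obtain ⟨t, s, ht, hs, hq⟩ := quad φ h2 γ
  have hD : 0 < 4 * s - t ^ 2 := by
    have h1 : (0 : ℝ) < ((4 * s - t ^ 2 : ℤ) : ℝ) := by
      push_cast
      rw [ht, hs]
      have := sq_pos_of_ne_zero hγ
      nlinarith
    exact_mod_cast h1
  set k : ℤ := |t| + (4 * s - t ^ 2) with hk
  refine ⟨(k : 𝓞 F) + ((1 : ℤ) : 𝓞 F) * γ, fun ⟨m, hm⟩ => ?_⟩
  have h1 := hq k 1
  rw [hm] at h1
  push_cast at h1
  have h3 : (2 * (m : ℤ)) ^ 2 = (2 * k + t) ^ 2 + (4 * s - t ^ 2) := by linear_combination 4 * h1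
  have h4 : 4 * s - t ^ 2 ≤ 2 * k + t := by
    have := neg_abs_le t
    have := abs_nonneg t
    omega
  have h5 : 2 * k + t < 2 * (m : ℤ) :=
    lt_of_pow_lt_pow_left₀ 2 (by positivity) (by omega)
  have h6 : 2 * (m : ℤ) < 2 * k + t + 1 :=
    lt_of_pow_lt_pow_left₀ 2 (by omega) (by nlinarith)
  omega

end Bas

theorem bas : BAS := fun _ _ _ _ φ h2 =>
  ⟨Bas.exists_bas φ h2, Bas.index φ h2, Bas.abs_eq φ h2, Bas.norm_mod φ h2, Bas.unit_eq φ h2,
    Bas.nonsq φ h2⟩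

end Pool.Agent.P.MP_29cb78_nt.C
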