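import Pool.Agent.P.MP_29cb78_nt.C.BetaAux2

/-!
The elliptic element attached to a commutator.
-/

namespace Pool.Agent.P.MP_29cb78_nt.C

open NumberField Set Ideal
open scoped Classical

set_option linter.unusedSectionVars false

noncomputable section

namespace Beta

variable {F B : Type} [Field F] [NumberField F] [CommMonoid B]

theorem cop_mul {n : ℕ} {I J : Ideal (𝓞 F)} (hI : Cop n I) (hJ : Cop n J) : Cop n (I * J) :=
  ⟨mul_ne_zero hI.1 hJ.1, hI.2.mul_left hJ.2⟩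

theorem cop_one (n : ℕ) : Cop n (1 : Ideal (𝓞 F)) := ⟨one_ne_zero, isCoprime_one_left⟩

theorem span_le {n m : ℕ} (h : n ∣ m) : span {(m : 𝓞 F)} ≤ span {(n : 𝓞 F)} :=
  span_singleton_le_span_singleton.mpr (Nat.cast_dvd_cast h)

theorem cop_dvd {n m : ℕ} (h : n ∣ m) {I : Ideal (𝓞 F)} (hI : Cop m I) : Cop n I :=
  ⟨hI.1, hI.2.of_isCoprime_of_dvd_right (dvd_iff_le.mpr (span_le h))⟩

theorem rayEq_dvd {n m : ℕ} (h : n ∣ m) {I J : Ideal (𝓞 F)} (hI : RayEq m I J) :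
    RayEq n I J := by
  obtain ⟨α, β, h1, h2, h3, h4, h5⟩ := hI
  exact ⟨α, β, h1, h2, span_le h h3, span_le h h4, h5⟩

theorem ray_eq {n : ℕ} {a : Ideal (𝓞 F) →* B} (ha : Ray n a) {I J : Ideal (𝓞 F)}
    (h : RayEq n I J) : a I = a J := by
  obtain ⟨α, β, h1, h2, h3, h4, h5⟩ := h
  have := congrArg a h5
  rwa [map_mul, map_mul, ha α h1 h3, ha β h2 h4, one_mul, one_mul] at this

theorem cop_max {n : ℕ} {P : Ideal (𝓞 F)} (hP : P.IsMaximal) (hn : (n : 𝓞 F) ∉ P) :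
    Cop n P := by
  refine ⟨Ring.ne_bot_of_isMaximal_of_not_isField hP (RingOfIntegers.not_isField F), ?_⟩
  rw [isCoprime_iff_sup_eq]
  by_contra h
  have := hP.eq_of_le h le_sup_left
  exact hn (this ▸ mem_sup_right (mem_span_singleton_self _))

/-- A multiplicative function on ideals that factors through the classes. -/
theorem descend {C M : Type} [CommGroup C] [Monoid M] {n : ℕ} (cl : Ideal (𝓞 F) → C)
    (hm : ∀ I J, Cop n I → Cop n J → cl (I * J) = cl I * cl J)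
    (rep : C → Ideal (𝓞 F)) (hr : ∀ c, Cop n (rep c) ∧ cl (rep c) = c) (f : Ideal (𝓞 F) → M)
    (h1 : f 1 = 1) (hf : ∀ I J, Cop n I → Cop n J → f (I * J) = f I * f J)
    (he : ∀ I J, Cop n I → Cop n J → cl I = cl J → f I = f J) :
    ∃ u : C →* M, ∀ I, Cop n I → u (cl I) = f I := by
  have c1 : cl 1 = 1 := by
    have := hm 1 1 (cop_one n) (cop_one n)
    rw [mul_one] at this
    exact mul_eq_left.mp this.symm
  refine ⟨⟨⟨fun c => f (rep c), ?_⟩, fun c d => ?_⟩, fun I hI => ?_⟩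
  · rw [← h1]
    exact he _ _ (hr 1).1 (cop_one n) (by rw [(hr 1).2, c1])
  · simp only
    rw [← hf _ _ (hr c).1 (hr d).1]
    exact he _ _ (hr _).1 (cop_mul (hr c).1 (hr d).1)
      (by rw [hm _ _ (hr c).1 (hr d).1, (hr _).2, (hr _).2, (hr _).2])
  · exact he _ _ (hr _).1 hI (hr _).2

/-- The series over a fibre is a sum of series over ray classes. -/
theorem fz_sum (hD : DIRI) {C : Type} [CommGroup C] [Fintype C] {n : ℕ} (cl : Ideal (𝓞 F) → C)
    (hm : ∀ I J, Cop n I → Cop n J → cl (I * J) = cl I * cl J)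
    (he : ∀ I J, Cop n I → Cop n J → (cl I = cl J ↔ RayEq n I J))
    (a : Ideal (𝓞 F) →* B) (ab : C →* B) (hab : ∀ I, Cop n I → ab (cl I) = a I) (d : C)
    (c : C → Ideal (𝓞 F)) (hc : ∀ κ, Cop n (c κ) ∧ cl (c κ) = κ * d⁻¹) (s : ℂ) (hs : 1 < s.re) :
    ∑ κ ∈ Finset.univ.filter fun κ => ab κ = 1, rz n (c κ) s = fz n a (ab d) s := by
  have c1 : cl 1 = 1 := by
    have := hm 1 1 (cop_one n) (cop_one n)
    rw [mul_one] at this
    exact mul_eq_left.mp this.symm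
  unfold rz fz Lser
  rw [← Summable.tsum_finsetSum]
  · refine tsum_congr fun I => ?_
    rw [← Finset.sum_mul]
    congr 1
    by_cases hI : Cop n I
    · have h1 : ∀ κ, (Cop n I ∧ RayEq n (I * c κ) 1) ↔ κ = d * (cl I)⁻¹ := fun κ => by
        rw [← he _ _ (cop_mul hI (hc κ).1) (cop_one n), hm _ _ hI (hc κ).1, (hc κ).2, c1,
          and_iff_right hI, eq_mul_inv_iff_mul_eq, ← mul_assoc, mul_inv_eq_one, mul_comm]
      have h2 : ab (d * (cl I)⁻¹) = 1 ↔ a I = ab d := by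
        rw [← hab I hI]
        constructor
        · intro h
          have := map_mul ab (d * (cl I)⁻¹) (cl I)
          rw [inv_mul_cancel_right, h, one_mul] at this
          exact this.symm
        · intro h
          rw [map_mul, ← h, ← map_mul, mul_inv_cancel, map_one]
      simp only [h1, Finset.sum_ite_eq', Finset.mem_filter, Finset.mem_univ, true_and, h2]
      simp only [hI, true_and]
    · simp [hI]
  · intro κ _
    refine Summable.of_norm_bounded (hD F s hs).1 fun I => ?_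
    rw [norm_mul]
    refine mul_le_of_le_one_left (norm_nonneg _) ?_
    dsimp only
    split_ifs <;> simp

theorem log_prod {ι : Type} (S : Finset ι) (u : ι → ℂ) (hu : ∀ i, u i ≠ 0) :
    ∑ i ∈ S, (-(Real.log (‖u i‖ ^ 2) : ℝ) : ℂ) = -(Real.log (‖∏ i ∈ S, u i‖ ^ 2) : ℝ) := by
  rw [norm_prod, ← Finset.prod_pow,
    Real.log_prod fun i _ => pow_ne_zero _ (norm_ne_zero_iff.mpr (hu i))]
  simp

end Beta

open Beta in
theorem beta : DIRI → RAY → LAM → GEN → BETA := by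
  intro hD hR hL hG F Ω B _ _ _ _ _ _ _ _ φ N a r g x y h2 hN ha hr hg
  have hN0 : N ≠ 0 := by omega
  have hN1 : 24 * N ^ 2 ≠ 0 := by positivity
  have hdv : N ∣ 24 * N ^ 2 := ⟨24 * N, by ring⟩
  obtain ⟨lam, hl1, hl2, hl3⟩ := hL F (φ.comp (algebraMap F Ω)) N h2 hN
  obtain ⟨C1, _, _, cl1, m1, e1, s1⟩ := hR F (24 * N ^ 2) hN1
  obtain ⟨C, _, _, cl, m0, e0, s0⟩ := hR F N hN0
  have := Fintype.ofFinite C
  choose rep1 hrep1 using s1 1 one_ne_zero
  simp only [mul_one] at hrep1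
  choose rep hrep using s0 (24 * N) (by omega)
  rw [show N * (24 * N) = 24 * N ^ 2 by ring] at hrep
  have c1 : cl 1 = 1 := by
    have := m0 1 1 (cop_one N) (cop_one N)
    rw [mul_one] at this
    exact mul_eq_left.mp this.symm
  obtain ⟨pr, hpr⟩ := descend cl1 m1 rep1 hrep1 cl c1
    (fun I J hI hJ => m0 I J (cop_dvd hdv hI) (cop_dvd hdv hJ)) fun I J hI hJ h =>
      (e0 I J (cop_dvd hdv hI) (cop_dvd hdv hJ)).mpr (rayEq_dvd hdv ((e1 I J hI hJ).mp h))
  obtain ⟨ab, hab⟩ := descend cl m0 rep (fun c => ⟨cop_dvd hdv (hrep c).1, (hrep c).2⟩) a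
    (map_one a) (fun I J _ _ => map_mul a I J) fun I J hI hJ h => ray_eq ha ((e0 I J hI hJ).mp h)
  have hpr1 : ∀ c, cl (rep1 c) = pr c := fun c => by rw [← hpr _ (hrep1 c).1, (hrep1 c).2]
  obtain ⟨K, _, _, _, _, ψ, hψ, hK⟩ := Beta.exists_field φ (Set.range fun c => lam (rep1 c))
    (Set.finite_range _) (by rintro _ ⟨c, rfl⟩; exact (hl1 _ (hrep1 c).1).1)
  choose l hl using fun c => hK (lam (rep1 c)) ⟨c, rfl⟩
  let _ : Algebra F K := ((algebraMap Ω K).comp (algebraMap F Ω)).toAlgebra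
  have : IsScalarTower F Ω K := IsScalarTower.of_algebraMap_eq fun _ => rfl
  have : IsGalois F Ω := IsGalois.tower_top_of_isGalois ℚ F Ω
  have : IsGalois F K := IsGalois.tower_top_of_isGalois ℚ F K
  have hlc : ∀ I, Cop (24 * N ^ 2) I → ψ (l (cl1 I)) = lam I := fun I hI => by
    rw [hl]
    exact (hl2 _ _ (hrep1 _).1 hI).1 ((e1 _ _ (hrep1 _).1 hI).mp (hrep1 _).2)
  obtain ⟨D, hD0, hun⟩ := unram (K := F)
  have hact := act hG l (ab.comp pr) (r.comp (AlgEquiv.restrictNormalHom Ω)) (24 * N ^ 2 * D)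
    (mul_ne_zero hN1 hD0) fun Q hQ hn hp σ hσ => by
      have hP : (Q.under (𝓞 F)).IsMaximal := IsMaximal.under _ _
      have hm : ∀ k : ℕ, k ∣ 24 * N ^ 2 * D → (k : 𝓞 K) ∉ Q := fun k ⟨j, hj⟩ h =>
        hn (by rw [hj, Nat.cast_mul]; exact Q.mul_mem_right _ h)
      have hm' : ∀ k : ℕ, k ∣ 24 * N ^ 2 * D → (k : 𝓞 F) ∉ Q.under (𝓞 F) := fun k hk h =>
        hm k hk (by simpa [under, mem_comap] using h)
      have hc := cop_max hP (hm' _ (dvd_mul_right _ _))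
      refine ⟨cl1 (Q.under (𝓞 F)), ?_, fun c => ?_⟩
      · rw [MonoidHom.comp_apply, MonoidHom.comp_apply, hpr _ hc, hab _ (cop_dvd hdv hc),
          ← hr (Q.under (𝓞 Ω)) (IsMaximal.under _ _) (fun h => hm N (hdv.mul_right _)
            (by simpa [under, mem_comap] using h)) _ (frob_res Q σ hσ), under_under]
      · obtain ⟨P, hP1, hP2⟩ := prime_over ψ Q hQ
        have h3 := hl3 (rep1 c) _ P (hrep1 c).1 hc hp
          (hun _ (hm' _ (dvd_mul_left _ _)) hp) hP1 fun z hz => by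
            have := (hP2 (algebraMap (𝓞 F) (𝓞 K) z)).mpr hz
            rw [RingHom.comp_apply, ← hψ]
            exact this
        rw [← hlc _ (cop_mul (hrep1 c).1 hc), m1 _ _ (hrep1 c).1 hc, (hrep1 c).2, ← hl] at h3
        rw [← hP2]
        simpa using h3
  have hl0 : ∀ c, (l c : K) ≠ 0 := fun c h => (hl1 _ (hrep1 c).1).2.1 (by rw [← hl, h, map_zero])
  have hs : ∀ κ, pr (cl1 (rep κ)) = κ := fun κ => by rw [hpr _ (hrep κ).1, (hrep κ).2]
  obtain ⟨β, g', hg', hβ, hn⟩ := core pr ab (fun c => (l c : K)) (fun κ => cl1 (rep κ)) hs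
    (24 * N) (by omega) hl0 (fun c c' h => ψ.injective (by
      rw [map_pow, map_pow, hl, hl]
      exact (hl2 _ _ (hrep1 c).1 (hrep1 c').1).2 ((e0 _ _ (cop_dvd hdv (hrep1 c).1)
        (cop_dvd hdv (hrep1 c').1)).mp (by rw [hpr1, hpr1, h])))) r hact g x y hg
  set L := LL ab (fun c => (l c : K)) (fun κ => cl1 (rep κ)) with hLd
  have hL0 : L ≠ 0 := Finset.prod_ne_zero_iff.mpr fun κ _ => hl0 _
  have hL1 : ∀ ρ : Gal(K/F), ρ L ≠ 0 := fun ρ => (map_ne_zero ρ).mpr hL0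
  have hcont : ∀ ρ : Gal(K/F), Cont (fz N a (r (AlgEquiv.restrictNormalHom Ω ρ)))
      (-(Real.log (‖ψ (ρ L)‖ ^ 2) : ℝ)) := fun ρ => by
    obtain ⟨δ, h3, h4⟩ := hact ρ
    have h5 : ∀ c, ψ (ρ (l c)) = lam (rep1 (c * δ⁻¹)) := fun c => by
      rw [← hl, ← h4 (c * δ⁻¹), inv_mul_cancel_right]
    refine (Cont.sum (Finset.univ.filter fun κ => ab κ = 1)
      fun κ _ => (hl1 _ (hrep1 (cl1 (rep κ) * δ⁻¹)).1).2.2.2).congr (fun s hs' => ?_) ?_
    · rw [fz_sum hD cl m0 e0 a ab hab (pr δ) _ (fun κ => ⟨cop_dvd hdv (hrep1 _).1, by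
        rw [hpr1, map_mul, map_inv, hs]⟩) s hs']
      exact congrArg (fun b => fz N a b s) h3
    · rw [log_prod _ _ fun κ => (hl1 _ (hrep1 _).1).2.1]
      simp only [hLd, LL, map_prod, h5]
  have hint : ∀ z : Ω, IsIntegral ℤ (algebraMap Ω K z) → IsIntegral ℤ z := fun z =>
    (isIntegral_algebraMap_iff (algebraMap Ω K).injective).mp
  refine ⟨β, fun h => ?_, fun hpp => ?_, hn, fun ρ => ?_⟩
  · rw [h, map_zero] at hβ
    exact div_ne_zero hL0 (hL1 g') hβ.symm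
  · have i1 : IsIntegral ℤ L := IsIntegral.prod _ fun κ _ => RingOfIntegers.isIntegral_coe _
    have i2 : IsIntegral ℤ L⁻¹ := by
      rw [hLd, LL, ← Finset.prod_inv_distrib]
      refine IsIntegral.prod _ fun κ _ => ?_
      refine (isIntegral_algHom_iff ψ.toIntAlgHom ψ.injective).mp ?_
      have := (hl1 _ (hrep1 (cl1 (rep κ))).1).2.2.1 hpp
      rw [← hl, ← map_inv₀] at this
      exact this
    have i3 : ∀ z : K, IsIntegral ℤ z → IsIntegral ℤ (g' z) := fun z hz =>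
      hz.map (g' : K →+* K).toIntAlgHom
    refine ⟨hint _ ?_, hint _ ?_⟩
    · rw [hβ, div_eq_mul_inv, ← map_inv₀]
      exact i1.mul (i3 _ i2)
    · rw [map_inv₀, hβ, inv_div, div_eq_mul_inv]
      exact (i3 _ i1).mul i2
  · obtain ⟨ρ', rfl⟩ := AlgEquiv.restrictNormalHom_surjective (F := F) (K₁ := Ω) K ρ
    refine ((hcont ρ').add ((hcont (ρ' * g')).const_mul (-1))).congr (fun s _ => ?_) ?_
    · rw [map_mul, map_mul, hg']
      ring
    · have h3 : algebraMap Ω K (AlgEquiv.restrictNormalHom Ω ρ' β) = ρ' (algebraMap Ω K β) :=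
        AlgEquiv.restrictNormal_commutes _ Ω β
      have h4 : ∀ σ : Gal(K/F), ‖ψ (σ L)‖ ^ 2 ≠ 0 := fun σ =>
        pow_ne_zero _ (norm_ne_zero_iff.mpr ((map_ne_zero ψ).mpr (hL1 σ)))
      rw [← hψ, h3, hβ, map_div₀, map_div₀, norm_div, div_pow, ← AlgEquiv.mul_apply,
        Real.log_div (h4 _) (h4 _)]
      push_cast
      ring

end

end Pool.Agent.P.MP_29cb78_nt.C
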