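import Pool.Agent.P.MP_29cb78_nt.TCl

/-!
The index computation behind the ambiguous class number inequality, for abstract abelian groups.
-/

namespace Pool.Agent.P.MP_29cb78_nt.C.Chev

open Subgroup

/-- cokernel and kernel of an endomorphism of a finite quotient have the same order -/
theorem index_range_sup {I : Type*} [CommGroup I] (d : I →* I) (P : Subgroup I)
    (hP : P.index ≠ 0) (hd : P ≤ P.comap d) :
    (d.range ⊔ P).index = P.relIndex (P.comap d) := by
  have e1 := relIndex_mul_index hd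
  have e2 := relIndex_mul_index (le_sup_right : P ≤ d.range ⊔ P)
  rw [index_comap] at e1
  rw [relIndex_sup_right] at e2
  have h0 : P.relIndex d.range ≠ 0 := by
    intro h
    rw [h, zero_mul] at e2
    exact hP e2.symm
  apply Nat.eq_of_mul_eq_mul_left (Nat.pos_of_ne_zero h0)
  rw [e2, mul_comm, e1]

/-- the index of the image in a finite group -/
theorem card_le_relIndex {K : Type*} [CommGroup K] (δ : K →* K) (U T : Subgroup K) [Finite T]
    (hUT : U ≤ T) (hU : U ≤ δ.ker) (hT : ∀ u ∈ T, δ u ∈ T) :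
    Nat.card U ≤ (T.map δ).relIndex T := by
  have hle : T.map δ ≤ T := by
    rintro _ ⟨u, hu, rfl⟩
    exact hT u hu
  have e1 := relIndex_mul_relIndex ⊥ (T.map δ) T bot_le hle
  have e2 := relIndex_mul_relIndex ⊥ (δ.ker ⊓ T) T bot_le inf_le_right
  rw [relIndex_bot_left, relIndex_bot_left] at e1 e2
  rw [inf_relIndex_right, relIndex_ker] at e2
  have : Finite (T.map δ) := Finite.of_injective _ (inclusion_injective hle)
  have : Finite (δ.ker ⊓ T : Subgroup K) :=
    Finite.of_injective _ (inclusion_injective inf_le_right)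
  have h0 : 0 < Nat.card (T.map δ) := Nat.card_pos
  have e3 : (T.map δ).relIndex T = Nat.card (δ.ker ⊓ T : Subgroup K) := by
    apply Nat.eq_of_mul_eq_mul_left h0
    rw [e1, mul_comm, e2]
  rw [e3]
  exact card_le_of_le (le_inf hU hUT)

theorem key {K I : Type*} [CommGroup K] [CommGroup I] (p : K →* I) (δ N : K →* K) (d : I →* I)
    (IF PF : Subgroup I) (U V T : Subgroup K) [Finite T] (R : ℕ)
    (h1 : ∀ x, p (δ x) = d (p x)) (h90 : ∀ x, N x = 1 → ∃ y, δ y = x) (hN : ∀ x, N (δ x) = 1)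
    (hP : p.range.index ≠ 0) (a1 : PF ≤ IF) (a2 : IF ≤ d.ker) (a3 : PF ≤ p.range)
    (a4 : ∀ y, p y ∈ PF → ∃ u, p u = 1 ∧ δ u = δ y)
    (hR : IF.relIndex d.ker ∣ R) (hR0 : R ≠ 0) (hh : PF.relIndex IF ≠ 0)
    (hZ : ∀ x, p x ∈ d.range → N x ∈ V) (hVU : V ≤ U) (hUT : U ≤ T) (hU : U ≤ δ.ker)
    (hT : T ≤ p.ker) (hT2 : ∀ u ∈ T, δ u ∈ T) (hT3 : ∀ u, p u = 1 → δ u ∈ T → u ∈ T)
    (hE : ¬ p.ker ≤ p.ker.map δ ⊔ T) :
    (d.range ⊔ p.range).index * V.relIndex U < PF.relIndex IF * R := by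
  have fU : Finite U := Finite.of_injective _ (inclusion_injective hUT)
  have fV : Finite V := Finite.of_injective _ (inclusion_injective hVU)
  have hPX : p.range ≤ p.range.comap d := by
    rintro _ ⟨x, rfl⟩
    exact ⟨δ x, h1 x⟩
  have hGX : d.ker ⊔ p.range ≤ p.range.comap d := by
    refine sup_le (fun x hx => ?_) hPX
    rw [mem_comap, MonoidHom.mem_ker.1 hx]
    exact one_mem _
  have hNV : p.ker.map N ≤ V := by
    rintro _ ⟨x, hx, rfl⟩
    apply hZ
    rw [MonoidHom.mem_ker.1 hx]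
    exact one_mem _
  have fN : Finite (p.ker.map N) := Finite.of_injective _ (inclusion_injective hNV)
  -- the class number of the fixed classes
  have eA := index_range_sup d p.range hP hPX
  have eB := relIndex_mul_relIndex p.range (d.ker ⊔ p.range) _ le_sup_right hGX
  rw [relIndex_sup_right, ← inf_relIndex_left] at eB
  -- classes without a fixed ideal
  have dC : (d.ker ⊔ p.range).relIndex (p.range.comap d) ∣ (p.ker.map N).relIndex V := by
    have s1 : (p.range.map d).comap d ≤ d.ker ⊔ p.range := by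
      rw [comap_map_eq, sup_comm]
    have s2 : (p.range.comap d).map d ≤ (d.range.comap p).map p := by
      rintro _ ⟨a, ⟨x, hx⟩, rfl⟩
      exact ⟨x, ⟨a, hx.symm⟩, hx⟩
    have s3 : (p.ker.map N).comap N ≤ (p.range.map d).comap p := by
      rintro x ⟨u, hu, hux⟩
      obtain ⟨y, hy⟩ := h90 (x / u) (by rw [map_div, hux, div_self'])
      refine ⟨p y, ⟨y, rfl⟩, ?_⟩
      rw [← h1, hy, map_div, MonoidHom.mem_ker.1 hu, div_one]
    have s4 : (d.range.comap p).map N ≤ V := by
      rintro _ ⟨x, hx, rfl⟩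
      exact hZ x hx
    refine (relIndex_dvd_of_le_left _ s1).trans ?_
    rw [relIndex_comap]
    refine (TCl.relIndex_dvd_right _ _ _ s2).trans ?_
    rw [← relIndex_comap]
    refine (relIndex_dvd_of_le_left _ s3).trans ?_
    rw [relIndex_comap]
    exact TCl.relIndex_dvd_right _ _ _ s4
  have c0 : (p.ker.map N).relIndex V ≠ 0 := fun h =>
    (Nat.card_pos (α := V)).ne' (Nat.eq_zero_of_zero_dvd (h ▸ relIndex_dvd_card _ _))
  -- fixed ideals
  have l3 : PF ≤ d.ker ⊓ p.range := le_inf (a1.trans a2) a3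
  have eD := relIndex_mul_relIndex PF _ d.ker l3 inf_le_left
  have eD2 := relIndex_mul_relIndex PF IF d.ker a1 a2
  have r0 : IF.relIndex d.ker ≠ 0 := fun h => hR0 (Nat.eq_zero_of_zero_dvd (h ▸ hR))
  have t0 : PF.relIndex (d.ker ⊓ p.range) * (d.ker ⊓ p.range).relIndex d.ker ≠ 0 := by
    rw [eD, ← eD2]
    exact mul_ne_zero hh r0
  have D0 := left_ne_zero_of_mul t0
  have B0 := right_ne_zero_of_mul t0
  -- fixed principal ideals
  have dE : (p.ker.map δ).relIndex (p.ker ⊓ N.ker) ∣ PF.relIndex (d.ker ⊓ p.range) := by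
    have s1 : p.ker ⊓ N.ker ≤ (d.ker.comap p).map δ := by
      rintro x ⟨hx, hx'⟩
      obtain ⟨y, rfl⟩ := h90 x hx'
      refine ⟨y, ?_, rfl⟩
      change d (p y) = 1
      rw [← h1]
      exact hx
    have s2 : PF.comap p ≤ (p.ker.map δ).comap δ := by
      intro y hy
      obtain ⟨u, hu, hu'⟩ := a4 y hy
      exact ⟨u, hu, hu'⟩
    refine (TCl.relIndex_dvd_right _ _ _ s1).trans ?_
    rw [← relIndex_comap]
    refine (relIndex_dvd_of_le_left _ s2).trans ?_
    rw [relIndex_comap, map_comap_eq, inf_comm]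
  have e0 : (p.ker.map δ).relIndex (p.ker ⊓ N.ker) ≠ 0 := fun h =>
    D0 (Nat.eq_zero_of_zero_dvd (h ▸ dE))
  -- units
  have hdE : p.ker.map δ ≤ p.ker ⊓ N.ker := by
    rintro _ ⟨u, hu, rfl⟩
    refine ⟨?_, hN u⟩
    change p (δ u) = 1
    rw [h1, MonoidHom.mem_ker.1 hu, map_one]
  have eF := relIndex_mul_relIndex _ _ p.ker hdE inf_le_left
  rw [inf_relIndex_left, relIndex_ker] at eF
  have f0 : 0 < Nat.card (p.ker.map N) := Nat.card_pos
  have eU := relIndex_mul_relIndex ⊥ V U bot_le hVU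
  have eV := relIndex_mul_relIndex ⊥ _ V bot_le hNV
  rw [relIndex_bot_left, relIndex_bot_left] at eU eV
  have hsup : p.ker.map δ ⊔ T ≤ p.ker := sup_le (hdE.trans inf_le_left) hT
  have eG := relIndex_mul_relIndex _ _ p.ker le_sup_left hsup
  rw [relIndex_sup_left] at eG
  have g0 : (p.ker.map δ).relIndex p.ker ≠ 0 := by
    rw [← eF]
    exact mul_ne_zero e0 f0.ne'
  rw [← eG] at g0
  have g1 : (p.ker.map δ ⊔ T).relIndex p.ker ≠ 1 := fun h => hE (relIndex_eq_one.1 h)
  have g2 : 2 ≤ (p.ker.map δ ⊔ T).relIndex p.ker := by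
    have := right_ne_zero_of_mul g0
    omega
  have g3 : Nat.card U ≤ (p.ker.map δ).relIndex T := by
    refine (card_le_relIndex δ U T hUT hU hT2).trans (Nat.le_of_dvd
      (Nat.pos_of_ne_zero (left_ne_zero_of_mul g0)) ?_)
    rw [← inf_relIndex_right (p.ker.map δ) T]
    apply relIndex_dvd_of_le_left
    rintro _ ⟨⟨u, hu, rfl⟩, hu'⟩
    exact ⟨u, hT3 u hu hu', rfl⟩
  have u0 : 0 < Nat.card U := Nat.card_pos
  have g4 : Nat.card U < (p.ker.map δ).relIndex (p.ker ⊓ N.ker) * Nat.card (p.ker.map N) := by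
    rw [eF, ← eG]
    nlinarith
  have g5 : (p.ker.map N).relIndex V * V.relIndex U <
      (p.ker.map δ).relIndex (p.ker ⊓ N.ker) := by
    apply Nat.lt_of_mul_lt_mul_right (a := Nat.card (p.ker.map N))
    calc _ = Nat.card U := by rw [← eU, ← eV]; ring
      _ < _ := g4
  have i1 := Nat.le_of_dvd (Nat.pos_of_ne_zero c0) dC
  have i2 := Nat.le_of_dvd (Nat.pos_of_ne_zero D0) dE
  have i3 := Nat.le_of_dvd (Nat.pos_of_ne_zero hR0) hR
  have b0 := Nat.pos_of_ne_zero B0
  calc (d.range ⊔ p.range).index * V.relIndex U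
      = (d.ker ⊓ p.range).relIndex d.ker *
        ((d.ker ⊔ p.range).relIndex (p.range.comap d) * V.relIndex U) := by
        rw [eA, ← eB, mul_assoc]
    _ ≤ (d.ker ⊓ p.range).relIndex d.ker * ((p.ker.map N).relIndex V * V.relIndex U) := by
        gcongr
    _ < (d.ker ⊓ p.range).relIndex d.ker * PF.relIndex (d.ker ⊓ p.range) :=
        Nat.mul_lt_mul_of_pos_left (g5.trans_le i2) b0
    _ = PF.relIndex IF * IF.relIndex d.ker := by rw [mul_comm, eD, eD2]
    _ ≤ PF.relIndex IF * R := by gcongr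

end Pool.Agent.P.MP_29cb78_nt.C.Chev
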