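import Pool.Agent.P.MP_29cb78_nt.TCl

/-!
The Galois action on fractional ideals, and the fixed fractional ideals in a cubic extension.
-/

namespace Pool.Agent.P.MP_29cb78_nt.C.Chev

open NumberField Set Ideal IsDedekindDomain
open scoped Classical nonZeroDivisors Pointwise

noncomputable section

section one

variable {L : Type} [Field L] [NumberField L]

/-- A prime as an invertible fractional ideal. -/
def pr (v : HeightOneSpectrum (𝓞 L)) : (FractionalIdeal (𝓞 L)⁰ L)ˣ :=
  Units.mk0 (v.asIdeal : FractionalIdeal (𝓞 L)⁰ L) (FractionalIdeal.coeIdeal_ne_zero.2 v.ne_bot)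

theorem mem_of_primes (S : Subgroup (FractionalIdeal (𝓞 L)⁰ L)ˣ) (h : ∀ v, pr v ∈ S)
    (a : (FractionalIdeal (𝓞 L)⁰ L)ˣ) : a ∈ S := by
  have key : ∀ (J : Ideal (𝓞 L)) (u : (FractionalIdeal (𝓞 L)⁰ L)ˣ),
      (u : FractionalIdeal (𝓞 L)⁰ L) = J → u ∈ S := by
    intro J
    induction J using UniqueFactorizationMonoid.induction_on_prime with
    | h₁ => intro u hu; exact absurd (by rw [hu]; simp) u.ne_zero
    | h₂ J hJ =>
      intro u hu
      rw [Ideal.isUnit_iff.1 hJ, FractionalIdeal.coeIdeal_top] at hu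
      rw [Units.val_eq_one.1 hu]
      exact S.one_mem
    | h₃ J q hJ hq ih =>
      intro u hu
      have e : u = pr ⟨q, Ideal.isPrime_of_prime hq, hq.ne_zero⟩ *
          Units.mk0 (J : FractionalIdeal (𝓞 L)⁰ L) (FractionalIdeal.coeIdeal_ne_zero.2 hJ) := by
        apply Units.ext
        rw [hu, FractionalIdeal.coeIdeal_mul]
        rfl
      rw [e]
      exact S.mul_mem (h _) (ih _ rfl)
  obtain ⟨x, J, hx, hJ⟩ := FractionalIdeal.exists_eq_spanSingleton_mul
    (a : FractionalIdeal (𝓞 L)⁰ L)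
  have hx0 : ((Ideal.span {x} : Ideal (𝓞 L)) : FractionalIdeal (𝓞 L)⁰ L) ≠ 0 :=
    FractionalIdeal.coeIdeal_ne_zero.2 (by rwa [Ne, Ideal.span_singleton_eq_bot])
  have h1 := key _ (Units.mk0 _ hx0) rfl
  have h2 := key J (Units.mk0 _ hx0 * a) (by
    rw [Units.val_mul, Units.val_mk0, hJ, ← FractionalIdeal.spanSingleton_inv,
      ← FractionalIdeal.coeIdeal_span_singleton, mul_inv_cancel_left₀ hx0])
  exact (S.mul_mem_cancel_left h1).1 h2

theorem hom_ext {B : Type*} [Group B] (φ ψ : (FractionalIdeal (𝓞 L)⁰ L)ˣ →* B)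
    (h : ∀ v, φ (pr v) = ψ (pr v)) (a : (FractionalIdeal (𝓞 L)⁰ L)ˣ) : φ a = ψ a :=
  mem_of_primes (φ.eqLocus ψ) h a

/-- The valuation of an invertible fractional ideal. -/
def cnt (v : HeightOneSpectrum (𝓞 L)) : (FractionalIdeal (𝓞 L)⁰ L)ˣ →* Multiplicative ℤ :=
  MonoidHom.mk' (fun a => Multiplicative.ofAdd
    (FractionalIdeal.count L v (a : FractionalIdeal (𝓞 L)⁰ L))) fun a b => by
      rw [Units.val_mul, FractionalIdeal.count_mul L v a.ne_zero b.ne_zero, ofAdd_add]

theorem cnt_apply (v : HeightOneSpectrum (𝓞 L)) (a : (FractionalIdeal (𝓞 L)⁰ L)ˣ) :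
    (cnt v a).toAdd = FractionalIdeal.count L v (a : FractionalIdeal (𝓞 L)⁰ L) := rfl

theorem eq_of_count {a b : (FractionalIdeal (𝓞 L)⁰ L)ˣ}
    (h : ∀ v, FractionalIdeal.count L v (a : FractionalIdeal (𝓞 L)⁰ L) =
      FractionalIdeal.count L v (b : FractionalIdeal (𝓞 L)⁰ L)) : a = b := by
  apply Units.ext
  rw [← FractionalIdeal.finprod_heightOneSpectrum_factorization' L a.ne_zero,
    ← FractionalIdeal.finprod_heightOneSpectrum_factorization' L b.ne_zero]
  exact finprod_congr fun v => by rw [h v]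

theorem exists_count (c : HeightOneSpectrum (𝓞 L) → ℤ) (hc : {v | c v ≠ 0}.Finite) :
    ∃ a : (FractionalIdeal (𝓞 L)⁰ L)ˣ,
      ∀ v, FractionalIdeal.count L v (a : FractionalIdeal (𝓞 L)⁰ L) = c v := by
  refine ⟨∏ v ∈ hc.toFinset, pr v ^ c v, fun w => ?_⟩
  rw [← cnt_apply, map_prod, toAdd_prod]
  simp only [map_zpow, toAdd_zpow, cnt_apply, pr, Units.val_mk0, FractionalIdeal.count_maximal]
  rw [Finset.sum_eq_single w]
  · simp
  · intro v _ hv
    simp [hv]
  · intro hw
    simp only [Set.Finite.mem_toFinset, Set.mem_ofPred_eq, not_not] at hw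
    simp [hw]

end one

variable {F M : Type} [Field F] [Field M] [NumberField F] [NumberField M] [Algebra F M]

/-- The action on the ring of integers. -/
abbrev rh (τ : Gal(M/F)) : 𝓞 M →+* 𝓞 M := MulSemiringAction.toRingHom Gal(M/F) (𝓞 M) τ

omit [NumberField F] [NumberField M] in
theorem rh_inj (τ : Gal(M/F)) : Function.Injective (rh τ) := MulAction.injective τ

/-- The action on fractional ideals. -/
def act (τ : Gal(M/F)) : (FractionalIdeal (𝓞 M)⁰ M)ˣ →* (FractionalIdeal (𝓞 M)⁰ M)ˣ :=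
  Units.map (FractionalIdeal.extendedHom' M
    (nonZeroDivisors_le_comap_nonZeroDivisors_of_injective _ (rh_inj τ)) :
      FractionalIdeal (𝓞 M)⁰ M →+* FractionalIdeal (𝓞 M)⁰ M).toMonoidHom

omit [NumberField F] in
theorem act_coe (τ : Gal(M/F)) (a : (FractionalIdeal (𝓞 M)⁰ M)ˣ) (J : Ideal (𝓞 M))
    (h : (a : FractionalIdeal (𝓞 M)⁰ M) = J) :
    (act τ a : FractionalIdeal (𝓞 M)⁰ M) = (τ • J : Ideal (𝓞 M)) := by
  change FractionalIdeal.extended M _ (a : FractionalIdeal (𝓞 M)⁰ M) = _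
  rw [h, FractionalIdeal.extended_coeIdeal_eq_map, Ideal.pointwise_smul_def]

omit [NumberField F] in
theorem act_principal (τ : Gal(M/F)) (x : Mˣ) :
    act τ (toPrincipalIdeal (𝓞 M) M x) = toPrincipalIdeal (𝓞 M) M (Units.map (τ : M →* M) x) := by
  apply Units.ext
  change FractionalIdeal.extended M _ (toPrincipalIdeal (𝓞 M) M x : FractionalIdeal (𝓞 M)⁰ M) = _
  rw [coe_toPrincipalIdeal, coe_toPrincipalIdeal, FractionalIdeal.extended_spanSingleton]
  congr 1
  have : IsLocalization.map M (rh τ)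
      (nonZeroDivisors_le_comap_nonZeroDivisors_of_injective _ (rh_inj τ)) = (τ : M →+* M) := by
    apply IsLocalization.ringHom_ext (𝓞 M)⁰
    ext z
    simp only [RingHom.comp_apply, IsLocalization.map_eq]
    rfl
  rw [this]
  rfl

/-- The action on primes. -/
def sm (τ : Gal(M/F)) (v : HeightOneSpectrum (𝓞 M)) : HeightOneSpectrum (𝓞 M) where
  asIdeal := τ • v.asIdeal
  isPrime := by have := v.isPrime; infer_instance
  ne_bot := by
    rw [Ideal.pointwise_smul_def, Ne, Ideal.map_eq_bot_iff_of_injective (rh_inj τ)]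
    exact v.ne_bot

omit [NumberField F] in
theorem act_pr (τ : Gal(M/F)) (v : HeightOneSpectrum (𝓞 M)) : act τ (pr v) = pr (sm τ v) :=
  Units.ext (act_coe τ _ _ rfl)

omit [NumberField F] in
theorem act_mul (τ τ' : Gal(M/F)) (a : (FractionalIdeal (𝓞 M)⁰ M)ˣ) :
    act (τ * τ') a = act τ (act τ' a) := by
  refine hom_ext (act (τ * τ')) ((act τ).comp (act τ')) (fun v => ?_) a
  rw [MonoidHom.comp_apply, act_pr, act_pr, act_pr]
  congr 1
  exact HeightOneSpectrum.ext (mul_smul _ _ _)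

omit [NumberField F] in
theorem act_one (a : (FractionalIdeal (𝓞 M)⁰ M)ˣ) : act (1 : Gal(M/F)) a = a := by
  refine hom_ext (act (1 : Gal(M/F))) (MonoidHom.id _) (fun v => ?_) a
  rw [act_pr, MonoidHom.id_apply]
  congr 1
  exact HeightOneSpectrum.ext (one_smul _ _)

omit [NumberField F] in
theorem cnt_act (τ : Gal(M/F)) (w : HeightOneSpectrum (𝓞 M)) (a : (FractionalIdeal (𝓞 M)⁰ M)ˣ) :
    cnt (sm τ w) (act τ a) = cnt w a := by
  refine hom_ext ((cnt (sm τ w)).comp (act τ)) (cnt w) (fun v => ?_) a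
  apply Multiplicative.toAdd.injective
  rw [MonoidHom.comp_apply, act_pr, cnt_apply, cnt_apply]
  simp only [pr, Units.val_mk0, FractionalIdeal.count_maximal]
  congr 1
  apply propext
  constructor
  · intro h
    exact HeightOneSpectrum.ext
      (MulAction.injective τ (congrArg HeightOneSpectrum.asIdeal h))
  · rintro rfl
    rfl

theorem act_ext (τ : Gal(M/F)) (b : (FractionalIdeal (𝓞 F)⁰ F)ˣ) :
    act τ (TCl.ext F M b) = TCl.ext F M b := by
  refine hom_ext ((act τ).comp (TCl.ext F M)) (TCl.ext F M) (fun v => ?_) b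
  have e : (TCl.ext F M (pr v) : FractionalIdeal (𝓞 M)⁰ M) =
      (v.asIdeal.map (algebraMap (𝓞 F) (𝓞 M)) : Ideal (𝓞 M)) := by
    rw [TCl.coe_ext, pr, Units.val_mk0, FractionalIdeal.extendedHom_coeIdeal_eq_map]
  apply Units.ext
  rw [MonoidHom.comp_apply, act_coe τ _ _ e, e, Ideal.pointwise_smul_def, Ideal.map_map]
  congr 2
  ext z
  exact τ.commutes (z : F)

theorem count_ext [IsGalois F M] (w : HeightOneSpectrum (𝓞 M))
    (b : (FractionalIdeal (𝓞 F)⁰ F)ˣ) :
    FractionalIdeal.count M w (TCl.ext F M b : FractionalIdeal (𝓞 M)⁰ M) =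
      Nat.card (w.asIdeal.inertia Gal(M/F)) *
        FractionalIdeal.count F (w.under (𝓞 F)) (b : FractionalIdeal (𝓞 F)⁰ F) := by
  have key := hom_ext ((cnt w).comp (TCl.ext F M))
    ((powMonoidHom (Nat.card (w.asIdeal.inertia Gal(M/F)))).comp (cnt (w.under (𝓞 F))))
    (fun v => ?_) b
  · have h := congrArg Multiplicative.toAdd key
    simpa [cnt_apply] using h
  apply Multiplicative.toAdd.injective
  rw [MonoidHom.comp_apply, MonoidHom.comp_apply, powMonoidHom_apply, toAdd_pow, cnt_apply,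
    cnt_apply, TCl.coe_ext, pr, Units.val_mk0, FractionalIdeal.extendedHom_coeIdeal_eq_map]
  have ha := v.ne_bot
  have hm : v.asIdeal.map (algebraMap (𝓞 F) (𝓞 M)) ≠ ⊥ := Ideal.map_ne_bot_of_ne_bot ha
  set p : HeightOneSpectrum (𝓞 F) := w.under (𝓞 F) with hp
  have hl : w.asIdeal.LiesOver p.asIdeal := ⟨rfl⟩
  have hvp := w.isPrime
  have hpp := p.isPrime
  have hpm := p.isMaximal
  have he : p.asIdeal.ramificationIdx' w.asIdeal = Nat.card (w.asIdeal.inertia Gal(M/F)) := by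
    rw [Ideal.ramificationIdx'_eq_ramificationIdx p.asIdeal w.asIdeal p.ne_bot,
      ← Ideal.ramificationIdxIn_eq_ramificationIdx p.asIdeal w.asIdeal Gal(M/F),
      ← Ideal.card_inertia_eq_ramificationIdxIn (G := Gal(M/F)) p.asIdeal w.asIdeal]
  have h := Ideal.IsDedekindDomain.emultiplicity_map_eq_ramificationIdx'_mul (S := 𝓞 M) ha
    p.irreducible w.irreducible w.ne_bot
  rw [he, UniqueFactorizationMonoid.emultiplicity_eq_count_normalizedFactors w.irreducible hm,
    UniqueFactorizationMonoid.emultiplicity_eq_count_normalizedFactors p.irreducible ha,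
    normalize_eq, normalize_eq] at h
  rw [FractionalIdeal.count_coe M w hm, Ideal.count_associates_factors_eq hm hvp w.ne_bot,
    FractionalIdeal.count_coe F p ha, Ideal.count_associates_factors_eq ha hpp p.ne_bot,
    nsmul_eq_mul]
  exact_mod_cast h

/-- A fixed fractional ideal whose valuations are divisible by the ramification indices comes
from the base field. -/
theorem mem_range_ext [IsGalois F M] (a : (FractionalIdeal (𝓞 M)⁰ M)ˣ)
    (ha : ∀ τ : Gal(M/F), act τ a = a)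
    (hd : ∀ w : HeightOneSpectrum (𝓞 M), (Nat.card (w.asIdeal.inertia Gal(M/F)) : ℤ) ∣
      FractionalIdeal.count M w (a : FractionalIdeal (𝓞 M)⁰ M)) : a ∈ (TCl.ext F M).range := by
  have hex : ∀ p : HeightOneSpectrum (𝓞 F), ∃ c : ℤ, (c ≠ 0 → ∃ w : HeightOneSpectrum (𝓞 M),
      w.under (𝓞 F) = p ∧ FractionalIdeal.count M w (a : FractionalIdeal (𝓞 M)⁰ M) ≠ 0) ∧
      ∀ w : HeightOneSpectrum (𝓞 M), w.under (𝓞 F) = p →
        FractionalIdeal.count M w (a : FractionalIdeal (𝓞 M)⁰ M) =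
          Nat.card (w.asIdeal.inertia Gal(M/F)) * c := by
    intro p
    by_cases h : ∃ w : HeightOneSpectrum (𝓞 M), w.under (𝓞 F) = p
    swap
    · exact ⟨0, fun h0 => absurd rfl h0, fun w hw => absurd ⟨w, hw⟩ h⟩
    obtain ⟨v, rfl⟩ := h
    obtain ⟨c, hc⟩ := hd v
    refine ⟨c, fun h0 => ⟨v, rfl, ?_⟩, fun w hw => ?_⟩
    · rw [hc]
      exact mul_ne_zero (Nat.cast_ne_zero.2 Nat.card_pos.ne') h0
    · have := v.isPrime
      have := w.isPrime
      have := (v.under (𝓞 F)).isPrime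
      have := (v.under (𝓞 F)).isMaximal
      have l1 : v.asIdeal.LiesOver (v.under (𝓞 F)).asIdeal := ⟨rfl⟩
      have l2 : w.asIdeal.LiesOver (v.under (𝓞 F)).asIdeal :=
        ⟨(congrArg HeightOneSpectrum.asIdeal hw).symm⟩
      obtain ⟨τ, hτ⟩ := Ideal.exists_smul_eq_of_isGaloisGroup (v.under (𝓞 F)).asIdeal v.asIdeal
        w.asIdeal Gal(M/F)
      have e : w = sm τ v := HeightOneSpectrum.ext hτ.symm
      rw [Ideal.card_inertia_eq_ramificationIdxIn (G := Gal(M/F)) (v.under (𝓞 F)).asIdeal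
        w.asIdeal, ← Ideal.card_inertia_eq_ramificationIdxIn (G := Gal(M/F))
        (v.under (𝓞 F)).asIdeal v.asIdeal, ← hc, ← cnt_apply, ← cnt_apply, ← cnt_act τ v a, ha,
        ← e]
  choose c hc1 hc2 using hex
  have hfin : {p | c p ≠ 0}.Finite := by
    have h := FractionalIdeal.finite_factors (a : FractionalIdeal (𝓞 M)⁰ M)
    rw [Filter.eventually_cofinite] at h
    refine (h.image fun w => w.under (𝓞 F)).subset fun p hp => ?_
    obtain ⟨w, hw, hw'⟩ := hc1 p hp
    exact ⟨w, hw', hw⟩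
  obtain ⟨b, hb⟩ := exists_count c hfin
  refine ⟨b, eq_of_count fun w => ?_⟩
  rw [count_ext, hb, hc2 _ w rfl]

end

end Pool.Agent.P.MP_29cb78_nt.C.Chev
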