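import Pool.Agent.P.MP_29cb78_nt.C.Iface
import Pool.Agent.P.MP_29cb78_nt.C.ChevAux1
import Pool.Agent.P.MP_29cb78_nt.C.ChevAux2

/-!
The ambiguous class number inequality for cyclic cubic extensions of imaginary quadratic fields.
-/

namespace Pool.Agent.P.MP_29cb78_nt.C

open NumberField NumberField.InfinitePlace NumberField.Units Set Ideal IsDedekindDomain
open scoped Classical nonZeroDivisors Pointwise

noncomputable section

namespace Chev

section one

variable {L : Type} [Field L] [NumberField L]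

theorem principal_eq_one {x : Lˣ} :
    toPrincipalIdeal (𝓞 L) L x = 1 ↔ ∃ u, TCl.inc L u = x := by
  rw [← Units.val_eq_one, coe_toPrincipalIdeal, ← FractionalIdeal.spanSingleton_one, eq_comm,
    FractionalIdeal.spanSingleton_eq_spanSingleton]
  refine exists_congr fun u => ?_
  rw [Units.smul_def, Algebra.smul_def, mul_one, Units.ext_iff]
  rfl

omit [NumberField L] in
theorem unit_of_integral (x : Lˣ) (h : IsIntegral ℤ (x : L)) (h' : IsIntegral ℤ ((x⁻¹ : Lˣ) : L)) :
    ∃ u, TCl.inc L u = x :=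
  ⟨⟨⟨x, h⟩, ⟨(x⁻¹ : Lˣ), h'⟩, Subtype.ext x.mul_inv, Subtype.ext x.inv_mul⟩, Units.ext rfl⟩

omit [NumberField L] in
theorem torsion_le : CommGroup.torsion Lˣ ≤ (torsion L).map (TCl.inc L) := by
  intro x hx
  have key : ∀ y : Lˣ, IsOfFinOrder y → IsIntegral ℤ (y : L) := by
    intro y hy
    obtain ⟨n, hn, hyn⟩ := isOfFinOrder_iff_pow_eq_one.1 hy
    apply IsIntegral.of_pow hn
    rw [← Units.val_pow_eq_pow_val, hyn, Units.val_one]
    exact isIntegral_one
  obtain ⟨u, rfl⟩ := unit_of_integral x (key x hx) (key _ (IsOfFinOrder.inv hx))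
  exact ⟨u, (TCl.inc_injective.isOfFinOrder_iff).1 hx, rfl⟩

theorem rank_eq [IsTotallyComplex L] (n : ℕ) (h : Module.finrank ℚ L = 2 * (n + 1)) :
    rank L = n := by
  have h1 := IsTotallyComplex.finrank L
  rw [rank, card_eq_nrRealPlaces_add_nrComplexPlaces, IsTotallyComplex.nrRealPlaces_eq_zero]
  omega

theorem mem_torsion_of_rank (h : rank L = 0) (u : (𝓞 L)ˣ) : u ∈ torsion L := by
  obtain ⟨⟨ζ, e⟩, hu, -⟩ := exist_unique_eq_mul_prod L u
  have : IsEmpty (Fin (rank L)) := by rw [h]; infer_instance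
  rw [hu, Finset.univ_eq_empty, Finset.prod_empty, mul_one]
  exact ζ.2

theorem exists_not_cube (h : rank L ≠ 0) : ∃ u : (𝓞 L)ˣ, ∀ w, u * w ^ 3 ∉ torsion L := by
  let i : Fin (rank L) := ⟨0, Nat.pos_of_ne_zero h⟩
  refine ⟨fundSystem L i, fun w hw => ?_⟩
  obtain ⟨⟨ζ, e⟩, he, -⟩ := exist_unique_eq_mul_prod L w
  have h1 : fundSystem L i =
      (1 : torsion L) * ∏ j, fundSystem L j ^ (Pi.single i (1 : ℤ) : _ → ℤ) j := by
    rw [Finset.prod_eq_single i (fun j _ hj => by rw [Pi.single_eq_of_ne hj, zpow_zero])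
      (fun hi => absurd (Finset.mem_univ i) hi), Pi.single_eq_same, zpow_one]
    exact (one_mul _).symm
  have h2 : fundSystem L i =
      (⟨_, hw⟩ / ζ ^ 3 : torsion L) * ∏ j, fundSystem L j ^ (-(3 * e j)) := by
    have h3 : ∏ j, fundSystem L j ^ (-(3 * e j)) = ((∏ j, fundSystem L j ^ e j) ^ 3)⁻¹ := by
      rw [← Finset.prod_pow, ← Finset.prod_inv_distrib]
      refine Finset.prod_congr rfl fun j _ => ?_
      rw [zpow_neg, mul_comm, zpow_mul, zpow_ofNat]
    rw [h3, Subgroup.coe_div, Subgroup.coe_pow, ← div_eq_mul_inv, div_div, ← mul_pow, ← he]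
    exact (mul_div_cancel_right _ _).symm
  have h4 := (exist_unique_eq_mul_prod L (fundSystem L i)).unique
    (y₁ := (1, Pi.single i 1)) (y₂ := (⟨_, hw⟩ / ζ ^ 3, fun j => -(3 * e j))) h1 h2
  have h5 := congrFun (congrArg Prod.snd h4) i
  simp only [Pi.single_eq_same] at h5
  omega

end one

variable {F M : Type} [Field F] [Field M] [NumberField F] [NumberField M] [Algebra F M]

/-- The norm of a cubic extension. -/
def nrm (σ : Gal(M/F)) : Mˣ →* Mˣ :=
  MonoidHom.id Mˣ * Units.map (σ : M →* M) *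
    (Units.map (σ : M →* M)).comp (Units.map (σ : M →* M))

omit [NumberField F] [NumberField M] in
theorem coe_nrm (σ : Gal(M/F)) (x : Mˣ) : (nrm σ x : M) = x * σ x * σ (σ x) := rfl

/-- The map `a ↦ a / σ a` on fractional ideals. -/
def dd (σ : Gal(M/F)) : (FractionalIdeal (𝓞 M)⁰ M)ˣ →* (FractionalIdeal (𝓞 M)⁰ M)ˣ :=
  MonoidHom.id _ / act σ

omit [NumberField F] in
theorem dd_apply (σ : Gal(M/F)) (a : (FractionalIdeal (𝓞 M)⁰ M)ˣ) : dd σ a = a / act σ a := rfl

/-- Units of the base ring as units of the field. -/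
def jj (F M : Type) [Field F] [Field M] [Algebra F M] : (𝓞 F)ˣ →* Mˣ :=
  (Units.map (algebraMap F M : F →* M)).comp (TCl.inc F)

omit [NumberField F] [NumberField M] in
theorem jj_injective : Function.Injective (jj F M) :=
  (Units.map_injective (algebraMap F M).injective).comp TCl.inc_injective

variable [IsGalois F M] {σ : Gal(M/F)}

theorem card3 (h3 : Module.finrank F M = 3) : Nat.card Gal(M/F) = 3 := by
  rw [IsGalois.card_aut_eq_finrank, h3]

theorem pow3 (h3 : Module.finrank F M = 3) : σ * σ * σ = 1 := by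
  rw [← pow_three', ← card3 h3, pow_card_eq_one']

theorem sss (h3 : Module.finrank F M = 3) (x : M) : σ (σ (σ x)) = x := by
  rw [← AlgEquiv.mul_apply, ← AlgEquiv.mul_apply, pow3 h3, AlgEquiv.one_apply]

theorem gen (h3 : Module.finrank F M = 3) (hσ : σ ≠ 1) (τ : Gal(M/F)) : ∃ n : ℕ, σ ^ n = τ :=
  haveI : Fact (Nat.Prime 3) := ⟨Nat.prime_three⟩
  mem_powers_of_prime_card (card3 h3) hσ

theorem mem_jj (h3 : Module.finrank F M = 3) (hσ : σ ≠ 1) (x : Mˣ)
    (hx : toPrincipalIdeal (𝓞 M) M x = 1) (hf : σ x = x) : x ∈ (jj F M).range := by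
  obtain ⟨y, hy⟩ := (IsGalois.mem_range_algebraMap_iff_fixed (F := F) (x : M)).2 (fun τ => by
    obtain ⟨n, rfl⟩ := gen h3 hσ τ
    induction n with
    | zero => rw [pow_zero, AlgEquiv.one_apply]
    | succ n ih => rw [pow_succ, AlgEquiv.mul_apply, hf, ih])
  have hy0 : y ≠ 0 := by
    rintro rfl
    exact x.ne_zero (by rw [← hy, map_zero])
  obtain ⟨u, rfl⟩ := principal_eq_one.1 hx
  obtain ⟨w, hw⟩ := unit_of_integral (Units.mk0 y hy0) (by
    rw [← isIntegral_algebraMap_iff (algebraMap F M).injective, Units.val_mk0, hy]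
    exact (u : 𝓞 M).isIntegral_coe) (by
    rw [← isIntegral_algebraMap_iff (algebraMap F M).injective, Units.val_inv_eq_inv_val,
      Units.val_mk0, map_inv₀, hy, ← Units.val_inv_eq_inv_val, ← map_inv]
    exact ((u⁻¹ : (𝓞 M)ˣ) : 𝓞 M).isIntegral_coe)
  refine ⟨w, Units.ext ?_⟩
  rw [← hy, jj, MonoidHom.comp_apply, hw]
  rfl

theorem hilbert (h3 : Module.finrank F M = 3) (hσ : σ ≠ 1) (x : Mˣ) (hx : nrm σ x = 1) :
    ∃ y, TCl.dlt σ y = x := by
  have : Fact (Nat.Prime 3) := ⟨Nat.prime_three⟩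
  have : IsCyclic Gal(M/F) := isCyclic_of_prime_card (card3 h3)
  have h1 : σ * σ ≠ 1 := fun h => hσ (by rw [← pow3 (σ := σ) h3, h, one_mul])
  have h2 : σ ≠ σ * σ := fun h => hσ (left_eq_mul.1 h)
  have hu : (Finset.univ : Finset Gal(M/F)) = {1, σ, σ * σ} := by
    symm
    apply Finset.eq_univ_of_card
    rw [Finset.card_eq_three.2 ⟨1, σ, σ * σ, hσ.symm, h1.symm, h2, rfl⟩,
      ← Nat.card_eq_fintype_card, card3 h3]
  have hn : Algebra.norm F (x : M) = 1 := by
    apply (algebraMap F M).injective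
    rw [Algebra.norm_eq_prod_automorphisms, hu, Finset.prod_insert (by simp [hσ.symm, h1.symm]),
      Finset.prod_pair h2, map_one, ← mul_assoc]
    exact congrArg Units.val hx
  obtain ⟨y, hy⟩ := groupCohomology.exists_div_of_norm_eq_one
    (fun τ => mem_zpowers_of_prime_card (card3 h3) hσ) hn
  exact ⟨y, Units.ext (by rw [TCl.coe_dlt, hy])⟩

omit [NumberField F] [IsGalois F M] in
theorem finite_ram (hσ : σ ≠ 1) :
    {v : HeightOneSpectrum (𝓞 M) | σ ∈ v.asIdeal.inertia Gal(M/F)}.Finite := by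
  obtain ⟨x, hx⟩ : ∃ x : 𝓞 M, σ • x - x ≠ 0 := by
    by_contra h
    push Not at h
    apply hσ
    have : (σ : M →+* M) = RingHom.id M := by
      apply IsLocalization.ringHom_ext (𝓞 M)⁰
      ext z
      exact congrArg (algebraMap (𝓞 M) M) (sub_eq_zero.1 (h z))
    ext z
    exact RingHom.congr_fun this z
  refine (Ideal.finite_factors (I := span {σ • x - x})
    (by rwa [Ne, Ideal.zero_eq_bot, Ideal.span_singleton_eq_bot])).subset fun v hv => ?_
  change v.asIdeal ∣ _
  rw [Ideal.dvd_span_singleton]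
  exact hv x

theorem relIndex_dvd (h3 : Module.finrank F M = 3) (hσ : σ ≠ 1) :
    (TCl.ext F M).range.relIndex (dd σ).ker ∣
      3 ^ Set.ncard {Q : Ideal (𝓞 M) | Q.IsMaximal ∧ σ ∈ Q.inertia Gal(M/F)} := by
  set S := {v : HeightOneSpectrum (𝓞 M) | σ ∈ v.asIdeal.inertia Gal(M/F)} with hS
  have : Finite S := finite_ram hσ
  have hc : Set.ncard {Q : Ideal (𝓞 M) | Q.IsMaximal ∧ σ ∈ Q.inertia Gal(M/F)} = Nat.card S := by
    rw [Nat.card_coe_set_eq, ← Set.ncard_image_of_injective S HeightOneSpectrum.asIdeal_injective]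
    congr 1
    ext Q
    constructor
    · rintro ⟨h1, h2⟩
      exact ⟨⟨Q, h1.isPrime, Ring.ne_bot_of_isMaximal_of_not_isField h1
        (RingOfIntegers.not_isField M)⟩, h2, rfl⟩
    · rintro ⟨v, hv, rfl⟩
      exact ⟨v.isMaximal, hv⟩
  let par : (FractionalIdeal (𝓞 M)⁰ M)ˣ →* (S → Multiplicative (ZMod 3)) :=
    MonoidHom.pi fun v => (AddMonoidHom.toMultiplicative (Int.castAddHom (ZMod 3))).comp (cnt v.1)
  have hle : par.ker ⊓ (dd σ).ker ≤ (TCl.ext F M).range := by
    rintro a ⟨ha, hf⟩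
    have hf' : act σ a = a := (div_eq_one.1 hf).symm
    refine mem_range_ext a (fun τ => ?_) (fun w => ?_)
    · obtain ⟨n, rfl⟩ := gen h3 hσ τ
      induction n with
      | zero => rw [pow_zero, act_one]
      | succ n ih => rw [pow_succ, act_mul, hf', ih]
    · have hd := Subgroup.card_subgroup_dvd_card (w.asIdeal.inertia Gal(M/F))
      rw [card3 h3] at hd
      rcases (Nat.dvd_prime Nat.prime_three).1 hd with h | h
      · rw [h, Nat.cast_one]
        exact one_dvd _
      · have ht := Subgroup.eq_top_of_card_eq _ (h.trans (card3 h3).symm)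
        have hw : w ∈ S := by
          change σ ∈ w.asIdeal.inertia Gal(M/F)
          rw [ht]
          exact Subgroup.mem_top _
        rw [h, ← ZMod.intCast_zmod_eq_zero_iff_dvd]
        exact congrFun ha ⟨w, hw⟩
  refine (Subgroup.relIndex_dvd_of_le_left _ hle).trans ?_
  rw [Subgroup.inf_relIndex_right, Subgroup.relIndex_ker, hc]
  refine (Subgroup.card_subgroup_dvd_card _).trans ?_
  rw [Nat.card_fun, Nat.card_congr Multiplicative.toAdd, Nat.card_zmod]

omit [NumberField F] [IsGalois F M] in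
theorem index_cobCl_dvd (σ : Gal(M/F)) : (cobCl σ).index ∣
    ((dd σ).range ⊔ (toPrincipalIdeal (𝓞 M) M).range).index := by
  have h1 : (dd σ).range.map (ClassGroup.mk M) ≤ cobCl σ := by
    rintro _ ⟨_, ⟨a, rfl⟩, rfl⟩
    refine mem_of_primes ((cobCl σ).comap ((ClassGroup.mk M).comp (dd σ)))
      (fun v => Subgroup.subset_closure ?_) a
    refine ⟨⟨v.asIdeal, mem_nonZeroDivisors_of_ne_zero v.ne_bot⟩,
      ⟨(sm σ v).asIdeal, mem_nonZeroDivisors_of_ne_zero (sm σ v).ne_bot⟩, rfl, ?_⟩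
    rw [← ClassGroup.mk_mk0 M, ← ClassGroup.mk_mk0 M, ← map_div, MonoidHom.comp_apply,
      dd_apply, act_pr]
    rfl
  have h2 : (ClassGroup.mk M : (FractionalIdeal (𝓞 M)⁰ M)ˣ →* _).ker =
      (toPrincipalIdeal (𝓞 M) M).range := by
    ext a
    rw [MonoidHom.mem_ker, ClassGroup.mk_eq_one_iff, mem_principal_ideals_iff,
      FractionalIdeal.isPrincipal_iff]
    exact exists_congr fun x => eq_comm
  have h3 : (ClassGroup.mk M : (FractionalIdeal (𝓞 M)⁰ M)ˣ →* _).range = ⊤ := by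
    rw [eq_top_iff]
    intro c _
    exact ClassGroup.induction M (fun I => ⟨I, rfl⟩) c
  have h := Subgroup.index_dvd_of_le h1
  rwa [Subgroup.index_map, h2, h3, Subgroup.index_top, mul_one] at h

end Chev

open Chev in
theorem chev : CHEV := by
  intro F M _ _ _ _ _ _ _ σ h2 h3 hσ
  have : IsTotallyComplex M := isTotallyComplex_of_algebra F M
  have rF : rank F = 0 := rank_eq 0 h2
  have rM : rank M = 2 := rank_eq 2 (by rw [← Module.finrank_mul_finrank ℚ F M, h2, h3])
  have : Finite (CommGroup.torsion Mˣ) := by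
    have : Finite ((torsion M).map (TCl.inc M)) :=
      Finite.of_surjective _ ((TCl.inc M).subgroupMap_surjective (torsion M))
    exact Finite.of_injective _ (Subgroup.inclusion_injective torsion_le)
  have hP : (toPrincipalIdeal (𝓞 M) M).range.index ≠ 0 := by
    rw [TCl.index_principal]
    exact classNumber_ne_zero M
  have e1 : ((toPrincipalIdeal (𝓞 F) F).range.map (TCl.ext F M)).relIndex (TCl.ext F M).range =
      classNumber F := by
    rw [MonoidHom.range_eq_map (TCl.ext F M),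
      Subgroup.relIndex_map_map_of_injective _ _ TCl.ext_injective,
      Subgroup.relIndex_top_right, TCl.index_principal]
  have e2 : ((normUnits σ).map (jj F M)).relIndex (jj F M).range = (normUnits σ).index := by
    rw [MonoidHom.range_eq_map, Subgroup.relIndex_map_map_of_injective _ _ jj_injective,
      Subgroup.relIndex_top_right]
  have hUT : (jj F M).range ≤ CommGroup.torsion Mˣ := by
    rintro _ ⟨u, rfl⟩
    exact (jj F M).isOfFinOrder (mem_torsion_of_rank rF u)
  have hp : ∀ x : Mˣ, toPrincipalIdeal (𝓞 M) M (TCl.dlt σ x) =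
      (dd σ) (toPrincipalIdeal (𝓞 M) M x) := fun x => by
    rw [dd_apply, act_principal, TCl.dlt, MonoidHom.div_apply, map_div]
    rfl
  have hN1 : ∀ x : Mˣ, toPrincipalIdeal (𝓞 M) M x ∈ (dd σ).range →
      nrm σ x ∈ (normUnits σ).map (jj F M) := by
    rintro x ⟨a, ha⟩
    have h1 : toPrincipalIdeal (𝓞 M) M (nrm σ x) = 1 := by
      have h4 : act σ (act σ (act σ a)) = a := by
        rw [← act_mul, ← act_mul, pow3 h3, act_one]
      rw [nrm, MonoidHom.mul_apply, MonoidHom.mul_apply, map_mul, map_mul, MonoidHom.comp_apply,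
        ← act_principal σ (Units.map (σ : M →* M) x), ← act_principal σ x, MonoidHom.id_apply,
        ← ha, dd_apply, map_div, map_div, h4, div_mul_div_cancel, div_mul_div_cancel,
        div_self']
    obtain ⟨u, hu⟩ := mem_jj h3 hσ _ h1 (by rw [coe_nrm, map_mul, map_mul, sss h3]; ring)
    exact ⟨u, Subgroup.subset_closure ⟨x, congrArg Units.val hu⟩, hu⟩
  have hT : CommGroup.torsion Mˣ ≤ (toPrincipalIdeal (𝓞 M) M).ker := by
    intro x hx
    obtain ⟨u, -, hu⟩ := torsion_le hx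
    exact principal_eq_one.2 ⟨u, hu⟩
  have main := key (toPrincipalIdeal (𝓞 M) M) (TCl.dlt σ) (nrm σ) (dd σ)
    (TCl.ext F M).range ((toPrincipalIdeal (𝓞 F) F).range.map (TCl.ext F M)) (jj F M).range
    ((normUnits σ).map (jj F M)) (CommGroup.torsion Mˣ) _ hp (hilbert h3 hσ)
    (fun x => ?_) hP (Subgroup.map_le_range _ _) ?_ ?_ ?_ (relIndex_dvd h3 hσ)
    (pow_ne_zero _ three_ne_zero) (by rw [e1]; exact classNumber_ne_zero F) hN1
    (Subgroup.map_le_range _ _) hUT ?_ hT (fun u hu => (TCl.dlt σ).isOfFinOrder hu) ?_ ?_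
  · rw [e1, e2] at main
    refine lt_of_le_of_lt (Nat.mul_le_mul_right _ (Nat.le_of_dvd (Nat.pos_of_ne_zero fun h => ?_)
      (index_cobCl_dvd σ))) main
    exact hP (Nat.eq_zero_of_zero_dvd (h ▸ Subgroup.index_dvd_of_le le_sup_right))
  · have hx := x.ne_zero
    have hx1 : σ (x : M) ≠ 0 := (map_ne_zero σ).2 hx
    have hx2 : σ (σ (x : M)) ≠ 0 := (map_ne_zero σ).2 hx1
    apply Units.ext
    rw [coe_nrm, TCl.coe_dlt, map_div₀, map_div₀, sss h3, Units.val_one]
    field_simp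
  · rintro _ ⟨b, rfl⟩
    exact div_eq_one.2 (act_ext σ b).symm
  · rintro _ ⟨_, ⟨y, rfl⟩, rfl⟩
    rw [mem_principal_ideals_iff]
    exact ⟨algebraMap F M y, by rw [TCl.coe_ext, coe_toPrincipalIdeal, TCl.ext_span]⟩
  · rintro y ⟨_, ⟨z, rfl⟩, hz⟩
    have h1 : toPrincipalIdeal (𝓞 M) M (Units.map (algebraMap F M : F →* M) z) =
        toPrincipalIdeal (𝓞 M) M y := by
      apply Units.ext
      rw [← hz, TCl.coe_ext, coe_toPrincipalIdeal, coe_toPrincipalIdeal, TCl.ext_span]
      rfl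
    have h4 : TCl.dlt σ (Units.map (algebraMap F M : F →* M) z) = 1 :=
      div_eq_one.2 (Units.ext (σ.commutes (z : F)).symm)
    exact ⟨y / Units.map (algebraMap F M : F →* M) z, by rw [map_div, h1, div_self'],
      by rw [map_div, h4, div_one]⟩
  · rintro _ ⟨u, rfl⟩
    exact div_eq_one.2 (Units.ext (σ.commutes _).symm)
  · intro u hu hd
    obtain ⟨n, hn, hun⟩ := isOfFinOrder_iff_pow_eq_one.1 hd
    rw [← map_pow] at hun
    have h4 := mem_jj h3 hσ (u ^ n) (by rw [map_pow, hu, one_pow])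
      (congrArg Units.val (div_eq_one.1 hun)).symm
    exact IsOfFinOrder.of_pow (hUT h4) hn.ne'
  · intro hle
    obtain ⟨u, hu⟩ := exists_not_cube (L := M) (by omega)
    obtain ⟨_, ⟨u1, h1, rfl⟩, t1, ht1, e3⟩ :=
      Subgroup.mem_sup.1 (hle (principal_eq_one.2 ⟨u, rfl⟩))
    obtain ⟨_, ⟨u2, h2', rfl⟩, t2, ht2, rfl⟩ := Subgroup.mem_sup.1 (hle h1)
    obtain ⟨w, hw⟩ := principal_eq_one.1 (show toPrincipalIdeal (𝓞 M) M
      (Units.map (σ : M →* M) u2) = 1 by rw [← act_principal, h2', map_one])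
    apply hu w
    apply (TCl.inc_injective.isOfFinOrder_iff).1
    have e4 : TCl.dlt σ (TCl.dlt σ u2) * Units.map (σ : M →* M) u2 ^ 3 = nrm σ u2 := by
      have hx1 : σ (u2 : M) ≠ 0 := (map_ne_zero σ).2 u2.ne_zero
      have hx2 : σ (σ (u2 : M)) ≠ 0 := (map_ne_zero σ).2 hx1
      apply Units.ext
      rw [Units.val_mul, Units.val_pow_eq_pow_val, coe_nrm, TCl.coe_dlt, TCl.coe_dlt, map_div₀]
      change _ * σ (u2 : M) ^ 3 = _
      field_simp
    have e5 : TCl.inc M (u * w ^ 3) = nrm σ u2 * (TCl.dlt σ t2 * t1) := by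
      rw [map_mul, map_pow, hw, ← e3, map_mul, ← e4]
      ac_rfl
    rw [e5]
    have h5 : nrm σ u2 ∈ CommGroup.torsion Mˣ := by
      refine hUT (Subgroup.map_le_range _ _ (hN1 u2 ?_))
      rw [h2']
      exact one_mem _
    exact (CommGroup.torsion Mˣ).mul_mem h5
      ((CommGroup.torsion Mˣ).mul_mem ((TCl.dlt σ).isOfFinOrder ht2) ht1)

end

end Pool.Agent.P.MP_29cb78_nt.C
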