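import Pool.Agent.P.MP_29cb78_nt.C.Iface

/-! The Frobenius congruence for Siegel functions and the integrality of their values. -/

namespace Pool.Agent.P.MP_29cb78_nt.C

open scoped Matrix MatrixGroups UpperHalfPlane

noncomputable section

namespace Cmf

theorem red_mul (A B : Mat) : red (A * B) = red A * red B :=
  Matrix.map_mul (f := Int.castRingHom (ZMod 12))

theorem red_det (A : Mat) : (red A).det = (A.det : ZMod 12) :=
  ((Int.castRingHom (ZMod 12)).map_det A).symm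

theorem red_one : red 1 = !![1, 0; 0, 1] := by
  ext i j; fin_cases i <;> fin_cases j <;> simp [red]

theorem det_adj (A : Mat) : A.adjugate.det = A.det := by
  rw [Matrix.det_adjugate]; simp

theorem adj_adj (A : Mat) : A.adjugate.adjugate = A := by
  rw [Matrix.adjugate_adjugate _ (by simp)]; simp

theorem e12_add (x y : ZMod 12) : e12 (x + y) = e12 x * e12 y := AddChar.map_add_eq_mul _ x y

theorem e12_zero : e12 0 = 1 := AddChar.map_zero_eq_one _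

theorem e12_mul (n : ℕ) (x : ZMod 12) : e12 (n * x) = e12 x ^ n := by
  rw [← nsmul_eq_mul]; exact AddChar.map_nsmul_eq_pow _ n x

theorem e12_pow (x : ZMod 12) : e12 x ^ 12 = 1 := by
  rw [← e12_mul, show ((12 : ℕ) : ZMod 12) = 0 from rfl, zero_mul, e12_zero]

theorem e12_int (x : ZMod 12) : IsIntegral ℤ (e12 x) :=
  IsIntegral.of_pow (n := 12) (by norm_num) (by rw [e12_pow]; exact isIntegral_one)

theorem e12_inv (x : ZMod 12) : (e12 x)⁻¹ = e12 (-x) :=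
  inv_eq_of_mul_eq_one_right (by rw [← e12_add, add_neg_cancel, e12_zero])

variable {X : Matrix (Fin 2) (Fin 2) (ZMod 12) → ZMod 12}

theorem chi_mul (hX : ChiData X) {A B : Mat} (hA : IsUnit (A.det : ZMod 12))
    (hB : IsUnit (B.det : ZMod 12)) :
    X (red (A * B)) = (B.det : ZMod 12) * X (red A) + X (red B) := by
  rw [red_mul, hX.mul _ _ (by rwa [red_det]) (by rwa [red_det]), red_det]

theorem chi_adj (hX : ChiData X) {G : Mat} (hG : G.det = 1) :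
    X (red G.adjugate) + X (red G) = 0 := by
  have h := chi_mul hX (A := G.adjugate) (B := G) (by simp [det_adj, hG]) (by simp [hG])
  rw [Matrix.adjugate_mul, hG, one_smul, red_one, hX.diag 1 isUnit_one] at h
  simpa using h.symm

/-- The conjugates of the Siegel function attached to a matrix. -/
def V (X : Matrix (Fin 2) (Fin 2) (ZMod 12) → ZMod 12) (N : ℕ) (b : Fin 2 → ℤ) (C : Mat)
    (τ : ℂ) : ℂ :=
  e12 (X (red C.adjugate)) * sgN N (b ᵥ* C.adjugate) (mob C τ)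

theorem V_left (hL : LATB) (hS : SGM) (hX : ChiData X) {N : ℕ} (hN : N ≠ 0) (b : Fin 2 → ℤ)
    {G C : Mat} (hG : G.det = 1) (hC : 0 < C.det) (hu : IsUnit (C.det : ZMod 12)) {τ : ℂ}
    (hτ : 0 < τ.im) : V X N b (G * C) τ = V X N b C τ := by
  unfold V
  rw [Matrix.adjugate_mul_distrib, hL.2.2.1 G C τ hC hτ,
    (hS N _ _ hN (hL.2.1 C τ hC hτ)).1 X hX G hG,
    chi_mul hX (by rwa [det_adj]) (by simp [det_adj, hG]), det_adj, hG, Matrix.vecMul_vecMul,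
    Matrix.mul_assoc, Matrix.adjugate_mul, hG, one_smul, Matrix.mul_one, ← mul_assoc, ← e12_add,
    add_assoc, chi_adj hX hG]
  simp

theorem V_right (hL : LATB) (hX : ChiData X) (N : ℕ) (b : Fin 2 → ℤ) {A C : Mat} {p : ℕ}
    (hA : A.det = 1) (hC : C.det = p) (hu : IsUnit (p : ZMod 12)) {τ : ℂ} (hτ : 0 < τ.im) :
    V X N b C (mob A τ) = e12 (X (red A)) ^ p * V X N (b ᵥ* A) (C * A) τ := by
  unfold V
  rw [Matrix.adjugate_mul_distrib, hL.2.2.1 C A τ (by rw [hA]; exact one_pos) hτ,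
    chi_mul hX (by simp [det_adj, hA]) (by simpa [det_adj, hC] using hu), det_adj, hC,
    Matrix.vecMul_vecMul, ← Matrix.mul_assoc, Matrix.mul_adjugate, hA, one_smul, Matrix.one_mul,
    ← mul_assoc, ← e12_mul, ← e12_add, ← add_assoc, Int.cast_natCast, ← mul_add,
    add_comm (X (red A)), chi_adj hX hA]
  simp

theorem mv_mul (A B : Mat) (w : Fin 2 → ℂ) : mv (A * B) w = mv A (mv B w) := by
  unfold mv
  rw [Matrix.mulVec_mulVec]
  exact congrArg (· *ᵥ w) (Matrix.map_mul (f := Int.castRingHom ℂ))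

theorem mv_smul (A : Mat) (c : ℂ) (w : Fin 2 → ℂ) : mv A (c • w) = c • mv A w :=
  Matrix.mulVec_smul _ _ _

theorem DD_smul {c : ℂ} (hc : c ≠ 0) (w : Fin 2 → ℂ) : DD (c • w) = DD w / c ^ 12 := by
  unfold DD
  simp only [Pi.smul_apply, smul_eq_mul]
  rw [mul_div_mul_left _ _ hc, mul_pow, div_div, mul_comm]

theorem ph_smul (p : ℕ) (C : Mat) {c : ℂ} (hc : c ≠ 0) (w : Fin 2 → ℂ) :
    ph p C (c • w) = ph p C w := by
  unfold ph
  rw [mv_smul, DD_smul hc, DD_smul hc, ← mul_div_assoc,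
    div_div_div_cancel_right₀ (pow_ne_zero _ hc)]

theorem ph_norm (p : ℕ) (C : Mat) {w : Fin 2 → ℂ} (hw : Ori w) :
    ph p C ![w 0 / w 1, 1] = ph p C w := by
  have h1 : w 1 ≠ 0 := fun h => by simp [Ori, h] at hw
  rw [← ph_smul p C h1]
  congr 1
  ext i; fin_cases i
  · simp [mul_div_cancel₀ _ h1]
  · simp

theorem ori_vec {τ : ℂ} (hτ : 0 < τ.im) : Ori ![τ, 1] := by simpa [Ori] using hτ

theorem ori_mv (hL : LATB) {C : Mat} (hC : 0 < C.det) {w : Fin 2 → ℂ} (hw : Ori w) :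
    Ori (mv C w) := by
  unfold Ori
  rw [hL.1 C w hw]
  exact hL.2.1 C _ hC hw

theorem ph_mob (hL : LATB) (p : ℕ) (C : Mat) {B : Mat} (hB : 0 < B.det) {w : Fin 2 → ℂ}
    (hw : Ori w) : ph p C ![mob B (w 0 / w 1), 1] = ph p C (mv B w) := by
  rw [← hL.1 B w hw, ph_norm p C (ori_mv hL hB hw)]

theorem ph_left (hL : LATB) (p : ℕ) {G C : Mat} (hG : G.det = 1) (hC : 0 < C.det)
    {w : Fin 2 → ℂ} (hw : Ori w) : ph p (G * C) w = ph p C w := by
  unfold ph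
  rw [mv_mul, hL.2.2.2.1 G _ hG (ori_mv hL hC hw)]

theorem ph_right (hL : LATB) (p : ℕ) (C : Mat) {A : Mat} (hA : A.det = 1) {τ : ℂ}
    (hτ : 0 < τ.im) : ph p C ![mob A τ, 1] = ph p (C * A) ![τ, 1] := by
  have h := ph_mob hL p C (B := A) (by rw [hA]; exact one_pos) (ori_vec hτ)
  simp only [Matrix.cons_val_zero, Matrix.cons_val_one, div_one] at h
  rw [h]
  unfold ph
  rw [mv_mul, hL.2.2.2.1 A _ hA (ori_vec hτ)]

theorem mv_scalar (p : ℕ) (w : Fin 2 → ℂ) : mv ((p : ℤ) • (1 : Mat)) w = (p : ℂ) • w := by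
  have h : (p : ℤ) • (1 : Mat) = !![(p : ℤ), 0; 0, (p : ℤ)] := by
    rw [Matrix.one_fin_two]; simp
  rw [h]
  ext i; fin_cases i <;> simp [mv, Matrix.mulVec, dotProduct]

theorem mob_scalar {p : ℕ} (hp : p ≠ 0) (τ : ℂ) : mob ((p : ℤ) • (1 : Mat)) τ = τ := by
  have : (p : ℂ) ≠ 0 := by exact_mod_cast hp
  simp [mob, this]

theorem ph_adj (hL : LATB) {p : ℕ} (hp : p ≠ 0) {B : Mat} (hB : B.det = p) {w : Fin 2 → ℂ}
    (hw : Ori w) : ph p B.adjugate (mv B w) * ph p B w = (p : ℂ) ^ 12 := by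
  have h0 : (p : ℂ) ≠ 0 := by exact_mod_cast hp
  have h1 := hL.2.2.2.2.1 w hw
  have h2 := hL.2.2.2.2.1 _ (ori_mv hL (C := B) (by rw [hB]; positivity) hw)
  unfold ph
  rw [← mv_mul, Matrix.adjugate_mul, hB, mv_scalar, DD_smul h0]
  field_simp

theorem det_rp (p M : ℕ) (x : Option (Fin p)) : (rp p M x).det = p := by
  cases x <;> simp [rp]

theorem fin_range {α : Type} (F : (Fin 2 → ℤ) → α) {m : ℤ} (hm : 0 < m)
    (h : ∀ b b', (∀ i, m ∣ b' i - b i) → F b' = F b) : (Set.range F).Finite := by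
  refine ((Set.Finite.pi' fun _ : Fin 2 => Set.finite_Ico (0 : ℤ) m).image F).subset ?_
  rintro _ ⟨b, rfl⟩
  refine ⟨fun i => b i % m, fun i => ⟨Int.emod_nonneg _ hm.ne', Int.emod_lt_of_pos _ hm⟩,
    h _ _ fun i => ?_⟩
  exact ⟨-(b i / m), by rw [Int.emod_def]; ring⟩

theorem dvd_vecMul {m : ℤ} {b b' : Fin 2 → ℤ} (h : ∀ i, m ∣ b' i - b i) (C : Mat) (i : Fin 2) :
    m ∣ (b' ᵥ* C) i - (b ᵥ* C) i := by
  rw [← Pi.sub_apply, ← Matrix.sub_vecMul]
  show m ∣ ∑ j, (b' j - b j) * C j i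
  exact Finset.dvd_sum fun j _ => (h j).mul_right _

theorem q_congr (hQ : QAPI) {f g : ℂ → ℂ} (hf : QInt f) (h : ∀ τ : ℂ, 0 < τ.im → f τ = g τ) :
    QInt g :=
  let ⟨M, hM, h1⟩ := hf; ⟨M, hM, hQ.congr M f g h1 h⟩

theorem q_pow (hQ : QAPI) {f : ℂ → ℂ} (hf : QInt f) (n : ℕ) : QInt fun τ => f τ ^ n := by
  induction n with
  | zero => exact q_congr hQ (hQ.const 1 isIntegral_one) fun τ _ => (pow_zero _).symm
  | succ n ih => exact q_congr hQ (hQ.mul' _ _ ih hf) fun τ _ => (pow_succ _ _).symm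

theorem q_sg (hq : SGQ) {N : ℕ} (hN : N ≠ 0) (b : Fin 2 → ℤ) : QInt (sgN N b) :=
  ⟨12 * N ^ 2, by positivity, (hq N b hN).1⟩

theorem mob_none (p M : ℕ) (τ : ℂ) : mob (rp p M none) τ = p * τ := by simp [mob, rp]

theorem mob_some (p M : ℕ) (i : Fin p) (τ : ℂ) :
    mob (rp p M (some i)) τ = (τ + ((M : ℤ) * (i : ℕ) : ℤ)) / p := by simp [mob, rp]

theorem V_none (hX : ChiData X) (N : ℕ) (b : Fin 2 → ℤ) {p : ℕ} (M : ℕ)
    (hu : IsUnit (p : ZMod 12)) (τ : ℂ) :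
    V X N b (rp p M none) τ = sgN N ![b 0, p * b 1] (p * τ) := by
  have h1 : red (rp p M none).adjugate = !![1, 0; 0, (p : ZMod 12)] := by
    ext i j; fin_cases i <;> fin_cases j <;> simp [red, rp, Matrix.adjugate_fin_two]
  have h2 : b ᵥ* (rp p M none).adjugate = ![b 0, p * b 1] := by
    ext i; fin_cases i <;>
      simp [rp, Matrix.adjugate_fin_two, Matrix.vecMul, dotProduct, mul_comm]
  rw [V, h1, h2, hX.diag _ hu, e12_zero, one_mul, mob_none]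

theorem V_some (hL : LATB) (hS : SGM) {N : ℕ} (hN : N ≠ 0) (b : Fin 2 → ℤ) {p : ℕ} (hp : p ≠ 0)
    (i : Fin p) {τ : ℂ} (hτ : 0 < τ.im) :
    V X N b (rp p (24 * N ^ 2) (some i)) τ = e12 (X !![(p : ZMod 12), 0; 0, 1]) *
      sgN N ![p * b 0, b 1] ((τ + (((24 * N ^ 2 : ℕ) : ℤ) * (i : ℕ) : ℤ)) / p) := by
  have h0 : (24 : ZMod 12) = 0 := rfl
  have h1 : red (rp p (24 * N ^ 2) (some i)).adjugate = !![(p : ZMod 12), 0; 0, 1] := by
    ext i j; fin_cases i <;> fin_cases j <;> simp [red, rp, Matrix.adjugate_fin_two, h0]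
  rw [V, h1, ← mob_some]
  congr 1
  refine (hS N _ _ hN (hL.2.1 _ τ (by rw [det_rp]; positivity) hτ)).2.1 _ fun j => ?_
  fin_cases j
  · simp [rp, Matrix.adjugate_fin_two, Matrix.vecMul, dotProduct, mul_comm]
  · refine ⟨-(12 * b 0 * (i : ℕ)), ?_⟩
    simp [rp, Matrix.adjugate_fin_two, Matrix.vecMul, dotProduct]
    ring

theorem inP_mul {P : Ideal (integralClosure ℤ ℂ)} {x y : ℂ} (hx : InP P x)
    (hy : IsIntegral ℤ y) : InP P (x * y) :=
  let ⟨h1, h2⟩ := hx; ⟨h1.mul hy, P.mul_mem_right ⟨y, hy⟩ h2⟩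

theorem inP_or {P : Ideal (integralClosure ℤ ℂ)} (hP : P.IsPrime) {x y : ℂ}
    (hx : IsIntegral ℤ x) (hy : IsIntegral ℤ y) (h : InP P (x * y)) : InP P x ∨ InP P y :=
  let ⟨_, h2⟩ := h
  (hP.mem_or_mem (x := ⟨x, hx⟩) (y := ⟨y, hy⟩) h2).imp (fun h => ⟨hx, h⟩) fun h => ⟨hy, h⟩

theorem fin_sg (hS : SGM) {N : ℕ} (hN : N ≠ 0) :
    (Set.range fun b => fun τ : ℍ => sgN N b τ).Finite :=
  fin_range _ (m := 2 * N ^ 2) (by positivity) fun b b' h =>
    funext fun τ => (hS N b τ hN τ.2).2.1 b' h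

theorem gcd_cop {b : Fin 2 → ℤ} {N : ℤ} (h : IsCoprime (Int.gcd (b 0) (b 1) : ℤ) N) {A : Mat}
    (hA : A.det = 1) : IsCoprime (Int.gcd ((b ᵥ* A) 0) ((b ᵥ* A) 1) : ℤ) N := by
  have h1 : ∀ i, (Int.gcd ((b ᵥ* A) 0) ((b ᵥ* A) 1) : ℤ) ∣ b i := fun i => by
    have h2 : b i = ((b ᵥ* A) ᵥ* A.adjugate) i := by
      rw [Matrix.vecMul_vecMul, Matrix.mul_adjugate, hA, one_smul, Matrix.vecMul_one]
    rw [h2]
    show _ ∣ ∑ j, (b ᵥ* A) j * A.adjugate j i
    refine Finset.dvd_sum fun j _ => Dvd.dvd.mul_right ?_ _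
    fin_cases j
    · exact Int.gcd_dvd_left _ _
    · exact Int.gcd_dvd_right _ _
  exact h.of_isCoprime_of_dvd_left (Int.dvd_coe_gcd (h1 0) (h1 1))

end Cmf

open Cmf

theorem cmf : QAPI → LATB → SGM → SGQ → COSET → PHI → KEY → CMF := by
  intro hQ hL hS hq hC hPhi hK X hX N p b w B P hN hp hpN hw hB hj hj' hP hpP hnP
  have hp0 : p ≠ 0 := hp.ne_zero
  have hp2 : p ≠ 2 := fun h => hpN (h ▸ Dvd.dvd.mul_right (by norm_num) N)
  have hM : (24 * N ^ 2).Coprime p := by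
    refine ((Nat.Prime.coprime_iff_not_dvd hp).2 fun h => hpN ?_).symm
    exact hp.dvd_of_dvd_pow (n := 3) (h.trans ⟨9 * N, by ring⟩)
  have hu : IsUnit (p : ZMod 12) :=
    (ZMod.isUnit_iff_coprime p 12).2 (Nat.Coprime.coprime_dvd_left ⟨2 * N ^ 2, by ring⟩ hM).symm
  have hpos : ∀ {C : Mat}, C.det = p → 0 < C.det := fun h => by rw [h]; positivity
  have hun : ∀ {C : Mat}, C.det = p → IsUnit (C.det : ZMod 12) := fun h => by
    rw [h]; simpa using hu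
  obtain ⟨⟨hφ1, hφ2, hφ3⟩, hφ4⟩ := (hPhi p hp hp2).imp_left fun h => h _ hM
  obtain ⟨x0, G, hG, hx0⟩ := (hC.2 p _ hp hM).1 B.adjugate (by rw [det_adj, hB])
  have hτ := hL.2.1 B _ (hpos hB) hw
  have hint : ∀ x, IsIntegral ℤ (ph p (rp p (24 * N ^ 2) x) ![mob B (w 0 / w 1), 1]) := fun x =>
    hφ4 _ _ (det_rp _ _ x) (ori_vec hτ) (by simpa using hj')
  have hprod : ph p (rp p (24 * N ^ 2) x0) ![mob B (w 0 / w 1), 1] * ph p B w = (p : ℂ) ^ 12 := by
    rw [← ph_left hL p hG (hpos (det_rp _ _ x0)) (ori_vec hτ), ← hx0, ph_mob hL p _ (hpos hB) hw,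
      ph_adj hL hp0 hB hw]
  have key := hK (Fin 2 → ℤ) p (fun b τ => sgN N b τ ^ p)
    (fun b x => V X N b (rp p (24 * N ^ 2) x)) (fun x τ => ph p (rp p (24 * N ^ 2) x) ![τ, 1]) hp
    (fin_range _ (m := 2 * N ^ 2) (by positivity) fun b b' h =>
      funext fun τ => by rw [(hS N b τ hN τ.2).2.1 b' h])
    (fun x => fin_range _ (m := 2 * N ^ 2) (by positivity) fun b b' h => funext fun τ => by
      unfold V
      rw [(hS N _ _ hN (hL.2.1 _ _ (hpos (det_rp _ _ x)) τ.2)).2.1 _ (dvd_vecMul h _)])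
    (fun A hA b => by
      obtain ⟨e, he⟩ := (hC.2 p _ hp hM).2 A hA
      refine ⟨b ᵥ* A, e12 (X (red A)) ^ p, e, by rw [← pow_mul, mul_comm, pow_mul, e12_pow, one_pow],
        fun τ hτ => ⟨by rw [(hS N b τ hN hτ).1 X hX A hA, mul_pow], fun x => ?_⟩⟩
      obtain ⟨G, hG, hx⟩ := he x
      constructor
      · rw [V_right hL hX N b hA (det_rp _ _ x) hu hτ, hx,
          V_left hL hS hX hN _ hG (hpos (det_rp _ _ _)) (hun (det_rp _ _ _)) hτ]
      · rw [ph_right hL p _ hA hτ, hx, ph_left hL p hG (hpos (det_rp _ _ _)) (ori_vec hτ)])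
    (fun b => q_pow hQ (q_sg hq hN b) p)
    (fun b x => by
      refine hQ.mul' _ _ (hQ.const _ (e12_int _)) ?_
      cases x with
      | none =>
        refine q_congr hQ (hQ.aff _ p 1 0 hp0 one_ne_zero
          (q_sg hq hN (b ᵥ* (rp p (24 * N ^ 2) none).adjugate))) fun τ _ => ?_
        rw [mob_none]; simp
      | some i =>
        refine q_congr hQ (hQ.aff _ 1 p (((24 * N ^ 2 : ℕ) : ℤ) * (i : ℕ)) one_ne_zero hp0
          (q_sg hq hN (b ᵥ* (rp p (24 * N ^ 2) (some i)).adjugate))) fun τ _ => ?_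
        rw [mob_some, Nat.cast_one, one_mul])
    hφ1
    (fun b => by
      refine q_congr hQ (hQ.mul' _ _ ((hq N b hN).2.2 p hp hp2)
        (hQ.const _ (hQ.pi_int p hp).2.2.1)) fun τ _ => ?_
      have h0 : (p : ℂ) ≠ 0 := by exact_mod_cast hp0
      rw [V_none hX N b _ hu, div_mul_div_cancel₀ h0])
    (fun b i i' => by
      have h1 := fun i : Fin p => hQ.shift (12 * N ^ 2) p (((24 * N ^ 2 : ℕ) : ℤ) * (i : ℕ))
        (sgN N ![p * b 0, b 1]) (by positivity) hp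
        ⟨2 * (i : ℕ), by push_cast; ring⟩ (hq N _ hN).1
      have hc := e12_int (X !![(p : ZMod 12), 0; 0, 1])
      refine q_congr hQ (hQ.add' _ _ (hQ.mul' _ _ (hQ.const _ hc) (h1 i))
        (hQ.mul' _ _ (hQ.const _ hc.neg) (h1 i'))) fun τ hτ => ?_
      rw [V_some hL hS hN b hp0 i hτ, V_some hL hS hN b hp0 i' hτ]
      ring)
    hφ2 _ P x0 hτ hj' hP hpP
    ((inP_or hP (hint x0) (hφ4 B w hB hw hj) (by
      rw [hprod, pow_succ']
      exact inP_mul hpP (hpP.1.pow 11))).resolve_right hnP)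
    (fun x hx hin => hnP (by
      have h1 := hφ3 _ hτ
      have h0 : (p : ℂ) ^ 12 ≠ 0 := pow_ne_zero _ (by exact_mod_cast hp0)
      rw [← Finset.mul_prod_erase _ _ (Finset.mem_univ x0), ← hprod] at h1
      rw [← mul_left_cancel₀ (left_ne_zero_of_mul (hprod ▸ h0)) h1,
        ← Finset.mul_prod_erase _ _ (Finset.mem_erase.2 ⟨hx, Finset.mem_univ x⟩)]
      exact inP_mul hin (IsIntegral.prod _ fun y _ => hint y))) b
  rw [← V_left hL hS hX hN b hG (hpos (det_rp _ _ x0)) (hun (det_rp _ _ x0)) hτ, ← hx0, V,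
    adj_adj, ← hL.2.2.1 _ B _ (hpos hB) hw, Matrix.adjugate_mul, hB, mob_scalar hp0] at key
  exact key

theorem gint : CHI → QAPI → LATB → SGM → SGQ → INT → GINT := by
  rintro ⟨X, hX⟩ hQ - hS hq hI N b τ hN hτ hj
  have h1 : ∀ (A : SL(2, ℤ)) (τ : ℂ), 0 < τ.im →
      sgN N b (mob A τ) = e12 (X (red A)) * sgN N (b ᵥ* A) τ := fun A τ hτ =>
    (hS N b τ hN hτ).1 X hX A A.2
  refine ⟨hI _ ⟨?_, fun A => ?_⟩ τ hτ hj, fun h2 h3 h4 =>
    hI (fun τ => (sgN N b τ)⁻¹) ⟨?_, fun A => ?_⟩ τ hτ hj⟩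
  · refine (Set.Finite.image2 (fun (x : ZMod 12) (g : ℍ → ℂ) => fun τ => e12 x * g τ)
      Set.finite_univ (fin_sg hS hN)).subset ?_
    rintro _ ⟨A, rfl⟩
    exact ⟨X (red A), trivial, _, ⟨b ᵥ* A, rfl⟩, funext fun τ => (h1 A τ τ.2).symm⟩
  · exact q_congr hQ (hQ.mul' _ _ (hQ.const _ (e12_int _)) (q_sg hq hN _))
      fun τ hτ => (h1 A τ hτ).symm
  · refine (Set.Finite.image2 (fun (x : ZMod 12) (g : ℍ → ℂ) => fun τ => (e12 x * g τ)⁻¹)
      Set.finite_univ (fin_sg hS hN)).subset ?_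
    rintro _ ⟨A, rfl⟩
    exact ⟨X (red A), trivial, _, ⟨b ᵥ* A, rfl⟩, funext fun τ => by
      simp only [h1 A τ τ.2]⟩
  · refine q_congr hQ (hQ.mul' _ _ (hQ.const _ (e12_int (-X (red A))))
      ((hq N (b ᵥ* A) hN).2.1 h2 h3 (gcd_cop h4 A.2))) fun τ hτ => ?_
    simp only [h1 A τ hτ, mul_inv, e12_inv]

end

end Pool.Agent.P.MP_29cb78_nt.C
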