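import Pool.Agent.P.MP_29cb78_nt.C.Iface
import Pool.Agent.P.MP_29cb78_nt.Diri

/-!
Dirichlet series in residue classes, the value of the Hurwitz zeta function at `0`, removal of one
prime, uniqueness of continuations.
-/

namespace Pool.Agent.P.MP_29cb78_nt.C

open NumberField NumberField.InfinitePlace NumberField.Units Set Ideal Filter Topology
open scoped Classical Real

noncomputable section

namespace Conv

open HurwitzZeta

/-! ### The value of the Hurwitz zeta function at zero -/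

theorem hasDer (w : ℂ) {t : ℝ} (ht : 0 < t) :
    HasDerivAt (fun y : ℝ => (y : ℂ) ^ w) (w * (t : ℂ) ^ (w - 1)) t := by
  rcases eq_or_ne w 0 with rfl | hw
  · simpa using hasDerivAt_const t (1 : ℂ)
  · exact hasDerivAt_ofReal_cpow_const ht.ne' hw

theorem first_order (w : ℂ) {p t c : ℝ} (hp : 0 < p) (hpt : p ≤ t) (htc : t ≤ c)
    (hc : c ≤ p + 1) (hw : w.re ≤ 1) :
    ‖(t : ℂ) ^ w - (c : ℂ) ^ w‖ ≤ ‖w‖ * p ^ (w.re - 1) := by
  have h := (convex_Icc p c).norm_image_sub_le_of_norm_hasDerivWithin_le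
    (f := fun y : ℝ => (y : ℂ) ^ w) (f' := fun y : ℝ => w * (y : ℂ) ^ (w - 1))
    (C := ‖w‖ * p ^ (w.re - 1))
    (fun y hy => (hasDer w (hp.trans_le hy.1)).hasDerivWithinAt)
    (fun y hy => by
      rw [norm_mul, Complex.norm_cpow_eq_rpow_re_of_pos (hp.trans_le hy.1)]
      refine mul_le_mul_of_nonneg_left ?_ (norm_nonneg _)
      simp only [Complex.sub_re, Complex.one_re]
      exact Real.rpow_le_rpow_of_nonpos hp hy.1 (by linarith))
    (x := c) (y := t) ⟨hpt.trans htc, le_rfl⟩ ⟨hpt, htc⟩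
  refine h.trans ?_
  have h1 : ‖t - c‖ ≤ 1 := by
    rw [Real.norm_eq_abs, abs_le]
    constructor <;> linarith
  have h2 : 0 ≤ ‖w‖ * p ^ (w.re - 1) := by positivity
  nlinarith

theorem second_order (s : ℂ) {p c : ℝ} (hp : 0 < p) (hpc : p ≤ c)
    (hc : c ≤ p + 1) (hs : -2 ≤ s.re) :
    ‖(p : ℂ) ^ (-s) - (c : ℂ) ^ (-s) - s * (c - p) * (c : ℂ) ^ (-s - 1)‖ ≤
      ‖s‖ * (‖-s - 1‖ * p ^ (-s.re - 2)) := by
  have h := (convex_Icc p c).norm_image_sub_le_of_norm_hasDerivWithin_le
    (f := fun y : ℝ => (y : ℂ) ^ (-s) + s * (y : ℂ) * (c : ℂ) ^ (-s - 1))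
    (f' := fun y : ℝ => -s * ((y : ℂ) ^ (-s - 1) - (c : ℂ) ^ (-s - 1)))
    (C := ‖s‖ * (‖-s - 1‖ * p ^ (-s.re - 2)))
    (fun y hy => by
      have h1 := hasDer (-s) (hp.trans_le hy.1)
      have h2 : HasDerivAt (fun y : ℝ => s * (y : ℂ) * (c : ℂ) ^ (-s - 1))
          (s * 1 * (c : ℂ) ^ (-s - 1)) y :=
        ((Complex.ofRealCLM.hasDerivAt (x := y)).const_mul s).mul_const _
      refine ((h1.add h2).congr_deriv ?_).hasDerivWithinAt
      ring)
    (fun y hy => by
      rw [norm_mul, norm_neg]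
      refine mul_le_mul_of_nonneg_left ?_ (norm_nonneg _)
      have := first_order (-s - 1) hp hy.1 hy.2 hc (by simp; linarith)
      refine this.trans (le_of_eq ?_)
      congr 2
      simp
      ring)
    (x := c) (y := p) ⟨hpc, le_rfl⟩ ⟨le_rfl, hpc⟩
  have e : (p : ℂ) ^ (-s) - (c : ℂ) ^ (-s) - s * (c - p) * (c : ℂ) ^ (-s - 1) =
      ((p : ℂ) ^ (-s) + s * (p : ℂ) * (c : ℂ) ^ (-s - 1)) -
        ((c : ℂ) ^ (-s) + s * (c : ℂ) * (c : ℂ) ^ (-s - 1)) := by ring
  rw [e]
  refine h.trans ?_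
  have h1 : ‖p - c‖ ≤ 1 := by
    rw [Real.norm_eq_abs, abs_le]
    constructor <;> linarith
  have h2 : 0 ≤ ‖s‖ * (‖-s - 1‖ * p ^ (-s.re - 2)) := by positivity
  nlinarith

/-- The entire function `(s - 1) ζ(s)`. -/
def Z1 : ℂ → ℂ := DirichletCharacter.LFunctionTrivChar₁ 1

theorem Z1_diff : Differentiable ℂ Z1 := DirichletCharacter.differentiable_LFunctionTrivChar₁ 1

theorem Z1_one : Z1 1 = 1 := by simp [Z1]

theorem Z1_ne {s : ℂ} (hs : s ≠ 1) : Z1 s = (s - 1) * riemannZeta s := by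
  simp [Z1, Function.update_of_ne hs, DirichletCharacter.LFunctionTrivChar]

/-- The terms of the remainder series. -/
def tm (a : ℝ) (n : ℕ) (s : ℂ) : ℂ :=
  ((n + a : ℝ) : ℂ) ^ (-s) - ((n + 1 : ℝ) : ℂ) ^ (-s) -
    s * (((n + 1 : ℝ) : ℂ) - ((n + a : ℝ) : ℂ)) * ((n + 1 : ℝ) : ℂ) ^ (-s - 1)

theorem hurwitz_zero {a : ℝ} (h0 : 0 < a) (h1 : a ≤ 1) :
    hurwitzZeta (a : UnitAddCircle) 0 = 1 / 2 - a := by
  set U : Set ℂ := {s | -1 / 2 < s.re} ∩ Metric.ball 0 3 with hU
  have hUo : IsOpen U :=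
    (isOpen_lt continuous_const Complex.continuous_re).inter Metric.isOpen_ball
  have hUc : Convex ℝ U := (convex_halfSpace_re_gt _).inter (convex_ball _ _)
  have hpos : ∀ n : ℕ, (0 : ℝ) < n + a := fun n => by positivity
  have hG : DifferentiableOn ℂ (fun s => ∑' n, tm a n s) U := by
    refine Complex.differentiableOn_tsum_of_summable_norm
      (u := fun n : ℕ => 3 * (4 * (a ^ (-(7 / 2) : ℝ) * (1 / |(n : ℝ) + a| ^ (3 / 2 : ℝ)))))
      ?_ (fun n => ?_) hUo ?_
    · refine ((((Real.summable_one_div_nat_add_rpow a (3 / 2)).mpr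
        (by norm_num)).mul_left _).mul_left _).mul_left _
    · have e1 : ((n + a : ℝ) : ℂ) ≠ 0 := by exact_mod_cast (hpos n).ne'
      have e2 : ((n + 1 : ℝ) : ℂ) ≠ 0 := by
        have : (0 : ℝ) < n + 1 := by positivity
        exact_mod_cast this.ne'
      refine Differentiable.differentiableOn ?_
      unfold tm
      refine (Differentiable.sub ?_ ?_).sub (Differentiable.mul (by fun_prop) ?_)
      · exact Differentiable.const_cpow (by fun_prop) (Or.inl e1)
      · exact Differentiable.const_cpow (by fun_prop) (Or.inl e2)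
      · exact Differentiable.const_cpow (by fun_prop) (Or.inl e2)
    · intro n s hs
      have hs1 : -1 / 2 < s.re := hs.1
      have hs2 : ‖s‖ < 3 := by simpa using hs.2
      have hs3 : s.re < 3 := (Complex.re_le_norm s).trans_lt hs2
      have hn : (0 : ℝ) ≤ n := Nat.cast_nonneg n
      refine (second_order s (hpos n) (by linarith) (by linarith) (by linarith)).trans ?_
      have b1 : ‖-s - 1‖ ≤ 4 := by
        refine (norm_sub_le _ _).trans ?_
        rw [norm_neg, norm_one]
        linarith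
      have b2 : ((n : ℝ) + a) ^ (-s.re - 2) ≤
          a ^ (-(7 / 2) : ℝ) * (1 / |(n : ℝ) + a| ^ (3 / 2 : ℝ)) := by
        rw [abs_of_pos (hpos n), one_div, ← Real.rpow_neg (hpos n).le,
          show -s.re - 2 = (-s.re - 1 / 2) + -(3 / 2) by ring, Real.rpow_add (hpos n)]
        refine mul_le_mul_of_nonneg_right ?_ (by positivity)
        exact (Real.rpow_le_rpow_of_nonpos h0 (by linarith) (by linarith)).trans
          (Real.rpow_le_rpow_of_exponent_ge h0 h1 (by linarith))
      have := hpos n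
      gcongr
  have hF : Differentiable ℂ (fun s => hurwitzZeta (a : UnitAddCircle) s - hurwitzZeta 0 s -
      (1 - a) * Z1 (s + 1)) :=
    (differentiable_hurwitzZeta_sub_hurwitzZeta _ _).sub
      ((Z1_diff.comp (by fun_prop)).const_mul _)
  have h2U : (2 : ℂ) ∈ U := ⟨by simp; norm_num, by simp; norm_num⟩
  have h0U : (0 : ℂ) ∈ U := ⟨by simp; norm_num, by simp⟩
  have heq := (hF.differentiableOn.analyticOnNhd hUo).eqOn_of_preconnected_of_eventuallyEq
    (hG.analyticOnNhd hUo) hUc.isPreconnected h2U (by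
      have : ∀ᶠ s : ℂ in 𝓝 2, 1 < s.re :=
        (isOpen_lt continuous_const Complex.continuous_re).mem_nhds (by simp)
      filter_upwards [this] with s hs
      have k1 := hasSum_hurwitzZeta_of_one_lt_re (a := a) ⟨h0.le, h1⟩ hs
      have k2 := hasSum_hurwitzZeta_of_one_lt_re (a := 1) ⟨zero_le_one, le_rfl⟩ hs
      have k3 := hasSum_hurwitzZeta_of_one_lt_re (a := 1) ⟨zero_le_one, le_rfl⟩
        (s := s + 1) (by simp; linarith)
      have e : ((1 : ℝ) : UnitAddCircle) = 0 := AddCircle.coe_period 1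
      rw [e] at k2 k3
      have hs1 : s + 1 ≠ 1 := fun h => by
        have : s = 0 := by linear_combination h
        rw [this] at hs
        simp at hs
        linarith
      rw [Z1_ne hs1, ← hurwitzZeta_zero]
      have k4 := (k1.sub k2).sub (k3.mul_left ((1 - a) * (s + 1 - 1)))
      rw [mul_assoc] at k4
      rw [← k4.tsum_eq]
      refine tsum_congr fun n => ?_
      unfold tm
      rw [show -s - 1 = -(s + 1) by ring, Complex.cpow_neg, Complex.cpow_neg, Complex.cpow_neg]
      push_cast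
      ring) h0U
  have ht : ∀ n, tm a n 0 = 0 := fun n => by simp [tm]
  simp only [ht, tsum_zero, zero_add, Z1_one, hurwitzZeta_zero, riemannZeta_zero] at heq
  linear_combination heq

theorem mero_hurwitz (a : UnitAddCircle) : MeromorphicOn (hurwitzZeta a) univ := by
  intro z _
  have h1 : MeromorphicAt (fun s => hurwitzZeta a s - hurwitzZeta 0 s + Z1 s / (s - 1)) z :=
    ((differentiable_hurwitzZeta_sub_hurwitzZeta a 0).analyticAt z).meromorphicAt.fun_add
      ((Z1_diff.analyticAt z).meromorphicAt.fun_div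
        (AnalyticAt.meromorphicAt (by fun_prop)))
  refine h1.congr ?_
  have : ∀ᶠ s in 𝓝[≠] z, s ≠ 1 := by
    rcases eq_or_ne z 1 with rfl | hz
    · exact self_mem_nhdsWithin
    · exact mem_nhdsWithin_of_mem_nhds (isOpen_ne.mem_nhds hz)
  filter_upwards [this] with s hs
  rw [Z1_ne hs, hurwitzZeta_zero]
  have : s - 1 ≠ 0 := sub_ne_zero.mpr hs
  field_simp
  ring

theorem analytic_hurwitz (a : UnitAddCircle) : AnalyticAt ℂ (hurwitzZeta a) 0 := by
  rw [Complex.analyticAt_iff_eventually_differentiableAt]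
  filter_upwards [isOpen_ne.mem_nhds (zero_ne_one (α := ℂ))] with s hs
  exact differentiableAt_hurwitzZeta a hs

/-! ### Coefficients of series over ideals -/

variable {L : Type} [Field L] [NumberField L]

/-- The coefficients of a series over ideals. -/
def co (a : Ideal (𝓞 L) → ℂ) (n : ℕ) : ℂ :=
  ∑' I : {I : Ideal (𝓞 L) // absNorm I = n}, a I

theorem co_norm_le (a : Ideal (𝓞 L) → ℂ) (ha : ∀ I, ‖a I‖ ≤ 1) (n : ℕ) :
    ‖co a n‖ ≤ ‖(Nat.card {I : Ideal (𝓞 L) // absNorm I = n} : ℂ)‖ := by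
  have := Fintype.ofFinite {I : Ideal (𝓞 L) // absNorm I = n}
  rw [co, tsum_fintype, Complex.norm_natCast, Nat.card_eq_fintype_card]
  refine (norm_sum_le _ _).trans ?_
  refine (Finset.sum_le_sum fun I _ => ha I.1).trans ?_
  simp

theorem co_summable (a : Ideal (𝓞 L) → ℂ) (ha : ∀ I, ‖a I‖ ≤ 1) {s : ℂ} (hs : 1 < s.re) :
    LSeriesSummable (co a) s :=
  Summable.of_norm_bounded (Diri.lsummable L s hs).norm fun n =>
    LSeries.norm_term_le s (co_norm_le a ha n)

theorem summ (a : Ideal (𝓞 L) → ℂ) (ha : ∀ I, ‖a I‖ ≤ 1) {s : ℂ} (hs : 1 < s.re) :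
    Summable (fun I : Ideal (𝓞 L) => a I * (absNorm I : ℂ) ^ (-s)) := by
  refine Summable.of_norm_bounded (Diri.summable_norm L s hs) fun I => ?_
  rw [norm_mul]
  exact mul_le_of_le_one_left (norm_nonneg _) (ha I)

theorem lser_eq (a : Ideal (𝓞 L) → ℂ) (ha : ∀ I, ‖a I‖ ≤ 1) {s : ℂ} (hs : 1 < s.re) :
    Lser a s = LSeries (co a) s := by
  have hs0 : s ≠ 0 := fun h => by rw [h] at hs; simp at hs; linarith
  have hf := (summ a ha hs).hasSum.tsum_fiberwise (fun I : Ideal (𝓞 L) => absNorm I)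
  unfold Lser LSeries
  rw [← hf.tsum_eq]
  refine tsum_congr fun n => ?_
  rw [Diri.term_eq _ s hs0, co, ← tsum_mul_right]
  refine tsum_congr fun y => ?_
  have : absNorm (y : Ideal (𝓞 L)) = n := y.2
  rw [this]

theorem co_ite (a : Ideal (𝓞 L) → ℂ) (m : ℕ) (u : ZMod m) (n : ℕ) :
    co (fun I : Ideal (𝓞 L) => if (absNorm I : ZMod m) = u then a I else 0) n =
      if (n : ZMod m) = u then co a n else 0 := by
  unfold co
  split_ifs with h
  · exact tsum_congr fun I => by simp only [I.2, if_pos h]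
  · exact (tsum_congr fun I => by simp only [I.2, if_neg h]).trans tsum_zero

theorem co_rat (n : ℕ) : co (fun _ : Ideal (𝓞 ℚ) => (1 : ℂ)) n = 1 := by
  have hn : ∀ z : 𝓞 ℚ, absNorm (span {z}) = (Rat.ringOfIntegersEquiv z).natAbs := fun z => by
    have e : z = ((Rat.ringOfIntegersEquiv z : ℤ) : 𝓞 ℚ) := by
      apply Rat.ringOfIntegersEquiv.injective
      simp
    rw [absNorm_span_singleton]
    conv_lhs => rw [e]
    rw [← eq_intCast (algebraMap ℤ (𝓞 ℚ)), Algebra.norm_algebraMap, RingOfIntegers.rank]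
    simp
  have hp : IsPrincipalIdealRing (𝓞 ℚ) :=
    IsPrincipalIdealRing.of_surjective Rat.ringOfIntegersEquiv.symm.toRingHom
      Rat.ringOfIntegersEquiv.symm.surjective
  have hu : Unique {I : Ideal (𝓞 ℚ) // absNorm I = n} :=
    { default := ⟨span {(n : 𝓞 ℚ)}, by rw [hn]; simp⟩
      uniq := fun I => by
        obtain ⟨I, hI⟩ := I
        obtain ⟨z, rfl⟩ := (IsPrincipalIdealRing.principal I).principal
        apply Subtype.ext
        change span {z} = span {(n : 𝓞 ℚ)}
        change absNorm (span {z}) = n at hI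
        rw [hn] at hI
        have e : z = ((Rat.ringOfIntegersEquiv z : ℤ) : 𝓞 ℚ) := by
          apply Rat.ringOfIntegersEquiv.injective
          simp
        rw [e, ← hI]
        rcases Int.natAbs_eq (Rat.ringOfIntegersEquiv z) with h | h
        · conv_lhs => rw [h]
          simp
        · conv_lhs => rw [h]
          simp }
  simp [co]

theorem ind_summable (m : ℕ) (x : ZMod m) {s : ℂ} (hs : 1 < s.re) :
    LSeriesSummable (fun d : ℕ => if (d : ZMod m) = x then (1 : ℂ) else 0) s :=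
  LSeriesSummable_of_bounded_of_one_lt_re (m := 1) (fun n _ => by split_ifs <;> simp) hs

theorem split_ind {m : ℕ} [NeZero m] (u : (ZMod m)ˣ) (d e : ZMod m) (c : ℂ) :
    ∑ x : (ZMod m)ˣ, (if d = x then (1 : ℂ) else 0) *
      (if e = (x⁻¹ * u : (ZMod m)ˣ) then c else 0) = if d * e = u then c else 0 := by
  split_ifs with h
  · have hd : IsUnit d := isUnit_of_mul_isUnit_left (h ▸ u.isUnit)
    obtain ⟨x, rfl⟩ := hd
    rw [Finset.sum_eq_single x]
    · have : e = (x⁻¹ * u : (ZMod m)ˣ) := by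
        rw [Units.val_mul, ← h, Units.inv_mul_cancel_left]
      rw [if_pos rfl, if_pos this, one_mul]
    · intro y _ hy
      rw [if_neg (fun h => hy (Units.ext h).symm), zero_mul]
    · simp
  · refine Finset.sum_eq_zero fun x _ => ?_
    split_ifs with h1 h2
    · exact absurd (by rw [h1, h2, Units.val_mul, Units.mul_inv_cancel_left]) h
    all_goals simp

end Conv

open Conv in
theorem conv : DIRI → CONV := by
  intro _ k F _ _ _ _ A hA hz m _ u s hs
  have one_le : ∀ {L : Type} [Field L] (I : Ideal (𝓞 L)), ‖(fun _ => (1 : ℂ)) I‖ ≤ 1 :=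
    fun _ => by simp
  have ite_le : ∀ {L : Type} [Field L] [NumberField L] (a : Ideal (𝓞 L) → ℂ),
      (∀ I, ‖a I‖ ≤ 1) → ∀ (v : ZMod m) (I : Ideal (𝓞 L)),
      ‖if (absNorm I : ZMod m) = v then a I else 0‖ ≤ 1 := fun a ha v I => by
    split_ifs
    · exact ha I
    · simp
  have h2 : (1 : ℝ) < (2 : ℂ).re := by simp
  have hco : ∀ n, n ≠ 0 → co (fun _ : Ideal (𝓞 k) => (1 : ℂ)) n =
      LSeries.convolution (co fun _ : Ideal (𝓞 ℚ) => (1 : ℂ)) (co A) n := by
    intro n hn
    refine LSeries.eq_of_LSeries_eventually_eq ?_ ?_ ?_ hn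
    · exact (co_summable _ one_le h2).abscissaOfAbsConv_le.trans_lt (EReal.coe_lt_top _)
    · exact ((co_summable _ one_le h2).convolution
        (co_summable _ hA h2)).abscissaOfAbsConv_le.trans_lt (EReal.coe_lt_top _)
    · filter_upwards [eventually_gt_atTop (1 : ℝ)] with x hx
      have hx' : 1 < (x : ℂ).re := by simpa using hx
      rw [LSeries_convolution' (co_summable _ one_le hx') (co_summable _ hA hx'),
        ← lser_eq _ one_le hx', ← lser_eq _ one_le hx', ← lser_eq _ hA hx', hz x hx']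
  unfold Dz Hz
  rw [lser_eq _ (ite_le _ one_le _) hs]
  have hx : ∀ x : (ZMod m)ˣ,
      LSeries (fun d : ℕ => if (d : ZMod m) = x then (1 : ℂ) else 0) s *
        Lser (fun I : Ideal (𝓞 F) =>
          if (absNorm I : ZMod m) = (x⁻¹ * u : (ZMod m)ˣ) then A I else 0) s =
      LSeries (LSeries.convolution (fun d : ℕ => if (d : ZMod m) = x then (1 : ℂ) else 0)
        (co fun I : Ideal (𝓞 F) =>
          if (absNorm I : ZMod m) = (x⁻¹ * u : (ZMod m)ˣ) then A I else 0)) s := fun x => by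
    rw [lser_eq _ (ite_le _ hA _) hs,
      LSeries_convolution' (ind_summable m x hs) (co_summable _ (ite_le _ hA _) hs)]
  rw [Finset.sum_congr rfl fun x _ => hx x, ← LSeries_sum fun (x : (ZMod m)ˣ) _ =>
    (ind_summable m x hs).convolution (co_summable _ (ite_le _ hA (x⁻¹ * u : (ZMod m)ˣ)) hs)]
  refine LSeries_congr (fun {n} hn => ?_) s
  rw [co_ite, hco n hn, Finset.sum_apply]
  simp only [LSeries.convolution_def, co_ite, co_rat, one_mul]
  rw [Finset.sum_comm]
  simp only [split_ind]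
  have : ∀ p ∈ n.divisorsAntidiagonal, (if ((p.1 : ZMod m) * (p.2 : ZMod m)) = u then co A p.2
      else 0) = if (n : ZMod m) = u then co A p.2 else 0 := fun p hp => by
    rw [← (Nat.mem_divisorsAntidiagonal.mp hp).1, Nat.cast_mul]
  rw [Finset.sum_congr rfl this]
  split_ifs <;> simp

open Conv HurwitzZeta in
theorem hurw : HURW := by
  intro m x a d hm ⟨Y, h1, h2, h3, h4, h5⟩
  have : NeZero m := ⟨by omega⟩
  have : Fact (1 < m) := ⟨by omega⟩
  have hm0 : (m : ℂ) ≠ 0 := by exact_mod_cast NeZero.ne m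
  have hmR : (0 : ℝ) < m := by exact_mod_cast NeZero.pos m
  set c : UnitAddCircle := ZMod.toAddCircle (x : ZMod m) with hc
  have hE : Differentiable ℂ fun s : ℂ => (m : ℂ) ^ (-s) :=
    Differentiable.const_cpow (by fun_prop) (Or.inl hm0)
  have hH : AnalyticAt ℂ (fun s => (m : ℂ) ^ (-s) * hurwitzZeta c s) 0 :=
    (hE.analyticAt 0).fun_mul (analytic_hurwitz c)
  have hval : hurwitzZeta c 0 = ((1 / 2 - (x : ZMod m).val / m : ℚ) : ℂ) := by
    have hx0 : 0 < (x : ZMod m).val := ZMod.val_pos.mpr x.ne_zero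
    have hx1 := ZMod.val_lt (x : ZMod m)
    rw [hc, ZMod.toAddCircle_apply, hurwitz_zero (by positivity)
      ((div_le_one hmR).mpr (by exact_mod_cast hx1.le))]
    push_cast
    ring
  refine ⟨fun s => ((m : ℂ) ^ (-s) * hurwitzZeta c s) * Y s, ?_, fun s hs => ?_,
    hH.fun_mul h3, by simp [h4], ?_⟩
  · exact (MeromorphicOn.fun_mul (fun z _ => (hE.analyticAt z).meromorphicAt)
      (mero_hurwitz c)).fun_mul h1
  · have := ZMod.LFunction_eq_LSeries (fun j : ZMod m => if j = x then (1 : ℂ) else 0) hs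
    simp only [h2 s hs, Hz, ← this, ZMod.LFunction]
    simp [hc]
  · rw [deriv_fun_mul hH.differentiableAt h3.differentiableAt, h4, h5, hval]
    simp

open Conv in
theorem rmv : DIRI → RMV := by
  intro _ L B _ _ _ a h J P hh hP hPJ s hs
  have hP0 : P ≠ ⊥ := Ring.ne_bot_of_isMaximal_of_not_isField hP (RingOfIntegers.not_isField L)
  have hcop : ∀ I : Ideal (𝓞 L), IsCoprime I P ↔ ¬ P ∣ I := fun I => by
    rw [Ideal.isCoprime_iff_sup_eq, Ideal.dvd_iff_le]
    constructor
    · intro h1 h2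
      exact hP.ne_top (by rw [← h1, sup_eq_right.mpr h2])
    · intro h1
      by_contra h2
      exact h1 (le_sup_left.trans (hP.eq_of_le h2 le_sup_right).ge)
  have bd : ∀ (p : Ideal (𝓞 L) → Prop) (g : Ideal (𝓞 L) → B) (I : Ideal (𝓞 L)),
      ‖if p I then h (g I) else 0‖ ≤ 1 := fun p g I => by
    split_ifs
    · exact hh _
    · simp
  have key : (absNorm P : ℂ) ^ (-s) *
      Lser (fun I => if IsCoprime I J then h (a P * a I) else 0) s =
      Lser (fun I => if IsCoprime I J ∧ P ∣ I then h (a I) else 0) s := by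
    unfold Lser
    rw [← tsum_mul_left, eq_comm, ← (mul_right_injective₀ hP0).tsum_eq]
    · refine tsum_congr fun I => ?_
      have e : IsCoprime (P * I) J ∧ P ∣ P * I ↔ IsCoprime I J :=
        ⟨fun h => h.1.of_mul_left_right, fun h => ⟨hPJ.mul_left h, dvd_mul_right _ _⟩⟩
      simp only [e, map_mul, Nat.cast_mul, Complex.natCast_mul_natCast_cpow]
      ring
    · intro I hI
      by_contra hI2
      apply hI
      have : ¬ P ∣ I := fun ⟨I', h⟩ => hI2 ⟨I', h.symm⟩
      simp [this]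
  rw [key]
  unfold Lser
  rw [← (summ _ (bd (fun I => IsCoprime I J) a) hs).tsum_sub
    (summ (fun I => if IsCoprime I J ∧ P ∣ I then h (a I) else 0) (fun I => by
      split_ifs
      · exact hh _
      · simp) hs)]
  refine tsum_congr fun I => ?_
  simp only [IsCoprime.mul_right_iff, hcop]
  by_cases h1 : IsCoprime I J <;> by_cases h2 : P ∣ I <;> simp [h1, h2]

theorem cuniq : CUNIQ := by
  intro a d d' ⟨Y, h1, h2, h3, _, h5⟩ ⟨Z, k1, k2, k3, _, k5⟩
  have hm : MeromorphicOn (fun s => Y s - Z s) univ := h1.fun_sub k1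
  have h2' : meromorphicOrderAt (fun s => Y s - Z s) 2 = ⊤ := by
    rw [meromorphicOrderAt_eq_top_iff]
    have : ∀ᶠ s : ℂ in 𝓝 2, 1 < s.re :=
      (isOpen_lt continuous_const Complex.continuous_re).mem_nhds (by simp)
    filter_upwards [mem_nhdsWithin_of_mem_nhds this] with s hs
    rw [h2 s hs, k2 s hs, sub_self]
  have h0 : meromorphicOrderAt (fun s => Y s - Z s) 0 = ⊤ := by
    by_contra h
    exact hm.meromorphicOrderAt_ne_top_of_isPreconnected isPreconnected_univ (mem_univ 0)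
      (mem_univ 2) h h2'
  rw [meromorphicOrderAt_eq_top_iff] at h0
  have he : Y =ᶠ[𝓝 0] Z := (h3.frequently_eq_iff_eventually_eq k3).mp
    (h0.mono fun s hs => sub_eq_zero.mp hs).frequently
  rw [← h5, ← k5, he.deriv_eq]

end

end Pool.Agent.P.MP_29cb78_nt.C
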