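import Pool.Agent.P.MP_29cb78_nt.C.Iface
import Pool.Agent.P.MP_29cb78_nt.Diri

/-!
The crossing argument for one auxiliary character.
-/

namespace Pool.Agent.P.MP_29cb78_nt.C

open NumberField Set Ideal Filter Topology

noncomputable section

namespace Cross

/-! ### Logarithms of cube roots of unity -/

/-- The standard character of `ℤ / 3`. -/
def ch (k : ZMod 3) : ℂ := ZMod.stdAddChar k

theorem ch_inj : Function.Injective ch := ZMod.injective_stdAddChar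

theorem ch_add (a b : ZMod 3) : ch (a + b) = ch a * ch b := AddChar.map_add_eq_mul _ a b

theorem ch_zero : ch 0 = 1 := AddChar.map_zero_eq_one _

theorem ch_mul (k : ℕ) (a : ZMod 3) : ch (k * a) = ch a ^ k := by
  rw [← nsmul_eq_mul]; exact AddChar.map_nsmul_eq_pow _ k a

theorem ch_eq_one {a : ZMod 3} : ch a = 1 ↔ a = 0 := by
  rw [← ch_zero, ch_inj.eq_iff]

/-- The logarithm. -/
def lg (u : ℂ) : ZMod 3 := Function.invFun ch u

theorem ch_lg {u : ℂ} (hu : u ^ 3 = 1) : ch (lg u) = u := by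
  refine Function.invFun_eq ?_
  have h3 : ch 1 ^ 3 = 1 := by
    rw [← ch_mul, ch_eq_one]; decide
  have h1 : ch 1 ≠ 1 := by
    rw [Ne, ch_eq_one]; decide
  have hp : IsPrimitiveRoot (ch 1) 3 := by
    have : Fact (Nat.Prime 3) := ⟨Nat.prime_three⟩
    have h := IsPrimitiveRoot.orderOf (ch 1)
    rwa [orderOf_eq_prime h3 h1] at h
  obtain ⟨i, -, hi⟩ := hp.eq_pow_of_pow_eq_one hu
  exact ⟨i * 1, by rw [ch_mul, hi]⟩

theorem lg_eq_zero {u : ℂ} (hu : u ^ 3 = 1) : lg u = 0 ↔ u = 1 := by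
  rw [← ch_eq_one, ch_lg hu]

/-- The logarithm of a cubic character. -/
def lgH {G : Type} [Group G] (χ : G →* ℂ) (h : ∀ σ, χ σ ^ 3 = 1) : G →* Multiplicative (ZMod 3) :=
  MonoidHom.mk' (fun σ => Multiplicative.ofAdd (lg (χ σ))) fun a b => by
    rw [← ofAdd_add]
    congr 1
    apply ch_inj
    rw [ch_add, ch_lg (h _), ch_lg (h _), ch_lg (h _), map_mul]

set_option synthInstance.maxSize 4000 in
theorem alg {ι : Type} (a b e e1 e2 : ι → ZMod 3) (x y z x' y' z' : ZMod 3)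
    (h0 : ∀ P, a P = 0 → e P = 0) (h1 : ∀ P, a P + b P = 0 → e1 P = 0)
    (h2 : ∀ P, a P + 2 * b P = 0 → e2 P = 0)
    (r1 : ∀ P, x * e P + y * b P + z * e1 P = 0) (n1 : ¬ (x = 0 ∧ y = 0 ∧ z = 0))
    (r2 : ∀ P, x' * e P + y' * b P + z' * e2 P = 0) (n2 : ¬ (x' = 0 ∧ y' = 0 ∧ z' = 0))
    (b1 : ∃ P, a P + b P = 0 ∧ b P ≠ 0) (b2 : ∃ P, a P + 2 * b P = 0 ∧ b P ≠ 0)
    (c1 : ∃ P, a P + b P = 0 ∧ e P ≠ 0) (c2 : ∃ P, a P + 2 * b P = 0 ∧ e P ≠ 0)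
    (c3 : ∃ P, b P = 0 ∧ e P ≠ 0) (d1 : ∃ P, a P + 2 * b P = 0 ∧ e1 P ≠ 0)
    (d2 : ∃ P, e2 P ≠ 0) :
    (∀ P, b P ≠ 0 → e P = a P) ∨ ∀ P, b P ≠ 0 → 2 * e P = a P := by
  have zz : ∀ u v : ZMod 3, u * v = 0 → v ≠ 0 → u = 0 := by decide
  obtain ⟨P1, p1, q1⟩ := b1
  obtain ⟨P2, p2, q2⟩ := b2
  obtain ⟨P3, p3, q3⟩ := c1
  obtain ⟨P4, p4, q4⟩ := c2
  obtain ⟨P5, p5, q5⟩ := c3
  obtain ⟨P6, p6, q6⟩ := d1
  obtain ⟨P7, q7⟩ := d2
  have hx : x ≠ 0 := fun hx => by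
    have hy : y = 0 := zz _ _ (by simpa [hx, h1 P1 p1] using r1 P1) q1
    exact n1 ⟨hx, hy, zz _ _ (by simpa only [hx, hy, zero_mul, zero_add] using r1 P6) q6⟩
  have hy : y ≠ 0 := fun hy =>
    hx (zz _ _ (by simpa only [hy, h1 P3 p3, zero_mul, mul_zero, add_zero] using r1 P3) q3)
  have hz : z ≠ 0 := fun hz =>
    hx (zz _ _ (by simpa only [hz, p5, zero_mul, mul_zero, add_zero] using r1 P5) q5)
  have hx' : x' ≠ 0 := fun hx => by
    have hy : y' = 0 := zz _ _ (by simpa [hx, h2 P2 p2] using r2 P2) q2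
    exact n2 ⟨hx, hy, zz _ _ (by simpa only [hx, hy, zero_mul, zero_add] using r2 P7) q7⟩
  have hy' : y' ≠ 0 := fun hy =>
    hx' (zz _ _ (by simpa only [hy, h2 P4 p4, zero_mul, mul_zero, add_zero] using r2 P4) q4)
  have k1 : x' * e P6 + y' * b P6 = 0 := by simpa [h2 P6 p6] using r2 P6
  have k2 : x * e P6 + y * b P6 ≠ 0 := fun h => by
    have := r1 P6
    rw [h, zero_add, mul_comm] at this
    exact q6 (zz _ _ this hz)
  have key : ∀ x y x' y' u v : ZMod 3, x ≠ 0 → y ≠ 0 → x' ≠ 0 → y' ≠ 0 → x' * u + y' * v = 0 →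
      x * u + y * v ≠ 0 → (y = x ∧ y' = -x') ∨ (y = -x ∧ y' = x') := by decide
  have f1 : ∀ x x' a b e : ZMod 3, x ≠ 0 → x' ≠ 0 → b ≠ 0 → (a = 0 → e = 0) →
      (a + b = 0 → x * e + x * b = 0) → (a + 2 * b = 0 → x' * e + -x' * b = 0) → e = a := by
    decide
  have f2 : ∀ x x' a b e : ZMod 3, x ≠ 0 → x' ≠ 0 → b ≠ 0 → (a = 0 → e = 0) →
      (a + b = 0 → x * e + -x * b = 0) → (a + 2 * b = 0 → x' * e + x' * b = 0) → 2 * e = a := by
    decide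
  rcases key x y x' y' _ _ hx hy hx' hy' k1 k2 with ⟨rfl, rfl⟩ | ⟨rfl, rfl⟩
  · exact Or.inl fun P hb => f1 _ _ _ _ _ hx hx' hb (h0 P)
      (fun h => by simpa only [h1 P h, mul_zero, add_zero] using r1 P)
      (fun h => by simpa only [h2 P h, mul_zero, add_zero] using r2 P)
  · exact Or.inr fun P hb => f2 _ _ _ _ _ hx hx' hb (h0 P)
      (fun h => by simpa only [h1 P h, mul_zero, add_zero] using r1 P)
      (fun h => by simpa only [h2 P h, mul_zero, add_zero] using r2 P)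

/-! ### Densities -/

open scoped Classical

variable {F : Type} [Field F] [NumberField F]

theorem summ (W : Set (Ideal (𝓞 F))) {s : ℝ} (hs : 1 < s) :
    Summable fun P : Ideal (𝓞 F) => if P ∈ W then (absNorm P : ℝ) ^ (-s) else 0 := by
  refine Summable.of_nonneg_of_le (fun P => ?_) (fun P => ?_)
    (Diri.summable_norm F s (by simpa using hs))
  · split_ifs
    · positivity
    · exact le_rfl
  · split_ifs
    · rw [Complex.norm_natCast_cpow_of_re_ne_zero _ (by simp; linarith)]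
      simp
    · exact norm_nonneg _

theorem psum_mono {W W' : Set (Ideal (𝓞 F))} (h : W ⊆ W') {s : ℝ} (hs : 1 < s) :
    psum W s ≤ psum W' s := by
  refine (summ W hs).tsum_le_tsum (fun P => ?_) (summ W' hs)
  by_cases h1 : P ∈ W
  · rw [if_pos h1, if_pos (h h1)]
  · rw [if_neg h1]
    split_ifs
    · positivity
    · exact le_rfl

theorem dens_union {W W' : Set (Ideal (𝓞 F))} {d d' d'' : ℝ} (h : HasDens W d)
    (h' : HasDens W' d') (h'' : HasDens (W ∩ W') d'') : HasDens (W ∪ W') (d + d' - d'') := by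
  refine ((h.add h').sub h'').congr' ?_
  filter_upwards [self_mem_nhdsWithin] with s hs
  have hs' : 1 < s := hs
  rw [← add_div, ← sub_div]
  congr 1
  unfold psum
  rw [← (summ W hs').tsum_add (summ W' hs'), ← ((summ W hs').add (summ W' hs')).tsum_sub
    (summ _ hs')]
  refine tsum_congr fun P => ?_
  by_cases h1 : P ∈ W <;> by_cases h2 : P ∈ W' <;> simp [h1, h2]

theorem dens_le {W W' : Set (Ideal (𝓞 F))} {d d' : ℝ} (h : HasDens W d) (hW : W ⊆ W')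
    (h' : DensLe W' d') : d ≤ d' := by
  refine le_of_forall_pos_le_add fun ε hε => le_of_tendsto h ?_
  filter_upwards [h' ε hε, Ioo_mem_nhdsGT (show (1 : ℝ) < 2 by norm_num)] with s hs hs'
  refine le_trans (div_le_div_of_nonneg_right (psum_mono hW hs'.1) (Real.log_nonneg ?_)) hs
  rw [le_div_iff₀ (by linarith [hs'.1])]
  linarith [hs'.2]

omit [NumberField F] in
theorem cop_pow {n : ℕ} (t : ℕ) (I : Ideal (𝓞 F)) : Cop (n ^ (t + 1)) I ↔ Cop n I := by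
  unfold Cop
  rw [Nat.cast_pow, ← span_singleton_pow, IsCoprime.pow_right_iff (Nat.succ_pos t)]

omit [NumberField F] in
theorem ray_mono {n t T : ℕ} (h : t ≤ T) {ξ : Ideal (𝓞 F) →* ℂ} (hξ : Ray (n ^ (t + 1)) ξ) :
    Ray (n ^ (T + 1)) ξ := fun α h0 h1 => hξ α h0 (by
  rw [mem_span_singleton] at h1 ⊢
  exact (Nat.cast_dvd_cast (pow_dvd_pow n (Nat.succ_le_succ h))).trans h1)

theorem cop_of_max {n : ℕ} {P : Ideal (𝓞 F)} (hP : P.IsMaximal) (hn : (n : 𝓞 F) ∉ P) :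
    Cop n P := by
  refine ⟨Ring.ne_bot_of_isMaximal_of_not_isField hP (RingOfIntegers.not_isField F), ?_⟩
  rw [isCoprime_iff_sup_eq]
  exact hP.out.2 _ (lt_of_le_of_ne le_sup_left fun h => hn (by
    rw [h]; exact mem_sup_right (mem_span_singleton_self _)))

theorem cube_of_max {n : ℕ} {B : Ideal (𝓞 F) →* ℂ}
    (h : ∀ P : Ideal (𝓞 F), P.IsMaximal → (n : 𝓞 F) ∉ P → B P ^ 3 = 1) (I : Ideal (𝓞 F)) :
    Cop n I → B I ^ 3 = 1 := by
  induction I using UniqueFactorizationMonoid.induction_on_prime with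
  | h₁ => exact fun hI => (hI.1 rfl).elim
  | h₂ x hx => intro _; rw [isUnit_iff.mp hx, ← one_eq_top, map_one, one_pow]
  | h₃ a p ha hp ih =>
    intro hI
    have hp' : p.IsPrime := isPrime_of_prime hp
    have hn : (n : 𝓞 F) ∉ p := fun hn => by
      have := hI.2.of_mul_left_left
      rw [isCoprime_iff_sup_eq, sup_eq_left.mpr ((span_singleton_le_iff_mem _).mpr hn)] at this
      exact hp'.ne_top this
    rw [map_mul, mul_pow, h p (hp'.isMaximal hp.ne_zero) hn, ih ⟨ha, hI.2.of_mul_left_right⟩,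
      mul_one]

/-- Cubic ray characters. -/
def Good (n : ℕ) (ξ : Ideal (𝓞 F) →* ℂ) : Prop :=
  (∃ t, Ray (n ^ (t + 1)) ξ) ∧ ∀ I, Cop n I → ξ I ^ 3 = 1

theorem dep [IsTotallyComplex F] (hS : SI) (h2 : Module.finrank ℚ F = 2) {n : ℕ} (hn : 3 ≤ n)
    {ι : Type} [Fintype ι] [DecidableEq ι] (ξ : ι → Ideal (𝓞 F) →* ℂ) (hξ : ∀ i, Good n (ξ i))
    {W : Set (Ideal (𝓞 F))} {d : ℝ} (hW : HasDens W d) (hd : 1 / 3 ^ Fintype.card ι < d)
    (h1 : ∀ P ∈ W, P.IsMaximal ∧ (n : 𝓞 F) ∉ P ∧ ∀ i, ξ i P = 1) :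
    ∃ e : ι → Fin 3, e ≠ 0 ∧ ∀ I, Cop n I → ∏ i, ξ i I ^ (e i : ℕ) = 1 := by
  by_contra hc
  push Not at hc
  choose t ht using fun i => (hξ i).1
  have hT : ∀ i, Ray (n ^ (Finset.univ.sup t + 1)) (ξ i) := fun i =>
    ray_mono (Finset.le_sup (f := t) (Finset.mem_univ i)) (ht i)
  generalize Finset.univ.sup t = T at hT
  have ap : ∀ (e : ι → Fin 3) I, (∏ i, ξ i ^ (e i : ℕ) : Ideal (𝓞 F) →* ℂ) I =
      ∏ i, ξ i I ^ (e i : ℕ) := fun e I => by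
    simp [MonoidHom.finsetProd_apply]
  have h := hS F (ι → Fin 3) (n ^ (T + 1)) (fun e => ∏ i, ξ i ^ (e i : ℕ)) 0 h2
    (hn.trans (Nat.le_self_pow (Nat.succ_ne_zero T) n))
    (fun e α h0 h1 => by rw [ap]; simp [fun i => hT i α h0 h1])
    (fun e I hI => by
      rw [ap, norm_prod]
      refine Finset.prod_eq_one fun i _ => ?_
      rw [norm_pow, Complex.norm_eq_one_of_pow_eq_one ((hξ i).2 I ((cop_pow T I).mp hI))
        three_ne_zero, one_pow])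
    (fun e he => by
      obtain ⟨I, hI, hI'⟩ := hc e he
      exact ⟨I, (cop_pow T I).mpr hI, by rwa [ap]⟩)
    (fun I hI => by
      open ComplexOrder in
      have : (0 : ℂ) ≤ ∑ e : ι → Fin 3, (∏ i, ξ i ^ (e i : ℕ) : Ideal (𝓞 F) →* ℂ) I := by
        simp only [ap]
        rw [← Fintype.piFinset_univ, ← Finset.prod_univ_sum (fun _ => Finset.univ)
          fun i (k : Fin 3) => ξ i I ^ (k : ℕ)]
        refine Finset.prod_nonneg fun i _ => ?_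
        have h3 := (hξ i).2 I ((cop_pow T I).mp hI)
        rw [Fin.sum_univ_three]
        simp only [Fin.val_zero, Fin.val_one, Fin.val_two, pow_zero, pow_one]
        by_cases hu : ξ i I = 1
        · rw [hu]; norm_num
        · have : (ξ i I - 1) * (1 + ξ i I + ξ i I ^ 2) = 0 := by linear_combination h3
          rw [(mul_eq_zero.mp this).resolve_left (sub_ne_zero.mpr hu)]
      exact (Complex.nonneg_iff.mp this).1)
  have := dens_le hW (fun P hP => by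
    obtain ⟨a, b, c⟩ := h1 P hP
    refine ⟨a, fun h => b (a.isPrime.mem_of_pow_mem (T + 1) (by rwa [Nat.cast_pow] at h)),
      fun e => ?_⟩
    rw [ap]; simp [c]) h
  rw [Fintype.card_fun, Fintype.card_fin, Nat.cast_pow, Nat.cast_ofNat] at this
  exact absurd hd (not_lt.mpr this)

variable {Ω : Type} [Field Ω] [NumberField Ω] [Algebra F Ω] [IsGalois F Ω]

theorem exists_frob {n : ℕ} {P : Ideal (𝓞 F)} (hP : P.IsMaximal) (hn : (n : 𝓞 F) ∉ P) :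
    ∃ Q : Ideal (𝓞 Ω), Q.IsMaximal ∧ Q.under (𝓞 F) = P ∧ (n : 𝓞 Ω) ∉ Q ∧
      ∃ σ : Gal(Ω/F), IsFrob Q σ := by
  obtain ⟨Q, hQ, hQP⟩ := exists_maximal_ideal_liesOver_of_isIntegral (S := 𝓞 Ω) P
  have hQ0 : Q ≠ ⊥ := Ring.ne_bot_of_isMaximal_of_not_isField hQ (RingOfIntegers.not_isField Ω)
  have : Finite (𝓞 Ω ⧸ Q) := Ring.HasFiniteQuotients.finiteQuotient hQ0
  obtain ⟨g, hg⟩ := IsArithFrobAt.exists_of_isInvariant (𝓞 F) Gal(Ω/F) Q
  refine ⟨Q, hQ, hQP.over.symm, fun h => hn ?_, g, fun z => ?_⟩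
  · rw [hQP.over, Ideal.mem_comap, map_natCast]; exact h
  · rw [absNorm_apply, Submodule.cardQuot_apply]
    exact hg z

theorem dens_ker (hD : DENS) {X : Type} [Group X] (κ : Gal(Ω/F) →* X) (hκ : Function.Surjective κ)
    {n : ℕ} (hn : n ≠ 0) (p : Ideal (𝓞 F) → Prop)
    (hp : ∀ Q : Ideal (𝓞 Ω), Q.IsMaximal → (n : 𝓞 Ω) ∉ Q → ∀ σ : Gal(Ω/F), IsFrob Q σ →
      (p (Q.under (𝓞 F)) ↔ κ σ = 1)) :
    HasDens {P | P.IsMaximal ∧ (n : 𝓞 F) ∉ P ∧ p P} (1 / Nat.card X) := by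
  have h := hD F Ω κ.ker n inferInstance hn
  have e1 : (Nat.card κ.ker : ℝ) / Nat.card Gal(Ω/F) = 1 / Nat.card X := by
    have h1 := κ.ker.card_mul_index
    rw [Subgroup.index_ker, MonoidHom.range_eq_top.mpr hκ, Subgroup.card_top] at h1
    have h2 : (Nat.card κ.ker : ℝ) ≠ 0 := Nat.cast_ne_zero.mpr Nat.card_pos.ne'
    rw [← h1, Nat.cast_mul, div_mul_cancel_left₀ h2, one_div]
  have e2 : {P : Ideal (𝓞 F) | P.IsMaximal ∧ (n : 𝓞 F) ∉ P ∧ p P} =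
      {P : Ideal (𝓞 F) | P.IsMaximal ∧ (n : 𝓞 F) ∉ P ∧ ∃ Q : Ideal (𝓞 Ω), Q.IsMaximal ∧
        Q.under (𝓞 F) = P ∧ ∃ σ ∈ κ.ker, IsFrob Q σ} := by
    ext P
    refine and_congr_right fun h1 => and_congr_right fun h2 => ⟨fun h3 => ?_, ?_⟩
    · obtain ⟨Q, a, b, c, σ, hσ⟩ := exists_frob (Ω := Ω) h1 h2
      exact ⟨Q, a, b, σ, (hp Q a c σ hσ).mp (b ▸ h3), hσ⟩
    · rintro ⟨Q, a, rfl, σ, b, hσ⟩
      exact (hp Q a (fun h => h2 (by rw [Ideal.mem_comap, map_natCast]; exact h)) σ hσ).mpr b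
  rw [e2, ← e1]
  exact h

end Cross

open _root_.Pool.Agent.P.MP_29cb78_nt.C.Cross in
theorem cross : DENS → SI → FI → CROSS := by
  intro hD hS hF F Ω _ _ _ _ _ _ _ χ ψ A B η n t h2 hn hχ hψ ⟨σ0, s0, s0'⟩ ⟨σ1, s1⟩ hA hB rB rη cη
    nη wη
  have hn0 : n ≠ 0 := by omega
  have cA : ∀ P : Ideal (𝓞 F), P.IsMaximal → (n : 𝓞 F) ∉ P → A P ^ 3 = 1 ∧ B P ^ 3 = 1 :=
    fun P h1 h2 => by
      obtain ⟨Q, a, rfl, c, σ, hσ⟩ := exists_frob (Ω := Ω) h1 h2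
      rw [hA Q a c σ hσ, hB Q a c σ hσ]
      exact ⟨hχ σ, hψ σ⟩
  have gB : Good n B := ⟨⟨t, rB⟩, cube_of_max fun P a b => (cA P a b).2⟩
  have gη : Good n η := ⟨⟨t, rη⟩, cη⟩
  have fi : ∀ k : ℕ, ∃ ξ, Good n ξ ∧ (∃ I, Cop n I ∧ ξ I ≠ 1) ∧ ∀ P : Ideal (𝓞 F), P.IsMaximal →
      (n : 𝓞 F) ∉ P → lg (A P) + k * lg (B P) = 0 → ξ P = 1 := fun k => by
    obtain ⟨t', ξ, a, b, c, d⟩ := hF F Ω (χ * ψ ^ k) (A * B ^ k) n h2 hn0
      (fun σ => by
        rw [MonoidHom.mul_apply, MonoidHom.pow_apply, mul_pow, hχ, ← pow_mul, mul_comm k, pow_mul,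
          hψ, one_pow, mul_one])
      ⟨σ0, by simpa [s0] using s0'⟩
      (fun Q a c σ hσ => by simp [hA Q a c σ hσ, hB Q a c σ hσ])
    refine ⟨ξ, ⟨⟨t', a⟩, b⟩, by simpa using c 1 one_ne_zero, fun P h1 h3 h4 => d P h1 h3 ?_⟩
    rw [← ch_eq_one, ch_add, ch_mul, ch_lg (cA P h1 h3).1, ch_lg (cA P h1 h3).2] at h4
    simpa using h4
  have sur : ∀ u v : ZMod 3, ∃ σ, lg (χ σ) = u ∧ lg (ψ σ) = v := fun u v => by
    have key : ∀ α β γ u v : ZMod 3, α ≠ 0 → γ ≠ 0 → ∃ i j : Fin 3,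
        (i : ℕ) • α + (j : ℕ) • β = u ∧ (i : ℕ) • 0 + (j : ℕ) • γ = v := by decide
    obtain ⟨i, j, e1, e2⟩ := key (lg (χ σ0)) (lg (χ σ1)) (lg (ψ σ1)) u v
      (mt (lg_eq_zero (hχ _)).mp s0') (mt (lg_eq_zero (hψ _)).mp s1)
    rw [← (lg_eq_zero (hψ σ0)).mpr s0] at e2
    refine ⟨σ0 ^ (i : ℕ) * σ1 ^ (j : ℕ), ?_, ?_⟩
    · have := congrArg Multiplicative.toAdd (map_mul (lgH χ hχ) (σ0 ^ (i : ℕ)) (σ1 ^ (j : ℕ)))
      rw [map_pow, map_pow, toAdd_mul, toAdd_pow, toAdd_pow] at this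
      exact this.trans e1
    · have := congrArg Multiplicative.toAdd (map_mul (lgH ψ hψ) (σ0 ^ (i : ℕ)) (σ1 ^ (j : ℕ)))
      rw [map_pow, map_pow, toAdd_mul, toAdd_pow, toAdd_pow] at this
      exact this.trans e2
  have d9 : HasDens {P : Ideal (𝓞 F) | P.IsMaximal ∧ (n : 𝓞 F) ∉ P ∧
      (lg (A P) = 0 ∧ lg (B P) = 0)} (1 / 9) := by
    have := dens_ker hD ((lgH χ hχ).prod (lgH ψ hψ)) (fun y => by
      obtain ⟨σ, a, b⟩ := sur y.1.toAdd y.2.toAdd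
      exact ⟨σ, Prod.ext (congrArg Multiplicative.ofAdd a) (congrArg Multiplicative.ofAdd b)⟩) hn0
      (fun P => lg (A P) = 0 ∧ lg (B P) = 0) (fun Q a c σ hσ => by
        rw [hA Q a c σ hσ, hB Q a c σ hσ, Prod.ext_iff]; rfl)
    simpa [show (3 : ℝ)⁻¹ * 3⁻¹ = 9⁻¹ by norm_num] using this
  have d3 : ∀ u v : ℕ, (∀ y : ZMod 3, ∃ a b : ZMod 3, u * a + v * b = y) →
      HasDens {P : Ideal (𝓞 F) | P.IsMaximal ∧ (n : 𝓞 F) ∉ P ∧
        u * lg (A P) + v * lg (B P) = 0} (1 / 3) := fun u v huv => by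
    have ap : ∀ σ, ((lgH χ hχ ^ u * lgH ψ hψ ^ v) σ).toAdd = u * lg (χ σ) + v * lg (ψ σ) :=
      fun σ => by
        rw [MonoidHom.mul_apply, MonoidHom.pow_apply, MonoidHom.pow_apply, toAdd_mul, toAdd_pow,
          toAdd_pow, nsmul_eq_mul, nsmul_eq_mul]; rfl
    have := dens_ker hD (lgH χ hχ ^ u * lgH ψ hψ ^ v) (fun y => by
      obtain ⟨a, b, hab⟩ := huv y.toAdd
      obtain ⟨σ, rfl, rfl⟩ := sur a b
      exact ⟨σ, Multiplicative.toAdd.injective ((ap σ).trans hab)⟩) hn0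
      (fun P => u * lg (A P) + v * lg (B P) = 0) (fun Q a c σ hσ => by
        rw [hA Q a c σ hσ, hB Q a c σ hσ, ← ap, toAdd_eq_zero])
    simpa using this
  have dist : ∀ (u v u' v' : ℕ) (ξ : Ideal (𝓞 F) →* ℂ),
      (∀ y : ZMod 3, ∃ a b : ZMod 3, u * a + v * b = y) →
      (∀ y : ZMod 3, ∃ a b : ZMod 3, u' * a + v' * b = y) →
      (∀ a b : ZMod 3, u * a + v * b = 0 ∧ u' * a + v' * b = 0 ↔ a = 0 ∧ b = 0) →
      Good n ξ → (∃ I, Cop n I ∧ ξ I ≠ 1) → (∀ P : Ideal (𝓞 F), P.IsMaximal → (n : 𝓞 F) ∉ P →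
        u * lg (A P) + v * lg (B P) = 0 → ξ P = 1) →
      ∃ P : {P : Ideal (𝓞 F) // P.IsMaximal ∧ (n : 𝓞 F) ∉ P},
        u' * lg (A P) + v' * lg (B P) = 0 ∧ lg (ξ P) ≠ 0 := by
    intro u v u' v' ξ k1 k2 k3 g ⟨I, hI, hI'⟩ w
    by_contra hc
    push Not at hc
    have hu := dens_union (d3 u v k1) (d3 u' v' k2) (d'' := 1 / 9) (by
      refine (congrArg (HasDens · (1 / 9)) (Set.ext fun P => ?_)).mp d9
      have := k3 (lg (A P)) (lg (B P))
      simp only [mem_ofPred_eq, mem_inter_iff]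
      tauto)
    obtain ⟨e, he, he'⟩ := dep hS h2 hn (fun _ : Unit => ξ) (fun _ => g) hu (by norm_num)
      (fun P hP => by
        rcases hP with ⟨a, b, c⟩ | ⟨a, b, c⟩
        · exact ⟨a, b, fun _ => w P a b c⟩
        · exact ⟨a, b, fun _ => (lg_eq_zero (g.2 P (cop_of_max a b))).mp (hc ⟨P, a, b⟩ c)⟩)
    have h3 := he' I hI
    have h4 := g.2 I hI
    rw [Fintype.prod_unique, ← ch_lg h4, ← ch_mul, ch_eq_one] at h3
    have h5 : ∀ (k : Fin 3) (a : ZMod 3), k ≠ 0 → ((k : ℕ) : ZMod 3) * a = 0 → a = 0 := by decide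
    exact hI' ((lg_eq_zero h4).mp (h5 _ _ (fun h => he (funext fun _ => h)) h3))
  have rel : ∀ ξ : Ideal (𝓞 F) →* ℂ, Good n ξ → (∀ P : Ideal (𝓞 F), P.IsMaximal → (n : 𝓞 F) ∉ P →
      lg (A P) = 0 → lg (B P) = 0 → ξ P = 1) → ∃ x y z : ZMod 3, ¬ (x = 0 ∧ y = 0 ∧ z = 0) ∧
      ∀ P : {P : Ideal (𝓞 F) // P.IsMaximal ∧ (n : 𝓞 F) ∉ P},
        x * lg (η P) + y * lg (B P) + z * lg (ξ P) = 0 := by
    intro ξ g w
    obtain ⟨e, he, he'⟩ := dep hS h2 hn ![η, B, ξ]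
      (fun i => by fin_cases i; exacts [gη, gB, g]) d9 (by norm_num) (fun P ⟨a, b, c, d⟩ =>
        ⟨a, b, fun i => by
          fin_cases i
          exacts [wη P a b ((lg_eq_zero (cA P a b).1).mp c), (lg_eq_zero (cA P a b).2).mp d,
            w P a b c d]⟩)
    have h5 : ∀ k : Fin 3, ((k : ℕ) : ZMod 3) = 0 → k = 0 := by decide
    refine ⟨(e 0 : ℕ), (e 1 : ℕ), (e 2 : ℕ), fun ⟨a, b, c⟩ => he (funext fun i => ?_),
      fun ⟨P, a, b⟩ => ?_⟩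
    · fin_cases i
      exacts [h5 _ a, h5 _ b, h5 _ c]
    · have hP := cop_of_max a b
      have h3 := he' P hP
      rw [Fin.prod_univ_three] at h3
      rw [← ch_eq_one, ch_add, ch_add, ch_mul, ch_mul, ch_mul, ch_lg (gη.2 P hP),
        ch_lg (gB.2 P hP), ch_lg (g.2 P hP)]
      exact h3
  have nB : ∀ k : ℕ, ∃ P : {P : Ideal (𝓞 F) // P.IsMaximal ∧ (n : 𝓞 F) ∉ P},
      lg (A P) + k * lg (B P) = 0 ∧ lg (B P) ≠ 0 := fun k => by
    by_contra hc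
    push Not at hc
    have h3 := d3 1 k fun y => ⟨y, 0, by simp⟩
    have h4 : HasDens {P : Ideal (𝓞 F) | P.IsMaximal ∧ (n : 𝓞 F) ∉ P ∧
        (lg (A P) = 0 ∧ lg (B P) = 0)} (1 / 3) := by
      refine (congrArg (HasDens · (1 / 3)) (Set.ext fun P => ?_)).mp h3
      refine and_congr_right fun a => and_congr_right fun b => ?_
      rw [Nat.cast_one, one_mul]
      refine ⟨fun h => ?_, fun h => by simp [h.1, h.2]⟩
      have h5 : lg (B P) = 0 := hc ⟨P, a, b⟩ h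
      exact ⟨by simpa [h5] using h, h5⟩
    have := tendsto_nhds_unique h4 d9
    norm_num at this
  obtain ⟨η1, g1, n1, w1⟩ := fi 1
  obtain ⟨η2, g2, n2, w2⟩ := fi 2
  obtain ⟨x, y, z, m1, r1⟩ := rel η1 g1 fun P a b c d => w1 P a b (by simp [c, d])
  obtain ⟨x', y', z', m2, r2⟩ := rel η2 g2 fun P a b c d => w2 P a b (by simp [c, d])
  have wη' : ∀ P : Ideal (𝓞 F), P.IsMaximal → (n : 𝓞 F) ∉ P →
      ((1 : ℕ) : ZMod 3) * lg (A P) + ((0 : ℕ) : ZMod 3) * lg (B P) = 0 → η P = 1 :=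
    fun P a b c => wη P a b ((lg_eq_zero (cA P a b).1).mp (by simpa using c))
  have key := alg (ι := {P : Ideal (𝓞 F) // P.IsMaximal ∧ (n : 𝓞 F) ∉ P}) (fun P => lg (A P))
    (fun P => lg (B P)) (fun P => lg (η P)) (fun P => lg (η1 P)) (fun P => lg (η2 P))
    x y z x' y' z'
    (fun P h => (lg_eq_zero (cη P (cop_of_max P.2.1 P.2.2))).mpr
      (wη' P P.2.1 P.2.2 (by simpa using h)))
    (fun P h => (lg_eq_zero (g1.2 P (cop_of_max P.2.1 P.2.2))).mpr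
      (w1 P P.2.1 P.2.2 (by simpa using h)))
    (fun P h => (lg_eq_zero (g2.2 P (cop_of_max P.2.1 P.2.2))).mpr
      (w2 P P.2.1 P.2.2 (by simpa using h)))
    r1 m1 r2 m2 (by simpa using nB 1) (by simpa using nB 2)
    (by simpa using dist 1 0 1 1 η (by decide) (by decide) (by decide) gη nη wη')
    (by simpa using dist 1 0 1 2 η (by decide) (by decide) (by decide) gη nη wη')
    (by simpa using dist 1 0 0 1 η (by decide) (by decide) (by decide) gη nη wη')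
    (by simpa using dist 1 1 1 2 η1 (by decide) (by decide) (by decide) g1 n1 fun P a b c =>
      w1 P a b (by simpa using c))
    (by
      obtain ⟨P, -, h⟩ := dist 1 2 1 1 η2 (by decide) (by decide) (by decide) g2 n2 fun P a b c =>
        w2 P a b (by simpa using c)
      exact ⟨P, h⟩)
  rcases key with key | key
  · refine Or.inl fun P a b c => ?_
    have := key ⟨P, a, b⟩ (mt (lg_eq_zero (cA P a b).2).mp c)
    rw [← ch_lg (cη P (cop_of_max a b)), ← ch_lg (cA P a b).1]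
    exact congrArg ch this
  · refine Or.inr fun P a b c => ?_
    have := key ⟨P, a, b⟩ (mt (lg_eq_zero (cA P a b).2).mp c)
    rw [← ch_lg (cη P (cop_of_max a b)), ← ch_lg (cA P a b).1, ← ch_mul]
    exact congrArg ch this

end

end Pool.Agent.P.MP_29cb78_nt.C
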