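import Pool.Agent.P.MP_29cb78_nt.C.Gen
import Pool.Agent.P.MP_29cb78_nt.Diri
import Pool.Agent.P.MP_29cb78_nt.Art1
import Pool.Agent.P.MP_29cb78_nt.ArtEx

/-!
Density of the primes with Frobenius element in a normal subgroup.
-/

namespace Pool.Agent.P.MP_29cb78_nt.C

open NumberField Set Ideal Filter Topology
open scoped Classical Pointwise

noncomputable section

namespace Dens

open Gen

theorem tend_of_bdd {f g : ℝ → ℝ} {C d : ℝ} (h : ∀ᶠ s : ℝ in 𝓝[>] 1, |f s - g s| ≤ C)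
    (hg : Tendsto (fun s : ℝ => g s / Real.log (1 / (s - 1))) (𝓝[>] 1) (𝓝 d)) :
    Tendsto (fun s : ℝ => f s / Real.log (1 / (s - 1))) (𝓝[>] 1) (𝓝 d) := by
  have h0 : Tendsto (fun s : ℝ => (f s - g s) / Real.log (1 / (s - 1))) (𝓝[>] 1) (𝓝 0) := by
    refine squeeze_zero_norm' ?_ (tendsto_log.const_div_atTop C)
    filter_upwards [h, tendsto_log.eventually_gt_atTop 0] with s hs hl
    rw [Real.norm_eq_abs, abs_div, abs_of_pos hl]
    exact div_le_div_of_nonneg_right hs hl.le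
  have h1 := hg.add h0
  rw [add_zero] at h1
  refine h1.congr fun s => ?_
  ring

variable {L : Type} [Field L] [NumberField L]

theorem two_le {P : Ideal (𝓞 L)} (hP : P.IsMaximal) : 2 ≤ absNorm P := by
  have h0 : absNorm P ≠ 0 := fun h => ne_bot hP (absNorm_eq_zero_iff.mp h)
  have h1 : absNorm P ≠ 1 := fun h => hP.ne_top (absNorm_eq_one_iff.mp h)
  omega

theorem max_of_prime {P : Ideal (𝓞 L)} (h : (absNorm P).Prime) : P.IsMaximal := by
  refine (isPrime_of_irreducible_absNorm h).isMaximal ?_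
  rintro rfl
  rw [absNorm_bot] at h
  exact h.ne_zero rfl

theorem term_le {P : Ideal (𝓞 L)} (hP : P.IsMaximal) {s : ℝ} (hs : 1 < s) :
    (absNorm P : ℝ) ^ (-s) ≤ 1 / 2 := by
  have h2 : (2 : ℝ) ≤ absNorm P := by exact_mod_cast two_le hP
  calc _ ≤ (absNorm P : ℝ) ^ (-1 : ℝ) :=
        Real.rpow_le_rpow_of_exponent_le (by linarith) (by linarith)
    _ ≤ 1 / 2 := by
        rw [Real.rpow_neg_one, one_div]
        exact inv_anti₀ (by norm_num) h2

theorem fin_bdd (a : 𝓞 L) (ha : a ≠ 0) :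
    ∃ C : ℝ, ∀ s : ℝ, 1 < s → psum {P : Ideal (𝓞 L) | P.IsMaximal ∧ a ∈ P} s ≤ C := by
  have h0 : span {a} ≠ ⊥ := by simpa using ha
  have hf : {P : Ideal (𝓞 L) | P.IsMaximal ∧ a ∈ P}.Finite := by
    refine (UniqueFactorizationMonoid.normalizedFactors (span {a})).toFinset.finite_toSet.subset
      fun P hP => ?_
    rw [Finset.mem_coe, Multiset.mem_toFinset, Ideal.mem_normalizedFactors_iff h0]
    exact ⟨hP.1.isPrime, (span_singleton_le_iff_mem _).mpr hP.2⟩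
  refine ⟨∑ _ ∈ hf.toFinset, 1 / 2, fun s hs => ?_⟩
  refine (tsum_eq_sum (s := hf.toFinset) fun P hP =>
    if_neg fun h => hP (hf.mem_toFinset.mpr h)).trans_le (Finset.sum_le_sum fun P hP => ?_)
  rw [hf.mem_toFinset] at hP
  rw [if_pos hP]
  exact term_le hP.1 hs

theorem le_add (W W' : Set (Ideal (𝓞 L))) (hW : ∀ P ∈ W, P.IsMaximal)
    (hW' : ∀ P ∈ W', P.IsMaximal) (a : 𝓞 L) (ha : a ≠ 0)
    (h : ∀ P ∈ W, (absNorm P).Prime → a ∉ P → P ∈ W') :
    ∃ C : ℝ, ∀ s : ℝ, 1 < s → psum W s ≤ psum W' s + C := by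
  obtain ⟨C, hC⟩ := fin_bdd a ha
  refine ⟨Module.finrank ℚ L * ∑' n : ℕ, (n : ℝ) ^ (-2 : ℝ) + C, fun s hs => ?_⟩
  set W1 : Set (Ideal (𝓞 L)) := {P | P.IsMaximal ∧ ¬ (absNorm P).Prime}
  set W2 : Set (Ideal (𝓞 L)) := {P | P.IsMaximal ∧ a ∈ P}
  have h1 := psum_le W W' (W1 ∪ W2) hW' (fun P hP => hP.elim (·.1) (·.1)) (fun P hP => by
    by_cases hp : (absNorm P).Prime
    · by_cases hP' : a ∈ P
      · exact Or.inr (Or.inr ⟨hW P hP, hP'⟩)
      · exact Or.inl (h P hP hp hP')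
    · exact Or.inr (Or.inl ⟨hW P hP, hp⟩)) hs
  have h2 := psum_le (W1 ∪ W2) W1 W2 (fun P hP => hP.1) (fun P hP => hP.1) subset_rfl hs
  have h3 := bdd W1 (fun P hP => hP) hs
  have h4 := hC s hs
  linarith

theorem dens_congr {W W' : Set (Ideal (𝓞 L))} (hW : ∀ P ∈ W, P.IsMaximal)
    (hW' : ∀ P ∈ W', P.IsMaximal) (a : 𝓞 L) (ha : a ≠ 0)
    (h : ∀ P, (absNorm P).Prime → a ∉ P → (P ∈ W ↔ P ∈ W')) {d : ℝ} (hd : HasDens W d) :
    HasDens W' d := by
  obtain ⟨C, hC⟩ := le_add W W' hW hW' a ha fun P hP h1 h2 => (h P h1 h2).mp hP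
  obtain ⟨C', hC'⟩ := le_add W' W hW' hW a ha fun P hP h1 h2 => (h P h1 h2).mpr hP
  refine tend_of_bdd (C := max C C') ?_ hd
  filter_upwards [self_mem_nhdsWithin] with s hs
  have h1 := hC s hs
  have h2 := hC' s hs
  have h3 := le_max_left C C'
  have h4 := le_max_right C C'
  rw [abs_le]
  constructor <;> linarith

theorem log_bounds {x : ℝ} (h0 : 0 ≤ x) (h1 : x ≤ 1 / 2) :
    x ≤ -Real.log (1 - x) ∧ -Real.log (1 - x) ≤ x + 2 * x ^ 2 := by
  have h2 : 0 < 1 - x := by linarith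
  constructor
  · have := Real.log_le_sub_one_of_pos h2
    linarith
  · rw [← Real.log_inv]
    refine (Real.log_le_sub_one_of_pos (inv_pos.mpr h2)).trans ?_
    rw [sub_le_iff_le_add, inv_le_iff_one_le_mul₀ h2]
    nlinarith [mul_nonneg (mul_nonneg h0 h0) (by linarith : 0 ≤ 1 - 2 * x)]

/-- The logarithm of the Euler product. -/
def lsum (L : Type) [Field L] [NumberField L] (s : ℝ) : ℝ :=
  ∑' P : Ideal (𝓞 L), if P.IsMaximal then -Real.log (1 - (absNorm P : ℝ) ^ (-s)) else 0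

theorem lsum_near {s : ℝ} (hs : 1 < s) :
    |psum {P : Ideal (𝓞 L) | P.IsMaximal} s - lsum L s| ≤
      2 * psum {P : Ideal (𝓞 L) | P.IsMaximal} 2 := by
  set W : Set (Ideal (𝓞 L)) := {P | P.IsMaximal}
  have s1 := summ W (fun P hP => hP) hs
  have s2 := summ W (fun P hP => hP) one_lt_two
  have hb : ∀ P : Ideal (𝓞 L), (if P ∈ W then (absNorm P : ℝ) ^ (-s) else 0) ≤
      (if P.IsMaximal then -Real.log (1 - (absNorm P : ℝ) ^ (-s)) else 0) ∧
      (if P.IsMaximal then -Real.log (1 - (absNorm P : ℝ) ^ (-s)) else 0) ≤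
        (if P ∈ W then (absNorm P : ℝ) ^ (-s) else 0) +
          2 * if P ∈ W then (absNorm P : ℝ) ^ (-2 : ℝ) else 0 := by
    intro P
    by_cases hP : P.IsMaximal
    · have hP' : P ∈ W := hP
      rw [if_pos hP, if_pos hP', if_pos hP']
      have h1 := log_bounds (by positivity) (term_le hP hs)
      have h2 : ((absNorm P : ℝ) ^ (-s)) ^ 2 ≤ (absNorm P : ℝ) ^ (-2 : ℝ) := by
        rw [← Real.rpow_natCast, ← Real.rpow_mul (by positivity)]
        refine Real.rpow_le_rpow_of_exponent_le ?_ (by push_cast; linarith)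
        exact_mod_cast (by have := two_le hP; omega : 1 ≤ absNorm P)
      exact ⟨h1.1, by linarith [h1.2]⟩
    · have hP' : P ∉ W := hP
      simp [hP, hP']
  have s3 := s1.add (s2.mul_left 2)
  have s4 : Summable fun P : Ideal (𝓞 L) =>
      if P.IsMaximal then -Real.log (1 - (absNorm P : ℝ) ^ (-s)) else 0 :=
    Summable.of_nonneg_of_le (fun P => (term_nonneg W s P).trans (hb P).1) (fun P => (hb P).2) s3
  have h1 : psum W s ≤ lsum L s := s1.tsum_le_tsum (fun P => (hb P).1) s4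
  have h2 := s4.tsum_le_tsum (fun P => (hb P).2) s3
  rw [s1.tsum_add (s2.mul_left 2), tsum_mul_left] at h2
  have h3 : lsum L s ≤ psum W s + 2 * psum W 2 := h2
  rw [abs_le]
  have h4 : 0 ≤ psum W 2 := tsum_nonneg (term_nonneg W 2)
  constructor <;> linarith

theorem zeta_eq (hE : EULER) {s : ℝ} (hs : 1 < s) :
    dedekindZeta L s = (Real.exp (lsum L s) : ℝ) := by
  have hs' : 1 < (s : ℂ).re := hs
  have h1 := (diri L s hs').2.2 fun _ => True
  simp only [true_and, if_true] at h1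
  have h2 := (hE L 1 (fun I => by simp) s hs').2
  rw [dedekindZeta, h1]
  refine h2.trans ?_
  rw [Complex.ofReal_exp, lsum, Complex.ofReal_tsum, ← tsum_neg]
  congr 1
  have hinj : Function.Injective
      (fun P : IsDedekindDomain.HeightOneSpectrum (𝓞 L) => P.asIdeal) :=
    fun P Q h => IsDedekindDomain.HeightOneSpectrum.ext h
  rw [← hinj.tsum_eq]
  · refine tsum_congr fun P => ?_
    have h3 := term_le P.isMaximal hs
    rw [if_pos P.isMaximal, Complex.ofReal_neg, Complex.ofReal_log (by linarith),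
      Complex.ofReal_sub, Complex.ofReal_cpow (Nat.cast_nonneg _)]
    simp
  · intro P hP
    by_cases h : P.IsMaximal
    · exact ⟨⟨P, h.isPrime, ne_bot h⟩, rfl⟩
    · simp [h] at hP

theorem dens_all (hE : EULER) (L : Type) [Field L] [NumberField L] :
    HasDens {P : Ideal (𝓞 L) | P.IsMaximal} 1 := by
  have hρ := dedekindZeta_residue_pos L
  have h := (tendsto_sub_one_mul_dedekindZeta_nhdsGT L).norm
  rw [Complex.norm_real, Real.norm_of_nonneg hρ.le] at h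
  have h1 : Tendsto (fun s : ℝ => lsum L s - Real.log (1 / (s - 1))) (𝓝[>] 1)
      (𝓝 (Real.log (dedekindZeta_residue L))) := by
    refine (h.log hρ.ne').congr' ?_
    filter_upwards [self_mem_nhdsWithin] with s hs
    have hs1 : 0 < s - 1 := sub_pos.mpr hs
    rw [zeta_eq hE hs, ← Complex.ofReal_one, ← Complex.ofReal_sub, ← Complex.ofReal_mul,
      Complex.norm_real, Real.norm_of_nonneg (by positivity),
      Real.log_mul hs1.ne' (Real.exp_pos _).ne', Real.log_exp, one_div, Real.log_inv]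
    ring
  have h2 : Tendsto (fun s : ℝ => Real.log (1 / (s - 1)) / Real.log (1 / (s - 1))) (𝓝[>] 1)
      (𝓝 1) := by
    refine tendsto_const_nhds.congr' ?_
    filter_upwards [tendsto_log.eventually_gt_atTop 0] with s hl
    rw [div_self hl.ne']
  have h3 := tend_of_bdd (f := lsum L) (C := |Real.log (dedekindZeta_residue L)| + 1)
    (h1.abs.eventually (ge_mem_nhds (lt_add_one _))) h2
  refine tend_of_bdd (C := 2 * psum {P : Ideal (𝓞 L) | P.IsMaximal} 2) ?_ h3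
  filter_upwards [self_mem_nhdsWithin] with s hs
  exact lsum_near hs

variable {F E : Type} [Field F] [Field E] [NumberField F] [NumberField E] [Algebra F E]

theorem exists_unr [IsGalois F E] : ∃ m : ℕ, m ≠ 0 ∧ ∀ R : Ideal (𝓞 E), R.IsPrime →
    (m : 𝓞 E) ∉ R → R.inertia Gal(E/F) = ⊥ := by
  have h1 : ∀ σ : Gal(E/F), ∃ z : 𝓞 E, z ≠ 0 ∧ (σ ≠ 1 → ∃ y : 𝓞 E, z = σ • y - y) := by
    intro σ
    by_cases hσ : σ = 1
    · exact ⟨1, one_ne_zero, fun h => absurd hσ h⟩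
    · by_contra hcon
      have := IsGaloisGroup.faithful (G := Gal(E/F)) (A := 𝓞 F) (B := 𝓞 E)
      refine hσ (FaithfulSMul.eq_of_smul_eq_smul (α := 𝓞 E) fun y => ?_)
      rw [one_smul, ← sub_eq_zero]
      by_contra h
      exact hcon ⟨_, h, fun _ => ⟨y, rfl⟩⟩
  choose z hz0 hz using h1
  have h0 : ∏ σ, z σ ≠ 0 := Finset.prod_ne_zero_iff.mpr fun σ _ => hz0 σ
  refine ⟨absNorm (span {∏ σ, z σ}), ?_, fun R _ hm => ?_⟩
  · rw [Ne, absNorm_eq_zero_iff]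
    simpa using h0
  · rw [eq_bot_iff]
    intro σ hσ
    by_contra hne
    obtain ⟨y, hy⟩ := hz σ hne
    refine hm ((span_singleton_le_iff_mem _).mpr ?_ (absNorm_mem _))
    exact R.mem_of_dvd (Finset.dvd_prod_of_mem z (Finset.mem_univ σ)) (hy ▸ hσ y)

theorem norm_under {R : Ideal (𝓞 E)} (h : (absNorm R).Prime) :
    absNorm (R.under (𝓞 F)) = absNorm R := by
  have := max_of_prime h
  have h1 := absNorm_pow_inertiaDeg (R.under (𝓞 F)) R
  exact ((Nat.Prime.pow_eq_iff h).mp h1).1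

variable {Ω : Type} [Field Ω] [NumberField Ω] [Algebra F Ω] [Algebra E Ω] [IsScalarTower F E Ω]
  [IsGalois F Ω]

theorem frob_of_prime {R : Ideal (𝓞 E)} (h : (absNorm R).Prime) :
    ∃ Q : Ideal (𝓞 Ω), Q.IsMaximal ∧ Q.under (𝓞 F) = R.under (𝓞 F) ∧
      ∃ σ ∈ fixSub F E Ω, IsFrob Q σ := by
  have := max_of_prime h
  obtain ⟨Q, hQ, hQR⟩ := Ideal.exists_maximal_ideal_liesOver_of_isIntegral (S := 𝓞 Ω) R
  obtain ⟨σ, hσ, hf⟩ := ArtEx.exists_frob (k0 := F) (L := E) Q hQ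
  have h1 : Q.under (𝓞 F) = R.under (𝓞 F) := by rw [hQR.over, Ideal.under_under]
  refine ⟨Q, hQ, h1, σ, hσ, fun z => ?_⟩
  rw [h1, norm_under h, hQR.over]
  exact hf z

omit [IsGalois F Ω] [NumberField Ω] in
theorem deg_one [IsGalois F E] {Q : Ideal (𝓞 Ω)} (hQ : Q.IsMaximal) {σ : Gal(Ω/F)}
    (hσ : σ ∈ fixSub F E Ω) (hf : IsFrob Q σ) (R : Ideal (𝓞 E)) [R.IsPrime]
    [R.LiesOver (Q.under (𝓞 F))] : R.inertiaDeg (𝓞 F) = 1 := by
  have : (Q.under (𝓞 E)).LiesOver (Q.under (𝓞 F)) := ⟨by rw [Ideal.under_under]⟩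
  rw [inertiaDeg_eq_of_isGaloisGroup (Q.under (𝓞 F)) R (Q.under (𝓞 E)) Gal(E/F)]
  have h2 : 2 ≤ absNorm (Q.under (𝓞 F)) := two_le inferInstance
  have h3 := Art1.norm_sub_one_dvd (Q.under (𝓞 E)) inferInstance (absNorm (Q.under (𝓞 F)))
    (by omega) fun y => by
      have := hf (algebraMap (𝓞 E) (𝓞 Ω) y)
      rw [Art1.smul_algebraMap hσ, ← map_pow, ← map_sub] at this
      exact this
  rw [← absNorm_pow_inertiaDeg (Q.under (𝓞 F)) (Q.under (𝓞 E))] at h3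
  refine Nat.dvd_one.mp (Art1.dvd_of_pow_sub_one h2 ?_)
  rwa [pow_one]

theorem psum_eq [IsGalois F E] (N : ℕ)
    (hN : ∀ R : Ideal (𝓞 E), R.IsPrime → (N : 𝓞 E) ∉ R → R.inertia Gal(E/F) = ⊥)
    (V : Set (Ideal (𝓞 E))) (W : Set (Ideal (𝓞 F)))
    (hV : ∀ R, R ∈ V ↔ (absNorm R).Prime ∧ (N : 𝓞 E) ∉ R)
    (hW : ∀ P, P ∈ W ↔ (absNorm P).Prime ∧ (N : 𝓞 F) ∉ P ∧ ∃ Q : Ideal (𝓞 Ω),
      Q.IsMaximal ∧ Q.under (𝓞 F) = P ∧ ∃ σ ∈ fixSub F E Ω, IsFrob Q σ) {s : ℝ} (hs : 1 < s) :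
    psum V s = Nat.card Gal(E/F) * psum W s := by
  have hmem : ∀ R : Ideal (𝓞 E), (N : 𝓞 F) ∈ R.under (𝓞 F) ↔ (N : 𝓞 E) ∈ R := fun R => by
    rw [Ideal.mem_under, map_natCast]
  have hf := (summ V (fun R hR => max_of_prime ((hV R).mp hR).1) hs).hasSum.tsum_fiberwise
    fun R : Ideal (𝓞 E) => R.under (𝓞 F)
  unfold psum
  rw [← hf.tsum_eq, ← tsum_mul_left]
  refine tsum_congr fun P => ?_
  rw [tsum_subtype _ fun R : Ideal (𝓞 E) => if R ∈ V then (absNorm R : ℝ) ^ (-s) else 0]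
  split_ifs with hP
  · obtain ⟨hp, hn, Q, hQ, rfl, σ, hσ, hF⟩ := (hW P).mp hP
    have hfin : ((Q.under (𝓞 F)).primesOver (𝓞 E)).Finite :=
      Algebra.QuasiFinite.finite_primesOver _
    have hU : ∀ R ∈ (Q.under (𝓞 F)).primesOver (𝓞 E),
        absNorm R = absNorm (Q.under (𝓞 F)) ∧ (N : 𝓞 E) ∉ R := by
      rintro R ⟨_, hR⟩
      refine ⟨?_, fun h => hn (hR.over ▸ (hmem R).mpr h)⟩
      rw [← absNorm_pow_inertiaDeg (Q.under (𝓞 F)) R, deg_one hQ hσ hF R, pow_one]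
    have hc : ((Q.under (𝓞 F)).primesOver (𝓞 E)).ncard = Nat.card Gal(E/F) := by
      obtain ⟨⟨R, hR1, hR2⟩⟩ := (inferInstance : Nonempty ((Q.under (𝓞 F)).primesOver (𝓞 E)))
      rw [← ncard_primesOver_mul_card_inertia_mul_finrank (G := Gal(E/F)) (Q.under (𝓞 F)) R,
        deg_one hQ hσ hF R, hN R hR1 (hU R ⟨hR1, hR2⟩).2, Subgroup.card_bot, mul_one, mul_one]
    rw [tsum_eq_sum (s := hfin.toFinset), ← hc, Set.ncard_eq_toFinset_card _ hfin,
      ← nsmul_eq_mul, ← Finset.sum_const]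
    · refine Finset.sum_congr rfl fun R hR => ?_
      rw [hfin.mem_toFinset] at hR
      have h1 := hU R hR
      rw [indicator_of_mem (show R ∈ _ from hR.2.over.symm),
        if_pos ((hV R).mpr ⟨h1.1 ▸ hp, h1.2⟩), h1.1]
    · intro R hR
      rw [indicator_apply_eq_zero]
      intro h1
      exact if_neg fun h2 => hR (hfin.mem_toFinset.mpr
        ⟨(max_of_prime ((hV R).mp h2).1).isPrime, ⟨h1.symm⟩⟩)
  · rw [mul_zero]
    refine (tsum_congr fun R => ?_).trans tsum_zero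
    rw [indicator_apply_eq_zero]
    rintro (rfl : R.under (𝓞 F) = P)
    refine if_neg fun h2 => hP ((hW _).mpr ?_)
    rw [hV] at h2
    exact ⟨(norm_under (F := F) h2.1).symm ▸ h2.1, fun h => h2.2 ((hmem R).mp h),
      frob_of_prime h2.1⟩

theorem dens_fix (hE : EULER) [IsGalois F E] (n : ℕ) (hn : n ≠ 0) :
    HasDens {P : Ideal (𝓞 F) | P.IsMaximal ∧ (n : 𝓞 F) ∉ P ∧ ∃ Q : Ideal (𝓞 Ω), Q.IsMaximal ∧
      Q.under (𝓞 F) = P ∧ ∃ σ ∈ fixSub F E Ω, IsFrob Q σ} (1 / Nat.card Gal(E/F)) := by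
  obtain ⟨m, hm, hu⟩ := exists_unr (F := F) (E := E)
  have h1 : HasDens {R : Ideal (𝓞 E) | (absNorm R).Prime ∧ (m : 𝓞 E) ∉ R} 1 :=
    dens_congr (fun _ h => h) (fun _ h => max_of_prime h.1) (m : 𝓞 E) (Nat.cast_ne_zero.mpr hm)
      (fun P h1 h2 => ⟨fun _ => And.intro h1 h2, fun _ => max_of_prime h1⟩) (dens_all hE E)
  have hc : (Nat.card Gal(E/F) : ℝ) ≠ 0 := Nat.cast_ne_zero.mpr Nat.card_pos.ne'
  have h2 : HasDens {P : Ideal (𝓞 F) | (absNorm P).Prime ∧ (m : 𝓞 F) ∉ P ∧ ∃ Q : Ideal (𝓞 Ω),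
      Q.IsMaximal ∧ Q.under (𝓞 F) = P ∧ ∃ σ ∈ fixSub F E Ω, IsFrob Q σ}
      (1 / Nat.card Gal(E/F)) := by
    refine (h1.div_const (Nat.card Gal(E/F) : ℝ)).congr' ?_
    filter_upwards [self_mem_nhdsWithin] with s hs
    rw [psum_eq (Ω := Ω) m hu _ _ (fun _ => mem_ofPred) (fun _ => mem_ofPred) hs]
    field_simp
  refine dens_congr (fun _ h => max_of_prime h.1) (fun _ h => h.1) ((m : 𝓞 F) * (n : 𝓞 F))
    (mul_ne_zero (Nat.cast_ne_zero.mpr hm) (Nat.cast_ne_zero.mpr hn)) (fun P h3 h4 => ?_) h2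
  exact ⟨fun h => ⟨max_of_prime h3, fun h5 => h4 (P.mul_mem_left _ h5), h.2.2⟩,
    fun h => ⟨h3, fun h5 => h4 (P.mul_mem_right _ h5), h.2.2⟩⟩

end Dens

theorem dens : EULER → DENS := by
  intro hE F Ω _ _ _ _ _ _ H n _ hn
  have h1 : fixSub F (IntermediateField.fixedField H) Ω = H := by
    conv_rhs => rw [← IntermediateField.fixingSubgroup_fixedField H]
    ext g
    rw [IntermediateField.mem_fixingSubgroup_iff]
    exact ⟨fun hg x hx => hg ⟨x, hx⟩, fun hg y => hg y y.2⟩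
  have h2 := Dens.dens_fix (F := F) (E := IntermediateField.fixedField H) (Ω := Ω) hE n hn
  rw [h1] at h2
  have h3 : (Nat.card H : ℝ) / Nat.card Gal(Ω/F) =
      1 / Nat.card Gal(IntermediateField.fixedField H/F) := by
    have h4 : (Nat.card H : ℝ) ≠ 0 := Nat.cast_ne_zero.mpr Nat.card_pos.ne'
    rw [IsGalois.card_aut_eq_finrank, IsGalois.card_aut_eq_finrank,
      ← Module.finrank_mul_finrank F (IntermediateField.fixedField H) Ω,
      IntermediateField.finrank_fixedField_eq_card, Nat.cast_mul, mul_comm, ← div_div,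
      div_self h4]
  rwa [h3]

end

end Pool.Agent.P.MP_29cb78_nt.C
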