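import Pool.Agent.P.MP_29cb78_nt.C.FiAux1

/-!
The first inequality for a cubic character, and auxiliary cubic Dirichlet characters.
-/

namespace Pool.Agent.P.MP_29cb78_nt.C

open NumberField Set Ideal Polynomial
open scoped Classical

namespace Fi

theorem char_of_noncube (l q : ℕ) [Fact l.Prime] (h : ∀ y : ZMod l, y ^ 3 ≠ q) :
    ∃ ψ : ZMod l →* ℂ, (∀ u : ZMod l, IsUnit u → ψ u ^ 3 = 1) ∧ ψ q ≠ 1 := by
  have hq : (q : ZMod l) ≠ 0 := fun e => h 0 (by rw [e]; ring)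
  let u : (ZMod l)ˣ := Units.mk0 _ hq
  let R : Subgroup (ZMod l)ˣ := (powMonoidHom 3).range
  have hu : (u : (ZMod l)ˣ ⧸ R) ≠ 1 := by
    rw [Ne, QuotientGroup.eq_one_iff]
    rintro ⟨y, hy⟩
    exact h y (congrArg Units.val hy)
  have : NeZero (Monoid.exponent ((ZMod l)ˣ ⧸ R)) := ⟨Monoid.exponent_ne_zero_of_finite⟩
  obtain ⟨φ, hφ⟩ := CommGroup.exists_apply_ne_one_of_hasEnoughRootsOfUnity ((ZMod l)ˣ ⧸ R) ℂ hu
  let ψ : MulChar (ZMod l) ℂ := MulChar.ofUnitHom (φ.comp (QuotientGroup.mk' R))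
  refine ⟨ψ.toMonoidHom, ?_, ?_⟩
  · rintro _ ⟨x, rfl⟩
    have h1 : ψ.toMonoidHom x = (φ x : ℂ) := MulChar.ofUnitHom_coe _ x
    have h2 : ((x ^ 3 : (ZMod l)ˣ) : (ZMod l)ˣ ⧸ R) = 1 :=
      (QuotientGroup.eq_one_iff _).mpr ⟨x, rfl⟩
    rw [h1, ← Units.val_pow_eq_pow_val, ← map_pow, ← QuotientGroup.mk_pow, h2, map_one,
      Units.val_one]
  · have h1 : ψ.toMonoidHom u = (φ u : ℂ) := MulChar.ofUnitHom_coe _ u
    intro e
    exact hφ (Units.ext (h1.symm.trans e))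

theorem not_cube {F : Type} [Field F] [NumberField F] (h2 : Module.finrank ℚ F = 2) (q : ℕ)
    (hq : q.Prime) (x : F) : x ^ 3 ≠ q := by
  intro h
  have : Fact q.Prime := ⟨hq⟩
  have h1 := congrArg (Algebra.norm ℚ) h
  have h3 : (q : F) = algebraMap ℚ F q := by simp
  rw [map_pow, h3, Algebra.norm_algebraMap, h2] at h1
  have h4 := congrArg (padicValRat q) h1
  rw [padicValRat.pow, padicValRat.pow, padicValRat.self hq.one_lt] at h4
  omega

/-- The computation in the residue field. -/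
theorem residue {k : Type} [Field k] (l q : ℕ) [Fact l.Prime] (hl : (l : k) = 0)
    (h3 : (3 : k) ≠ 0) (hq : (q : k) ≠ 0) (w x : k) (hw : w ^ 2 + w + 1 = 0) (hwl : w ^ l = w)
    (hx : x ^ 3 = q) (hxl : (x ^ l) ^ 2 + x ^ l * x + x ^ 2 = 0) :
    l % 3 = 1 ∧ ∀ y : ZMod l, y ^ 3 ≠ q := by
  have hw1 : w ≠ 1 := fun e => h3 (by rw [e] at hw; linear_combination hw)
  have hw3 : w ^ 3 = 1 := by linear_combination (w - 1) * hw
  have hw0 : w ≠ 0 := fun e => by simp [e] at hw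
  have hm : l % 3 = 1 := by
    rw [← Nat.div_add_mod l 3, pow_add, pow_mul, hw3, one_pow, one_mul] at hwl
    have : l % 3 = 0 ∨ l % 3 = 1 ∨ l % 3 = 2 := by omega
    rcases this with e | e | e
    · rw [e, pow_zero] at hwl
      exact absurd hwl.symm hw1
    · exact e
    · rw [e] at hwl
      exact absurd (mul_left_cancel₀ hw0 (by linear_combination hwl)) hw1
  refine ⟨hm, fun y hy => ?_⟩
  have : CharP k l := (CharP.charP_iff_prime_eq_zero (Fact.out : l.Prime)).mpr hl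
  let c := ZMod.castHom (dvd_refl l) k
  have h1 : c y ^ 3 = q := by rw [← map_pow, hy, map_natCast]
  have hy0 : y ≠ 0 := by
    rintro rfl
    apply hq
    rw [← h1, map_zero]
    ring
  have h2 : c y ^ (l - 1) = 1 := by rw [← map_pow, ZMod.pow_card_sub_one_eq_one hy0, map_one]
  have h4 : x ^ l = x := by
    have e1 : l - 1 = 3 * (l / 3) := by omega
    have e2 : l = 3 * (l / 3) + 1 := by omega
    rw [e1, pow_mul, h1] at h2
    rw [e2, pow_succ, pow_mul, hx, h2, one_mul]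
  rw [h4] at hxl
  have hx0 : x ≠ 0 := by
    rintro rfl
    apply hq
    rw [← hx]
    ring
  have h5 : 3 * x ^ 2 = 0 := by linear_combination hxl
  exact mul_ne_zero h3 (pow_ne_zero _ hx0) h5

theorem exists_prime_aux (hG : GEN) {F Ω : Type} [Field F] [Field Ω] [NumberField F]
    [NumberField Ω] [Algebra F Ω] [IsGalois F Ω] (h2 : Module.finrank ℚ F = 2) (ω : F)
    (hω : ω ^ 2 + ω + 1 = 0) (q : ℕ) (hq : q.Prime) (a : Ω) (ha : a ^ 3 = q) (n : ℕ)
    (hn : n ≠ 0) :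
    ∃ l : ℕ, ∃ _ : Fact l.Prime, ¬ l ∣ n ∧ l % 3 = 1 ∧ ∀ y : ZMod l, y ^ 3 ≠ q := by
  have hH : MulAction.stabilizer Gal(Ω/F) a ≠ ⊤ := by
    intro h
    obtain ⟨x, hx⟩ := (IsGalois.mem_range_algebraMap_iff_fixed (F := F) a).mpr fun f =>
      MulAction.mem_stabilizer_iff.mp (h ▸ Subgroup.mem_top f)
    refine not_cube h2 q hq x ((algebraMap F Ω).injective ?_)
    rw [map_pow, hx, ha, map_natCast]
  have hn' : 3 * q * n ≠ 0 := mul_ne_zero (mul_ne_zero (by norm_num) hq.ne_zero) hn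
  have h1 := mt (hG F Ω (MulAction.stabilizer Gal(Ω/F) a) (3 * q * n) hn') hH
  push Not at h1
  obtain ⟨Q, hQ, hnQ, hl, σ, hσ, hσa⟩ := h1
  let : Field (𝓞 Ω ⧸ Q) := Ideal.Quotient.field Q
  let r := Ideal.Quotient.mk Q
  have hr : (3 : 𝓞 Ω ⧸ Q) * q * n ≠ 0 := by
    intro h
    apply hnQ
    rw [← Ideal.Quotient.eq_zero_iff_mem, map_natCast]
    push_cast
    exact h
  have hl0 : ((absNorm (Q.under (𝓞 F)) : ℕ) : 𝓞 Ω ⧸ Q) = 0 := by
    have h := absNorm_mem (Q.under (𝓞 F))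
    rw [Ideal.under_def, Ideal.mem_comap, map_natCast, ← Ideal.Quotient.eq_zero_iff_mem,
      map_natCast] at h
    exact h
  have : Fact (absNorm (Q.under (𝓞 F))).Prime := ⟨hl⟩
  have hai : IsIntegral ℤ a := IsIntegral.of_pow (n := 3) (by norm_num)
    (by rw [ha]; exact isIntegral_natCast _)
  have hωi : IsIntegral ℤ (algebraMap F Ω ω) := IsIntegral.of_pow (n := 3) (by norm_num)
    (by
      have : ω ^ 3 = 1 := by linear_combination (ω - 1) * hω
      rw [← map_pow, this, map_one]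
      exact isIntegral_one)
  let b : 𝓞 Ω := ⟨a, hai⟩
  let w : 𝓞 Ω := ⟨algebraMap F Ω ω, hωi⟩
  have hw : w ^ 2 + w + 1 = 0 := by
    apply RingOfIntegers.ext
    have := congrArg (algebraMap F Ω) hω
    rw [map_add, map_add, map_pow, map_one, map_zero] at this
    exact this
  have hσw : σ • w = w := by
    apply RingOfIntegers.ext
    exact σ.commutes ω
  have hb : b ^ 3 = q := by
    apply RingOfIntegers.ext
    exact ha.trans (map_natCast (algebraMap (𝓞 Ω) Ω) q).symm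
  have hσb : σ • b ≠ b := fun h => hσa (congrArg (fun t : 𝓞 Ω => (t : Ω)) h)
  have hσb3 : (σ • b) ^ 3 = q := by
    rw [← smul_pow', hb]
    exact map_natCast (MulSemiringAction.toRingHom Gal(Ω/F) (𝓞 Ω) σ) q
  have hb2 : (σ • b) ^ 2 + (σ • b) * b + b ^ 2 = 0 := by
    apply mul_left_cancel₀ (sub_ne_zero.mpr hσb)
    linear_combination hσb3 - hb
  have e1 : r (σ • b) = r b ^ absNorm (Q.under (𝓞 F)) := by
    rw [← map_pow]
    exact Ideal.Quotient.eq.mpr (hσ b)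
  have e2 : r w ^ absNorm (Q.under (𝓞 F)) = r w := by
    rw [← map_pow]
    conv_rhs => rw [← hσw]
    exact (Ideal.Quotient.eq.mpr (hσ w)).symm
  obtain ⟨c1, c2⟩ := residue (absNorm (Q.under (𝓞 F))) q hl0
    (left_ne_zero_of_mul (left_ne_zero_of_mul hr)) (right_ne_zero_of_mul (left_ne_zero_of_mul hr))
    (r w) (r b) (by simpa using congrArg r hw) e2 (by rw [← map_pow, hb, map_natCast])
    (by rw [← e1]; simpa using congrArg r hb2)
  refine ⟨_, this, ?_, c1, c2⟩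
  rintro ⟨m, hm⟩
  apply hr
  rw [hm, Nat.cast_mul, hl0]
  ring

theorem exists_prime (hG : GEN) (q : ℕ) (hq : q.Prime) (n : ℕ) (hn : n ≠ 0) :
    ∃ l : ℕ, ∃ _ : Fact l.Prime, ¬ l ∣ n ∧ l % 3 = 1 ∧ ∀ y : ZMod l, y ^ 3 ≠ q := by
  let F := CyclotomicField 3 ℚ
  have : IsCyclotomicExtension {3} ℚ F := CyclotomicField.isCyclotomicExtension 3 ℚ
  have h2 : Module.finrank ℚ F = 2 := by
    rw [IsCyclotomicExtension.finrank (n := 3) F (cyclotomic.irreducible_rat (by norm_num))]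
    decide
  have hζ := IsCyclotomicExtension.zeta_spec 3 ℚ F
  have hω : IsCyclotomicExtension.zeta 3 ℚ F ^ 2 + IsCyclotomicExtension.zeta 3 ℚ F + 1 = 0 := by
    have h := hζ.geom_sum_eq_zero (by norm_num)
    simp only [Finset.sum_range_succ, Finset.sum_range_zero] at h
    linear_combination h
  let p : F[X] := X ^ 3 - C (q : F)
  have hq0 : (q : F) ≠ 0 := by exact_mod_cast hq.ne_zero
  have hsep : p.Separable := separable_X_pow_sub_C _ (by norm_num) hq0
  have : IsGalois F p.SplittingField := IsGalois.of_separable_splitting_field hsep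
  have : NumberField p.SplittingField := NumberField.of_module_finite F _
  obtain ⟨a, ha⟩ := (SplittingField.splits p).exists_eval_eq_zero (by
    rw [degree_map, degree_X_pow_sub_C (by norm_num)]
    norm_num)
  refine exists_prime_aux hG h2 _ hω q hq a ?_ n hn
  rw [← map_natCast (algebraMap F p.SplittingField) q, ← sub_eq_zero]
  simpa only [p, Polynomial.map_sub, Polynomial.map_pow, map_X, map_C, eval_sub, eval_pow, eval_X,
    eval_C] using ha

theorem exists_char (hG : GEN) (q : ℕ) (hq : q.Prime) (n : ℕ) (hn : n ≠ 0) :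
    ∃ (l : ℕ) (ψ : ZMod l →* ℂ), 3 ≤ l ∧ l.Coprime n ∧
      (∀ u : ZMod l, IsUnit u → ψ u ^ 3 = 1) ∧ ψ q ≠ 1 := by
  obtain ⟨l, hl, h1, h2, h3⟩ := exists_prime hG q hq n hn
  obtain ⟨ψ, h4, h5⟩ := char_of_noncube l q h3
  have := hl.out.two_le
  exact ⟨l, ψ, by omega, (Nat.Prime.coprime_iff_not_dvd hl.out).mpr h1, h4, h5⟩

end Fi

theorem fi : FI0 → FI := Fi.fi

theorem nc2 : GEN → NC2 := by
  intro hG q q' hq hq'
  have hn : q * q' ≠ 0 := mul_ne_zero hq.ne_zero hq'.ne_zero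
  obtain ⟨l, ψ, a1, a2, a3, a4⟩ := Fi.exists_char hG q hq _ hn
  obtain ⟨l', ψ', b1, b2, b3, b4⟩ := Fi.exists_char hG q' hq' _ hn
  by_cases h1 : ψ q' = 1
  swap
  · exact ⟨l, ψ, a1, a2, a3, a4, h1⟩
  by_cases h2 : ψ' q = 1
  swap
  · exact ⟨l', ψ', b1, b2, b3, h2, b4⟩
  let c := ZMod.castHom (dvd_mul_right l l') (ZMod l)
  let c' := ZMod.castHom (dvd_mul_left l' l) (ZMod l')
  refine ⟨l * l', ψ.comp c.toMonoidHom * ψ'.comp c'.toMonoidHom, by nlinarith,
    Nat.Coprime.mul_left a2 b2, fun u hu => ?_, ?_, ?_⟩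
  · change (ψ (c u) * ψ' (c' u)) ^ 3 = 1
    rw [mul_pow, a3 _ (hu.map c), b3 _ (hu.map c'), one_mul]
  · change ψ (c q) * ψ' (c' q) ≠ 1
    rwa [map_natCast c, map_natCast c', h2, mul_one]
  · change ψ (c q') * ψ' (c' q') ≠ 1
    rwa [map_natCast c, map_natCast c', h1, one_mul]

end Pool.Agent.P.MP_29cb78_nt.C
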