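import Pool.Agent.P.MP_29cb78_nt.C.Iface

/-!
The first inequality for a cyclic cubic extension of an imaginary quadratic field.
-/

namespace Pool.Agent.P.MP_29cb78_nt.C

open NumberField NumberField.Units Set Ideal
open scoped Classical nonZeroDivisors Pointwise

noncomputable section

namespace Fi0

section cop

variable {K : Type} [Field K] [NumberField K] {n : ℕ}

omit [NumberField K] in
theorem cop_iff {I : Ideal (𝓞 K)} :
    Cop n I ↔ I ≠ ⊥ ∧ ∀ P : Ideal (𝓞 K), P.IsMaximal → (n : 𝓞 K) ∈ P → ¬ I ≤ P := by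
  refine and_congr_right fun _ => ?_
  rw [Ideal.isCoprime_iff_sup_eq]
  constructor
  · intro h P hP hn hI
    exact hP.ne_top (top_le_iff.1 (h ▸ sup_le hI ((span_singleton_le_iff_mem _).2 hn)))
  · intro h
    by_contra hc
    obtain ⟨P, hP, hle⟩ := Ideal.exists_le_maximal _ hc
    exact h P hP ((span_singleton_le_iff_mem _).1 (le_sup_right.trans hle)) (le_sup_left.trans hle)

omit [NumberField K] in
theorem cop_span {x : 𝓞 K} : Cop n (span {x}) ↔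
    x ≠ 0 ∧ ∀ P : Ideal (𝓞 K), P.IsMaximal → (n : 𝓞 K) ∈ P → x ∉ P := by
  simp only [cop_iff, span_singleton_le_iff_mem, ne_eq, span_singleton_eq_bot]

omit [NumberField K] in
theorem cop_mul {I J : Ideal (𝓞 K)} : Cop n (I * J) ↔ Cop n I ∧ Cop n J := by
  simp only [Cop, ne_eq, Ideal.mul_eq_bot, IsCoprime.mul_left_iff]
  tauto

omit [NumberField K] in
theorem cop_one : Cop n (1 : Ideal (𝓞 K)) := ⟨by simp, isCoprime_one_left⟩

omit [NumberField K] in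
theorem cop_dvd {m : ℕ} (h : m ∣ n) {I : Ideal (𝓞 K)} (hI : Cop n I) : Cop m I := by
  rw [cop_iff] at hI ⊢
  obtain ⟨k, rfl⟩ := h
  exact ⟨hI.1, fun P hP hm => hI.2 P hP (by push_cast; exact P.mul_mem_right _ hm)⟩

omit [NumberField K] in
theorem cop_pow (t : ℕ) {I : Ideal (𝓞 K)} (hI : Cop n I) : Cop (n ^ (t + 1)) I := by
  rw [cop_iff] at hI ⊢
  exact ⟨hI.1, fun P hP hm => hI.2 P hP (hP.isPrime.mem_of_pow_mem (t + 1) (by simpa using hm))⟩

omit [NumberField K] in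
theorem cop_sub {x : 𝓞 K} (hx : x ≠ 0) (h : x - 1 ∈ span {(n : 𝓞 K)}) : Cop n (span {x}) := by
  refine cop_span.2 ⟨hx, fun P hP hn hx => hP.ne_top ((eq_top_iff_one _).2 ?_)⟩
  have := P.sub_mem hx ((span_singleton_le_iff_mem _).2 hn h)
  simpa using this

omit [NumberField K] in
theorem cop_unit (u : (𝓞 K)ˣ) : Cop n (span {(u : 𝓞 K)}) := by
  rw [span_singleton_eq_top.2 u.isUnit, ← one_eq_top]
  exact cop_one

omit [NumberField K] in
theorem cop_map {L : Type} [Field L] (f : 𝓞 K →+* 𝓞 L) (hf : Function.Injective f)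
    {I : Ideal (𝓞 K)} (hI : Cop n I) : Cop n (I.map f) := by
  refine ⟨fun h => hI.1 ((Ideal.map_eq_bot_iff_of_injective hf).1 h), ?_⟩
  have := congrArg (Ideal.map f) (Ideal.isCoprime_iff_sup_eq.1 hI.2)
  rw [Ideal.map_sup, Ideal.map_span, Set.image_singleton, map_natCast, Ideal.map_top] at this
  exact Ideal.isCoprime_iff_sup_eq.2 this

omit [NumberField K] in
theorem cop_elt {I : Ideal (𝓞 K)} (hI : Cop n I) :
    ∃ a ∈ I, a ≠ 0 ∧ a - 1 ∈ span {(n : 𝓞 K)} := by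
  obtain ⟨a, ha, b, hb, hab⟩ := Ideal.isCoprime_iff_exists.1 hI.2
  by_cases h0 : a = 0
  · obtain ⟨c, hc, hc0⟩ := Submodule.exists_mem_ne_zero_of_ne_bot hI.1
    refine ⟨c, hc, hc0, ?_⟩
    rw [h0, zero_add] at hab
    rw [hab] at hb
    rw [(eq_top_iff_one _).2 hb]
    trivial
  · refine ⟨a, ha, h0, ?_⟩
    rw [show a - 1 = -b by rw [← hab]; ring]
    exact neg_mem hb

theorem exists_rep (ray : RAY) (hn : n ≠ 0) (c : ClassGroup (𝓞 K)) :
    ∃ I : (Ideal (𝓞 K))⁰, Cop n I.1 ∧ ClassGroup.mk0 I = c := by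
  obtain ⟨C, _, _, cl, -, h2, h3⟩ := ray K 1 one_ne_zero
  obtain ⟨J, rfl⟩ := ClassGroup.mk0_surjective c
  obtain ⟨I, hI, hc⟩ := h3 n hn (cl J)
  rw [one_mul] at hI
  have hJ : Cop 1 J.1 := ⟨nonZeroDivisors.ne_zero J.2, by simp [Ideal.isCoprime_iff_sup_eq]⟩
  obtain ⟨α, β, hα, hβ, -, -, h⟩ := (h2 _ _ (cop_dvd (one_dvd n) hI) hJ).1 hc
  exact ⟨⟨I, mem_nonZeroDivisors_of_ne_zero hI.1⟩, hI,
    ClassGroup.mk0_eq_mk0_iff.2 ⟨α, β, hα, hβ, h⟩⟩

theorem cop_gen {I J : Ideal (𝓞 K)} (hI : Cop n I) (hJ : Cop n J) {x y : 𝓞 K} (hx : x ≠ 0)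
    (h : span {x} * I = span {y} * J) :
    ∃ a b : 𝓞 K, Cop n (span {a}) ∧ Cop n (span {b}) ∧ span {a} * I = span {b} * J := by
  obtain ⟨a, ha, ha0, ha1⟩ := cop_elt hJ
  have h1 : y * a ∈ span {x} * I := h ▸ Ideal.mul_mem_mul (mem_span_singleton_self y) ha
  obtain ⟨b, -, hb⟩ := Ideal.mem_span_singleton_mul.1 h1
  have h2 : span {a} * I = span {b} * J := by
    refine mul_left_cancel₀ (a := span {x}) (by simpa using hx) ?_
    rw [mul_left_comm, h, ← mul_assoc, ← mul_assoc, span_singleton_mul_span_singleton,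
      span_singleton_mul_span_singleton, hb, mul_comm a y]
  have h3 := cop_sub ha0 ha1
  exact ⟨a, b, h3, (cop_mul.1 (h2 ▸ cop_mul.2 ⟨h3, hI⟩)).1, h2⟩

end cop

section cubic

variable {F M : Type} [Field F] [Field M] [NumberField F] [NumberField M] [Algebra F M]
  [IsGalois F M] {σ : Gal(M/F)} {n : ℕ}

theorem card_gal (h3 : Module.finrank F M = 3) : Nat.card Gal(M/F) = 3 := by
  rw [IsGalois.card_aut_eq_finrank, h3]

theorem norm_eq (h3 : Module.finrank F M = 3) (hσ : σ ≠ 1) (y : 𝓞 M) :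
    algebraMap (𝓞 F) (𝓞 M) (Algebra.intNorm (𝓞 F) (𝓞 M) y) = y * σ • y * σ • σ • y := by
  have hc := card_gal h3
  have p3 : σ ^ 3 = 1 := hc ▸ pow_card_eq_one'
  have n1 : σ * σ ≠ 1 := fun h => hσ (by rw [pow_succ, pow_two, h, one_mul] at p3; exact p3)
  have n2 : σ ≠ σ * σ := fun h => hσ (left_eq_mul.1 h)
  have hu : (Finset.univ : Finset Gal(M/F)) = {1, σ, σ * σ} := by
    refine (Finset.eq_of_subset_of_card_le (Finset.subset_univ _) ?_).symm
    rw [Finset.card_univ, ← Nat.card_eq_fintype_card, hc,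
      Finset.card_eq_three.2 ⟨_, _, _, hσ.symm, n1.symm, n2, rfl⟩]
  apply IsFractionRing.injective (𝓞 M) M
  rw [← IsScalarTower.algebraMap_apply, IsScalarTower.algebraMap_apply (𝓞 F) F M,
    Algebra.algebraMap_intNorm (L := M), Algebra.norm_eq_prod_automorphisms, hu,
    Finset.prod_insert (by simp [hσ.symm, n1.symm]), Finset.prod_pair n2, map_mul, map_mul,
    mul_assoc]
  rfl

theorem under_inj (h3 : Module.finrank F M = 3) (hσ : σ ≠ 1) {Q Q' : Ideal (𝓞 M)}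
    (hQ : Q.IsMaximal) (hQ' : Q'.IsMaximal) (hi : σ ∈ Q.inertia Gal(M/F))
    (h : Q.under (𝓞 F) = Q'.under (𝓞 F)) : Q = Q' := by
  have : Fact (Nat.card Gal(M/F)).Prime := ⟨by rw [card_gal h3]; norm_num⟩
  obtain ⟨g, hg⟩ := Algebra.IsInvariant.exists_smul_of_under_eq (𝓞 F) (𝓞 M) Gal(M/F) Q Q' h
  rcases (Q.inertia Gal(M/F)).eq_bot_or_eq_top_of_prime_card with h1 | h1
  · exact (hσ (by simpa [h1] using hi)).elim
  · have : g ∈ MulAction.stabilizer Gal(M/F) Q :=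
      Ideal.inertia_le_stabilizer Q (h1 ▸ Subgroup.mem_top g)
    rw [hg, MulAction.mem_stabilizer_iff.1 this]

theorem cop_norm (h3 : Module.finrank F M = 3) (hσ : σ ≠ 1) {J : Ideal (𝓞 M)} (hJ : Cop n J) :
    Cop n (relNorm (𝓞 F) J) := by
  refine cop_iff.2 ⟨fun h => hJ.1 (relNorm_eq_bot_iff.1 h), fun P hP hn hle => ?_⟩
  obtain ⟨a, ha, -, ha1⟩ := cop_elt hJ
  obtain ⟨Q, hQ, hQP⟩ := Ideal.exists_ideal_over_maximal_of_isIntegral (S := 𝓞 M) P
    (by rw [(RingHom.injective_iff_ker_eq_bot (algebraMap (𝓞 F) (𝓞 M))).1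
          (FaithfulSMul.algebraMap_injective _ _)]
        exact bot_le)
  have h1 : Algebra.intNorm (𝓞 F) (𝓞 M) a ∈ Q.comap (algebraMap (𝓞 F) (𝓞 M)) :=
    hQP ▸ hle (intNorm_mem_spanNorm _ ha)
  have h2 : (n : 𝓞 M) ∈ Q := by
    rw [← hQP, mem_comap, map_natCast] at hn
    exact hn
  have h4 : ∀ g : Gal(M/F), g • a ∉ Q := by
    intro g hg
    obtain ⟨b, hb⟩ := mem_span_singleton'.1 ha1
    have h5 : g • a - 1 = g • b * n := by
      have := congrArg (MulSemiringAction.toRingHom Gal(M/F) (𝓞 M) g) hb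
      simp only [map_mul, map_sub, map_one, map_natCast, MulSemiringAction.toRingHom_apply] at this
      exact this.symm
    refine hQ.ne_top ((eq_top_iff_one _).2 ?_)
    have := Q.sub_mem hg (h5 ▸ Q.mul_mem_left _ h2)
    simpa using this
  rw [mem_comap, norm_eq h3 hσ] at h1
  rcases hQ.isPrime.mem_or_mem h1 with h | h
  · rcases hQ.isPrime.mem_or_mem h with h | h
    · exact h4 1 (by simpa using h)
    · exact h4 _ h
  · exact h4 (σ * σ) (by rwa [mul_smul])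

theorem unit_norm (h3 : Module.finrank F M = 3) (hσ : σ ≠ 1) {Q : Ideal (𝓞 M)}
    (hQ : Q.IsMaximal) (hi : σ ∈ Q.inertia Gal(M/F)) (u : (𝓞 F)ˣ) (y : M)
    (hy : algebraMap F M (u : F) = y * σ y * σ (σ y)) :
    ∃ a b : 𝓞 M, a ∉ Q ∧ b ∉ Q ∧
      u * Algebra.intNorm (𝓞 F) (𝓞 M) a = Algebra.intNorm (𝓞 F) (𝓞 M) b := by
  have hp := hQ.isPrime
  have hN : ∀ z : 𝓞 M, z * σ • z * σ • σ • z ∈ Q ↔ z ∈ Q := by
    intro z
    have k1 : σ • z - z ∈ Q := hi z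
    have k2 : σ • σ • z - σ • z ∈ Q := hi (σ • z)
    have e1 : σ • z ∈ Q → z ∈ Q := fun h => by simpa using Q.sub_mem h k1
    have e2 : σ • σ • z ∈ Q → σ • z ∈ Q := fun h => by simpa using Q.sub_mem h k2
    rw [hp.mul_mem_iff_mem_or_mem, hp.mul_mem_iff_mem_or_mem]
    tauto
  have key : ∀ a b : 𝓞 M, y * algebraMap (𝓞 M) M a = algebraMap (𝓞 M) M b →
      u * Algebra.intNorm (𝓞 F) (𝓞 M) a = Algebra.intNorm (𝓞 F) (𝓞 M) b ∧ (a ∈ Q ↔ b ∈ Q) := by
    intro a b hab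
    have h1 : algebraMap (𝓞 F) (𝓞 M) u * (a * σ • a * σ • σ • a) = b * σ • b * σ • σ • b := by
      apply IsFractionRing.injective (𝓞 M) M
      have e : ∀ z : 𝓞 M, algebraMap (𝓞 M) M (σ • z) = σ (algebraMap (𝓞 M) M z) := fun _ => rfl
      rw [map_mul, ← IsScalarTower.algebraMap_apply, IsScalarTower.algebraMap_apply (𝓞 F) F M]
      simp only [map_mul, e, ← hab]
      rw [hy]
      ring
    refine ⟨FaithfulSMul.algebraMap_injective (𝓞 F) (𝓞 M) ?_, ?_⟩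
    · rw [map_mul, norm_eq h3 hσ, norm_eq h3 hσ, h1]
    · rw [← hN a, ← hN b, ← h1, Ideal.unit_mul_mem_iff_mem _ (u.isUnit.map _)]
  obtain ⟨a, d, h | h⟩ := IsDedekindDomain.HeightOneSpectrum.exists_primeCompl_mul_eq_or_mul_eq
    (K := M) ⟨Q, hp, Ring.ne_bot_of_isMaximal_of_not_isField hQ (RingOfIntegers.not_isField M)⟩ y
  · exact ⟨d, a, d.2, fun h' => d.2 ((key _ _ h).2.2 h'), (key _ _ h).1⟩
  · exact ⟨a, d, fun h' => d.2 ((key _ _ h).2.1 h'), d.2, (key _ _ h).1⟩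

theorem roots (z : ℂ) (hz : z ^ 3 = 1) (h1 : z ≠ 1) (w : rootsOfUnity 3 ℂ) :
    ∃ k : ℕ, z ^ k = (w : ℂˣ) := by
  have : Fact (Nat.Prime 3) := ⟨by norm_num⟩
  have h2 : IsPrimitiveRoot z 3 := by
    have := IsPrimitiveRoot.orderOf z
    rwa [orderOf_eq_prime hz h1] at this
  obtain ⟨k, -, hk⟩ := h2.eq_pow_of_pow_eq_one (ξ := ((w : ℂˣ) : ℂ))
    ((mem_rootsOfUnity' 3 _).1 w.2)
  exact ⟨k, hk⟩

/-- The data of the local norm residue characters. -/
structure Lam (σ : Gal(M/F)) (n T : ℕ) {G : Type} [CommGroup G] (lam : 𝓞 F → G) : Prop where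
  mul : ∀ x y, Cop n (span {x}) → Cop n (span {y}) → lam (x * y) = lam x * lam y
  cong : ∀ x, x - 1 ∈ span {((n ^ (T + 1) : ℕ) : 𝓞 F)} → lam x = 1
  surj : ∀ l, ∃ x, Cop n (span {x}) ∧ lam x = l
  norm : ∀ y : 𝓞 M, Cop n (span {y}) → lam (Algebra.intNorm (𝓞 F) (𝓞 M) y) = 1
  unit : ∀ (u : (𝓞 F)ˣ) (y : M), algebraMap F M (u : F) = y * σ y * σ (σ y) → lam u = 1

theorem exists_lam (fil : FIL) (h3 : Module.finrank F M = 3) (hσ : σ ≠ 1) (hn : n ≠ 0)
    (hS : ∀ Q : Ideal (𝓞 M), Q.IsMaximal → σ ∈ Q.inertia Gal(M/F) → (n : 𝓞 M) ∈ Q) :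
    ∃ (T : ℕ) (G : Type) (_ : CommGroup G) (lam : 𝓞 F → G), Nat.card G =
      3 ^ Set.ncard {Q : Ideal (𝓞 M) | Q.IsMaximal ∧ σ ∈ Q.inertia Gal(M/F)} ∧ Lam σ n T lam := by
  set S := {Q : Ideal (𝓞 M) | Q.IsMaximal ∧ σ ∈ Q.inertia Gal(M/F)} with hSdef
  have hfin : S.Finite := by
    refine (Ideal.finite_setOfPred_absNorm_le (S := 𝓞 M) (absNorm (span {(n : 𝓞 M)}))).subset ?_
    intro Q hQ
    refine Nat.le_of_dvd (Nat.pos_of_ne_zero ?_) (absNorm_dvd_absNorm_of_le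
      ((span_singleton_le_iff_mem _).2 (hS Q hQ.1 hQ.2)))
    simpa using hn
  have : Finite S := hfin
  choose t η hmul hcube hcong hne hnorm using fun Q : S => fil F M σ Q h3 hσ Q.2.1 Q.2.2
  obtain ⟨T, hT⟩ := (Set.finite_range t).bddAbove
  have hT' : ∀ Q, t Q ≤ T := fun Q => hT ⟨Q, rfl⟩
  have hmax : ∀ Q : S, (Q.1.under (𝓞 F)).IsMaximal := fun Q => by
    have := Q.2.1
    infer_instance
  have hnQ : ∀ Q : S, (n : 𝓞 F) ∈ Q.1.under (𝓞 F) := fun Q => by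
    rw [mem_comap, map_natCast]
    exact hS Q Q.2.1 Q.2.2
  have hc : ∀ (Q : S) x, Cop n (span {x}) → x ∉ Q.1.under (𝓞 F) := fun Q x hx =>
    (cop_span.1 hx).2 _ (hmax Q) (hnQ Q)
  have h1 : ∀ Q : S, (1 : 𝓞 F) ∉ Q.1.under (𝓞 F) := fun Q h =>
    (hmax Q).ne_top ((eq_top_iff_one _).2 h)
  have hone : ∀ Q : S, η Q 1 = 1 := fun Q =>
    hnorm Q 1 1 (fun h => Q.2.1.ne_top ((eq_top_iff_one _).2 h)) (by simp)
  let lam : 𝓞 F → S → rootsOfUnity 3 ℂ := fun x Q =>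
    if h : x ∈ Q.1.under (𝓞 F) then 1 else rootsOfUnity.mkOfPowEq (η Q x) (hcube Q x h)
  have hl : ∀ x (Q : S), x ∉ Q.1.under (𝓞 F) → ((lam x Q : ℂˣ) : ℂ) = η Q x := by
    intro x Q h
    simp only [lam, dif_neg h, rootsOfUnity.val_mkOfPowEq_coe]
  have hext : ∀ x (l : S → rootsOfUnity 3 ℂ), (∀ Q : S, x ∉ Q.1.under (𝓞 F)) →
      (∀ Q : S, η Q x = (l Q : ℂˣ)) → lam x = l := fun x l h h' =>
    funext fun Q => Subtype.ext (Units.ext ((hl x Q (h Q)).trans (h' Q)))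
  have hN : ∀ (Q : S) (y : 𝓞 M), y ∉ Q.1 → Algebra.intNorm (𝓞 F) (𝓞 M) y ∉ Q.1.under (𝓞 F) ∧
      η Q (Algebra.intNorm (𝓞 F) (𝓞 M) y) = 1 := by
    intro Q y hy
    refine ⟨fun h => ?_, hnorm Q _ y hy (norm_eq h3 hσ y)⟩
    rw [mem_comap, norm_eq h3 hσ] at h
    have k1 : σ • y - y ∈ Q.1 := Q.2.2 y
    have k2 : σ • σ • y - σ • y ∈ Q.1 := Q.2.2 (σ • y)
    have e1 : σ • y ∉ Q.1 := fun h => hy (by simpa using Q.1.sub_mem h k1)
    have e2 : σ • σ • y ∉ Q.1 := fun h => e1 (by simpa using Q.1.sub_mem h k2)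
    rw [Q.2.1.isPrime.mul_mem_iff_mem_or_mem, Q.2.1.isPrime.mul_mem_iff_mem_or_mem] at h
    tauto
  refine ⟨T, S → rootsOfUnity 3 ℂ, inferInstance, lam, ?_, ?_, ?_, ?_, ?_, ?_⟩
  · rw [Nat.card_fun, Complex.card_rootsOfUnity, Nat.card_coe_set_eq]
  · intro x y hx hy
    refine hext _ _ (fun Q => hc Q _ ?_) fun Q => ?_
    · rw [← span_singleton_mul_span_singleton]
      exact cop_mul.2 ⟨hx, hy⟩
    · rw [hmul Q x y (hc Q x hx) (hc Q y hy), ← hl x Q (hc Q x hx), ← hl y Q (hc Q y hy)]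
      simp
  · intro x hx
    have h4 : ∀ (Q : S) k, k ≤ T + 1 → x - 1 ∈ Q.1.under (𝓞 F) ^ k := fun Q k hk =>
      Ideal.pow_le_pow_right hk ((span_singleton_le_iff_mem _).2
        (by simpa using Ideal.pow_mem_pow (hnQ Q) (T + 1)) hx)
    have h5 : ∀ Q : S, x ∉ Q.1.under (𝓞 F) := fun Q h => h1 Q (by
      have := h4 Q 1 (by omega)
      rw [pow_one] at this
      simpa using Ideal.sub_mem _ h this)
    refine hext _ _ h5 fun Q => ?_
    rw [hcong Q x 1 (h5 Q) (h1 Q) (h4 Q _ (by have := hT' Q; omega)), hone]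
    simp
  · intro l
    have hy : ∀ Q : S, ∃ y, y ∉ Q.1.under (𝓞 F) ∧ η Q y = (l Q : ℂˣ) := by
      intro Q
      obtain ⟨x, hx, hx1⟩ := hne Q
      obtain ⟨k, hk⟩ := roots _ (hcube Q x hx) hx1 (l Q)
      have h6 : ∀ k : ℕ, x ^ k ∉ Q.1.under (𝓞 F) := fun k h =>
        hx ((hmax Q).isPrime.mem_of_pow_mem k h)
      refine ⟨x ^ k, h6 k, ?_⟩
      rw [← hk]
      clear hk
      induction k with
      | zero => simpa using hone Q
      | succ k ih => rw [pow_succ, hmul Q _ _ (h6 k) hx, ih, pow_succ]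
    choose y hy1 hy2 using hy
    let z : Ideal (𝓞 F) → 𝓞 F := fun P =>
      if h : ∃ Q : S, Q.1.under (𝓞 F) = P then y h.choose else 1
    have hz1 : ∀ P : Ideal (𝓞 F), P.IsMaximal → z P ∉ P := by
      intro P hP
      simp only [z]
      split_ifs with h
      · have := hy1 h.choose
        rwa [h.choose_spec] at this
      · exact fun h => hP.ne_top ((eq_top_iff_one _).2 h)
    have hz2 : ∀ Q : S, z (Q.1.under (𝓞 F)) = y Q := by
      intro Q
      have h : ∃ Q' : S, Q'.1.under (𝓞 F) = Q.1.under (𝓞 F) := ⟨Q, rfl⟩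
      simp only [z, dif_pos h]
      rw [show h.choose = Q from Subtype.ext
        (under_inj h3 hσ h.choose.2.1 Q.2.1 h.choose.2.2 h.choose_spec)]
    have hn0 : span {(n : 𝓞 F)} ≠ ⊥ := by simpa using hn
    have hmem : ∀ P : Ideal (𝓞 F), P ∈ pdiv (span {(n : 𝓞 F)}) ↔ P.IsPrime ∧ (n : 𝓞 F) ∈ P := by
      intro P
      rw [pdiv, Multiset.mem_toFinset, Ideal.mem_normalizedFactors_iff hn0,
        span_singleton_le_iff_mem]
    obtain ⟨x, hx⟩ := IsDedekindDomain.exists_forall_sub_mem_ideal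
      (s := pdiv (span {(n : 𝓞 F)})) id (fun _ => T + 1)
      (fun P hP => UniqueFactorizationMonoid.prime_of_normalized_factor P
        (Multiset.mem_toFinset.1 hP)) (fun _ _ _ _ h => h) fun P => z P
    have h7 : ∀ P : Ideal (𝓞 F), P.IsMaximal → (n : 𝓞 F) ∈ P → x ∉ P := by
      intro P hP hnP h
      have := Ideal.pow_le_self (Nat.succ_ne_zero T) (hx P ((hmem P).2 ⟨hP.isPrime, hnP⟩))
      exact hz1 P hP (by simpa using P.sub_mem h this)
    have h8 : ∀ Q : S, x ∉ Q.1.under (𝓞 F) := fun Q => h7 _ (hmax Q) (hnQ Q)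
    by_cases h0 : x = 0
    · exact ⟨1, cop_unit 1, funext fun Q => (h8 Q (h0 ▸ zero_mem _)).elim⟩
    refine ⟨x, cop_span.2 ⟨h0, h7⟩, hext _ _ h8 fun Q => ?_⟩
    rw [← hy2]
    refine hcong Q _ _ (h8 Q) (hy1 Q) (Ideal.pow_le_pow_right
      (show t Q ≤ T + 1 by have := hT' Q; omega) ?_)
    have := hx _ ((hmem _).2 ⟨(hmax Q).isPrime, hnQ Q⟩)
    rwa [hz2] at this
  · intro y hy
    have h9 : ∀ Q : S, y ∉ Q.1 := fun Q => (cop_span.1 hy).2 _ Q.2.1 (hS Q Q.2.1 Q.2.2)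
    exact hext _ _ (fun Q => (hN Q y (h9 Q)).1) fun Q => by simpa using (hN Q y (h9 Q)).2
  · intro u y hy
    refine hext _ _ (fun Q => hc Q _ (cop_unit u)) fun Q => ?_
    obtain ⟨a, b, ha, hb, hab⟩ := unit_norm h3 hσ Q.2.1 Q.2.2 u y hy
    have := hmul Q u _ (hc Q _ (cop_unit u)) (hN Q a ha).1
    rw [hab, (hN Q a ha).2, (hN Q b hb).2, mul_one] at this
    simpa using this.symm

variable {T : ℕ} {G C : Type} [CommGroup G] [CommGroup C] {lam : 𝓞 F → G}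
  {cl : Ideal (𝓞 F) → C}

/-- `H` is the group of the classes of the principal ideals with trivial local characters. -/
def IsH (n : ℕ) (lam : 𝓞 F → G) (cl : Ideal (𝓞 F) → C) (H : Subgroup C) : Prop :=
  ∀ c, c ∈ H ↔ ∃ z w, Cop n (span {z}) ∧ Cop n (span {w}) ∧ lam z = 1 ∧ lam w = 1 ∧
    c * cl (span {z}) = cl (span {w})

omit [NumberField F] in
theorem cop_mul' {x y : 𝓞 F} (hx : Cop n (span {x})) (hy : Cop n (span {y})) :
    Cop n (span {x * y}) := by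
  rw [← span_singleton_mul_span_singleton]
  exact cop_mul.2 ⟨hx, hy⟩

omit [IsGalois F M] in
theorem exists_H (L : Lam σ n T lam)
    (hm : ∀ I J, Cop n I → Cop n J → cl (I * J) = cl I * cl J) : ∃ H, IsH n lam cl H := by
  refine ⟨{ carrier := {c | ∃ z w, Cop n (span {z}) ∧ Cop n (span {w}) ∧ lam z = 1 ∧ lam w = 1 ∧
              c * cl (span {z}) = cl (span {w})}
            one_mem' := ⟨1, 1, cop_unit 1, cop_unit 1, L.cong 1 (by simp), L.cong 1 (by simp),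
              one_mul _⟩
            mul_mem' := ?_
            inv_mem' := ?_ }, fun _ => Iff.rfl⟩
  · rintro a b ⟨z, w, hz, hw, lz, lw, h⟩ ⟨z', w', hz', hw', lz', lw', h'⟩
    refine ⟨z * z', w * w', cop_mul' hz hz', cop_mul' hw hw', ?_, ?_, ?_⟩
    · rw [L.mul _ _ hz hz', lz, lz', one_mul]
    · rw [L.mul _ _ hw hw', lw, lw', one_mul]
    · rw [← span_singleton_mul_span_singleton, ← span_singleton_mul_span_singleton, hm _ _ hz hz',
        hm _ _ hw hw', ← h, ← h', mul_mul_mul_comm]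
  · rintro a ⟨z, w, hz, hw, lz, lw, h⟩
    exact ⟨w, z, hw, hz, lw, lz, by rw [← h, inv_mul_cancel_left]⟩

omit [IsGalois F M] in
theorem lower (ray : RAY) (hn : n ≠ 0) [Finite C] (L : Lam σ n T lam)
    (hm : ∀ I J, Cop n I → Cop n J → cl (I * J) = cl I * cl J)
    (he : ∀ I J, Cop n I → Cop n J → cl I = cl J → RayEq (n ^ (T + 1)) I J) {H : Subgroup C}
    (hH : IsH n lam cl H) (e : (𝓞 F)ˣ →* G) (hu : ∀ u, e u = lam u) :
    classNumber F * e.range.index ≤ H.index := by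
  choose I hI hIc using exists_rep (K := F) ray hn
  choose x hx hxl using L.surj
  let f : ClassGroup (𝓞 F) × (G ⧸ e.range) → C ⧸ H := fun p => cl (I p.1 * span {x p.2.out})
  have hf : Function.Injective f := by
    rintro ⟨c, l⟩ ⟨c', l'⟩ h
    obtain ⟨z, w, hz, hw, lz, lw, h1⟩ := (hH _).1 (QuotientGroup.eq.1 h)
    have k := cop_mul.2 ⟨hI c, hx l.out⟩
    have k' := cop_mul.2 ⟨hI c', hx l'.out⟩
    rw [mul_assoc, inv_mul_eq_iff_eq_mul, ← hm _ _ k' hz, ← hm _ _ k hw] at h1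
    obtain ⟨α, β, hα, hβ, hα1, hβ1, h2⟩ := he _ _ (cop_mul.2 ⟨k', hz⟩) (cop_mul.2 ⟨k, hw⟩) h1
    have cα : Cop n (span {α}) := cop_dvd (dvd_pow_self n T.succ_ne_zero) (cop_sub hα hα1)
    have cβ : Cop n (span {β}) := cop_dvd (dvd_pow_self n T.succ_ne_zero) (cop_sub hβ hβ1)
    have c1 := cop_mul' cα (cop_mul' (hx l'.out) hz)
    have c2 := cop_mul' cβ (cop_mul' (hx l.out) hw)
    have h4 : span {α * (x l'.out * z)} * (I c').1 = span {β * (x l.out * w)} * (I c).1 := by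
      simp only [← span_singleton_mul_span_singleton]
      calc _ = span {α} * ((I c').1 * span {x l'.out} * span {z}) := by ring
        _ = _ := by rw [h2]; ring
    have h5 : c' = c := by
      rw [← hIc c, ← hIc c']
      exact ClassGroup.mk0_eq_mk0_iff.2 ⟨_, _, (cop_span.1 c1).1, (cop_span.1 c2).1, h4⟩
    subst h5
    obtain ⟨u, hu'⟩ := span_singleton_eq_span_singleton.1 (mul_right_cancel₀ (hI c').1 h4)
    have h6 := congrArg lam hu'
    rw [L.mul _ _ c1 (cop_unit u), L.mul _ _ cα (cop_mul' (hx _) hz), L.mul _ _ (hx _) hz,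
      L.mul _ _ cβ (cop_mul' (hx _) hw), L.mul _ _ (hx _) hw, L.cong α hα1, L.cong β hβ1, lz, lw,
      hxl, hxl, ← hu] at h6
    simp only [one_mul, mul_one] at h6
    rw [← l.out_eq, ← l'.out_eq, ← h6]
    exact congrArg _ (QuotientGroup.mk_mul_of_mem _ ⟨u, rfl⟩)
  have := Nat.card_le_card_of_injective f hf
  rwa [Nat.card_prod, Nat.card_eq_fintype_card] at this

theorem upper (ray : RAY) (h3 : Module.finrank F M = 3) (hσ : σ ≠ 1) (hn : n ≠ 0)
    (L : Lam σ n T lam) (hm : ∀ I J, Cop n I → Cop n J → cl (I * J) = cl I * cl J)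
    {H : Subgroup C} (hH : IsH n lam cl H) :
    ∃ Φ : ClassGroup (𝓞 M) →* C ⧸ H, cobCl σ ≤ Φ.ker ∧ ∀ J : (Ideal (𝓞 M))⁰, Cop n J.1 →
      Φ (ClassGroup.mk0 J) = cl (relNorm (𝓞 F) J.1) := by
  have wd : ∀ J J' : (Ideal (𝓞 M))⁰, Cop n J.1 → Cop n J'.1 →
      ClassGroup.mk0 J = ClassGroup.mk0 J' →
      (cl (relNorm (𝓞 F) J.1) : C ⧸ H) = cl (relNorm (𝓞 F) J'.1) := by
    intro J J' hJ hJ' h
    obtain ⟨x, y, hx, -, hxy⟩ := ClassGroup.mk0_eq_mk0_iff.1 h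
    obtain ⟨a, b, ha, hb, hab⟩ := cop_gen hJ hJ' hx hxy
    have ca := cop_norm h3 hσ ha
    have cb := cop_norm h3 hσ hb
    have h1 := congrArg (fun I => cl (relNorm (𝓞 F) I)) hab
    simp only [map_mul] at h1
    rw [hm _ _ ca (cop_norm h3 hσ hJ), hm _ _ cb (cop_norm h3 hσ hJ')] at h1
    rw [relNorm_singleton] at ca cb
    simp only [relNorm_singleton] at h1
    refine QuotientGroup.eq.2 ((hH _).2 ⟨_, _, cb, ca, L.norm b hb, L.norm a ha, ?_⟩)
    rw [mul_assoc, inv_mul_eq_iff_eq_mul, mul_comm, ← h1, mul_comm]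
  choose I hI hIc using exists_rep (K := M) ray hn
  let Φ : ClassGroup (𝓞 M) →* C ⧸ H := MonoidHom.mk' (fun c => cl (relNorm (𝓞 F) (I c).1)) (by
    intro c c'
    rw [wd (I (c * c')) (I c * I c') (hI _) (cop_mul.2 ⟨hI c, hI c'⟩) (by simp [hIc]),
      Submonoid.coe_mul, map_mul, hm _ _ (cop_norm h3 hσ (hI c)) (cop_norm h3 hσ (hI c'))]
    rfl)
  have hΦ : ∀ J : (Ideal (𝓞 M))⁰, Cop n J.1 →
      Φ (ClassGroup.mk0 J) = cl (relNorm (𝓞 F) J.1) := fun J hJ => wd _ _ (hI _) hJ (hIc _)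
  refine ⟨Φ, (Subgroup.closure_le _).2 ?_, hΦ⟩
  rintro _ ⟨A, B, hAB, rfl⟩
  set s := MulSemiringAction.toRingHom Gal(M/F) (𝓞 M) σ with hs
  have hsi : Function.Injective s := MulAction.injective σ
  have k := cop_map s hsi (hI (ClassGroup.mk0 A))
  have h1 : ClassGroup.mk0 B = ClassGroup.mk0 ⟨_, mem_nonZeroDivisors_of_ne_zero k.1⟩ := by
    obtain ⟨x, y, hx, hy, hxy⟩ := ClassGroup.mk0_eq_mk0_iff.1 (hIc (ClassGroup.mk0 A))
    have := congrArg (Ideal.map s) hxy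
    simp only [Ideal.map_mul, Ideal.map_span, Set.image_singleton, ← hAB] at this
    exact ClassGroup.mk0_eq_mk0_iff.2 ⟨s y, s x, (map_ne_zero_iff s hsi).2 hy,
      (map_ne_zero_iff s hsi).2 hx, this.symm⟩
  have h2 : relNorm (𝓞 F) ((I (ClassGroup.mk0 A)).1.map s) =
      relNorm (𝓞 F) (I (ClassGroup.mk0 A)).1 := relNorm_smul _ σ _
  rw [SetLike.mem_coe, MonoidHom.mem_ker, map_div, h1,
    hΦ ⟨_, mem_nonZeroDivisors_of_ne_zero k.1⟩ k, h2, div_eq_one]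
  rfl

omit [IsGalois F M] in
theorem not_top (ray : RAY) (hn : n ≠ 0) [Finite C]
    (L : Lam σ n T lam) (hm : ∀ I J, Cop n I → Cop n J → cl (I * J) = cl I * cl J)
    (he : ∀ I J, Cop n I → Cop n J → cl I = cl J → RayEq (n ^ (T + 1)) I J) {H : Subgroup C}
    (hH : IsH n lam cl H) (Φ : ClassGroup (𝓞 M) →* C ⧸ H) (hΦ : cobCl σ ≤ Φ.ker)
    (hlt : (cobCl σ).index * (normUnits σ).index < classNumber F * Nat.card G) :
    Φ.range ≠ ⊤ := by
  intro htop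
  let e : (𝓞 F)ˣ →* G := MonoidHom.mk' (fun u => lam u) fun u v => by
    simpa using L.mul u v (cop_unit u) (cop_unit v)
  have h1 := lower ray hn L hm he hH e fun _ => rfl
  have h2 : H.index ≤ (cobCl σ).index := by
    have := Subgroup.index_ker Φ
    rw [htop, Subgroup.card_top] at this
    exact this.symm.le.trans (Subgroup.index_antitone hΦ)
  have h4 : (normUnits σ).FiniteIndex := by
    have : Group.FG (𝓞 F)ˣ := Group.fg_iff_monoid_fg.2 inferInstance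
    have := Subgroup.finiteIndex_range_powMonoidHom_of_fg (𝓞 F)ˣ (n := 3) (by norm_num)
    refine Subgroup.finiteIndex_of_le (H := (powMonoidHom 3).range) ?_
    rintro _ ⟨u, rfl⟩
    refine Subgroup.subset_closure ⟨algebraMap F M u, ?_⟩
    simp only [AlgEquiv.commutes, powMonoidHom_apply, NumberField.Units.coe_pow, map_pow]
    ring
  have h5 : Nat.card e.range ≤ (normUnits σ).index := by
    rw [← Subgroup.index_ker]
    refine Subgroup.index_antitone ((Subgroup.closure_le _).2 ?_)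
    rintro u ⟨y, hy⟩
    exact L.unit u y hy
  rw [← e.range.index_mul_card, ← mul_assoc] at hlt
  exact absurd (Nat.mul_le_mul (h1.trans h2) h5) (not_le.2 hlt)

end cubic

end Fi0

open Fi0 in
theorem fi0 : RAY → FIL → CHEV → FI0 := by
  intro ray fil chev F M _ _ _ _ _ _ _ σ n h2 h3 hσ hn hS
  obtain ⟨T, G, _, lam, hG, L⟩ := exists_lam fil h3 hσ hn hS
  have hlt := chev F M σ h2 h3 hσ
  rw [← hG] at hlt
  obtain ⟨C, _, _, cl, c1, c2, c3⟩ := ray F (n ^ (T + 1)) (pow_ne_zero _ hn)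
  have hm : ∀ I J, Cop n I → Cop n J → cl (I * J) = cl I * cl J := fun I J hI hJ =>
    c1 I J (cop_pow T hI) (cop_pow T hJ)
  have hd : n ∣ n ^ (T + 1) := dvd_pow_self n T.succ_ne_zero
  obtain ⟨H, hH⟩ := exists_H L hm
  obtain ⟨Φ, hΦ, hΦ'⟩ := upper ray h3 hσ hn L hm hH
  have hne := not_top ray hn L hm
    (fun I J hI hJ => (c2 I J (cop_pow T hI) (cop_pow T hJ)).1) hH Φ hΦ hlt
  obtain ⟨y, hy⟩ : ∃ y, y ∉ Φ.range := by
    by_contra h
    push Not at h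
    exact hne ((Subgroup.eq_top_iff' _).2 h)
  obtain ⟨c, rfl⟩ := QuotientGroup.mk_surjective y
  have : NeZero (Monoid.exponent ((C ⧸ H) ⧸ Φ.range)) := ⟨Monoid.exponent_ne_zero_of_finite⟩
  obtain ⟨χ, hχ⟩ := CommGroup.exists_apply_ne_one_of_hasEnoughRootsOfUnity ((C ⧸ H) ⧸ Φ.range) ℂ
    (a := ((c : C ⧸ H) : (C ⧸ H) ⧸ Φ.range)) (fun h => hy ((QuotientGroup.eq_one_iff _).1 h))
  let ψ : C →* ℂ :=
    (Units.coeHom ℂ).comp (χ.comp ((QuotientGroup.mk' _).comp (QuotientGroup.mk' H)))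
  have hψ : ψ c ≠ 1 := fun h => hχ (Units.ext h)
  have hN : ∀ J : Ideal (𝓞 M), Cop n J → ψ (cl (relNorm (𝓞 F) J)) = 1 := by
    intro J hJ
    have : ((cl (relNorm (𝓞 F) J) : C ⧸ H) : (C ⧸ H) ⧸ Φ.range) = 1 :=
      (QuotientGroup.eq_one_iff _).2 ⟨_, hΦ' ⟨J, mem_nonZeroDivisors_of_ne_zero hJ.1⟩ hJ⟩
    simp [ψ, this]
  have h1 : cl 1 = 1 := by
    have := hm 1 1 cop_one cop_one
    rw [mul_one] at this
    exact left_eq_mul.1 this
  let η : Ideal (𝓞 F) →* ℂ :=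
    { toFun := fun I => if Cop n I then ψ (cl I) else 0
      map_one' := by rw [if_pos cop_one, h1, map_one]
      map_mul' := fun I J => by
        by_cases hI : Cop n I <;> by_cases hJ : Cop n J <;> simp [cop_mul, hI, hJ, hm] }
  have hη : ∀ I, Cop n I → η I = ψ (cl I) := fun I hI => if_pos hI
  refine ⟨T, η, fun α hα hα1 => ?_, fun I hI => ?_, fun n' hn' => ?_, fun Q hQ hnQ hab => ?_⟩
  · have k := cop_sub hα hα1
    rw [hη _ (cop_dvd hd k), (c2 _ 1 k cop_one).2 ⟨1, α, one_ne_zero, hα, by simp, hα1, by simp⟩,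
      h1, map_one]
  · have k := cop_map (algebraMap (𝓞 F) (𝓞 M)) (FaithfulSMul.algebraMap_injective _ _) hI
    have k1 := hN _ k
    have k2 := cop_norm h3 hσ k
    rw [← hη _ k2, relNorm_algebraMap, ← IsFractionRing.finrank_eq (𝓞 F) F (𝓞 M) M, h3,
      map_pow] at k1
    exact k1
  · obtain ⟨I, hI, hc⟩ := c3 n' hn' c
    refine ⟨I, cop_dvd (mul_dvd_mul_right hd n') hI, ?_⟩
    rwa [hη _ (cop_dvd (hd.mul_right n') hI), hc]
  · have hb : Q ≠ ⊥ := Ring.ne_bot_of_isMaximal_of_not_isField hQ (RingOfIntegers.not_isField M)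
    have k : Cop n Q := cop_iff.2 ⟨hb, fun P hP hnP hle => hnQ (hQ.eq_of_le hP.ne_top hle ▸ hnP)⟩
    have k1 := hN _ k
    rw [← hη _ (cop_norm h3 hσ k)] at k1
    obtain ⟨s, hs⟩ := exists_relNorm_eq_pow_of_isPrime Q (Q.under (𝓞 F))
    have k3 := absNorm_relNorm (𝓞 F) (𝓞 M) Q
    rw [hs, map_pow, ← hab] at k3
    have k4 : absNorm Q ≠ 0 := by rwa [ne_eq, absNorm_eq_zero_iff]
    have k5 : absNorm Q ≠ 1 := by
      rw [ne_eq, absNorm_eq_one_iff]
      exact hQ.ne_top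
    have k6 : s = 1 := Nat.pow_right_injective (show 2 ≤ absNorm Q by omega)
      (k3.trans (pow_one _).symm)
    rwa [hs, k6, pow_one] at k1

end

end Pool.Agent.P.MP_29cb78_nt.C
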