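import Pool.Agent.P.MP_29cb78_nt.C.Iface

/-!
Frobenius elements above primes of degree one generate the Galois group.
-/

namespace Pool.Agent.P.MP_29cb78_nt.C

open NumberField Set Ideal Filter Topology
open scoped Classical Pointwise

noncomputable section

namespace Gen

variable {L : Type} [Field L] [NumberField L]

/-- The rational prime below an ideal. -/
def pr (P : Ideal (𝓞 L)) : ℕ := absNorm (P.under ℤ)

theorem ne_bot {P : Ideal (𝓞 L)} (hP : P.IsMaximal) : P ≠ ⊥ :=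
  Ring.ne_bot_of_isMaximal_of_not_isField hP (RingOfIntegers.not_isField L)

theorem pr_prime {P : Ideal (𝓞 L)} (hP : P.IsMaximal) : (pr P).Prime := by
  have : NeZero P := ⟨ne_bot hP⟩
  exact Nat.absNorm_under_prime P

omit [NumberField L] in
theorem liesOver (P : Ideal (𝓞 L)) : P.LiesOver (span {(pr P : ℤ)}) :=
  ⟨by rw [pr, Int.ideal_span_absNorm_eq_self]⟩

theorem norm_eq {P : Ideal (𝓞 L)} (hP : P.IsMaximal) : ∃ f, f ≠ 0 ∧ absNorm P = pr P ^ f := by
  have := liesOver P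
  refine ⟨_, fun h => ?_, absNorm_eq_pow_inertiaDeg' P (pr_prime hP)⟩
  have h1 := absNorm_eq_pow_inertiaDeg' P (pr_prime hP)
  rw [h, pow_zero, absNorm_eq_one_iff] at h1
  exact hP.ne_top h1

set_option linter.deprecated false in
theorem card_fib (S : Finset (Ideal (𝓞 L))) (hS : ∀ P ∈ S, P.IsMaximal) (p : ℕ) :
    (S.filter fun P => pr P = p).card ≤ Module.finrank ℚ L := by
  rcases (S.filter fun P => pr P = p).eq_empty_or_nonempty with h | ⟨P, hP⟩
  · simp [h]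
  rw [Finset.mem_filter] at hP
  have hp : p.Prime := hP.2 ▸ pr_prime (hS P hP.1)
  have hp' : Prime (p : ℤ) := Nat.prime_iff_prime_int.mp hp
  have h0 : span {(p : ℤ)} ≠ ⊥ := by simpa using hp.ne_zero
  have : (span {(p : ℤ)}).IsMaximal :=
    ((span_singleton_prime hp'.ne_zero).mpr hp').isMaximal h0
  refine le_trans (Finset.card_le_card fun Q hQ => ?_)
    (card_primesOverFinset_le_finrank (𝓞 L) ℚ L h0)
  rw [Finset.mem_filter] at hQ
  rw [IsDedekindDomain.mem_primesOverFinset_iff h0]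
  exact ⟨(hS Q hQ.1).isPrime, hQ.2 ▸ liesOver Q⟩

theorem sum_bound (W : Set (Ideal (𝓞 L))) (hW : ∀ P ∈ W, P.IsMaximal) (g : Ideal (𝓞 L) → ℝ)
    (h : ℕ → ℝ) (h0 : ∀ n, 0 ≤ h n) (hs : Summable h) (hg : ∀ P ∈ W, g P ≤ h (pr P))
    (S : Finset (Ideal (𝓞 L))) :
    ∑ P ∈ S, (if P ∈ W then g P else 0) ≤ Module.finrank ℚ L * ∑' n, h n := by
  rw [← Finset.sum_filter]
  have hm : ∀ P ∈ S.filter (· ∈ W), P.IsMaximal := fun P hP => hW P (Finset.mem_filter.mp hP).2
  calc ∑ P ∈ S.filter (· ∈ W), g P ≤ ∑ P ∈ S.filter (· ∈ W), h (pr P) :=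
        Finset.sum_le_sum fun P hP => hg P (Finset.mem_filter.mp hP).2
    _ = ∑ p ∈ (S.filter (· ∈ W)).image pr,
          ((S.filter (· ∈ W)).filter fun P => pr P = p).card • h p := Finset.sum_comp h pr
    _ ≤ ∑ p ∈ (S.filter (· ∈ W)).image pr, Module.finrank ℚ L * h p := by
        refine Finset.sum_le_sum fun p _ => ?_
        rw [nsmul_eq_mul]
        exact mul_le_mul_of_nonneg_right (by exact_mod_cast card_fib _ hm p) (h0 p)
    _ ≤ _ := by
        rw [← Finset.mul_sum]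
        exact mul_le_mul_of_nonneg_left (hs.sum_le_tsum _ fun n _ => h0 n) (Nat.cast_nonneg _)

theorem term_nonneg (W : Set (Ideal (𝓞 L))) (s : ℝ) (P : Ideal (𝓞 L)) :
    0 ≤ if P ∈ W then (absNorm P : ℝ) ^ (-s) else 0 := by
  split_ifs
  · positivity
  · exact le_rfl

theorem summ (W : Set (Ideal (𝓞 L))) (hW : ∀ P ∈ W, P.IsMaximal) {s : ℝ} (hs : 1 < s) :
    Summable fun P : Ideal (𝓞 L) => if P ∈ W then (absNorm P : ℝ) ^ (-s) else 0 := by
  refine summable_of_sum_le (term_nonneg W s) (sum_bound W hW _ (fun n => (n : ℝ) ^ (-s))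
    (fun n => by positivity) (Real.summable_nat_rpow.mpr (by linarith)) fun P hP => ?_)
  obtain ⟨f, hf, he⟩ := norm_eq (hW P hP)
  have hp := pr_prime (hW P hP)
  refine Real.rpow_le_rpow_of_nonpos (by exact_mod_cast hp.pos) ?_ (by linarith)
  rw [he]
  exact_mod_cast Nat.le_self_pow hf _

theorem bdd (W : Set (Ideal (𝓞 L))) (hW : ∀ P ∈ W, P.IsMaximal ∧ ¬ (absNorm P).Prime) {s : ℝ}
    (hs : 1 < s) : psum W s ≤ Module.finrank ℚ L * ∑' n : ℕ, (n : ℝ) ^ (-2 : ℝ) := by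
  refine Real.tsum_le_of_sum_le (term_nonneg W s) (sum_bound W (fun P hP => (hW P hP).1) _
    (fun n => (n : ℝ) ^ (-2 : ℝ)) (fun n => by positivity)
    (Real.summable_nat_rpow.mpr (by norm_num)) fun P hP => ?_)
  obtain ⟨f, hf, he⟩ := norm_eq (hW P hP).1
  have hp := pr_prime (hW P hP).1
  have hf2 : 2 ≤ f := by
    by_contra hlt
    have : f = 1 := by omega
    rw [this, pow_one] at he
    exact (hW P hP).2 (he ▸ hp)
  have h1 : (1 : ℝ) ≤ pr P := by exact_mod_cast hp.one_le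
  rw [he, Nat.cast_pow, ← Real.rpow_natCast, ← Real.rpow_mul (by linarith)]
  refine Real.rpow_le_rpow_of_exponent_le h1 ?_
  have : (2 : ℝ) ≤ f := by exact_mod_cast hf2
  nlinarith

theorem psum_le (W W1 W2 : Set (Ideal (𝓞 L))) (h1 : ∀ P ∈ W1, P.IsMaximal)
    (h2 : ∀ P ∈ W2, P.IsMaximal) (h : W ⊆ W1 ∪ W2) {s : ℝ} (hs : 1 < s) :
    psum W s ≤ psum W1 s + psum W2 s := by
  have hW : ∀ P ∈ W, P.IsMaximal := fun P hP => (h hP).elim (h1 P) (h2 P)
  unfold psum
  rw [← (summ W1 h1 hs).tsum_add (summ W2 h2 hs)]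
  refine (summ W hW hs).tsum_le_tsum (fun P => ?_) ((summ W1 h1 hs).add (summ W2 h2 hs))
  have a1 := term_nonneg W1 s P
  have a2 := term_nonneg W2 s P
  by_cases hP : P ∈ W
  · rcases h hP with h' | h'
    · rw [if_pos hP, if_pos h']; linarith
    · rw [if_pos hP, if_pos h']; linarith
  · rw [if_neg hP]; linarith

theorem tendsto_log : Tendsto (fun s : ℝ => Real.log (1 / (s - 1))) (𝓝[>] 1) atTop := by
  refine Real.tendsto_log_atTop.comp ?_
  simp_rw [one_div]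
  refine tendsto_inv_nhdsGT_zero.comp ?_
  refine tendsto_nhdsWithin_iff.mpr ⟨?_, ?_⟩
  · have : Tendsto (fun s : ℝ => s - 1) (𝓝 1) (𝓝 (1 - 1)) :=
      (continuous_id.sub continuous_const).tendsto 1
    rw [sub_self] at this
    exact this.mono_left nhdsWithin_le_nhds
  · filter_upwards [self_mem_nhdsWithin] with s hs
    exact sub_pos.mpr (show (1 : ℝ) < s from hs)

theorem dens_le (W W1 : Set (Ideal (𝓞 L))) (h1 : ∀ P ∈ W1, P.IsMaximal)
    (hW : ∀ P ∈ W, P.IsMaximal) (h : ∀ P ∈ W, (absNorm P).Prime → P ∈ W1) {d d1 : ℝ}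
    (hd : HasDens W d) (hd1 : HasDens W1 d1) : d ≤ d1 := by
  set C : ℝ := Module.finrank ℚ L * ∑' n : ℕ, (n : ℝ) ^ (-2 : ℝ)
  have ht : Tendsto (fun s : ℝ => psum W1 s / Real.log (1 / (s - 1)) + C / Real.log (1 / (s - 1)))
      (𝓝[>] 1) (𝓝 (d1 + 0)) := hd1.add (tendsto_log.const_div_atTop C)
  rw [add_zero] at ht
  refine le_of_tendsto_of_tendsto hd ht ?_
  filter_upwards [self_mem_nhdsWithin, tendsto_log.eventually_gt_atTop 0] with s hs hl
  rw [← add_div]
  refine div_le_div_of_nonneg_right ?_ hl.le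
  refine (psum_le W W1 {P | P.IsMaximal ∧ ¬ (absNorm P).Prime} h1 (fun P hP => hP.1)
    (fun P hP => ?_) hs).trans ?_
  · by_cases hp : (absNorm P).Prime
    · exact Or.inl (h P hP hp)
    · exact Or.inr ⟨hW P hP, hp⟩
  · exact add_le_add le_rfl (bdd _ (fun P hP => hP) hs)

variable {F Ω : Type} [Field F] [Field Ω] [NumberField F] [NumberField Ω] [Algebra F Ω]
  [IsGalois F Ω]

theorem isFrob_iff (Q : Ideal (𝓞 Ω)) (σ : Gal(Ω/F)) :
    IsFrob Q σ ↔ IsArithFrobAt (𝓞 F) σ Q := by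
  unfold IsFrob
  rw [absNorm_apply, Submodule.cardQuot_apply]
  rfl

end Gen

open Gen in
theorem gen : DENS → GEN := by
  intro hD F Ω _ _ _ _ _ _ H n hn hH
  have h1 := hD F Ω ⊤ n inferInstance hn
  have h2 := hD F Ω H.normalCore n inferInstance hn
  have h3 := dens_le _ _ (fun P hP => hP.1) (fun P hP => hP.1) ?_ h1 h2
  · have hc : (0 : ℝ) < Nat.card Gal(Ω/F) := by exact_mod_cast Nat.card_pos
    rw [div_le_div_iff_of_pos_right hc] at h3
    have h4 : Nat.card (⊤ : Subgroup Gal(Ω/F)) ≤ Nat.card H.normalCore := by exact_mod_cast h3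
    have h5 := Subgroup.eq_of_le_of_card_ge (le_top : H.normalCore ≤ ⊤) h4
    exact top_unique (h5 ▸ H.normalCore_le)
  rintro P ⟨hP, hnP, Q, hQ, hQP, σ, -, hσ⟩ hp
  refine ⟨hP, hnP, Q, hQ, hQP, σ, fun τ => ?_, hσ⟩
  have hu : (τ • Q).under (𝓞 F) = P := by rw [← hQP]; exact Ideal.under_smul (𝓞 F) Q τ
  have hm : (τ • Q).IsMaximal := by rw [Ideal.pointwise_smul_eq_comap]; infer_instance
  refine hH (τ • Q) hm (fun h => hnP ?_) (hu ▸ hp) _
    ((isFrob_iff _ _).mpr (((isFrob_iff _ _).mp hσ).conj τ))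
  rw [← hu, Ideal.mem_under]
  simpa using h

end

end Pool.Agent.P.MP_29cb78_nt.C
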