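import Pool.Agent.P.MP_29cb78_nt.C.Iface

/-! Coset representatives for integer matrices, and integrality of singular moduli. -/

namespace Pool.Agent.P.MP_29cb78_nt.C

open scoped Classical Real Matrix

namespace Jint

theorem tri (C : Mat) (d : ℕ) (hd : d ≠ 0) (h : C.det = d) :
    ∃ (A D : ℕ) (B : ℤ) (G : Mat), G.det = 1 ∧ A * D = d ∧
      C = G * !![(A : ℤ), B; 0, (D : ℤ)] := by
  rw [Matrix.det_fin_two] at h
  have hg : 0 < Int.gcd (C 0 0) (C 1 0) := by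
    rw [Int.gcd_pos_iff]
    by_contra hc
    push Not at hc
    rw [hc.1, hc.2] at h
    simp only [zero_mul, mul_zero, sub_self] at h
    exact hd (by exact_mod_cast h.symm)
  obtain ⟨g, a, c, hg0, hac, ha, hc⟩ := Int.exists_gcd_one' hg
  obtain ⟨x, y, hxy⟩ := Int.isCoprime_iff_gcd_eq_one.2 hac
  have hD : (g : ℤ) * (a * C 1 1 - c * C 0 1) = d := by
    rw [← h, ha, hc]; ring
  have hDpos : 0 ≤ a * C 1 1 - c * C 0 1 := by
    have h1 : (0 : ℤ) < g := by exact_mod_cast hg0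
    have h2 : (0 : ℤ) ≤ d := Int.natCast_nonneg d
    by_contra hn
    push Not at hn
    nlinarith
  obtain ⟨D, hD'⟩ := Int.eq_ofNat_of_zero_le hDpos
  refine ⟨g, D, x * C 0 1 + y * C 1 1, !![a, -y; c, x], ?_, ?_, ?_⟩
  · rw [Matrix.det_fin_two_of]; linarith
  · rw [hD'] at hD; exact_mod_cast hD
  · ext i j
    fin_cases i <;> fin_cases j <;>
      simp only [Matrix.mul_apply, Fin.sum_univ_two, Matrix.of_apply, Matrix.cons_val',
        Matrix.cons_val_zero, Matrix.cons_val_one, Matrix.cons_val_fin_one, Fin.zero_eta,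
        Fin.mk_one, Fin.isValue, ← hD']
    · linear_combination ha
    · linear_combination (-C 0 1) * hxy
    · linear_combination hc
    · linear_combination (-C 1 1) * hxy

theorem shift (G : Mat) (A B D k : ℤ) (hG : G.det = 1) :
    ∃ G' : Mat, G'.det = 1 ∧ G * !![A, B; 0, D] = G' * !![A, B - k * D; 0, D] := by
  refine ⟨G * !![1, k; 0, 1], by rw [Matrix.det_mul, hG, Matrix.det_fin_two_of]; ring, ?_⟩
  rw [Matrix.mul_assoc]
  congr 1
  ext i j
  fin_cases i <;> fin_cases j <;> simp [Matrix.mul_apply, Fin.sum_univ_two]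

theorem uniq {G G' : Mat} {A D A' D' : ℕ} {B B' : ℤ} (hG : G.det = 1) (hG' : G'.det = 1)
    (hd : A * D = A' * D') (h0 : A * D ≠ 0)
    (h : G * !![(A : ℤ), B; 0, (D : ℤ)] = G' * !![(A' : ℤ), B'; 0, (D' : ℤ)]) :
    A = A' ∧ D = D' ∧ (D : ℤ) ∣ B - B' := by
  rw [Matrix.det_fin_two] at hG hG'
  have e00 := congrFun (congrFun h 0) 0
  have e01 := congrFun (congrFun h 0) 1
  have e10 := congrFun (congrFun h 1) 0
  have e11 := congrFun (congrFun h 1) 1
  simp only [Matrix.mul_apply, Fin.sum_univ_two, Matrix.of_apply, Matrix.cons_val',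
    Matrix.cons_val_zero, Matrix.cons_val_one, Matrix.cons_val_fin_one, mul_zero,
    add_zero] at e00 e01 e10 e11
  have hA : A = A' := by
    apply Nat.dvd_antisymm
    · rw [← Int.natCast_dvd_natCast]
      exact ⟨G 0 0 * G' 1 1 - G' 0 1 * G 1 0, by
        linear_combination (-(A' : ℤ)) * hG' - G' 1 1 * e00 + G' 0 1 * e10⟩
    · rw [← Int.natCast_dvd_natCast]
      exact ⟨G' 0 0 * G 1 1 - G 0 1 * G' 1 0, by
        linear_combination (-(A : ℤ)) * hG + G 1 1 * e00 - G 0 1 * e10⟩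
  subst hA
  have hA0 : A ≠ 0 := left_ne_zero_of_mul h0
  have hD : D = D' := Nat.eq_of_mul_eq_mul_left (Nat.pos_of_ne_zero hA0) hd
  subst hD
  have hA0' : (A : ℤ) ≠ 0 := by exact_mod_cast hA0
  have f0 : G 0 0 = G' 0 0 := mul_right_cancel₀ hA0' e00
  have f1 : G 1 0 = G' 1 0 := mul_right_cancel₀ hA0' e10
  refine ⟨rfl, rfl, G 1 1 * (G' 0 1 - G 0 1) - G 0 1 * (G' 1 1 - G 1 1), ?_⟩
  rw [← f0] at e01
  rw [← f1] at e11
  linear_combination (-(B - B')) * hG + G 1 1 * e01 - G 0 1 * e11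

theorem mem_hnf {d : ℕ} (hd : d ≠ 0) {R : Mat} :
    R ∈ hnf d ↔ ∃ A D B : ℕ, A * D = d ∧ B < D ∧ R = !![(A : ℤ), (B : ℤ); 0, (D : ℤ)] := by
  simp only [hnf, Finset.mem_image, Finset.mem_sigma, Nat.mem_divisorsAntidiagonal,
    Finset.mem_range]
  constructor
  · rintro ⟨⟨⟨A, D⟩, B⟩, ⟨⟨h1, -⟩, h2⟩, rfl⟩
    exact ⟨A, D, B, h1, h2, rfl⟩
  · rintro ⟨A, D, B, h1, h2, rfl⟩
    exact ⟨⟨⟨A, D⟩, B⟩, ⟨⟨h1, hd⟩, h2⟩, rfl⟩

theorem det_hnf {d : ℕ} (hd : d ≠ 0) {R : Mat} (h : R ∈ hnf d) : R.det = d := by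
  obtain ⟨A, D, B, h1, -, rfl⟩ := (mem_hnf hd).1 h
  rw [Matrix.det_fin_two_of, ← h1]
  push_cast
  ring

theorem ex_hnf (d : ℕ) (hd : d ≠ 0) (C : Mat) (h : C.det = d) :
    ∃ R ∈ hnf d, ∃ G : Mat, G.det = 1 ∧ C = G * R := by
  obtain ⟨A, D, B, G, hG, hAD, rfl⟩ := tri C d hd h
  have hD : (0 : ℤ) < D := by
    have : D ≠ 0 := right_ne_zero_of_mul (hAD ▸ hd)
    positivity
  obtain ⟨G', hG', e⟩ := shift G A B D (B / D) hG
  obtain ⟨B', hB'⟩ := Int.eq_ofNat_of_zero_le (Int.emod_nonneg B hD.ne')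
  have hlt : B' < D := by
    have := Int.emod_lt_of_pos B hD
    rw [hB'] at this
    exact_mod_cast this
  have e2 : B - B / D * D = B' := by
    rw [← hB', Int.emod_def]; ring
  rw [e2] at e
  exact ⟨_, (mem_hnf hd).2 ⟨A, D, B', hAD, hlt, rfl⟩, G', hG', e⟩

theorem cancel {R1 R2 G1 G2 A E : Mat} (hA : A.det = 1) (h1 : G1.det = 1) (h2 : G2.det = 1)
    (e1 : R1 * A = G1 * E) (e2 : R2 * A = G2 * E) :
    ∃ H1 H2 : Mat, H1.det = 1 ∧ H2.det = 1 ∧ H1 * R1 = H2 * R2 := by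
  refine ⟨G1.adjugate, G2.adjugate, by rw [Matrix.det_adjugate, h1, one_pow],
    by rw [Matrix.det_adjugate, h2, one_pow], ?_⟩
  have k : ∀ R G : Mat, G.det = 1 → R * A = G * E → G.adjugate * R = E * A.adjugate := by
    intro R G hG e
    calc G.adjugate * R = G.adjugate * (R * (A * A.adjugate)) := by
          rw [Matrix.mul_adjugate, hA, one_smul, Matrix.mul_one]
      _ = (G.adjugate * G) * E * A.adjugate := by
          rw [← Matrix.mul_assoc R, e]; simp only [Matrix.mul_assoc]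
      _ = E * A.adjugate := by rw [Matrix.adjugate_mul, hG, one_smul, Matrix.one_mul]
  rw [k R1 G1 h1 e1, k R2 G2 h2 e2]

theorem uniq_hnf {d : ℕ} (hd : d ≠ 0) {R1 R2 H1 H2 : Mat} (r1 : R1 ∈ hnf d) (r2 : R2 ∈ hnf d)
    (h1 : H1.det = 1) (h2 : H2.det = 1) (e : H1 * R1 = H2 * R2) : R1 = R2 := by
  obtain ⟨A, D, B, a1, a2, rfl⟩ := (mem_hnf hd).1 r1
  obtain ⟨A', D', B', b1, b2, rfl⟩ := (mem_hnf hd).1 r2
  obtain ⟨rfl, rfl, h3⟩ := uniq h1 h2 (a1.trans b1.symm) (a1 ▸ hd) e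
  have : (B : ℤ) - B' = 0 := Int.eq_zero_of_abs_lt_dvd h3 (by rw [abs_lt]; omega)
  have : B = B' := by omega
  rw [this]

theorem det_rp (p M : ℕ) (x : Option (Fin p)) : (rp p M x).det = p := by
  cases x <;> simp [rp, Matrix.det_fin_two_of]

theorem ex_rp {p M : ℕ} (hp : p.Prime) (hM : M.Coprime p) (C : Mat) (h : C.det = p) :
    ∃ x, ∃ G : Mat, G.det = 1 ∧ C = G * rp p M x := by
  obtain ⟨A, D, B, G, hG, hAD, rfl⟩ := tri C p hp.ne_zero h
  rcases (Nat.dvd_prime hp).1 ⟨D, hAD.symm⟩ with rfl | rfl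
  · rw [one_mul] at hAD
    subst hAD
    obtain ⟨u, v, huv⟩ := Nat.isCoprime_iff_coprime.2 hM
    have hD : (0 : ℤ) < D := by exact_mod_cast hp.pos
    obtain ⟨i, hi⟩ := Int.eq_ofNat_of_zero_le (Int.emod_nonneg (B * u) hD.ne')
    have hlt : i < D := by
      have := Int.emod_lt_of_pos (B * u) hD
      rw [hi] at this
      exact_mod_cast this
    obtain ⟨G', hG', e⟩ := shift G ((1 : ℕ) : ℤ) B D (B * v + M * (B * u / D)) hG
    have e2 : B - (B * v + M * (B * u / D)) * D = M * i := by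
      rw [← hi, Int.emod_def]
      linear_combination (-B) * huv
    rw [e2] at e
    exact ⟨some ⟨i, hlt⟩, G', hG', by simpa [rp] using e⟩
  · have hD : D = 1 := by
      have := hp.pos
      nlinarith [Nat.eq_of_mul_eq_mul_left hp.pos (hAD.trans (mul_one A).symm)]
    subst hD
    obtain ⟨G', hG', e⟩ := shift G A B ((1 : ℕ) : ℤ) B hG
    exact ⟨none, G', hG', by simpa [rp] using e⟩

theorem uniq_rp {p M : ℕ} (hp : p.Prime) (hM : M.Coprime p) {x y : Option (Fin p)}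
    {H1 H2 : Mat} (h1 : H1.det = 1) (h2 : H2.det = 1) (e : H1 * rp p M x = H2 * rp p M y) :
    x = y := by
  have hp1 := hp.one_lt
  rcases x with _ | i <;> rcases y with _ | j
  · rfl
  · have := uniq (A := p) (D := 1) (A' := 1) (D' := p) (B := 0) (B' := M * (j : ℕ)) h1 h2
      (by ring) (by omega) (by simpa [rp] using e)
    omega
  · have := uniq (A := 1) (D := p) (A' := p) (D' := 1) (B := M * (i : ℕ)) (B' := 0) h1 h2
      (by ring) (by omega) (by simpa [rp] using e)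
    omega
  · obtain ⟨-, -, h3⟩ := uniq (A := 1) (D := p) (A' := 1) (D' := p) (B := M * (i : ℕ))
      (B' := M * (j : ℕ)) h1 h2 rfl (by omega) (by simpa [rp] using e)
    rw [← mul_sub] at h3
    have h4 : (p : ℤ) ∣ ((i : ℕ) : ℤ) - (j : ℕ) :=
      (Nat.isCoprime_iff_coprime.2 hM.symm).dvd_of_dvd_mul_left h3
    have hi := i.2
    have hj := j.2
    have : ((i : ℕ) : ℤ) - (j : ℕ) = 0 := Int.eq_zero_of_abs_lt_dvd h4 (by rw [abs_lt]; omega)
    have : i = j := Fin.ext (by omega)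
    rw [this]

/-- Units of the ring of algebraic integers, as leading coefficients. -/
def Un (u : ℂ) : Prop := ∃ v : ℂ, IsIntegral ℤ v ∧ v * u = 1

theorem ee_add (x y : ℂ) : ee (x + y) = ee x * ee y := by
  rw [ee, ee, ee, ← Complex.exp_add]; congr 1; ring

theorem ee_zero : ee 0 = 1 := by simp [ee]

theorem lead_const (c : ℤ) : QLead (fun _ => (c : ℂ)) c 0 := by
  refine ⟨1, 0, fun n => if n = 0 then (c : ℂ) else 0, one_ne_zero, fun n => ?_, fun τ _ => ?_,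
    by simp, by simp⟩
  · dsimp only
    split_ifs
    · exact isIntegral_algebraMap (x := c)
    · exact isIntegral_zero
  · have := hasSum_single (f := fun n : ℕ => (if n = 0 then (c : ℂ) else 0) *
      ee ((n + (0 : ℤ)) * τ / (1 : ℕ))) 0 (fun b hb => by simp [hb])
    simpa [ee_zero] using this

theorem un_ee (B D : ℕ) (hD : D ≠ 0) :
    Un (-1 * (1 * ee (((-1 : ℚ) : ℂ) * ((B : ℤ) : ℂ) / D))) := by
  refine ⟨-ee ((B : ℂ) / D), IsIntegral.neg ?_, ?_⟩
  · refine IsIntegral.of_pow (Nat.pos_of_ne_zero hD) ?_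
    have hD' : (D : ℂ) ≠ 0 := by exact_mod_cast hD
    have : ee ((B : ℂ) / D) ^ D = 1 := by
      rw [ee, ← Complex.exp_nat_mul, ← Complex.exp_nat_mul_two_pi_mul_I B]
      congr 1
      field_simp
    rw [this]
    exact isIntegral_one
  · have : ee ((B : ℂ) / D) * ee (((-1 : ℚ) : ℂ) * ((B : ℤ) : ℂ) / D) = 1 := by
      rw [← ee_add, ← ee_zero]
      congr 1
      push_cast
      ring
    linear_combination this

theorem lead_factor (hQ : QAPI) (hJ : JQ) {d : ℕ} (hd : d ≠ 0) (hsq : ¬ IsSquare d) {R : Mat}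
    (hR : R ∈ hnf d) : ∃ u r, Un u ∧ QLead (fun τ => jf τ - jf (mob R τ)) u r := by
  obtain ⟨A, D, B, h1, -, rfl⟩ := (mem_hnf hd).1 hR
  have hA : A ≠ 0 := left_ne_zero_of_mul (h1 ▸ hd)
  have hD : D ≠ 0 := right_ne_zero_of_mul (h1 ▸ hd)
  obtain ⟨⟨c, hc, hc0, hq⟩, -⟩ := hJ
  have l1 : QLead jf 1 (-1) := ⟨1, -1, c, one_ne_zero, hc, hq, hc0, by simp⟩
  have l2 := hQ.lead_mul _ _ _ _ _ _ (lead_const (-1)) (hQ.lead_aff _ _ _ A D B hA hD l1)
  have hne : A ≠ D := by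
    rintro rfl
    exact hsq ⟨A, h1.symm⟩
  have hD' : (0 : ℚ) < D := by positivity
  rcases lt_or_gt_of_ne hne with hlt | hlt
  · refine ⟨1, -1, ⟨1, isIntegral_one, one_mul 1⟩, ?_⟩
    have l3 := hQ.lead_add _ _ _ _ _ _ l1 l2 (by
      have : (A : ℚ) < D := by exact_mod_cast hlt
      rw [zero_add, lt_div_iff₀ hD']
      linarith)
    convert l3 using 2 with τ
    simp [mob, sub_eq_add_neg]
  · have l3 := hQ.lead_add _ _ _ _ _ _ l2 l1 (by
      have : (D : ℚ) < A := by exact_mod_cast hlt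
      rw [zero_add, div_lt_iff₀ hD']
      linarith)
    refine ⟨_, 0 + -1 * (A : ℚ) / D, un_ee B D hD, ?_⟩
    convert l3 using 2 with τ
    · simp [mob]
      ring
    · simp

theorem lead_prod (hQ : QAPI) (f : Mat → ℂ → ℂ) (s : Finset Mat)
    (h : ∀ R ∈ s, ∃ u r, Un u ∧ QLead (f R) u r) :
    ∃ u r, Un u ∧ QLead (fun τ => ∏ R ∈ s, f R τ) u r := by
  induction s using Finset.induction_on with
  | empty => exact ⟨1, 0, ⟨1, isIntegral_one, one_mul 1⟩, by simpa using lead_const 1⟩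
  | insert a s ha ih =>
    obtain ⟨u, r, ⟨v, hv, hu⟩, l1⟩ := h a (Finset.mem_insert_self a s)
    obtain ⟨u', r', ⟨v', hv', hu'⟩, l2⟩ := ih fun R hR => h R (Finset.mem_insert_of_mem hR)
    refine ⟨u * u', r + r', ⟨v * v', hv.mul hv', by
      rw [mul_mul_mul_comm, hu, hu', one_mul]⟩, ?_⟩
    simp only [Finset.prod_insert ha]
    exact hQ.lead_mul _ _ _ _ _ _ l1 l2

end Jint

open Jint

theorem coset : COSET := by
  refine ⟨fun d hd => ⟨ex_hnf d hd, fun A hA => ?_⟩, fun p M hp hM => ⟨ex_rp hp hM, fun A hA => ?_⟩⟩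
  · have key : ∀ R : Mat, ∃ E : Mat, R ∈ hnf d → E ∈ hnf d ∧ ∃ G : Mat, G.det = 1 ∧
        R * A = G * E := by
      intro R
      by_cases hR : R ∈ hnf d
      · obtain ⟨E, hE, G, hG, e⟩ := ex_hnf d hd (R * A)
          (by rw [Matrix.det_mul, hA, det_hnf hd hR, mul_one])
        exact ⟨E, fun _ => ⟨hE, G, hG, e⟩⟩
      · exact ⟨R, fun h => absurd h hR⟩
    choose e he using key
    refine ⟨e, ?_, fun R hR => (he R hR).2⟩
    refine ((hnf d).finite_toSet.injOn_iff_bijOn_of_mapsTo fun R hR => (he R hR).1).1 ?_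
    intro R1 r1 R2 r2 h
    obtain ⟨G1, g1, e1⟩ := (he R1 r1).2
    obtain ⟨G2, g2, e2⟩ := (he R2 r2).2
    obtain ⟨H1, H2, h1, h2, e3⟩ := cancel hA g1 g2 e1 (h ▸ e2)
    exact uniq_hnf hd r1 r2 h1 h2 e3
  · have key : ∀ x, ∃ y, ∃ G : Mat, G.det = 1 ∧ rp p M x * A = G * rp p M y := fun x =>
      ex_rp hp hM _ (by rw [Matrix.det_mul, hA, det_rp, mul_one])
    choose e he using key
    have hinj : Function.Injective e := by
      intro x y h
      obtain ⟨G1, g1, e1⟩ := he x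
      obtain ⟨G2, g2, e2⟩ := he y
      obtain ⟨H1, H2, h1, h2, e3⟩ := cancel hA g1 g2 e1 (h ▸ e2)
      exact uniq_rp hp hM h1 h2 e3
    exact ⟨Equiv.ofBijective e (Finite.injective_iff_bijective.1 hinj), he⟩

theorem jint : QAPI → JQ → LATB → POLYJ → COSET → JINT := by
  intro hQ hJ hL hP hC C τ0 hτ hdet hsq hfix
  obtain ⟨d, hd⟩ := Int.eq_ofNat_of_zero_le hdet.le
  have hd0 : d ≠ 0 := by
    rintro rfl
    rw [hd] at hdet
    simp at hdet
  have hsq' : ¬ IsSquare d := by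
    rintro ⟨a, ha⟩
    exact hsq ⟨a, by rw [hd, ha]; push_cast; ring⟩
  obtain ⟨-, L2, L3, -, -, L6⟩ := hL
  have hpos : ∀ R ∈ hnf d, 0 < R.det := fun R hR => by
    rw [det_hnf hd0 hR, ← hd]; exact hdet
  have hG : ∀ R ∈ hnf d, ∀ G : Mat, G.det = 1 → ∀ τ : ℂ, 0 < τ.im →
      jf (mob (G * R) τ) = jf (mob R τ) := by
    intro R hR G hG τ hτ
    rw [L3 G R τ (hpos R hR) hτ, L6 G _ hG (L2 R τ (hpos R hR) hτ)]
  obtain ⟨u, r, ⟨v, hv, hu⟩, M, n0, c, hM, hc, hq, hc0, -⟩ :=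
    lead_prod hQ (fun R τ => jf τ - jf (mob R τ)) (hnf d)
      fun R hR => lead_factor hQ hJ hd0 hsq' hR
  obtain ⟨P, hP1, hP2, hP3⟩ := hP _ M n0 c hM hc hq (by
    intro A τ hA hτ
    obtain ⟨e, he, he'⟩ := (hC.1 d hd0).2 A hA
    refine Finset.prod_nbij e he.mapsTo he.injOn he.surjOn fun R hR => ?_
    obtain ⟨G, hG1, hG2⟩ := he' R hR
    rw [L6 A τ hA hτ, ← L3 R A τ (by rw [hA]; exact one_pos) hτ, hG2,
      hG _ (he.mapsTo hR) G hG1 τ hτ])
  have hu0 : u ≠ 0 := by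
    rintro rfl
    simp at hu
  have hlead : P.leadingCoeff = u := hc0 ▸ (hP3 (hc0 ▸ hu0)).1
  have hev : P.eval (jf τ0) = 0 := by
    rw [← hP2 τ0 hτ]
    obtain ⟨R, hR, G, hG1, hG2⟩ := (hC.1 d hd0).1 C hd
    refine Finset.prod_eq_zero hR ?_
    rw [← hG R hR G hG1 τ0 hτ, ← hG2, hfix, sub_self]
  have hmon : (Polynomial.C v * P).Monic := by
    rw [Polynomial.Monic, Polynomial.leadingCoeff_mul, Polynomial.leadingCoeff_C, hlead, hu]
  have hev' : (Polynomial.C v * P).eval (jf τ0) = 0 := by simp [hev]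
  refine IsIntegral.of_aeval_monic_of_isIntegral_coeff hmon ?_ (hev' ▸ isIntegral_zero) ?_
  · intro h0
    rw [hmon.natDegree_eq_zero.1 h0] at hev'
    simp at hev'
  · intro i
    rw [Polynomial.coeff_C_mul]
    exact hv.mul (hP1 i)

end Pool.Agent.P.MP_29cb78_nt.C
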