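import Pool.Agent.P.MP_29cb78_nt.C.Iface

/-!
The `q`-expansion principle and the abstract congruence of Kronecker and Hasse.
-/

namespace Pool.Agent.P.MP_29cb78_nt.C

open Set Polynomial
open scoped Classical Real Matrix MatrixGroups UpperHalfPlane

noncomputable section

namespace Key

theorem qcongr (hQ : QAPI) {f g : ℂ → ℂ} (hf : QInt f) (h : ∀ τ : ℂ, 0 < τ.im → f τ = g τ) :
    QInt g := by
  obtain ⟨M, hM, hf⟩ := hf
  exact ⟨M, hM, hQ.congr M f g hf h⟩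

/-- The ring of functions with integral expansions. -/
def QS (hQ : QAPI) : Subring (ℂ → ℂ) where
  carrier := {f | QInt f}
  mul_mem' := fun {f g} hf hg => hQ.mul' f g hf hg
  one_mem' := hQ.const 1 isIntegral_one
  add_mem' := fun {f g} hf hg => hQ.add' f g hf hg
  zero_mem' := hQ.const 0 isIntegral_zero
  neg_mem' := fun {f} hf =>
    qcongr hQ (hQ.mul' _ f (hQ.const (-1) isIntegral_one.neg) hf) fun τ _ => by simp

/-- Evaluation at a point. -/
def ev (hQ : QAPI) (τ : ℂ) : QS hQ →+* ℂ :=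
  (Pi.evalRingHom (fun _ : ℂ => ℂ) τ).comp (QS hQ).subtype

theorem ev_apply (hQ : QAPI) (τ : ℂ) (f : QS hQ) : ev hQ τ f = f.1 τ := rfl

theorem mob_one (τ : ℂ) : mob 1 τ = τ := by simp [mob]

theorem int_root {P : ℂ[X]} (hP : P.Monic) (hc : ∀ i, IsIntegral ℤ (P.coeff i)) {x : ℂ}
    (hx : P.eval x = 0) : IsIntegral ℤ x := by
  have hl : P ∈ Polynomial.lifts (algebraMap (integralClosure ℤ ℂ) ℂ) := by
    rw [Polynomial.lifts_iff_coeff_lifts]
    intro n
    exact ⟨⟨P.coeff n, hc n⟩, rfl⟩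
  obtain ⟨Q, hQ, -, hm⟩ := Polynomial.lifts_and_natDegree_eq_and_monic hl hP
  have h1 : IsIntegral (integralClosure ℤ ℂ) x := by
    refine ⟨Q, hm, ?_⟩
    rw [Polynomial.eval₂_eq_eval_map, hQ, hx]
  exact isIntegral_trans x h1

theorem int_eval {P : ℂ[X]} (hc : ∀ i, IsIntegral ℤ (P.coeff i)) {x : ℂ} (hx : IsIntegral ℤ x) :
    IsIntegral ℤ (P.eval x) := by
  rw [Polynomial.eval_eq_sum_range]
  exact IsIntegral.sum _ fun i _ => (hc i).mul (hx.pow i)

/-- The action on functions on the half plane. -/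
def act (hL : LATB) (B : SL(2, ℤ)) (h : ℍ → ℂ) : ℍ → ℂ := fun τ =>
  h ⟨mob B τ, hL.2.1 B τ (by rw [B.det_coe]; exact one_pos) τ.im_pos⟩

theorem act_act (hL : LATB) (B B' : SL(2, ℤ)) (hB : B * B' = 1) (h : ℍ → ℂ) :
    act hL B' (act hL B h) = h := by
  funext τ
  simp only [act]
  congr 1
  apply UpperHalfPlane.ext
  have := hL.2.2.1 B B' τ (by rw [B'.det_coe]; exact one_pos) τ.im_pos
  show mob B (mob B' τ) = τ
  rw [← this, ← Matrix.SpecialLinearGroup.coe_mul, hB]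
  exact mob_one τ

theorem isR_of (hQ : QAPI) {ι : Type} (F : ι → ℂ → ℂ)
    (hfin : (Set.range fun a => fun τ : ℍ => F a τ).Finite) (hq : ∀ a, QInt (F a)) (a : ι)
    (htr : ∀ A : Mat, A.det = 1 → ∃ (a' : ι) (μ : ℂ), μ ^ 12 = 1 ∧
      ∀ τ : ℂ, 0 < τ.im → F a (mob A τ) = μ * F a' τ) : IsR (F a) := by
  constructor
  · have h12 : {μ : ℂ | μ ^ 12 = 1}.Finite := by
      refine (Finset.finite_toSet (Polynomial.nthRoots 12 (1 : ℂ)).toFinset).subset ?_
      intro μ hμ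
      simpa [Polynomial.mem_nthRoots (show 0 < 12 by norm_num)] using hμ
    refine ((h12.prod hfin).image fun z => fun τ => z.1 * z.2 τ).subset ?_
    rintro _ ⟨A, rfl⟩
    obtain ⟨a', μ, hμ, h⟩ := htr A A.det_coe
    exact ⟨(μ, fun τ : ℍ => F a' τ), ⟨hμ, a', rfl⟩, funext fun τ => (h τ τ.im_pos).symm⟩
  · intro A
    obtain ⟨a', μ, hμ, h⟩ := htr A A.det_coe
    have hi : IsIntegral ℤ μ := IsIntegral.of_pow (n := 12) (by norm_num) (by
      rw [hμ]; exact isIntegral_one)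
    exact qcongr hQ (hQ.mul' _ _ (hQ.const μ hi) (hq a')) fun τ hτ => (h τ hτ).symm

theorem prod_erase_equiv {α M : Type} [Fintype α] [DecidableEq α] [CommMonoid M]
    (e : Equiv.Perm α) (g : α → M)
    (x : α) : ∏ x' ∈ Finset.univ.erase x, g (e x') = ∏ x' ∈ Finset.univ.erase (e x), g x' :=
  Finset.prod_equiv e (by simp) (by simp)

theorem sum_zero {R : Type} [CommRing R] {p : ℕ} (hp : 0 < p) (hR : (p : R) = 0) (U : R)
    (V G : Option (Fin p) → R) (h0 : U = V none) (h1 : ∀ i j, V (some i) = V (some j))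
    (h2 : ∀ i j, G (some i) = G (some j)) :
    ∑ x, (U - V x) * ∏ x' ∈ Finset.univ.erase x, G x' = 0 := by
  rw [Fintype.sum_option, h0, sub_self, zero_mul, zero_add]
  have key : ∀ i : Fin p, (V none - V (some i)) * ∏ x' ∈ Finset.univ.erase (some i), G x' =
      (V none - V (some ⟨0, hp⟩)) * ∏ x' ∈ Finset.univ.erase (some ⟨0, hp⟩), G x' := by
    intro i
    have h := prod_erase_equiv (Equiv.swap (some i) (some ⟨0, hp⟩)) G (some i)
    rw [Equiv.swap_apply_left] at h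
    rw [← h, h1 i ⟨0, hp⟩]
    congr 1
    refine Finset.prod_congr rfl fun x _ => ?_
    rw [Equiv.swap_apply_def]
    split_ifs with ha hb
    · rw [ha]; exact h2 _ _
    · rw [hb]; exact h2 _ _
    · rfl
  rw [Finset.sum_congr rfl fun i _ => key i, Finset.sum_const, Finset.card_univ, Fintype.card_fin,
    nsmul_eq_mul, hR, zero_mul]

theorem mem_span (hQ : QAPI) {c : ℂ} (hc : c ≠ 0) (hi : IsIntegral ℤ c) (f : QS hQ) :
    f ∈ Ideal.span {(⟨fun _ => c, hQ.const c hi⟩ : QS hQ)} ↔ QInt fun τ => f.1 τ / c := by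
  rw [Ideal.mem_span_singleton']
  constructor
  · rintro ⟨g, rfl⟩
    refine qcongr hQ g.2 fun τ _ => ?_
    show g.1 τ = g.1 τ * c / c
    field_simp
  · intro h
    refine ⟨⟨_, h⟩, Subtype.ext (funext fun τ => ?_)⟩
    show f.1 τ / c * c = f.1 τ
    field_simp

theorem q_sum (hQ : QAPI) {p : ℕ} (hp : p.Prime) (u : ℂ → ℂ) (v φ : Option (Fin p) → ℂ → ℂ)
    (y : ℂ) (hy : IsIntegral ℤ y) (hu : QInt u) (hv : ∀ x, QInt (v x)) (hφ : ∀ x, QInt (φ x))
    (h0 : QInt fun τ => (u τ - v none τ) / pi1 p)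
    (h1 : ∀ i i', QInt fun τ => (v (some i) τ - v (some i') τ) / pi1 p)
    (h2 : ∀ i i', QInt fun τ => (φ (some i) τ - φ (some i') τ) / pi1 p) :
    QInt fun τ => (∑ x, (u τ - v x τ) * ∏ x' ∈ Finset.univ.erase x, (y - φ x' τ)) / pi1 p := by
  obtain ⟨hne, hint, hdiv, -⟩ := hQ.pi_int p hp
  let I : Ideal (QS hQ) := Ideal.span {(⟨fun _ => pi1 p, hQ.const _ hint⟩ : QS hQ)}
  let U : QS hQ := ⟨u, hu⟩
  let V : Option (Fin p) → QS hQ := fun x => ⟨v x, hv x⟩
  let Φ : Option (Fin p) → QS hQ := fun x => ⟨φ x, hφ x⟩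
  let Y : QS hQ := ⟨fun _ => y, hQ.const y hy⟩
  have hmem : (∑ x, (U - V x) * ∏ x' ∈ Finset.univ.erase x, (Y - Φ x')) ∈ I := by
    rw [← Ideal.Quotient.eq_zero_iff_mem, map_sum]
    simp only [map_mul, map_prod, map_sub]
    refine sum_zero hp.pos ?_ _ (fun x => Ideal.Quotient.mk I (V x))
      (fun x => Ideal.Quotient.mk I Y - Ideal.Quotient.mk I (Φ x)) ?_ ?_ ?_
    · rw [← map_natCast (Ideal.Quotient.mk I), Ideal.Quotient.eq_zero_iff_mem,
        mem_span hQ hne hint]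
      exact qcongr hQ (hQ.const _ hdiv) fun τ _ => by simp
    · rw [Ideal.Quotient.eq, mem_span hQ hne hint]
      exact h0
    · intro i j
      rw [Ideal.Quotient.eq, mem_span hQ hne hint]
      exact h1 i j
    · intro i j
      have : Ideal.Quotient.mk I (Φ (some i)) = Ideal.Quotient.mk I (Φ (some j)) := by
        rw [Ideal.Quotient.eq, mem_span hQ hne hint]
        exact h2 i j
      simp only [this]
  rw [mem_span hQ hne hint] at hmem
  refine qcongr hQ hmem fun τ _ => ?_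
  congr 1
  rw [← ev_apply, map_sum]
  simp only [map_mul, map_prod, map_sub]
  rfl

end Key

open Key

theorem int_q : QAPI → LATB → POLYJ → INT := by
  intro hQ hL hJ f hf τ hτ hj
  obtain ⟨hfin, hq⟩ := hf
  let orb : SL(2, ℤ) → ℍ → ℂ := fun A τ => f (mob A τ)
  have hrep : ∀ h : ℍ → ℂ, ∃ A : SL(2, ℤ), h ∈ hfin.toFinset → orb A = h := by
    intro h
    by_cases hh : h ∈ hfin.toFinset
    · obtain ⟨A, hA⟩ := hfin.mem_toFinset.1 hh
      exact ⟨A, fun _ => hA⟩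
    · exact ⟨1, fun h' => absurd h' hh⟩
  choose rep hrep using hrep
  let P : (QS hQ)[X] := ∏ h ∈ hfin.toFinset, (X - C (⟨fun τ => f (mob (rep h) τ), hq _⟩ : QS hQ))
  have hP : ∀ z : ℍ, P.map (ev hQ z) = ∏ h ∈ hfin.toFinset, (X - C (h z)) := by
    intro z
    rw [Polynomial.map_prod]
    refine Finset.prod_congr rfl fun h hh => ?_
    rw [Polynomial.map_sub, Polynomial.map_X, Polynomial.map_C, ev_apply]
    exact congrArg (fun t => X - C t) (congrFun (hrep h hh) z)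
  have hact : ∀ (B : SL(2, ℤ)) h, h ∈ hfin.toFinset → act hL B h ∈ hfin.toFinset := by
    intro B h hh
    obtain ⟨A, rfl⟩ := hfin.mem_toFinset.1 hh
    refine hfin.mem_toFinset.2 ⟨A * B, funext fun z => ?_⟩
    simp only [act]
    rw [Matrix.SpecialLinearGroup.coe_mul,
      hL.2.2.1 A B z (by rw [B.det_coe]; exact one_pos) z.im_pos]
  have hinv : ∀ (B : Mat) (z : ℂ), B.det = 1 → 0 < z.im →
      P.map (ev hQ (mob B z)) = P.map (ev hQ z) := by
    intro B z hB hz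
    let B' : SL(2, ℤ) := ⟨B, hB⟩
    have h1 := hP ⟨mob B z, hL.2.1 B z (by rw [hB]; exact one_pos) hz⟩
    have h2 := hP ⟨z, hz⟩
    refine h1.trans (Eq.trans ?_ h2.symm)
    exact Finset.prod_nbij' (act hL B') (act hL B'⁻¹) (hact B') (hact B'⁻¹)
      (fun h _ => act_act hL _ _ (mul_inv_cancel B') h)
      (fun h _ => act_act hL _ _ (inv_mul_cancel B') h) fun h _ => rfl
  have hco : ∀ i, IsIntegral ℤ ((P.map (ev hQ τ)).coeff i) := by
    intro i
    obtain ⟨M, hM, n0, c, hc, hexp⟩ := (P.coeff i).2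
    obtain ⟨R, hR, hev, -⟩ := hJ (P.coeff i).1 M n0 c hM hc hexp fun A z hA hz => by
      have := congrArg (fun S : ℂ[X] => S.coeff i) (hinv A z hA hz)
      simpa only [Polynomial.coeff_map, ev_apply] using this
    rw [Polynomial.coeff_map, ev_apply, hev τ hτ]
    exact int_eval hR hj
  refine int_root (P := P.map (ev hQ τ)) ?_ hco ?_
  · exact (Polynomial.monic_prod_of_monic _ _ fun h _ => Polynomial.monic_X_sub_C _).map _
  · have h2 := hP ⟨τ, hτ⟩
    rw [show P.map (ev hQ τ) = _ from h2, Polynomial.eval_prod]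
    refine Finset.prod_eq_zero (i := orb 1) (hfin.mem_toFinset.2 ⟨1, rfl⟩) ?_
    simp [orb, mob_one]

theorem key : QAPI → LATB → INT → KEY := by
  intro hQ _ hI ι p u v φ hp hfu hfv htr hu hv hφ h0 h1 h2 τ P x0 hτ hj hP hpP hy hny a
  have iu : IsIntegral ℤ (u a τ) := by
    refine hI _ (isR_of hQ u hfu hu a fun A hA => ?_) τ hτ hj
    obtain ⟨a', μ, e, hμ, h⟩ := htr A hA a
    exact ⟨a', μ, hμ, fun z hz => (h z hz).1⟩
  have iv : ∀ x, IsIntegral ℤ (v a x τ) := by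
    intro x
    refine hI _ (isR_of hQ (fun b : ι × Option (Fin p) => v b.1 b.2) ?_ (fun b => hv _ _) (a, x)
      fun A hA => ?_) τ hτ hj
    · refine (Set.finite_iUnion hfv).subset ?_
      rintro _ ⟨b, rfl⟩
      exact Set.mem_iUnion.2 ⟨b.2, b.1, rfl⟩
    · obtain ⟨a', μ, e, hμ, h⟩ := htr A hA a
      exact ⟨(a', e x), μ, hμ, fun z hz => ((h z hz).2 x).1⟩
  have iφ : ∀ x, IsIntegral ℤ (φ x τ) := by
    intro x
    refine hI _ (isR_of hQ φ (Set.finite_range _) hφ x fun A hA => ?_) τ hτ hj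
    obtain ⟨a', μ, e, hμ, h⟩ := htr A hA a
    exact ⟨e x, 1, one_pow _, fun z hz => by rw [one_mul]; exact ((h z hz).2 x).2⟩
  let H : ι → ℂ → ℂ := fun b z =>
    (∑ x, (u b z - v b x z) * ∏ x' ∈ Finset.univ.erase x, (φ x0 τ - φ x' z)) / pi1 p
  have iH : IsIntegral ℤ (H a τ) := by
    refine hI _ (isR_of hQ H ?_ (fun b => q_sum hQ hp (u b) (v b) φ _ (iφ x0) (hu b) (hv b) hφ
      (h0 b) (h1 b) h2) a fun A hA => ?_) τ hτ hj
    · refine ((hfu.prod (Set.Finite.pi' hfv)).image fun w => fun z : ℍ =>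
        (∑ x, (w.1 z - w.2 x z) * ∏ x' ∈ Finset.univ.erase x, (φ x0 τ - φ x' z)) / pi1 p).subset ?_
      rintro _ ⟨b, rfl⟩
      exact ⟨(fun z : ℍ => u b z, fun x (z : ℍ) => v b x z), ⟨⟨b, rfl⟩, fun x => ⟨b, rfl⟩⟩, rfl⟩
    · obtain ⟨a', μ, e, hμ, h⟩ := htr A hA a
      refine ⟨a', μ, hμ, fun z hz => ?_⟩
      obtain ⟨e1, e2⟩ := h z hz
      simp only [H]
      rw [← mul_div_assoc, Finset.mul_sum, ← Equiv.sum_comp e fun x =>
        μ * ((u a' z - v a' x z) * ∏ x' ∈ Finset.univ.erase x, (φ x0 τ - φ x' z))]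
      congr 1
      refine Finset.sum_congr rfl fun x _ => ?_
      rw [← prod_erase_equiv e (fun x' => φ x0 τ - φ x' z) x, e1, (e2 x).1,
        Finset.prod_congr rfl fun x' _ => congrArg (fun t => φ x0 τ - t) (e2 x').2]
      ring
  obtain ⟨hne, hint, -, hpow⟩ := hQ.pi_int p hp
  obtain ⟨hpi, hpP⟩ := hpP
  have hp0 : (p : ℂ) ≠ 0 := Nat.cast_ne_zero.2 hp.ne_zero
  have hπ : (⟨pi1 p, hint⟩ : integralClosure ℤ ℂ) ∈ P := by
    refine hP.mem_of_pow_mem p ?_
    have : (⟨pi1 p, hint⟩ : integralClosure ℤ ℂ) ^ p = ⟨p, hpi⟩ * ⟨_, hpow⟩ := by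
      apply Subtype.ext
      show pi1 p ^ p = p * (pi1 p ^ p / p)
      field_simp
    rw [this]
    exact P.mul_mem_right _ hpP
  have hval : pi1 p * H a τ =
      (u a τ - v a x0 τ) * ∏ x' ∈ Finset.univ.erase x0, (φ x0 τ - φ x' τ) := by
    simp only [H]
    rw [mul_div_cancel₀ _ hne]
    refine Finset.sum_eq_single x0 (fun x _ hx => ?_) (by simp)
    rw [Finset.prod_eq_zero (i := x0) (by simpa using hx.symm) (sub_self _), mul_zero]
  let Φ : Option (Fin p) → integralClosure ℤ ℂ := fun x => ⟨φ x τ, iφ x⟩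
  have hmul : (⟨u a τ - v a x0 τ, iu.sub (iv x0)⟩ : integralClosure ℤ ℂ) *
      ∏ x' ∈ Finset.univ.erase x0, (Φ x0 - Φ x') ∈ P := by
    have : (⟨u a τ - v a x0 τ, iu.sub (iv x0)⟩ : integralClosure ℤ ℂ) *
        ∏ x' ∈ Finset.univ.erase x0, (Φ x0 - Φ x') = ⟨pi1 p, hint⟩ * ⟨H a τ, iH⟩ := by
      apply Subtype.ext
      rw [Subalgebra.coe_mul, Subalgebra.coe_mul, SubmonoidClass.coe_finsetProd]
      exact hval.symm
    rw [this]
    exact P.mul_mem_right _ hπ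
  rcases hP.mem_or_mem hmul with h | h
  · exact ⟨_, h⟩
  · obtain ⟨x, hx, hm⟩ := Ideal.IsPrime.prod_mem_iff.1 h
    obtain ⟨_, hy⟩ := hy
    refine absurd ⟨iφ x, ?_⟩ (hny x (Finset.ne_of_mem_erase hx))
    have := P.sub_mem (show Φ x0 ∈ P from hy) hm
    rwa [sub_sub_cancel] at this

end

end Pool.Agent.P.MP_29cb78_nt.C
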