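import Pool.Agent.P.MP_29cb78_nt.C.Iface

/-!
Kronecker's second limit formula from the Fourier expansion.
-/

namespace Pool.Agent.P.MP_29cb78_nt.C

open Filter Topology HurwitzZeta
open scoped Real

noncomputable section

namespace Klf

/-- `Z s = s H s / (s - 1)` with `H` entire and prescribed values at `0` and `1`. -/
def Std (Z : ℂ → ℂ) (d r : ℂ) : Prop :=
  ∃ H : ℂ → ℂ, Differentiable ℂ H ∧ (∀ s : ℂ, 1 < s.re → Z s = s * H s / (s - 1)) ∧
    H 0 = -d ∧ H 1 = r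

theorem Std.cont {Z : ℂ → ℂ} {d r : ℂ} (h : Std Z d r) : Cont Z d := by
  obtain ⟨H, h1, h2, h3, -⟩ := h
  have := cont_of_quot (a := Z) (g := H) (g' := fun s => s - 1) h1 (by fun_prop) (by simp) 0
    (fun s hs => by rw [h2 s hs]; simp)
  refine this.congr (fun _ _ => rfl) ?_
  simp [h3]

theorem Std.pole {Z : ℂ → ℂ} {d : ℂ} {r : ℝ} (h : Std Z d r) :
    ∃ C : ℝ, ∀ᶠ s : ℝ in 𝓝[>] 1, ‖Z s - ((r / (s - 1) : ℝ) : ℂ)‖ ≤ C := by
  obtain ⟨H, h1, h2, -, h4⟩ := h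
  have hd : DifferentiableAt ℂ (fun s => s * H s) 1 := by fun_prop
  obtain ⟨C, hC⟩ := hd.isBigO_sub.bound
  have ht : Tendsto (fun s : ℝ => (s : ℂ)) (𝓝[>] 1) (𝓝 1) :=
    (Complex.continuous_ofReal.tendsto' 1 1 (by simp)).mono_left nhdsWithin_le_nhds
  refine ⟨C, ?_⟩
  filter_upwards [ht.eventually hC, self_mem_nhdsWithin] with s hs hs1
  have hs1' : (1 : ℝ) < s := hs1
  have hne : (s : ℂ) - 1 ≠ 0 := by
    rw [sub_ne_zero]; exact_mod_cast hs1'.ne'
  rw [h2 s (by simpa using hs1')]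
  push_cast
  rw [← sub_div, norm_div, div_le_iff₀ (norm_pos_iff.mpr hne), ← h4]
  simpa using hs

theorem norm_ee (x : ℂ) : ‖ee x‖ = Real.exp (-(2 * π * x.im)) := by
  rw [ee, Complex.norm_exp]
  congr 1
  simp

theorem norm_sg (a b : ℝ) (τ : ℂ) :
    ‖sg a b τ‖ = Real.exp (-(π * (a ^ 2 - a + 1 / 6) * τ.im)) * ‖sgP (a * τ + b) τ‖ := by
  have e1 : ((a : ℂ) ^ 2 - a + 1 / 6) * τ / 2 = (((a ^ 2 - a + 1 / 6) / 2 : ℝ) : ℂ) * τ := by
    push_cast; ring
  have e2 : (b : ℂ) * (a - 1) / 2 = ((b * (a - 1) / 2 : ℝ) : ℂ) := by push_cast; ring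
  rw [sg, norm_mul, norm_mul, norm_neg, norm_ee, norm_ee, e1, e2, Complex.im_ofReal_mul,
    Complex.ofReal_im, mul_zero, neg_zero, Real.exp_zero, mul_one]
  congr 2
  ring

theorem coe_ne {a : ℝ} (h0 : 0 < a) (h1 : a < 1) : (a : UnitAddCircle) ≠ 0 := by
  intro h
  obtain ⟨n, hn⟩ := (AddCircle.coe_eq_zero_iff (1 : ℝ)).mp h
  rw [zsmul_eq_mul, mul_one] at hn
  rw [← hn] at h0 h1
  have h2 : (0 : ℤ) < n := by exact_mod_cast h0
  have h3 : n < (1 : ℤ) := by exact_mod_cast h1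
  omega

theorem lam_val {a : ℝ} (h0 : 0 < a) (h1 : a < 1) :
    completedHurwitzZetaEven₀ (a : UnitAddCircle) (-1) - 1 / 2 = π * (a ^ 2 - a + 1 / 6) := by
  have hpi : (π : ℂ) ≠ 0 := Complex.ofReal_ne_zero.mpr Real.pi_ne_zero
  have g : Complex.Gammaℝ (-1) = -2 * π := by
    have := Complex.Gammaℝ_add_two (s := -1) (by norm_num)
    rw [show (-1 : ℂ) + 2 = 1 by norm_num, Complex.Gammaℝ_one] at this
    field_simp at this
    linear_combination this
  have v := hurwitzZetaEven_one_sub_two_mul_nat (k := 1) (x := a) one_ne_zero ⟨h0.le, h1.le⟩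
  have e : (1 : ℂ) - 2 * ((1 : ℕ) : ℂ) = -1 := by norm_num
  have b2 : ((Polynomial.bernoulli (2 * 1)).map (algebraMap ℚ ℂ)).eval (a : ℂ) =
      a ^ 2 - a + 1 / 6 := by
    simp [Polynomial.bernoulli, Finset.sum_range_succ]
    ring
  rw [e, b2, hurwitzZetaEven_def_of_ne_or_ne (Or.inl (coe_ne h0 h1)), g,
    completedHurwitzZetaEven_eq, if_neg (coe_ne h0 h1)] at v
  field_simp at v
  linear_combination (-1 / 12 : ℂ) * v

theorem base (hS : SGT) (hA : KLFA) (hB : KLFB) {a : ℝ} (b : ℝ) {τ : ℂ} (h0 : 0 < a) (h1 : a < 1)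
    (hτ : 0 < τ.im) :
    Std (epst a b ![τ, 1]) (-(Real.log (‖sg a b τ‖ ^ 2) : ℝ)) ((π / τ.im : ℝ) : ℂ) := by
  have hpi : (π : ℂ) ≠ 0 := Complex.ofReal_ne_zero.mpr Real.pi_ne_zero
  have hy : (τ.im : ℂ) ≠ 0 := Complex.ofReal_ne_zero.mpr hτ.ne'
  obtain ⟨hB1, hB2⟩ := hB a b τ h0 h1 hτ
  refine ⟨fun s => (π : ℂ) ^ s * (Complex.Gamma (s + 1))⁻¹ *
    (2 * (τ.im : ℂ) ^ (1 - 2 * s) *
      ((s - 1) * completedHurwitzZetaEven₀ (a : UnitAddCircle) (2 * s - 1) + 1 / 2) +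
      (s - 1) * mellin (Wk a b τ) s), ?_, fun s hs => ?_, ?_, ?_⟩
  · have d1 : Differentiable ℂ fun s : ℂ => (π : ℂ) ^ s :=
      fun s => differentiableAt_id.const_cpow (Or.inl hpi)
    have d2 : Differentiable ℂ fun s : ℂ => (Complex.Gamma (s + 1))⁻¹ :=
      Complex.differentiable_one_div_Gamma.comp (differentiable_id.add_const 1)
    have d3 : Differentiable ℂ fun s : ℂ => (τ.im : ℂ) ^ (1 - 2 * s) :=
      fun s => DifferentiableAt.const_cpow (by fun_prop) (Or.inl hy)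
    have d4 : Differentiable ℂ fun s : ℂ =>
        completedHurwitzZetaEven₀ (a : UnitAddCircle) (2 * s - 1) :=
      (differentiable_completedHurwitzZetaEven₀ _).comp (by fun_prop)
    have d5 : Differentiable ℂ fun s : ℂ => s - 1 := by fun_prop
    exact (d1.mul d2).mul (((d3.const_mul 2).mul ((d5.mul d4).add_const _)).add (d5.mul hB1))
  · have e := hA a b τ s h0 h1 hτ hs
    have hs0 : s ≠ 0 := by rintro rfl; norm_num at hs
    have hs1 : s - 1 ≠ 0 := by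
      rw [sub_ne_zero]; rintro rfl; norm_num at hs
    have hG : Complex.Gamma s ≠ 0 := Complex.Gamma_ne_zero_of_re_pos (by linarith)
    have hR : Complex.Gammaℝ (2 * s - 1) ≠ 0 :=
      Complex.Gammaℝ_ne_zero_of_re_pos (by simp; linarith)
    have e1 : (π : ℂ) ^ (1 / 2 - s) * Complex.Gamma (s - 1 / 2) = Complex.Gammaℝ (2 * s - 1) := by
      rw [Complex.Gammaℝ_def]
      congr 2 <;> ring
    have e2 : (1 : ℂ) - (2 * s - 1) = -2 * (s - 1) := by ring
    have hp : (π : ℂ) ^ s ≠ 0 := by simp [hpi]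
    rw [e1, hurwitzZetaEven_def_of_ne_or_ne (Or.inl (coe_ne h0 h1)), completedHurwitzZetaEven_eq,
      if_neg (coe_ne h0 h1), e2, Complex.cpow_neg] at e
    beta_reduce
    rw [Complex.Gamma_add_one s hs0]
    rw [zero_div] at e
    generalize epst a b ![τ, 1] s = Z at e ⊢
    generalize completedHurwitzZetaEven₀ (a : UnitAddCircle) (2 * s - 1) = Λ at e ⊢
    generalize mellin (Wk a b τ) s = B at e ⊢
    generalize (τ.im : ℂ) ^ (1 - 2 * s) = Y at e ⊢
    generalize (π : ℂ) ^ s = P at e hp ⊢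
    generalize Complex.Gamma s = G at e hG ⊢
    generalize Complex.Gammaℝ (2 * s - 1) = R at e hR ⊢
    have e3 : Z = P * G⁻¹ * (G * P⁻¹ * Z) := by field_simp
    rw [e3, e]
    field_simp
    ring
  · have hne : sg a b τ ≠ 0 := (hS a b τ hτ).2.2.2.2 fun ⟨⟨m, hm⟩, _⟩ => by
      rw [hm] at h0 h1
      have h2 : (0 : ℤ) < m := by exact_mod_cast h0
      have h3 : m < (1 : ℤ) := by exact_mod_cast h1
      omega
    have hP : ‖sgP (a * τ + b) τ‖ ≠ 0 := fun h => by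
      rw [← norm_ne_zero_iff, norm_sg, h, mul_zero] at hne
      exact hne rfl
    have v := lam_val h0 h1
    rw [norm_sg, mul_pow, Real.log_mul (pow_ne_zero _ (Real.exp_ne_zero _)) (pow_ne_zero _ hP),
      Real.log_pow, Real.log_exp]
    simp only [Complex.cpow_zero, zero_add, Complex.Gamma_one, inv_one, mul_zero, sub_zero,
      Complex.cpow_one, zero_sub, hB2]
    push_cast
    linear_combination (-2 * (τ.im : ℂ)) * v
  · have g : Complex.Gamma (1 + 1) = 1 := by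
      rw [Complex.Gamma_add_one 1 one_ne_zero, Complex.Gamma_one, mul_one]
    have e : (1 : ℂ) - 2 * 1 = -1 := by norm_num
    simp only [g, e, Complex.cpow_one, Complex.cpow_neg_one, sub_self, zero_mul]
    push_cast
    field_simp
    ring

/-- The statement for a basis. -/
def T (a b : ℝ) (w : Fin 2 → ℂ) : Prop :=
  Std (epst a b w) (-(Real.log (‖sg a b (w 0 / w 1)‖ ^ 2) : ℝ))
    ((π / (‖w 1‖ ^ 2 * (w 0 / w 1).im) : ℝ) : ℂ)

theorem ne_one {w : Fin 2 → ℂ} (hw : Ori w) : w 1 ≠ 0 := fun h => by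
  simp [Ori, h] at hw

theorem ne_zero {w : Fin 2 → ℂ} (hw : Ori w) : w 0 ≠ 0 := fun h => by
  simp [Ori, h] at hw

theorem scale (a b : ℝ) {w : Fin 2 → ℂ} (hw : Ori w) (s : ℂ) :
    epst a b w s = epst a b ![w 0 / w 1, 1] s * ((‖w 1‖ ^ 2 : ℝ) : ℂ) ^ (-s) := by
  unfold epst
  rw [← tsum_mul_right]
  refine tsum_congr fun m => ?_
  rw [← Complex.mul_cpow_ofReal_nonneg (by positivity) (by positivity), ← Complex.ofReal_mul,
    ← mul_pow, ← norm_mul]
  have := ne_one hw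
  congr 4
  simp only [Matrix.cons_val_zero, Matrix.cons_val_one]
  field_simp

theorem frac (hS : SGT) (hA : KLFA) (hB : KLFB) {a : ℝ} (b : ℝ) {w : Fin 2 → ℂ} (h0 : 0 < a)
    (h1 : a < 1) (hw : Ori w) : T a b w := by
  obtain ⟨H, k1, k2, k3, k4⟩ := base hS hA hB b h0 h1 hw
  have hn : ‖w 1‖ ≠ 0 := norm_ne_zero_iff.mpr (ne_one hw)
  have hc : ((‖w 1‖ ^ 2 : ℝ) : ℂ) ≠ 0 := Complex.ofReal_ne_zero.mpr (pow_ne_zero _ hn)
  refine ⟨fun s => H s * ((‖w 1‖ ^ 2 : ℝ) : ℂ) ^ (-s), k1.mul fun s =>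
    DifferentiableAt.const_cpow (by fun_prop) (Or.inl hc), fun s hs => ?_, ?_, ?_⟩
  · rw [scale a b hw, k2 s hs]; ring
  · simp only [neg_zero, Complex.cpow_zero, mul_one, k3]
  · simp only [Complex.cpow_neg_one, k4]
    rw [← Complex.ofReal_inv, ← Complex.ofReal_mul]
    congr 1
    have : (w 0 / w 1).im ≠ 0 := ne_of_gt hw
    field_simp

theorem epst_shift (a b : ℝ) (k : ℤ) (w : Fin 2 → ℂ) : epst (a + k) b w = epst a b w := by
  funext s
  unfold epst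
  rw [← ((Equiv.addLeft k).prodCongr (Equiv.refl ℤ)).tsum_eq
    fun m : ℤ × ℤ => ((‖(a + m.1) * w 0 + (b + m.2) * w 1‖ ^ 2 : ℝ) : ℂ) ^ (-s)]
  refine tsum_congr fun m => ?_
  simp only [Equiv.prodCongr_apply, Prod.map_fst, Prod.map_snd, Equiv.coe_addLeft, Equiv.coe_refl,
    id]
  congr 4
  push_cast
  ring

theorem sg_shift (hS : SGT) (a b : ℝ) {τ : ℂ} (hτ : 0 < τ.im) (k : ℤ) :
    ‖sg (a + k) b τ‖ = ‖sg a b τ‖ := by
  have st : ∀ c : ℝ, ‖sg (c + 1) b τ‖ = ‖sg c b τ‖ := fun c => by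
    rw [(hS c b τ hτ).2.2.1, norm_mul, norm_neg, norm_ee]
    simp
  induction k using Int.induction_on with
  | zero => simp
  | succ n ih =>
    rw [← ih, ← st (a + ((n : ℤ) : ℝ))]
    congr 2
    push_cast
    ring
  | pred n ih =>
    rw [← ih, ← st (a + ((-(n : ℤ) - 1 : ℤ) : ℝ))]
    congr 2
    push_cast
    ring

theorem nonint (hS : SGT) (hA : KLFA) (hB : KLFB) {a : ℝ} (b : ℝ) {w : Fin 2 → ℂ}
    (ha : ¬ ∃ m : ℤ, a = m) (hw : Ori w) : T a b w := by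
  have h0 : 0 < Int.fract a := Int.fract_pos.mpr fun h => ha ⟨_, h⟩
  have h := frac hS hA hB b h0 (Int.fract_lt_one a) hw
  unfold T at h ⊢
  rw [← epst_shift _ _ ⌊a⌋, ← sg_shift hS _ _ hw ⌊a⌋, Int.fract_add_floor] at h
  exact h

theorem covol {u v : ℂ} (hv : v ≠ 0) : ‖v‖ ^ 2 * (u / v).im = u.im * v.re - u.re * v.im := by
  have : Complex.normSq v ≠ 0 := by simpa using hv
  rw [Complex.div_im, Complex.sq_norm]
  field_simp

theorem swap (hS : SGT) {a b : ℝ} {w : Fin 2 → ℂ} (hw : Ori w)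
    (h : Ori ![w 1, -w 0] → T b (-a) ![w 1, -w 0]) : T a b w := by
  have h0 := ne_zero hw
  have h1 := ne_one hw
  have hc : ‖-w 0‖ ^ 2 * (w 1 / -w 0).im = ‖w 1‖ ^ 2 * (w 0 / w 1).im := by
    rw [covol (neg_ne_zero.mpr h0), covol h1]
    simp only [Complex.neg_re, Complex.neg_im]
    ring
  have hτ : 0 < (w 1 / -w 0).im := by
    have hw' : 0 < (w 0 / w 1).im := hw
    have p1 : 0 < ‖w 1‖ := norm_pos_iff.mpr h1
    have p2 : 0 < ‖-w 0‖ ^ 2 * (w 1 / -w 0).im := by rw [hc]; positivity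
    exact (mul_pos_iff_of_pos_left (pow_pos (norm_pos_iff.mpr (neg_ne_zero.mpr h0)) 2)).mp p2
  have h' := h hτ
  have e1 : epst b (-a) ![w 1, -w 0] = epst a b w := by
    funext s
    unfold epst
    rw [← ((Equiv.prodComm ℤ ℤ).trans ((Equiv.neg ℤ).prodCongr (Equiv.refl ℤ))).tsum_eq
      fun m : ℤ × ℤ => ((‖(a + m.1) * w 0 + (b + m.2) * w 1‖ ^ 2 : ℝ) : ℂ) ^ (-s)]
    refine tsum_congr fun m => ?_
    simp only [Equiv.trans_apply, Equiv.prodComm_apply, Equiv.prodCongr_apply, Prod.map_fst,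
      Prod.map_snd, Prod.fst_swap, Prod.snd_swap, Equiv.neg_apply, Equiv.coe_refl, id,
      Matrix.cons_val_zero, Matrix.cons_val_one]
    congr 4
    push_cast
    ring
  have e2 : ‖sg b (-a) (w 1 / -w 0)‖ = ‖sg a b (w 0 / w 1)‖ := by
    have := (hS a b _ hτ).2.1
    rw [show -1 / (w 1 / -w 0) = w 0 / w 1 by field_simp] at this
    rw [this, norm_mul, norm_neg, Complex.norm_I, one_mul]
  unfold T at h' ⊢
  simp only [Matrix.cons_val_zero, Matrix.cons_val_one] at h'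
  rw [e1, e2, hc] at h'
  exact h'

end Klf

theorem klf : SGT → KLFA → KLFB → KLF := by
  intro hS hA hB a b w hw hab
  have hT : Klf.T a b w := by
    by_cases ha : ∃ m : ℤ, a = m
    · exact Klf.swap hS hw fun hw' => Klf.nonint hS hA hB _ (fun hb => hab ⟨ha, hb⟩) hw'
    · exact Klf.nonint hS hA hB b ha hw
  exact ⟨hT.cont, hT.pole⟩

end

end Pool.Agent.P.MP_29cb78_nt.C
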