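import Pool.Agent.P.MP_29cb78_nt.C.Iface

/-!
Fourier expansion of the shifted Epstein zeta function.
-/

namespace Pool.Agent.P.MP_29cb78_nt.C

open Set Filter Topology MeasureTheory HurwitzZeta
open scoped Real

noncomputable section

namespace Klfa

/-- A series of integrable functions with summable norms is integrable. -/
lemma integrable_tsum {ι α : Type} [Countable ι] [MeasurableSpace α] {μ : Measure α}
    {F : ι → α → ℂ} (hI : ∀ i, Integrable (F i) μ) (hS : Summable fun i => ∫ x, ‖F i x‖ ∂μ) :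
    Integrable (fun x => ∑' i, F i x) μ := by
  refine ⟨AEStronglyMeasurable.tsum fun i => (hI i).1, ?_⟩
  have h1 : ∫⁻ x, ‖∑' i, F i x‖ₑ ∂μ ≤ ∑' i, ∫⁻ x, ‖F i x‖ₑ ∂μ := by
    rw [← lintegral_tsum fun i => (hI i).1.enorm]
    exact lintegral_mono fun x => enorm_tsum_le_tsum_enorm
  refine lt_of_le_of_lt h1 (lt_top_iff_ne_top.2 ?_)
  have h2 (i : ι) : ∫⁻ x, ‖F i x‖ₑ ∂μ = ‖∫ x, ‖F i x‖ ∂μ‖ₑ := by
    rw [← ofReal_integral_norm_eq_lintegral_enorm (hI i), Real.enorm_eq_ofReal]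
    exact integral_nonneg fun _ => norm_nonneg _
  rw [funext h2]
  exact ENNReal.tsum_coe_ne_top_iff_summable.2 <| NNReal.summable_coe.1 hS.abs

/-- Convergence of the Mellin transform of a series of exponentials. -/
lemma conv {ι : Type} [Countable ι] {p : ι → ℝ} {F : ℝ → ℂ} {s : ℂ}
    (hp : ∀ i, 0 < p i) (hs : 0 < s.re)
    (hF : ∀ t ∈ Ioi (0 : ℝ), HasSum (fun i => (Real.exp (-p i * t) : ℂ)) (F t))
    (hS : Summable fun i => 1 / p i ^ s.re) : MellinConvergent F s := by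
  have hI (i : ι) : IntegrableOn (fun t : ℝ => (t : ℂ) ^ (s - 1) * (Real.exp (-p i * t) : ℂ))
      (Ioi 0) := by
    have hpi := hp i
    have := Complex.GammaIntegral_convergent hs
    rw [← mul_zero (p i), ← integrableOn_Ioi_comp_mul_left_iff _ _ hpi] at this
    refine IntegrableOn.congr_fun (this.const_mul (1 / (p i : ℂ) ^ (s - 1)))
      (fun t (ht : 0 < t) => ?_) measurableSet_Ioi
    simp_rw [mul_comm (↑(Real.exp _) : ℂ), ← mul_assoc, neg_mul, Complex.ofReal_mul]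
    rw [Complex.mul_cpow_ofReal_nonneg hpi.le ht.le, ← mul_assoc, one_div, inv_mul_cancel₀,
      one_mul]
    rw [Ne, Complex.cpow_eq_zero_iff, not_and_or]
    exact Or.inl (Complex.ofReal_ne_zero.mpr hpi.ne')
  have hN : Summable fun i =>
      ∫ t in Ioi (0 : ℝ), ‖(t : ℂ) ^ (s - 1) * (Real.exp (-p i * t) : ℂ)‖ := by
    refine (hS.mul_left (Real.Gamma s.re)).congr fun i => ?_
    have := Real.integral_rpow_mul_exp_neg_mul_Ioi hs (hp i)
    rw [Real.div_rpow zero_le_one (hp i).le, Real.one_rpow, mul_comm] at this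
    rw [← this]
    refine setIntegral_congr_fun measurableSet_Ioi fun t ht => ?_
    rw [norm_mul, Complex.norm_real, Real.norm_eq_abs, Real.abs_exp,
      Complex.norm_cpow_eq_rpow_re_of_pos ht, Complex.sub_re, Complex.one_re, neg_mul]
  refine IntegrableOn.congr_fun (integrable_tsum hI hN) (fun t ht => ?_) measurableSet_Ioi
  simp only [smul_eq_mul]
  rw [tsum_mul_left, (hF t ht).tsum_eq]

/-- Mellin transform of a series of exponentials. -/
lemma mel {ι : Type} [Countable ι] {q : ι → ℝ} {F : ℝ → ℂ} {s : ℂ}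
    (hq : ∀ i, 0 < q i) (hs : 0 < s.re)
    (hF : ∀ t ∈ Ioi (0 : ℝ), HasSum (fun i => (Real.exp (-π * q i * t) : ℂ)) (F t))
    (hS : Summable fun i => 1 / q i ^ s.re) :
    MellinConvergent F s ∧
      HasSum (fun i => (π : ℂ) ^ (-s) * Complex.Gamma s * (q i : ℂ) ^ (-s)) (mellin F s) := by
  constructor
  · refine conv (p := fun i => π * q i) (fun i => mul_pos Real.pi_pos (hq i)) hs
      (fun t ht => by simpa only [neg_mul] using hF t ht) ?_
    refine (hS.mul_left (1 / π ^ s.re)).congr fun i => ?_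
    rw [Real.mul_rpow Real.pi_pos.le (hq i).le, one_div_mul_one_div]
  · have := hasSum_mellin_pi_mul (a := fun _ => 1) (q := q) (F := F) (fun i => Or.inr (hq i)) hs
      (fun t ht => by simpa only [one_mul] using hF t ht) (by simpa only [norm_one] using hS)
    refine this.congr_fun fun i => ?_
    rw [Complex.cpow_neg (q i : ℂ), mul_one, div_eq_mul_inv]

/-- Summability of the exponentials. -/
lemma summable_exp {ι : Type} {q : ι → ℝ} (hq : ∀ i, 0 < q i)
    (hS : Summable fun i => 1 / q i ^ (2 : ℝ)) {t : ℝ} (ht : 0 < t) :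
    Summable fun i => Real.exp (-π * q i * t) := by
  refine Summable.of_nonneg_of_le (fun i => (Real.exp_pos _).le) (fun i => ?_)
    (hS.mul_left (2 / (π * t) ^ 2))
  have h1 : 0 < π * q i * t := mul_pos (mul_pos Real.pi_pos (hq i)) ht
  have h2 := Real.quadratic_le_exp_of_nonneg h1.le
  have h3 : (π * q i * t) ^ 2 / 2 ≤ Real.exp (π * q i * t) := by linarith
  have h4 : 0 < (π * q i * t) ^ 2 / 2 := by positivity
  rw [show -π * q i * t = -(π * q i * t) by ring, Real.exp_neg, Real.rpow_two]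
  refine (inv_anti₀ h4 h3).trans (le_of_eq ?_)
  have := hq i
  have := Real.pi_pos
  field_simp

lemma abs_lb {a : ℝ} (h0 : 0 < a) (h1 : a < 1) (m : ℤ) : a * (1 - a) ≤ |m + a| := by
  rcases le_or_gt 0 m with h | h
  · have : (0 : ℝ) ≤ m := by exact_mod_cast h
    rw [abs_of_nonneg (by linarith)]
    nlinarith
  · have : (m : ℝ) ≤ -1 := by exact_mod_cast Int.le_sub_one_of_lt h
    rw [abs_of_nonpos (by linarith)]
    nlinarith

/-- The quadratic form. -/
def qq (a b x y : ℝ) (m : ℤ × ℤ) : ℝ := (m.2 + ((m.1 + a) * x + b)) ^ 2 + ((m.1 + a) * y) ^ 2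

lemma ne_zero {a : ℝ} (h0 : 0 < a) (h1 : a < 1) (m : ℤ) : (m : ℝ) + a ≠ 0 := by
  have h := abs_lb h0 h1 m
  have : 0 < a * (1 - a) := mul_pos h0 (by linarith)
  exact abs_pos.1 (by linarith)

lemma yy_pos {a y : ℝ} (h0 : 0 < a) (h1 : a < 1) (hy : 0 < y) (m : ℤ) :
    0 < ((m + a) * y) ^ 2 :=
  sq_pos_of_ne_zero (mul_ne_zero (ne_zero h0 h1 m) hy.ne')

lemma qq_pos {a b x y : ℝ} (h0 : 0 < a) (h1 : a < 1) (hy : 0 < y) (m : ℤ × ℤ) :
    0 < qq a b x y m := by
  have := yy_pos h0 h1 hy m.1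
  unfold qq
  positivity

lemma qq_lb {a b x y : ℝ} (h0 : 0 < a) (h1 : a < 1) (hy : 0 < y) :
    ∃ K : ℝ, 0 < K ∧ ∀ m : ℤ × ℤ, |m.1 + a| * |m.2 + a| ≤ K * qq a b x y m := by
  set d := a * (1 - a) with hd
  have hd0 : 0 < d := mul_pos h0 (by linarith)
  refine ⟨1 / y ^ 2 + (3 + 3 * x ^ 2 / y ^ 2) + 3 * (a - b) ^ 2 / (d ^ 2 * y ^ 2),
    by positivity, fun m => ?_⟩
  set u : ℝ := m.1 + a with hu
  set v : ℝ := m.2 + (u * x + b) with hv
  have hq : qq a b x y m = v ^ 2 + (u * y) ^ 2 := rfl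
  set Q := qq a b x y m
  have hdu : d ^ 2 ≤ u ^ 2 := by
    rw [← sq_abs u]
    exact pow_le_pow_left₀ hd0.le (abs_lb h0 h1 m.1) 2
  have e1 : u ^ 2 ≤ 1 / y ^ 2 * Q := by
    rw [one_div, ← div_eq_inv_mul, le_div_iff₀ (by positivity)]
    nlinarith [sq_nonneg v]
  have e2 : v ^ 2 ≤ Q := by nlinarith [sq_nonneg (u * y)]
  have e3 : (u * x) ^ 2 ≤ x ^ 2 / y ^ 2 * Q := by
    have := mul_le_mul_of_nonneg_left e1 (sq_nonneg x)
    calc (u * x) ^ 2 = x ^ 2 * u ^ 2 := by ring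
      _ ≤ x ^ 2 * (1 / y ^ 2 * Q) := this
      _ = _ := by ring
  have e4 : (a - b) ^ 2 ≤ (a - b) ^ 2 / (d ^ 2 * y ^ 2) * Q := by
    have h5 : 1 ≤ 1 / (d ^ 2 * y ^ 2) * Q := by
      rw [one_div, ← div_eq_inv_mul, le_div_iff₀ (by positivity)]
      nlinarith [sq_nonneg v, mul_le_mul_of_nonneg_right hdu (sq_nonneg y)]
    have := mul_le_mul_of_nonneg_left h5 (sq_nonneg (a - b))
    calc (a - b) ^ 2 = (a - b) ^ 2 * 1 := by ring
      _ ≤ (a - b) ^ 2 * (1 / (d ^ 2 * y ^ 2) * Q) := this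
      _ = _ := by ring
  have e5 : ((m.2 : ℝ) + a) ^ 2 ≤ 3 * (v ^ 2 + (u * x) ^ 2 + (a - b) ^ 2) := by
    have : (m.2 : ℝ) + a = v - u * x + (a - b) := by rw [hv]; ring
    rw [this]
    nlinarith [sq_nonneg (v + u * x), sq_nonneg (v - (a - b)), sq_nonneg (u * x + (a - b))]
  have e6 : |u| * |m.2 + a| ≤ u ^ 2 + ((m.2 : ℝ) + a) ^ 2 := by
    rw [← sq_abs u, ← sq_abs ((m.2 : ℝ) + a)]
    nlinarith [sq_nonneg (|u| - |(m.2 : ℝ) + a|), abs_nonneg u, abs_nonneg ((m.2 : ℝ) + a),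
      mul_nonneg (abs_nonneg u) (abs_nonneg ((m.2 : ℝ) + a))]
  calc |u| * |m.2 + a| ≤ 1 / y ^ 2 * Q + 3 * (Q + x ^ 2 / y ^ 2 * Q +
        (a - b) ^ 2 / (d ^ 2 * y ^ 2) * Q) := by linarith
    _ = _ := by ring

lemma summable_qq {a b x y σ : ℝ} (h0 : 0 < a) (h1 : a < 1) (hy : 0 < y) (hσ : 1 < σ) :
    Summable fun m : ℤ × ℤ => 1 / qq a b x y m ^ σ := by
  obtain ⟨K, hK, h⟩ := qq_lb (b := b) (x := x) h0 h1 hy
  have hs := (Real.summable_one_div_int_add_rpow a σ).2 hσ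
  have h2 := (hs.mul_of_nonneg hs (fun _ => by positivity) fun _ => by positivity).mul_left (K ^ σ)
  refine Summable.of_nonneg_of_le (fun m => ?_) (fun m => ?_) h2
  · have := qq_pos (b := b) (x := x) h0 h1 hy m
    positivity
  · have hq := qq_pos (b := b) (x := x) h0 h1 hy m
    have u1 := abs_pos.2 (ne_zero h0 h1 m.1)
    have u2 := abs_pos.2 (ne_zero h0 h1 m.2)
    have h3 := Real.rpow_le_rpow (by positivity) (h m) (by linarith : 0 ≤ σ)
    rw [Real.mul_rpow u1.le u2.le, Real.mul_rpow hK.le hq.le] at h3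
    rw [one_div_mul_one_div, mul_one_div, div_le_div_iff₀ (by positivity) (by positivity), one_mul]
    exact h3

lemma summable_yy {y σ : ℝ} (a : ℝ) (hy : 0 < y) (hσ : 1 / 2 < σ) :
    Summable fun m : ℤ => 1 / (((m + a) * y) ^ 2) ^ σ := by
  have hs := (Real.summable_one_div_int_add_rpow a (2 * σ)).2 (by linarith)
  refine (hs.mul_right (1 / y ^ (2 * σ))).congr fun m => ?_
  rw [one_div_mul_one_div, ← Real.mul_rpow (abs_nonneg _) hy.le, ← sq_abs, abs_mul, abs_of_pos hy,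
    ← Real.rpow_natCast_mul (by positivity)]
  norm_num

/-- The theta series. -/
def th (a b x y t : ℝ) : ℂ := ∑' m : ℤ × ℤ, (Real.exp (-π * qq a b x y m * t) : ℂ)

/-- The one dimensional theta series. -/
def g1 (a y t : ℝ) : ℂ := ∑' m : ℤ, (Real.exp (-π * ((m + a) * y) ^ 2 * t) : ℂ)

lemma hasSum_th {a b x y t : ℝ} (h0 : 0 < a) (h1 : a < 1) (hy : 0 < y) (ht : 0 < t) :
    HasSum (fun m : ℤ × ℤ => (Real.exp (-π * qq a b x y m * t) : ℂ)) (th a b x y t) :=
  (Complex.summable_ofReal.2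
    (summable_exp (qq_pos h0 h1 hy) (summable_qq h0 h1 hy one_lt_two) ht)).hasSum

lemma summable_g1 {a y t : ℝ} (h0 : 0 < a) (h1 : a < 1) (hy : 0 < y) (ht : 0 < t) :
    Summable fun m : ℤ => Real.exp (-π * ((m + a) * y) ^ 2 * t) :=
  summable_exp (yy_pos h0 h1 hy) (summable_yy a hy (by norm_num)) ht

lemma hasSum_g1 {a y t : ℝ} (h0 : 0 < a) (h1 : a < 1) (hy : 0 < y) (ht : 0 < t) :
    HasSum (fun m : ℤ => (Real.exp (-π * ((m + a) * y) ^ 2 * t) : ℂ)) (g1 a y t) :=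
  (Complex.summable_ofReal.2 (summable_g1 h0 h1 hy ht)).hasSum

lemma norm_ee (r : ℝ) : ‖ee (r : ℂ)‖ = 1 := by
  have : 2 * π * Complex.I * (r : ℂ) = ((2 * π * r : ℝ) : ℂ) * Complex.I := by
    push_cast; ring
  rw [ee, this, Complex.norm_exp_ofReal_mul_I]

/-- The term of the nonconstant part. -/
def wt (a b x y t : ℝ) (m : ℤ × {k : ℤ // k ≠ 0}) : ℂ :=
  ee ((m.2.1 * ((m.1 + a) * x + b) : ℝ) : ℂ) *
    ((t ^ (-(1 / 2) : ℝ) * Real.exp (-π * t * ((m.1 + a) * y) ^ 2 - π * m.2.1 ^ 2 / t) : ℝ) : ℂ)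

lemma exp_split (c k t : ℝ) : Real.exp (-π * t * c - π * k ^ 2 / t) =
    Real.exp (-π * c * t) * Real.exp (-π * k ^ 2 * (1 / t)) := by
  rw [← Real.exp_add]
  congr 1
  ring

lemma summable_wt {a b x y t : ℝ} (h0 : 0 < a) (h1 : a < 1) (hy : 0 < y) (ht : 0 < t) :
    Summable (wt a b x y t) := by
  have s1 := summable_g1 h0 h1 hy ht
  have s2 : Summable fun k : ℤ => Real.exp (-π * (k : ℝ) ^ 2 * (1 / t)) := by
    simpa only [add_zero] using (hasSum_int_evenKernel 0 (one_div_pos.2 ht)).summable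
  have s3 : Summable fun k : {k : ℤ // k ≠ 0} => Real.exp (-π * (k.1 : ℝ) ^ 2 * (1 / t)) :=
    s2.subtype _
  have s4 := (s1.mul_of_nonneg s3 (fun _ => (Real.exp_pos _).le)
    fun _ => (Real.exp_pos _).le).mul_left (t ^ (-(1 / 2) : ℝ))
  refine Summable.of_norm (s4.congr fun m => ?_)
  rw [wt, norm_mul, norm_ee, one_mul, Complex.norm_real, Real.norm_of_nonneg (by positivity),
    exp_split]

lemma hasSum_wt_fiber {a b x y t : ℝ} (ht : 0 < t) (m : ℤ) :
    HasSum (fun k => wt a b x y t (m, k))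
      (((t ^ (-(1 / 2) : ℝ) * Real.exp (-π * ((m + a) * y) ^ 2 * t) : ℝ) : ℂ) *
        ((cosKernel (((m + a) * x + b : ℝ) : UnitAddCircle) (1 / t) : ℂ) - 1)) := by
  have h := hasSum_int_cosKernel₀ ((m + a) * x + b) (one_div_pos.2 ht)
  rw [← hasSum_subtype_iff_of_support_subset (s := {k : ℤ | k ≠ 0})
    (fun k hk hk0 => hk (if_pos hk0))] at h
  refine (h.mul_left _).congr_fun fun k => ?_
  have hk : (k.1 : ℤ) ≠ 0 := k.2
  simp only [Function.comp, if_neg hk, wt, ee, exp_split]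
  push_cast
  ring_nf

lemma hasSum_th_fiber {a b x y t : ℝ} (ht : 0 < t) (m : ℤ) :
    HasSum (fun n : ℤ => (Real.exp (-π * qq a b x y (m, n) * t) : ℂ))
      (((t ^ (-(1 / 2) : ℝ) * Real.exp (-π * ((m + a) * y) ^ 2 * t) : ℝ) : ℂ) *
        (cosKernel (((m + a) * x + b : ℝ) : UnitAddCircle) (1 / t) : ℂ)) := by
  have h := (hasSum_int_evenKernel ((m + a) * x + b) ht).mul_left
    (Real.exp (-π * ((m + a) * y) ^ 2 * t))
  rw [evenKernel_functional_equation] at h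
  rw [← Complex.ofReal_mul, Complex.hasSum_ofReal, Real.rpow_neg ht.le, ← one_div,
    mul_comm (1 / _), mul_assoc]
  refine h.congr_fun fun n => ?_
  rw [← Real.exp_add, qq]
  congr 1
  ring

lemma th_eq {a b t : ℝ} {τ : ℂ} (h0 : 0 < a) (h1 : a < 1) (hy : 0 < τ.im) (ht : 0 < t) :
    Wk a b τ t = th a b τ.re τ.im t - (t : ℂ) ^ (-(1 / 2) : ℂ) • g1 a τ.im t := by
  have e1 := (hasSum_th (b := b) (x := τ.re) h0 h1 hy ht).prod_fiberwise (hasSum_th_fiber ht)
  have e2 := (summable_wt (b := b) (x := τ.re) h0 h1 hy ht).hasSum.prod_fiberwise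
    (hasSum_wt_fiber ht)
  have e3 := (hasSum_g1 h0 h1 hy ht).mul_left ((t : ℂ) ^ (-(1 / 2) : ℂ))
  refine e2.unique ((e1.sub e3).congr_fun fun m => ?_)
  rw [Complex.ofReal_mul, Complex.ofReal_cpow ht.le]
  push_cast
  ring

end Klfa

open Klfa in
theorem klfa : KLFA := by
  intro a b τ s h0 h1 hy hs
  have hs2 : 1 / 2 < (s - 1 / 2).re := by
    rw [Complex.sub_re]
    norm_num
    linarith
  obtain ⟨c1, m1⟩ := mel (F := th a b τ.re τ.im) (s := s) (qq_pos h0 h1 hy) (by linarith)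
    (fun t ht => hasSum_th h0 h1 hy ht) (summable_qq h0 h1 hy hs)
  obtain ⟨c2, m2⟩ := mel (F := g1 a τ.im) (s := s - 1 / 2) (yy_pos h0 h1 hy) (by linarith)
    (fun t ht => hasSum_g1 h0 h1 hy ht) (summable_yy a hy hs2)
  have hsum : s + -(1 / 2) = s - 1 / 2 := by ring
  have c3 : MellinConvergent (fun t : ℝ => (t : ℂ) ^ (-(1 / 2) : ℂ) • g1 a τ.im t) s := by
    rw [MellinConvergent.cpow_smul, hsum]
    exact c2
  have hW : mellin (Wk a b τ) s = mellin (th a b τ.re τ.im) s - mellin (g1 a τ.im) (s - 1 / 2) := by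
    rw [← hsum, ← mellin_cpow_smul, ← (hasMellin_sub c1 c3).2]
    refine setIntegral_congr_fun measurableSet_Ioi fun t ht => ?_
    simp only
    rw [th_eq h0 h1 hy ht]
  have hE : mellin (th a b τ.re τ.im) s =
      Complex.Gamma s * (π : ℂ) ^ (-s) * epst a b ![τ, 1] s := by
    rw [← m1.tsum_eq, tsum_mul_left, mul_comm (Complex.Gamma s), epst]
    congr 1
    refine tsum_congr fun m => ?_
    congr 2
    rw [Complex.sq_norm, Complex.normSq_apply, qq]
    simp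
    ring
  have hs3 : 1 < (2 * s - 1).re := by
    rw [Complex.sub_re]
    norm_num
    linarith
  have hZ := ((hasSum_int_hurwitzZetaEven a hs3).mul_left 2).mul_left
    ((π : ℂ) ^ (1 / 2 - s) * Complex.Gamma (s - 1 / 2) * (τ.im : ℂ) ^ (1 - 2 * s))
  have hG := m2.unique (hZ.congr_fun fun m => by
    have u1 := abs_pos.2 (Klfa.ne_zero h0 h1 m)
    have e1 : (((((m : ℝ) + a) * τ.im) ^ 2 : ℝ) : ℂ) ^ (-(s - 1 / 2)) =
        ((|m + a| : ℝ) : ℂ) ^ (1 - 2 * s) * (τ.im : ℂ) ^ (1 - 2 * s) := by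
      rw [← Complex.mul_cpow_ofReal_nonneg u1.le hy.le, ← Complex.ofReal_mul, ← sq_abs, abs_mul,
        abs_of_pos hy, Complex.ofReal_pow, ← Complex.cpow_nat_mul']
      · congr 1
        push_cast
        ring
      all_goals
        rw [Complex.arg_ofReal_of_nonneg (by positivity)]
        linarith [Real.pi_pos]
    rw [e1, neg_sub, show 1 - 2 * s = -(2 * s - 1) by ring, Complex.cpow_neg (((|m + a| : ℝ) : ℂ))]
    ring)
  rw [hW, hE, hG]
  ring

end

end Pool.Agent.P.MP_29cb78_nt.C
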