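import Pool.Agent.P.MP_29cb78_nt.C.Iface

/-!
The integral of `t ^ (-3 / 2) exp (-π t p ^ 2 - π q ^ 2 / t)` over the positive reals.
-/

namespace Pool.Agent.P.MP_29cb78_nt.C

open Set Filter Topology MeasureTheory
open scoped Real

noncomputable section

namespace Klfb

/-- The kernel after the substitution `t = u ^ 2`. -/
def E2 (p q u : ℝ) : ℝ := Real.exp (-π * u ^ 2 * p ^ 2 - π * q ^ 2 / u ^ 2)

theorem E2_pos (p q u : ℝ) : 0 < E2 p q u := Real.exp_pos _

theorem E2_meas (p q : ℝ) : Measurable (E2 p q) := by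
  unfold E2
  fun_prop

theorem image_phi {p q : ℝ} (hp : 0 < p) (hq : 0 < q) :
    (fun u : ℝ => p * u - q / u) '' Ioi 0 = univ := by
  refine eq_univ_of_forall fun v => ?_
  have h0 : 0 ≤ v ^ 2 + 4 * p * q := by positivity
  have hs : √(v ^ 2 + 4 * p * q) ^ 2 = v ^ 2 + 4 * p * q := Real.sq_sqrt h0
  have hpos : 0 < v + √(v ^ 2 + 4 * p * q) := by
    have : |v| < √(v ^ 2 + 4 * p * q) := by
      apply Real.lt_sqrt_of_sq_lt
      rw [sq_abs]
      have : 0 < 4 * p * q := by positivity
      linarith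
    have := neg_abs_le v
    linarith
  refine ⟨(v + √(v ^ 2 + 4 * p * q)) / (2 * p), mem_Ioi.2 (by positivity), ?_⟩
  generalize √(v ^ 2 + 4 * p * q) = r at hs hpos
  have hne := hpos.ne'
  simp only
  field_simp
  nlinarith [hs]

theorem gauss_sub {p q : ℝ} (hp : 0 < p) (hq : 0 < q) :
    ∫ u in Ioi (0 : ℝ), (p * E2 p q u + q / u ^ 2 * E2 p q u) = Real.exp (-(2 * π * p * q)) := by
  have h1 := integral_image_eq_integral_abs_deriv_smul (s := Ioi (0 : ℝ))
    (f := fun u : ℝ => p * u - q / u) (f' := fun u => p + q / u ^ 2) measurableSet_Ioi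
    (fun u hu => by
      have hu' : u ≠ 0 := (mem_Ioi.1 hu).ne'
      have h := ((hasDerivAt_id u).const_mul p).sub ((hasDerivAt_inv hu').const_mul q)
      refine HasDerivAt.hasDerivWithinAt ?_
      convert h using 1
      · funext x
        simp [div_eq_mul_inv]
      · field_simp
        ring)
    (fun x hx y hy hxy => by
      have hx' := mem_Ioi.1 hx
      have hy' := mem_Ioi.1 hy
      simp only at hxy
      have h2 : (x - y) * (p * x * y + q) = 0 := by
        field_simp at hxy
        nlinarith [hxy]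
      rcases mul_eq_zero.1 h2 with h | h
      · linarith
      · have : 0 < p * x * y + q := by positivity
        linarith)
    (fun v => Real.exp (-π * v ^ 2))
  rw [image_phi hp hq, Measure.restrict_univ, integral_gaussian, div_self Real.pi_ne_zero,
    Real.sqrt_one] at h1
  have h2 : ∫ u in Ioi (0 : ℝ), |p + q / u ^ 2| • Real.exp (-π * (p * u - q / u) ^ 2) =
      ∫ u in Ioi (0 : ℝ), Real.exp (2 * π * p * q) * (p * E2 p q u + q / u ^ 2 * E2 p q u) := by
    refine setIntegral_congr_fun measurableSet_Ioi fun u hu => ?_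
    have hu' := mem_Ioi.1 hu
    have : Real.exp (-π * (p * u - q / u) ^ 2) = Real.exp (2 * π * p * q) * E2 p q u := by
      rw [E2, ← Real.exp_add]
      congr 1
      field_simp
      ring
    simp only [smul_eq_mul]
    rw [abs_of_pos (by positivity), this]
    ring
  rw [h2, integral_const_mul] at h1
  rw [Real.exp_neg]
  exact eq_inv_of_mul_eq_one_right h1.symm

theorem flip_sub {p q : ℝ} (hp : 0 < p) (hq : 0 < q) :
    ∫ u in Ioi (0 : ℝ), p * E2 p q u = ∫ u in Ioi (0 : ℝ), q / u ^ 2 * E2 p q u := by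
  have him : (fun u : ℝ => q / p / u) '' Ioi 0 = Ioi 0 := by
    ext v
    constructor
    · rintro ⟨u, hu, rfl⟩
      have := mem_Ioi.1 hu
      exact mem_Ioi.2 (by positivity)
    · intro hv
      have := mem_Ioi.1 hv
      refine ⟨q / p / v, mem_Ioi.2 (by positivity), ?_⟩
      simp only
      field_simp
  have h1 := integral_image_eq_integral_abs_deriv_smul (s := Ioi (0 : ℝ))
    (f := fun u : ℝ => q / p / u) (f' := fun u => -(q / p / u ^ 2)) measurableSet_Ioi
    (fun u hu => by
      have hu' : u ≠ 0 := (mem_Ioi.1 hu).ne'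
      have h : HasDerivAt (fun y : ℝ => q / p * y⁻¹) (q / p * -(u ^ 2)⁻¹) u :=
        (hasDerivAt_inv hu').const_mul (q / p)
      refine HasDerivAt.hasDerivWithinAt ?_
      have e : -(q / p / u ^ 2) = q / p * -(u ^ 2)⁻¹ := by field_simp
      rw [e]
      exact h)
    (fun x hx y hy hxy => by
      have hx' := mem_Ioi.1 hx
      have hy' := mem_Ioi.1 hy
      simp only at hxy
      field_simp at hxy
      linarith)
    (fun v => p * E2 p q v)
  rw [him] at h1
  rw [h1]
  refine setIntegral_congr_fun measurableSet_Ioi fun u hu => ?_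
  have hu' := mem_Ioi.1 hu
  have : E2 p q (q / p / u) = E2 p q u := by
    unfold E2
    congr 1
    field_simp
    ring
  simp only [smul_eq_mul]
  rw [abs_neg, abs_of_pos (by positivity), this]
  field_simp

theorem half_sub {p q : ℝ} (hp : 0 < p) (hq : 0 < q) :
    ∫ u in Ioi (0 : ℝ), q / u ^ 2 * E2 p q u = Real.exp (-(2 * π * p * q)) / 2 := by
  have h0 := gauss_sub hp hq
  have hi : Integrable (fun u => p * E2 p q u + q / u ^ 2 * E2 p q u)
      (volume.restrict (Ioi (0 : ℝ))) :=
    Integrable.of_integral_ne_zero (by rw [h0]; exact (Real.exp_pos _).ne')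
  have hA : ∀ u, 0 ≤ p * E2 p q u := fun u => (mul_pos hp (E2_pos p q u)).le
  have hB : ∀ u, 0 ≤ q / u ^ 2 * E2 p q u := fun u =>
    mul_nonneg (by positivity) (E2_pos p q u).le
  have hm := E2_meas p q
  have h1 : Integrable (fun u => p * E2 p q u) (volume.restrict (Ioi (0 : ℝ))) := by
    refine hi.mono' (Measurable.aestronglyMeasurable (by fun_prop)) (Eventually.of_forall fun u => ?_)
    rw [Real.norm_of_nonneg (hA u)]
    linarith [hB u]
  have h2 : Integrable (fun u => q / u ^ 2 * E2 p q u) (volume.restrict (Ioi (0 : ℝ))) := by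
    refine hi.mono' (Measurable.aestronglyMeasurable (by fun_prop)) (Eventually.of_forall fun u => ?_)
    rw [Real.norm_of_nonneg (hB u)]
    linarith [hA u]
  rw [integral_add h1 h2, flip_sub hp hq] at h0
  linarith

theorem bessel {p q : ℝ} (hp : 0 < p) (hq : 0 < q) :
    ∫ t in Ioi (0 : ℝ), t⁻¹ * (t ^ (-(1 / 2) : ℝ) * Real.exp (-π * t * p ^ 2 - π * q ^ 2 / t)) =
      Real.exp (-(2 * π * p * q)) / q := by
  rw [← integral_comp_rpow_Ioi_of_pos zero_lt_two]
  have h2 : ∫ x in Ioi (0 : ℝ), (2 * x ^ ((2 : ℝ) - 1)) • ((x ^ (2 : ℝ))⁻¹ *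
      ((x ^ (2 : ℝ)) ^ (-(1 / 2) : ℝ) *
        Real.exp (-π * x ^ (2 : ℝ) * p ^ 2 - π * q ^ 2 / x ^ (2 : ℝ)))) =
      ∫ u in Ioi (0 : ℝ), 2 / q * (q / u ^ 2 * E2 p q u) := by
    refine setIntegral_congr_fun measurableSet_Ioi fun u hu => ?_
    have hu' := mem_Ioi.1 hu
    have e1 : (u ^ (2 : ℝ)) ^ (-(1 / 2) : ℝ) = u⁻¹ := by
      rw [← Real.rpow_mul hu'.le, ← Real.rpow_neg_one]
      norm_num
    have e2 : u ^ ((2 : ℝ) - 1) = u := by norm_num
    simp only [smul_eq_mul]
    rw [e1, e2, Real.rpow_two, E2]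
    field_simp
  rw [h2, integral_const_mul, half_sub hp hq]
  field_simp

end Klfb

end

end Pool.Agent.P.MP_29cb78_nt.C
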