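import Pool.Agent.P.MP_29cb78_nt.C.Iface
import Pool.Agent.P.MP_29cb78_nt.C.KlfbAux

/-!
The Mellin transform of the kernel `Wk` is entire, and its value at zero.
-/

namespace Pool.Agent.P.MP_29cb78_nt.C

open Set Filter Topology MeasureTheory Asymptotics
open scoped Real

noncomputable section

namespace Klfb

/-- The terms of `Wk`. -/
def term (a b : ℝ) (τ : ℂ) (m : ℤ × {k : ℤ // k ≠ 0}) (t : ℝ) : ℂ :=
  ee ((m.2.1 * ((m.1 + a) * τ.re + b) : ℝ) : ℂ) *
    ((t ^ (-(1 / 2) : ℝ) * Real.exp (-π * t * ((m.1 + a) * τ.im) ^ 2 - π * m.2.1 ^ 2 / t) : ℝ) : ℂ)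

theorem Wk_eq (a b : ℝ) (τ : ℂ) : Wk a b τ = fun t => ∑' m, term a b τ m t := rfl

/-- The lower bound of the heights. -/
def del (a : ℝ) (τ : ℂ) : ℝ := min a (1 - a) * τ.im

/-- The heights. -/
def yy (a : ℝ) (τ : ℂ) (m : ℤ) : ℝ := |(m + a) * τ.im|

/-- The majorant in the indices. -/
def uu (a : ℝ) (τ : ℂ) (m : ℤ × {k : ℤ // k ≠ 0}) : ℝ :=
  Real.exp (-(π / 2) * yy a τ m.1) * Real.exp (-(π / 2 * del a τ) * |(m.2.1 : ℝ)|)

/-- The majorant in the variable. -/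
def gg (d t : ℝ) : ℝ := t ^ (-(1 / 2) : ℝ) * Real.exp (-(π / 2) * t⁻¹) * Real.exp (-(π / 2 * d ^ 2) * t)

theorem norm_ee (x : ℂ) : ‖ee x‖ = Real.exp (-(2 * π * x.im)) := by
  rw [ee, Complex.norm_exp]
  congr 1
  simp

theorem del_pos {a : ℝ} {τ : ℂ} (h0 : 0 < a) (h1 : a < 1) (hτ : 0 < τ.im) : 0 < del a τ :=
  mul_pos (lt_min h0 (by linarith)) hτ

theorem del_le {a : ℝ} {τ : ℂ} (hτ : 0 < τ.im) (m : ℤ) : del a τ ≤ yy a τ m := by
  rw [del, yy, abs_mul, abs_of_pos hτ]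
  refine mul_le_mul_of_nonneg_right ?_ hτ.le
  rcases le_or_gt 0 m with h | h
  · have : (0 : ℝ) ≤ m := by exact_mod_cast h
    exact (min_le_left _ _).trans ((by linarith : a ≤ m + a).trans (le_abs_self _))
  · have h' : m ≤ -1 := by omega
    have : (m : ℝ) ≤ -1 := by exact_mod_cast h'
    exact (min_le_right _ _).trans ((by linarith : 1 - a ≤ -(m + a)).trans (neg_le_abs _))

theorem one_le_abs (k : {k : ℤ // k ≠ 0}) : (1 : ℝ) ≤ |(k.1 : ℝ)| := by
  have := Int.one_le_abs k.2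
  exact_mod_cast this

theorem summable_exp_abs {c : ℝ} (hc : 0 < c) :
    Summable fun m : ℤ => Real.exp (-c * |(m : ℝ)|) := by
  have h : Summable fun n : ℕ => Real.exp (n * (-c)) :=
    Real.summable_exp_nat_mul_iff.2 (by linarith)
  refine Summable.of_nat_of_neg (h.congr fun n => ?_) (h.congr fun n => ?_) <;>
    simp [mul_comm]

theorem summable_uu {a : ℝ} {τ : ℂ} (h0 : 0 < a) (h1 : a < 1) (hτ : 0 < τ.im) :
    Summable (uu a τ) := by
  have hd := del_pos h0 h1 hτ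
  have hπ := Real.pi_pos
  have hA : Summable fun m : ℤ => Real.exp (-(π / 2) * yy a τ m) := by
    refine Summable.of_nonneg_of_le (fun m => (Real.exp_pos _).le) (fun m => ?_)
      ((summable_exp_abs (c := π / 2 * τ.im) (by positivity)).mul_left
        (Real.exp (π / 2 * τ.im)))
    rw [← Real.exp_add, Real.exp_le_exp, yy, abs_mul, abs_of_pos hτ]
    have h2 : |(m : ℝ)| ≤ |m + a| + 1 := by
      have := abs_sub (m + a : ℝ) a
      rw [add_sub_cancel_right, abs_of_pos h0] at this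
      linarith
    have h3 : 0 < π / 2 * τ.im := by positivity
    nlinarith [mul_le_mul_of_nonneg_left h2 h3.le]
  have hB : Summable fun k : {k : ℤ // k ≠ 0} => Real.exp (-(π / 2 * del a τ) * |(k.1 : ℝ)|) :=
    (summable_exp_abs (c := π / 2 * del a τ) (by positivity)).subtype _
  exact hA.mul_of_nonneg hB (fun _ => (Real.exp_pos _).le) (fun _ => (Real.exp_pos _).le)

theorem exp_bound {d y k t : ℝ} (hd : 0 < d) (hy : d ≤ y) (hk : 1 ≤ k) (ht : 0 < t) :
    Real.exp (-π * t * y ^ 2 - π * k ^ 2 / t) ≤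
      Real.exp (-(π / 2) * y) * Real.exp (-(π / 2 * d) * k) *
        (Real.exp (-(π / 2) * t⁻¹) * Real.exp (-(π / 2 * d ^ 2) * t)) := by
  simp only [← Real.exp_add]
  rw [Real.exp_le_exp, div_eq_mul_inv (π * k ^ 2)]
  have hs : 0 < t⁻¹ := inv_pos.2 ht
  have hts : t * t⁻¹ = 1 := mul_inv_cancel₀ ht.ne'
  generalize t⁻¹ = s at hs hts
  have e1 : 2 * (y * k) ≤ t * y ^ 2 + k ^ 2 * s := by
    have : t * y ^ 2 + k ^ 2 * s - 2 * (y * k) = (t * y - k) ^ 2 * s := by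
      linear_combination (2 * y * k - t * y ^ 2) * hts
    nlinarith [mul_nonneg (sq_nonneg (t * y - k)) hs.le]
  have e2 : y ≤ y * k := by nlinarith
  have e3 : d * k ≤ y * k := by nlinarith
  have e4 : t * d ^ 2 ≤ t * y ^ 2 := by gcongr
  have e5 : s ≤ k ^ 2 * s := by nlinarith [mul_nonneg (by nlinarith : 0 ≤ k ^ 2 - 1) hs.le]
  have e6 : y + d * k + s + t * d ^ 2 ≤ 2 * (t * y ^ 2 + k ^ 2 * s) := by linarith
  nlinarith [mul_le_mul_of_nonneg_left e6 Real.pi_pos.le]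

theorem norm_term (a b : ℝ) (τ : ℂ) (m : ℤ × {k : ℤ // k ≠ 0}) {t : ℝ} (ht : 0 < t) :
    ‖term a b τ m t‖ =
      t ^ (-(1 / 2) : ℝ) * Real.exp (-π * t * yy a τ m.1 ^ 2 - π * |(m.2.1 : ℝ)| ^ 2 / t) := by
  rw [term, norm_mul, norm_ee, Complex.ofReal_im, mul_zero, neg_zero, Real.exp_zero, one_mul,
    Complex.norm_real, Real.norm_of_nonneg (by positivity), yy, sq_abs, sq_abs]

theorem norm_term_le {a : ℝ} (b : ℝ) {τ : ℂ} (h0 : 0 < a) (h1 : a < 1) (hτ : 0 < τ.im)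
    (m : ℤ × {k : ℤ // k ≠ 0}) {t : ℝ} (ht : 0 < t) :
    ‖term a b τ m t‖ ≤ uu a τ m * gg (del a τ) t := by
  rw [norm_term a b τ m ht, uu, gg]
  have := mul_le_mul_of_nonneg_left
    (exp_bound (del_pos h0 h1 hτ) (del_le hτ m.1) (one_le_abs m.2) ht)
    (Real.rpow_pos_of_pos ht (-(1 / 2) : ℝ)).le
  refine this.trans (le_of_eq ?_)
  ring

theorem small_le {t : ℝ} (ht : 0 < t) :
    t ^ (-(1 / 2) : ℝ) * Real.exp (-(π / 2) * t⁻¹) ≤ 1 := by
  have hs : 0 < t⁻¹ := inv_pos.2 ht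
  have e1 : t ^ (-(1 / 2) : ℝ) = √(t⁻¹) := by
    rw [Real.sqrt_eq_rpow, Real.rpow_neg ht.le, Real.inv_rpow ht.le]
  rw [e1]
  generalize t⁻¹ = s at hs
  have e2 : √s ≤ Real.exp s := by
    refine le_trans ?_ (Real.add_one_le_exp s)
    rw [Real.sqrt_le_iff]
    exact ⟨by positivity, by nlinarith⟩
  have e3 : Real.exp s * Real.exp (-(π / 2) * s) ≤ 1 := by
    rw [← Real.exp_add, Real.exp_le_one_iff]
    nlinarith [Real.pi_gt_three]
  exact (mul_le_mul_of_nonneg_right e2 (Real.exp_pos _).le).trans e3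

theorem gg_le_exp (d : ℝ) {t : ℝ} (ht : 0 < t) : gg d t ≤ Real.exp (-(π / 2 * d ^ 2) * t) := by
  rw [gg]
  exact mul_le_of_le_one_left (Real.exp_pos _).le (small_le ht)

theorem exp_le_one (d : ℝ) {t : ℝ} (ht : 0 < t) : Real.exp (-(π / 2 * d ^ 2) * t) ≤ 1 := by
  rw [Real.exp_le_one_iff]
  have : 0 ≤ π / 2 * d ^ 2 * t := by
    have := Real.pi_pos
    positivity
  linarith

theorem uu_nonneg (a : ℝ) (τ : ℂ) (m : ℤ × {k : ℤ // k ≠ 0}) : 0 ≤ uu a τ m :=
  mul_nonneg (Real.exp_pos _).le (Real.exp_pos _).le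

theorem norm_Wk_le {a : ℝ} (b : ℝ) {τ : ℂ} (h0 : 0 < a) (h1 : a < 1) (hτ : 0 < τ.im)
    {t : ℝ} (ht : 0 < t) : ‖Wk a b τ t‖ ≤ (∑' m, uu a τ m) * gg (del a τ) t := by
  rw [Wk_eq]
  exact tsum_of_norm_bounded ((summable_uu h0 h1 hτ).hasSum.mul_right _)
    fun m => norm_term_le b h0 h1 hτ m ht

theorem continuousOn_term (a b : ℝ) (τ : ℂ) (m : ℤ × {k : ℤ // k ≠ 0}) :
    ContinuousOn (term a b τ m) (Ioi 0) := by
  unfold term
  refine continuousOn_const.mul (Complex.continuous_ofReal.comp_continuousOn ?_)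
  refine ContinuousOn.mul (continuousOn_id.rpow_const fun t ht => Or.inl (mem_Ioi.1 ht).ne') ?_
  refine Real.continuous_exp.comp_continuousOn (ContinuousOn.sub (by fun_prop) ?_)
  exact continuousOn_const.div continuousOn_id fun t ht => (mem_Ioi.1 ht).ne'

theorem continuousOn_Wk {a : ℝ} (b : ℝ) {τ : ℂ} (h0 : 0 < a) (h1 : a < 1) (hτ : 0 < τ.im) :
    ContinuousOn (Wk a b τ) (Ioi 0) := by
  rw [Wk_eq]
  refine continuousOn_tsum (continuousOn_term a b τ) (summable_uu h0 h1 hτ) fun m t ht => ?_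
  refine (norm_term_le b h0 h1 hτ m ht).trans (mul_le_of_le_one_right (uu_nonneg a τ m) ?_)
  exact (gg_le_exp _ ht).trans (exp_le_one _ ht)

theorem gg_bot (d r : ℝ) : gg d =O[𝓝[>] 0] fun t : ℝ => t ^ (-r) := by
  have h1 := ((isLittleO_exp_neg_mul_rpow_atTop (a := π / 2) (by have := Real.pi_pos; positivity)
    (r - 1 / 2)).isBigO).comp_tendsto tendsto_inv_nhdsGT_zero
  have h2 := (isBigO_refl (fun t : ℝ => t ^ (-(1 / 2) : ℝ)) (𝓝[>] 0)).mul h1
  have h3 : gg d =O[𝓝[>] 0] fun t : ℝ => t ^ (-(1 / 2) : ℝ) * Real.exp (-(π / 2) * t⁻¹) := by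
    refine IsBigO.of_bound' ?_
    filter_upwards [self_mem_nhdsWithin] with t ht
    have ht' : 0 < t := ht
    rw [gg, Real.norm_of_nonneg (by positivity), Real.norm_of_nonneg (by positivity)]
    exact mul_le_of_le_one_right (by positivity) (exp_le_one _ ht')
  refine h3.trans (h2.congr' EventuallyEq.rfl ?_)
  filter_upwards [self_mem_nhdsWithin] with t ht
  have ht' : 0 < t := ht
  simp only [Function.comp]
  rw [Real.inv_rpow ht'.le, ← Real.rpow_neg ht'.le, ← Real.rpow_add ht']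
  congr 1
  ring

theorem gg_nonneg (d : ℝ) {t : ℝ} (ht : 0 < t) : 0 ≤ gg d t := by
  rw [gg]
  positivity

theorem entire {a : ℝ} (b : ℝ) {τ : ℂ} (h0 : 0 < a) (h1 : a < 1) (hτ : 0 < τ.im) :
    Differentiable ℂ (mellin (Wk a b τ)) := by
  intro s
  have hd := del_pos h0 h1 hτ
  have hπ := Real.pi_pos
  refine mellin_differentiableAt_of_isBigO_rpow_exp (a := π / 2 * del a τ ^ 2) (b := s.re - 1)
    (by positivity) ((continuousOn_Wk b h0 h1 hτ).locallyIntegrableOn measurableSet_Ioi) ?_ ?_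
    (by linarith)
  · refine IsBigO.of_bound (∑' m, uu a τ m) ?_
    filter_upwards [eventually_gt_atTop 0] with t ht
    rw [Real.norm_of_nonneg (Real.exp_pos _).le]
    exact (norm_Wk_le b h0 h1 hτ ht).trans
      (mul_le_mul_of_nonneg_left (gg_le_exp _ ht) (tsum_nonneg (uu_nonneg a τ)))
  · refine IsBigO.trans (IsBigO.of_bound (∑' m, uu a τ m) ?_) (gg_bot (del a τ) _)
    filter_upwards [self_mem_nhdsWithin] with t ht
    rw [Real.norm_of_nonneg (gg_nonneg _ ht)]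
    exact norm_Wk_le b h0 h1 hτ ht

/-- The integrals of the terms. -/
def val (a b : ℝ) (τ : ℂ) (m k : ℤ) : ℂ :=
  ee ((k * ((m + a) * τ.re + b) : ℝ) : ℂ) *
    ((Real.exp (-(2 * π * yy a τ m * |(k : ℝ)|)) / |(k : ℝ)| : ℝ) : ℂ)

theorem hasSum_val {a : ℝ} (b : ℝ) {τ : ℂ} (h0 : 0 < a) (h1 : a < 1) (hτ : 0 < τ.im) :
    HasSum (fun m : ℤ × {k : ℤ // k ≠ 0} => val a b τ m.1 m.2.1) (mellin (Wk a b τ) 0) := by
  have hd := del_pos h0 h1 hτ
  have hπ := Real.pi_pos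
  set G : ℤ × {k : ℤ // k ≠ 0} → ℝ → ℝ := fun m t => t⁻¹ * (t ^ (-(1 / 2) : ℝ) *
    Real.exp (-π * t * yy a τ m.1 ^ 2 - π * |(m.2.1 : ℝ)| ^ 2 / t)) with hG
  have hGI : ∀ m, ∫ t in Ioi (0 : ℝ), G m t =
      Real.exp (-(2 * π * yy a τ m.1 * |(m.2.1 : ℝ)|)) / |(m.2.1 : ℝ)| := fun m =>
    bessel (hd.trans_le (del_le hτ m.1)) (one_pos.trans_le (one_le_abs m.2))
  have hGint : ∀ m, Integrable (G m) (volume.restrict (Ioi (0 : ℝ))) := fun m =>
    Integrable.of_integral_ne_zero (by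
      rw [hGI m]
      have := one_pos.trans_le (one_le_abs m.2)
      positivity)
  set F : ℤ × {k : ℤ // k ≠ 0} → ℝ → ℂ := fun m t =>
    ee ((m.2.1 * ((m.1 + a) * τ.re + b) : ℝ) : ℂ) * (G m t : ℝ) with hF
  have hFint : ∀ m, Integrable (F m) (volume.restrict (Ioi (0 : ℝ))) := fun m =>
    (hGint m).ofReal.const_mul _
  have hsum : Summable fun m => ∫ t in Ioi (0 : ℝ), ‖F m t‖ := by
    refine Summable.of_nonneg_of_le (fun m => integral_nonneg fun t => norm_nonneg _)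
      (fun m => ?_) (summable_uu h0 h1 hτ)
    have e : ∫ t in Ioi (0 : ℝ), ‖F m t‖ = ∫ t in Ioi (0 : ℝ), G m t := by
      refine setIntegral_congr_fun measurableSet_Ioi fun t ht => ?_
      have ht' : 0 < t := ht
      simp only [hF, hG]
      rw [norm_mul, norm_ee, Complex.ofReal_im, mul_zero, neg_zero, Real.exp_zero, one_mul,
        Complex.norm_real, Real.norm_of_nonneg (by positivity)]
    have hk := one_le_abs m.2
    have hy := del_le (a := a) hτ m.1
    rw [e, hGI m, uu, ← Real.exp_add]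
    refine (div_le_self (Real.exp_pos _).le hk).trans (Real.exp_le_exp.2 ?_)
    generalize yy a τ m.1 = y at hy
    generalize |(m.2.1 : ℝ)| = k at hk
    generalize del a τ = d at hy hd
    have e2 : y ≤ y * k := by nlinarith
    have e3 : d * k ≤ y * k := by nlinarith
    have e4 : y + d * k ≤ 4 * (y * k) := by nlinarith
    nlinarith [mul_le_mul_of_nonneg_left e4 hπ.le]
  have h := hasSum_integral_of_summable_integral_norm hFint hsum
  have e1 : ∀ m, ∫ t in Ioi (0 : ℝ), F m t = val a b τ m.1 m.2.1 := fun m => by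
    simp only [hF]
    rw [integral_const_mul, integral_complex_ofReal, hGI m, val]
  have e2 : ∫ t in Ioi (0 : ℝ), ∑' m, F m t = mellin (Wk a b τ) 0 := by
    rw [mellin, Wk_eq]
    refine setIntegral_congr_fun measurableSet_Ioi fun t ht => ?_
    simp only [smul_eq_mul]
    rw [← tsum_mul_left]
    refine tsum_congr fun m => ?_
    simp only [hF, hG, term, yy, sq_abs, zero_sub, Complex.cpow_neg_one]
    push_cast
    ring
  rw [e2] at h
  simpa only [e1] using h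

/-- The points of the geometric series. -/
def ww (a b : ℝ) (τ : ℂ) (m : ℤ) : ℂ :=
  ee ((((m + a) * τ.re + b : ℝ) : ℂ) + (yy a τ m : ℝ) * Complex.I)

theorem norm_ww_lt {a : ℝ} (b : ℝ) {τ : ℂ} (h0 : 0 < a) (h1 : a < 1) (hτ : 0 < τ.im) (m : ℤ) :
    ‖ww a b τ m‖ < 1 := by
  have hy := (del_pos h0 h1 hτ).trans_le (del_le hτ m)
  have hπ := Real.pi_pos
  rw [ww, norm_ee, Real.exp_lt_one_iff]
  have : ((((m + a) * τ.re + b : ℝ) : ℂ) + (yy a τ m : ℝ) * Complex.I).im = yy a τ m := by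
    simp
  rw [this]
  have : 0 < 2 * π * yy a τ m := by positivity
  linarith

theorem val_nat (a b : ℝ) (τ : ℂ) (m : ℤ) (n : ℕ) : val a b τ m n = ww a b τ m ^ n / n := by
  rw [val, ww, ee, ee, ← Complex.exp_nat_mul]
  simp only [Int.cast_natCast, Nat.abs_cast]
  push_cast
  rw [← mul_div_assoc, ← Complex.exp_add]
  congr 2
  linear_combination (-(2 * π * n * yy a τ m) : ℂ) * Complex.I_mul_I

theorem val_neg (a b : ℝ) (τ : ℂ) (m k : ℤ) :
    val a b τ m (-k) = (starRingEnd ℂ) (val a b τ m k) := by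
  rw [val, val, map_mul, Complex.conj_ofReal, ee, ee, ← Complex.exp_conj, Int.cast_neg, abs_neg]
  congr 2
  simp only [map_mul, Complex.conj_ofReal, Complex.conj_I, map_ofNat]
  push_cast
  ring

theorem hasSum_fiber {a : ℝ} (b : ℝ) {τ : ℂ} (h0 : 0 < a) (h1 : a < 1) (hτ : 0 < τ.im) (m : ℤ) :
    HasSum (fun k : {k : ℤ // k ≠ 0} => val a b τ m k.1)
      ((-Real.log (‖1 - ww a b τ m‖ ^ 2) : ℝ) : ℂ) := by
  have h := Complex.hasSum_taylorSeries_neg_log (norm_ww_lt b h0 h1 hτ m)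
  have hA : HasSum (fun n : ℕ => val a b τ m n) (-Complex.log (1 - ww a b τ m)) := by
    simpa only [val_nat] using h
  have hB : HasSum (fun n : ℕ => val a b τ m (-n))
      ((starRingEnd ℂ) (-Complex.log (1 - ww a b τ m))) := by
    simpa only [val_neg] using Complex.hasSum_conj'.2 hA
  have hz : val a b τ m 0 = 0 := by simp [val]
  have hC := hA.of_nat_of_neg hB
  rw [hz, sub_zero, Complex.add_conj, Complex.neg_re, Complex.log_re] at hC
  rw [Real.log_pow]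
  have hD := (hasSum_subtype_iff_of_support_subset (s := {k : ℤ | k ≠ 0})
    (f := val a b τ m) (fun k hk hk0 => hk (by rw [hk0, hz]))).2 hC
  have e : -(((2 : ℕ) : ℝ) * Real.log ‖1 - ww a b τ m‖) = 2 * -Real.log ‖1 - ww a b τ m‖ := by
    push_cast
    ring
  rw [e]
  exact hD

theorem ww_nat {a : ℝ} (b : ℝ) {τ : ℂ} (h0 : 0 < a) (hτ : 0 < τ.im) (n : ℕ) :
    ww a b τ n = ee (n * τ + (a * τ + b)) := by
  rw [ww, yy, abs_of_pos (by simp only [Int.cast_natCast]; positivity)]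
  congr 1
  conv_rhs => rw [← Complex.re_add_im τ]
  push_cast
  ring

theorem ww_neg {a : ℝ} (b : ℝ) {τ : ℂ} (h1 : a < 1) (hτ : 0 < τ.im) (n : ℕ) :
    ww a b τ (-((n + 1 : ℕ) : ℤ)) = (starRingEnd ℂ) (ee ((n + 1) * τ - (a * τ + b))) := by
  have hn : (0 : ℝ) ≤ n := Nat.cast_nonneg n
  rw [ww, yy, abs_of_neg (mul_neg_of_neg_of_pos (by push_cast; linarith) hτ), ee, ee,
    ← Complex.exp_conj]
  congr 1
  conv_rhs => rw [← Complex.re_add_im τ]
  simp only [map_mul, map_add, map_sub, Complex.conj_ofReal, Complex.conj_I, map_ofNat, map_one,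
    map_natCast]
  push_cast
  ring

theorem multipliable_ee {τ : ℂ} (hτ : 0 < τ.im) (z : ℂ) :
    Multipliable fun n : ℕ => 1 - ee ((n + 1) * τ + z) := by
  have h1 : ‖ee τ‖ < 1 := by
    rw [norm_ee, Real.exp_lt_one_iff]
    have := Real.pi_pos
    have : 0 < 2 * π * τ.im := by positivity
    linarith
  have h2 : Summable fun n : ℕ => -ee ((n + 1) * τ + z) := by
    refine (((summable_geometric_of_norm_lt_one h1).mul_right (ee (τ + z))).congr fun n => ?_).neg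
    rw [ee, ee, ee, ← Complex.exp_nat_mul, ← Complex.exp_add]
    congr 1
    ring
  simpa only [sub_eq_add_neg] using Complex.multipliable_one_add_of_summable h2

theorem log_prod {a : ℝ} (b : ℝ) {τ : ℂ} (h0 : 0 < a) (h1 : a < 1) (hτ : 0 < τ.im) {R : ℝ}
    (hR : HasSum (fun m : ℤ => Real.log (‖1 - ww a b τ m‖ ^ 2)) R) :
    R = Real.log (‖sgP (a * τ + b) τ‖ ^ 2) := by
  have hpos : ∀ m : ℤ, 0 < ‖1 - ww a b τ m‖ ^ 2 := fun m => by
    have : 1 - ww a b τ m ≠ 0 := fun h => by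
      have h' := norm_ww_lt b h0 h1 hτ m
      rw [← sub_eq_zero.1 h, norm_one] at h'
      exact lt_irrefl _ h'
    positivity
  have h2 := ((hasSum_nat_add_iff' 1).2 hR.nat_add_neg).rexp
  have h3 := ((multipliable_ee hτ (a * τ + b)).mul (multipliable_ee hτ (-(a * τ + b)))).hasProd
  simp only [← sub_eq_add_neg] at h3
  have h4 := h3.norm.pow 2
  have h5 := h4.unique (h2.congr_fun fun n => ?_)
  · have h6 := ww_nat b h0 hτ 0
    simp only [Nat.cast_zero, zero_mul, zero_add] at h6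
    rw [sgP, norm_mul, mul_pow, h5, ← h6, Real.log_mul (hpos 0).ne' (Real.exp_pos _).ne',
      Real.log_exp]
    simp
  · simp only [Function.comp]
    rw [Real.exp_add, Real.exp_log (hpos _), Real.exp_log (hpos _), ww_nat b h0 hτ,
      ww_neg b h1 hτ, norm_mul, mul_pow, ← map_one (starRingEnd ℂ), ← map_sub, Complex.norm_conj]
    push_cast
    simp

end Klfb

theorem klfb : KLFB := by
  intro a b τ h0 h1 hτ
  refine ⟨Klfb.entire b h0 h1 hτ, ?_⟩
  have h := (Klfb.hasSum_val b h0 h1 hτ).prod_fiberwise (Klfb.hasSum_fiber b h0 h1 hτ)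
  obtain ⟨R, hR⟩ := Complex.summable_ofReal.1 h.summable
  have h2 := h.unique (Complex.hasSum_ofReal.2 hR)
  have h3 := Klfb.log_prod b h0 h1 hτ (R := -R) (by simpa only [neg_neg] using hR.neg)
  rw [h2, ← h3]
  simp

end

end Pool.Agent.P.MP_29cb78_nt.C
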