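import Pool.Agent.P.MP_29cb78_nt.C.Iface

/-!
The invariants of ray classes of an imaginary quadratic field.
-/

namespace Pool.Agent.P.MP_29cb78_nt.C

open NumberField Set Ideal
open scoped Classical Matrix nonZeroDivisors

noncomputable section

namespace Lam

/-! ### Roots of unity -/

theorem e12_add (x y : ZMod 12) : e12 (x + y) = e12 x * e12 y := AddChar.map_add_eq_mul _ _ _

theorem e12_pow (x : ZMod 12) (n : ℕ) : e12 x ^ n = e12 (n * x) := by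
  unfold e12
  rw [← AddChar.map_nsmul_eq_pow, nsmul_eq_mul]

theorem e12_zero : e12 0 = 1 := AddChar.map_zero_eq_one _

theorem e12_pow12 (x : ZMod 12) : e12 x ^ 12 = 1 := by
  rw [e12_pow, show ((12 : ℕ) : ZMod 12) = 0 from rfl, zero_mul, e12_zero]

theorem e12_int (x : ZMod 12) : IsIntegral ℤ (e12 x) :=
  IsIntegral.of_pow (n := 12) (by norm_num) (by rw [e12_pow12]; exact isIntegral_one)

theorem e12_inv (x : ZMod 12) : (e12 x)⁻¹ = e12 (-x) := by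
  apply inv_eq_of_mul_eq_one_right
  rw [← e12_add, add_neg_cancel, e12_zero]

theorem e12_norm (x : ZMod 12) : ‖e12 x‖ = 1 := by
  have h := congrArg norm (e12_pow12 x)
  rw [norm_pow, norm_one] at h
  exact (pow_eq_one_iff_of_nonneg (norm_nonneg _) (by norm_num)).mp h

theorem e12_ne (x : ZMod 12) : e12 x ≠ 0 := by
  rw [← norm_ne_zero_iff, e12_norm]; exact one_ne_zero

theorem sq_unit (u : ZMod 12) (h : IsUnit u) : u * u = 1 := by
  obtain ⟨v, hv⟩ := h.exists_right_inv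
  revert u v
  decide

theorem red_mul (A B : Mat) : red (A * B) = red A * red B :=
  Matrix.map_mul (f := Int.castRingHom (ZMod 12))

theorem red_det (A : Mat) : (red A).det = (A.det : ZMod 12) :=
  ((Int.castRingHom (ZMod 12)).map_det A).symm

theorem InP.mul {P : Ideal (integralClosure ℤ ℂ)} {x y : ℂ} (hx : InP P x) (hy : IsIntegral ℤ y) :
    InP P (y * x) := by
  obtain ⟨h1, h2⟩ := hx
  exact ⟨hy.mul h1, P.mul_mem_left ⟨y, hy⟩ h2⟩

/-! ### Bases -/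

variable {F : Type} [Field F] {φ : F →+* ℂ}

/-- The complex vector of a basis. -/
def cv (φ : F →+* ℂ) (w : Fin 2 → 𝓞 F) : Fin 2 → ℂ := fun i => φ (w i)

/-- The point of the upper half plane. -/
def ta (φ : F →+* ℂ) (w : Fin 2 → 𝓞 F) : ℂ := φ (w 0) / φ (w 1)

/-- Integral linear combinations. -/
def dot (b : Fin 2 → ℤ) (w : Fin 2 → 𝓞 F) : 𝓞 F := b 0 * w 0 + b 1 * w 1

/-- Change of basis. -/
def Rel (A : Mat) (w w' : Fin 2 → 𝓞 F) : Prop := ∀ i, w' i = A i 0 * w 0 + A i 1 * w 1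

theorem Rel.mul {A B : Mat} {w w' w'' : Fin 2 → 𝓞 F} (h : Rel A w w') (h' : Rel B w' w'') :
    Rel (B * A) w w'' := by
  intro i
  rw [h' i, h 0, h 1]
  simp only [Matrix.mul_apply, Fin.sum_univ_two]
  push_cast
  ring

theorem Rel.smul {A : Mat} {w w' : Fin 2 → 𝓞 F} (h : Rel A w w') (α : 𝓞 F) :
    Rel A (fun i => α * w i) (fun i => α * w' i) := by
  intro i
  simp only [h i]
  ring

theorem Rel.dot {A : Mat} {w w' : Fin 2 → 𝓞 F} (h : Rel A w w') (b : Fin 2 → ℤ) :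
    dot b w' = dot (b ᵥ* A) w := by
  unfold Lam.dot
  rw [h 0, h 1]
  simp only [Matrix.vecMul, dotProduct, Fin.sum_univ_two]
  push_cast
  ring

theorem Rel.cv {A : Mat} {w w' : Fin 2 → 𝓞 F} (h : Rel A w w') : cv φ w' = mv A (cv φ w) := by
  funext i
  simp only [Lam.cv, mv, h i, Matrix.mulVec, dotProduct, Fin.sum_univ_two, Matrix.map_apply]
  simp

theorem indep {w : Fin 2 → 𝓞 F} (hw : Ori (cv φ w)) {m n : ℤ} (h : m * w 0 + n * w 1 = 0) :
    m = 0 ∧ n = 0 := by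
  have h1 : (m : ℂ) * φ (w 0) + n * φ (w 1) = 0 := by
    have := congrArg (fun x : 𝓞 F => φ x) h
    simpa using this
  have h0 : 0 < (φ (w 0) / φ (w 1)).im := hw
  have hne : φ (w 1) ≠ 0 := by
    intro h2
    rw [h2, div_zero] at h0
    simp at h0
  have h2 : (m : ℂ) * (φ (w 0) / φ (w 1)) + n = 0 := by
    field_simp
    linear_combination h1
  have h3 := congrArg Complex.im h2
  simp only [Complex.add_im, Complex.mul_im, Complex.intCast_re, Complex.intCast_im, zero_mul,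
    add_zero, Complex.zero_im, mul_eq_zero] at h3
  have hm : m = 0 := by
    rcases h3 with h3 | h3
    · exact_mod_cast h3
    · exact absurd h3 h0.ne'
  refine ⟨hm, ?_⟩
  rw [hm] at h2
  simpa using h2

theorem Rel.uniq {A B : Mat} {w w' : Fin 2 → 𝓞 F} (hw : Ori (Lam.cv φ w)) (h : Rel A w w')
    (h' : Rel B w w') : A = B := by
  ext i j
  have := indep hw (m := A i 0 - B i 0) (n := A i 1 - B i 1) (by
    push_cast
    linear_combination h' i - h i)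
  fin_cases j
  · exact sub_eq_zero.mp this.1
  · exact sub_eq_zero.mp this.2

theorem Rel.ta (hL : LATB) {A : Mat} {w w' : Fin 2 → 𝓞 F} (hw : Ori (Lam.cv φ w))
    (h : Rel A w w') : ta φ w' = mob A (ta φ w) := by
  have := hL.1 A (Lam.cv φ w) hw
  rw [← h.cv] at this
  exact this

theorem phi_ne {α : 𝓞 F} (hα : α ≠ 0) : φ α ≠ 0 := by
  rw [map_ne_zero]
  exact_mod_cast hα

theorem ta_smul {α : 𝓞 F} (hα : α ≠ 0) (w : Fin 2 → 𝓞 F) :
    ta φ (fun i => α * w i) = ta φ w := by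
  have := phi_ne (φ := φ) hα
  simp only [ta]
  push_cast
  rw [map_mul, map_mul, mul_div_mul_left _ _ this]

theorem bas_smul {I : Ideal (𝓞 F)} {w : Fin 2 → 𝓞 F} (hw : IsBas φ I w) {α : 𝓞 F} (hα : α ≠ 0) :
    IsBas φ (span {α} * I) (fun i => α * w i) := by
  refine ⟨?_, fun x => ?_⟩
  · have := ta_smul (φ := φ) hα w
    exact (show 0 < (ta φ (fun i => α * w i)).im from this ▸ hw.1)
  · rw [Ideal.mem_span_singleton_mul]
    constructor
    · rintro ⟨y, hy, rfl⟩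
      obtain ⟨m, n, rfl⟩ := (hw.2 y).mp hy
      exact ⟨m, n, by ring⟩
    · rintro ⟨m, n, rfl⟩
      exact ⟨m * w 0 + n * w 1, (hw.2 _).mpr ⟨m, n, rfl⟩, by ring⟩

theorem dot_mem {I : Ideal (𝓞 F)} {w : Fin 2 → 𝓞 F} (hw : IsBas φ I w) (b : Fin 2 → ℤ) :
    dot b w ∈ I := (hw.2 _).mpr ⟨b 0, b 1, rfl⟩

theorem dot_smul (b : Fin 2 → ℤ) (w : Fin 2 → 𝓞 F) (α : 𝓞 F) :
    dot b (fun i => α * w i) = α * dot b w := by
  simp only [dot]
  ring

theorem cong_mul {n : ℕ} {α z : 𝓞 F} (hα : α - 1 ∈ span {(n : 𝓞 F)})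
    (hz : z - 1 ∈ span {(n : 𝓞 F)}) : α * z - 1 ∈ span {(n : 𝓞 F)} := by
  have := add_mem (Ideal.mul_mem_left _ α hz) hα
  rwa [show α * (z - 1) + (α - 1) = α * z - 1 by ring] at this

theorem cong_mono {m n : ℕ} (h : m ∣ n) {z : 𝓞 F} (hz : z - 1 ∈ span {(n : 𝓞 F)}) :
    z - 1 ∈ span {(m : 𝓞 F)} :=
  Ideal.span_singleton_le_span_singleton.mpr (Nat.cast_dvd_cast h) hz

theorem Cop.mono {m n : ℕ} (h : m ∣ n) {I : Ideal (𝓞 F)} (hI : Cop n I) : Cop m I :=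
  ⟨hI.1, hI.2.of_isCoprime_of_dvd_right
    (let ⟨k, hk⟩ := h; ⟨span {(k : 𝓞 F)}, by
      rw [Ideal.span_singleton_mul_span_singleton, hk, Nat.cast_mul]⟩)⟩

theorem Cop.exists {n : ℕ} {I : Ideal (𝓞 F)} (hI : Cop n I) :
    ∃ z ∈ I, z - 1 ∈ span {(n : 𝓞 F)} := by
  obtain ⟨z, hz, y, hy, h⟩ := Ideal.isCoprime_iff_exists.mp hI.2
  exact ⟨z, hz, by rw [show z - 1 = -y by linear_combination h]; exact neg_mem hy⟩

theorem Cop.mul {n : ℕ} {I J : Ideal (𝓞 F)} (hI : Cop n I) (hJ : Cop n J) : Cop n (I * J) :=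
  ⟨mul_ne_zero hI.1 hJ.1, hI.2.mul_left hJ.2⟩

theorem cop_span {n : ℕ} {α : 𝓞 F} (h0 : α ≠ 0) (hα : α - 1 ∈ span {(n : 𝓞 F)}) :
    Cop n (span {α}) := by
  refine ⟨by simpa using h0, Ideal.isCoprime_iff_exists.mpr ⟨α, Ideal.mem_span_singleton_self α,
    -(α - 1), neg_mem hα, by ring⟩⟩

/-- The congruence between the coordinates of two elements that are `1` modulo `n`. -/
theorem coord_cong {I : Ideal (𝓞 F)} {w : Fin 2 → 𝓞 F} (hw : IsBas φ I w) {n : ℕ}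
    {b b' : Fin 2 → ℤ} (hb : dot b w - 1 ∈ span {(n : 𝓞 F)})
    (hb' : dot b' w - 1 ∈ span {(n : 𝓞 F)}) (i : Fin 2) : (n : ℤ) ∣ b' i - b i := by
  obtain ⟨t, ht⟩ := Ideal.mem_span_singleton'.mp hb
  obtain ⟨t', ht'⟩ := Ideal.mem_span_singleton'.mp hb'
  have hy : t' - t ∈ I := by
    have h1 := sub_mem (I.mul_mem_left (t' - t) (dot_mem hw b))
      (I.mul_mem_left t (sub_mem (dot_mem hw b') (dot_mem hw b)))
    rwa [show (t' - t) * dot b w - t * (dot b' w - dot b w) = t' - t by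
      linear_combination (-t') * ht + t * ht'] at h1
  obtain ⟨m, k, hmk⟩ := (hw.2 _).mp hy
  have := indep hw.1 (m := b' 0 - b 0 - n * m) (n := b' 1 - b 1 - n * k) (by
    unfold dot at ht ht'
    push_cast
    linear_combination ht - ht' + (n : 𝓞 F) * hmk)
  fin_cases i
  · exact ⟨m, sub_eq_zero.mp this.1⟩
  · exact ⟨k, sub_eq_zero.mp this.2⟩

section

variable [NumberField F] [IsTotallyComplex F]

/-- The hypotheses in force. -/
structure Hyp (φ : F →+* ℂ) : Prop where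
  hL : LATB
  hS : SGM
  hB : BAS
  hJ : JINT
  hP : PHI
  h2 : Module.finrank ℚ F = 2

theorem Hyp.ex (H : Hyp φ) {I : Ideal (𝓞 F)} (hI : I ≠ ⊥) : ∃ w, IsBas φ I w :=
  (H.hB F φ H.h2).1 I hI

theorem Hyp.rel (H : Hyp φ) {I J : Ideal (𝓞 F)} {w w' : Fin 2 → 𝓞 F} (hw : IsBas φ I w)
    (hw' : IsBas φ J w') (h : J ≤ I) :
    ∃ A : Mat, Rel A w w' ∧ A.det * (absNorm I : ℤ) = absNorm J :=
  (H.hB F φ H.h2).2.1 I J w w' hw hw' h

theorem Hyp.rel_mul (H : Hyp φ) {I J : Ideal (𝓞 F)} {w w' : Fin 2 → 𝓞 F} (hI : I ≠ ⊥)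
    (hw : IsBas φ I w) (hw' : IsBas φ (I * J) w') :
    ∃ A : Mat, Rel A w w' ∧ A.det = absNorm J := by
  obtain ⟨A, h1, h2⟩ := H.rel hw hw' Ideal.mul_le_left
  refine ⟨A, h1, ?_⟩
  have h0 : (absNorm I : ℤ) ≠ 0 := by
    exact_mod_cast fun h => hI (Ideal.absNorm_eq_zero_iff.mp h)
  apply mul_right_cancel₀ h0
  rw [h2, map_mul]
  push_cast
  ring

theorem Hyp.rel_one (H : Hyp φ) {I : Ideal (𝓞 F)} {w w' : Fin 2 → 𝓞 F} (hI : I ≠ ⊥)
    (hw : IsBas φ I w) (hw' : IsBas φ I w') : ∃ A : Mat, Rel A w w' ∧ A.det = 1 := by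
  obtain ⟨A, h1, h2⟩ := H.rel_mul (J := 1) hI hw (by rwa [mul_one])
  exact ⟨A, h1, by rw [h2, map_one]; rfl⟩

theorem Hyp.one_mem (H : Hyp φ) {n : ℕ} (h : (1 : 𝓞 F) ∈ span {(n : 𝓞 F)}) : n = 1 := by
  have := (H.hB F φ H.h2).2.2.2.1 n 0 (by rw [zero_sub]; exact neg_mem h)
  rw [Ideal.span_singleton_zero, Ideal.absNorm_bot, Nat.cast_zero] at this
  exact ZMod.subsingleton_iff.mp (subsingleton_of_zero_eq_one this)

theorem Hyp.norm_unit (H : Hyp φ) {n : ℕ} {I : Ideal (𝓞 F)} (hI : Cop n I) :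
    IsUnit (absNorm I : ZMod n) := by
  obtain ⟨z, hz, h⟩ := Cop.exists hI
  have h1 := (H.hB F φ H.h2).2.2.2.1 n z h
  obtain ⟨k, hk⟩ := Ideal.absNorm_dvd_absNorm_of_le ((Ideal.span_singleton_le_iff_mem I).mpr hz)
  rw [hk, Nat.cast_mul] at h1
  exact IsUnit.of_mul_eq_one _ h1

theorem Hyp.jint (H : Hyp φ) {I : Ideal (𝓞 F)} {w : Fin 2 → 𝓞 F} (hI : I ≠ ⊥)
    (hw : IsBas φ I w) : IsIntegral ℤ (jf (ta φ w)) := by
  obtain ⟨α, hα⟩ := (H.hB F φ H.h2).2.2.2.2.2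
  have h0 : α ≠ 0 := by
    rintro rfl
    simp at hα
  obtain ⟨C, h1, h2⟩ := H.rel_mul hI hw (mul_comm (span {α}) I ▸ bas_smul hw h0)
  refine H.hJ C _ hw.1 ?_ ?_ ?_
  · rw [h2]
    have : absNorm (span {α}) ≠ 0 := by
      intro h
      rw [h] at hα
      exact hα IsSquare.zero
    omega
  · rwa [h2, Int.isSquare_natCast_iff]
  · rw [← h1.ta H.hL hw.1, ta_smul h0]

theorem Hyp.DD_eq (H : Hyp φ) {I : Ideal (𝓞 F)} {w w' : Fin 2 → 𝓞 F} (hI : I ≠ ⊥)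
    (hw : IsBas φ I w) (hw' : IsBas φ I w') : DD (cv φ w') = DD (cv φ w) := by
  obtain ⟨G, h1, h2⟩ := H.rel_one hI hw hw'
  rw [h1.cv, H.hL.2.2.2.1 G (cv φ w) h2 hw.1]

omit [NumberField F] [IsTotallyComplex F] in
theorem DD_smul {α : 𝓞 F} (hα : α ≠ 0) (w : Fin 2 → 𝓞 F) :
    DD (cv φ fun i => α * w i) = DD (cv φ w) / φ α ^ 12 := by
  have h := ta_smul (φ := φ) hα w
  unfold DD
  rw [show cv φ (fun i => α * w i) 0 / cv φ (fun i => α * w i) 1 = cv φ w 0 / cv φ w 1 from h,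
    show cv φ (fun i => α * w i) 1 = φ α * cv φ w 1 by simp [cv], mul_pow, div_div, mul_comm]

theorem Hyp.chain (H : Hyp φ) {I p : Ideal (𝓞 F)} {w : Fin 2 → 𝓞 F} (hI : I ≠ ⊥)
    (hp : (absNorm p).Prime) (hp2 : absNorm p ≠ 2) (hw : IsBas φ I w) (i : ℕ) :
    ∀ w', IsBas φ (I * p ^ i) w' →
      IsIntegral ℤ (((absNorm p : ℂ) ^ i) ^ 12 * DD (cv φ w') / DD (cv φ w)) := by
  have hp0 : p ≠ ⊥ := fun h => hp.ne_zero (Ideal.absNorm_eq_zero_iff.mpr h)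
  induction i with
  | zero =>
    intro w' hw'
    rw [pow_zero, mul_one] at hw'
    rw [H.DD_eq hI hw hw', pow_zero, one_pow, one_mul, div_self (H.hL.2.2.2.2.1 (cv φ w) hw.1)]
    exact isIntegral_one
  | succ i ih =>
    intro w' hw'
    have hne : I * p ^ i ≠ ⊥ := mul_ne_zero hI (pow_ne_zero _ hp0)
    obtain ⟨v, hv⟩ := H.ex hne
    rw [pow_succ, ← mul_assoc] at hw'
    obtain ⟨B, h1, h2⟩ := H.rel_mul hne hv hw'
    have h3 := (H.hP _ hp hp2).2 B (cv φ v) h2 hv.1 (H.jint hne hv)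
    have h4 := (ih v hv).mul h3
    have h5 := H.hL.2.2.2.2.1 (cv φ v) hv.1
    rwa [ph, ← h1.cv, show ((absNorm p : ℂ) ^ i) ^ 12 * DD (cv φ v) / DD (cv φ w) *
      ((absNorm p : ℂ) ^ 12 * DD (cv φ w') / DD (cv φ v)) =
      ((absNorm p : ℂ) ^ (i + 1)) ^ 12 * DD (cv φ w') / DD (cv φ w) by
        field_simp
        ring] at h4

/-- The quotient of discriminants is prime to `P`. -/
theorem Hyp.not_inP (H : Hyp φ) {c p : Ideal (𝓞 F)} {w w' : Fin 2 → 𝓞 F}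
    {P : Ideal (integralClosure ℤ ℂ)} (hc : c ≠ ⊥) (hp : (absNorm p).Prime)
    (hp2 : absNorm p ≠ 2) (hsq : (absNorm p : 𝓞 F) ∉ p ^ 2) (hP : P.IsPrime)
    (hpP : ∀ x ∈ p, InP P (φ x)) (hw : IsBas φ c w) (hw' : IsBas φ (c * p) w') :
    ¬ InP P ((absNorm p : ℂ) ^ 12 * DD (cv φ w') / DD (cv φ w)) := by
  intro hin
  have hp0 : p ≠ ⊥ := fun h => hp.ne_zero (Ideal.absNorm_eq_zero_iff.mpr h)
  have hmax : p.IsMaximal :=
    (Ideal.isPrime_of_irreducible_absNorm (Nat.irreducible_iff_nat_prime _ |>.mpr hp)).isMaximal hp0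
  obtain ⟨h, hh⟩ : ∃ h : ℕ, (p ^ (h + 1)).IsPrincipal := by
    have hmem : p ∈ (Ideal (𝓞 F))⁰ := mem_nonZeroDivisors_of_ne_zero hp0
    obtain ⟨h, hh⟩ := Nat.exists_eq_succ_of_ne_zero
      (Fintype.card_ne_zero (α := ClassGroup (𝓞 F)))
    refine ⟨h, (ClassGroup.mk0_eq_one_iff (pow_mem hmem (h + 1))).mp ?_⟩
    have h1 : (⟨p ^ (h + 1), pow_mem hmem (h + 1)⟩ : (Ideal (𝓞 F))⁰) = ⟨p, hmem⟩ ^ (h + 1) := rfl
    rw [h1, map_pow, ← Nat.succ_eq_add_one, ← hh, pow_card_eq_one]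
  obtain ⟨α, hα⟩ := hh.principal
  have hα' : p ^ (h + 1) = span {α} := hα
  have h0 : α ≠ 0 := by
    rintro rfl
    rw [Ideal.span_singleton_zero] at hα'
    exact pow_ne_zero _ hp0 hα'
  obtain ⟨p', hp'⟩ := Ideal.dvd_iff_le.mpr (Ideal.span_singleton_absNorm_le p)
  have hq : span {(absNorm p : 𝓞 F) ^ (h + 1)} = span {α} * p' ^ (h + 1) := by
    rw [← Ideal.span_singleton_pow, hp', mul_pow, hα']
  obtain ⟨β, hβ⟩ : α ∣ (absNorm p : 𝓞 F) ^ (h + 1) :=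
    Ideal.span_singleton_le_span_singleton.mp (hq ▸ Ideal.mul_le_left)
  have hβ' : span {β} = p' ^ (h + 1) := by
    apply mul_left_cancel₀ (a := span {α}) (by simpa using h0)
    rw [← hq, hβ, Ideal.span_singleton_mul_span_singleton]
  have hb : IsBas φ (c * p * p ^ h) fun i => α * w i := by
    rw [mul_assoc, ← pow_succ', hα', mul_comm]
    exact bas_smul hw h0
  have h1 := InP.mul hin (H.chain (mul_ne_zero hc hp0) hp hp2 hw' h _ hb)
  have h2 : φ α * φ β = (absNorm p : ℂ) ^ (h + 1) := by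
    have := congrArg (fun x : 𝓞 F => φ x) hβ
    simpa using this.symm
  have h3 := H.hL.2.2.2.2.1 _ hw.1
  have h4 := H.hL.2.2.2.2.1 _ hw'.1
  have h5 := phi_ne (φ := φ) h0
  rw [DD_smul h0, show ((absNorm p : ℂ) ^ h) ^ 12 * (DD (cv φ w) / φ α ^ 12) / DD (cv φ w') *
      ((absNorm p : ℂ) ^ 12 * DD (cv φ w') / DD (cv φ w)) = φ β ^ 12 by
        have h6 : DD (cv φ w) ≠ 0 := h3
        have h7 : DD (cv φ w') ≠ 0 := h4
        field_simp
        rw [← mul_pow, ← mul_pow, ← pow_succ, ← h2]] at h1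
  let ψ : 𝓞 F →+* integralClosure ℤ ℂ := (φ.comp (algebraMap (𝓞 F) F)).codRestrict
    (integralClosure ℤ ℂ) fun x => (RingOfIntegers.isIntegral_coe x).map φ.toIntAlgHom
  have hle : p ≤ P.comap ψ := fun x hx => (hpP x hx).2
  have heq : p = P.comap ψ := hmax.eq_of_le (Ideal.comap_isPrime ψ P).ne_top hle
  have hβp : β ∈ p := by
    rw [heq]
    exact hP.mem_of_pow_mem 12 h1.2
  have h8 : p' ≤ p := hmax.isPrime.le_of_pow_le
    (hβ' ▸ (Ideal.span_singleton_le_iff_mem p).mpr hβp)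
  apply hsq
  rw [← Ideal.span_singleton_le_iff_mem, hp', sq]
  exact Ideal.mul_mono_right h8

/-! ### The invariants -/

/-- The data that define the invariant of `c`. -/
structure Dat (φ : F →+* ℂ) (w0 : Fin 2 → 𝓞 F) (N : ℕ) (c : Ideal (𝓞 F)) (w : Fin 2 → 𝓞 F)
    (A : Mat) (b : Fin 2 → ℤ) : Prop where
  bas : IsBas φ c w
  rel : Rel A w0 w
  one : dot b w - 1 ∈ span {((2 * N ^ 2 : ℕ) : 𝓞 F)}

/-- The value attached to the data. -/
def val (φ : F →+* ℂ) (X : Matrix (Fin 2) (Fin 2) (ZMod 12) → ZMod 12) (N : ℕ)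
    (w : Fin 2 → 𝓞 F) (A : Mat) (b : Fin 2 → ℤ) : ℂ :=
  e12 (-((red A).det * X (red A))) * sgN N b (ta φ w)

variable {X : Matrix (Fin 2) (Fin 2) (ZMod 12) → ZMod 12} {w0 : Fin 2 → 𝓞 F} {N : ℕ}

theorem Hyp.dat (H : Hyp φ) (h0 : IsBas φ ⊤ w0) {c : Ideal (𝓞 F)} (hc : Cop (24 * N ^ 2) c) :
    ∃ w A b, Dat φ w0 N c w A b := by
  obtain ⟨w, hw⟩ := H.ex hc.1
  obtain ⟨A, hA, -⟩ := H.rel h0 hw le_top
  obtain ⟨z, hz, h⟩ := Cop.exists hc
  obtain ⟨m, n, rfl⟩ := (hw.2 z).mp hz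
  exact ⟨w, A, ![m, n], hw, hA, cong_mono ⟨12, by ring⟩ h⟩

theorem Hyp.det_unit (H : Hyp φ) (h0 : IsBas φ ⊤ w0) {c : Ideal (𝓞 F)}
    (hc : Cop (24 * N ^ 2) c) {w : Fin 2 → 𝓞 F} {A : Mat} (hw : IsBas φ c w) (hA : Rel A w0 w) :
    IsUnit (red A).det := by
  obtain ⟨A', hA', h⟩ := H.rel h0 hw le_top
  rw [Rel.uniq h0.1 hA hA', red_det]
  rw [Ideal.absNorm_top, Nat.cast_one, mul_one] at h
  rw [h, Int.cast_natCast]
  exact H.norm_unit (Cop.mono ⟨2 * N ^ 2, by ring⟩ hc)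

theorem Hyp.val_eq (H : Hyp φ) (hX : ChiData X) (h0 : IsBas φ ⊤ w0) (hN : N ≠ 0)
    {c : Ideal (𝓞 F)} (hc : Cop (24 * N ^ 2) c) {w w' : Fin 2 → 𝓞 F} {A A' : Mat}
    {b b' : Fin 2 → ℤ} (hd : Dat φ w0 N c w A b) (hd' : Dat φ w0 N c w' A' b') :
    val φ X N w' A' b' = val φ X N w A b := by
  obtain ⟨G, hG, hG1⟩ := H.rel_one hc.1 hd.bas hd'.bas
  have hA : A' = G * A := Rel.uniq h0.1 hd'.rel (hd.rel.mul hG)
  have hu := H.det_unit h0 hc hd.bas hd.rel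
  have hg : (red G).det = 1 := by rw [red_det, hG1, Int.cast_one]
  have hs := H.hS N b' (ta φ w) hN hd.bas.1
  have hs' := H.hS N b (ta φ w) hN hd.bas.1
  unfold val
  rw [hG.ta H.hL hd.bas.1, hs.1 X hX G hG1, hs'.2.1 (b' ᵥ* G) (fun i => by
    have := coord_cong hd.bas hd.one (hG.dot b' ▸ hd'.one) i
    exact_mod_cast this), ← mul_assoc, ← e12_add, hA, red_mul, Matrix.det_mul,
    hX.mul _ _ (hg ▸ isUnit_one) hu, hg]
  congr 2
  linear_combination (-X (red G)) * sq_unit _ hu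

omit [NumberField F] [IsTotallyComplex F] in
theorem dat_smul (h0 : IsBas φ ⊤ w0) {c : Ideal (𝓞 F)} {w : Fin 2 → 𝓞 F}
    {A : Mat} {b : Fin 2 → ℤ} (hd : Dat φ w0 N c w A b) {α : 𝓞 F} (hα0 : α ≠ 0)
    (hα : α - 1 ∈ span {((24 * N ^ 2 : ℕ) : 𝓞 F)}) :
    ∃ A', Dat φ w0 N (span {α} * c) (fun i => α * w i) A' b ∧
      val φ X N (fun i => α * w i) A' b = val φ X N w A b := by
  obtain ⟨γ, hγ⟩ := Ideal.mem_span_singleton'.mp (cong_mono (m := 12) ⟨2 * N ^ 2, by ring⟩ hα)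
  choose m n hmn using fun i => (h0.2 (γ * w0 i)).mp Submodule.mem_top
  let M : Mat := Matrix.of fun i j => if j = 0 then m i else n i
  have hM : Rel (1 + (12 : ℤ) • M) w0 fun i => α * w0 i := by
    intro i
    have h1 : α * w0 i = w0 i + 12 * (m i * w0 0 + n i * w0 1) := by
      rw [← hmn i]
      push_cast at hγ
      linear_combination (-w0 i) * hγ
    refine h1.trans ?_
    fin_cases i <;> simp [M] <;> ring
  have hr : red (1 + (12 : ℤ) • M) = 1 := by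
    ext i j
    simp only [red, Matrix.map_apply, Matrix.add_apply, Matrix.smul_apply, smul_eq_mul,
      Int.cast_add, Int.cast_mul, show ((12 : ℤ) : ZMod 12) = 0 from rfl, zero_mul, add_zero,
      Matrix.one_apply]
    split_ifs <;> simp
  refine ⟨A * (1 + (12 : ℤ) • M), ⟨bas_smul hd.bas hα0, hM.mul (hd.rel.smul α), ?_⟩, ?_⟩
  · rw [dot_smul]
    exact cong_mul (cong_mono ⟨12, by ring⟩ hα) hd.one
  · unfold val
    rw [red_mul, hr, mul_one, ta_smul hα0]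

theorem Hyp.pow_eq (H : Hyp φ) (hX : ChiData X) (hN : N ≠ 0) {c : Ideal (𝓞 F)} (hc : c ≠ ⊥)
    {w w' : Fin 2 → 𝓞 F} {b b' : Fin 2 → ℤ} (hw : IsBas φ c w) (hw' : IsBas φ c w')
    (hb : dot b w - 1 ∈ span {(N : 𝓞 F)}) (hb' : dot b' w' - 1 ∈ span {(N : 𝓞 F)}) :
    sgN N b' (ta φ w') ^ (24 * N) = sgN N b (ta φ w) ^ (24 * N) := by
  obtain ⟨G, hG, hG1⟩ := H.rel_one hc hw hw'
  have hs := H.hS N b' (ta φ w) hN hw.1
  have hs' := (H.hS N b (ta φ w) hN hw.1).2.2.1 (b' ᵥ* G)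
    (coord_cong hw hb (hG.dot b' ▸ hb'))
  rw [hG.ta H.hL hw.1, hs.1 X hX G hG1, mul_pow, show 24 * N = 12 * (2 * N) by ring, pow_mul,
    e12_pow12, one_pow, one_mul, mul_comm 12, pow_mul _ (2 * N), pow_mul _ (2 * N), hs']

omit [NumberField F] [IsTotallyComplex F] in
theorem val_pow (w : Fin 2 → 𝓞 F) (A : Mat) (b : Fin 2 → ℤ) :
    val φ X N w A b ^ (24 * N) = sgN N b (ta φ w) ^ (24 * N) := by
  rw [val, mul_pow, show 24 * N = 12 * (2 * N) by ring, pow_mul, e12_pow12, one_pow, one_mul]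

omit [NumberField F] [IsTotallyComplex F] in
theorem Dat.one' {c : Ideal (𝓞 F)} {w : Fin 2 → 𝓞 F} {A : Mat} {b : Fin 2 → ℤ}
    (hd : Dat φ w0 N c w A b) : dot b w - 1 ∈ span {(N : 𝓞 F)} :=
  cong_mono ⟨2 * N, by ring⟩ hd.one

theorem Hyp.eq_one (H : Hyp φ) {w : Fin 2 → 𝓞 F} {b : Fin 2 → ℤ} {d : ℕ}
    (h : dot b w - 1 ∈ span {(N : 𝓞 F)}) (hd : d ∣ N) (hb : ∀ i, (d : ℤ) ∣ b i) : d = 1 := by
  apply H.one_mem
  obtain ⟨x, hx⟩ := hb 0
  obtain ⟨y, hy⟩ := hb 1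
  have h1 : dot b w ∈ span {(d : 𝓞 F)} := Ideal.mem_span_singleton'.mpr ⟨x * w 0 + y * w 1, by
    rw [dot, hx, hy]
    push_cast
    ring⟩
  have h2 := sub_mem h1 (cong_mono hd h)
  rwa [sub_sub_cancel] at h2

end

end Lam

open Lam in
theorem lam : CHI → LATB → SGM → BAS → JINT → PHI → CMF → GINT → ZRAY → LAM := by
  rintro ⟨X, hX⟩ hL hS hB hJ hP hC hG hZ F _ _ _ φ N h2 h3
  have H : Hyp φ := ⟨hL, hS, hB, hJ, hP, h2⟩
  have hN : N ≠ 0 := by omega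
  obtain ⟨w0, h0⟩ := H.ex (I := ⊤) top_ne_bot
  have hex : ∀ c : Ideal (𝓞 F), ∃ x : ℂ, Cop (24 * N ^ 2) c →
      ∀ w A b, Dat φ w0 N c w A b → x = val φ X N w A b := by
    intro c
    by_cases hc : Cop (24 * N ^ 2) c
    · obtain ⟨w, A, b, hd⟩ := H.dat h0 hc
      exact ⟨val φ X N w A b, fun _ w' A' b' hd' => H.val_eq hX h0 hN hc hd' hd⟩
    · exact ⟨0, fun h => absurd h hc⟩
  choose lam hlam using hex
  have hdvd : N ∣ 24 * N ^ 2 := ⟨24 * N, by ring⟩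
  have hsm : ∀ c (α : 𝓞 F), Cop (24 * N ^ 2) c → α ≠ 0 →
      α - 1 ∈ span {((24 * N ^ 2 : ℕ) : 𝓞 F)} → lam (span {α} * c) = lam c := by
    intro c α hc hα0 hα
    obtain ⟨w, A, b, hd⟩ := H.dat h0 hc
    obtain ⟨A', hd', he⟩ := dat_smul (X := X) h0 hd hα0 hα
    rw [hlam _ (Cop.mul (cop_span hα0 hα) hc) _ _ _ hd', hlam c hc _ _ _ hd, he]
  refine ⟨lam, fun c hc => ?_, fun c c' hc hc' => ⟨?_, ?_⟩, ?_⟩
  · obtain ⟨w, A, b, hd⟩ := H.dat h0 hc
    have hg := hG N b (ta φ w) hN hd.bas.1 (H.jint hc.1 hd.bas)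
    rw [hlam c hc _ _ _ hd, val]
    refine ⟨(e12_int _).mul hg.1, mul_ne_zero (e12_ne _) ?_, fun hpp => ?_, ?_⟩
    · refine (hS N b (ta φ w) hN hd.bas.1).2.2.2 fun h => ?_
      have := H.eq_one hd.one' dvd_rfl h
      omega
    · rw [mul_inv, e12_inv]
      refine (e12_int _).mul (hg.2 (by omega) hpp ?_)
      rw [Nat.isCoprime_iff_coprime]
      refine H.eq_one hd.one' (Nat.gcd_dvd_right _ _) fun i => ?_
      refine (Int.natCast_dvd_natCast.mpr (Nat.gcd_dvd_left _ _)).trans ?_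
      fin_cases i
      · exact Int.gcd_dvd_left _ _
      · exact Int.gcd_dvd_right _ _
    · rw [norm_mul, e12_norm, one_mul]
      exact (hZ F φ N h2 h3).1 c (dot b w) w b (Cop.mono hdvd hc) (dot_mem hd.bas b) hd.one'
        hd.bas rfl
  · rintro ⟨α, β, hα0, hβ0, hα, hβ, h⟩
    rw [← hsm c α hc hα0 hα, ← hsm c' β hc' hβ0 hβ, h]
  · rintro ⟨α, β, hα0, hβ0, hα, hβ, h⟩
    obtain ⟨w, A, b, hd⟩ := H.dat h0 hc
    obtain ⟨w', A', b', hd'⟩ := H.dat h0 hc'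
    have h1 := H.pow_eq hX hN (b := b') (b' := b) (mul_ne_zero (cop_span hβ0 hβ).1 hc'.1)
      (bas_smul hd'.bas hβ0) (h ▸ bas_smul hd.bas hα0)
      (by rw [dot_smul]; exact cong_mul hβ hd'.one') (by rw [dot_smul]; exact cong_mul hα hd.one')
    rw [hlam c hc _ _ _ hd, hlam c' hc' _ _ _ hd', val_pow, val_pow, ← ta_smul hα0 w,
      ← ta_smul hβ0 w', h1]
  · intro c p P hc hp hq hsq hPp hpP
    have hcp := Cop.mul hc hp
    obtain ⟨w', A', b, hd'⟩ := H.dat h0 hcp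
    obtain ⟨w, hw⟩ := H.ex hc.1
    obtain ⟨A, hA, -⟩ := H.rel h0 hw le_top
    obtain ⟨B, hB1, hB2⟩ := H.rel_mul hc.1 hw hd'.bas
    have hd : Dat φ w0 N c w A (b ᵥ* B) := ⟨hw, hA, hB1.dot b ▸ hd'.one⟩
    have hA' : A' = B * A := Rel.uniq h0.1 hd'.rel (hA.mul hB1)
    have hcop : (absNorm p).Coprime (24 * N ^ 2) :=
      (ZMod.isUnit_iff_coprime _ _).mp (H.norm_unit hp)
    have hnd : ¬ absNorm p ∣ 6 * N := fun h =>
      hq.one_lt.ne' (Nat.Coprime.eq_one_of_dvd hcop (h.trans ⟨4 * N, by ring⟩))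
    have hp2 : absNorm p ≠ 2 := fun h => hnd (h ▸ ⟨3 * N, by ring⟩)
    have hta := hB1.ta hL hw.1
    have hj' := H.jint hcp.1 hd'.bas
    have hin : InP P (absNorm p : ℂ) := by
      have := hpP _ (Ideal.absNorm_mem p)
      simpa using this
    have hnot := H.not_inP hc.1 hq hp2 hsq hPp hpP hw hd'.bas
    rw [hB1.cv] at hnot
    have key := hC X hX N (absNorm p) b (cv φ w) B P hN hq hnd hw.1 hB2 (H.jint hc.1 hw)
      (hta ▸ hj') hPp hin hnot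
    have hu := H.det_unit h0 hc hw hA
    have hb : (red B).det = absNorm p := by rw [red_det, hB2, Int.cast_natCast]
    have hub : IsUnit (absNorm p : ZMod 12) := H.norm_unit (Cop.mono ⟨2 * N ^ 2, by ring⟩ hp)
    have h1 := InP.mul key (e12_int (-X (red B) - (red A).det * X (red A)))
    have h4 : e12 (-((red A').det * X (red A'))) ^ absNorm p =
        e12 (-X (red B) - (red A).det * X (red A)) := by
      rw [e12_pow, hA', red_mul, Matrix.det_mul, hX.mul _ _ (hb ▸ hub) hu, hb]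
      congr 1
      linear_combination (-(red A).det * ((red A).det * X (red B) + X (red A))) * sq_unit _ hub +
        (-X (red B)) * sq_unit _ hu
    have h5 : e12 (-((red A).det * X (red A))) =
        e12 (-X (red B) - (red A).det * X (red A)) * e12 (X (red B)) := by
      rw [← e12_add]
      congr 1
      ring
    rw [hlam _ hcp _ _ _ hd', hlam c hc _ _ _ hd, val, val, mul_pow, h4, h5, hta, mul_assoc,
      ← mul_sub]
    exact h1

end

end Pool.Agent.P.MP_29cb78_nt.C
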