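import Pool.Agent.P.MP_29cb78_nt.C.Iface

/-! The quotients of discriminants attached to isogenies of prime degree. -/

namespace Pool.Agent.P.MP_29cb78_nt.C

open scoped Classical Real Matrix MatrixGroups UpperHalfPlane

noncomputable section

namespace Phi

theorem mv_mul (A B : Mat) (w : Fin 2 → ℂ) : mv (A * B) w = mv A (mv B w) := by
  unfold mv
  rw [Matrix.mulVec_mulVec]
  congr 1
  exact Matrix.map_mul (f := Int.castRingHom ℂ)

theorem mv_smul (A : Mat) (c : ℂ) (w : Fin 2 → ℂ) : mv A (c • w) = c • mv A w :=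
  Matrix.mulVec_smul _ _ _

theorem DD_smul {c : ℂ} (hc : c ≠ 0) (w : Fin 2 → ℂ) : DD (c • w) = DD w / c ^ 12 := by
  unfold DD
  rw [Pi.smul_apply, Pi.smul_apply, smul_eq_mul, smul_eq_mul, mul_div_mul_left _ _ hc, mul_pow,
    div_div, mul_comm]

theorem ph_smul (p : ℕ) (C : Mat) {c : ℂ} (hc : c ≠ 0) (w : Fin 2 → ℂ) :
    ph p C (c • w) = ph p C w := by
  unfold ph
  rw [mv_smul, DD_smul hc, DD_smul hc, ← mul_div_assoc,
    div_div_div_cancel_right₀ (pow_ne_zero 12 hc)]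

theorem ph_norm (p : ℕ) (C : Mat) {w : Fin 2 → ℂ} (hw : Ori w) :
    ph p C w = ph p C ![w 0 / w 1, 1] := by
  have h1 : w 1 ≠ 0 := by
    intro h
    simp [Ori, h] at hw
  have h2 : w = w 1 • ![w 0 / w 1, 1] := by
    funext i
    fin_cases i
    · simp [mul_div_cancel₀ _ h1]
    · simp
  conv_lhs => rw [h2]
  exact ph_smul p C h1 _

theorem ori_mv (hL : LATB) {A : Mat} (hA : 0 < A.det) {w : Fin 2 → ℂ} (hw : Ori w) :
    Ori (mv A w) := by
  unfold Ori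
  rw [hL.1 A w hw]
  exact hL.2.1 A _ hA hw

theorem ori_one {τ : ℂ} (h : 0 < τ.im) : Ori ![τ, 1] := by simpa [Ori] using h

theorem ph_left (hL : LATB) (p : ℕ) {G R : Mat} (hG : G.det = 1) (hR : 0 < R.det)
    {w : Fin 2 → ℂ} (hw : Ori w) : ph p (G * R) w = ph p R w := by
  unfold ph
  rw [mv_mul, hL.2.2.2.1 G _ hG (ori_mv hL hR hw)]

theorem ph_mob (hL : LATB) (p : ℕ) (R : Mat) {A : Mat} (hA : A.det = 1) {τ : ℂ}
    (hτ : 0 < τ.im) : ph p R ![mob A τ, 1] = ph p (R * A) ![τ, 1] := by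
  have h1 := ph_norm p R (ori_mv hL (A := A) (by rw [hA]; exact one_pos) (ori_one hτ))
  rw [hL.1 A _ (ori_one hτ)] at h1
  have h2 : (![τ, 1] : Fin 2 → ℂ) 0 / (![τ, 1] : Fin 2 → ℂ) 1 = τ := by simp
  rw [h2] at h1
  rw [← h1]
  unfold ph
  rw [mv_mul, hL.2.2.2.1 A _ hA (ori_one hτ)]

theorem det_rp (p M : ℕ) (x : Option (Fin p)) : (rp p M x).det = p := by
  cases x <;> simp [rp, Matrix.det_fin_two]

theorem ph_perm (hL : LATB) (hC : COSET) {p M : ℕ} (hp : p.Prime) (hM : M.Coprime p) {A : Mat}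
    (hA : A.det = 1) : ∃ e : Equiv.Perm (Option (Fin p)), ∀ x, ∀ τ : ℂ, 0 < τ.im →
      ph p (rp p M x) ![mob A τ, 1] = ph p (rp p M (e x)) ![τ, 1] := by
  obtain ⟨e, he⟩ := (hC.2 p M hp hM).2 A hA
  refine ⟨e, fun x τ hτ => ?_⟩
  obtain ⟨G, hG, h⟩ := he x
  rw [ph_mob hL p _ hA hτ, h,
    ph_left hL p hG (by rw [det_rp]; exact_mod_cast hp.pos) (ori_one hτ)]

theorem ph_none (p M : ℕ) : (fun τ : ℂ => ph p (rp p M none) ![τ, 1]) = fun τ =>
    (p : ℂ) ^ 12 * ModularForm.eta (((p : ℕ) * τ + ((0 : ℤ) : ℂ)) / (1 : ℕ)) ^ 24 *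
      (ModularForm.eta τ ^ 24)⁻¹ := by
  funext τ
  simp [ph, DD, mv, rp, Matrix.mulVec, dotProduct, Fin.sum_univ_two, div_eq_mul_inv]

theorem ph_some {p : ℕ} (hp : p ≠ 0) (M : ℕ) (i : Fin p) :
    (fun τ : ℂ => ph p (rp p M (some i)) ![τ, 1]) = fun τ =>
    ModularForm.eta ((((1 : ℕ) : ℂ) * τ + (((M : ℤ) * (i : ℕ) : ℤ) : ℂ)) / p) ^ 24 *
      (ModularForm.eta τ ^ 24)⁻¹ := by
  funext τ
  have h : (p : ℂ) ≠ 0 := by exact_mod_cast hp
  simp [ph, DD, mv, rp, Matrix.mulVec, dotProduct, Fin.sum_univ_two]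
  rw [mul_div_cancel₀ _ (pow_ne_zero 12 h), div_eq_mul_inv]

theorem lead_const {c : ℂ} (hc : IsIntegral ℤ c) : QLead (fun _ => c) c 0 := by
  refine ⟨1, 0, fun n => if n = 0 then c else 0, one_ne_zero, fun n => ?_, fun τ _ => ?_, by simp,
    by simp⟩
  · beta_reduce
    split_ifs
    · exact hc
    · exact isIntegral_zero
  · have h := hasSum_single (f := fun n : ℕ => (if n = 0 then c else 0) *
      ee ((n + ((0 : ℤ) : ℂ)) * τ / (1 : ℕ))) 0 fun n hn => by simp [hn]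
    simpa [ee] using h

theorem QLead.qint {f : ℂ → ℂ} {u : ℂ} {r : ℚ} (h : QLead f u r) : QInt f := by
  obtain ⟨M, n0, c, hM, hc, he, -⟩ := h
  exact ⟨M, hM, n0, c, hc, he⟩

theorem lead_prod (hQ : QAPI) {ι : Type} (s : Finset ι) (f : ι → ℂ → ℂ) (u : ι → ℂ) (r : ι → ℚ)
    (h : ∀ i, QLead (f i) (u i) (r i)) :
    QLead (fun τ => ∏ i ∈ s, f i τ) (∏ i ∈ s, u i) (∑ i ∈ s, r i) := by
  induction s using Finset.induction_on with
  | empty => simpa using lead_const isIntegral_one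
  | insert a s ha ih =>
    simp only [Finset.prod_insert ha, Finset.sum_insert ha]
    exact hQ.lead_mul _ _ _ _ _ _ (h a) ih

theorem lead_delta (hJ : JQ) : QLead (fun τ => ModularForm.eta τ ^ 24) 1 1 := by
  obtain ⟨c, h1, h2, h3⟩ := hJ.2.1
  exact ⟨1, 1, c, one_ne_zero, h1, h3, h2, by simp⟩

theorem lead_inv (hJ : JQ) : QLead (fun τ => (ModularForm.eta τ ^ 24)⁻¹) 1 (-1) := by
  obtain ⟨c, h1, h2, h3⟩ := hJ.2.2
  exact ⟨1, -1, c, one_ne_zero, h1, h3, h2, by simp⟩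

theorem int_pow (p : ℕ) : IsIntegral ℤ ((p : ℂ) ^ 12) := (isIntegral_natCast p).pow 12

theorem lead_none (hQ : QAPI) (hJ : JQ) {p : ℕ} (hp : p ≠ 0) (M : ℕ) :
    QLead (fun τ : ℂ => ph p (rp p M none) ![τ, 1]) ((p : ℂ) ^ 12) (p - 1) := by
  rw [ph_none]
  have h := hQ.lead_mul _ _ _ _ _ _ (hQ.lead_mul _ _ _ _ _ _ (lead_const (int_pow p))
    (hQ.lead_aff _ _ _ p 1 0 hp one_ne_zero (lead_delta hJ))) (lead_inv hJ)
  convert h using 1
  · simp [ee]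
  · simp [sub_eq_add_neg]

theorem lead_some (hQ : QAPI) (hJ : JQ) {p : ℕ} (hp : p ≠ 0) (M : ℕ) (i : Fin p) :
    QLead (fun τ : ℂ => ph p (rp p M (some i)) ![τ, 1]) (ee (M * (i : ℕ) / p)) (1 / p - 1) := by
  rw [ph_some hp]
  have h := hQ.lead_mul _ _ _ _ _ _
    (hQ.lead_aff _ _ _ 1 p ((M : ℤ) * (i : ℕ)) one_ne_zero hp (lead_delta hJ)) (lead_inv hJ)
  convert h using 1
  · simp
  · simp [sub_eq_add_neg]

theorem prod_ee {p : ℕ} (hp : p.Prime) (h2 : p ≠ 2) (M : ℕ) :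
    ∏ i : Fin p, ee (M * (i : ℕ) / p) = 1 := by
  obtain ⟨k, hk⟩ := hp.odd_of_ne_two h2
  have h0 : (p : ℂ) ≠ 0 := by exact_mod_cast hp.ne_zero
  have h1 : ∑ i ∈ Finset.range p, i = p * k := by
    have h3 := Finset.sum_range_id_mul_two p
    have h4 : p - 1 = 2 * k := by omega
    rw [h4] at h3
    nlinarith
  have h5 : ∑ i : Fin p, ((i : ℕ) : ℂ) = p * k := by
    rw [Fin.sum_univ_eq_sum_range (fun i => (i : ℂ)) p, ← Nat.cast_sum, h1, Nat.cast_mul]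
  unfold ee
  rw [← Complex.exp_sum, ← Finset.mul_sum, ← Finset.sum_div, ← Finset.mul_sum, h5]
  have h6 : 2 * (π : ℂ) * Complex.I * (M * (p * k) / p) =
      ((M * k : ℕ) : ℂ) * (2 * π * Complex.I) := by
    push_cast
    field_simp
  rw [h6]
  exact Complex.exp_nat_mul_two_pi_mul_I _

theorem qint_ph (hQ : QAPI) (hJ : JQ) {p : ℕ} (hp : p ≠ 0) (M : ℕ) (x : Option (Fin p)) :
    QInt fun τ : ℂ => ph p (rp p M x) ![τ, 1] := by
  cases x with
  | none => exact QLead.qint (lead_none hQ hJ hp M)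
  | some i => exact QLead.qint (lead_some hQ hJ hp M i)

theorem qint_diff (hQ : QAPI) (hJ : JQ) {p : ℕ} (hp : p.Prime) (M : ℕ) (i i' : Fin p) :
    QInt fun τ : ℂ =>
      (ph p (rp p M (some i)) ![τ, 1] - ph p (rp p M (some i')) ![τ, 1]) / pi1 p := by
  obtain ⟨c, h1, -, h3⟩ := hJ.2.1
  have hD : QIntM 1 fun τ => ModularForm.eta τ ^ 24 := ⟨1, c, h1, h3⟩
  have s1 := hQ.shift 1 p ((M : ℤ) * (i : ℕ)) _ one_ne_zero hp (by simp) hD
  have s2 := hQ.shift 1 p ((M : ℤ) * (i' : ℕ)) _ one_ne_zero hp (by simp) hD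
  have s3 := hQ.mul' _ _ (hQ.add' _ _ s1
    (hQ.mul' _ _ (hQ.const (-1) isIntegral_one.neg) s2)) (QLead.qint (lead_inv hJ))
  convert s3 using 2 with τ
  rw [congrFun (ph_some hp.ne_zero M i) τ, congrFun (ph_some hp.ne_zero M i') τ]
  simp only [Nat.cast_one, one_mul]
  ring

theorem prod_ph (hQ : QAPI) (hJ : JQ) (hL : LATB) (hP : POLYJ) (hC : COSET) {p M : ℕ}
    (hp : p.Prime) (h2 : p ≠ 2) (hM : M.Coprime p) (τ : ℂ) (hτ : 0 < τ.im) :
    ∏ x, ph p (rp p M x) ![τ, 1] = (p : ℂ) ^ 12 := by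
  have h0 : (p : ℚ) ≠ 0 := by exact_mod_cast hp.ne_zero
  have h1 := hQ.lead_mul _ _ _ _ _ _ (lead_none hQ hJ hp.ne_zero M)
    (lead_prod hQ Finset.univ _ _ _ (lead_some hQ hJ hp.ne_zero M))
  rw [prod_ee hp h2, mul_one] at h1
  obtain ⟨N, n0, c, hN, hc, he, hc0, hr⟩ := h1
  have hn0 : n0 = 0 := by
    have h3 : ((p : ℚ) - 1) + ∑ _i : Fin p, (1 / (p : ℚ) - 1) = 0 := by
      rw [Finset.sum_const, Finset.card_univ, Fintype.card_fin, nsmul_eq_mul]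
      field_simp
      ring
    rw [h3, eq_comm, div_eq_zero_iff] at hr
    rcases hr with hr | hr
    · exact_mod_cast hr
    · exact absurd (by exact_mod_cast hr) hN
  obtain ⟨P, -, hP1, hP2⟩ := hP _ N n0 c hN hc he fun A σ hA hσ => by
    obtain ⟨e, hperm⟩ := ph_perm hL hC hp hM hA
    have h4 : ∏ x, ph p (rp p M x) ![mob A σ, 1] = ∏ x, ph p (rp p M x) ![σ, 1] := by
      simp only [hperm _ σ hσ]
      exact Equiv.prod_comp e fun x => ph p (rp p M x) ![σ, 1]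
    simpa only [Fintype.prod_option] using h4
  obtain ⟨hl, hd⟩ := hP2 (by rw [hc0]; exact pow_ne_zero 12 (by exact_mod_cast hp.ne_zero))
  have hd0 : P.natDegree = 0 := by
    rw [hn0, neg_zero, mul_eq_zero] at hd
    rcases hd with hd | hd
    · exact_mod_cast hd
    · exact absurd (by exact_mod_cast hd) hN
  rw [Fintype.prod_option, hP1 τ hτ, Polynomial.eq_C_of_natDegree_eq_zero hd0, Polynomial.eval_C,
    ← hc0, ← hl, Polynomial.leadingCoeff, hd0]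

end Phi

theorem phi : QAPI → JQ → LATB → POLYJ → COSET → INT → PHI := by
  intro hQ hJ hL hP hC hI p hp h2
  refine ⟨fun M hM => ⟨Phi.qint_ph hQ hJ hp.ne_zero M, Phi.qint_diff hQ hJ hp M,
    Phi.prod_ph hQ hJ hL hP hC hp h2 hM⟩, fun C w hdet hw hj => ?_⟩
  have h1 : Nat.Coprime 1 p := Nat.coprime_one_left p
  obtain ⟨x, G, hG, rfl⟩ := (hC.2 p 1 hp h1).1 C hdet
  rw [Phi.ph_left hL p hG (by rw [Phi.det_rp]; exact_mod_cast hp.pos) hw, Phi.ph_norm p _ hw]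
  refine hI (fun τ => ph p (rp p 1 x) ![τ, 1]) ⟨?_, fun A => ?_⟩ _ hw hj
  · refine (Set.finite_range fun y : Option (Fin p) =>
      fun τ : ℍ => ph p (rp p 1 y) ![(τ : ℂ), 1]).subset ?_
    rintro _ ⟨A, rfl⟩
    obtain ⟨e, he⟩ := Phi.ph_perm hL hC hp h1 A.det_coe
    exact ⟨e x, funext fun τ => (he x τ τ.im_pos).symm⟩
  · obtain ⟨e, he⟩ := Phi.ph_perm hL hC hp h1 A.det_coe
    obtain ⟨N, hN, h⟩ := Phi.qint_ph hQ hJ hp.ne_zero 1 (e x)
    exact ⟨N, hN, hQ.congr N _ _ h fun τ hτ => (he x τ hτ).symm⟩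

end

end Pool.Agent.P.MP_29cb78_nt.C
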