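import Pool.Agent.P.MP_29cb78_nt.C.Iface

/-!
The expansions of the modular invariant and of the discriminant; invariant functions with an
integral expansion are integral polynomials in the modular invariant.
-/

namespace Pool.Agent.P.MP_29cb78_nt.C

open Filter Topology UpperHalfPlane
open scoped Real MatrixGroups ModularForm

noncomputable section

namespace Polyj

variable {f g : ℂ → ℂ} {M : ℕ} {n0 m0 : ℤ} {c d : ℕ → ℂ}

theorem ee_add (x y : ℂ) : ee (x + y) = ee x * ee y := by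
  rw [ee, mul_add, Complex.exp_add]
  rfl

theorem ee_ne (x : ℂ) : ee x ≠ 0 := Complex.exp_ne_zero _

theorem ee_zero : ee 0 = 1 := by simp [ee]

theorem ee_nat (n : ℕ) (x : ℂ) : ee (n * x) = ee x ^ n := by
  rw [ee, ee, ← Complex.exp_nat_mul]
  congr 1
  ring

theorem ee_q (M : ℕ) (τ : ℂ) : ee (τ / M) = Function.Periodic.qParam M τ := by
  rw [ee, Function.Periodic.qParam, mul_div_assoc]
  simp

theorem ee_term (M n : ℕ) (n0 : ℤ) (τ : ℂ) :
    ee ((n + n0) * τ / M) = ee (n0 * τ / M) * ee (τ / M) ^ n := by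
  rw [← ee_nat, ← ee_add]
  congr 1
  ring

theorem hs {u v : ℕ → ℂ} {a : ℂ} (h : HasSum u a) (e : ∀ n, v n = u n) : HasSum v a :=
  (funext e : v = u) ▸ h

theorem pow_form (h : QExp f M n0 c) {τ : ℂ} (hτ : 0 < τ.im) :
    HasSum (fun n : ℕ => c n * ee (τ / M) ^ n) ((ee (n0 * τ / M))⁻¹ * f τ) := by
  refine hs ((h τ hτ).mul_left (ee (n0 * τ / M))⁻¹) fun n => ?_
  rw [ee_term]
  field_simp [ee_ne]

/-- The sum of the power series. -/
def F (c : ℕ → ℂ) (x : ℂ) : ℂ := ∑' n, c n * x ^ n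

theorem F_zero : F c 0 = c 0 := by
  rw [F, tsum_eq_single 0] <;> simp +contextual

theorem eq_F (h : QExp f M n0 c) {τ : ℂ} (hτ : 0 < τ.im) :
    f τ = ee (n0 * τ / M) * F c (ee (τ / M)) := by
  rw [F, (pow_form h hτ).tsum_eq]
  field_simp [ee_ne]

theorem summ (hM : M ≠ 0) (h : QExp f M n0 c) {r : ℝ} (h0 : 0 < r) (h1 : r < 1) :
    Summable fun n : ℕ => ‖c n‖ * r ^ n := by
  have hM' : (0 : ℝ) < M := by positivity
  have hr : ‖(r : ℂ)‖ < 1 := by rwa [Complex.norm_real, Real.norm_of_nonneg h0.le]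
  have hr0 : (r : ℂ) ≠ 0 := by exact_mod_cast h0.ne'
  have := (pow_form h
    (Function.Periodic.im_invQParam_pos_of_norm_lt_one hM' hr hr0)).summable.norm
  rw [ee_q, Function.Periodic.qParam_right_inv hM'.ne' hr0] at this
  simpa [abs_of_pos h0] using this

theorem diff_F (hM : M ≠ 0) (h : QExp f M n0 c) {x : ℂ} (hx : ‖x‖ < 1) :
    DifferentiableAt ℂ (F c) x := by
  obtain ⟨r, h1, h2⟩ := exists_between hx
  have h0 : 0 < r := (norm_nonneg _).trans_lt h1
  have := Complex.differentiableOn_tsum_of_summable_norm (F := fun n x => c n * x ^ n)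
    (U := Metric.ball 0 r) (summ hM h h0 h2) (fun n => by fun_prop) Metric.isOpen_ball
    fun n w hw => by
      rw [norm_mul, norm_pow]
      gcongr
      exact (mem_ball_zero_iff.1 hw).le
  exact this.differentiableAt (Metric.isOpen_ball.mem_nhds (mem_ball_zero_iff.2 h1))

theorem norm_ee (hM : M ≠ 0) {τ : ℂ} (hτ : 0 < τ.im) : ‖ee (τ / M)‖ < 1 := by
  rw [ee_q]
  exact Function.Periodic.norm_qParam_lt_one (by positivity) hτ

theorem lim_ee (hM : M ≠ 0) : Tendsto (fun τ : ℍ => ee (τ / M)) atImInfty (𝓝 0) := by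
  simp only [ee_q]
  exact qParam_tendsto_atImInfty (by positivity)

theorem lim_F (hM : M ≠ 0) (h : QExp f M n0 c) (u : ℂ) :
    Tendsto (fun τ : ℍ => F c (u * ee (τ / M))) atImInfty (𝓝 (c 0)) := by
  rw [← F_zero (c := c)]
  refine (diff_F hM h (by simp)).continuousAt.tendsto.comp ?_
  simpa using (lim_ee hM).const_mul u

/-- Invariance under the modular group. -/
def Inv (f : ℂ → ℂ) : Prop := ∀ (A : Mat) (τ : ℂ), A.det = 1 → 0 < τ.im → f (mob A τ) = f τ

theorem dvd_of_inv (hM : M ≠ 0) (h : QExp f M n0 c) (hi : Inv f) (hc : c 0 ≠ 0) :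
    (M : ℤ) ∣ n0 := by
  have h1 : ∀ τ : ℍ, ee (n0 / M) * F c (ee (1 / M) * ee (τ / M)) = F c (1 * ee (τ / M)) := by
    intro τ
    have h2 := hi !![1, 1; 0, 1] τ (by simp) τ.im_pos
    have h3 : mob !![1, 1; 0, 1] τ = τ + 1 := by simp [mob]
    rw [h3, eq_F h τ.im_pos, eq_F h (τ := τ + 1) (by simpa using τ.im_pos)] at h2
    have h4 : ee (n0 * (τ + 1) / M) = ee (n0 * τ / M) * ee (n0 / M) := by
      rw [← ee_add]
      congr 1
      ring
    have h5 : ee ((τ + 1) / M) = ee (1 / M) * ee (τ / M) := by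
      rw [← ee_add]
      congr 1
      ring
    rw [h4, h5, mul_assoc] at h2
    rw [one_mul]
    exact mul_left_cancel₀ (ee_ne _) h2
  have h2 := ((lim_F hM h (ee (1 / M))).const_mul (ee (n0 / M))).congr h1
  have h3 := tendsto_nhds_unique h2 (lim_F hM h 1)
  have h4 : ee (n0 / M) = 1 := mul_right_cancel₀ hc (by rw [h3, one_mul])
  obtain ⟨k, hk⟩ := Complex.exp_eq_one_iff.1 h4
  refine ⟨k, ?_⟩
  have hM' : (M : ℂ) ≠ 0 := by exact_mod_cast hM
  have h5 : (n0 : ℂ) = M * k := by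
    have := Complex.two_pi_I_ne_zero
    field_simp at hk
    linear_combination hk
  exact_mod_cast h5

theorem const_of_inv (hM : M ≠ 0) {G : ℂ → ℂ} (hG : ∀ x : ℂ, ‖x‖ < 1 → DifferentiableAt ℂ G x)
    (h : ∀ τ : ℂ, 0 < τ.im → f τ = G (ee (τ / M))) (hi : Inv f) {τ : ℂ} (hτ : 0 < τ.im) :
    f τ = G 0 := by
  have hlim : Tendsto (fun τ : ℍ => f τ) atImInfty (𝓝 (G 0)) :=
    ((hG 0 (by simp)).continuousAt.tendsto.comp (lim_ee hM)).congr fun τ => (h τ τ.im_pos).symm
  have hsl : ∀ γ : SL(2, ℤ), (fun τ : ℍ => f τ) ∣[(0 : ℤ)] γ = fun τ : ℍ => f τ := by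
    intro γ
    funext τ
    rw [ModularForm.SL_slash_apply, neg_zero, zpow_zero, mul_one, coe_specialLinearGroup_apply]
    simpa [mob] using hi γ.1 τ γ.2 τ.im_pos
  let φ : ModularForm 𝒮ℒ 0 :=
    { toFun := fun τ : ℍ => f τ
      slash_action_eq' := by
        rintro _ ⟨γ, rfl⟩
        exact hsl γ
      holo' := by
        rw [UpperHalfPlane.mdifferentiable_iff]
        have h1 : DifferentiableOn ℂ (fun z : ℂ => G (ee (z / M))) {z | 0 < z.im} := by
          intro z hz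
          refine ((hG _ (norm_ee hM hz)).comp z ?_).differentiableWithinAt
          unfold ee
          fun_prop
        refine h1.congr fun z hz => ?_
        simp only [Function.comp_apply, ofComplex_apply_of_im_pos hz]
        exact h z hz
      bdd_at_cusps' := fun {x} hx => by
        rw [OnePoint.isBoundedAt_iff_forall_SL2Z hx]
        intro γ _
        rw [hsl γ]
        exact hlim.isBigO_one ℝ }
  obtain ⟨K, hK⟩ := ModularFormClass.levelOne_weight_zero_const φ
  have h1 : ∀ τ : ℍ, f τ = K := fun τ => congrFun hK τ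
  have h2 : K = G 0 := tendsto_nhds_unique (tendsto_const_nhds.congr fun τ => (h1 τ).symm) hlim
  rw [← h2]
  exact h1 ⟨τ, hτ⟩

theorem nonneg_case (hM : M ≠ 0) {k : ℕ} (h : QExp f M k c) (hi : Inv f) :
    (∀ τ : ℂ, 0 < τ.im → f τ = c 0) ∧ (k ≠ 0 → c 0 = 0) := by
  have h1 : ∀ τ : ℂ, 0 < τ.im → f τ = ee (τ / M) ^ k * F c (ee (τ / M)) := fun τ hτ => by
    rw [eq_F h hτ, ← ee_nat, mul_div_assoc]
    simp
  have h2 : ∀ τ : ℂ, 0 < τ.im → f τ = 0 ^ k * F c 0 := fun τ hτ =>
    const_of_inv hM (G := fun x => x ^ k * F c x)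
      (fun x hx => (differentiableAt_pow k).mul (diff_F hM h hx)) h1 hi hτ
  rcases eq_or_ne k 0 with rfl | hk
  · exact ⟨fun τ hτ => by rw [h2 τ hτ, F_zero, pow_zero, one_mul], fun h => absurd rfl h⟩
  · have h3 : ∀ τ : ℍ, F c (1 * ee (τ / M)) = 0 := fun τ => by
      have := (h1 τ τ.im_pos).symm.trans (h2 τ τ.im_pos)
      rw [zero_pow hk, zero_mul] at this
      rw [one_mul]
      exact (mul_eq_zero.1 this).resolve_left (pow_ne_zero _ (ee_ne _))
    have h4 : c 0 = 0 := tendsto_nhds_unique ((lim_F hM h 1).congr h3) tendsto_const_nhds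
    exact ⟨fun τ hτ => by rw [h2 τ hτ, zero_pow hk, zero_mul, h4], fun _ => h4⟩

theorem shift (h : QExp f M n0 c) (hc : c 0 = 0) : QExp f M (n0 + 1) fun n => c (n + 1) := by
  intro τ hτ
  have := (hasSum_nat_add_iff' 1).2 (h τ hτ)
  simp only [Finset.range_one, Finset.sum_singleton, hc, zero_mul, sub_zero] at this
  refine hs this fun n => ?_
  congr 2
  push_cast
  ring

theorem qsub (h : QExp f M n0 c) (h' : QExp g M n0 d) (a : ℂ) :
    QExp (fun τ => f τ - a * g τ) M n0 fun n => c n - a * d n := by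
  intro τ hτ
  refine hs ((h τ hτ).sub ((h' τ hτ).mul_left a)) fun n => ?_
  ring

/-- Integral expansion with leading coefficient one. -/
def Ld (M : ℕ) (f : ℂ → ℂ) (n0 : ℤ) : Prop :=
  ∃ c : ℕ → ℂ, (∀ n, IsIntegral ℤ (c n)) ∧ c 0 = 1 ∧ QExp f M n0 c

theorem Ld.congr (h : Ld M f n0) (hg : ∀ τ : ℂ, 0 < τ.im → f τ = g τ) (hn : n0 = m0) :
    Ld M g m0 := by
  obtain ⟨c, h1, h2, h3⟩ := h
  exact ⟨c, h1, h2, fun τ hτ => hg τ hτ ▸ hn ▸ h3 τ hτ⟩

theorem Ld.mul (h : Ld M f n0) (h' : Ld M g m0) : Ld M (fun τ => f τ * g τ) (n0 + m0) := by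
  obtain ⟨c, h1, h2, h3⟩ := h
  obtain ⟨d, h4, h5, h6⟩ := h'
  refine ⟨fun n => ∑ x ∈ Finset.HasAntidiagonal.antidiagonal n, c x.1 * d x.2,
    fun n => IsIntegral.sum _ fun x _ => (h1 _).mul (h4 _), by simp [h2, h5], fun τ hτ => ?_⟩
  have s1 := (h3 τ hτ).summable.norm
  have s2 := (h6 τ hτ).summable.norm
  have s3 := (summable_norm_sum_mul_antidiagonal_of_summable_norm s1 s2).of_norm.hasSum
  rw [← tsum_mul_tsum_eq_tsum_sum_antidiagonal_of_summable_norm s1 s2, (h3 τ hτ).tsum_eq,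
    (h6 τ hτ).tsum_eq] at s3
  refine hs s3 fun n => ?_
  rw [Finset.sum_mul]
  refine Finset.sum_congr rfl fun x hx => ?_
  rw [← Finset.HasAntidiagonal.mem_antidiagonal.1 hx, mul_mul_mul_comm, ← ee_add]
  congr 2
  push_cast
  ring

theorem Ld.mon (M : ℕ) (k : ℤ) : Ld M (fun τ => ee (k * τ / M)) k := by
  refine ⟨fun n => if n = 0 then 1 else 0, fun n => ?_, by simp, fun τ _ => ?_⟩
  · beta_reduce
    split_ifs
    exacts [isIntegral_one, isIntegral_zero]
  · have := hasSum_single (f := fun n : ℕ => (if n = 0 then 1 else 0) * ee ((n + k) * τ / M)) 0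
      fun n hn => by simp [hn]
    simpa using this

theorem Ld.pow (h : Ld M f n0) (k : ℕ) : Ld M (fun τ => f τ ^ k) (k * n0) := by
  induction k with
  | zero => exact (Ld.mon M 0).congr (fun τ _ => by simp [ee_zero]) (by simp)
  | succ k ih => exact (ih.mul h).congr (fun τ _ => (pow_succ _ _).symm) (by push_cast; ring)

theorem Ld.up (hM : M ≠ 0) (h : Ld 1 f n0) : Ld M f (n0 * M) := by
  obtain ⟨c, h1, h2, h3⟩ := h
  refine ⟨fun n => if M ∣ n then c (n / M) else 0, fun n => ?_, by simp [h2], fun τ hτ => ?_⟩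
  · beta_reduce
    split_ifs
    exacts [h1 _, isIntegral_zero]
  · have hinj : Function.Injective fun n : ℕ => M * n := mul_right_injective₀ hM
    refine (hinj.hasSum_iff fun n hn => ?_).1 ?_
    · beta_reduce
      rw [if_neg, zero_mul]
      rintro ⟨k, rfl⟩
      exact hn ⟨k, rfl⟩
    · refine hs (h3 τ hτ) fun n => ?_
      have hM' : (M : ℂ) ≠ 0 := by exact_mod_cast hM
      simp only [Function.comp_apply, dvd_mul_right, if_true,
        Nat.mul_div_cancel_left n (Nat.pos_of_ne_zero hM)]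
      congr 2
      push_cast
      field_simp

theorem ld_E4 : Ld 1 (fun τ => ModularForm.E₄ (ofComplex τ)) 0 := by
  refine ⟨fun n => (qExpansion 1 ModularForm.E₄).coeff n, fun n => ?_,
    EisensteinSeries.E_qExpansion_coeff_zero _ ⟨2, rfl⟩, fun τ hτ => ?_⟩
  · beta_reduce
    rw [EisensteinSeries.E_qExpansion_coeff _ ⟨2, rfl⟩]
    split_ifs
    · exact isIntegral_one
    · have : -(2 * (4 : ℕ) / bernoulli 4 : ℂ) = ((240 : ℕ) : ℂ) := by
        rw [show bernoulli 4 = -1 / 30 by decide +kernel]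
        norm_num
      rw [this]
      exact (isIntegral_natCast _).mul (isIntegral_natCast _)
  · have := ModularForm.hasSum_qExpansion ModularForm.E₄ one_pos one_mem_strictPeriods_SL
      (ofComplex τ)
    refine hs this fun n => ?_
    rw [ee_term, ofComplex_apply_of_im_pos hτ, ee_q 1 τ]
    simp [ee_zero]

theorem eta_pow (τ : ℂ) : ModularForm.eta τ ^ 24 =
    ee ((1 : ℤ) * τ / (1 : ℕ)) * (∏' n : ℕ, (1 - 1 * ee ((n + 1 : ℕ) * τ / (1 : ℕ)))) ^ 24 := by
  have h1 : Function.Periodic.qParam 24 τ ^ 24 = ee ((1 : ℤ) * τ / (1 : ℕ)) := by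
    have := ee_q 24 τ
    push_cast at this
    rw [← this, ← ee_nat]
    congr 1
    push_cast
    ring
  have h2 : ∀ n : ℕ, 1 - ModularForm.eta_q n τ = 1 - 1 * ee ((n + 1 : ℕ) * τ / (1 : ℕ)) := by
    intro n
    rw [ModularForm.eta_q_eq_cexp, one_mul, ee]
    congr 2
    push_cast
    ring
  rw [ModularForm.eta, mul_pow, h1, tprod_congr h2]

theorem neg_case (hM : M ≠ 0) (hj : Ld 1 jf (-1)) (hi' : Inv jf) (k : ℕ) :
    ∀ (f : ℂ → ℂ) (c : ℕ → ℂ), (∀ n, IsIntegral ℤ (c n)) → QExp f M (-k) c → Inv f →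
      ∃ P : Polynomial ℂ, (∀ i, IsIntegral ℤ (P.coeff i)) ∧
        (∀ τ : ℂ, 0 < τ.im → f τ = P.eval (jf τ)) ∧ P.natDegree * M ≤ k ∧
        (c 0 ≠ 0 → P.leadingCoeff = c 0 ∧ P.natDegree * M = k) := by
  induction k with
  | zero =>
    intro f c hc h hi
    refine ⟨Polynomial.C (c 0), fun i => ?_, fun τ hτ => ?_, by simp, fun _ => by simp⟩
    · rw [Polynomial.coeff_C]
      split_ifs
      exacts [hc 0, isIntegral_zero]
    · rw [Polynomial.eval_C]
      exact (nonneg_case hM (k := 0) (by simpa using h) hi).1 τ hτ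
  | succ k ih =>
    intro f c hc h hi
    have e : -((k + 1 : ℕ) : ℤ) + 1 = -k := by
      push_cast
      ring
    rcases eq_or_ne (c 0) 0 with h0 | h0
    · obtain ⟨P, h1, h2, h3, -⟩ := ih f _ (fun n => hc (n + 1)) (e ▸ shift h h0) hi
      exact ⟨P, h1, h2, by omega, fun h => absurd h0 h⟩
    · obtain ⟨m, hm⟩ := Int.natCast_dvd_natCast.1 (dvd_neg.1 (dvd_of_inv hM h hi h0))
      obtain ⟨d, hd, hd0, hd1⟩ := ((hj.pow m).up hM).congr (fun _ _ => rfl)
        (m0 := -((k + 1 : ℕ) : ℤ)) (by rw [hm]; push_cast; ring)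
      have h1 := shift (qsub h hd1 (c 0)) (by simp [hd0])
      rw [e] at h1
      obtain ⟨P, h2, h3, h4, -⟩ := ih _ _ (fun n => (hc _).sub ((hc 0).mul (hd _))) h1
        fun A τ hA hτ => by simp only [hi A τ hA hτ, hi' A τ hA hτ]
      have h5 : P.natDegree < m := by
        refine lt_of_mul_lt_mul_right (a := M) ?_ (Nat.zero_le _)
        rw [mul_comm m]
        omega
      have h6 : P.natDegree < (Polynomial.monomial m (c 0)).natDegree := by
        rwa [Polynomial.natDegree_monomial_eq m h0]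
      have h7 : (P + Polynomial.monomial m (c 0)).natDegree = m := by
        rw [Polynomial.natDegree_add_eq_right_of_natDegree_lt h6,
          Polynomial.natDegree_monomial_eq m h0]
      refine ⟨P + Polynomial.monomial m (c 0), fun i => ?_, fun τ hτ => ?_, ?_, fun _ => ⟨?_, ?_⟩⟩
      · rw [Polynomial.coeff_add, Polynomial.coeff_monomial]
        refine (h2 i).add ?_
        split_ifs
        exacts [hc 0, isIntegral_zero]
      · rw [Polynomial.eval_add, Polynomial.eval_monomial, ← h3 τ hτ]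
        ring
      · rw [h7, hm, mul_comm]
      · rw [Polynomial.leadingCoeff_add_of_degree_lt (Polynomial.degree_lt_degree h6),
          Polynomial.leadingCoeff_monomial]
      · rw [h7, hm, mul_comm]

end Polyj

open Polyj

theorem jq : QAPI → PROD → JQ := by
  intro _ hp
  obtain ⟨h1, h2, -⟩ := hp 1 (fun _ => 1) (fun n => n + 1) one_ne_zero (fun _ => isIntegral_one)
    (fun _ => by simp) fun _ => le_rfl
  have h3 : Ld 1 (fun τ => ModularForm.eta τ ^ 24) 1 :=
    ((Ld.mon 1 1).mul (Ld.pow h1 24)).congr (fun τ _ => (eta_pow τ).symm) (by simp)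
  have h4 : Ld 1 (fun τ => (ModularForm.eta τ ^ 24)⁻¹) (-1) := by
    refine ((Ld.mon 1 (-1)).mul (Ld.pow h2 24)).congr (fun τ _ => ?_) (by simp)
    rw [eta_pow, mul_inv, inv_pow]
    congr 1
    refine eq_inv_of_mul_eq_one_left ?_
    rw [← ee_add, ← ee_zero]
    congr 1
    push_cast
    ring
  exact ⟨((ld_E4.pow 3).mul h4).congr (fun τ _ => (div_eq_mul_inv _ _).symm) (by simp), h3, h4⟩

theorem polyj : QAPI → JQ → LATB → POLYJ := by
  intro _ hj hl f M n0 c hM hc h hi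
  rcases le_or_gt n0 0 with h0 | h0
  · obtain ⟨k, rfl⟩ := Int.exists_eq_neg_ofNat h0
    obtain ⟨P, h1, h2, -, h3⟩ := neg_case hM hj.1 hl.2.2.2.2.2 k f c hc h hi
    refine ⟨P, h1, h2, fun h4 => ⟨(h3 h4).1, ?_⟩⟩
    rw [neg_neg]
    exact_mod_cast (h3 h4).2
  · obtain ⟨k, rfl⟩ := Int.eq_ofNat_of_zero_le h0.le
    obtain ⟨h1, h2⟩ := nonneg_case hM h hi
    have h3 : c 0 = 0 := h2 (by omega)
    exact ⟨0, fun i => by simpa using isIntegral_zero, fun τ hτ => by simp [h1 τ hτ, h3],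
      fun h4 => absurd h3 h4⟩

end

end Pool.Agent.P.MP_29cb78_nt.C
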