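import Pool.Agent.P.MP_29cb78_nt.C.Iface

/-! Closure properties of integral expansions. -/

namespace Pool.Agent.P.MP_29cb78_nt.C

open scoped Real

noncomputable section

namespace Qapi

theorem ee_add (x y : ℂ) : ee (x + y) = ee x * ee y := by
  unfold ee
  rw [mul_add, Complex.exp_add]

theorem ee_int (k : ℤ) : ee k = 1 := by
  unfold ee
  rw [mul_comm]
  exact Complex.exp_int_mul_two_pi_mul_I k

theorem ee_pow (x : ℂ) (n : ℕ) : ee x ^ n = ee (n * x) := by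
  unfold ee
  rw [← Complex.exp_nat_mul]
  congr 1
  ring

theorem ee_integral (k : ℤ) {N : ℕ} (hN : N ≠ 0) : IsIntegral ℤ (ee (k / N)) := by
  refine IsIntegral.of_pow (Nat.pos_of_ne_zero hN) ?_
  have h : (N : ℂ) ≠ 0 := Nat.cast_ne_zero.2 hN
  rw [ee_pow, mul_div_cancel₀ _ h, ee_int]
  exact isIntegral_one

theorem hs_congr {f g : ℕ → ℂ} {a : ℂ} (h : HasSum f a) (e : ∀ n, g n = f n) : HasSum g a :=
  (funext e : g = f) ▸ h

/-- Coefficients spread along an arithmetic progression. -/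
def spr (k d : ℕ) (c : ℕ → ℂ) : ℕ → ℂ := Function.extend (fun n => k * n + d) c 0

theorem lin_inj {k : ℕ} (hk : k ≠ 0) (d : ℕ) : Function.Injective fun n : ℕ => k * n + d :=
  fun _ _ h => Nat.eq_of_mul_eq_mul_left (Nat.pos_of_ne_zero hk) (Nat.add_right_cancel h)

theorem spr_on {k : ℕ} (hk : k ≠ 0) (d : ℕ) (c : ℕ → ℂ) (n : ℕ) : spr k d c (k * n + d) = c n :=
  (lin_inj hk d).extend_apply c 0 n

theorem spr_off (k d : ℕ) (c : ℕ → ℂ) {j : ℕ} (h : j ∉ Set.range fun n : ℕ => k * n + d) :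
    spr k d c j = 0 := Function.extend_apply' c (0 : ℕ → ℂ) j h

theorem spr_int {k : ℕ} (hk : k ≠ 0) (d : ℕ) {c : ℕ → ℂ} (hc : ∀ n, IsIntegral ℤ (c n)) (j : ℕ) :
    IsIntegral ℤ (spr k d c j) := by
  by_cases h : j ∈ Set.range fun n : ℕ => k * n + d
  · obtain ⟨n, rfl⟩ := h
    rw [spr_on hk]
    exact hc n
  · rw [spr_off k d c h]
    exact isIntegral_zero

theorem spr_zero {k : ℕ} (hk : k ≠ 0) (c : ℕ → ℂ) : spr k 0 c 0 = c 0 := spr_on hk 0 c 0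

theorem spr_pos (k : ℕ) {d : ℕ} (hd : d ≠ 0) (c : ℕ → ℂ) : spr k d c 0 = 0 :=
  spr_off k d c (by
    rintro ⟨n, hn⟩
    simp only at hn
    omega)

theorem re {f : ℂ → ℂ} {M k : ℕ} {n0 : ℤ} (hk : k ≠ 0) (d : ℕ) {c : ℕ → ℂ}
    (h : ∀ τ : ℂ, 0 < τ.im →
      HasSum (fun n : ℕ => c n * ee (((k : ℂ) * n + d + n0) * τ / M)) (f τ)) :
    QExp f M n0 (spr k d c) := by
  intro τ hτ
  refine ((lin_inj hk d).hasSum_iff fun j hj => by rw [spr_off k d c hj, zero_mul]).1 ?_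
  convert h τ hτ using 2 with n
  simp only [Function.comp_apply, spr_on hk]
  push_cast
  rfl

theorem mono {f : ℂ → ℂ} {M k : ℕ} {n0 : ℤ} {c : ℕ → ℂ} (hM : M ≠ 0) (hk : k ≠ 0)
    (h : QExp f M n0 c) : QExp f (M * k) (k * n0) (spr k 0 c) := by
  refine re hk 0 fun τ hτ => ?_
  have h1 : (M : ℂ) ≠ 0 := Nat.cast_ne_zero.2 hM
  have h2 : (k : ℂ) ≠ 0 := Nat.cast_ne_zero.2 hk
  convert h τ hτ using 4 with n
  push_cast
  field_simp
  ring

theorem low {f : ℂ → ℂ} {M : ℕ} {n0 l : ℤ} {c : ℕ → ℂ} (hl : l ≤ n0) (h : QExp f M n0 c) :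
    QExp f M l (spr 1 (n0 - l).toNat c) := by
  refine re one_ne_zero _ fun τ hτ => ?_
  have h1 : (((n0 - l).toNat : ℕ) : ℂ) = n0 - l := by
    rw [← Int.cast_natCast, Int.toNat_of_nonneg (by omega)]
    push_cast
    rfl
  convert h τ hτ using 6 with n
  rw [h1]
  push_cast
  ring

theorem add {f g : ℂ → ℂ} {M : ℕ} {n0 : ℤ} {c d : ℕ → ℂ} (hf : QExp f M n0 c)
    (hg : QExp g M n0 d) : QExp (fun τ => f τ + g τ) M n0 fun n => c n + d n := by
  intro τ hτ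
  simpa only [add_mul] using (hf τ hτ).add (hg τ hτ)

theorem cauchy {a b : ℕ → ℂ} {x y : ℂ} (h1 : HasSum a x) (h2 : HasSum b y) :
    HasSum (fun n => ∑ k ∈ Finset.range (n + 1), a k * b (n - k)) (x * y) := by
  have s1 : Summable fun n => ‖a n‖ := h1.summable.norm
  have s2 : Summable fun n => ‖b n‖ := h2.summable.norm
  rw [← h1.tsum_eq, ← h2.tsum_eq]
  exact hasSum_sum_range_mul_of_summable_norm s1 s2

theorem mul {f g : ℂ → ℂ} {M : ℕ} {n0 m0 : ℤ} {c d : ℕ → ℂ} (hf : QExp f M n0 c)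
    (hg : QExp g M m0 d) : QExp (fun τ => f τ * g τ) M (n0 + m0)
      fun n => ∑ k ∈ Finset.range (n + 1), c k * d (n - k) := by
  intro τ hτ
  refine hs_congr (cauchy (hf τ hτ) (hg τ hτ)) fun n => ?_
  rw [Finset.sum_mul]
  refine Finset.sum_congr rfl fun k hk => ?_
  have hk' : k ≤ n := Nat.lt_succ_iff.1 (Finset.mem_range.1 hk)
  rw [mul_mul_mul_comm, ← ee_add, Nat.cast_sub hk']
  congr 2
  push_cast
  ring

theorem conv_int {c d : ℕ → ℂ} (hc : ∀ n, IsIntegral ℤ (c n)) (hd : ∀ n, IsIntegral ℤ (d n))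
    (n : ℕ) : IsIntegral ℤ (∑ k ∈ Finset.range (n + 1), c k * d (n - k)) :=
  IsIntegral.sum _ fun k _ => (hc k).mul (hd _)

theorem im_aff {A D : ℕ} (B : ℤ) (hA : A ≠ 0) (hD : D ≠ 0) {τ : ℂ} (hτ : 0 < τ.im) :
    0 < (((A : ℂ) * τ + B) / D).im := by
  have h1 : (0 : ℝ) < A := Nat.cast_pos.2 (Nat.pos_of_ne_zero hA)
  have h2 : (0 : ℝ) < D := Nat.cast_pos.2 (Nat.pos_of_ne_zero hD)
  rw [Complex.div_natCast_im]
  simp only [Complex.add_im, Complex.mul_im, Complex.natCast_re, Complex.natCast_im,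
    Complex.intCast_im, zero_mul, add_zero]
  positivity

theorem aff {f : ℂ → ℂ} {M A D : ℕ} (B : ℤ) {n0 : ℤ} {c : ℕ → ℂ} (hM : M ≠ 0) (hA : A ≠ 0)
    (hD : D ≠ 0) (h : QExp f M n0 c) : QExp (fun τ => f ((A * τ + B) / D)) (M * D) (A * n0)
      (spr A 0 fun n => c n * ee ((((n + n0) * B : ℤ) : ℂ) / (M * D : ℕ))) := by
  refine re hA 0 fun τ hτ => ?_
  have h1 : (M : ℂ) ≠ 0 := Nat.cast_ne_zero.2 hM
  have h2 : (D : ℂ) ≠ 0 := Nat.cast_ne_zero.2 hD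
  convert h _ (im_aff B hA hD hτ) using 2 with n
  rw [mul_assoc, ← ee_add]
  congr 2
  push_cast
  field_simp
  ring

theorem prim {p : ℕ} (hp : p ≠ 0) : IsPrimitiveRoot (ee (1 / p)) p := by
  have h := Complex.isPrimitiveRoot_exp p hp
  unfold ee
  rwa [mul_one_div]

theorem zeta_int {p : ℕ} (hp : p ≠ 0) : IsIntegral ℤ (ee (1 / p)) := by
  simpa using ee_integral 1 hp

theorem pi_ne {p : ℕ} (hp : p.Prime) : pi1 p ≠ 0 :=
  sub_ne_zero.2 ((prim hp.ne_zero).ne_one hp.one_lt).symm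

theorem quot_int {p : ℕ} (hp : p.Prime) (k : ℤ) : IsIntegral ℤ ((ee (k / p) - 1) / pi1 p) := by
  have h0 : (p : ℂ) ≠ 0 := Nat.cast_ne_zero.2 hp.ne_zero
  have h1 : (0 : ℤ) ≤ k % p := Int.emod_nonneg _ (Nat.cast_ne_zero.2 hp.ne_zero)
  obtain ⟨r, hr⟩ := Int.eq_ofNat_of_zero_le h1
  have h2 : (k : ℂ) = p * (k / p : ℤ) + r := by
    have := Int.mul_ediv_add_emod k p
    rw [hr] at this
    exact_mod_cast this.symm
  have h3 : ee (k / p) = ee (1 / p) ^ r := by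
    have e : (k : ℂ) / p = (k / p : ℤ) + r * (1 / p) := by
      rw [div_eq_iff h0]
      conv_lhs => rw [h2]
      field_simp
    rw [e, ee_add, ee_int, one_mul, ee_pow]
  have h4 : (ee (k / p) - 1) / pi1 p = -∑ j ∈ Finset.range r, ee (1 / p) ^ j := by
    rw [div_eq_iff (pi_ne hp), h3, ← geom_sum_mul, pi1]
    ring
  rw [h4]
  exact (IsIntegral.sum _ fun j _ => (zeta_int hp.ne_zero).pow j).neg

theorem shift {f : ℂ → ℂ} {M p : ℕ} (i : ℤ) {n0 : ℤ} {c : ℕ → ℂ} (hM : M ≠ 0) (hp : p ≠ 0)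
    (h : QExp f M n0 c) :
    QExp (fun τ => (f ((τ + ((M : ℤ) * i : ℤ)) / p) - f (τ / p)) / pi1 p) (M * p) n0
      fun n => c n * ((ee ((((n + n0) * i : ℤ) : ℂ) / p) - 1) / pi1 p) := by
  intro τ hτ
  have h1 : (M : ℂ) ≠ 0 := Nat.cast_ne_zero.2 hM
  have h2 : (p : ℂ) ≠ 0 := Nat.cast_ne_zero.2 hp
  have i1 := im_aff ((M : ℤ) * i) one_ne_zero hp hτ
  have i2 := im_aff 0 one_ne_zero hp hτ
  rw [Nat.cast_one, one_mul] at i1 i2
  rw [Int.cast_zero, add_zero] at i2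
  refine hs_congr (((h _ i1).sub (h _ i2)).div_const (pi1 p)) fun n => ?_
  have e1 : ((n : ℂ) + n0) * ((τ + ((M : ℤ) * i : ℤ)) / p) / M =
      (((n + n0) * i : ℤ) : ℂ) / p + (n + n0) * τ / (M * p : ℕ) := by
    push_cast
    field_simp
    ring
  have e2 : ((n : ℂ) + n0) * (τ / p) / M = (n + n0) * τ / (M * p : ℕ) := by
    push_cast
    field_simp
  rw [e1, e2, ee_add]
  ring

theorem pi_div {p : ℕ} (hp : p.Prime) : IsIntegral ℤ (p / pi1 p) := by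
  have hz := zeta_int hp.ne_zero
  have h0 := pi_ne hp
  have h1 := prim hp.ne_zero
  obtain ⟨m, rfl⟩ : ∃ m, p = m + 1 + 1 := ⟨p - 2, by have := hp.two_le; omega⟩
  have h2 := h1.prod_one_sub_pow_eq_order
  rw [Finset.prod_range_succ', zero_add, pow_one] at h2
  have h3 : ((m + 1 + 1 : ℕ) : ℂ) / pi1 (m + 1 + 1) =
      ∏ k ∈ Finset.range m, (1 - ee (1 / ((m + 1 + 1 : ℕ) : ℂ)) ^ (k + 1 + 1)) := by
    rw [div_eq_iff h0, pi1, h2]
    push_cast
    ring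
  rw [h3]
  exact IsIntegral.prod _ fun k _ => isIntegral_one.sub (hz.pow _)

theorem pi_pow {p : ℕ} (hp : p.Prime) : IsIntegral ℤ (pi1 p ^ p / p) := by
  have hz := zeta_int hp.ne_zero
  have h0 : (p : ℂ) ≠ 0 := Nat.cast_ne_zero.2 hp.ne_zero
  have h1 := (prim hp.ne_zero).pow_eq_one
  obtain ⟨r, hr⟩ := exists_add_pow_prime_eq hp (1 : integralClosure ℤ ℂ) (-⟨ee (1 / p), hz⟩)
  have h2 : (1 + -ee (1 / p)) ^ p = 1 ^ p + (-ee (1 / p)) ^ p + p * 1 * -ee (1 / p) * (r : ℂ) := by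
    have := congrArg (integralClosure ℤ ℂ).val hr
    simp only [map_add, map_pow, map_mul, map_neg, map_one, map_natCast] at this
    exact this
  have hr' : IsIntegral ℤ (r : ℂ) := r.2
  rw [one_pow, neg_pow, h1, mul_one, ← sub_eq_add_neg] at h2
  rcases hp.eq_two_or_odd' with rfl | ho
  · have h3 : pi1 2 ^ 2 / ((2 : ℕ) : ℂ) = 1 - ee (1 / ((2 : ℕ) : ℂ)) * r := by
      rw [div_eq_iff h0, pi1, h2]
      push_cast
      ring
    rw [h3]
    exact isIntegral_one.sub (hz.mul hr')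
  · have h3 : pi1 p ^ p / (p : ℂ) = -(ee (1 / p) * r) := by
      rw [div_eq_iff h0, pi1, h2, ho.neg_one_pow]
      ring
    rw [h3]
    exact (hz.mul hr').neg

theorem monoM {M M' : ℕ} {f : ℂ → ℂ} (hM : M' ≠ 0) (hd : M ∣ M') (h : QIntM M f) :
    QIntM M' f := by
  obtain ⟨k, rfl⟩ := hd
  obtain ⟨n0, c, hc, h⟩ := h
  have hk : k ≠ 0 := right_ne_zero_of_mul hM
  exact ⟨_, _, spr_int hk 0 hc, mono (left_ne_zero_of_mul hM) hk h⟩

theorem addM {M : ℕ} {f g : ℂ → ℂ} (hf : QIntM M f) (hg : QIntM M g) :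
    QIntM M fun τ => f τ + g τ := by
  obtain ⟨n0, c, hc, hf⟩ := hf
  obtain ⟨m0, d, hd, hg⟩ := hg
  exact ⟨_, _, fun n => (spr_int one_ne_zero _ hc n).add (spr_int one_ne_zero _ hd n),
    add (low (min_le_left n0 m0) hf) (low (min_le_right n0 m0) hg)⟩

theorem mulM {M : ℕ} {f g : ℂ → ℂ} (hf : QIntM M f) (hg : QIntM M g) :
    QIntM M fun τ => f τ * g τ := by
  obtain ⟨n0, c, hc, hf⟩ := hf
  obtain ⟨m0, d, hd, hg⟩ := hg
  exact ⟨_, _, conv_int hc hd, mul hf hg⟩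

theorem mon (M : ℕ) {c : ℂ} (n : ℤ) (hc : IsIntegral ℤ c) :
    QIntM M fun τ => c * ee (n * τ / M) := by
  refine ⟨n, fun j => if j = 0 then c else 0, fun j => ?_, fun τ _ => ?_⟩
  · dsimp only
    split_ifs
    · exact hc
    · exact isIntegral_zero
  · convert hasSum_single (f := fun j : ℕ => (if j = 0 then c else 0) * ee ((j + n) * τ / M)) 0
      fun j hj => by rw [if_neg hj, zero_mul] using 1
    simp

/-- A common denominator for two expansions with leading terms. -/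
theorem common {f g : ℂ → ℂ} {u v : ℂ} {r t : ℚ} (hf : QLead f u r) (hg : QLead g v t) :
    ∃ (M : ℕ) (n0 m0 : ℤ) (c d : ℕ → ℂ), M ≠ 0 ∧ (∀ n, IsIntegral ℤ (c n)) ∧
      (∀ n, IsIntegral ℤ (d n)) ∧ QExp f M n0 c ∧ QExp g M m0 d ∧ c 0 = u ∧ d 0 = v ∧
      r = n0 / M ∧ t = m0 / M := by
  obtain ⟨M, n0, c, hM, hc, hf, hu, hr⟩ := hf
  obtain ⟨N, m0, d, hN, hd, hg, hv, ht⟩ := hg
  have h1 : (M : ℚ) ≠ 0 := Nat.cast_ne_zero.2 hM
  have h2 : (N : ℚ) ≠ 0 := Nat.cast_ne_zero.2 hN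
  refine ⟨M * N, N * n0, M * m0, _, _, mul_ne_zero hM hN, spr_int hN 0 hc, spr_int hM 0 hd,
    mono hM hN hf, mul_comm N M ▸ mono hN hM hg, (spr_zero hN c).trans hu,
    (spr_zero hM d).trans hv, ?_, ?_⟩
  · rw [hr]; push_cast; field_simp
  · rw [ht]; push_cast; field_simp

end Qapi

theorem qapi : QAPI where
  congr M f g h he := by
    obtain ⟨n0, c, hc, h⟩ := h
    exact ⟨n0, c, hc, fun τ hτ => he τ hτ ▸ h τ hτ⟩
  mono M M' f hM hd h := Qapi.monoM hM hd h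
  add M f g _ hf hg := Qapi.addM hf hg
  mul M f g _ hf hg := Qapi.mulM hf hg
  mon M c n hc := Qapi.mon M n hc
  add' f g hf hg := by
    obtain ⟨M, hM, hf⟩ := hf
    obtain ⟨N, hN, hg⟩ := hg
    have h := mul_ne_zero hM hN
    exact ⟨M * N, h, Qapi.addM (Qapi.monoM h (dvd_mul_right M N) hf)
      (Qapi.monoM h (dvd_mul_left N M) hg)⟩
  mul' f g hf hg := by
    obtain ⟨M, hM, hf⟩ := hf
    obtain ⟨N, hN, hg⟩ := hg
    have h := mul_ne_zero hM hN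
    exact ⟨M * N, h, Qapi.mulM (Qapi.monoM h (dvd_mul_right M N) hf)
      (Qapi.monoM h (dvd_mul_left N M) hg)⟩
  const c hc := by
    refine ⟨1, one_ne_zero, ?_⟩
    convert Qapi.mon 1 0 hc using 2 with τ
    simp [ee]
  aff f A D B hA hD h := by
    obtain ⟨M, hM, n0, c, hc, h⟩ := h
    exact ⟨M * D, mul_ne_zero hM hD, _, _,
      Qapi.spr_int hA 0 fun n => (hc n).mul (Qapi.ee_integral _ (mul_ne_zero hM hD)),
      Qapi.aff B hM hA hD h⟩
  shift M p i f hM hp hi h := by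
    obtain ⟨i, rfl⟩ := hi
    obtain ⟨n0, c, hc, h⟩ := h
    exact ⟨M * p, mul_ne_zero hM hp.ne_zero, _, _, fun n => (hc n).mul (Qapi.quot_int hp _),
      Qapi.shift i hM hp.ne_zero h⟩
  lead_mul f g u v r t hf hg := by
    obtain ⟨M, n0, m0, c, d, hM, hc, hd, hf, hg, hu, hv, hr, ht⟩ := Qapi.common hf hg
    refine ⟨M, _, _, hM, Qapi.conv_int hc hd, Qapi.mul hf hg, by simp [hu, hv], ?_⟩
    rw [hr, ht]; push_cast; ring
  lead_add f g u v r t hf hg hrt := by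
    obtain ⟨M, n0, m0, c, d, hM, hc, hd, hf, hg, hu, -, hr, ht⟩ := Qapi.common hf hg
    have h1 : (0 : ℚ) < M := Nat.cast_pos.2 (Nat.pos_of_ne_zero hM)
    have h2 : n0 < m0 := by
      rw [hr, ht, div_lt_div_iff_of_pos_right h1] at hrt
      exact_mod_cast hrt
    refine ⟨M, n0, _, hM, fun n => (hc n).add (Qapi.spr_int one_ne_zero _ hd n),
      Qapi.add hf (Qapi.low h2.le hg), ?_, hr⟩
    rw [Qapi.spr_pos 1 (by omega), add_zero, hu]
  lead_aff f u r A D B hA hD h := by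
    obtain ⟨M, n0, c, hM, hc, h, hu, hr⟩ := h
    refine ⟨M * D, _, _, mul_ne_zero hM hD,
      Qapi.spr_int hA 0 fun n => (hc n).mul (Qapi.ee_integral _ (mul_ne_zero hM hD)),
      Qapi.aff B hM hA hD h, ?_, ?_⟩
    · rw [Qapi.spr_zero hA, hu, hr]
      congr 2
      push_cast
      ring
    · rw [hr]; push_cast; ring
  pi_int p hp := ⟨Qapi.pi_ne hp, isIntegral_one.sub (Qapi.zeta_int hp.ne_zero), Qapi.pi_div hp,
    Qapi.pi_pow hp⟩

end

end Pool.Agent.P.MP_29cb78_nt.C
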