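import Pool.Agent.P.MP_29cb78_nt.C.Iface

/-!
The second inequality for a family of ray class characters of an imaginary quadratic field.
-/

namespace Pool.Agent.P.MP_29cb78_nt.C

open NumberField Set Ideal Filter Topology IsDedekindDomain
open scoped Classical

noncomputable section

namespace Si

variable {F : Type} [Field F]

theorem cop_mul {n : ℕ} {I J : Ideal (𝓞 F)} : Cop n (I * J) ↔ Cop n I ∧ Cop n J := by
  unfold Cop
  rw [IsCoprime.mul_left_iff, Ne, Ideal.mul_eq_bot, not_or]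
  tauto

theorem cop_one (n : ℕ) : Cop n (1 : Ideal (𝓞 F)) :=
  ⟨by rw [Ideal.one_eq_top]; exact top_ne_bot, isCoprime_one_left⟩

theorem cop_max [NumberField F] {n : ℕ} {P : Ideal (𝓞 F)} (hP : P.IsMaximal)
    (hn : (n : 𝓞 F) ∉ P) : Cop n P := by
  refine ⟨Ring.ne_bot_of_isMaximal_of_not_isField hP (RingOfIntegers.not_isField F), ?_⟩
  rw [Ideal.isCoprime_iff_sup_eq]
  by_contra h
  have := hP.eq_of_le h le_sup_left
  apply hn
  rw [this]
  exact Ideal.mem_sup_right (Ideal.mem_span_singleton_self _)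

/-- The character restricted to the ideals coprime to `n`. -/
def res (n : ℕ) (ψ : Ideal (𝓞 F) →* ℂ) : Ideal (𝓞 F) →* ℂ where
  toFun I := if Cop n I then ψ I else 0
  map_one' := by rw [if_pos (cop_one n), map_one]
  map_mul' I J := by
    by_cases hI : Cop n I
    · by_cases hJ : Cop n J
      · rw [if_pos (cop_mul.mpr ⟨hI, hJ⟩), if_pos hI, if_pos hJ, map_mul]
      · rw [if_neg fun h => hJ (cop_mul.mp h).2, if_neg hJ, mul_zero]
    · rw [if_neg fun h => hI (cop_mul.mp h).1, if_neg hI, zero_mul]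

theorem res_apply (n : ℕ) (ψ : Ideal (𝓞 F) →* ℂ) (I : Ideal (𝓞 F)) :
    res n ψ I = if Cop n I then ψ I else 0 := rfl

theorem res_bound {n : ℕ} {ψ : Ideal (𝓞 F) →* ℂ} (h : ∀ I, Cop n I → ‖ψ I‖ = 1)
    (I : Ideal (𝓞 F)) : ‖res n ψ I‖ ≤ 1 := by
  rw [res_apply]
  split_ifs with hI
  · exact (h I hI).le
  · simp

theorem ray_eq {n : ℕ} {ψ : Ideal (𝓞 F) →* ℂ} (h : Ray n ψ) {I J : Ideal (𝓞 F)}
    (hIJ : RayEq n I J) : ψ I = ψ J := by
  obtain ⟨α, β, hα, hβ, hα1, hβ1, e⟩ := hIJ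
  have := congrArg ψ e
  rwa [map_mul, map_mul, h α hα hα1, h β hβ hβ1, one_mul, one_mul] at this

variable [NumberField F]

theorem summ (hD : DIRI) (a : Ideal (𝓞 F) → ℂ) (ha : ∀ I, ‖a I‖ ≤ 1) {s : ℂ} (hs : 1 < s.re) :
    Summable fun I : Ideal (𝓞 F) => a I * (absNorm I : ℂ) ^ (-s) := by
  refine Summable.of_norm_bounded (hD F s hs).1 fun I => ?_
  rw [norm_mul]
  exact mul_le_of_le_one_left (norm_nonneg _) (ha I)

/-- Decomposition of the series of a ray class character along the ray classes. -/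
theorem decomp (hD : DIRI) (hR : RAY) {n : ℕ} (hn : n ≠ 0) :
    ∃ (C : Type) (_ : Fintype C) (r r' : C → Ideal (𝓞 F)), (∀ c, Cop n (r c)) ∧
      (∀ c, Cop n (r' c)) ∧ ∀ ψ : Ideal (𝓞 F) →* ℂ, Ray n ψ →
        (∀ s : ℂ, 1 < s.re → Lser (res n ψ) s = ∑ c, ψ (r c) * rz n (r' c) s) ∧
        ((∃ I, Cop n I ∧ ψ I ≠ 1) → ∑ c, ψ (r c) = 0) := by
  obtain ⟨C, iG, iF, cl, hmul, heq, hsurj⟩ := hR F n hn
  have iFt : Fintype C := Fintype.ofFinite C
  have hs1 : ∀ c : C, ∃ I, Cop n I ∧ cl I = c := fun c => by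
    simpa using hsurj 1 one_ne_zero c
  choose r hr hcl using hs1
  have h1 : cl 1 = 1 := by
    have := hmul 1 1 (cop_one n) (cop_one n)
    rw [mul_one] at this
    exact left_eq_mul.mp this
  refine ⟨C, iFt, r, fun c => r c⁻¹, hr, fun c => hr _, fun ψ hψ => ?_⟩
  have hfac : ∀ I, Cop n I → ψ (r (cl I)) = ψ I := fun I hI =>
    ray_eq hψ ((heq _ _ (hr _) hI).mp (hcl _))
  refine ⟨fun s hs => ?_, fun ⟨I, hI, hI1⟩ => ?_⟩
  · have hind : ∀ (c : C) (I : Ideal (𝓞 F)),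
        (Cop n I ∧ RayEq n (I * r c⁻¹) 1) ↔ (Cop n I ∧ cl I = c) := fun c I => by
      refine and_congr_right fun hI => ?_
      rw [← heq _ _ (cop_mul.mpr ⟨hI, hr _⟩) (cop_one n), hmul _ _ hI (hr _), hcl, h1,
        mul_inv_eq_one]
    simp only [rz, Lser, hind, ← tsum_mul_left]
    rw [← Summable.tsum_finsetSum]
    · refine tsum_congr fun I => ?_
      rw [res_apply]
      by_cases hI : Cop n I
      · rw [if_pos hI, Finset.sum_eq_single (cl I)]
        · simp [hI, hfac I hI]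
        · intro c _ hc
          simp [Ne.symm hc]
        · simp
      · simp [hI]
    · intro c _
      refine Summable.mul_left _ (summ hD _ (fun I => ?_) hs)
      split_ifs <;> simp
  · have hsh : ∑ c, ψ (r c) = ψ I * ∑ c, ψ (r c) := by
      rw [Finset.mul_sum]
      refine (Fintype.sum_equiv (Equiv.mulLeft (cl I)) _ _ fun c => ?_).symm
      rw [Equiv.coe_mulLeft, ← map_mul, ← hfac _ (cop_mul.mpr ⟨hI, hr c⟩), hmul _ _ hI (hr c),
        hcl]
    have : (1 - ψ I) * ∑ c, ψ (r c) = 0 := by linear_combination hsh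
    exact (mul_eq_zero.mp this).resolve_left (sub_ne_zero.mpr hI1.symm)

theorem ev_Ioo : ∀ᶠ s : ℝ in 𝓝[>] 1, 1 < s ∧ s < 2 := by
  filter_upwards [Ioo_mem_nhdsGT (show (1 : ℝ) < 2 by norm_num)] with s hs using hs

/-- Bounds for the series of ray class characters near `1`. -/
theorem lbound [IsTotallyComplex F] (hD : DIRI) (hR : RAY) (hZ : ZRAY) {n : ℕ}
    (h2 : Module.finrank ℚ F = 2) (hn : 3 ≤ n) (ψ : Ideal (𝓞 F) →* ℂ) (hψ : Ray n ψ)
    (h1 : ∀ I, Cop n I → ‖ψ I‖ = 1) :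
    ∃ K : ℝ, 0 < K ∧ ∀ᶠ s : ℝ in 𝓝[>] 1, ‖Lser (res n ψ) s‖ ≤ K * (1 / (s - 1)) ∧
      ((∃ I, Cop n I ∧ ψ I ≠ 1) → ‖Lser (res n ψ) s‖ ≤ K) := by
  obtain ⟨C, iF, r, r', hr, hr', h⟩ := decomp (F := F) hD hR (n := n) (by omega)
  obtain ⟨hL, h0⟩ := h ψ hψ
  obtain ⟨φ⟩ : Nonempty (F →+* ℂ) := inferInstance
  obtain ⟨ρ, hρ⟩ := (hZ F φ n h2 hn).2
  choose B hB using fun c => hρ (r' c) (hr' c)
  have hall := eventually_all.mpr hB
  have hK : 0 ≤ ∑ c, |B c| := Finset.sum_nonneg fun c _ => abs_nonneg _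
  refine ⟨∑ c, |B c| + ‖∑ c, ψ (r c)‖ * |ρ| + 1, by positivity, ?_⟩
  filter_upwards [hall, ev_Ioo] with s hs ⟨hs1, hs2⟩
  have hsplit : Lser (res n ψ) s = ∑ c, ψ (r c) * (rz n (r' c) s - ((ρ / (s - 1) : ℝ) : ℂ)) +
      (∑ c, ψ (r c)) * ((ρ / (s - 1) : ℝ) : ℂ) := by
    rw [hL s (by simpa using hs1), Finset.sum_mul, ← Finset.sum_add_distrib]
    exact Finset.sum_congr rfl fun c _ => by ring
  have hb : ‖∑ c, ψ (r c) * (rz n (r' c) s - ((ρ / (s - 1) : ℝ) : ℂ))‖ ≤ ∑ c, |B c| := by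
    refine (norm_sum_le _ _).trans (Finset.sum_le_sum fun c _ => ?_)
    rw [norm_mul, h1 _ (hr c), one_mul]
    exact (hs c).trans (le_abs_self _)
  have hs0 : 0 < s - 1 := by linarith
  have hi : 1 ≤ 1 / (s - 1) := by
    rw [le_div_iff₀ hs0]; linarith
  have hx : 0 ≤ ‖∑ c, ψ (r c)‖ * |ρ| := by positivity
  constructor
  · rw [hsplit]
    refine (norm_add_le _ _).trans ?_
    rw [norm_mul, Complex.norm_real, Real.norm_eq_abs, abs_div, abs_of_pos hs0,
      div_eq_mul_one_div |ρ|]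
    nlinarith [mul_le_mul_of_nonneg_left hi hK]
  · intro hI
    rw [hsplit, h0 hI, zero_mul, add_zero]
    simp only [norm_zero, zero_mul]
    linarith

theorem npow_eq (P : HeightOneSpectrum (𝓞 F)) (s : ℝ) :
    (absNorm P.asIdeal : ℂ) ^ (-(s : ℂ)) = (((absNorm P.asIdeal : ℝ) ^ (-s) : ℝ) : ℂ) := by
  rw [Complex.ofReal_cpow (Nat.cast_nonneg _)]
  simp

theorem npow_lt (P : HeightOneSpectrum (𝓞 F)) {s : ℝ} (hs : 1 < s) :
    (absNorm P.asIdeal : ℝ) ^ (-s) < 1 := by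
  refine Real.rpow_lt_one_of_one_lt_of_neg ?_ (by linarith)
  exact_mod_cast NumberField.HeightOneSpectrum.one_lt_absNorm P

/-- The local inequality. -/
theorem loc {E : Type} [Fintype E] (a : E → ℂ) (ha : ∀ e, ‖a e‖ ≤ 1)
    (hpos : ∀ k : ℕ, 0 ≤ (∑ e, a e ^ k).re) {x : ℝ} (hx0 : 0 ≤ x) (hx : x < 1) :
    (∑ e, a e).re * x ≤ ∑ e, (-Complex.log (1 - a e * x)).re := by
  have hz : ∀ e, ‖a e * x‖ < 1 := fun e => by
    rw [norm_mul, Complex.norm_real, Real.norm_eq_abs, abs_of_nonneg hx0]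
    exact lt_of_le_of_lt (mul_le_of_le_one_left hx0 (ha e)) hx
  have hS := hasSum_sum (s := Finset.univ) fun e _ =>
    Complex.hasSum_re (Complex.hasSum_taylorSeries_neg_log (hz e))
  have hterm : ∀ k : ℕ, ∑ e, ((a e * x) ^ k / k).re = (∑ e, a e ^ k).re * (x ^ k / k) := by
    intro k
    rw [Complex.re_sum, Finset.sum_mul]
    refine Finset.sum_congr rfl fun e _ => ?_
    have : (a e * x) ^ k / k = a e ^ k * ((x ^ k / k : ℝ) : ℂ) := by
      push_cast; ring
    rw [this, Complex.re_mul_ofReal]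
  have := le_hasSum hS 1 fun k _ => by
    rw [hterm]
    exact mul_nonneg (hpos k) (by positivity)
  rw [hterm] at this
  simpa using this

/-- The global inequality. -/
theorem glob (hE : EULER) {E : Type} [Fintype E] (A : E → Ideal (𝓞 F) →* ℂ)
    (hA : ∀ e I, ‖A e I‖ ≤ 1) (hpos : ∀ I, 0 ≤ (∑ e, A e I).re) (W : Set (Ideal (𝓞 F)))
    (hW : ∀ P ∈ W, P.IsMaximal ∧ ∀ e, A e P = 1) {s : ℝ} (hs : 1 < s) :
    (∀ e, Lser (A e) s ≠ 0) ∧ Fintype.card E * psum W s ≤ ∑ e, Real.log ‖Lser (A e) s‖ := by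
  have hs' : 1 < (s : ℂ).re := by simpa using hs
  have hEu := fun e => hE F (A e) (hA e) s hs'
  refine ⟨fun e => by rw [(hEu e).2]; exact Complex.exp_ne_zero _, ?_⟩
  have hlog : ∀ e, HasSum (fun P : HeightOneSpectrum (𝓞 F) =>
      (-Complex.log (1 - A e P.asIdeal * (((absNorm P.asIdeal : ℝ) ^ (-s) : ℝ) : ℂ))).re)
      (Real.log ‖Lser (A e) s‖) := fun e => by
    rw [(hEu e).2, Complex.norm_exp, Real.log_exp]
    simpa only [npow_eq] using Complex.hasSum_re (hEu e).1.hasSum.neg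
  have hS := hasSum_sum (s := Finset.univ) fun e _ => hlog e
  have hinj : Function.Injective fun P : HeightOneSpectrum (𝓞 F) => P.asIdeal :=
    fun P Q h => HeightOneSpectrum.ext h
  have hps : psum W s = ∑' P : HeightOneSpectrum (𝓞 F),
      if P.asIdeal ∈ W then (absNorm P.asIdeal : ℝ) ^ (-s) else 0 := by
    unfold psum
    refine (hinj.tsum_eq (f := fun P : Ideal (𝓞 F) =>
      if P ∈ W then (absNorm P : ℝ) ^ (-s) else 0) fun P hP => ?_).symm
    have hPW : P ∈ W := by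
      by_contra h
      simp [h] at hP
    have hm := (hW P hPW).1
    exact ⟨⟨P, hm.isPrime,
      Ring.ne_bot_of_isMaximal_of_not_isField hm (RingOfIntegers.not_isField F)⟩, rfl⟩
  have hle : ∀ P : HeightOneSpectrum (𝓞 F), (Fintype.card E : ℝ) *
      (if P.asIdeal ∈ W then (absNorm P.asIdeal : ℝ) ^ (-s) else 0) ≤ ∑ e,
      (-Complex.log (1 - A e P.asIdeal * (((absNorm P.asIdeal : ℝ) ^ (-s) : ℝ) : ℂ))).re := by
    intro P
    have hx0 : 0 ≤ (absNorm P.asIdeal : ℝ) ^ (-s) := by positivity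
    refine le_trans ?_ (loc (fun e => A e P.asIdeal) (fun e => hA e _)
      (fun k => by simpa only [map_pow] using hpos (P.asIdeal ^ k)) hx0 (npow_lt P hs))
    split_ifs with h
    · simp [(hW _ h).2]
    · rw [mul_zero]
      exact mul_nonneg (hpos _) hx0
  rw [hps, ← tsum_mul_left, ← hS.tsum_eq]
  refine Summable.tsum_le_tsum hle (Summable.of_nonneg_of_le (fun P => ?_) hle hS.summable)
    hS.summable
  split_ifs <;> positivity

theorem log_tendsto : Tendsto (fun s : ℝ => Real.log (1 / (s - 1))) (𝓝[>] 1) atTop := by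
  refine Real.tendsto_log_atTop.comp ?_
  have h : Tendsto (fun s : ℝ => s - 1) (𝓝[>] 1) (𝓝[>] 0) := by
    refine tendsto_nhdsWithin_iff.mpr ⟨?_, ?_⟩
    · have : Tendsto (fun s : ℝ => s - 1) (𝓝 1) (𝓝 (1 - 1)) := tendsto_id.sub_const 1
      rw [sub_self] at this
      exact this.mono_left nhdsWithin_le_nhds
    · filter_upwards [self_mem_nhdsWithin] with s hs
      exact sub_pos.mpr (show (1 : ℝ) < s from hs)
  simpa only [one_div, Function.comp_def] using tendsto_inv_nhdsGT_zero.comp h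

end Si

open Si in
theorem si : DIRI → EULER → RAY → ZRAY → SI := by
  intro hD hE hR hZ F E _ _ _ _ n ψ e0 h2 hn hray hnorm hne hpos ε hε
  choose K hK0 hK using fun e => lbound hD hR hZ h2 hn (ψ e) (hray e) (hnorm e)
  have hc : (0 : ℝ) < Fintype.card E := by
    have : Nonempty E := ⟨e0⟩
    exact_mod_cast Fintype.card_pos
  have hpos' : ∀ I, 0 ≤ (∑ e, res n (ψ e) I).re := fun I => by
    by_cases hI : Cop n I
    · simpa only [res_apply, if_pos hI] using hpos I hI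
    · simp [res_apply, hI]
  filter_upwards [eventually_all.mpr hK, ev_Ioo, log_tendsto.eventually_gt_atTop 0,
    log_tendsto.eventually_ge_atTop ((∑ e, Real.log (K e)) / (Fintype.card E * ε))]
    with s hs ⟨hs1, _⟩ hl0 hl
  obtain ⟨hnz, hg⟩ := glob hE (fun e => res n (ψ e)) (fun e => res_bound (hnorm e)) hpos'
    {P : Ideal (𝓞 F) | P.IsMaximal ∧ (n : 𝓞 F) ∉ P ∧ ∀ e, ψ e P = 1}
    (fun P hP => ⟨hP.1, fun e => by rw [res_apply, if_pos (cop_max hP.1 hP.2.1), hP.2.2 e]⟩) hs1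
  have hs0 : 0 < 1 / (s - 1) := one_div_pos.mpr (by linarith)
  have hsum : ∑ e, Real.log ‖Lser (res n (ψ e)) s‖ ≤
      ∑ e, (Real.log (K e) + if e = e0 then Real.log (1 / (s - 1)) else 0) := by
    refine Finset.sum_le_sum fun e _ => ?_
    have hp : 0 < ‖Lser (res n (ψ e)) s‖ := norm_pos_iff.mpr (hnz e)
    split_ifs with he
    · rw [← Real.log_mul (hK0 e).ne' hs0.ne']
      exact Real.log_le_log hp (hs e).1
    · rw [add_zero]
      exact Real.log_le_log hp ((hs e).2 (hne e he))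
  rw [Finset.sum_add_distrib, Finset.sum_ite_eq' Finset.univ e0, if_pos (Finset.mem_univ _)]
    at hsum
  rw [div_le_iff₀ (by positivity)] at hl
  rw [div_le_iff₀ hl0]
  refine le_of_mul_le_mul_left ?_ hc
  have : (Fintype.card E : ℝ) * ((1 / Fintype.card E + ε) * Real.log (1 / (s - 1))) =
      Real.log (1 / (s - 1)) + Real.log (1 / (s - 1)) * (Fintype.card E * ε) := by
    field_simp
  rw [this]
  linarith

end

end Pool.Agent.P.MP_29cb78_nt.C
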