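import Pool.Agent.P.MP_29cb78_nt.C.Dens
import Pool.Agent.P.MP_29cb78_nt.C.Si
import Pool.Agent.P.MP_29cb78_nt.QTower

/-!
The cubic character on ideals: factorisation of the zeta function of the cubic field, ramified
primes, and the symmetry under conjugation.
-/

set_option linter.unusedSectionVars false

namespace Pool.Agent.P.MP_29cb78_nt.C

open NumberField Set Ideal
open scoped Classical Pointwise

noncomputable section

namespace Ram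

theorem ind_cube {w : ℂ} (h : w ^ 3 = 1) : (3 : ℂ) * (if w = 1 then 1 else 0) = 1 + w + w ^ 2 := by
  split_ifs with h1
  · rw [h1]; norm_num
  · have h2 : (w - 1) * (1 + w + w ^ 2) = 0 := by linear_combination h
    rw [(mul_eq_zero.mp h2).resolve_left (sub_ne_zero.mpr h1), mul_zero]

theorem sum_conj {G : Type} [Group G] [Fintype G] (f : G → ℂ) (x a : G) :
    ∑ y : G, f (a * (y * x * y⁻¹) * a⁻¹) = ∑ y : G, f (y * x * y⁻¹) := by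
  refine Fintype.sum_equiv (Equiv.mulLeft a) _ _ fun y => ?_
  simp only [Equiv.coe_mulLeft, mul_inv_rev, mul_assoc]

theorem grp {G : Type} [Group G] [Fintype G] {H K : Subgroup G} {Ψ : G → ℂ} {g c : G}
    (hi : H.index = 2) (one : Ψ 1 = 1) (mul : ∀ a ∈ H, ∀ b ∈ H, Ψ (a * b) = Ψ a * Ψ b)
    (zero : ∀ a, a ∉ H → Ψ a = 0) (cube : ∀ ρ ∈ H, Ψ ρ ^ 3 = 1) (gF : g ∈ H) (gne : Ψ g ≠ 1)
    (ker : ∀ ρ ∈ H, (ρ ∈ K ↔ Ψ ρ = 1))
    (anti : ∀ x, x ∉ H → ∀ ρ ∈ H, Ψ (x * ρ * x⁻¹) * Ψ ρ = 1) (cF : c ∉ H)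
    (jk : g⁻¹ * c * g ∈ K) (x : G) :
    ∑ y : G, (1 + 2 * Ψ (y * x * y⁻¹) - 3 * if y * x * y⁻¹ ∈ K then 1 else 0) = 0 := by
  have hm : ∀ {a b : G}, a * b ∈ H ↔ (a ∈ H ↔ b ∈ H) := Subgroup.mul_mem_iff_of_index_two hi
  have hc : ∀ y t : G, y * t * y⁻¹ ∈ H ↔ t ∈ H := fun y t => by
    rw [hm, hm, inv_mem_iff]
    tauto
  by_cases hx : x ∈ H
  · have h1 : ∀ y : G, (1 + 2 * Ψ (y * x * y⁻¹) - 3 * if y * x * y⁻¹ ∈ K then 1 else 0) =
        Ψ (y * x * y⁻¹) - Ψ (c * (y * x * y⁻¹) * c⁻¹) := fun y => by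
      have ht := (hc y x).mpr hx
      have h2 := anti c cF _ ht
      have h3 := cube _ ht
      rw [if_congr (ker _ ht) rfl rfl, ind_cube h3]
      linear_combination (Ψ (y * x * y⁻¹) ^ 2) * h2 - Ψ (c * (y * x * y⁻¹) * c⁻¹) * h3
    rw [Finset.sum_congr rfl fun y _ => h1 y, Finset.sum_sub_distrib, sum_conj Ψ x c, sub_self]
  · obtain ⟨j, hj⟩ : ∃ j, j = g⁻¹ * c * g := ⟨_, rfl⟩
    rw [← hj] at jk
    have hjH : j ∉ H := by
      rw [hj, hm, hm, inv_mem_iff]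
      tauto
    have htj : ∀ t, t ∉ H → t * j ∈ H := fun t ht => by
      rw [hm]
      tauto
    have hg3 := cube g gF
    have hw : ∀ t, t ∉ H → Ψ (g * t * g⁻¹ * j) = Ψ g ^ 2 * Ψ (t * j) := fun t ht => by
      have h1 := anti j⁻¹ (by rwa [inv_mem_iff]) g⁻¹ (inv_mem gF)
      have h2 := mul g gF g⁻¹ (inv_mem gF)
      rw [mul_inv_cancel, one] at h2
      have h3 : g * t * g⁻¹ * j = g * (t * j) * (j⁻¹ * g⁻¹ * j⁻¹⁻¹) := by group
      rw [h3, mul _ (mul_mem gF (htj t ht)) _ ((hc _ _).mpr (inv_mem gF)), mul _ gF _ (htj t ht)]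
      linear_combination (Ψ g ^ 2 * Ψ (t * j)) * h1 +
        (Ψ g * Ψ (t * j) * Ψ (j⁻¹ * g⁻¹ * j⁻¹⁻¹)) * h2
    have h1 : ∀ y : G, (1 + 2 * Ψ (y * x * y⁻¹) - 3 * if y * x * y⁻¹ ∈ K then 1 else 0) =
        -(Ψ (y * x * y⁻¹ * j) + Ψ (y * x * y⁻¹ * j) ^ 2) := fun y => by
      have ht : y * x * y⁻¹ ∉ H := fun h => hx ((hc y x).mp h)
      rw [zero _ ht, if_congr (((K.mul_mem_cancel_right jk).symm).trans (ker _ (htj _ ht))) rfl rfl,
        ind_cube (cube _ (htj _ ht))]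
      ring
    have ht : ∀ y : G, y * x * y⁻¹ ∉ H := fun y h => hx ((hc y x).mp h)
    have h2 := sum_conj (fun t => Ψ (t * j)) x g
    have h3 := sum_conj (fun t => Ψ (t * j) ^ 2) x g
    simp only [hw _ (ht _), mul_pow, ← Finset.mul_sum] at h2 h3
    have h4 : ∑ y : G, Ψ (y * x * y⁻¹ * j) = 0 := by
      by_contra h
      have h5 : Ψ g ^ 2 = 1 := mul_right_cancel₀ h (h2.trans (one_mul _).symm)
      exact gne (by linear_combination hg3 - Ψ g * h5)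
    have h5 : ∑ y : G, Ψ (y * x * y⁻¹ * j) ^ 2 = 0 := by
      by_contra h
      have h5 : (Ψ g ^ 2) ^ 2 = 1 := mul_right_cancel₀ h (h3.trans (one_mul _).symm)
      exact gne (by linear_combination h5 - Ψ g * hg3)
    rw [Finset.sum_congr rfl fun y _ => h1 y, Finset.sum_neg_distrib, Finset.sum_add_distrib, h4,
      h5, add_zero, neg_zero]

theorem exists_prime_mem {R : Type} [CommRing R] (Q : Ideal R) [hQ : Q.IsPrime] {N : ℕ}
    (hN : N ≠ 0) (h : (N : R) ∈ Q) : ∃ p : ℕ, p.Prime ∧ p ∣ N ∧ (p : R) ∈ Q := by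
  induction N using induction_on_primes with
  | zero => exact absurd rfl hN
  | one => exact absurd ((eq_top_iff_one _).mpr (by simpa using h)) hQ.ne_top
  | prime_mul p a hp ih =>
    rw [Nat.cast_mul] at h
    rcases hQ.mem_or_mem h with h | h
    · exact ⟨p, hp, dvd_mul_right _ _, h⟩
    · obtain ⟨q, h1, h2, h3⟩ := ih (right_ne_zero_of_mul hN) h
      exact ⟨q, h1, dvd_mul_of_dvd_right h2 _, h3⟩

theorem under_int {R : Type} [CommRing R] (Q : Ideal R) [hQ : Q.IsPrime] {p : ℕ} (hp : p.Prime)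
    (h : (p : R) ∈ Q) : Q.under ℤ = span {(p : ℤ)} := by
  have h1 : (span {(p : ℤ)}).IsMaximal :=
    PrincipalIdealRing.isMaximal_of_irreducible (Nat.prime_iff_prime_int.mp hp).irreducible
  refine (h1.eq_of_le (IsPrime.under ℤ Q).ne_top ?_).symm
  rw [span_singleton_le_iff_mem, mem_under]
  simpa using h

variable {k F Ω : Type} [Field k] [Field F] [Field Ω] [NumberField k] [NumberField F]
  [NumberField Ω] [Algebra k Ω] [Algebra F Ω] [IsGalois ℚ Ω] {ζ : Ω} {φ : Ω →+* ℂ}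
  {Ψ : Gal(Ω/ℚ) → ℂ} {g c : Gal(Ω/ℚ)}

theorem card_eq (hA : ARTEX) (L : Type) [Field L] [NumberField L] [Algebra L Ω] :
    Nat.card Gal(Ω/ℚ) = Module.finrank ℚ L * Nat.card (fixSub ℚ L Ω) := by
  rw [IsGalois.card_aut_eq_finrank, (hA ℚ L Ω).1, Module.finrank_mul_finrank]

theorem index (D : Cub k F Ω ζ φ Ψ g c) : (fixSub ℚ F Ω).index = 2 := by
  have h := (fixSub ℚ F Ω).index_mul_card
  rw [card_eq artex F, D.h2] at h
  exact Nat.eq_of_mul_eq_mul_right Nat.card_pos h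

theorem conj_mem (D : Cub k F Ω ζ φ Ψ g c) (y : Gal(Ω/ℚ)) {t : Gal(Ω/ℚ)}
    (ht : t ∈ fixSub ℚ F Ω) : y * t * y⁻¹ ∈ fixSub ℚ F Ω :=
  (Subgroup.normal_of_index_eq_two (index D)).conj_mem t ht y

theorem zeta (hE : ARTEX) (hA : ARTIN) (D : Cub k F Ω ζ φ Ψ g c) {A : Ideal (𝓞 F) →* ℂ}
    (hD : ArtData ℚ F Ω Ψ A) (s : ℂ) (hs : 1 < s.re) :
    Lser (fun _ : Ideal (𝓞 ℚ) => 1) s * Lser A s = Lser (fun _ : Ideal (𝓞 k) => 1) s := by
  refine hA ℚ Ω ℚ F k _ _ _ _ _ _ (artData_one ℚ) hD (artData_one k) (fun x => ?_) s hs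
  have h0 := grp (index D) D.char.one D.char.mul D.char.zero D.cube D.gF D.gne D.ker D.anti D.cF
    D.jk x
  have h1 := card_eq (Ω := Ω) hE ℚ
  have h2 := card_eq (Ω := Ω) hE F
  have h3 := card_eq (Ω := Ω) hE k
  rw [Module.finrank_self, one_mul] at h1
  rw [D.h2] at h2
  rw [D.h3] at h3
  have hn : (Nat.card Gal(Ω/ℚ) : ℂ) ≠ 0 := Nat.cast_ne_zero.mpr Nat.card_pos.ne'
  have h2' : (Nat.card (fixSub ℚ F Ω) : ℂ) = Nat.card Gal(Ω/ℚ) / 2 := by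
    rw [h2]
    push_cast
    ring
  have h3' : (Nat.card (fixSub ℚ k Ω) : ℂ) = Nat.card Gal(Ω/ℚ) / 3 := by
    rw [h3]
    push_cast
    ring
  have h4 := congrArg (· / (Nat.card Gal(Ω/ℚ) : ℂ)) h0
  simp only [zero_div, Finset.sum_div] at h4
  rw [← h1, h2', h3']
  refine (Finset.sum_congr rfl fun y _ => ?_).trans h4
  rw [if_pos (show y * x * y⁻¹ ∈ fixSub ℚ ℚ Ω from fun q => AlgEquiv.commutes _ q)]
  field_simp

/-- The character is ramified at `Q`. -/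
def Bad (F : Type) [Field F] [Algebra F Ω] (Ψ : Gal(Ω/ℚ) → ℂ) (Q : Ideal (𝓞 Ω)) : Prop :=
  ∃ ι ∈ fixSub ℚ F Ω, ι ∈ Q.inertia Gal(Ω/ℚ) ∧ Ψ ι ≠ 1

theorem bad_of_under (D : Cub k F Ω ζ φ Ψ g c) {Q Q' : Ideal (𝓞 Ω)} [Q.IsPrime] [Q'.IsPrime]
    (h : Q.under ℤ = Q'.under ℤ) (hb : Bad F Ψ Q') : Bad F Ψ Q := by
  obtain ⟨u, hu⟩ := Algebra.IsInvariant.exists_smul_of_under_eq ℤ (𝓞 Ω) Gal(Ω/ℚ) Q Q' h
  obtain ⟨ι, h1, h2, h3⟩ := hb
  refine ⟨u⁻¹ * ι * u⁻¹⁻¹, conj_mem D _ h1, fun z => ?_, fun h4 => h3 ?_⟩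
  · have h5 := h2 (u • z)
    rw [hu] at h5
    have h6 := mem_pointwise_smul_iff_inv_smul_mem.mp h5
    simpa [smul_sub, mul_smul] using h6
  · by_cases hu' : u ∈ fixSub ℚ F Ω
    · rwa [inv_inv, ArtEx.char_conj D.char hu' h1] at h4
    · have h5 := D.anti u⁻¹ (by rwa [inv_mem_iff]) ι h1
      rwa [h4, one_mul] at h5

theorem cop_ind {N : ℕ} {p : Ideal (𝓞 F) → Prop} (h1 : p 1)
    (h2 : ∀ P I, P.IsMaximal → (N : 𝓞 F) ∉ P → Cop N I → p I → p (P * I)) (I : Ideal (𝓞 F))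
    (hI : Cop N I) : p I := by
  induction I using UniqueFactorizationMonoid.induction_on_prime with
  | h₁ => exact absurd rfl hI.1
  | h₂ x hx => rwa [isUnit_iff.mp hx, ← one_eq_top]
  | h₃ a P ha hP ih =>
    obtain ⟨h3, h4⟩ := Si.cop_mul.mp hI
    have hm : P.IsMaximal := (isPrime_of_prime hP).isMaximal hP.ne_zero
    refine h2 P a hm (fun h => hm.ne_top ?_) h4 (ih h4)
    rw [← isCoprime_iff_sup_eq.mp h3.2, sup_eq_left.mpr ((span_singleton_le_iff_mem _).mpr h)]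

theorem absNorm_smul (τ : Gal(F/ℚ)) (I : Ideal (𝓞 F)) : absNorm (τ • I) = absNorm I := by
  rw [absNorm_apply, absNorm_apply, Submodule.cardQuot_apply, Submodule.cardQuot_apply]
  exact Nat.card_congr (quotientEquiv I (τ • I)
    (MulSemiringAction.toRingEquiv Gal(F/ℚ) (𝓞 F) τ) rfl).symm.toEquiv

theorem cop_smul {N : ℕ} (τ : Gal(F/ℚ)) {I : Ideal (𝓞 F)} (h : Cop N I) : Cop N (τ • I) := by
  refine ⟨fun h1 => h.1 ?_, ?_⟩
  · rw [← inv_smul_smul τ I, h1, Ideal.smul_bot]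
  · have h2 := h.2.map (MulSemiringAction.toRingHom Gal(F/ℚ) (Ideal (𝓞 F)) τ)
    simp only [MulSemiringAction.toRingHom_apply] at h2
    rwa [pointwise_smul_def (S := span _), map_span, image_singleton, map_natCast] at h2

theorem cop_smul_iff {N : ℕ} (τ : Gal(F/ℚ)) {I : Ideal (𝓞 F)} : Cop N (τ • I) ↔ Cop N I :=
  ⟨fun h => by simpa using cop_smul τ⁻¹ h, cop_smul τ⟩

section frob

variable {N : ℕ} {A : Ideal (𝓞 F) →* ℂ}
  (hA : ∀ Q : Ideal (𝓞 Ω), Q.IsMaximal → (N : 𝓞 Ω) ∉ Q → ∀ σ : Gal(Ω/F), IsFrob Q σ →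
    A (Q.under (𝓞 F)) = Ψ (σ.restrictScalars ℚ))
include hA

theorem val_eq {Q : Ideal (𝓞 Ω)} (hQ : Q.IsMaximal) (hN : (N : 𝓞 Ω) ∉ Q) {ρ : Gal(Ω/ℚ)}
    (hρ : ρ ∈ fixSub ℚ F Ω) (hf : ∀ z : 𝓞 Ω, ρ • z - z ^ absNorm (Q.under (𝓞 F)) ∈ Q) :
    A (Q.under (𝓞 F)) = Ψ ρ := hA Q hQ hN (toAut ρ hρ) hf

theorem exists_elt (D : Cub k F Ω ζ φ Ψ g c) {m : ℕ} (hm : m ≠ 0) (hζ : ζ ^ m = 1) (hmN : m ∣ N)
    (I : Ideal (𝓞 F)) (hI : Cop N I) : ∃ ρ ∈ fixSub ℚ F Ω, A I = Ψ ρ ∧ ρ ζ = ζ ^ absNorm I := by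
  refine cop_ind (p := fun I => ∃ ρ ∈ fixSub ℚ F Ω, A I = Ψ ρ ∧ ρ ζ = ζ ^ absNorm I)
    ⟨1, one_mem _, by rw [map_one, D.char.one], by simp⟩ ?_ I hI
  rintro P I hP hN - ⟨ρ, h1, h2, h3⟩
  obtain ⟨Q, hQ, hQP⟩ := exists_maximal_ideal_liesOver_of_isIntegral (S := 𝓞 Ω) P
  obtain ⟨σ, h4, h5⟩ := ArtEx.exists_frob (k0 := ℚ) (L := F) Q hQ
  have hN' : (N : 𝓞 Ω) ∉ Q := fun h => hN (by rwa [hQP.over, mem_under, map_natCast])
  have h6 := val_eq hA hQ hN' h4 h5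
  have : IsGalois F Ω := IsGalois.tower_top_of_isGalois ℚ F Ω
  have h7 : IsIntegral ℤ ζ := IsIntegral.of_pow (Nat.pos_of_ne_zero hm) (hζ ▸ isIntegral_one)
  have h8 := ((Gen.isFrob_iff Q (toAut σ h4)).mp h5).apply_of_pow_eq_one (ζ := ⟨ζ, h7⟩) (m := m)
    (RingOfIntegers.ext hζ) fun h => hN' (Q.mem_of_dvd (Nat.cast_dvd_cast hmN) h)
  rw [← Submodule.cardQuot_apply, ← absNorm_apply, ← hQP.over] at h8
  have h9 : σ ζ = ζ ^ absNorm P := congrArg (fun z : 𝓞 Ω => (z : Ω)) h8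
  rw [← hQP.over] at h6
  refine ⟨σ * ρ, mul_mem h4 h1, by rw [map_mul, h6, h2, D.char.mul _ h4 _ h1], ?_⟩
  rw [AlgEquiv.mul_apply, h3, map_pow, h9, map_mul, pow_mul]

theorem val_smul (D : Cub k F Ω ζ φ Ψ g c) {τ : Gal(F/ℚ)}
    (hτ : ∀ y : F, algebraMap F Ω (τ y) = c (algebraMap F Ω y)) (I : Ideal (𝓞 F)) (hI : Cop N I) :
    A (τ⁻¹ • I) * A I = 1 := by
  refine cop_ind (p := fun I => A (τ⁻¹ • I) * A I = 1) (by rw [smul_one, map_one, one_mul]) ?_ I hI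
  intro P I hP hN _ h1
  obtain ⟨Q, hQ, hQP⟩ := exists_maximal_ideal_liesOver_of_isIntegral (S := 𝓞 Ω) P
  obtain ⟨σ, h4, h5⟩ := ArtEx.exists_frob (k0 := ℚ) (L := F) Q hQ
  have hN' : (N : 𝓞 Ω) ∉ Q := fun h => hN (by rwa [hQP.over, mem_under, map_natCast])
  have h6 := val_eq hA hQ hN' h4 h5
  have hm : (c⁻¹ • Q).IsMaximal := by
    rw [pointwise_smul_eq_comap]
    infer_instance
  have hu : (c⁻¹ • Q).under (𝓞 F) = τ⁻¹ • Q.under (𝓞 F) := by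
    ext x
    have e : c • algebraMap (𝓞 F) (𝓞 Ω) x = algebraMap (𝓞 F) (𝓞 Ω) (τ • x) :=
      RingOfIntegers.ext (hτ x).symm
    rw [mem_under, mem_inv_pointwise_smul_iff, mem_inv_pointwise_smul_iff, mem_under, e]
  have hc : c • (N : 𝓞 Ω) = N := map_natCast (MulSemiringAction.toRingHom Gal(Ω/ℚ) (𝓞 Ω) c) N
  have h7 := val_eq hA hm (fun h => hN' (hc ▸ mem_inv_pointwise_smul_iff.mp h))
    (conj_mem D c⁻¹ h4) fun z => by
      rw [hu, absNorm_smul, mem_inv_pointwise_smul_iff]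
      simpa [smul_sub, mul_smul, smul_pow'] using h5 (c • z)
  have h8 := D.anti c⁻¹ (by rw [inv_mem_iff]; exact D.cF) σ h4
  rw [← h7, ← h6, hu, ← hQP.over] at h8
  rw [smul_mul', map_mul, map_mul]
  linear_combination (A (τ⁻¹ • I) * A I) * h8 + h1

end frob

end Ram

open Ram in
theorem sym : SYM := by
  intro k F Ω _ _ _ _ _ _ _ _ _ ζ φ Ψ g c m N A D hm hζ _ hmN hA
  refine ⟨fun x u s => ?_, exists_elt hA D hm hζ.pow_eq_one hmN⟩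
  have : Algebra.IsQuadraticExtension ℚ F := ⟨D.h2⟩
  have h := val_smul hA D (τ := c.restrictNormal F) (AlgEquiv.restrictNormal_commutes c F)
  unfold fz2 Lser
  rw [← (MulAction.toPerm (c.restrictNormal F)⁻¹).tsum_eq]
  refine tsum_congr fun I => ?_
  simp only [MulAction.toPerm_apply, absNorm_smul, cop_smul_iff]
  congr 2
  refine propext (and_congr_right fun hI => and_congr_left fun _ => ?_)
  rw [eq_inv_of_mul_eq_one_left (h I hI), inv_eq_iff_eq_inv]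

open Ram in
theorem ram : ARTEX → ARTIN → RAM := by
  intro hE hA k F Ω _ _ _ _ _ _ _ _ _ ζ φ Ψ g c D
  obtain ⟨A, hD⟩ := (hE ℚ F Ω).2.2 Ψ D.char
  obtain ⟨N, hN, hN'⟩ := Dens.exists_unr (F := ℚ) (E := Ω)
  refine ⟨A, ∏ p ∈ N.primeFactors.filter (fun p : ℕ => ∃ Q : Ideal (𝓞 Ω), Q.IsPrime ∧
      (p : 𝓞 Ω) ∈ Q ∧ Bad F Ψ Q), p,
    Finset.prod_ne_zero_iff.mpr fun p hp =>
      (Nat.prime_of_mem_primeFactors (Finset.mem_filter.mp hp).1).ne_zero,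
    hD.bound, zeta hE hA D hD, fun P hP hn => ?_, fun Q hQ hn σ hσ => ?_⟩
  · obtain ⟨Q, hQ, hQP⟩ := exists_maximal_ideal_liesOver_of_isIntegral (S := 𝓞 Ω) P
    rw [hQP.over] at hn ⊢
    rw [mem_under, map_natCast, Nat.cast_prod, IsPrime.prod_mem_iff] at hn
    obtain ⟨p, hp, hpQ⟩ := hn
    obtain ⟨hp, Q', hQ', h1, h2⟩ := Finset.mem_filter.mp hp
    have hp := Nat.prime_of_mem_primeFactors hp
    exact hD.ram Q hQ (bad_of_under D ((under_int Q hp hpQ).trans (under_int Q' hp h1).symm) h2)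
  · refine hD.frob Q hQ (fun ι h1 h2 => ?_) _ σ.commutes hσ
    by_contra h3
    have h4 : (N : 𝓞 Ω) ∈ Q := by
      by_contra h
      rw [hN' Q hQ.isPrime h, Subgroup.mem_bot] at h2
      exact h3 (h2 ▸ D.char.one)
    obtain ⟨p, hp, h5, h6⟩ := exists_prime_mem Q hN h4
    refine hn (Q.mem_of_dvd (Nat.cast_dvd_cast (Finset.dvd_prod_of_mem _ ?_)) h6)
    exact Finset.mem_filter.mpr ⟨Nat.mem_primeFactors.mpr ⟨hp, h5, hN⟩, Q, hQ.isPrime, h6, ι, h1,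
      h2, h3⟩

end

end Pool.Agent.P.MP_29cb78_nt.C
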