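import Pool.Agent.P.MP_29cb78_nt.C.Iface

/-! Existence of the ray class group. -/

namespace Pool.Agent.P.MP_29cb78_nt.C

open NumberField Ideal
open scoped Classical nonZeroDivisors

namespace Ray

/-- An element coprime to `n` is congruent modulo `n` to an element coprime to `m`. -/
theorem lift_coprime {R : Type} [CommRing R] {a n m : R} [Finite (R ⧸ span {m})]
    (h : IsCoprime a n) : ∃ b, n ∣ b - a ∧ IsCoprime b m := by
  have key : ∃ i d : ℕ, m ∣ a ^ i * (1 - a ^ (d + 1)) := by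
    obtain ⟨i, j, hij, he⟩ :=
      Finite.exists_ne_map_eq_of_infinite fun k : ℕ => Ideal.Quotient.mk (span {m}) (a ^ k)
    wlog hlt : i < j generalizing i j
    · exact this j i hij.symm he.symm (by omega)
    obtain ⟨d, rfl⟩ := Nat.exists_eq_add_of_lt hlt
    refine ⟨i, d, ?_⟩
    rw [Ideal.Quotient.eq, mem_span_singleton] at he
    convert he using 1
    ring
  obtain ⟨i, d, hm⟩ := key
  have h1 : IsCoprime (1 - a ^ (d + 1)) a := ⟨1, a ^ d, by ring⟩
  refine ⟨a + n * (1 - a ^ (d + 1)), ⟨1 - a ^ (d + 1), by ring⟩, ?_⟩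
  refine IsCoprime.of_isCoprime_of_dvd_right (IsCoprime.mul_right (IsCoprime.pow_right ?_) ?_) hm
  · have h2 := (h.symm.mul_left h1).add_mul_left_left 1
    convert h2 using 1
    ring
  · exact h1.symm.add_mul_right_left n

variable {F : Type} [Field F] [NumberField F]

theorem cast_ne {n : ℕ} (hn : n ≠ 0) : (n : 𝓞 F) ≠ 0 := by exact_mod_cast hn

theorem two_mul_not_unit (m : ℕ) : ¬ IsUnit ((2 * m : ℕ) : 𝓞 F) := by
  intro h
  have h1 : IsUnit (Algebra.norm ℤ ((2 * m : ℕ) : 𝓞 F)) := h.map _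
  rw [Algebra.norm_natCast, isUnit_pow_iff Module.finrank_pos.ne', Int.isUnit_iff] at h1
  omega

/-- A nonzero inverse modulo `n` that is coprime to `m`. -/
theorem exists_inv {n m : ℕ} (hm : m ≠ 0) {x : 𝓞 F} (h : IsCoprime x (n : 𝓞 F)) :
    ∃ a : 𝓞 F, a ≠ 0 ∧ IsCoprime a (m : 𝓞 F) ∧ a * x - 1 ∈ span {(n : 𝓞 F)} := by
  obtain ⟨u, v, huv⟩ := h
  have hfin : Finite (𝓞 F ⧸ span {((2 * m : ℕ) : 𝓞 F)}) :=
    finiteQuotientOfFreeOfNeBot _ (by
      rw [Ne, span_singleton_eq_bot]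
      exact cast_ne (by omega))
  obtain ⟨b, ⟨c, hc⟩, hb⟩ := lift_coprime (a := u) (n := (n : 𝓞 F)) (m := ((2 * m : ℕ) : 𝓞 F))
    ⟨x, v, by rw [← huv]; ring⟩
  refine ⟨b, ?_, hb.of_isCoprime_of_dvd_right ⟨2, by push_cast; ring⟩, ?_⟩
  · rintro rfl
    exact two_mul_not_unit m (isCoprime_zero_left.1 hb)
  · rw [mem_span_singleton]
    exact ⟨c * x - v, by linear_combination x * hc + huv⟩

omit [NumberField F] in
theorem cop_mul {n : ℕ} {I J : Ideal (𝓞 F)} (hI : Cop n I) (hJ : Cop n J) : Cop n (I * J) :=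
  ⟨mul_ne_zero hI.1 hJ.1, hI.2.mul_left hJ.2⟩

omit [NumberField F] in
theorem cop_one (n : ℕ) : Cop n (1 : Ideal (𝓞 F)) := ⟨one_ne_zero, isCoprime_one_left⟩

theorem cop_of_mul {n n' : ℕ} {I : Ideal (𝓞 F)} (h : Cop (n * n') I) : Cop n I :=
  ⟨h.1, h.2.of_isCoprime_of_dvd_right (by
    rw [dvd_iff_le, span_singleton_le_span_singleton]
    exact ⟨n', by push_cast; ring⟩)⟩

/-- Inverses coprime to a further integer. -/
theorem exists_compl {n n' : ℕ} (hn : n ≠ 0) (hn' : n' ≠ 0) {I : Ideal (𝓞 F)} (hI : Cop n I) :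
    ∃ J, Cop (n * n') J ∧ ∃ y : 𝓞 F, y ≠ 0 ∧ y - 1 ∈ span {(n : 𝓞 F)} ∧ I * J = span {y} := by
  set M : Ideal (𝓞 F) := span {((2 * (n * n') : ℕ) : 𝓞 F)} with hM
  have hM0 : M ≠ 0 := by
    rw [hM, Ne, zero_eq_bot, span_singleton_eq_bot]
    exact cast_ne (by positivity)
  obtain ⟨a, ha⟩ := IsDedekindDomain.exists_sup_span_eq (I := I * M) (J := I) mul_le_left
    (mul_ne_zero hI.1 hM0)
  have hdvd : I ∣ span {a} := dvd_iff_le.2 (ha ▸ le_sup_right)
  obtain ⟨J0, hJ0⟩ := hdvd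
  have hsup : M ⊔ J0 = ⊤ := by
    rw [hJ0, ← Ideal.mul_sup] at ha
    apply mul_left_cancel₀ hI.1
    rw [ha, mul_top]
  have hcop : IsCoprime J0 M := by
    rw [isCoprime_iff_sup_eq, sup_comm]
    exact hsup
  have hJ00 : J0 ≠ ⊥ := by
    rintro rfl
    rw [sup_bot_eq, hM, span_singleton_eq_top] at hsup
    exact two_mul_not_unit _ hsup
  have hJ0c : Cop (n * n') J0 := ⟨hJ00, hcop.of_isCoprime_of_dvd_right (by
    rw [dvd_iff_le, hM, span_singleton_le_span_singleton]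
    exact ⟨2, by push_cast; ring⟩)⟩
  have hac := cop_mul hI (cop_of_mul hJ0c)
  rw [← hJ0] at hac
  obtain ⟨b, hb0, hb, hb1⟩ := exists_inv (m := n * n') (by positivity)
    ((isCoprime_span_singleton_iff _ _).1 hac.2)
  have ha0 : a ≠ 0 := fun h => hac.1 (span_singleton_eq_bot.2 h)
  refine ⟨J0 * span {b}, cop_mul hJ0c ⟨fun h => hb0 (span_singleton_eq_bot.1 h),
    (isCoprime_span_singleton_iff _ _).2 hb⟩, b * a, mul_ne_zero hb0 ha0, hb1, ?_⟩
  rw [← mul_assoc, ← hJ0, span_singleton_mul_span_singleton, mul_comm]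

omit [NumberField F] in
theorem mul_sub_one {N : Ideal (𝓞 F)} {α β : 𝓞 F} (h1 : α - 1 ∈ N) (h2 : β - 1 ∈ N) :
    α * β - 1 ∈ N := by
  have := N.add_mem (N.mul_mem_right β h1) h2
  convert this using 1
  ring

omit [NumberField F] in
theorem rayEq_refl (n : ℕ) (I : Ideal (𝓞 F)) : RayEq n I I :=
  ⟨1, 1, one_ne_zero, one_ne_zero, by simp, by simp, rfl⟩

omit [NumberField F] in
theorem rayEq_symm {n : ℕ} {I J : Ideal (𝓞 F)} (h : RayEq n I J) : RayEq n J I := by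
  obtain ⟨α, β, h1, h2, h3, h4, h5⟩ := h
  exact ⟨β, α, h2, h1, h4, h3, h5.symm⟩

omit [NumberField F] in
theorem rayEq_trans {n : ℕ} {I J K : Ideal (𝓞 F)} (h : RayEq n I J) (h' : RayEq n J K) :
    RayEq n I K := by
  obtain ⟨α, β, h1, h2, h3, h4, h5⟩ := h
  obtain ⟨α', β', k1, k2, k3, k4, k5⟩ := h'
  refine ⟨α' * α, β * β', mul_ne_zero k1 h1, mul_ne_zero h2 k2, mul_sub_one k3 h3,
    mul_sub_one h4 k4, ?_⟩
  rw [← span_singleton_mul_span_singleton, ← span_singleton_mul_span_singleton, mul_assoc, h5,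
    mul_left_comm, k5, mul_assoc]

omit [NumberField F] in
theorem rayEq_mul {n : ℕ} {I J I' J' : Ideal (𝓞 F)} (h : RayEq n I J) (h' : RayEq n I' J') :
    RayEq n (I * I') (J * J') := by
  obtain ⟨α, β, h1, h2, h3, h4, h5⟩ := h
  obtain ⟨α', β', k1, k2, k3, k4, k5⟩ := h'
  refine ⟨α * α', β * β', mul_ne_zero h1 k1, mul_ne_zero h2 k2, mul_sub_one h3 k3,
    mul_sub_one h4 k4, ?_⟩
  rw [← span_singleton_mul_span_singleton, ← span_singleton_mul_span_singleton,
    mul_mul_mul_comm, h5, k5, mul_mul_mul_comm]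

variable (F) in
/-- The monoid of ideals coprime to `n`. -/
def S (n : ℕ) : Submonoid (Ideal (𝓞 F)) where
  carrier := {I | Cop n I}
  mul_mem' := cop_mul
  one_mem' := cop_one n

variable (F) in
/-- Ray equivalence as a congruence. -/
def con (n : ℕ) : Con (S F n) where
  r I J := RayEq n (I : Ideal (𝓞 F)) J
  iseqv := ⟨fun _ => rayEq_refl n _, rayEq_symm, rayEq_trans⟩
  mul' := rayEq_mul

/-- The ideal class of an ideal coprime to `n`. -/
noncomputable def cg {n : ℕ} (I : S F n) : ClassGroup (𝓞 F) :=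
  ClassGroup.mk0 ⟨I.1, mem_nonZeroDivisors_of_ne_zero I.2.1⟩

theorem cg_mul {n : ℕ} (I J : S F n) : cg (I * J) = cg I * cg J := by
  rw [cg, cg, cg, ← map_mul]
  rfl

theorem cg_eq_one {n : ℕ} (I : S F n) : cg I = 1 ↔ I.1.IsPrincipal :=
  ClassGroup.mk0_eq_one_iff _

theorem finite_quot {n : ℕ} (hn : n ≠ 0) : Finite (con F n).Quotient := by
  have h1 : ∀ c : ClassGroup (𝓞 F), ∃ J : S F n, ∀ I : S F n, cg I = c →
      ∃ x : 𝓞 F, I.1 * J.1 = span {x} := by
    intro c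
    by_cases hc : ∃ I0 : S F n, cg I0 = c
    · obtain ⟨I0, rfl⟩ := hc
      obtain ⟨J, hJ, y, -, -, hy⟩ := exists_compl hn one_ne_zero I0.2
      refine ⟨⟨J, cop_of_mul hJ⟩, fun I hI => ?_⟩
      have h2 : cg (I0 * ⟨J, cop_of_mul hJ⟩) = 1 := (cg_eq_one _).2 ⟨y, hy⟩
      rw [cg_mul, ← hI, ← cg_mul, cg_eq_one] at h2
      exact h2.principal
    · exact ⟨1, fun I hI => absurd ⟨I, hI⟩ hc⟩
  choose J hJ using h1
  choose x hx using fun I : S F n => hJ (cg I) I rfl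
  have hfin : Finite (𝓞 F ⧸ span {(n : 𝓞 F)}) :=
    finiteQuotientOfFreeOfNeBot _ (by
      rw [Ne, span_singleton_eq_bot]
      exact cast_ne hn)
  have key : ∀ I I' : S F n, cg I = cg I' → x I - x I' ∈ span {(n : 𝓞 F)} → con F n I I' := by
    intro I I' hc hxx
    have c1 := cop_mul I.2 (J (cg I)).2
    have c2 := cop_mul I'.2 (J (cg I')).2
    rw [hx] at c1 c2
    obtain ⟨a, ha0, -, ha⟩ := exists_inv one_ne_zero ((isCoprime_span_singleton_iff _ _).1 c1.2)
    refine ⟨a * x I', a * x I, mul_ne_zero ha0 fun h => c2.1 (span_singleton_eq_bot.2 h),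
      mul_ne_zero ha0 fun h => c1.1 (span_singleton_eq_bot.2 h), ?_, ha, ?_⟩
    · have := sub_mem ha (mul_mem_left _ a hxx)
      convert this using 1
      ring
    · have e1 := hx I
      have e2 := hx I'
      rw [← hc] at e2
      rw [← span_singleton_mul_span_singleton, ← span_singleton_mul_span_singleton, ← e1, ← e2]
      ring
  refine Finite.of_injective
    (fun q : (con F n).Quotient => (cg q.out, Ideal.Quotient.mk (span {(n : 𝓞 F)}) (x q.out)))
    fun q q' h => ?_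
  rw [Prod.mk.injEq, Ideal.Quotient.eq] at h
  exact Quotient.out_equiv_out.1 (key _ _ h.1 h.2)

theorem exists_mul_eq_one {n n' : ℕ} (hn : n ≠ 0) (hn' : n' ≠ 0) (q : (con F n).Quotient) :
    ∃ J : S F n, Cop (n * n') J.1 ∧ q * (J : (con F n).Quotient) = 1 := by
  induction q using Con.induction_on with
  | H I =>
    obtain ⟨J, hJ, y, hy0, hy1, hy⟩ := exists_compl hn hn' I.2
    refine ⟨⟨J, cop_of_mul hJ⟩, hJ, ?_⟩
    rw [← Con.coe_mul, ← Con.coe_one, Con.eq]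
    refine ⟨1, y, one_ne_zero, hy0, by simp, hy1, ?_⟩
    show span {1} * (I.1 * J) = span {y} * 1
    rw [hy, span_singleton_one, mul_one, top_mul]

end Ray

open Ray in
theorem ray : RAY := by
  intro F _ _ n hn
  have hu : ∀ q : (con F n).Quotient, IsUnit q := fun q => by
    obtain ⟨J, -, hJ⟩ := exists_mul_eq_one hn one_ne_zero q
    exact IsUnit.of_mul_eq_one _ hJ
  refine ⟨(con F n).Quotient, commGroupOfIsUnit hu, finite_quot hn,
    fun I => if h : Cop n I then ((⟨I, h⟩ : S F n) : (con F n).Quotient) else 1, ?_, ?_, ?_⟩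
  · intro I J hI hJ
    simp only [dif_pos hI, dif_pos hJ, dif_pos (cop_mul hI hJ)]
    rfl
  · intro I J hI hJ
    simp only [dif_pos hI, dif_pos hJ]
    exact Con.eq _
  · intro n' hn' c
    obtain ⟨u, rfl⟩ := hu c
    obtain ⟨J, hJ, h⟩ := exists_mul_eq_one hn hn' ((u⁻¹ : (con F n).Quotientˣ) : (con F n).Quotient)
    refine ⟨J.1, hJ, ?_⟩
    simp only [dif_pos (cop_of_mul hJ)]
    exact (Units.inv_mul_eq_one.1 h).symm

end Pool.Agent.P.MP_29cb78_nt.C
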