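import Pool.Agent.P.MP_29cb78_nt.C.Iface

/-!
The reciprocity law for a cubic character that is nontrivial on a commutator.
-/

namespace Pool.Agent.P.MP_29cb78_nt.C

open NumberField Set Ideal
open scoped Classical

noncomputable section

namespace Recip

/-- A Galois extension of the rationals containing `Ω` and a primitive root of unity. -/
theorem exists_ext (Ω : Type) [Field Ω] [NumberField Ω] (l : ℕ) [NeZero l] :
    ∃ (E : Type) (_ : Field E) (_ : NumberField E) (_ : Algebra Ω E) (_ : IsGalois ℚ E) (ζ : E),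
      IsPrimitiveRoot ζ l := by
  let L := CyclotomicField l Ω
  have : NumberField L := NumberField.of_module_finite Ω L
  let N := IntermediateField.normalClosure ℚ L (AlgebraicClosure L)
  have : IsAlgClosure ℚ (AlgebraicClosure L) := IsAlgClosure.ofAlgebraic ℚ L _
  have : NumberField N := NumberField.of_module_finite ℚ N
  exact ⟨N, inferInstance, inferInstance, ((algebraMap L N).comp (algebraMap Ω L)).toAlgebra,
    IsGalois.normalClosure ℚ L (AlgebraicClosure L), _,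
    (IsCyclotomicExtension.zeta_spec l Ω L).map_of_injective (algebraMap L N).injective⟩

section

variable {L : Type} [Field L] [NumberField L]

theorem ne_bot {P : Ideal (𝓞 L)} (hP : P.IsMaximal) : P ≠ ⊥ :=
  Ring.ne_bot_of_isMaximal_of_not_isField hP (RingOfIntegers.not_isField L)

theorem exists_prime {P : Ideal (𝓞 L)} (hP : P.IsMaximal) (h2 : Module.finrank ℚ L = 2) :
    ∃ q : ℕ, q.Prime ∧ (q : 𝓞 L) ∈ P ∧ (absNorm P = q ∨ absNorm P = q ^ 2) := by
  have : Finite (𝓞 L ⧸ P) := Ring.HasFiniteQuotients.finiteQuotient (ne_bot hP)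
  obtain ⟨q, hq⟩ := CharP.exists (𝓞 L ⧸ P)
  have hp : q.Prime := CharP.char_is_prime (𝓞 L ⧸ P) q
  have hm : (q : 𝓞 L) ∈ P := by
    rw [← Ideal.Quotient.eq_zero_iff_mem, map_natCast, CharP.cast_eq_zero]
  have hd := absNorm_dvd_absNorm_of_le ((span_singleton_le_iff_mem P).2 hm)
  rw [absNorm_span_natCast, RingOfIntegers.rank, h2, Nat.dvd_prime_pow hp] at hd
  obtain ⟨i, hi, e⟩ := hd
  refine ⟨q, hp, hm, ?_⟩
  interval_cases i
  · exact absurd (absNorm_eq_one_iff.1 e) hP.ne_top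
  · exact Or.inl (by simpa using e)
  · exact Or.inr e

omit [NumberField L] in
theorem not_mem {P : Ideal (𝓞 L)} (hP : P.IsMaximal) {q l : ℕ} (hq : (q : 𝓞 L) ∈ P)
    (h : l.Coprime q) : (l : 𝓞 L) ∉ P := fun hl => by
  obtain ⟨a, b, e⟩ := (Nat.Coprime.cast (R := 𝓞 L) h)
  exact hP.ne_top ((eq_top_iff_one _).2 (e ▸ add_mem (P.mul_mem_left _ hl) (P.mul_mem_left _ hq)))

omit [NumberField L] in
theorem ray_mono {B : Type} [Monoid B] {a : Ideal (𝓞 L) →* B} {n m : ℕ} (h : Ray n a)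
    (hd : n ∣ m) : Ray m a := fun α h0 h1 =>
  h α h0 (span_singleton_le_span_singleton.2 (Nat.cast_dvd_cast hd) h1)

omit [NumberField L] in
theorem cop_mono {n m : ℕ} {I : Ideal (𝓞 L)} (h : Cop (n * m) I) : Cop n I :=
  ⟨h.1, by
    have := h.2
    rw [Nat.cast_mul, ← span_singleton_mul_span_singleton] at this
    exact this.of_mul_right_left⟩

theorem ray_of_eq {A η : Ideal (𝓞 L) →* ℂ} {n t k : ℕ} (hη : Ray (n ^ (t + 1)) η)
    (h : ∀ P : Ideal (𝓞 L), P.IsMaximal → (n : 𝓞 L) ∉ P → η P ^ k = A P) :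
    Ray (n ^ (t + 1)) A := by
  have key : ∀ I : Ideal (𝓞 L), Cop n I → η I ^ k = A I := fun I => by
    induction I using UniqueFactorizationMonoid.induction_on_prime with
    | h₁ => exact fun e => absurd rfl e.1
    | h₂ I hI =>
      intro _
      rw [isUnit_iff.1 hI, ← one_eq_top, map_one, map_one, one_pow]
    | h₃ I P hI hP ih =>
      intro e
      have hm : P.IsMaximal := (isPrime_of_prime hP).isMaximal hP.ne_zero
      rw [map_mul, map_mul, mul_pow, ih ⟨hI, e.2.of_mul_left_right⟩, h P hm fun hn => ?_]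
      have := isCoprime_iff_sup_eq.1 e.2.of_mul_left_left
      exact hm.ne_top (by rwa [sup_eq_left.2 ((span_singleton_le_iff_mem P).2 hn)] at this)
  intro α h0 h1
  rw [← key _ ⟨by simpa using h0, ?_⟩, hη α h0 h1, one_pow]
  obtain ⟨c, hc⟩ := mem_span_singleton'.1 h1
  rw [isCoprime_span_singleton_iff]
  exact ⟨1, -(c * n ^ t), by push_cast at hc; linear_combination -hc⟩

end

section

variable {F Ω : Type} [Field F] [Field Ω] [NumberField F] [NumberField Ω] [Algebra F Ω]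

theorem isFrob_iff [IsGalois F Ω] (Q : Ideal (𝓞 Ω)) (σ : Gal(Ω/F)) :
    IsFrob Q σ ↔ IsArithFrobAt (𝓞 F) σ Q := by
  unfold IsFrob
  rw [absNorm_apply, Submodule.cardQuot_apply]
  rfl

theorem exists_frob [IsGalois F Ω] {P : Ideal (𝓞 F)} (hP : P.IsMaximal) :
    ∃ Q : Ideal (𝓞 Ω), Q.IsMaximal ∧ Q.under (𝓞 F) = P ∧ ∃ σ : Gal(Ω/F), IsFrob Q σ := by
  obtain ⟨Q, hQ, e⟩ := exists_ideal_over_maximal_of_isIntegral (S := 𝓞 Ω) P (by
    rw [(RingHom.injective_iff_ker_eq_bot (algebraMap (𝓞 F) (𝓞 Ω))).1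
      (FaithfulSMul.algebraMap_injective (𝓞 F) (𝓞 Ω))]
    exact bot_le)
  have : Finite (𝓞 Ω ⧸ Q) := Ring.HasFiniteQuotients.finiteQuotient (ne_bot hQ)
  obtain ⟨σ, hσ⟩ := IsArithFrobAt.exists_of_isInvariant (𝓞 F) Gal(Ω/F) Q
  exact ⟨Q, hQ, e, σ, (isFrob_iff _ _).2 hσ⟩

theorem autToPow_eq {l : ℕ} [NeZero l] {ζ : Ω} (hζ : IsPrimitiveRoot ζ l) {σ : Gal(Ω/F)} {m : ℕ}
    (h : σ ζ = ζ ^ m) : (hζ.autToPow F σ : ZMod l) = m := by
  have e := (hζ.autToPow_spec F σ).trans h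
  rw [(hζ.isOfFinOrder (NeZero.ne l)).pow_eq_pow_iff_modEq, ← hζ.eq_orderOf] at e
  rw [← (ZMod.natCast_eq_natCast_iff _ _ _).2 e, ZMod.natCast_zmod_val]

theorem frob_zeta [IsGalois F Ω] {l : ℕ} [NeZero l] {ζ : Ω} (hζ : IsPrimitiveRoot ζ l) {Q : Ideal (𝓞 Ω)}
    (hl : (l : 𝓞 Ω) ∉ Q) {σ : Gal(Ω/F)} (hσ : IsFrob Q σ) :
    σ ζ = ζ ^ absNorm (Q.under (𝓞 F)) := by
  have e := AlgHom.IsArithFrobAt.apply_of_pow_eq_one ((isFrob_iff _ _).1 hσ)
    hζ.toInteger_isPrimitiveRoot.pow_eq_one hl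
  rw [absNorm_apply, Submodule.cardQuot_apply]
  exact congrArg Subtype.val e

theorem frob_res {E : Type} [Field E] [NumberField E] [Algebra Ω E] [Algebra F E]
    [IsScalarTower F Ω E] [Normal F Ω] {Q : Ideal (𝓞 E)} {σ : Gal(E/F)} (hσ : IsFrob Q σ) :
    IsFrob (Q.under (𝓞 Ω)) (σ.restrictNormal Ω) := fun z => by
  have e : algebraMap (𝓞 Ω) (𝓞 E) (σ.restrictNormal Ω • z) = σ • algebraMap (𝓞 Ω) (𝓞 E) z :=
    Subtype.ext (AlgEquiv.restrictNormal_commutes σ Ω z)
  rw [under_under, mem_under, map_sub, map_pow, e]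
  exact hσ _

end

end Recip

open Recip in
theorem recip : BAS → GEN → FI → NC2 → CROSS → RECIP := by
  intro hB hG hF hN hC F Ω _ _ _ _ _ _ _ χ A n g x y h2 hn h3 hg hg1 hA
  have : IsGalois F Ω := IsGalois.tower_top_of_isGalois ℚ F Ω
  obtain ⟨t, η, r1, r2, r3, r4⟩ := hF F Ω χ A n h2 hn h3 ⟨g, hg1⟩ hA
  obtain ⟨P0, m0, n0, a0, c0⟩ : ∃ P0 : Ideal (𝓞 F), P0.IsMaximal ∧ (n : 𝓞 F) ∉ P0 ∧ A P0 ≠ 1 ∧
      A P0 ^ 3 = 1 := by
    by_contra hc
    have h := hG F Ω χ.ker n hn fun Q hQ hnQ _ σ hσ => by_contra fun e => hc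
      ⟨Q.under (𝓞 F), inferInstance, fun k => hnQ (by simpa using (mem_under _ _).1 k),
        by rw [hA Q hQ hnQ σ hσ]; exact e, by rw [hA Q hQ hnQ σ hσ]; exact h3 σ⟩
    exact hg1 (show g ∈ χ.ker from h ▸ Subgroup.mem_top g)
  have key : ∀ P : Ideal (𝓞 F), P.IsMaximal → (n : 𝓞 F) ∉ P →
      (η P = A P ∧ η P0 = A P0) ∨ (η P ^ 2 = A P ∧ η P0 ^ 2 = A P0) := by
    intro P hP hnP
    obtain ⟨q, hq, qP, eq⟩ := exists_prime hP h2
    obtain ⟨q0, hq0, qP0, eq0⟩ := exists_prime m0 h2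
    obtain ⟨l, ψ0, l3, lc, u3, u1, u2⟩ := hN q q0 hq hq0
    have : NeZero l := ⟨by omega⟩
    obtain ⟨E, _, _, _, _, ζ, hζ⟩ := exists_ext Ω l
    let _ : Algebra F E := ((algebraMap Ω E).comp (algebraMap F Ω)).toAlgebra
    have : IsScalarTower F Ω E := IsScalarTower.of_algebraMap_eq fun _ => rfl
    have : IsGalois F E := IsGalois.tower_top_of_isGalois ℚ F E
    let ψ : Gal(E/F) →* ℂ := ψ0.comp ((Units.coeHom _).comp (hζ.autToPow F))
    let B : Ideal (𝓞 F) →* ℂ :=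
      ψ0.comp ((Nat.castRingHom (ZMod l)).toMonoidHom.comp absNorm.toMonoidHom)
    have hψ : ∀ σ, ψ σ = ψ0 (hζ.autToPow F σ) := fun _ => rfl
    have hBa : ∀ I, B I = ψ0 (absNorm I) := fun _ => rfl
    have nb : ∀ {I : Ideal (𝓞 F)} {p : ℕ}, l.Coprime p → ψ0 p ≠ 1 →
        (absNorm I = p ∨ absNorm I = p ^ 2) → B I ≠ 1 := by
      rintro I p hp h1 (e | e) <;> rw [hBa, e]
      · exact h1
      · have := u3 p ((ZMod.isUnit_iff_coprime p l).2 hp.symm)
        rw [Nat.cast_pow, map_pow]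
        intro k
        rw [pow_succ, k, one_mul] at this
        exact h1 this
    have nl : ∀ {I : Ideal (𝓞 F)} {p : ℕ}, I.IsMaximal → (n : 𝓞 F) ∉ I → (p : 𝓞 F) ∈ I →
        l.Coprime p → ((n * l : ℕ) : 𝓞 F) ∉ I := fun hI h1 h2 h3 e => by
      rw [Nat.cast_mul] at e
      exact (hI.isPrime.mem_or_mem e).elim h1 (not_mem hI h2 h3)
    have fB : FrobChar (n * l) ψ B := fun Q hQ hnQ σ hσ => by
      rw [hψ, hBa, autToPow_eq hζ (frob_zeta hζ (fun e => hnQ ?_) hσ)]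
      rw [Nat.cast_mul]
      exact Q.mul_mem_left _ e
    have b0 := nb lc.coprime_mul_left_right u2 eq0
    have l0 := nl m0 n0 qP0 lc.coprime_mul_left_right
    refine (hC F E (χ.comp (AlgEquiv.restrictNormalHom Ω)) ψ A B η (n * l) t h2
      (l3.trans (Nat.le_mul_of_pos_left _ (Nat.pos_of_ne_zero hn))) (fun σ => h3 _)
      (fun σ => u3 _ (Units.isUnit _)) ?_ ?_ (fun Q hQ hnQ σ hσ => ?_) fB (fun α h0 h1 => ?_)
      (ray_mono r1 (pow_dvd_pow_of_dvd (dvd_mul_right _ _) _)) (fun I hI => r2 I (cop_mono hI))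
      (r3 l (NeZero.ne l)) fun I hI hnI => r4 I hI fun e => hnI ?_).imp
      (fun e => ⟨e P hP (nl hP hnP qP lc.coprime_mul_right_right)
        (nb lc.coprime_mul_right_right u1 eq), e P0 m0 l0 b0⟩)
      fun e => ⟨e P hP (nl hP hnP qP lc.coprime_mul_right_right)
        (nb lc.coprime_mul_right_right u1 eq), e P0 m0 l0 b0⟩
    · let c : Gal(E/ℚ) := x.liftNormal E * y.liftNormal E * (x.liftNormal E)⁻¹ * (y.liftNormal E)⁻¹
      have hc : ∀ s, c (algebraMap Ω E s) = algebraMap Ω E (g s) := fun s => by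
        have e : AlgEquiv.restrictNormalHom Ω c = x * y * x⁻¹ * y⁻¹ := by
          have k : ∀ z : Gal(Ω/ℚ), AlgEquiv.restrictNormalHom Ω (z.liftNormal E) = z :=
            fun z => z.restrict_liftNormal E
          simp only [c, map_mul, map_inv, k]
        rw [hg, ← e]
        exact (AlgEquiv.restrictNormal_commutes c Ω s).symm
      let c' : Gal(E/F) := { c.toRingEquiv with
        commutes' := fun s => (hc _).trans (congrArg (algebraMap Ω E) (g.commutes s)) }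
      have e1 : c ζ = ζ ^ 1 := by
        have k : hζ.autToPow ℚ c = 1 := by
          simp only [c, map_mul, map_inv]
          rw [mul_comm (hζ.autToPow ℚ (x.liftNormal E))]
          simp
        rw [← hζ.autToPow_spec ℚ c, k, Units.val_one, ZMod.val_one'' (by omega)]
      have e2 : AlgEquiv.restrictNormalHom Ω c' = g := AlgEquiv.ext fun s =>
        (algebraMap Ω E).injective ((AlgEquiv.restrictNormal_commutes c' Ω s).trans (hc s))
      refine ⟨c', ?_, ?_⟩
      · rw [hψ, autToPow_eq hζ (σ := c') e1, Nat.cast_one, map_one]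
      · rw [MonoidHom.comp_apply, e2]; exact hg1
    · obtain ⟨Q, hQ, e, σ, hσ⟩ := exists_frob (Ω := E) m0
      refine ⟨σ, ?_⟩
      rw [← fB Q hQ (fun k => l0 ?_) σ hσ, e]
      · exact b0
      · rw [← e, mem_under]; simpa using k
    · rw [← under_under (A := 𝓞 F) (B := 𝓞 Ω) Q]
      refine hA _ inferInstance (fun e => hnQ ?_) _ (frob_res hσ)
      rw [Nat.cast_mul]
      exact Q.mul_mem_right _ (by simpa using (mem_under _ _).1 e)
    · obtain ⟨φ⟩ : Nonempty (F →+* ℂ) := inferInstance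
      rw [hBa, (hB F φ h2).2.2.2.1 l α (span_singleton_le_span_singleton.2
        (Nat.cast_dvd_cast ((dvd_mul_left _ _).trans (dvd_pow_self _ (by omega)))) h1), map_one]
    · rw [Nat.cast_mul]
      exact I.mul_mem_right _ e
  refine ⟨t, ?_⟩
  by_cases h0 : η P0 = A P0
  · refine ray_of_eq (k := 1) r1 fun P hP hnP => ?_
    rcases key P hP hnP with e | e
    · rw [pow_one, e.1]
    · have k := e.2
      rw [h0] at k
      exact absurd (by linear_combination c0 - (A P0 + 1) * k) a0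
  · exact ray_of_eq (k := 2) r1 fun P hP hnP => ((key P hP hnP).resolve_left fun e => h0 e.2).1

end

end Pool.Agent.P.MP_29cb78_nt.C
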