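import Pool.Agent.P.MP_29cb78_nt.C.Iface

/-!
The Galois closure of a cyclotomic extension of a complex cubic field.
-/

namespace Pool.Agent.P.MP_29cb78_nt.C

open NumberField NumberField.InfinitePlace NumberField.Units Set Ideal Filter Topology
open NumberField.ComplexEmbedding (IsConj conjugate)
noncomputable section

namespace Setup

/-- even permutations of three points -/
abbrev ev (p : Equiv.Perm (Fin 3)) : Prop := p 1 = p 0 + 1

theorem ev_mul : ∀ p q : Equiv.Perm (Fin 3), ev p → ev q → ev (p * q) := by decide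
theorem ev_inv : ∀ p : Equiv.Perm (Fin 3), ev p → ev p⁻¹ := by decide
theorem ev_xor : ∀ s b : Equiv.Perm (Fin 3), ¬ ev s → Xor (ev (b * s)) (ev b) := by decide
theorem odd_of_inv : ∀ s : Equiv.Perm (Fin 3), s * s = 1 → s 0 ≠ 0 → ¬ ev s := by decide
theorem odd_conj : ∀ s x : Equiv.Perm (Fin 3), ¬ ev s → ¬ ev (x⁻¹ * s * x) := by decide
theorem val_mul : ∀ p q : Equiv.Perm (Fin 3), ev p → ev q →
    ((p * q) 0).val = ((p 0).val + (q 0).val) % 3 := by decide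
theorem ev_conj : ∀ x p : Equiv.Perm (Fin 3), ev p → ev (x * p * x⁻¹) := by decide
theorem val_anti : ∀ x p : Equiv.Perm (Fin 3), ¬ ev x → ev p →
    (((x * p * x⁻¹) 0).val + (p 0).val) % 3 = 0 := by decide
theorem eq_one : ∀ p : Equiv.Perm (Fin 3), ev p → p 0 = 0 → p = 1 := by decide
/-- nontrivial rotations -/
def rot (p : Equiv.Perm (Fin 3)) : Prop := ev p ∧ p 0 ≠ 0
instance (p : Equiv.Perm (Fin 3)) : Decidable (rot p) := inferInstanceAs (Decidable (_ ∧ _))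
theorem pick : ∀ a b s : Equiv.Perm (Fin 3), a 0 = 1 → b 0 = 2 → ¬ ev s →
    rot a ∨ rot b ∨ rot (s * a) ∨ rot (s * b) := by decide +kernel
theorem pick2 : ∀ a s : Equiv.Perm (Fin 3), ev a → a 0 ≠ 0 → ¬ ev s → s 0 ≠ 0 →
    (ev (s * a * s⁻¹ * a⁻¹) ∧ (s * a * s⁻¹ * a⁻¹) 0 ≠ 0 ∧
      ((s * a * s⁻¹ * a⁻¹)⁻¹ * s * (s * a * s⁻¹ * a⁻¹)) 0 = 0) ∨
    (ev (a * s * a⁻¹ * s⁻¹) ∧ (a * s * a⁻¹ * s⁻¹) 0 ≠ 0 ∧
      ((a * s * a⁻¹ * s⁻¹)⁻¹ * s * (a * s * a⁻¹ * s⁻¹)) 0 = 0) := by decide +kernel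
theorem cube_one : ∀ p : Equiv.Perm (Fin 3), ev p → p ^ 3 = 1 := by decide

open scoped Classical

theorem exists_perm {G : Type} [Group G] (H : Subgroup G) (h3 : H.index = 3) :
    ∃ π : G →* Equiv.Perm (Fin 3), (∀ ρ, ρ ∈ H ↔ π ρ 0 = 0) ∧ ∀ i, ∃ ρ, π ρ 0 = i := by
  have : Finite (G ⧸ H) := Nat.finite_of_card_ne_zero (by rw [← Subgroup.index, h3]; norm_num)
  have e0 : (G ⧸ H) ≃ Fin 3 := Finite.equivFinOfCardEq h3
  let e : (G ⧸ H) ≃ Fin 3 := e0.trans (Equiv.swap (e0 (QuotientGroup.mk 1)) 0)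
  have he : e (QuotientGroup.mk 1) = 0 := by simp [e]
  have he' : e.symm 0 = QuotientGroup.mk 1 := by rw [← he, Equiv.symm_apply_apply]
  refine ⟨(e.permCongrHom.toMonoidHom).comp (MulAction.toPermHom G (G ⧸ H)), fun ρ => ?_,
    fun i => ?_⟩
  · change _ ↔ e (ρ • e.symm 0) = 0
    rw [he', ← he, e.injective.eq_iff, MulAction.Quotient.smul_mk, QuotientGroup.eq]
    simp
  · obtain ⟨ρ, hρ⟩ := QuotientGroup.mk_surjective (e.symm i)
    refine ⟨ρ, ?_⟩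
    change e (ρ • e.symm 0) = i
    rw [he', MulAction.Quotient.smul_mk, smul_eq_mul, mul_one, hρ, Equiv.apply_symm_apply]

theorem group_part {G : Type} [Group G] (H : Subgroup G) (h3 : H.index = 3) (c : G)
    (hc : c * c = 1) (hcH : c ∉ H) :
    ∃ (Φ : Subgroup G) (Ψ : G → ℂ) (g : G), Φ.index = 2 ∧ (∀ x, x⁻¹ * c * x ∉ Φ) ∧ Ψ 1 = 1 ∧
      (∀ a ∈ Φ, ∀ b ∈ Φ, Ψ (a * b) = Ψ a * Ψ b) ∧ (∀ a, a ∉ Φ → Ψ a = 0) ∧
      (∀ a ∈ Φ, Ψ a ^ 3 = 1) ∧ g ∈ Φ ∧ Ψ g ≠ 1 ∧ (∃ x y, g = x * y * x⁻¹ * y⁻¹) ∧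
      (∀ a ∈ Φ, (a ∈ H ↔ Ψ a = 1)) ∧ (∀ a ∈ Φ, a ∈ H → ∀ x, x⁻¹ * a * x ∈ H) ∧
      (∀ x, x ∉ Φ → ∀ a ∈ Φ, Ψ (x * a * x⁻¹) * Ψ a = 1) ∧ g⁻¹ * c * g ∈ H ∧ g ^ 3 ∈ H := by
  obtain ⟨π, hH, htr⟩ := exists_perm H h3
  have hω := Complex.isPrimitiveRoot_exp 3 (by norm_num)
  set ω := Complex.exp (2 * Real.pi * Complex.I / (3 : ℕ)) with hωd
  have hω3 : ω ^ 3 = 1 := hω.pow_eq_one
  let Φ : Subgroup G :=
    { carrier := {ρ | ev (π ρ)}
      one_mem' := by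
        change ev (π 1)
        rw [map_one]; decide
      mul_mem' := fun {a b} ha hb => by
        change ev (π (a * b))
        rw [map_mul]; exact ev_mul _ _ ha hb
      inv_mem' := fun {a} ha => by
        change ev (π a⁻¹)
        rw [map_inv]; exact ev_inv _ ha }
  have hΦ : ∀ ρ, ρ ∈ Φ ↔ ev (π ρ) := fun _ => Iff.rfl
  let Ψ : G → ℂ := fun ρ => if ev (π ρ) then ω ^ (π ρ 0).val else 0
  have hΨ : ∀ ρ, ev (π ρ) → Ψ ρ = ω ^ (π ρ 0).val := fun ρ h => if_pos h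
  have hs0 : π c 0 ≠ 0 := fun h => hcH ((hH c).2 h)
  have hs : ¬ ev (π c) := odd_of_inv _ (by rw [← map_mul, hc, map_one]) hs0
  have hker : ∀ a, ev (π a) → (π a 0 = 0 ↔ Ψ a = 1) := by
    intro a ha
    rw [hΨ a ha, hω.pow_eq_one_iff_dvd]
    generalize π a 0 = i
    revert i; decide
  obtain ⟨a, ha, ha0⟩ : ∃ a, ev (π a) ∧ π a 0 ≠ 0 := by
    obtain ⟨a, ha⟩ := htr 1
    obtain ⟨b, hb⟩ := htr 2
    rcases pick _ _ _ ha hb hs with h | h | h | h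
    · exact ⟨a, h⟩
    · exact ⟨b, h⟩
    · exact ⟨c * a, by rwa [map_mul]⟩
    · exact ⟨c * b, by rwa [map_mul]⟩
  obtain ⟨g, hg1, hg2, hg3, hg4⟩ : ∃ g, ev (π g) ∧ π g 0 ≠ 0 ∧ π (g⁻¹ * c * g) 0 = 0 ∧
      ∃ x y, g = x * y * x⁻¹ * y⁻¹ := by
    rcases pick2 _ _ ha ha0 hs hs0 with h | h
    · refine ⟨c * a * c⁻¹ * a⁻¹, ?_, ?_, ?_, c, a, rfl⟩ <;> simp only [map_mul, map_inv]
      exacts [h.1, h.2.1, h.2.2]
    · refine ⟨a * c * a⁻¹ * c⁻¹, ?_, ?_, ?_, a, c, rfl⟩ <;> simp only [map_mul, map_inv]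
      exacts [h.1, h.2.1, h.2.2]
  refine ⟨Φ, Ψ, g, ?_, ?_, ?_, ?_, ?_, ?_, hg1, ?_, hg4, ?_, ?_, ?_, (hH _).2 hg3, ?_⟩
  · rw [Subgroup.index_eq_two_iff]
    refine ⟨c, fun b => ?_⟩
    rw [hΦ, hΦ, map_mul]
    exact ev_xor _ _ hs
  · intro x
    rw [hΦ, map_mul, map_mul, map_inv]
    exact odd_conj _ _ hs
  · rw [hΨ 1 Φ.one_mem, map_one]; simp
  · intro a ha b hb
    rw [hΨ _ (Φ.mul_mem ha hb), hΨ a ha, hΨ b hb, map_mul, val_mul _ _ ha hb, ← pow_add,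
      ← pow_eq_pow_mod _ hω3]
  · intro a ha
    exact if_neg ha
  · intro a ha
    rw [hΨ a ha, ← pow_mul, mul_comm, pow_mul, hω3, one_pow]
  · exact fun h => hg2 ((hker g hg1).2 h)
  · intro a ha
    rw [hH, hker a ha]
  · intro a ha haH x
    rw [hH, map_mul, map_mul, eq_one _ ha ((hH a).1 haH), mul_one, ← map_mul, inv_mul_cancel,
      map_one]
    rfl
  · intro x hx a ha
    have h1 : ev (π (x * a * x⁻¹)) := by
      rw [map_mul, map_mul, map_inv]; exact ev_conj _ _ ha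
    rw [hΨ _ h1, hΨ a ha, ← pow_add, pow_eq_pow_mod _ hω3, map_mul, map_mul, map_inv,
      val_anti _ _ hx ha, pow_zero]
  · rw [hH, map_pow, cube_one _ hg1]
    rfl

theorem exists_closure (E : Type) [Field E] [NumberField E] :
    ∃ (Ω : Type) (_ : Field Ω) (_ : NumberField Ω) (_ : Algebra E Ω) (_ : IsGalois ℚ Ω),
      ∀ ρ : Gal(Ω/ℚ), (∀ (x : Gal(Ω/ℚ)) (y : E), (x⁻¹ * ρ * x) (algebraMap E Ω y) =
        algebraMap E Ω y) → ρ = 1 := by
  have : IsAlgClosure ℚ (AlgebraicClosure E) :=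
    ⟨inferInstance, Algebra.IsAlgebraic.trans ℚ E (AlgebraicClosure E)⟩
  have : Nonempty (E →ₐ[ℚ] AlgebraicClosure E) := ⟨IsScalarTower.toAlgHom ℚ E _⟩
  let Ω := IntermediateField.normalClosure ℚ E (AlgebraicClosure E)
  have hN : IsNormalClosure ℚ E Ω := isNormalClosure_normalClosure ℚ E (AlgebraicClosure E)
  have hF : FiniteDimensional ℚ Ω := normalClosure.is_finiteDimensional ℚ E (AlgebraicClosure E)
  have hn : Normal ℚ Ω := hN.normal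
  refine ⟨Ω, inferInstance, { to_finiteDimensional := hF }, inferInstance, {}, fun ρ hρ => ?_⟩
  have h1 : (⊤ : IntermediateField ℚ Ω) ≤ IntermediateField.fixedField (Subgroup.zpowers ρ) := by
    rw [← hN.adjoin_rootSet]
    refine iSup_le fun y => ?_
    rw [IntermediateField.adjoin_le_iff]
    intro r hr
    have h2 : Polynomial.aeval r (minpoly ℚ (algebraMap E Ω y)) = 0 := by
      rw [minpoly.algebraMap_eq (algebraMap E Ω).injective]
      exact (Polynomial.mem_rootSet.1 hr).2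
    obtain ⟨x, hx⟩ := minpoly.exists_algEquiv_of_root' (Algebra.IsAlgebraic.isAlgebraic _) h2
    have h3 : ρ r = r := by
      have h4 := congrArg x (hρ x y)
      rw [← AlgEquiv.mul_apply, ← mul_assoc, ← mul_assoc, mul_inv_cancel, one_mul,
        AlgEquiv.mul_apply, hx] at h4
      exact h4
    have h5 : Subgroup.zpowers ρ ≤ MulAction.stabilizer _ r := by
      rw [Subgroup.zpowers_le]; exact h3
    rintro ⟨g, hg⟩
    exact h5 hg
  ext z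
  exact congrArg Subtype.val (h1 (IntermediateField.mem_top (x := z)) ⟨ρ, Subgroup.mem_zpowers ρ⟩)

theorem index_fix (L Ω : Type) [Field L] [Field Ω] [NumberField L] [NumberField Ω] [Algebra L Ω]
    [IsGalois ℚ Ω] : (fixSub ℚ L Ω).index = Module.finrank ℚ L := by
  have : IsGalois L Ω := IsGalois.tower_top_of_isGalois ℚ L Ω
  have e : fixSub ℚ L Ω ≃ Gal(Ω/L) :=
    { toFun := fun g => toAut g.1 g.2
      invFun := fun σ => ⟨σ.restrictScalars ℚ, fun y => σ.commutes y⟩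
      left_inv := fun g => by ext x; rfl
      right_inv := fun σ => by ext x; rfl }
  have h1 := (fixSub ℚ L Ω).index_mul_card
  rw [Nat.card_congr e, IsGalois.card_aut_eq_finrank, IsGalois.card_aut_eq_finrank,
    ← Module.finrank_mul_finrank ℚ L Ω] at h1
  exact Nat.eq_of_mul_eq_mul_right Module.finrank_pos h1

theorem conj_pow {Ω : Type} [Field Ω] [NumberField Ω] {m : ℕ} [NeZero m] {ζ : Ω}
    (h : IsPrimitiveRoot ζ m) (x : Gal(Ω/ℚ)) : ∃ i : ℕ, x ζ = ζ ^ i := by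
  obtain ⟨i, -, hi⟩ := h.eq_pow_of_pow_eq_one (ξ := x ζ) (by rw [← map_pow, h.pow_eq_one, map_one])
  exact ⟨i, hi.symm⟩

end Setup

open _root_.Pool.Agent.P.MP_29cb78_nt.C.Setup in
theorem setup : SETUP := by
  intro k K E _ _ _ _ _ _ _ _ _ _ m _ _ ζ φ0 h3 _ hζ hφ
  obtain ⟨Ω, _, _, _, _, hΩ⟩ := exists_closure E
  let _ : Algebra K Ω := ((algebraMap E Ω).comp (algebraMap K E)).toAlgebra
  let _ : Algebra k Ω := ((algebraMap E Ω).comp (algebraMap k E)).toAlgebra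
  have t1 : IsScalarTower K E Ω := IsScalarTower.of_algebraMap_eq fun _ => rfl
  have t2 : IsScalarTower k E Ω := IsScalarTower.of_algebraMap_eq fun _ => rfl
  have t3 : IsScalarTower k K Ω := IsScalarTower.of_algebraMap_eq fun x =>
    congrArg (algebraMap E Ω) (IsScalarTower.algebraMap_apply k K E x)
  let φ : Ω →+* ℂ := ComplexEmbedding.lift Ω φ0
  have hφ0 : φ.comp (algebraMap K Ω) = φ0 := ComplexEmbedding.lift_comp_algebraMap Ω φ0
  obtain ⟨c, hc⟩ := exists_isConj (k0 := ℚ) φ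
  have hcH : c ∉ fixSub ℚ k Ω := by
    rw [← isReal_iff_mem hc, IsScalarTower.algebraMap_eq k K Ω, ← RingHom.comp_assoc, hφ0]
    exact hφ
  obtain ⟨Φ, Ψ, g, p1, p2, p3, p4, p5, p6, p7, p8, p9, p10, p11, p12, p13, p14⟩ :=
    group_part (fixSub ℚ k Ω) ((index_fix k Ω).trans h3) c (isConj_mul_self hc) hcH
  obtain ⟨F, _, _, _, _, _, _, _, hF⟩ := exists_field Φ ℚ (fun g _ y => g.commutes y)
  have hζ' : IsPrimitiveRoot (algebraMap E Ω ζ) m := hζ.map_of_injective (algebraMap E Ω).injective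
  set ξ := algebraMap E Ω ζ with hξ
  have hinj : ∀ ρ ∈ Φ, ρ ∈ fixSub ℚ k Ω → ρ ξ = ξ → ρ = 1 := by
    intro ρ h1 h2 h4
    refine hΩ ρ fun x y => ?_
    have h5 := p11 ρ h1 h2 x
    have h6 : (x⁻¹ * ρ * x) ξ = ξ := by
      obtain ⟨i, hi⟩ := conj_pow hζ' x
      rw [AlgEquiv.mul_apply, AlgEquiv.mul_apply, hi, map_pow, h4, ← hi, ← AlgEquiv.mul_apply,
        inv_mul_cancel, AlgEquiv.one_apply]
    have h7 : ((toAut _ h5 : Gal(Ω/k)) : Ω →ₐ[k] Ω).comp (IsScalarTower.toAlgHom k E Ω) =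
        IsScalarTower.toAlgHom k E Ω := by
      refine AlgHom.ext_of_adjoin_eq_top
        (IsCyclotomicExtension.adjoin_primitive_root_eq_top (n := m) hζ) ?_
      rintro _ rfl
      exact h6
    exact DFunLike.congr_fun h7 y
  have hgξ : g ξ = ξ := by
    obtain ⟨x, y, rfl⟩ := p9
    obtain ⟨i, hi⟩ := conj_pow hζ' x
    obtain ⟨j, hj⟩ := conj_pow hζ' y
    have h1 : (x * y) ξ = (y * x) ξ := by
      rw [AlgEquiv.mul_apply, AlgEquiv.mul_apply, hi, hj, map_pow, map_pow, hi, hj, ← pow_mul,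
        ← pow_mul, mul_comm]
    obtain ⟨l, hl⟩ := conj_pow hζ' (y * x)⁻¹
    have h2 : x * y * x⁻¹ * y⁻¹ = (x * y) * (y * x)⁻¹ := by group
    rw [h2, AlgEquiv.mul_apply, hl, map_pow, h1, ← map_pow, ← hl, ← AlgEquiv.mul_apply,
      mul_inv_cancel, AlgEquiv.one_apply]
  refine ⟨Ω, F, inferInstance, inferInstance, inferInstance, inferInstance, inferInstance,
    inferInstance, inferInstance, inferInstance, t3, t1, inferInstance, φ, Ψ, g, c, hφ0, ?_⟩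
  subst hF
  refine ⟨(index_fix F Ω).symm.trans p1, h3, ⟨fun w => ?_⟩, ⟨p3, p4, p5⟩, p6, p7, p8, ?_, hgξ, p9,
    p10, fun ρ h1 h2 h4 => hinj ρ h1 ((p10 ρ h1).2 h2) h4, p12, hc, by simpa using p2 1, p13⟩
  · obtain ⟨ψ, rfl⟩ := exists_mk_comp (K := Ω) w
    obtain ⟨x, -, hx⟩ := exists_fix_of_comp_eq (k0 := ℚ) (L := ℚ) φ ψ (Subsingleton.elim _ _)
    have h1 : IsConj ψ (x⁻¹ * c * x) := by
      ext z
      change (starRingEnd ℂ) (ψ z) = ψ ((x⁻¹ * c * x) z)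
      rw [hx, hx, ← AlgEquiv.mul_apply, ← mul_assoc, ← mul_assoc, mul_inv_cancel, one_mul,
        AlgEquiv.mul_apply, hc.eq]
      rfl
    rw [isComplex_mk_iff, isReal_iff_mem h1]
    exact p2 x
  · refine hinj _ (Subgroup.pow_mem _ p7 3) p14 ?_
    rw [pow_succ, pow_two, AlgEquiv.mul_apply, AlgEquiv.mul_apply, hgξ, hgξ, hgξ]

end

end Pool.Agent.P.MP_29cb78_nt.C
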