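import Pool.Agent.P.MP_29cb78_nt.C.Iface

/-! Lattice functions, the eta multiplier and the transformation laws of Siegel functions. -/

namespace Pool.Agent.P.MP_29cb78_nt.C

open scoped Real Matrix MatrixGroups UpperHalfPlane
open Matrix

namespace Sgm

theorem den_ne {A : Mat} {τ : ℂ} (hA : A.det ≠ 0) (hτ : 0 < τ.im) :
    (A 1 0 : ℂ) * τ + A 1 1 ≠ 0 := by
  intro h
  have h1 : A 1 0 = 0 := by
    have := congrArg Complex.im h
    simpa [hτ.ne'] using this
  have h2 : A 1 1 = 0 := by simpa [h1] using h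
  exact hA (by rw [det_fin_two, h1, h2]; ring)

theorem mv0 (A : Mat) (w : Fin 2 → ℂ) (i : Fin 2) : mv A w i = A i 0 * w 0 + A i 1 * w 1 := by
  simp [mv, mulVec, dotProduct]

theorem ori_ne {w : Fin 2 → ℂ} (h : Ori w) : w 1 ≠ 0 := by
  intro h1
  simp [Ori, h1] at h

theorem mv1 (A : Mat) {w : Fin 2 → ℂ} (h : Ori w) (i : Fin 2) :
    mv A w i = w 1 * (A i 0 * (w 0 / w 1) + A i 1) := by
  have := ori_ne h
  rw [mv0]
  field_simp

theorem mob_im (A : Mat) (τ : ℂ) (hA : 0 < A.det) (hτ : 0 < τ.im) : 0 < (mob A τ).im := by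
  have h1 := Complex.normSq_pos.2 (den_ne hA.ne' hτ)
  have h2 : (0 : ℝ) < A 0 0 * A 1 1 - A 0 1 * A 1 0 := by
    rw [det_fin_two] at hA
    exact_mod_cast hA
  rw [mob, Complex.div_im, ← sub_div]
  refine div_pos ?_ h1
  simp only [Complex.add_im, Complex.add_re, Complex.mul_im, Complex.mul_re, Complex.intCast_re,
    Complex.intCast_im]
  nlinarith [mul_pos h2 hτ]

theorem mob_mul (A B : Mat) (τ : ℂ) (hB : 0 < B.det) (hτ : 0 < τ.im) :
    mob (A * B) τ = mob A (mob B τ) := by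
  have h := den_ne hB.ne' hτ
  simp only [mob, mul_apply, Fin.sum_univ_two]
  rw [← mul_div_mul_right _ _ (inv_ne_zero h)]
  congr 1 <;> push_cast <;> field_simp <;> ring

theorem slash {k : ℤ} {F : Type} [FunLike F ℍ ℂ] [SlashInvariantFormClass F 𝒮ℒ k] (f : F)
    (A : Mat) (τ : ℂ) (hA : A.det = 1) (hτ : 0 < τ.im) :
    f ⟨mob A τ, mob_im A τ (by omega) hτ⟩ = (A 1 0 * τ + A 1 1) ^ k * f ⟨τ, hτ⟩ := by
  let γ : SL(2, ℤ) := ⟨A, hA⟩
  have h := SlashInvariantForm.slash_action_eqn' (Γ := 𝒮ℒ) (k := k) f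
    (γ := (γ : GL (Fin 2) ℝ)) (MonoidHom.mem_range.2 ⟨γ, rfl⟩) ⟨τ, hτ⟩
  have e : (γ : GL (Fin 2) ℝ) • (⟨τ, hτ⟩ : ℍ) = ⟨mob A τ, mob_im A τ (by omega) hτ⟩ :=
    UpperHalfPlane.ext ((UpperHalfPlane.coe_specialLinearGroup_apply γ ⟨τ, hτ⟩).trans
      (by simp [mob, γ]))
  rw [e] at h
  exact h

theorem eta_mob (A : Mat) (τ : ℂ) (hA : A.det = 1) (hτ : 0 < τ.im) :
    ModularForm.eta (mob A τ) ^ 24 = (A 1 0 * τ + A 1 1) ^ 12 * ModularForm.eta τ ^ 24 :=
  slash CuspForm.discriminant A τ hA hτ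

/-- polynomial formula for the multiplier -/
def px {R : Type} [CommRing R] (a b c d : R) : R :=
  (a * d - b * c) * ((a + d * (a * d - b * c)) * c - b * d * (c * c - 1) - 3 * c * (c * c) +
    (1 - c * c) * (3 * (1 - c) * (d * (a * d - b * c)) - 3))

theorem map_px {R S : Type} [CommRing R] [CommRing S] (f : R →+* S) (a b c d : R) :
    f (px a b c d) = px (f a) (f b) (f c) (f d) := by
  simp [px, map_ofNat]

/-- the crossed homomorphism identity -/
def Cr {R : Type} [CommRing R] (a b c d a' b' c' d' : R) : Prop :=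
  (a * d - b * c) * (a * d - b * c) = 1 → (a' * d' - b' * c') * (a' * d' - b' * c') = 1 →
    px (a * a' + b * c') (a * b' + b * d') (c * a' + d * c') (c * b' + d * d') =
      (a' * d' - b' * c') * px a b c d + px a' b' c' d'

theorem cr3 : ∀ a b c d a' b' c' d' : ZMod 3, Cr a b c d a' b' c' d' := by
  unfold Cr
  decide +kernel

theorem cr4 : ∀ a b c d a' b' c' d' : ZMod 4, Cr a b c d a' b' c' d' := by
  unfold Cr
  decide +kernel

theorem crt : ∀ x y : ZMod 12, ZMod.castHom (by norm_num : 3 ∣ 12) (ZMod 3) x =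
    ZMod.castHom (by norm_num : 3 ∣ 12) (ZMod 3) y →
    ZMod.castHom (by norm_num : 4 ∣ 12) (ZMod 4) x =
      ZMod.castHom (by norm_num : 4 ∣ 12) (ZMod 4) y → x = y := by
  decide +kernel

theorem cr12 (a b c d a' b' c' d' : ZMod 12) : Cr a b c d a' b' c' d' := by
  intro h h'
  refine crt _ _ ?_ ?_
  · simp only [map_px, map_add, map_mul, map_sub]
    refine cr3 _ _ _ _ _ _ _ _ ?_ ?_ <;> simp only [← map_mul, ← map_sub, h, h', map_one]
  · simp only [map_px, map_add, map_mul, map_sub]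
    refine cr4 _ _ _ _ _ _ _ _ ?_ ?_ <;> simp only [← map_mul, ← map_sub, h, h', map_one]

theorem unit_sq {u : ZMod 12} (h : IsUnit u) : u * u = 1 := by
  obtain ⟨v, hv⟩ := isUnit_iff_exists_inv.1 h
  clear h
  revert u v
  decide +kernel

theorem ee_root (N : ℕ) (hN : N ≠ 0) (m : ℤ) {x : ℂ} (hx : x = m / N / 2) :
    (-ee x) ^ (2 * N) = 1 := by
  have : (N : ℂ) ≠ 0 := by exact_mod_cast hN
  rw [Even.neg_pow (even_two_mul N), ee, ← Complex.exp_nat_mul, hx,
    ← Complex.exp_int_mul_two_pi_mul_I m]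
  congr 1
  push_cast
  field_simp

theorem zpow_ind {f : ℝ → ℂ} {μ : ℂ} (hμ : μ ≠ 0) (h : ∀ a, f (a + 1) = μ * f a) (a : ℝ)
    (k : ℤ) : f (a + k) = μ ^ k * f a := by
  induction k using Int.induction_on with
  | zero => simp
  | succ k ih =>
    rw [Int.cast_add, Int.cast_one, ← add_assoc, h, ih, zpow_add_one₀ hμ]
    ring
  | pred k ih =>
    have h1 := h (a + ((-(k : ℤ) - 1 : ℤ) : ℝ))
    rw [show a + ((-(k : ℤ) - 1 : ℤ) : ℝ) + 1 = a + ((-(k : ℤ) : ℤ) : ℝ) by push_cast; ring,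
      ih] at h1
    rw [zpow_sub_one₀ hμ]
    field_simp
    linear_combination -h1

theorem transl (hS : SGT) (N : ℕ) (hN : N ≠ 0) (b b' k : Fin 2 → ℤ) (τ : ℂ) (hτ : 0 < τ.im)
    (h : ∀ i, b' i - b i = N * k i) : ∃ μ ν : ℂ, μ ^ (2 * N) = 1 ∧ ν ^ (2 * N) = 1 ∧
      sgN N b' τ = μ ^ k 0 * ν ^ k 1 * sgN N b τ := by
  have hN' : (N : ℝ) ≠ 0 := by exact_mod_cast hN
  have e : ∀ i, (b' i : ℝ) / N = b i / N + k i := fun i => by
    have : (b' i : ℝ) - b i = N * k i := by exact_mod_cast h i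
    field_simp
    linarith
  have n : ∀ x, -ee x ≠ 0 := fun x => neg_ne_zero.2 (Complex.exp_ne_zero _)
  refine ⟨-ee (-((b' 1 / N : ℝ) : ℂ) / 2), -ee (((b 0 / N : ℝ) : ℂ) / 2),
    ee_root N hN (-b' 1) (by push_cast; ring), ee_root N hN (b 0) (by push_cast; ring), ?_⟩
  rw [sgN, sgN, e 0, zpow_ind (f := fun a => sg a (b' 1 / N) τ) (n _)
    (fun a => (hS a _ τ hτ).2.2.1), mul_assoc]
  congr 1
  rw [e 1, zpow_ind (f := fun a => sg (b 0 / N) a τ) (n _) fun a => (hS _ a τ hτ).2.2.2.1]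

theorem e12_add (x y : ZMod 12) : e12 (x + y) = e12 x * e12 y :=
  AddChar.map_add_eq_mul _ x y

theorem e12_one : e12 1 = ee (1 / 12) := by
  have := ZMod.stdAddChar_coe (N := 12) 1
  rw [Int.cast_one] at this
  rw [e12, this, ee]
  congr 1
  push_cast
  ring

theorem e12_nine : e12 9 = -Complex.I := by
  have := ZMod.stdAddChar_coe (N := 12) (-3)
  rw [show ((-3 : ℤ) : ZMod 12) = 9 by decide] at this
  rw [e12, this, ← Complex.exp_neg_pi_div_two_mul_I]
  congr 1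
  push_cast
  ring

theorem red_det {A : Mat} (hA : A.det = 1) : (red A).det = 1 := by
  have := (Int.castRingHom (ZMod 12)).map_det A
  rw [hA, map_one] at this
  exact this.symm

theorem red_mul (A B : Mat) : red (A * B) = red A * red B :=
  Matrix.map_mul (f := Int.castRingHom (ZMod 12))

theorem law (hS : SGT) (N : ℕ) {X : Matrix (Fin 2) (Fin 2) (ZMod 12) → ZMod 12}
    (hX : ChiData X) (A : FixedDetMatrix (Fin 2) ℤ 1) : ∀ (b : Fin 2 → ℤ) (τ : ℂ), 0 < τ.im →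
      sgN N b (mob A.1 τ) = e12 (X (red A.1)) * sgN N (b ᵥ* A.1) τ := by
  have key : ∀ G B : Mat, G.det = 1 → B.det = 1 →
      (∀ (b : Fin 2 → ℤ) (τ : ℂ), 0 < τ.im →
        sgN N b (mob G τ) = e12 (X (red G)) * sgN N (b ᵥ* G) τ) →
      (∀ (b : Fin 2 → ℤ) (τ : ℂ), 0 < τ.im →
        sgN N b (mob B τ) = e12 (X (red B)) * sgN N (b ᵥ* B) τ) →
      ∀ (b : Fin 2 → ℤ) (τ : ℂ), 0 < τ.im →
        sgN N b (mob (G * B) τ) = e12 (X (red (G * B))) * sgN N (b ᵥ* (G * B)) τ := by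
    intro G B hG hB h1 h2 b τ hτ
    rw [mob_mul G B τ (by omega) hτ, h1 _ _ (mob_im B τ (by omega) hτ), h2 _ _ hτ, red_mul,
      hX.mul _ _ (by simp [red_det hG]) (by simp [red_det hB]), red_det hB, one_mul, e12_add,
      vecMul_vecMul, mul_assoc]
  induction A using FixedDetMatrices.induction_on one_ne_zero with
  | h0 A a1 a4 _ a6 =>
    intro b τ _
    have h1 : A.1 = 1 := congrArg Subtype.val (FixedDetMatrices.reps_one_id A a1 a4 a6)
    have h2 : red 1 = !![1, 0; 0, 1] := by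
      ext i j; fin_cases i <;> fin_cases j <;> simp [red]
    rw [h1, h2, hX.diag 1 isUnit_one]
    simp [mob, e12]
  | hS B hb =>
    refine key !![0, -1; 1, 0] B.1 (by simp) B.2 (fun b τ hτ => ?_) hb
    have h2 : red !![0, -1; 1, 0] = !![0, -1; 1, 0] := by
      ext i j; fin_cases i <;> fin_cases j <;> simp [red]
    rw [h2, hX.S, e12_nine]
    simpa [mob, sgN, vecMul, dotProduct, neg_div] using (hS (b 0 / N) (b 1 / N) τ hτ).2.1
  | hT B hb =>
    refine key !![1, 1; 0, 1] B.1 (by simp) B.2 (fun b τ hτ => ?_) hb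
    have h2 : red !![1, 1; 0, 1] = !![1, 1; 0, 1] := by
      ext i j; fin_cases i <;> fin_cases j <;> simp [red]
    rw [h2, hX.T, e12_one]
    simpa [mob, sgN, vecMul, dotProduct, add_div] using (hS (b 0 / N) (b 1 / N) τ hτ).1

end Sgm

open Sgm

theorem latb : LATB := by
  have h1 : ∀ (A : Mat) (w : Fin 2 → ℂ), Ori w → mv A w 0 / mv A w 1 = mob A (w 0 / w 1) :=
    fun A w h => by rw [mv1 A h, mv1 A h, mul_div_mul_left _ _ (ori_ne h), mob]
  refine ⟨h1, mob_im, mob_mul, fun A w hA h => ?_, fun w h => ?_, fun A τ hA hτ => ?_⟩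
  · have h2 := den_ne (A := A) (by omega) h
    have h3 := ori_ne h
    rw [DD, DD, h1 A w h, eta_mob A _ hA h, mv1 A h, mul_pow, mul_comm (w 1 ^ 12),
      mul_div_mul_left _ _ (pow_ne_zero _ h2)]
  · exact div_ne_zero (pow_ne_zero _ (ModularForm.eta_ne_zero h)) (pow_ne_zero _ (ori_ne h))
  · have h2 := den_ne (A := A) (by omega) hτ
    rw [jf, jf, eta_mob A τ hA hτ,
      UpperHalfPlane.ofComplex_apply_of_im_pos (mob_im A τ (by omega) hτ),
      UpperHalfPlane.ofComplex_apply_of_im_pos hτ, slash ModularForm.E₄ A τ hA hτ, mul_pow,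
      zpow_ofNat, ← pow_mul, mul_div_mul_left _ _ (pow_ne_zero _ h2)]

theorem chi : CHI := by
  refine ⟨fun A => px (A 0 0) (A 0 1) (A 1 0) (A 1 1), fun A B hA hB => ?_, by decide +kernel,
    by decide +kernel, fun u hu => ?_⟩
  · rw [det_fin_two] at hA hB ⊢
    simp only [mul_apply, Fin.sum_univ_two]
    exact cr12 _ _ _ _ _ _ _ _ (unit_sq hA) (unit_sq hB)
  · have h := unit_sq hu
    change px 1 0 0 u = 0
    clear hu
    revert u
    decide +kernel

theorem sgm : LATB → SGT → SGM := by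
  intro _ hS N b τ hN hτ
  refine ⟨fun X hX A hA => law hS N hX ⟨A, hA⟩ b τ hτ, fun b' h => ?_, fun b' h => ?_,
    fun h => ?_⟩
  · choose t ht using h
    obtain ⟨μ, ν, h1, h2, h3⟩ := transl hS N hN b b' (fun i => (2 * N : ℕ) * t i) τ hτ
      fun i => by rw [ht]; push_cast; ring
    rw [h3, _root_.zpow_mul, _root_.zpow_mul, zpow_natCast, zpow_natCast, h1, h2]
    simp
  · choose t ht using h
    obtain ⟨μ, ν, h1, h2, h3⟩ := transl hS N hN b b' t τ hτ ht
    have e : ∀ (x : ℂ) (k : ℤ), x ^ (2 * N) = 1 → (x ^ k) ^ (2 * N) = 1 := fun x k hx => by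
      rw [← zpow_natCast, ← _root_.zpow_mul, mul_comm, _root_.zpow_mul, zpow_natCast, hx,
        _root_.one_zpow]
    rw [h3, mul_pow, mul_pow, e _ _ h1, e _ _ h2, one_mul, one_mul]
  · refine (hS _ _ τ hτ).2.2.2.2 fun ⟨⟨m, hm⟩, n, hn⟩ => h fun i => ?_
    have hN' : (N : ℝ) ≠ 0 := by exact_mod_cast hN
    rw [div_eq_iff hN'] at hm hn
    fin_cases i
    · exact ⟨m, by rw [mul_comm]; exact_mod_cast hm⟩
    · exact ⟨n, by rw [mul_comm]; exact_mod_cast hn⟩

end Pool.Agent.P.MP_29cb78_nt.C
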