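import Pool.Agent.P.MP_29cb78_nt.C.Iface

/-!
Integral expansions of the Siegel functions.
-/

namespace Pool.Agent.P.MP_29cb78_nt.C

open scoped Real

noncomputable section

namespace Sgq

lemma ee_add (x y : ℂ) : ee (x + y) = ee x * ee y := by
  unfold ee; rw [← Complex.exp_add]; congr 1; ring

lemma ee_zero : ee 0 = 1 := by simp [ee]

lemma ee_ne (x : ℂ) : ee x ≠ 0 := Complex.exp_ne_zero _

lemma ee_neg (x : ℂ) : ee (-x) = (ee x)⁻¹ := by
  unfold ee; rw [← Complex.exp_neg]; congr 1; ring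

lemma ee_nat (n : ℕ) (x : ℂ) : ee (n * x) = ee x ^ n := by
  unfold ee; rw [← Complex.exp_nat_mul]; congr 1; ring

lemma ee_int (n : ℤ) : ee n = 1 := by
  unfold ee
  rw [show 2 * (π : ℂ) * Complex.I * n = n * (2 * π * Complex.I) by ring]
  exact Complex.exp_int_mul_two_pi_mul_I n

lemma ee_half : ee (1 / 2) = -1 := by
  unfold ee
  rw [show 2 * (π : ℂ) * Complex.I * (1 / 2) = π * Complex.I by ring]
  exact Complex.exp_pi_mul_I

lemma norm_ee (x : ℂ) : ‖ee x‖ = Real.exp (-(2 * π * x.im)) := by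
  unfold ee
  rw [Complex.norm_exp]
  congr 1
  simp [Complex.mul_re, Complex.mul_im]

lemma norm_ee_rat (x : ℚ) : ‖ee x‖ = 1 := by
  rw [norm_ee]; simp

lemma ee_rat_int (x : ℚ) : IsIntegral ℤ (ee x) := by
  have h : ee x ^ x.den = 1 := by
    rw [← ee_nat]
    have : ((x.den : ℕ) : ℂ) * (x : ℂ) = ((x.num : ℤ) : ℂ) := by
      have := Rat.den_mul_eq_num x
      exact_mod_cast congrArg (fun y : ℚ => (y : ℂ)) this
    rw [this, ee_int]
  exact IsIntegral.of_pow x.den_pos (h ▸ isIntegral_one)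

/-- The products. -/
def PP (M : ℕ) (c : ℂ) (r : ℕ → ℕ) (τ : ℂ) : ℂ := ∏' n, (1 - c * ee (r n * τ / M))

lemma mult (M : ℕ) (c : ℂ) (r : ℕ → ℕ) (hM : M ≠ 0) (hr : ∀ n, n + 1 ≤ r n) (τ : ℂ)
    (hτ : 0 < τ.im) : Multipliable fun n => (1 - c * ee (r n * τ / M)) := by
  have hM' : (0 : ℝ) < M := by positivity
  have hs : Summable fun n => ‖-(c * ee (r n * τ / M))‖ := by
    have hq : Real.exp (-(2 * π * τ.im / M)) < 1 := by
      rw [Real.exp_lt_one_iff]
      have : 0 < 2 * π * τ.im / M := by positivity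
      linarith
    refine Summable.of_nonneg_of_le (fun n => norm_nonneg _) (fun n => ?_)
      ((summable_geometric_of_lt_one (Real.exp_pos _).le hq).mul_left ‖c‖)
    rw [norm_neg, norm_mul]
    refine mul_le_mul_of_nonneg_left ?_ (norm_nonneg _)
    rw [norm_ee, ← Real.exp_nat_mul, Real.exp_le_exp]
    have h1 : ((r n : ℂ) * τ / M).im = r n * τ.im / M := by
      rw [Complex.div_natCast_im]; simp
    rw [h1]
    have h2 : (n : ℝ) ≤ r n := by exact_mod_cast (Nat.le_succ n).trans (hr n)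
    have h3 : 0 < 2 * π * τ.im / M := by positivity
    have : (n : ℝ) * (2 * π * τ.im / M) ≤ r n * (2 * π * τ.im / M) :=
      mul_le_mul_of_nonneg_right h2 h3.le
    calc -(2 * π * (r n * τ.im / M)) = -(r n * (2 * π * τ.im / M)) := by ring
      _ ≤ -(n * (2 * π * τ.im / M)) := by linarith
      _ = n * -(2 * π * τ.im / M) := by ring
  have := multipliable_one_add_of_summable hs
  simpa [sub_eq_add_neg] using this

/-- Exponents of the first product. -/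
def r1 (N r : ℕ) (n : ℕ) : ℕ := 12 * N * (N * (n + 1) + r)

/-- Exponents of the second product. -/
def r2 (N r : ℕ) (n : ℕ) : ℕ := 12 * N * (N * n + (N - r))

lemma r1_ge (N r : ℕ) (hN : N ≠ 0) (n : ℕ) : n + 1 ≤ r1 N r n := by
  unfold r1
  obtain ⟨k, rfl⟩ := Nat.exists_eq_succ_of_ne_zero hN
  nlinarith [Nat.zero_le (k * k * n), Nat.zero_le (k * n), Nat.zero_le (k * r), Nat.zero_le (k * k),
    Nat.zero_le k, Nat.zero_le r, Nat.zero_le n]

lemma r2_ge (N r : ℕ) (hr : r < N) (n : ℕ) : n + 1 ≤ r2 N r n := by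
  unfold r2
  have h1 : 1 ≤ N - r := by omega
  have h2 : 1 ≤ N := by omega
  have h3 : n + 1 ≤ N * n + (N - r) := by nlinarith
  calc n + 1 ≤ 1 * (N * n + (N - r)) := by omega
    _ ≤ 12 * N * (N * n + (N - r)) := Nat.mul_le_mul_right _ (by omega)

/-- The constant in front. -/
def c0 (N r : ℕ) (k b : ℤ) : ℚ := (1 + k) / 2 + b * ((r - N) / (2 * N ^ 2) - k / (2 * N))

/-- The leading exponent. -/
def n0 (N r : ℕ) : ℤ := 6 * r ^ 2 - 6 * r * N + N ^ 2

lemma sg_shift (h : SGT) (a b : ℝ) (τ : ℂ) (hτ : 0 < τ.im) (k : ℤ) :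
    sg (a + k) b τ = ee (k * (1 - b) / 2) * sg a b τ := by
  have step : ∀ a : ℝ, sg (a + 1) b τ = ee ((1 - b) / 2) * sg a b τ := by
    intro a
    rw [(h a b τ hτ).2.2.1, show ((1 : ℂ) - b) / 2 = 1 / 2 + -b / 2 by ring, ee_add, ee_half]
    ring
  induction k using Int.induction_on with
  | zero => simp [ee_zero]
  | succ i ih =>
    have := step (a + (i : ℤ))
    rw [ih, ← mul_assoc, ← ee_add] at this
    push_cast at this ⊢
    rw [← add_assoc, this]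
    congr 2; ring
  | pred i ih =>
    have := step (a + (-(i : ℤ) - 1 : ℤ))
    push_cast at this ih ⊢
    rw [show a + (-(i : ℝ) - 1) + 1 = a + -(i : ℝ) by ring, ih] at this
    have h2 : ee (-(i : ℂ) * (1 - b) / 2) = ee ((1 - b) / 2) * ee ((-(i : ℂ) - 1) * (1 - b) / 2) := by
      rw [← ee_add]; congr 1; ring
    rw [h2, mul_assoc] at this
    exact (mul_left_cancel₀ (ee_ne _) this).symm

lemma sg_eq (h : SGT) (N r : ℕ) (hr : r < N) (k b : ℤ) (τ : ℂ) (hτ : 0 < τ.im) :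
    sgN N ![N * k + r, b] τ =
      (ee (c0 N r k b) * ee (n0 N r * τ / (12 * N ^ 2 : ℕ))) *
      (1 - ee ((b / N : ℚ)) * ee ((12 * N * r : ℕ) * τ / (12 * N ^ 2 : ℕ))) *
      PP (12 * N ^ 2) (ee ((b / N : ℚ))) (r1 N r) τ *
      PP (12 * N ^ 2) (ee ((-b / N : ℚ))) (r2 N r) τ := by
  have hN : N ≠ 0 := by omega
  have hM : 12 * N ^ 2 ≠ 0 := by positivity
  have hNR : (N : ℝ) ≠ 0 := by exact_mod_cast hN
  have hNC : (N : ℂ) ≠ 0 := by exact_mod_cast hN
  unfold sgN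
  simp only [Matrix.cons_val_zero, Matrix.cons_val_one]
  have e1 : (((N * k + r : ℤ) : ℝ) / N) = (r / N : ℝ) + k := by
    push_cast; field_simp; ring
  rw [e1, sg_shift h _ _ τ hτ k]
  unfold sg sgP PP
  rw [mul_assoc _ (∏' n, _) (∏' n, _), ← Multipliable.tprod_mul
    (mult _ _ _ hM (r1_ge N r hN) τ hτ) (mult _ _ _ hM (r2_ge N r hr) τ hτ)]
  have e2 : ∀ n : ℕ, (1 - ee ((n + 1) * τ + (((r / N : ℝ) : ℂ) * τ + ((b / N : ℝ) : ℂ)))) *
      (1 - ee ((n + 1) * τ - (((r / N : ℝ) : ℂ) * τ + ((b / N : ℝ) : ℂ)))) =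
      (1 - ee ((b / N : ℚ)) * ee (r1 N r n * τ / (12 * N ^ 2 : ℕ))) *
      (1 - ee ((-b / N : ℚ)) * ee (r2 N r n * τ / (12 * N ^ 2 : ℕ))) := by
    intro n
    rw [← ee_add, ← ee_add]
    congr 3
    · unfold r1; push_cast; field_simp; ring
    · unfold r2; push_cast [hr.le]; field_simp; ring
  simp only [e2]
  have e3 : ee (((r / N : ℝ) : ℂ) * τ + ((b / N : ℝ) : ℂ)) =
      ee ((b / N : ℚ)) * ee ((12 * N * r : ℕ) * τ / (12 * N ^ 2 : ℕ)) := by
    rw [← ee_add]; congr 1; push_cast; field_simp; ring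
  rw [e3]
  have e4 : ee (k * (1 - ((b / N : ℝ) : ℂ)) / 2) *
      (-ee ((((r / N : ℝ) : ℂ) ^ 2 - ((r / N : ℝ) : ℂ) + 1 / 6) * τ / 2) *
        ee (((b / N : ℝ) : ℂ) * (((r / N : ℝ) : ℂ) - 1) / 2)) =
      ee (c0 N r k b) * ee (n0 N r * τ / (12 * N ^ 2 : ℕ)) := by
    rw [← neg_one_mul (ee _), ← ee_half, ← ee_add, ← ee_add, ← ee_add, ← ee_add]
    congr 1
    unfold c0 n0; push_cast; field_simp; ring
  rw [← e4]; ring

lemma qint_congr (h : QAPI) {f g : ℂ → ℂ} (hf : QInt f) (e : ∀ τ : ℂ, 0 < τ.im → f τ = g τ) :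
    QInt g := by
  obtain ⟨M, hM, hf⟩ := hf
  exact ⟨M, hM, h.congr M f g hf e⟩

/-- The ring of functions with integral expansions. -/
def QR (h : QAPI) : Subring (ℂ → ℂ) where
  carrier := {f | QInt f}
  mul_mem' := fun {f g} hf hg => h.mul' f g hf hg
  one_mem' := h.const 1 isIntegral_one
  add_mem' := fun {f g} hf hg => h.add' f g hf hg
  zero_mem' := h.const 0 isIntegral_zero
  neg_mem' := fun {f} hf =>
    qint_congr h (h.mul' _ f (h.const (-1) isIntegral_one.neg) hf) fun τ _ => by simp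

/-- Congruence of the `p`-th power. -/
def Cg (p : ℕ) (f g : ℂ → ℂ) : Prop := QInt f ∧ QInt fun τ => (f τ ^ p - g τ) / p

lemma Cg.mul (h : QAPI) {p : ℕ} (hp : p ≠ 0) {f g f' g' : ℂ → ℂ} (a : Cg p f g)
    (b : Cg p f' g') : Cg p (fun τ => f τ * f' τ) fun τ => g τ * g' τ := by
  have hp' : (p : ℂ) ≠ 0 := by exact_mod_cast hp
  refine ⟨h.mul' _ _ a.1 b.1, ?_⟩
  have h1 : f ∈ QR h := a.1
  have h2 : f' ∈ QR h := b.1
  have h3 : (fun τ => (f τ ^ p - g τ) / p) ∈ QR h := a.2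
  have h4 : (fun τ => (f' τ ^ p - g' τ) / p) ∈ QR h := b.2
  have h5 := (QR h).add_mem ((QR h).mul_mem ((QR h).pow_mem h1 p) h4)
    ((QR h).mul_mem h3 ((QR h).sub_mem ((QR h).pow_mem h2 p)
      ((QR h).mul_mem (natCast_mem (QR h) p) h4)))
  refine qint_congr h h5 fun τ _ => ?_
  simp only [Pi.add_apply, Pi.mul_apply, Pi.pow_apply, Pi.sub_apply, Pi.natCast_apply]
  field_simp; ring

lemma cg_self (h : QAPI) (p : ℕ) {f : ℂ → ℂ} (hf : QInt f) : Cg p f fun τ => f τ ^ p :=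
  ⟨hf, qint_congr h (h.const 0 isIntegral_zero) fun τ _ => by simp⟩

lemma cg_one_sub (h : QAPI) {p : ℕ} (hp : p.Prime) (h2 : p ≠ 2) {u : ℂ → ℂ} (hu : QInt u) :
    Cg p (fun τ => 1 - u τ) fun τ => 1 - u τ ^ p := by
  have hp' : (p : ℂ) ≠ 0 := by exact_mod_cast hp.ne_zero
  have h1 : u ∈ QR h := hu
  refine ⟨(QR h).sub_mem (QR h).one_mem h1, ?_⟩
  obtain ⟨w, hw⟩ := exists_add_pow_prime_eq hp (1 : QR h) (-⟨u, h1⟩)
  have h3 := (QR h).mul_mem ((QR h).neg_mem h1) w.2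
  refine qint_congr h h3 fun τ _ => ?_
  have h4 := congrFun (congrArg Subtype.val hw) τ
  have hodd : Odd p := hp.odd_of_ne_two h2
  simp [hodd.neg_pow] at h4
  simp only [Pi.mul_apply, Pi.neg_apply]
  rw [eq_div_iff hp', sub_eq_add_neg 1 (u τ), h4]
  ring

lemma pp_int (hP : PROD) (M : ℕ) (x : ℚ) (r : ℕ → ℕ) (hM : M ≠ 0) (hr : ∀ n, n + 1 ≤ r n) :
    QIntM M (PP M (ee x) r) ∧ QIntM M (fun τ => (PP M (ee x) r τ)⁻¹) ∧
    ∀ p : ℕ, p.Prime → QIntM M fun τ => (PP M (ee x) r τ ^ p - PP M (ee (p * x)) r (p * τ)) / p := by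
  obtain ⟨⟨d, hd, -, e⟩, ⟨d', hd', -, e'⟩, h3⟩ := hP M (fun _ => ee x) r hM
    (fun _ => ee_rat_int x) (fun _ => (norm_ee_rat x).le) hr
  refine ⟨⟨0, d, hd, e⟩, ⟨0, d', hd', e'⟩, fun p hp => ?_⟩
  have := h3 p hp
  have e : ∀ τ : ℂ, PP M (ee (p * x)) r (p * τ) =
      ∏' n, (1 - ee x ^ p * ee (p * r n * τ / M)) := by
    intro τ
    unfold PP
    refine tprod_congr fun n => ?_
    rw [ee_nat, show (r n : ℂ) * (p * τ) / M = p * r n * τ / M by ring]
  simp only [e]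
  exact this

lemma inv_unit (N : ℕ) (b : ℤ) (h2 : 2 ≤ N) (hN : ¬ IsPrimePow N) (hb : IsCoprime b (N : ℤ)) :
    IsIntegral ℤ (1 - ee ((b / N : ℚ)))⁻¹ := by
  have hN0 : N ≠ 0 := by omega
  have hprim : IsPrimitiveRoot (ee ((b / N : ℚ))) N := by
    have := Complex.isPrimitiveRoot_exp_of_isCoprime b N hN0 hb
    convert this using 1
    unfold ee; congr 1; push_cast; ring
  have h1 : Polynomial.eval 1 (Polynomial.cyclotomic N ℂ) = 1 := by
    refine Polynomial.eval_one_cyclotomic_not_prime_pow fun {p} hp k e => ?_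
    rcases Nat.eq_zero_or_pos k with rfl | hk
    · simp at e; omega
    · exact hN ⟨p, k, hp.prime, hk, e⟩
  rw [Polynomial.cyclotomic_eq_prod_X_sub_primitiveRoots hprim, Polynomial.eval_prod] at h1
  have hmem : ee ((b / N : ℚ)) ∈ primitiveRoots N ℂ := (mem_primitiveRoots (by omega)).2 hprim
  rw [← Finset.mul_prod_erase _ _ hmem] at h1
  simp only [Polynomial.eval_sub, Polynomial.eval_X, Polynomial.eval_C] at h1
  rw [← eq_inv_of_mul_eq_one_right h1]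
  refine IsIntegral.prod _ fun μ hμ => isIntegral_one.sub ?_
  exact ((mem_primitiveRoots (by omega)).1 (Finset.mem_of_mem_erase hμ)).isIntegral (by omega)

end Sgq

open Sgq in
theorem sgq : QAPI → PROD → SGT → SGQ := by
  intro h hP hT N b hN
  have hM : 12 * N ^ 2 ≠ 0 := by positivity
  have hNz : (N : ℤ) ≠ 0 := by exact_mod_cast hN
  obtain ⟨r, hr⟩ := Int.eq_ofNat_of_zero_le (Int.emod_nonneg (b 0) hNz)
  have hrN : r < N := by
    have := Int.emod_lt_of_pos (b 0) (show (0 : ℤ) < N by positivity)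
    omega
  obtain ⟨k, hk⟩ : ∃ k : ℤ, b 0 = N * k + r := ⟨b 0 / N, by rw [← hr, Int.mul_ediv_add_emod]⟩
  obtain ⟨c, hc⟩ : ∃ c, b 1 = c := ⟨_, rfl⟩
  have hb : b = ![N * k + r, c] := by
    ext i; fin_cases i
    · exact hk
    · exact hc
  rw [hk, hc, hb]
  have A := h.mon (12 * N ^ 2) _ (n0 N r) (ee_rat_int (c0 N r k c))
  have U : QIntM (12 * N ^ 2) fun τ =>
      ee ((c / N : ℚ)) * ee ((12 * N * r : ℕ) * τ / (12 * N ^ 2 : ℕ)) :=
    h.congr _ _ _ (h.mon (12 * N ^ 2) _ (12 * N * r : ℕ) (ee_rat_int (c / N))) fun τ _ => by simp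
  have F : QIntM (12 * N ^ 2) fun τ =>
      1 - ee ((c / N : ℚ)) * ee ((12 * N * r : ℕ) * τ / (12 * N ^ 2 : ℕ)) := by
    refine h.congr _ _ _ (h.add _ _ _ hM (h.mon _ 1 0 isIntegral_one)
      (h.mul _ _ _ hM (h.mon _ (-1) 0 isIntegral_one.neg) U)) fun τ _ => ?_
    simp [ee_zero, sub_eq_add_neg]
  obtain ⟨P1, P1', P1''⟩ := pp_int hP (12 * N ^ 2) (c / N) (r1 N r) hM (r1_ge N r hN)
  obtain ⟨P2, P2', P2''⟩ := pp_int hP (12 * N ^ 2) (-c / N) (r2 N r) hM (r2_ge N r hrN)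
  refine ⟨?_, fun h2 hpp hco => ?_, fun p hp hp2 => ?_⟩
  · exact h.congr _ _ _ (h.mul _ _ _ hM (h.mul _ _ _ hM (h.mul _ _ _ hM A F) P1) P2)
      fun τ hτ => (sg_eq hT N r hrN k c τ hτ).symm
  · have A' := h.mon (12 * N ^ 2) _ (-n0 N r) (ee_rat_int (-c0 N r k c))
    have F' : QInt fun τ =>
        (1 - ee ((c / N : ℚ)) * ee ((12 * N * r : ℕ) * τ / (12 * N ^ 2 : ℕ)))⁻¹ := by
      rcases Nat.eq_zero_or_pos r with rfl | hr0
      · have hcN : IsCoprime c (N : ℤ) := by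
          obtain ⟨u, v, huv⟩ := hco
          rw [Int.gcd_eq_gcd_ab] at huv
          exact ⟨u * Int.gcdB (N * k + (0 : ℕ)) c, v + u * k * Int.gcdA (N * k + (0 : ℕ)) c, by
            rw [← huv]; push_cast; ring⟩
        exact qint_congr h (h.const _ (inv_unit N c h2 hpp hcN)) fun τ _ => by simp [ee_zero]
      · obtain ⟨-, ⟨d', hd', -, e'⟩, -⟩ := hP (12 * N ^ 2)
          (fun n => if n = 0 then ee ((c / N : ℚ)) else 0) (fun n => 12 * N * r + n) hM
          (fun n => by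
            split_ifs
            · exact ee_rat_int _
            · exact isIntegral_zero)
          (fun n => by
            split_ifs
            · exact (norm_ee_rat _).le
            · simp)
          (fun n => by
            have : 1 ≤ 12 * N * r := Nat.one_le_iff_ne_zero.2 (by positivity)
            omega)
        refine qint_congr h ⟨_, hM, 0, d', hd', e'⟩ fun τ _ => ?_
        rw [tprod_eq_mulSingle 0 fun n hn => by simp [hn]]
        simp
    refine qint_congr h (h.mul' _ _ (h.mul' _ _ (h.mul' _ _ ⟨_, hM, A'⟩ F') ⟨_, hM, P1'⟩)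
      ⟨_, hM, P2'⟩) fun τ hτ => ?_
    rw [sg_eq hT N r hrN k c τ hτ, mul_inv, mul_inv, mul_inv, mul_inv, ← ee_neg, ← ee_neg]
    congr 5
    · push_cast; ring
    · push_cast; ring
  · have C1 := cg_self h p ⟨_, hM, A⟩
    have C2 := cg_one_sub h hp hp2 ⟨_, hM, U⟩
    have C3 : Cg p _ _ := ⟨⟨_, hM, P1⟩, ⟨_, hM, P1'' p hp⟩⟩
    have C4 : Cg p _ _ := ⟨⟨_, hM, P2⟩, ⟨_, hM, P2'' p hp⟩⟩
    have C := ((C1.mul h hp.ne_zero C2).mul h hp.ne_zero C3).mul h hp.ne_zero C4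
    refine qint_congr h C.2 fun τ hτ => ?_
    have hpτ : 0 < ((p : ℂ) * τ).im := by
      have : (0 : ℝ) < p := by exact_mod_cast hp.pos
      simpa using mul_pos this hτ
    rw [sg_eq hT N r hrN k c τ hτ, sg_eq hT N r hrN k (p * c) (p * τ) hpτ]
    obtain ⟨j, hj⟩ := hp.odd_of_ne_two hp2
    have e1 : (ee (c0 N r k c) * ee (n0 N r * τ / (12 * N ^ 2 : ℕ))) ^ p =
        ee (c0 N r k (p * c)) * ee (n0 N r * (p * τ) / (12 * N ^ 2 : ℕ)) := by
      rw [← ee_add, ← ee_add, ← ee_nat, ← one_mul (ee (c0 N r k (p * c) + _)),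
        ← ee_int (j * (1 + k)), ← ee_add]
      congr 1
      unfold c0; rw [hj]; push_cast; ring
    have e2 : (ee ((c / N : ℚ)) * ee ((12 * N * r : ℕ) * τ / (12 * N ^ 2 : ℕ))) ^ p =
        ee (((p * c : ℤ) / N : ℚ)) * ee ((12 * N * r : ℕ) * (p * τ) / (12 * N ^ 2 : ℕ)) := by
      rw [← ee_add, ← ee_add, ← ee_nat]
      congr 1
      push_cast; ring
    have e3 : (p : ℂ) * ((c / N : ℚ) : ℂ) = (((p * c : ℤ) / N : ℚ) : ℂ) := by push_cast; ring
    have e4 : (p : ℂ) * ((-c / N : ℚ) : ℂ) = ((-(p * c : ℤ) / N : ℚ) : ℂ) := by push_cast; ring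
    simp only [e1, e2, e3, e4]

end

end Pool.Agent.P.MP_29cb78_nt.C
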