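import Pool.Agent.P.MP_29cb78_nt.C.Iface

/-! Transformation laws of the Siegel functions. -/

namespace Pool.Agent.P.MP_29cb78_nt.C

open Filter Topology Set
open scoped Classical Real

noncomputable section

namespace Sgt

theorem ee_add (x y : ℂ) : ee (x + y) = ee x * ee y := by
  simp only [ee, mul_add, Complex.exp_add]

theorem ee_ne (x : ℂ) : ee x ≠ 0 := Complex.exp_ne_zero _

theorem ee_zero : ee 0 = 1 := by simp [ee]

theorem ee_one : ee 1 = 1 := by simp [ee]

theorem ee_neg_mul (x : ℂ) : ee (-x) * ee x = 1 := by rw [← ee_add, neg_add_cancel, ee_zero]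

theorem ee_half : ee (1 / 2) = -1 := by
  rw [ee, ← Complex.exp_pi_mul_I]; congr 1; ring

theorem ee_neg_half : ee (-(1 / 2)) = -1 := by
  have := ee_neg_mul (1 / 2)
  rw [ee_half] at this
  linear_combination -this

theorem ee_eq_one {x : ℂ} : ee x = 1 ↔ ∃ n : ℤ, x = n := by
  rw [ee, Complex.exp_eq_one_iff]
  have h : (2 * π * Complex.I : ℂ) ≠ 0 := by simp [Real.pi_ne_zero]
  constructor
  · rintro ⟨n, hn⟩
    exact ⟨n, mul_left_cancel₀ h (by rw [hn]; ring)⟩
  · rintro ⟨n, rfl⟩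
    exact ⟨n, by ring⟩

theorem ee_nat_mul (n : ℕ) (x : ℂ) : ee (n * x) = ee x ^ n := by
  rw [ee, ee, ← Complex.exp_nat_mul]; congr 1; ring

theorem ee_add_nat (x : ℂ) (n : ℕ) : ee (x + n) = ee x := by
  rw [ee_add, (ee_eq_one (x := n)).2 ⟨n, by simp⟩, mul_one]

@[fun_prop]
theorem ee_diff : Differentiable ℂ ee := by
  unfold ee; fun_prop

theorem norm_ee_lt {τ : ℂ} (h : 0 < τ.im) : ‖ee τ‖ < 1 := by
  rw [ee, Complex.norm_exp, Real.exp_lt_one_iff]
  simp
  positivity

/-- One half of the theta product. -/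
def G (τ z : ℂ) : ℂ := ∏' n : ℕ, (1 - ee (n * τ + z))

theorem summ {τ : ℂ} (h : 0 < τ.im) (z : ℂ) : Summable fun n : ℕ => ‖-ee (n * τ + z)‖ := by
  simp only [norm_neg, ee_add, ee_nat_mul, norm_mul, norm_pow]
  exact (summable_geometric_of_lt_one (norm_nonneg _) (norm_ee_lt h)).mul_right _

theorem mult {τ : ℂ} (h : 0 < τ.im) (z : ℂ) : Multipliable fun n : ℕ => 1 - ee (n * τ + z) :=
  multipliable_one_add_of_summable (f := fun n : ℕ => -ee (n * τ + z)) (summ h z)

theorem G_diff {τ : ℂ} (h : 0 < τ.im) : Differentiable ℂ (G τ) := by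
  have h1 : HasProdLocallyUniformlyOn (fun (n : ℕ) z => 1 + -ee (n * τ + z))
      (fun z => ∏' n : ℕ, (1 + -ee (n * τ + z))) univ := by
    apply hasProdLocallyUniformlyOn_of_forall_compact isOpen_univ
    intro K _ hK
    obtain ⟨C, hC⟩ := hK.exists_bound_of_continuousOn ee_diff.continuous.continuousOn
    refine ((summable_geometric_of_lt_one (norm_nonneg _) (norm_ee_lt h)).mul_right
      C).hasProdUniformlyOn_nat_one_add hK (.of_forall fun n x hx => ?_) fun _ => ?_
    · rw [norm_neg, ee_add, ee_nat_mul, norm_mul, norm_pow]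
      exact mul_le_mul_of_nonneg_left (hC x hx) (by positivity)
    · exact (Differentiable.continuous (𝕜 := ℂ) (by fun_prop)).continuousOn
  rw [← differentiableOn_univ]
  have h2 := h1.differentiableOn (.of_forall fun s => by
    simpa [Finset.prod_fn] using DifferentiableOn.finsetProd (u := s)
      (f := fun (n : ℕ) z => 1 + -ee (n * τ + z)) (fun _ _ => by fun_prop)) isOpen_univ
  exact h2.congr fun z _ => by simp only [G, sub_eq_add_neg]

theorem G_succ (τ z : ℂ) : G τ (z + τ) = ∏' n : ℕ, (1 - ee ((n + 1) * τ + z)) := by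
  unfold G; congr 1; ext n; congr 2; ring

theorem G_shift {τ : ℂ} (h : 0 < τ.im) (z : ℂ) : G τ z = (1 - ee z) * G τ (z + τ) := by
  have h1 : Multipliable fun n : ℕ => 1 - ee (((n + 1 : ℕ) : ℂ) * τ + z) := by
    refine (mult h (z + τ)).congr fun n => ?_
    push_cast; congr 2; ring
  have h2 := tprod_eq_zero_mul' (f := fun n : ℕ => 1 - ee ((n : ℂ) * τ + z)) h1
  rw [G_succ]
  simpa [G] using h2

theorem G_one (τ z : ℂ) : G τ (z + 1) = G τ z := by
  unfold G; congr 1; ext n
  rw [← add_assoc, ee_add _ 1, ee_one, mul_one]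

theorem G_T (τ z : ℂ) : G (τ + 1) z = G τ z := by
  unfold G; congr 1; ext n
  rw [← ee_add_nat (n * τ + z) n]; congr 2; ring

theorem G_eq_zero {τ : ℂ} (h : 0 < τ.im) {z : ℂ} :
    G τ z = 0 ↔ ∃ n : ℕ, ∃ k : ℤ, n * τ + z = k := by
  constructor
  · intro h0
    by_contra hc
    push Not at hc
    refine tprod_one_add_ne_zero_of_summable (f := fun n : ℕ => -ee (n * τ + z))
      (fun n h1 => ?_) (summ h z) h0
    obtain ⟨k, hk⟩ := ee_eq_one.1 (show ee (n * τ + z) = 1 by linear_combination -h1)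
    exact hc n k hk
  · rintro ⟨n, k, hk⟩
    exact tprod_of_exists_eq_zero ⟨n, by rw [ee_eq_one.2 ⟨k, hk⟩, sub_self]⟩

theorem sgP_eq' {τ : ℂ} (h : 0 < τ.im) (z : ℂ) :
    sgP z τ = (1 - ee z) * (G τ (z + τ) * G τ (τ - z)) := by
  rw [sgP, G, G, ← (mult h _).tprod_mul (mult h _)]
  congr 2; ext n; congr 3 <;> ring

theorem sgP_eq {τ : ℂ} (h : 0 < τ.im) (z : ℂ) : sgP z τ = G τ z * G τ (τ - z) := by
  rw [sgP_eq' h, G_shift h z]; ring

/-- The odd theta function divided by `η`. -/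
def th (τ z : ℂ) : ℂ := -ee (τ / 12 - z / 2) * sgP z τ

theorem sg_eq (a b : ℝ) (τ : ℂ) :
    sg a b τ = ee (a * (a * τ + b) / 2) * th τ (a * τ + b) := by
  have h : ee ((a ^ 2 - a + 1 / 6) * τ / 2) * ee (b * (a - 1) / 2) =
      ee (a * (a * τ + b) / 2) * ee (τ / 12 - (a * τ + b) / 2) := by
    rw [← ee_add, ← ee_add]; congr 1; ring
  rw [sg, th]
  linear_combination (-sgP (a * τ + b) τ) * h

theorem th_diff {τ : ℂ} (h : 0 < τ.im) : Differentiable ℂ (th τ) := by
  have h1 : th τ = fun z => -ee (τ / 12 - z / 2) * (G τ z * G τ (τ - z)) := by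
    ext z; rw [th, sgP_eq h]
  have h2 := G_diff h
  rw [h1]
  fun_prop

theorem th_one {τ : ℂ} (h : 0 < τ.im) (z : ℂ) : th τ (z + 1) = -th τ z := by
  have h1 : G τ (τ - (z + 1)) = G τ (τ - z) := by
    rw [← G_one]; congr 1; ring
  have h2 : ee (τ / 12 - (z + 1) / 2) = -ee (τ / 12 - z / 2) := by
    rw [show τ / 12 - (z + 1) / 2 = (τ / 12 - z / 2) + -(1 / 2) by ring, ee_add, ee_neg_half]
    ring
  rw [th, th, sgP_eq h, sgP_eq h, G_one, h1, h2]; ring

theorem th_tau {τ : ℂ} (h : 0 < τ.im) (z : ℂ) : th τ (z + τ) = -ee (-τ / 2 - z) * th τ z := by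
  have h1 : G τ (τ - (z + τ)) = (1 - ee (-z)) * G τ (τ - z) := by
    rw [show τ - (z + τ) = -z by ring, G_shift h (-z)]; congr 2; ring
  have h2 : ee (τ / 12 - (z + τ) / 2) * ee (-z) = ee (-τ / 2 - z) * ee (τ / 12 - z / 2) := by
    rw [← ee_add, ← ee_add]; congr 1; ring
  have h3 := ee_neg_mul z
  rw [th, th, sgP_eq h, sgP_eq' h, h1]
  linear_combination (G τ (z + τ) * G τ (τ - z)) * ((1 - ee z) * h2 +
    ee (τ / 12 - (z + τ) / 2) * h3)

theorem th_T {τ : ℂ} (h : 0 < τ.im) (z : ℂ) : th (τ + 1) z = ee (1 / 12) * th τ z := by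
  have h0 : 0 < (τ + 1).im := by simpa using h
  have h1 : G τ (τ + 1 - z) = G τ (τ - z) := by
    rw [← G_one τ (τ - z)]; congr 1; ring
  have h2 : ee ((τ + 1) / 12 - z / 2) = ee (1 / 12) * ee (τ / 12 - z / 2) := by
    rw [← ee_add]; congr 1; ring
  rw [th, th, sgP_eq h0, sgP_eq h, G_T, G_T, h1, h2]; ring

theorem th_eq_zero {τ : ℂ} (h : 0 < τ.im) {z : ℂ} :
    th τ z = 0 ↔ ∃ m n : ℤ, z = m * τ + n := by
  rw [th, sgP_eq h, mul_eq_zero, mul_eq_zero, G_eq_zero h, G_eq_zero h]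
  simp only [neg_eq_zero, ee_ne, false_or]
  constructor
  · rintro (⟨n, k, hk⟩ | ⟨n, k, hk⟩)
    · exact ⟨-n, k, by push_cast; linear_combination hk⟩
    · exact ⟨n + 1, -k, by push_cast; linear_combination -hk⟩
  · rintro ⟨m, n, rfl⟩
    rcases le_or_gt m 0 with hm | hm
    · obtain ⟨k, hk⟩ := Int.eq_ofNat_of_zero_le (neg_nonneg.2 hm)
      refine Or.inl ⟨k, n, ?_⟩
      have : (m : ℂ) = -k := by rw [← neg_neg m, hk]; push_cast; ring
      rw [this]; ring
    · obtain ⟨k, hk⟩ := Int.eq_ofNat_of_zero_le (show 0 ≤ m - 1 by omega)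
      refine Or.inr ⟨k, -n, ?_⟩
      have : (m : ℂ) = k + 1 := by rw [show m = k + 1 by omega]; push_cast; ring
      rw [this]; push_cast; ring

/-- An entire doubly periodic function is constant. -/
theorem liouville {τ : ℂ} (h : 0 < τ.im) {f : ℂ → ℂ} (hf : Differentiable ℂ f)
    (h1 : Function.Periodic f 1) (h2 : Function.Periodic f τ) (z w : ℂ) : f z = f w := by
  refine hf.apply_eq_apply_of_bounded ?_ z w
  have hc : Continuous fun p : ℝ × ℝ => f (p.1 * τ + p.2) := by
    have := hf.continuous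
    fun_prop
  refine (((isCompact_Icc (a := (0 : ℝ)) (b := 1)).prod
    (isCompact_Icc (a := (0 : ℝ)) (b := 1))).image hc).isBounded.subset ?_
  rintro _ ⟨z, rfl⟩
  set x := z.im / τ.im
  set y := z.re - x * τ.re
  have hz : z = x * τ + y := by
    apply Complex.ext
    · simp [y]
    · simp [x]; field_simp
  refine ⟨(Int.fract x, Int.fract y), ⟨⟨Int.fract_nonneg _, (Int.fract_lt_one _).le⟩,
    ⟨Int.fract_nonneg _, (Int.fract_lt_one _).le⟩⟩, ?_⟩
  have h3 := (h2.int_mul ⌊x⌋) ((Int.fract x : ℝ) * τ + (Int.fract y : ℝ))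
  have h4 := (h1.int_mul ⌊y⌋) ((Int.fract x : ℝ) * τ + (Int.fract y : ℝ) + ⌊x⌋ * τ)
  simp only
  rw [← h3, ← h4, hz]
  congr 1
  simp only [Int.fract]
  push_cast; ring

/-- `(1 - ee z) / z`. -/
def kk : ℂ → ℂ := dslope (fun z => 1 - ee z) 0

theorem kk_diff : Differentiable ℂ kk := by
  rw [← differentiableOn_univ]
  exact (Complex.differentiableOn_dslope univ_mem).2 (by fun_prop)

theorem kk_mul (z : ℂ) : z * kk z = 1 - ee z := by
  have := sub_smul_dslope (fun z => 1 - ee z) 0 z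
  simpa [ee_zero, kk] using this

theorem kk_zero : kk 0 ≠ 0 := by
  have h : HasDerivAt (fun z => 1 - ee z) (-(2 * π * Complex.I)) 0 := by
    have h1 : HasDerivAt (fun z : ℂ => 2 * π * Complex.I * z) (2 * π * Complex.I) 0 := by
      simpa using (hasDerivAt_id (0 : ℂ)).const_mul (2 * π * Complex.I)
    simpa [ee] using h1.cexp.const_sub 1
  rw [kk, dslope_same, h.deriv]
  simp [Real.pi_ne_zero]

/-- `th τ z / z`. -/
def uu (τ z : ℂ) : ℂ := -ee (τ / 12 - z / 2) * kk z * (G τ (z + τ) * G τ (τ - z))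

theorem th_eq_uu {τ : ℂ} (h : 0 < τ.im) (z : ℂ) : th τ z = z * uu τ z := by
  rw [th, sgP_eq' h, ← kk_mul, uu]; ring

theorem uu_diff {τ : ℂ} (h : 0 < τ.im) : Differentiable ℂ (uu τ) := by
  have h1 := G_diff h
  have h2 := kk_diff
  unfold uu
  fun_prop

theorem uu_zero (τ : ℂ) : uu τ 0 = -kk 0 * ModularForm.eta τ ^ 2 := by
  have h1 : ModularForm.eta τ = ee (τ / 24) * G τ τ := by
    have h2 := G_succ τ 0
    rw [zero_add] at h2
    rw [h2, ModularForm.eta]
    congr 1
    · simp only [Function.Periodic.qParam, ee]; congr 1; push_cast; ring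
    · congr 1; ext n
      rw [ModularForm.eta_q_eq_cexp, ee]; congr 2; ring
  have h3 : ee (τ / 12) = ee (τ / 24) ^ 2 := by
    rw [sq, ← ee_add]; congr 1; ring
  rw [uu, h1]
  simp only [zero_div, sub_zero, zero_add, h3]
  ring

theorem im_S {τ : ℂ} (h : 0 < τ.im) : 0 < (-1 / τ).im := by
  have h0 : τ ≠ 0 := by rintro rfl; simp at h
  have := Complex.normSq_pos.2 h0
  have h1 : (-1 / τ).im = τ.im / Complex.normSq τ := by simp [Complex.div_im, neg_div]
  rw [h1]; positivity

theorem eta_S {τ : ℂ} (h : 0 < τ.im) :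
    ModularForm.eta (-1 / τ) ^ 2 = -Complex.I * τ * ModularForm.eta τ ^ 2 := by
  have h1 : ModularForm.eta (-1 / τ) =
      (Complex.sqrt Complex.I)⁻¹ * (Complex.sqrt τ * ModularForm.eta τ) := by
    simpa using ModularForm.eta_comp_eq_csqrt_I_inv (show τ ∈ _ from h)
  have h2 : ∀ w : ℂ, Complex.sqrt w ^ 2 = w := fun w => by
    simp [Complex.sqrt]
  rw [h1, mul_pow, mul_pow, inv_pow, h2, h2, Complex.inv_I]; ring

theorem th_S {τ : ℂ} (h : 0 < τ.im) (z : ℂ) :
    th (-1 / τ) (z / τ) = -Complex.I * (ee (z ^ 2 / (2 * τ)) * th τ z) := by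
  have h0 : τ ≠ 0 := by rintro rfl; simp at h
  have h' := im_S h
  set f : ℂ → ℂ := fun z => th (-1 / τ) (z / τ) with hf
  set g : ℂ → ℂ := fun z => ee (z ^ 2 / (2 * τ)) * th τ z with hg
  have fd : Differentiable ℂ f := by have := th_diff h'; fun_prop
  have gd : Differentiable ℂ g := by have := th_diff h; fun_prop
  have gz : ∀ z, g z = 0 ↔ ∃ m n : ℤ, z = m * τ + n := fun z => by
    simp only [hg, mul_eq_zero, ee_ne, false_or, th_eq_zero h]
  have f1 : ∀ z, f (z + 1) = -ee ((2 * z + 1) / (2 * τ)) * f z := fun z => by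
    have h1 := th_tau h' ((z + 1) / τ)
    have h2 : (z + 1) / τ + -1 / τ = z / τ := by ring
    have h3 : ee ((2 * z + 1) / (2 * τ)) * ee (-(-1 / τ) / 2 - (z + 1) / τ) = 1 := by
      rw [← ee_add, ← ee_zero]; congr 1; field_simp; ring
    rw [h2] at h1
    simp only [hf]
    rw [h1]
    linear_combination (-th (-1 / τ) ((z + 1) / τ)) * h3
  have g1 : ∀ z, g (z + 1) = -ee ((2 * z + 1) / (2 * τ)) * g z := fun z => by
    have h3 : ee ((z + 1) ^ 2 / (2 * τ)) =
        ee ((2 * z + 1) / (2 * τ)) * ee (z ^ 2 / (2 * τ)) := by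
      rw [← ee_add]; congr 1; ring
    simp only [hg]
    rw [th_one h, h3]; ring
  have f2 : ∀ z, f (z + τ) = -f z := fun z => by
    simp only [hf]
    rw [show (z + τ) / τ = z / τ + 1 by field_simp, th_one h']
  have g2 : ∀ z, g (z + τ) = -g z := fun z => by
    have h3 : ee ((z + τ) ^ 2 / (2 * τ)) * ee (-τ / 2 - z) = ee (z ^ 2 / (2 * τ)) := by
      rw [← ee_add]; congr 1; field_simp; ring
    simp only [hg]
    rw [th_tau h]
    linear_combination (-th τ z) * h3
  set R : ℂ → ℂ := fun z => if g z = 0 then -Complex.I else f z / g z with hR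
  have R1 : Function.Periodic R 1 := fun z => by
    have := ee_ne ((2 * z + 1) / (2 * τ))
    simp only [hR, f1, g1, mul_eq_zero, neg_eq_zero, this, false_or]
    split_ifs with h1
    · rfl
    · field_simp
  have R2 : Function.Periodic R τ := fun z => by
    simp only [hR, f2, g2, neg_eq_zero, neg_div_neg_eq]
  have u0 : uu τ 0 ≠ 0 := by
    rw [uu_zero]
    exact mul_ne_zero (neg_ne_zero.2 kk_zero) (pow_ne_zero _ (ModularForm.eta_ne_zero h))
  have R0 : DifferentiableAt ℂ R 0 := by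
    have d1 := uu_diff h
    have d2 := uu_diff h'
    have h1 : DifferentiableAt ℂ (fun z => uu (-1 / τ) (z / τ) /
        (τ * (ee (z ^ 2 / (2 * τ)) * uu τ z))) 0 := by
      refine DifferentiableAt.div (by fun_prop) (by fun_prop) ?_
      exact mul_ne_zero h0 (mul_ne_zero (ee_ne _) u0)
    refine h1.congr_of_eventuallyEq ?_
    filter_upwards [d1.continuous.continuousAt.eventually_ne u0] with z hz
    have e1 := ee_ne (z ^ 2 / (2 * τ))
    by_cases hz0 : z = 0
    · subst hz0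
      have h2 : g 0 = 0 := (gz 0).2 ⟨0, 0, by simp⟩
      have h3 := kk_zero
      have h4 := ModularForm.eta_ne_zero (show τ ∈ _ from h)
      simp only [hR, h2, if_true, zero_div, uu_zero, eta_S h, ne_eq, OfNat.ofNat_ne_zero,
        not_false_eq_true, zero_pow, ee_zero]
      field_simp
    · have h2 : g z ≠ 0 := by
        simp only [hg, th_eq_uu h]
        exact mul_ne_zero e1 (mul_ne_zero hz0 hz)
      simp only [hR, h2, if_false]
      simp only [hf, hg, th_eq_uu h, th_eq_uu h']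
      field_simp
  have Rd : Differentiable ℂ R := by
    intro z
    by_cases hz : g z = 0
    · obtain ⟨m, n, rfl⟩ := (gz z).1 hz
      have h1 : R = fun w => R (w - (m * τ + n)) := by
        ext w
        have h2 := (R2.int_mul m) (w - (m * τ + n))
        have h3 := (R1.int_mul n) (w - (m * τ + n) + m * τ)
        rw [← h2, ← h3]; congr 1; ring
      rw [h1]
      exact DifferentiableAt.comp (g := R) (f := fun w => w - (m * τ + n)) _
        (by simpa using R0) (by fun_prop)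
    · refine ((fd z).div (gd z) hz).congr_of_eventuallyEq ?_
      filter_upwards [gd.continuous.continuousAt.eventually_ne hz] with w hw
      simp [hR, hw]
  have h1 := liouville h Rd R1 R2 z 0
  have h2 : g 0 = 0 := (gz 0).2 ⟨0, 0, by simp⟩
  change f z = -Complex.I * g z
  by_cases hz : g z = 0
  · rw [hz, mul_zero]
    obtain ⟨m, n, rfl⟩ := (gz z).1 hz
    exact (th_eq_zero h').2 ⟨-n, m, by push_cast; field_simp; ring⟩
  · simp only [hR, hz, h2, if_true, if_false] at h1
    rw [← h1]; field_simp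

end Sgt

open Sgt in
theorem sgt : SGT := by
  intro a b τ h
  have h0 : τ ≠ 0 := by rintro rfl; simp at h
  refine ⟨?_, ?_, ?_, ?_, fun hn hz => hn ?_⟩
  · rw [sg_eq, sg_eq, th_T h]
    push_cast
    rw [show (a : ℂ) * (τ + 1) + b = a * τ + (a + b) by ring]; ring
  · rw [sg_eq, sg_eq]
    push_cast
    have h1 : (a : ℂ) * (-1 / τ) + b = (b * τ + -a) / τ := by field_simp; ring
    have h2 : ee (a * ((b * τ + -a) / τ) / 2) * ee ((b * τ + -a) ^ 2 / (2 * τ)) =
        ee (b * (b * τ + -a) / 2) := by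
      rw [← ee_add]; congr 1; field_simp; ring
    rw [h1, th_S h, ← h2]; ring
  · rw [sg_eq, sg_eq]
    push_cast
    have h2 : ee ((a + 1) * (a * τ + b + τ) / 2) * ee (-τ / 2 - (a * τ + b)) =
        ee (-b / 2) * ee (a * (a * τ + b) / 2) := by
      rw [← ee_add, ← ee_add]; congr 1; ring
    rw [show ((a : ℂ) + 1) * τ + b = a * τ + b + τ by ring, th_tau h]
    linear_combination (-th τ (a * τ + b)) * h2
  · rw [sg_eq, sg_eq]
    push_cast
    have h2 : ee (a * (a * τ + b + 1) / 2) = ee (a / 2) * ee (a * (a * τ + b) / 2) := by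
      rw [← ee_add]; congr 1; ring
    rw [show (a : ℂ) * τ + (b + 1) = a * τ + b + 1 by ring, th_one h, h2]; ring
  · rw [sg_eq, mul_eq_zero, th_eq_zero h] at hz
    obtain ⟨m, n, hmn⟩ := hz.resolve_left (ee_ne _)
    have h1 := congrArg Complex.im hmn
    have h2 := congrArg Complex.re hmn
    simp at h1 h2
    have h3 : a = m := h1.resolve_right h.ne'
    exact ⟨⟨m, h3⟩, n, by rw [h3] at h2; linarith⟩

end

end Pool.Agent.P.MP_29cb78_nt.C
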