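import Pool.Agent.P.MP_29cb78_nt.C.Iface

/-!
Cyclotomic extensions of complex cubic fields and the integrality of the Stickelberger element.
-/

namespace Pool.Agent.P.MP_29cb78_nt.C

open NumberField NumberField.InfinitePlace NumberField.Units Polynomial
open scoped Classical IntermediateField

noncomputable section

namespace Stick

theorem notGalois (k : Type) [Field k] [NumberField k] (h3 : Module.finrank ℚ k = 3)
    (hc : nrComplexPlaces k = 1) : ¬ IsGalois ℚ k := by
  intro hG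
  have hne : Nonempty {w : InfinitePlace k // IsComplex w} := by
    rw [← Fintype.card_pos_iff]
    have : Fintype.card {w : InfinitePlace k // IsComplex w} = 1 := hc
    omega
  obtain ⟨w, hw⟩ := hne
  have hram : ¬ IsUnramified ℚ w := by
    rw [not_isUnramified_iff]
    exact ⟨hw, IsTotallyReal.isReal _⟩
  have := even_finrank_of_not_isUnramified hram
  rw [h3] at this
  exact absurd this (by decide)

theorem deg (k E : Type) [Field k] [Field E] [NumberField k] [NumberField E] [Algebra k E]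
    (h3 : Module.finrank ℚ k = 3) (hc : nrComplexPlaces k = 1) (n : ℕ) (hn : n ≠ 0) (ξ : E)
    (hξ : IsPrimitiveRoot ξ n) : n.totient ≤ Module.finrank k E := by
  have : NeZero n := ⟨hn⟩
  have hcyc : IsCyclotomicExtension {n} ℚ ℚ⟮ξ⟯ :=
    hξ.intermediateField_adjoin_isCyclotomicExtension ℚ
  have hL : Module.finrank ℚ ℚ⟮ξ⟯ = n.totient :=
    IsCyclotomicExtension.finrank ℚ⟮ξ⟯ (cyclotomic.irreducible_rat (NeZero.pos n))
  have : IsAbelianGalois ℚ ℚ⟮ξ⟯ := IsCyclotomicExtension.isAbelianGalois {n} ℚ ℚ⟮ξ⟯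
  let pb : PowerBasis ℚ k := Field.powerBasisOfFiniteOfSeparable ℚ k
  have hdim : pb.dim = 3 := by rw [← pb.finrank, h3]
  have hdeg : (minpoly ℚ pb.gen).natDegree = 3 := by rw [pb.natDegree_minpoly, hdim]
  have hmon : (minpoly ℚ pb.gen).Monic := minpoly.monic pb.isIntegral_gen
  set p : ℚ⟮ξ⟯[X] := (minpoly ℚ pb.gen).map (algebraMap ℚ ℚ⟮ξ⟯) with hp
  have hpdeg : p.natDegree = 3 := by rw [hp, natDegree_map, hdeg]
  have hirr : Irreducible p := by
    apply irreducible_of_degree_le_three_of_not_isRoot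
    · rw [hpdeg]; decide
    · intro x hx
      have hx' : aeval x (minpoly ℚ pb.gen) = 0 := by
        rw [aeval_def, eval₂_eq_eval_map]; exact hx
      have := IsAbelianGalois.of_algHom (pb.lift x hx')
      exact notGalois k h3 hc inferInstance
  have hroot : aeval (algebraMap k E pb.gen) p = 0 := by
    rw [hp, aeval_map_algebraMap, aeval_algebraMap_apply, minpoly.aeval, map_zero]
  have hmin : p = minpoly ℚ⟮ξ⟯ (algebraMap k E pb.gen) :=
    minpoly.eq_of_irreducible_of_monic hirr hroot (hmon.map _)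
  have h1 : 3 ≤ Module.finrank ℚ⟮ξ⟯ E := by
    rw [← hpdeg, hmin]
    exact minpoly.natDegree_le _
  have h2 := Module.finrank_mul_finrank ℚ ℚ⟮ξ⟯ E
  have h4 := Module.finrank_mul_finrank ℚ k E
  rw [hL] at h2
  rw [h3] at h4
  nlinarith

theorem finrank_le (k E : Type) [Field k] [Field E] [NumberField k] [NumberField E] [Algebra k E]
    (m : ℕ) [NeZero m] [IsCyclotomicExtension {m} k E] (ζ : E) (hζ : IsPrimitiveRoot ζ m) :
    Module.finrank k E ≤ m.totient := by
  have : IsGalois k E := IsCyclotomicExtension.isGalois {m} k E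
  rw [← IsGalois.card_aut_eq_finrank, ← ZMod.card_units_eq_totient, ← Nat.card_eq_fintype_card]
  exact Nat.card_le_card_of_injective _ (hζ.autToPow_injective k)

theorem stz_odd {m : ℕ} [NeZero m] {G : Type} [Group G] (hm : 2 ≤ m) (pm : (ZMod m)ˣ →* G)
    (x : G) : stz pm (pm (-1) * x) = -stz pm x := by
  have : Fact (1 < m) := ⟨hm⟩
  have hm0 : (m : ℚ) ≠ 0 := by exact_mod_cast NeZero.ne m
  unfold stz
  rw [← Equiv.sum_comp (Equiv.mulLeft (-1 : (ZMod m)ˣ)), ← Finset.sum_neg_distrib]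
  refine Finset.sum_congr rfl fun v _ => ?_
  rw [Equiv.coe_mulLeft, map_mul, mul_right_inj]
  split_ifs with h
  · beta_reduce
    rw [neg_one_mul, Units.val_neg, ZMod.neg_val, if_neg v.ne_zero,
      Nat.cast_sub (ZMod.val_lt _).le]
    field_simp
    ring
  · simp

theorem stz_shift {m : ℕ} [NeZero m] {G : Type} [Group G] (pm : (ZMod m)ˣ →* G) (u : (ZMod m)ˣ)
    (b : ℕ) (hb : Odd b) (hbu : (b : ZMod m) = u) (x : G) :
    ∃ n : ℤ, stz pm (pm u * x) - b * stz pm x = n := by
  have hm0 : (m : ℚ) ≠ 0 := by exact_mod_cast NeZero.ne m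
  unfold stz
  rw [← Equiv.sum_comp (Equiv.mulLeft u), Finset.mul_sum, ← Finset.sum_sub_distrib]
  refine Finset.sum_induction _ (fun q : ℚ => ∃ n : ℤ, q = n) ?_ ⟨0, by simp⟩ ?_
  · rintro _ _ ⟨n, rfl⟩ ⟨n', rfl⟩
    exact ⟨n + n', by push_cast; rfl⟩
  · intro v _
    rw [Equiv.coe_mulLeft, map_mul, mul_right_inj]
    split_ifs with h
    · obtain ⟨c, rfl⟩ := hb
      have h1 : (m : ℤ) ∣ ((2 * c + 1 : ℕ) : ℤ) * ((v : ZMod m).val : ℤ) -
          (((u * v : (ZMod m)ˣ) : ZMod m).val : ℤ) := by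
        rw [← ZMod.intCast_zmod_eq_zero_iff_dvd]
        rw [Int.cast_sub, Int.cast_mul, Int.cast_natCast, Int.cast_natCast, Int.cast_natCast,
          ZMod.natCast_zmod_val, ZMod.natCast_zmod_val, hbu, Units.val_mul, sub_self]
      obtain ⟨t, ht⟩ := h1
      refine ⟨t - c, ?_⟩
      have ht' : ((2 * c + 1 : ℕ) : ℚ) * ((v : ZMod m).val : ℚ) -
          (((u * v : (ZMod m)ˣ) : ZMod m).val : ℚ) = m * t := by exact_mod_cast ht
      have h2 : (t : ℚ) = (((2 * c + 1 : ℕ) : ℚ) * ((v : ZMod m).val : ℚ) -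
          (((u * v : (ZMod m)ˣ) : ZMod m).val : ℚ)) / m := by
        rw [ht']; field_simp
      rw [Int.cast_sub, h2, Int.cast_natCast, Nat.cast_add, Nat.cast_mul, Nat.cast_ofNat,
        Nat.cast_one]
      ring
    · exact ⟨0, by simp⟩

theorem exists_odd {m : ℕ} [NeZero m] (u : (ZMod m)ˣ) : ∃ b : ℕ, Odd b ∧ (b : ZMod m) = u := by
  rcases Nat.even_or_odd (u : ZMod m).val with h | h
  · have hm : Odd m := by
      by_contra hev
      rw [Nat.not_odd_iff_even] at hev
      have := Nat.dvd_gcd h.two_dvd hev.two_dvd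
      rw [ZMod.val_coe_unit_coprime u] at this
      omega
    exact ⟨(u : ZMod m).val + m, h.add_odd hm, by simp⟩
  · exact ⟨_, h, by simp⟩

theorem den_dvd_of_mul_eq (z : ℚ) (c n : ℤ) (h : (c : ℚ) * z = n) : (z.den : ℤ) ∣ c := by
  by_cases hc : c = 0
  · simp [hc]
  · have hc' : (c : ℚ) ≠ 0 := by exact_mod_cast hc
    have : z = Rat.divInt n c := by
      rw [Rat.divInt_eq_div, ← h]; field_simp
    rw [this]
    exact Rat.den_dvd n c

theorem pow_eq_pow_iff_modEq_aux {E : Type} [Field E] {η : E} {d a b : ℕ}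
    (hη : IsPrimitiveRoot η d) (hd : d ≠ 0) : η ^ a = η ^ b ↔ a ≡ b [MOD d] := by
  have h : IsOfFinOrder η := isOfFinOrder_iff_pow_eq_one.2 ⟨d, Nat.pos_of_ne_zero hd, hη.pow_eq_one⟩
  rw [h.pow_eq_pow_iff_modEq, ← hη.eq_orderOf]

end Stick

open Stick

theorem cyc : CYC := by
  intro k E _ _ _ _ _ m _ _ ζ h3 hc hζ
  have : IsGalois k E := IsCyclotomicExtension.isGalois {m} k E
  have hm : m ≠ 0 := NeZero.ne m
  have hle := finrank_le k E m ζ hζ
  refine ⟨fun u => ?_, fun x n hn hx => ?_⟩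
  · have hbij : Function.Bijective (hζ.autToPow k) := by
      apply (hζ.autToPow_injective k).bijective_of_nat_card_le
      rw [IsGalois.card_aut_eq_finrank, Nat.card_eq_fintype_card, ZMod.card_units_eq_totient]
      exact deg k E h3 hc m hm ζ hζ
    obtain ⟨σ, rfl⟩ := hbij.2 u
    exact ⟨σ, (hζ.autToPow_spec k σ).symm⟩
  · have hfin : IsOfFinOrder x := isOfFinOrder_iff_pow_eq_one.2 ⟨n, Nat.pos_of_ne_zero hn, hx⟩
    have hd : orderOf x ≠ 0 := hfin.orderOf_pos.ne'
    have hprim := hζ.pow_mul_pow_lcm (IsPrimitiveRoot.orderOf x) hm hd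
    have hl0 : m.lcm (orderOf x) ≠ 0 := Nat.lcm_ne_zero hm hd
    have h1 := (deg k E h3 hc _ hl0 _ hprim).trans hle
    have h2 : m.totient ≤ (m.lcm (orderOf x)).totient :=
      Nat.le_of_dvd (Nat.totient_pos.2 (Nat.pos_of_ne_zero hl0))
        (Nat.totient_dvd_of_dvd (Nat.dvd_lcm_left _ _))
    have hxl : x ^ (m.lcm (orderOf x)) = 1 := orderOf_dvd_iff_pow_eq_one.1 (Nat.dvd_lcm_right _ _)
    have heq := le_antisymm h2 h1
    rcases Nat.eq_or_eq_of_totient_eq_totient (Nat.dvd_lcm_left _ _) heq with h | h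
    · rw [← h] at hxl
      obtain ⟨i, -, hi⟩ := hζ.eq_pow_of_pow_eq_one hxl
      exact ⟨i, Or.inl hi.symm⟩
    · rw [← h] at hxl heq
      have hodd : Odd m := by
        by_contra hev
        rw [Nat.not_odd_iff_even] at hev
        rw [Nat.totient_two_mul_of_even hev] at heq
        have := Nat.totient_pos.2 (Nat.pos_of_ne_zero hm)
        omega
      rw [mul_comm, pow_mul, sq_eq_one_iff] at hxl
      rcases hxl with hxl | hxl
      · obtain ⟨i, -, hi⟩ := hζ.eq_pow_of_pow_eq_one hxl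
        exact ⟨i, Or.inl hi.symm⟩
      · have hx' : (-x) ^ m = 1 := by rw [hodd.neg_pow, hxl, neg_neg]
        obtain ⟨i, -, hi⟩ := hζ.eq_pow_of_pow_eq_one hx'
        exact ⟨i, Or.inr (by rw [hi, neg_neg])⟩

theorem stick : CYC → STICK := by
  intro hcyc k K E _ _ _ _ _ _ _ _ _ _ m _ _ ζ h3 hc hm3 hζ
  obtain ⟨hsurj, hroots⟩ := hcyc k E m ζ h3 hc hζ
  have hm : m ≠ 0 := NeZero.ne m
  have hab : IsAbelianGalois k E := IsCyclotomicExtension.isAbelianGalois {m} k E
  have habK : IsAbelianGalois k K := IsAbelianGalois.tower_bot k K E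
  have hKE : IsGalois K E := IsGalois.tower_top_of_isGalois k K E
  have hbij : Function.Bijective (hζ.autToPow k) := by
    refine ⟨hζ.autToPow_injective k, fun u => ?_⟩
    obtain ⟨σ, hσ⟩ := hsurj u
    refine ⟨σ, Units.ext (ZMod.val_injective m ?_)⟩
    apply hζ.pow_inj (ZMod.val_lt _) (ZMod.val_lt _)
    rw [hζ.autToPow_spec k σ, hσ]
  let e : Gal(E/k) ≃* (ZMod m)ˣ := MulEquiv.ofBijective (hζ.autToPow k) hbij
  have he : ∀ u : (ZMod m)ˣ, e.symm u ζ = ζ ^ (u : ZMod m).val := by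
    intro u
    rw [← hζ.autToPow_spec k (e.symm u)]
    have : hζ.autToPow k (e.symm u) = u := e.apply_symm_apply u
    rw [this]
  let pm : (ZMod m)ˣ →* Gal(K/k) := (AlgEquiv.restrictNormalHom K).comp e.symm.toMonoidHom
  have hpm : ∀ (u : (ZMod m)ˣ) (x : K), algebraMap K E (pm u x) = e.symm u (algebraMap K E x) :=
    fun u x => AlgEquiv.restrictNormal_commutes (e.symm u) K x
  have hpmsurj : Function.Surjective pm :=
    (AlgEquiv.restrictNormalHom_surjective (F := k) (K₁ := K) (E := E)).comp e.symm.surjective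
  have hact : ∀ (u : (ZMod m)ˣ) (b : ℕ), Odd b → (b : ZMod m) = u → ∀ (y : E) (n : ℕ), n ≠ 0 →
      y ^ n = 1 → e.symm u y = y ^ b := by
    intro u b hb hbu y n hn hy
    have hζb : e.symm u ζ = ζ ^ b := by
      rw [he, ← hbu, ZMod.val_natCast]
      conv_lhs => rw [hζ.eq_orderOf]
      exact pow_mod_orderOf ζ b
    obtain ⟨i, hi | hi⟩ := hroots y n hn hy
    · rw [hi, map_pow, hζb, ← pow_mul, ← pow_mul, mul_comm]
    · rw [hi, map_neg, map_pow, hζb, hb.neg_pow, ← pow_mul, ← pow_mul, mul_comm]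
  refine ⟨habK, pm, hpmsurj, ?_, fun x => stz_odd (by omega) pm x, fun x => ?_, fun σ => ?_⟩
  · intro Ω _ i j u hk hj x
    have hall : ∀ y : E, j y = i (e.symm u y) := by
      intro y
      have hy : y ∈ Algebra.adjoin k {ζ} := by
        rw [IsCyclotomicExtension.adjoin_primitive_root_eq_top hζ]; trivial
      induction hy using Algebra.adjoin_induction with
      | mem y hy =>
        rw [Set.mem_singleton_iff.1 hy, hj, he, map_pow]
      | algebraMap r =>
        rw [AlgEquiv.commutes, IsScalarTower.algebraMap_apply k K E, hk]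
      | add y z _ _ hy hz => rw [map_add, map_add, map_add, hy, hz]
      | mul y z _ _ hy hz => rw [map_mul, map_mul, map_mul, hy, hz]
    rw [hall, hpm]
  · set z := stz pm x with hz
    have hden : ∀ (u : (ZMod m)ˣ) (b : ℕ), Odd b → (b : ZMod m) = u → pm u = 1 →
        (z.den : ℤ) ∣ 1 - (b : ℤ) := by
      intro u b hb hbu hu
      obtain ⟨n, hn⟩ := stz_shift pm u b hb hbu x
      rw [hu, one_mul, ← hz] at hn
      apply den_dvd_of_mul_eq z _ n
      rw [← hn]; push_cast; ring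
    have hL0 : m.lcm 2 ≠ 0 := Nat.lcm_ne_zero hm two_ne_zero
    have hdL : z.den ∣ m.lcm 2 := by
      have h1 : Odd (m.lcm 2 + 1) := (even_iff_two_dvd.2 (Nat.dvd_lcm_right _ _)).add_one
      have h2 : ((m.lcm 2 + 1 : ℕ) : ZMod m) = (1 : (ZMod m)ˣ) := by
        rw [Nat.cast_add, (ZMod.natCast_eq_zero_iff _ _).2 (Nat.dvd_lcm_left _ _)]
        simp
      have h4 := hden 1 _ h1 h2 (map_one _)
      have h5 : (1 : ℤ) - ((m.lcm 2 + 1 : ℕ) : ℤ) = -((m.lcm 2 : ℕ) : ℤ) := by
        rw [Nat.cast_add]; ring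
      rw [h5, dvd_neg] at h4
      exact Int.natCast_dvd_natCast.1 h4
    obtain ⟨a, ha⟩ := hdL
    have hprim := hζ.pow_mul_pow_lcm (IsPrimitiveRoot.neg_one (R := E) 0 (by norm_num)) hm
      two_ne_zero
    obtain ⟨η, hη⟩ : ∃ η : E, IsPrimitiveRoot η z.den :=
      ⟨_, hprim.pow (Nat.pos_of_ne_zero hL0) (ha.trans (mul_comm _ _))⟩
    have hfix : η ∈ Set.range (algebraMap K E) := by
      rw [IsGalois.mem_range_algebraMap_iff_fixed]
      intro τ
      obtain ⟨b, hb, hbu⟩ := exists_odd (e (τ.restrictScalars k))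
      have hu : pm (e (τ.restrictScalars k)) = 1 := by
        ext y
        apply (algebraMap K E).injective
        rw [hpm, e.symm_apply_apply]
        exact τ.commutes y
      have h1 := hact _ b hb hbu η z.den z.den_nz hη.pow_eq_one
      rw [e.symm_apply_apply] at h1
      have h2 := hden _ b hb hbu hu
      have h4 : b ≡ 1 [MOD z.den] := (Nat.modEq_iff_dvd).2 (by simpa using h2)
      have h5 : η ^ b = η ^ 1 := by
        rw [pow_eq_pow_iff_modEq_aux hη z.den_nz]
        exact h4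
      rw [pow_one] at h5
      exact h1.trans h5
    obtain ⟨η0, rfl⟩ := hfix
    have hη0 : IsPrimitiveRoot η0 z.den := hη.of_map_of_injective (algebraMap K E).injective
    have : NeZero z.den := ⟨z.den_nz⟩
    obtain ⟨c, hcw⟩ := dvd_torsionOrder_of_isPrimitiveRoot hη0
    refine ⟨c * z.num, ?_⟩
    rw [hcw]
    push_cast
    rw [← Rat.mul_den_eq_num z]
    ring
  · obtain ⟨u, rfl⟩ := hpmsurj σ
    obtain ⟨b, hb, hbu⟩ := exists_odd u
    refine ⟨b, fun y hy => ?_, fun x => ?_⟩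
    · apply (algebraMap K E).injective
      rw [hpm, zpow_natCast, map_pow]
      apply hact u b hb hbu _ (torsionOrder K) (torsionOrder_ne_zero K)
      rw [← map_pow, hy, map_one]
    · obtain ⟨n, hn⟩ := stz_shift pm u b hb hbu x
      exact ⟨n, by rw [← hn]; push_cast; ring⟩

end

end Pool.Agent.P.MP_29cb78_nt.C
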