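import Pool.Agent.P.MP_29cb78_nt.C.Iface

/-!
The elliptic element attached to the cubic character is a unit.
-/

namespace Pool.Agent.P.MP_29cb78_nt.C

open NumberField NumberField.InfinitePlace NumberField.Units Set Ideal Filter Topology
open NumberField.ComplexEmbedding (IsConj)
open scoped Classical Pointwise

noncomputable section

namespace Unit

section series

variable {F B : Type} [Field F] [NumberField F] [CommMonoid B]

/-- The series over the ideals coprime to `J` with a given image. -/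
def LL (a : Ideal (𝓞 F) →* B) (J : Ideal (𝓞 F)) (b : B) : ℂ → ℂ :=
  Lser fun I => if IsCoprime I J then (if a I = b then 1 else 0) else 0

theorem fz_eq (N : ℕ) (a : Ideal (𝓞 F) →* B) (b : B) {s : ℂ} (hs : 1 < s.re) :
    fz N a b s = LL a (span {(N : 𝓞 F)}) b s := by
  have h0 : -s ≠ 0 := fun h => by
    rw [neg_eq_zero.mp h] at hs
    simp at hs
    linarith
  simp only [fz, LL, Lser]
  refine tsum_congr fun I => ?_
  by_cases hI : I = ⊥
  · rw [hI, absNorm_bot, Nat.cast_zero, Complex.zero_cpow h0, mul_zero, mul_zero]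
  · by_cases h1 : IsCoprime I (span {(N : 𝓞 F)})
    · simp [Cop, hI, h1]
    · simp [Cop, h1]

theorem rmv1 (hR : RMV) (a : Ideal (𝓞 F) →* B) (J P : Ideal (𝓞 F)) (hP : P.IsMaximal)
    (hc : IsCoprime P J) {t : B} (ht : a P * t = 1) (b : B) {s : ℂ} (hs : 1 < s.re) :
    LL a (J * P) b s = LL a J b s - (absNorm P : ℂ) ^ (-s) * LL a J (b * t) s := by
  have h := hR F B a (fun x => if x = b then 1 else 0) J P (fun x => by split_ifs <;> simp) hP hc
    s hs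
  have e : ∀ x : B, a P * x = b ↔ x = b * t := fun x =>
    ⟨fun hx => by rw [← hx, mul_right_comm, ht, one_mul],
      fun hx => by rw [hx, mul_left_comm, ht, mul_one]⟩
  simp only [e] at h
  exact h

theorem rmv2 (hR : RMV) (a : Ideal (𝓞 F) →* B) (N q : ℕ) (P P' : Ideal (𝓞 F))
    (hP : P.IsMaximal) (hP' : P'.IsMaximal) (hne : P' ≠ P) (hN : (N : 𝓞 F) ∉ P)
    (hN' : (N : 𝓞 F) ∉ P') (hq : absNorm P = q) (hq' : absNorm P' = q)
    (hm : P * P' = span {(q : 𝓞 F)}) (h1 : a P * a P' = 1) (b : B) {s : ℂ} (hs : 1 < s.re) :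
    fz (N * q) a b s = (1 + (q : ℂ) ^ (-s) * (q : ℂ) ^ (-s)) * fz N a b s -
      (q : ℂ) ^ (-s) * (fz N a (b * a P) s + fz N a (b * a P') s) := by
  have cop : ∀ Q : Ideal (𝓞 F), Q.IsMaximal → (N : 𝓞 F) ∉ Q → IsCoprime Q (span {(N : 𝓞 F)}) :=
    fun Q hQ h => isCoprime_iff_sup_eq.mpr (hQ.1.2 _ (left_lt_sup.mpr fun h' =>
      h (h' (mem_span_singleton_self _))))
  have c2 : IsCoprime P' (span {(N : 𝓞 F)} * P) :=
    (cop P' hP' hN').mul_right (isCoprime_iff_sup_eq.mpr (hP'.coprime_of_ne hP hne))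
  have e : span {((N * q : ℕ) : 𝓞 F)} = span {(N : 𝓞 F)} * P * P' := by
    rw [mul_assoc, hm, span_singleton_mul_span_singleton, Nat.cast_mul]
  have h2 : a P' * a P = 1 := by rw [mul_comm, h1]
  simp only [fz_eq _ a _ hs]
  rw [e, rmv1 hR a _ P' hP' c2 h2 b hs, rmv1 hR a _ P hP (cop P hP hN) h1 b hs,
    rmv1 hR a _ P hP (cop P hP hN) h1 (b * a P) hs, mul_assoc b, h1, mul_one, hq, hq']
  ring

theorem rmv3 (hR : RMV) (a : Ideal (𝓞 F) →* B) (N q : ℕ) (P P' : Ideal (𝓞 F))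
    (hP : P.IsMaximal) (hP' : P'.IsMaximal) (hne : P' ≠ P) (hN : (N : 𝓞 F) ∉ P)
    (hN' : (N : 𝓞 F) ∉ P') (hq : absNorm P = q) (hq' : absNorm P' = q)
    (hm : P * P' = span {(q : 𝓞 F)}) {t : B} (ht : t * t * t = 1) (h1 : a P = t)
    (h2 : a P' = t * t) (b : B) {s : ℂ} (hs : 1 < s.re) :
    fz (N * q) a b s - fz (N * q) a (b * t) s = (fz N a b s - fz N a (b * t) s) *
      (1 + (q : ℂ) ^ (-s) + (q : ℂ) ^ (-s) * (q : ℂ) ^ (-s)) := by
  have h3 : a P * a P' = 1 := by rw [h1, h2, ← mul_assoc, ht]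
  rw [rmv2 hR a N q P P' hP hP' hne hN hN' hq hq' hm h3 b hs,
    rmv2 hR a N q P P' hP hP' hne hN hN' hq hq' hm h3 (b * t) hs, h1, h2, mul_assoc b t t,
    mul_assoc b t (t * t), ← mul_assoc t t t, ht, mul_one]
  ring

/-- A prime of degree one in a quadratic field. -/
theorem split (h2 : Module.finrank ℚ F = 2) (P : Ideal (𝓞 F)) (hP : P.IsMaximal)
    (hq : (absNorm P).Prime) (P' : Ideal (𝓞 F)) (hP' : P'.IsMaximal)
    (h : (absNorm P : 𝓞 F) ∈ P') :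
    absNorm P' = absNorm P ∧ (P' ≠ P → P * P' = span {(absNorm P : 𝓞 F)}) := by
  obtain ⟨K, hK⟩ := dvd_iff_le.mpr (span_singleton_absNorm_le P)
  have h1 : absNorm K = absNorm P := by
    have h3 := congrArg absNorm hK
    rw [absNorm_span_natCast, RingOfIntegers.rank, h2, map_mul, sq] at h3
    exact (Nat.eq_of_mul_eq_mul_left hq.pos h3).symm
  have h3 : K.IsPrime := isPrime_of_irreducible_absNorm (h1 ▸ hq)
  have h4 : K ≠ ⊥ := fun h5 => by
    rw [h5, absNorm_bot] at h1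
    exact hq.ne_zero h1.symm
  have h5 : K.IsMaximal := h3.isMaximal h4
  have h6 : P * K ≤ P' := hK ▸ (span_singleton_le_iff_mem _).mpr h
  rcases hP'.isPrime.mul_le.mp h6 with h7 | h7
  · have h8 := hP.eq_of_le hP'.ne_top h7
    exact ⟨h8 ▸ rfl, fun h9 => absurd h8.symm h9⟩
  · have h8 := h5.eq_of_le hP'.ne_top h7
    exact ⟨h8 ▸ h1, fun _ => h8 ▸ hK.symm⟩

end series

section galois

variable {F Ω : Type} [Field F] [Field Ω] [NumberField F] [NumberField Ω] [Algebra F Ω]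
  [IsGalois ℚ Ω]

/-- A prime of degree one whose Frobenius element is a nontrivial power of `g`. -/
theorem exists_Q (hG : GEN) {g : Gal(Ω/ℚ)} (hg : g ∈ fixSub ℚ F Ω) (h1 : g ≠ 1) {N : ℕ}
    (hN : N ≠ 0) : ∃ Q : Ideal (𝓞 Ω), Q.IsMaximal ∧ (N : 𝓞 Ω) ∉ Q ∧
      (absNorm (Q.under (𝓞 F))).Prime ∧ ∃ h ∈ Subgroup.zpowers g, h ≠ 1 ∧
        ∀ z : 𝓞 Ω, h • z - z ^ absNorm (Q.under (𝓞 F)) ∈ Q := by
  obtain ⟨M, _, _, -, _, _, -, _, hM⟩ := exists_field (Subgroup.zpowers g) F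
    (Subgroup.zpowers_le.mpr hg)
  have : IsGalois M Ω := IsGalois.tower_top_of_isGalois ℚ M Ω
  have h2 : (⊥ : Subgroup Gal(Ω/M)) ≠ ⊤ := fun h => by
    have h3 : toAut g (hM ▸ Subgroup.mem_zpowers g) ∈ (⊥ : Subgroup Gal(Ω/M)) :=
      h ▸ Subgroup.mem_top _
    rw [Subgroup.mem_bot] at h3
    exact h1 (AlgEquiv.ext fun x => DFunLike.congr_fun h3 x)
  have h3 := mt (hG M Ω ⊥ N hN) h2
  push Not at h3
  obtain ⟨Q, hQ, hNQ, hp, σ, hσ, hσ1⟩ := h3
  have h4 : absNorm (Q.under (𝓞 F)) = absNorm (Q.under (𝓞 M)) := by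
    have h5 : absNorm (Q.under (𝓞 F)) ∣ absNorm (Q.under (𝓞 M)) := by
      rw [← Ideal.under_under (A := 𝓞 F) (B := 𝓞 M) Q]
      exact AddSubgroup.card_dvd_of_injective
        (quotientMap (Q.under (𝓞 M)) (algebraMap (𝓞 F) (𝓞 M)) le_rfl).toAddMonoidHom
        quotientMap_injective
    refine ((Nat.dvd_prime hp).mp h5).resolve_left fun h6 => ?_
    rw [absNorm_eq_one_iff] at h6
    exact (inferInstance : (Q.under (𝓞 F)).IsMaximal).ne_top h6
  refine ⟨Q, hQ, hNQ, h4 ▸ hp, σ.restrictScalars ℚ, hM ▸ fun y => σ.commutes y, fun h => ?_,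
    fun z => h4 ▸ hσ z⟩
  exact hσ1 (Subgroup.mem_bot.mpr (AlgEquiv.ext fun x => DFunLike.congr_fun h x))

theorem frob_zeta {Q : Ideal (𝓞 Ω)} {σ : Gal(Ω/F)} (h : IsFrob Q σ) {ζ : Ω} {m : ℕ} (hm : m ≠ 0)
    (hζ : IsPrimitiveRoot ζ m) (hQ : (m : 𝓞 Ω) ∉ Q) :
    σ ζ = ζ ^ absNorm (Q.under (𝓞 F)) := by
  have : NeZero m := ⟨hm⟩
  have : IsGalois F Ω := IsGalois.tower_top_of_isGalois ℚ F Ω
  have h1 : (MulSemiringAction.toAlgHom (𝓞 F) (𝓞 Ω) σ).IsArithFrobAt Q := h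
  have h2 := h1.apply_of_pow_eq_one hζ.toInteger_isPrimitiveRoot.pow_eq_one hQ
  exact congrArg (fun x : 𝓞 Ω => (x : Ω)) h2

omit [NumberField F] [NumberField Ω] [IsGalois ℚ Ω] in
theorem autToPow_eq {σ : Gal(Ω/F)} {ζ : Ω} {m n : ℕ} [NeZero m] (hζ : IsPrimitiveRoot ζ m)
    (h : σ ζ = ζ ^ n) : (hζ.autToPow F σ : ZMod m) = n := by
  rw [← hζ.autToPow_spec F σ, (hζ.isOfFinOrder (NeZero.ne m)).pow_eq_pow_iff_modEq,
    ← hζ.eq_orderOf, ← ZMod.natCast_eq_natCast_iff, ZMod.natCast_zmod_val] at h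
  exact h

omit [IsGalois ℚ Ω] in
/-- The final algebraic step. -/
theorem pow_eq {φ : Ω →+* ℂ} {g c : Gal(Ω/ℚ)} (hc : IsConj φ c) (h3 : g ^ 3 = 1)
    (hcg : g * c * g = c) {β β' : Ω} (h0 : β' ≠ 0) (h1 : ‖φ β'‖ = ‖φ β‖ ^ 3)
    (h2 : ‖φ (g β')‖ = ‖φ (g β)‖ ^ 3) {n : ℕ} (hb : (β * g β * g (g β)) ^ n = 1)
    (hb' : (β' * g β' * g (g β')) ^ n = 1) : β ^ (9 * n) = β' ^ (3 * n) := by
  obtain ⟨z, hz⟩ : ∃ z, z = β ^ 3 / β' := ⟨_, rfl⟩
  have key : ∀ x : Ω, ‖φ x‖ = 1 → c x * x = 1 := fun x hx => by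
    apply φ.injective
    rw [map_mul, hc.eq, map_one, RCLike.star_def, Complex.conj_mul', hx]
    simp
  have e0 : ‖φ β'‖ ≠ 0 := by simpa using h0
  have e0' : ‖φ (g β')‖ ≠ 0 := by simpa using h0
  have e1 : c z * z = 1 := key z (by
    rw [hz, map_div₀, map_pow, norm_div, norm_pow, ← h1, div_self e0])
  have e2 : c (g z) * g z = 1 := key _ (by
    rw [hz, map_div₀, map_pow, map_div₀, map_pow, norm_div, norm_pow, ← h2, div_self e0'])
  have e3 : c z * g (g z) = 1 := by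
    have := congrArg g e2
    rwa [map_mul, map_one, ← AlgEquiv.mul_apply, ← AlgEquiv.mul_apply, hcg] at this
  have e4 : g (g z) = z := mul_left_cancel₀ (left_ne_zero_of_mul_eq_one e1) (e3.trans e1.symm)
  have e5 : g z = z := by
    have := congrArg g e4
    rw [← AlgEquiv.mul_apply, ← AlgEquiv.mul_apply, ← pow_three', h3] at this
    exact this.symm
  have e6 : z ^ 3 * (β' * g β' * g (g β')) = (β * g β * g (g β)) ^ 3 := by
    have f1 : z * β' = β ^ 3 := by rw [hz, div_mul_cancel₀ _ h0]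
    have f2 := congrArg g f1
    have f3 := congrArg g f2
    simp only [map_mul, map_pow, e5] at f2 f3
    rw [mul_pow, mul_pow, ← f1, ← f2, ← f3]
    ring
  have e7 : z ^ (3 * n) = 1 := by
    have := congrArg (· ^ n) e6
    simp only [mul_pow (z ^ 3), hb', mul_one] at this
    rw [pow_mul, this, pow_right_comm, hb, one_pow]
  rw [hz, div_pow, div_eq_one_iff_eq (pow_ne_zero _ h0), ← pow_mul] at e7
  rw [← e7]
  congr 1
  ring

end galois

theorem norm_cube {x y : ℝ} (hx : 0 < x) (hy : 0 < y)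
    (h : (-(Real.log (x ^ 2) : ℝ) : ℂ) = -(Real.log (y ^ 2) : ℝ) * 3) : x = y ^ 3 := by
  have h1 : -Real.log (x ^ 2) = -Real.log (y ^ 2) * 3 := by exact_mod_cast h
  refine Real.log_injOn_pos (mem_Ioi.mpr hx) (mem_Ioi.mpr (by positivity)) ?_
  simp only [Real.log_pow] at h1 ⊢
  push_cast at h1 ⊢
  linarith

end Unit

open _root_.Pool.Agent.P.MP_29cb78_nt.C.Unit in
theorem unit_beta : DIRI → BAS → GEN → BETA → RMV → CUNIQ → SYM → UNIT := by
  intro _ hB hG hBe hR hU _ k F Ω _ _ _ _ _ _ _ _ _ ζ φ Ψ g c m N A hC hm hζ hN hmN hA hF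
  have : NeZero m := ⟨by omega⟩
  have := hC.tc
  have hN3 : 3 ≤ N := hm.trans (Nat.le_of_dvd (Nat.pos_of_ne_zero hN) hmN)
  have hmem : ∀ σ : Gal(Ω/F), σ.restrictScalars ℚ ∈ fixSub ℚ F Ω := fun σ y => σ.commutes y
  let χ : Gal(Ω/F) →* ℂ :=
    { toFun := fun σ => Ψ (σ.restrictScalars ℚ)
      map_one' := hC.char.one
      map_mul' := fun σ τ => hC.char.mul _ (hmem σ) _ (hmem τ) }
  let r : Gal(Ω/F) →* ℂ × ZMod m := χ.prod ((Units.coeHom (ZMod m)).comp (hζ.autToPow F))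
  let a : Ideal (𝓞 F) →* ℂ × ZMod m :=
    A.prod ((Nat.castRingHom (ZMod m)).toMonoidHom.comp absNorm.toMonoidHom)
  have ha : ∀ I, a I = (A I, (absNorm I : ZMod m)) := fun _ => rfl
  have hr : ∀ σ, r σ = (Ψ (σ.restrictScalars ℚ), (hζ.autToPow F σ : ZMod m)) := fun _ => rfl
  have hRay : ∀ n, N ∣ n → Ray n a := fun n hn α h0 h1 => by
    rw [mem_span_singleton] at h1
    rw [ha, hA α h0 (mem_span_singleton.mpr ((Nat.cast_dvd_cast hn).trans h1)),
      (hB F (φ.comp (algebraMap F Ω)) hC.h2).2.2.2.1 m α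
        (mem_span_singleton.mpr ((Nat.cast_dvd_cast (hmN.trans hn)).trans h1))]
    rfl
  have hFr : ∀ n, N ∣ n → FrobChar n r a := fun n hn Q hQ h σ hσ => by
    rw [ha, hr, hF Q hQ (fun h' => h (Q.mem_of_dvd (Nat.cast_dvd_cast hn) h')) σ hσ,
      autToPow_eq hζ (frob_zeta hσ (NeZero.ne m) hζ
        fun h' => h (Q.mem_of_dvd (Nat.cast_dvd_cast (hmN.trans hn)) h'))]
  have hg1 : g ≠ 1 := fun h => hC.gne (h ▸ hC.char.one)
  have hcg : c * g * c⁻¹ = g⁻¹ := by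
    have h1 := hC.anti c hC.cF g hC.gF
    have h2 : c * g * c⁻¹ ∈ fixSub ℚ F Ω := by
      by_contra h
      rw [hC.char.zero _ h, zero_mul] at h1
      exact zero_ne_one h1
    refine eq_inv_of_mul_eq_one_left (hC.inj _ (Subgroup.mul_mem _ h2 hC.gF) ?_ ?_)
    · rw [hC.char.mul _ h2 _ hC.gF, h1]
    · rw [AlgEquiv.mul_apply, hC.gζ, AlgEquiv.mul_apply, AlgEquiv.mul_apply,
        ← hζ.autToPow_spec ℚ c⁻¹, map_pow, hC.gζ, hζ.autToPow_spec ℚ c⁻¹, ← AlgEquiv.mul_apply,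
        mul_inv_cancel, AlgEquiv.one_apply]
  have hg3 : toAut g hC.gF ^ 3 = 1 := AlgEquiv.ext fun x => by
    have := DFunLike.congr_fun hC.g3 x
    rw [pow_three'] at this ⊢
    exact this
  have ht : r (toAut g hC.gF) * r (toAut g hC.gF) * r (toAut g hC.gF) = 1 := by
    rw [← map_mul, ← map_mul, ← pow_three', hg3, map_one]
  have hgg : g⁻¹ = g * g := by
    rw [inv_eq_iff_mul_eq_one, ← mul_assoc, ← pow_three', hC.g3]
  -- the two primes
  obtain ⟨q, P, P', hq, hqN, hP, hP', hNP, hNP', hn, hn', hmul, h1, h2⟩ :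
      ∃ (q : ℕ) (P P' : Ideal (𝓞 F)), q.Prime ∧ ¬ q ∣ N ∧ P.IsMaximal ∧ P'.IsMaximal ∧
        (N : 𝓞 F) ∉ P ∧ (N : 𝓞 F) ∉ P' ∧ absNorm P = q ∧ absNorm P' = q ∧
        (P' ≠ P → P * P' = span {(q : 𝓞 F)}) ∧ a P = r (toAut g hC.gF) ∧
        a P' = r (toAut g hC.gF) * r (toAut g hC.gF) := by
    obtain ⟨Q, hQ, hNQ, hq, h, hh, hh1, hfr⟩ := exists_Q hG hC.gF hg1 hN
    have hQ' : (c • Q).IsMaximal := by rw [Ideal.pointwise_smul_eq_comap]; infer_instance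
    have hc : ∀ n : ℕ, (n : 𝓞 F) ∈ (c • Q).under (𝓞 F) ↔ (n : 𝓞 F) ∈ Q.under (𝓞 F) := fun n => by
      rw [Ideal.mem_under, Ideal.mem_under, map_natCast, Ideal.mem_pointwise_smul_iff_inv_smul_mem]
      exact Iff.of_eq (congrArg (· ∈ Q) (map_natCast (MulSemiringAction.toRingHom _ (𝓞 Ω) c⁻¹) n))
    have hNP : (N : 𝓞 F) ∉ Q.under (𝓞 F) := by rwa [Ideal.mem_under, map_natCast]
    have hNP' : (N : 𝓞 F) ∉ (c • Q).under (𝓞 F) := by rwa [hc]
    obtain ⟨s1, s2⟩ := split hC.h2 (Q.under (𝓞 F)) inferInstance hq ((c • Q).under (𝓞 F))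
      inferInstance ((hc _).mpr (absNorm_mem _))
    have hqN : ¬ absNorm (Q.under (𝓞 F)) ∣ N := fun h =>
      hNP (Ideal.mem_of_dvd _ (Nat.cast_dvd_cast h) (absNorm_mem _))
    have hhF : h ∈ fixSub ℚ F Ω := Subgroup.zpowers_le.mpr hC.gF hh
    have f1 : a (Q.under (𝓞 F)) = r (toAut h hhF) := hFr N dvd_rfl Q hQ hNQ _ hfr
    have f2 : ∀ h' (hh' : h' ∈ fixSub ℚ F Ω), c * h * c⁻¹ = h' →
        a ((c • Q).under (𝓞 F)) = r (toAut h' hh') := fun h' hh' e => by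
      refine hFr N dvd_rfl _ hQ' (by rwa [Ideal.mem_under, map_natCast] at hNP') _ fun z => ?_
      have e1 : toAut h' hh' • z = (c * h * c⁻¹) • z := by rw [e]; rfl
      rw [s1, e1, Ideal.mem_pointwise_smul_iff_inv_smul_mem, smul_sub, smul_pow', mul_smul,
        mul_smul, inv_smul_smul]
      exact hfr _
    obtain ⟨i, rfl⟩ := hh
    have hi : g ^ i = g ^ (i % 3) := zpow_eq_zpow_emod i (by exact_mod_cast hC.g3)
    have hgF2 := Subgroup.mul_mem _ hC.gF hC.gF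
    have e2 : r (toAut (g * g) hgF2) = r (toAut g hC.gF) * r (toAut g hC.gF) :=
      map_mul r (toAut g hC.gF) (toAut g hC.gF)
    rcases (by omega : i % 3 = 0 ∨ i % 3 = 1 ∨ i % 3 = 2) with h0 | h0 | h0
    · rw [h0, zpow_zero] at hi
      exact absurd hi hh1
    · rw [h0, zpow_one] at hi
      refine ⟨_, _, _, hq, hqN, inferInstance, inferInstance, hNP, hNP', rfl, s1, s2, ?_, ?_⟩
      · simp only [hi] at f1
        exact f1
      · rw [← e2]
        exact f2 _ _ (by simp only [hi, hcg, hgg])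
    · rw [h0, zpow_two] at hi
      refine ⟨_, _, _, hq, hqN, inferInstance, inferInstance, hNP', hNP, s1, rfl,
        fun h => by rw [mul_comm, s2 h.symm], ?_, ?_⟩
      · refine f2 _ _ ?_
        simp only [hi]
        rw [← hgg, ← inv_inj, mul_inv_rev, mul_inv_rev, inv_inv, inv_inv, ← mul_assoc, hcg]
      · simp only [hi] at f1
        rw [f1, e2]
  have hne : P' ≠ P := fun h => by
    rw [h, h1] at h2
    have h3 : Ψ g = Ψ g * Ψ g := congrArg Prod.fst h2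
    have h4 := hC.cube g hC.gF
    exact hC.gne (by linear_combination (1 + Ψ g) * h3 + h4)
  have hpp : ¬ IsPrimePow (N * q) := fun h => by
    have h3 := hq.two_le
    rcases (((Nat.Prime.coprime_iff_not_dvd hq).mpr hqN).symm.isPrimePow_dvd_mul h).mp dvd_rfl
      with h4 | h4
    · have := Nat.le_of_dvd (by omega) h4
      nlinarith
    · have := Nat.le_of_dvd (by omega) h4
      nlinarith
  obtain ⟨x, y, hxy⟩ := hC.comm
  obtain ⟨β, b0, -, b2, b3⟩ := hBe F Ω _ φ N a r (toAut g hC.gF) x y hC.h2 hN3 (hRay N dvd_rfl)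
    (hFr N dvd_rfl) fun t => by rw [toAut_apply, hxy]
  obtain ⟨β', c0, c1, c2, c3⟩ := hBe F Ω _ φ (N * q) a r (toAut g hC.gF) x y hC.h2
    (hN3.trans (Nat.le_mul_of_pos_right _ hq.pos)) (hRay _ (dvd_mul_right _ _))
    (hFr _ (dvd_mul_right _ _)) fun t => by rw [toAut_apply, hxy]
  have hcube : ∀ ρ : Gal(Ω/F), ‖φ (ρ β')‖ = ‖φ (ρ β)‖ ^ 3 := fun ρ => by
    have hq0 : (q : ℂ) ≠ 0 := Nat.cast_ne_zero.mpr hq.ne_zero
    have hd : Differentiable ℂ fun s : ℂ => (q : ℂ) ^ (-s) :=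
      differentiable_id.neg.const_cpow (Or.inl hq0)
    have h3 := ((b3 ρ).mul_entire
      (E := fun s => 1 + (q : ℂ) ^ (-s) + (q : ℂ) ^ (-s) * (q : ℂ) ^ (-s))
      (((differentiable_const 1).add hd).add (hd.mul hd))).congr
      (fun s hs => (rmv3 hR a N q P P' hP hP' hne hNP hNP' hn hn' (hmul hne) ht h1 h2 (r ρ)
        hs).symm) rfl
    refine norm_cube (by simpa using c0) (by simpa using b0) ((hU _ _ _ (c3 ρ) h3).trans ?_)
    simp only [neg_zero, Complex.cpow_zero]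
    ring
  have hprod : ∀ t : Ω, ∏ i ∈ Finset.range 3, (toAut g hC.gF ^ i) t = t * g t * g (g t) :=
    fun t => by
      simp only [Finset.prod_range_succ, Finset.prod_range_zero, one_mul, pow_zero, pow_one, sq]
      rfl
  have b4 := b2 3 hg3
  have c4 := c2 3 hg3
  rw [hprod] at b4 c4
  have hpow := pow_eq hC.cj hC.g3 (β := β) (β' := β')
    (by rw [mul_assoc, mul_inv_eq_iff_eq_mul.mp hcg, mul_inv_cancel_left]) c0
    (hcube 1) (hcube (toAut g hC.gF)) (n := 24 * (N * q))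
    (by rw [← mul_assoc, pow_mul, b4, one_pow]) c4
  have hpos : 0 < 9 * (24 * (N * q)) := by
    have := hq.pos
    positivity
  have i1 : IsIntegral ℤ β := IsIntegral.of_pow hpos (hpow ▸ (c1 hpp).1.pow _)
  have i2 : IsIntegral ℤ β⁻¹ := IsIntegral.of_pow hpos (by
    rw [inv_pow, hpow, ← inv_pow]
    exact (c1 hpp).2.pow _)
  refine ⟨⟨⟨β, i1⟩, ⟨β⁻¹, i2⟩, RingOfIntegers.ext (mul_inv_cancel₀ b0),
    RingOfIntegers.ext (inv_mul_cancel₀ b0)⟩, fun ρ hρ u hu => ?_⟩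
  have h3 := b3 (toAut ρ hρ)
  have h4 : r (toAut ρ hρ) = (Ψ ρ, u) := by
    rw [hr, autToPow_eq hζ (σ := toAut ρ hρ) (n := u.val) hu, ZMod.natCast_zmod_val]
    rfl
  have h5 : r (toAut g hC.gF) = (Ψ g, 1) := by
    rw [hr, autToPow_eq hζ (n := 1) (by rw [pow_one]; exact hC.gζ), Nat.cast_one]
    rfl
  rw [h4, h5, Prod.mk_mul_mk, mul_one] at h3
  simp only [fz, ha, Prod.mk.injEq] at h3
  exact h3

end

end Pool.Agent.P.MP_29cb78_nt.C
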