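import Pool.Agent.P.MP_29cb78_nt.C.Iface

/-! Zeta functions of ray classes of imaginary quadratic fields as Epstein zeta functions. -/

namespace Pool.Agent.P.MP_29cb78_nt.C

open NumberField Ideal Filter Topology
open scoped Classical Real

namespace Zray

theorem res_mul {e : ℝ → ℂ} {R q : ℝ} (hq : 0 < q)
    (h : ∃ C : ℝ, ∀ᶠ s : ℝ in 𝓝[>] 1, ‖e s - ((R / (s - 1) : ℝ) : ℂ)‖ ≤ C) :
    ∃ C : ℝ, ∀ᶠ s : ℝ in 𝓝[>] 1,
      ‖e s * (q : ℂ) ^ (s : ℂ) - ((R * q / (s - 1) : ℝ) : ℂ)‖ ≤ C := by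
  obtain ⟨C, hC⟩ := h
  have hd : HasDerivAt (fun s : ℝ => q ^ s) (q ^ (1 : ℝ) * Real.log q) 1 :=
    (Real.hasStrictDerivAt_const_rpow hq 1).hasDerivAt
  obtain ⟨D, hD⟩ := hd.isBigO_sub.bound
  have hb : ∀ᶠ s : ℝ in 𝓝 1, q ^ s < q + 1 :=
    hd.continuousAt.eventually_lt continuousAt_const (by simp)
  refine ⟨C * (q + 1) + |R| * D, ?_⟩
  filter_upwards [hC, nhdsWithin_le_nhds hD, nhdsWithin_le_nhds hb, self_mem_nhdsWithin]
    with s h1 h2 h3 h4
  have hs : 0 < s - 1 := sub_pos.2 h4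
  have hqs : 0 < q ^ s := Real.rpow_pos_of_pos hq s
  have e1 : e s * (q : ℂ) ^ (s : ℂ) - ((R * q / (s - 1) : ℝ) : ℂ) =
      (e s - ((R / (s - 1) : ℝ) : ℂ)) * ((q ^ s : ℝ) : ℂ) +
        ((R * ((q ^ s - q) / (s - 1)) : ℝ) : ℂ) := by
    rw [← Complex.ofReal_cpow hq.le]
    push_cast
    ring
  rw [e1]
  refine (norm_add_le _ _).trans (add_le_add ?_ ?_)
  · rw [norm_mul, Complex.norm_real, Real.norm_of_nonneg hqs.le]
    exact mul_le_mul h1 h3.le hqs.le ((norm_nonneg _).trans h1)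
  · rw [Complex.norm_real, norm_mul, Real.norm_eq_abs R]
    refine mul_le_mul_of_nonneg_left ?_ (abs_nonneg R)
    rw [norm_div, div_le_iff₀ (norm_pos_iff.2 hs.ne')]
    simpa using h2

theorem ori_ne {W : Fin 2 → ℂ} (h : Ori W) : W 1 ≠ 0 := by
  intro h0
  simp [Ori, h0] at h

theorem ori_ind {W : Fin 2 → ℂ} (h : Ori W) {p q : ℤ} (h0 : p * W 0 + q * W 1 = 0) :
    p = 0 ∧ q = 0 := by
  have h1 := ori_ne h
  have h2 : p * (W 0 / W 1) + q = 0 := by
    field_simp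
    linear_combination h0
  have h3 := congrArg Complex.im h2
  simp only [Complex.add_im, Complex.mul_im, Complex.intCast_re, Complex.intCast_im, zero_mul,
    add_zero, Complex.zero_im] at h3
  have hp : p = 0 := by exact_mod_cast (mul_eq_zero.1 h3).resolve_right (ne_of_gt h)
  rw [hp] at h2
  exact ⟨hp, by simpa using h2⟩

/-- The covolume. -/
noncomputable def cov (W : Fin 2 → ℂ) : ℝ := ‖W 1‖ ^ 2 * (W 0 / W 1).im

theorem cov_eq {W : Fin 2 → ℂ} (h : W 1 ≠ 0) :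
    cov W = (W 0).im * (W 1).re - (W 0).re * (W 1).im := by
  have h1 : Complex.normSq (W 1) ≠ 0 := by simpa using h
  rw [cov, Complex.div_im, Complex.sq_norm]
  field_simp

variable {F : Type} [Field F] [NumberField F]

theorem main (φ : F →+* ℂ) {N : ℕ} (hN : 3 ≤ N)
    (h3 : ∀ α : 𝓞 F, (absNorm (span {α}) : ℝ) = ‖φ α‖ ^ 2)
    (h5 : ∀ u : (𝓞 F)ˣ, (u : 𝓞 F) - 1 ∈ span {(N : 𝓞 F)} → u = 1)
    {c : Ideal (𝓞 F)} {z : 𝓞 F} {w : Fin 2 → 𝓞 F} {b : Fin 2 → ℤ} (hc : Cop N c) (hz : z ∈ c)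
    (hz1 : z - 1 ∈ span {(N : 𝓞 F)}) (hw : IsBas φ c w) (hb : z = b 0 * w 0 + b 1 * w 1) :
    (∀ s : ℂ, rz N c s = epst (b 0 / N) (b 1 / N) (fun i => N * φ (w i)) s *
      ((absNorm c : ℝ) : ℂ) ^ s) ∧
    ¬ ((∃ m : ℤ, (b 0 / N : ℝ) = m) ∧ ∃ n : ℤ, (b 1 / N : ℝ) = n) := by
  have hN0 : (N : 𝓞 F) ≠ 0 := by exact_mod_cast (show N ≠ 0 by omega)
  have hNR : (N : ℝ) ≠ 0 := by exact_mod_cast (show N ≠ 0 by omega)
  have hNC : (N : ℂ) ≠ 0 := by exact_mod_cast (show N ≠ 0 by omega)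
  have hne : ∀ x : 𝓞 F, x - 1 ∈ span {(N : 𝓞 F)} → x ∉ span {(N : 𝓞 F)} := by
    intro x h1 h2
    have h4 : (1 : 𝓞 F) ∈ span {(N : 𝓞 F)} := by simpa using sub_mem h2 h1
    have h6 := h5 (-1) ((eq_top_iff_one _).2 h4 ▸ Submodule.mem_top)
    have h7 : (-1 : 𝓞 F) = 1 := congrArg Units.val h6
    norm_num at h7
  refine ⟨fun s => ?_, ?_⟩
  swap
  · rintro ⟨⟨m, hm⟩, n, hn⟩
    rw [div_eq_iff hNR] at hm hn
    have hm' : b 0 = m * N := by exact_mod_cast hm
    have hn' : b 1 = n * N := by exact_mod_cast hn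
    refine hne z hz1 (mem_span_singleton.2 ⟨m * w 0 + n * w 1, ?_⟩)
    rw [hb, hm', hn']
    push_cast
    ring
  set x : ℤ × ℤ → 𝓞 F := fun m => z + N * (m.1 * w 0 + m.2 * w 1) with hx
  have hxc : ∀ m, x m ∈ c := fun m =>
    c.add_mem hz (c.mul_mem_left _ ((hw.2 _).2 ⟨m.1, m.2, rfl⟩))
  have hx1 : ∀ m, x m - 1 ∈ span {(N : 𝓞 F)} := fun m => by
    have := add_mem hz1 (mul_mem_right (m.1 * w 0 + m.2 * w 1) _ (mem_span_singleton_self (N : 𝓞 F)))
    convert this using 1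
    simp only [hx]
    ring
  have hx0 : ∀ m, x m ≠ 0 := fun m h => hne _ (hx1 m) (h ▸ zero_mem _)
  have hdvd : ∀ m, ∃ I, span {x m} = c * I := fun m =>
    dvd_iff_le.2 ((span_singleton_le_iff_mem _).2 (hxc m))
  choose g hg using hdvd
  have hinj : Function.Injective g := by
    intro m m' h
    have h1 : span {x m} = span {x m'} := by rw [hg, hg, h]
    obtain ⟨u, hu⟩ := span_singleton_eq_span_singleton.1 h1
    have h2 : u = 1 := h5 u (by
      have := sub_mem (hx1 m') (mul_mem_right (u : 𝓞 F) _ (hx1 m))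
      convert this using 1
      rw [← hu]
      ring)
    rw [h2, Units.val_one, mul_one] at hu
    have h4 : ((m.1 - m'.1 : ℤ) : 𝓞 F) * w 0 + ((m.2 - m'.2 : ℤ) : 𝓞 F) * w 1 = 0 := by
      apply mul_left_cancel₀ hN0
      simp only [hx] at hu
      push_cast
      linear_combination hu
    have h6 := congrArg (fun y : 𝓞 F => φ y) h4
    simp only [map_add, map_mul, map_intCast, map_zero] at h6
    have h7 := ori_ind hw.1 h6
    exact Prod.ext (by omega) (by omega)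
  have hgood : ∀ m, Cop N (g m) ∧ RayEq N (g m * c) 1 := by
    intro m
    refine ⟨⟨fun h => hx0 m ?_, ?_⟩, 1, x m, one_ne_zero, hx0 m, by simp, hx1 m, ?_⟩
    · rw [← span_singleton_eq_bot, hg, h, Ideal.mul_bot]
    · have h1 : IsCoprime (span {x m}) (span {(N : 𝓞 F)}) := by
        obtain ⟨t, ht⟩ := mem_span_singleton.1 (hx1 m)
        exact (isCoprime_span_singleton_iff _ _).2 ⟨1, -t, by linear_combination ht⟩
      rw [hg] at h1
      exact h1.of_mul_left_right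
    · rw [hg, span_singleton_one, top_mul, mul_one, mul_comm]
  have hsurj : ∀ I, Cop N I ∧ RayEq N (I * c) 1 → I ∈ Set.range g := by
    rintro I ⟨-, α, β, hα, -, hα1, hβ1, he⟩
    rw [mul_one] at he
    obtain ⟨y, rfl⟩ : α ∣ β := by
      rw [← span_singleton_le_span_singleton, ← he]
      exact mul_le_left
    rw [← span_singleton_mul_span_singleton] at he
    have h1 : I * c = span {y} :=
      mul_left_cancel₀ (fun h => hα (span_singleton_eq_bot.1 h)) he
    have hy1 : y - 1 ∈ span {(N : 𝓞 F)} := by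
      have := sub_mem hβ1 (mul_mem_right y _ hα1)
      convert this using 1
      ring
    have hyc : y ∈ c := by
      rw [← span_singleton_le_iff_mem, ← h1]
      exact mul_le_right
    obtain ⟨t, ht⟩ := mem_span_singleton.1 hz1
    obtain ⟨t', ht'⟩ := mem_span_singleton.1 hy1
    have hr : t' - t ∈ c := by
      have := sub_mem (c.mul_mem_left (t' - t) hz) (c.mul_mem_left t (sub_mem hyc hz))
      convert this using 1
      linear_combination (t - t') * ht + t * ht' - t * ht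
    obtain ⟨m, n, hmn⟩ := (hw.2 _).1 hr
    have hyx : x (m, n) = y := by
      simp only [hx]
      rw [← hmn]
      linear_combination ht - ht'
    refine ⟨(m, n), mul_left_cancel₀ hc.1 ?_⟩
    rw [← hg, hyx, ← h1, mul_comm]
  have hcN : (0 : ℝ) < absNorm c := by
    have := absNorm_eq_zero_iff.not.2 hc.1
    positivity
  rw [rz, Lser, ← hinj.tsum_eq, epst, ← tsum_mul_right]
  · refine tsum_congr fun m => ?_
    rw [if_pos (hgood m), one_mul]
    have h1 : (absNorm c : ℝ) * absNorm (g m) = ‖φ (x m)‖ ^ 2 := by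
      rw [← h3, hg, map_mul]
      push_cast
      rfl
    have h2 : (((b 0 / N : ℝ) : ℂ) + m.1) * (N * φ (w 0)) + (((b 1 / N : ℝ) : ℂ) + m.2) *
        (N * φ (w 1)) = φ (x m) := by
      simp only [hx, hb, map_add, map_mul, map_intCast, map_natCast]
      push_cast
      field_simp
      ring
    rw [h2, ← h1, Complex.ofReal_mul, Complex.mul_cpow_ofReal_nonneg hcN.le (Nat.cast_nonneg _),
      mul_right_comm, ← Complex.cpow_add _ _ (by exact_mod_cast hcN.ne')]
    simp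
  · intro I hI
    refine hsurj I ?_
    by_contra h
    exact hI (by simp only [if_neg h, zero_mul])

end Zray

open Zray in
theorem zray : DIRI → BAS → KLF → ZRAY := by
  intro _ hB hK F _ _ _ φ N h2 hN
  obtain ⟨b1, b2, b3, -, b5, -⟩ := hB F φ h2
  have hNC : (N : ℂ) ≠ 0 := by exact_mod_cast (show N ≠ 0 by omega)
  have hq : ∀ w : Fin 2 → 𝓞 F, (N * φ (w 0) : ℂ) / (N * φ (w 1)) = φ (w 0) / φ (w 1) :=
    fun w => mul_div_mul_left _ _ hNC
  have hO : ∀ w : Fin 2 → 𝓞 F, Ori (fun i => φ (w i)) → Ori (fun i => N * φ (w i)) := by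
    intro w h
    unfold Ori
    rw [hq]
    exact h
  have hpos : ∀ c : Ideal (𝓞 F), Cop N c → (0 : ℝ) < absNorm c := by
    intro c hc
    have := absNorm_eq_zero_iff.not.2 hc.1
    positivity
  constructor
  · intro c z w b hc hz hz1 hw hb
    obtain ⟨m1, m2⟩ := main φ hN b3 (fun u => b5 N u hN) hc hz hz1 hw hb
    have h1 := (hK _ _ _ (hO w hw.1) m2).1
    have h3 : Differentiable ℂ fun s : ℂ => ((absNorm c : ℝ) : ℂ) ^ s :=
      differentiable_id.const_cpow (Or.inl (by exact_mod_cast (hpos c hc).ne'))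
    refine (h1.mul_entire h3).congr (fun s _ => (m1 s).symm) ?_
    rw [Complex.cpow_zero, mul_one, hq]
    rfl
  · obtain ⟨v, hv⟩ := b1 ⊤ top_ne_bot
    refine ⟨π / ((N : ℝ) ^ 2 * cov fun i => φ (v i)), fun c hc => ?_⟩
    obtain ⟨z, hz, t, ht, hzt⟩ := isCoprime_iff_exists.1 hc.2
    have hz1 : z - 1 ∈ span {(N : 𝓞 F)} := by
      rw [← hzt]
      simpa using ht
    obtain ⟨w, hw⟩ := b1 c hc.1
    obtain ⟨m, n, hmn⟩ := (hw.2 z).1 hz
    obtain ⟨m1, m2⟩ := main φ hN b3 (fun u => b5 N u hN) (b := ![m, n]) hc hz hz1 hw hmn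
    have h1 := res_mul (hpos c hc) (hK _ _ _ (hO w hw.1) m2).2
    obtain ⟨A, hA, hdet⟩ := b2 ⊤ c v w hv hw le_top
    have h3 : cov (fun i => φ (w i)) = absNorm c * cov fun i => φ (v i) := by
      have h4 : (absNorm c : ℝ) = A 0 0 * A 1 1 - A 0 1 * A 1 0 := by
        rw [absNorm_top, Matrix.det_fin_two, Nat.cast_one, mul_one] at hdet
        exact_mod_cast hdet.symm
      rw [cov_eq (ori_ne hw.1), cov_eq (ori_ne hv.1), h4, hA 0, hA 1]
      simp only [map_add, map_mul, map_intCast, Complex.add_im, Complex.add_re, Complex.mul_im,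
        Complex.mul_re, Complex.intCast_re, Complex.intCast_im]
      ring
    have h5 : π / (‖(N * φ (w 1) : ℂ)‖ ^ 2 * ((N * φ (w 0) : ℂ) / (N * φ (w 1))).im) *
        absNorm c = π / ((N : ℝ) ^ 2 * cov fun i => φ (v i)) := by
      have h6 := (hpos c hc).ne'
      rw [hq, norm_mul, mul_pow, mul_assoc, Complex.norm_natCast]
      change π / ((N : ℝ) ^ 2 * cov fun i => φ (w i)) * _ = _
      rw [h3, mul_left_comm, ← div_div, div_right_comm, div_mul_cancel₀ _ h6]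
    rw [h5] at h1
    simpa only [m1] using h1

end Pool.Agent.P.MP_29cb78_nt.C
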