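import Pool.Agent.P.MP_29cb78_nt.C.Final
import Pool.Agent.P.MP_29cb78_nt.All
import Pool.Agent.P.MP_29cb78_nt.C.Ray
import Pool.Agent.P.MP_29cb78_nt.C.Dens
import Pool.Agent.P.MP_29cb78_nt.C.Gen
import Pool.Agent.P.MP_29cb78_nt.C.Sgt
import Pool.Agent.P.MP_29cb78_nt.C.Sgm
import Pool.Agent.P.MP_29cb78_nt.C.Klfa
import Pool.Agent.P.MP_29cb78_nt.C.Klfb
import Pool.Agent.P.MP_29cb78_nt.C.Klf
import Pool.Agent.P.MP_29cb78_nt.C.Qapi
import Pool.Agent.P.MP_29cb78_nt.C.Prod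
import Pool.Agent.P.MP_29cb78_nt.C.Polyj
import Pool.Agent.P.MP_29cb78_nt.C.Key
import Pool.Agent.P.MP_29cb78_nt.C.Sgq
import Pool.Agent.P.MP_29cb78_nt.C.Jint
import Pool.Agent.P.MP_29cb78_nt.C.Phi
import Pool.Agent.P.MP_29cb78_nt.C.Cmf
import Pool.Agent.P.MP_29cb78_nt.C.Bas
import Pool.Agent.P.MP_29cb78_nt.C.Zray
import Pool.Agent.P.MP_29cb78_nt.C.Lam
import Pool.Agent.P.MP_29cb78_nt.C.Beta
import Pool.Agent.P.MP_29cb78_nt.C.Si
import Pool.Agent.P.MP_29cb78_nt.C.Fil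
import Pool.Agent.P.MP_29cb78_nt.C.Chev
import Pool.Agent.P.MP_29cb78_nt.C.Fi0
import Pool.Agent.P.MP_29cb78_nt.C.Fi
import Pool.Agent.P.MP_29cb78_nt.C.Cross
import Pool.Agent.P.MP_29cb78_nt.C.Recip
import Pool.Agent.P.MP_29cb78_nt.C.Conv
import Pool.Agent.P.MP_29cb78_nt.C.Stick
import Pool.Agent.P.MP_29cb78_nt.C.Abel2
import Pool.Agent.P.MP_29cb78_nt.C.Setup
import Pool.Agent.P.MP_29cb78_nt.C.Ram
import Pool.Agent.P.MP_29cb78_nt.C.Unit
import Pool.Agent.P.MP_29cb78_nt.C.Cubeta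

/-!
All the pieces hold.
-/

namespace Pool.Agent.P.MP_29cb78_nt.C

theorem dens' : DENS := dens (euler diri)

theorem gen' : GEN := gen dens'

theorem sgm' : SGM := sgm latb sgt

theorem jq' : JQ := jq qapi prod_exp

theorem polyj' : POLYJ := polyj qapi jq' latb

theorem int' : INT := int_q qapi latb polyj'

theorem sgq' : SGQ := sgq qapi prod_exp sgt

theorem phi' : PHI := phi qapi jq' latb polyj' coset int'

theorem zray' : ZRAY := zray diri bas (klf sgt klfa klfb)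

theorem lam' : LAM :=
  lam chi latb sgm' bas (jint qapi jq' latb polyj' coset) phi'
    (cmf qapi latb sgm' sgq' coset phi' (key qapi latb int')) (gint chi qapi latb sgm' sgq' int')
    zray'

theorem beta' : BETA := beta diri ray lam' gen'

theorem fi' : FI := fi (fi0 ray fil chev)

theorem recip' : RECIP :=
  recip bas gen' fi' (nc2 gen') (cross dens' (si diri (euler diri) ray zray') fi')

theorem cubeta' : CUBETA :=
  cubeta diri cuniq recip' (ram artex pieces.artin) sym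
    (unit_beta diri bas gen' beta' (rmv diri) cuniq sym)

end Pool.Agent.P.MP_29cb78_nt.C
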