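import Pool.Agent.P.MP_29cb78_nt.C.Iface

/-!
Auxiliary facts on number fields and their primes.
-/

namespace Pool.Agent.P.MP_29cb78_nt.C

open NumberField Set Ideal
open scoped Classical

noncomputable section

namespace Beta

/-- A Galois number field inside `ℂ` that contains a given number field and given numbers. -/
theorem exists_field {Ω : Type} [Field Ω] [NumberField Ω] (φ : Ω →+* ℂ) (S : Set ℂ)
    (hS : S.Finite) (hI : ∀ z ∈ S, IsIntegral ℤ z) :
    ∃ (K : Type) (_ : Field K) (_ : NumberField K) (_ : Algebra Ω K) (_ : IsGalois ℚ K)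
      (ψ : K →+* ℂ), (∀ z, ψ (algebraMap Ω K z) = φ z) ∧ ∀ z ∈ S, ∃ w : 𝓞 K, ψ w = z := by
  obtain ⟨θ, hθ⟩ := Field.exists_primitive_element ℚ Ω
  let φ' : Ω →ₐ[ℚ] ℂ := φ.toRatAlgHom
  have hfin : Finite (insert (φ θ) S : Set ℂ) := (hS.insert _).to_subtype
  let E := IntermediateField.adjoin ℚ (insert (φ θ) S)
  have hE : FiniteDimensional ℚ E := by
    refine IntermediateField.finiteDimensional_adjoin fun z hz => ?_
    rcases hz with rfl | hz
    · exact (Algebra.IsIntegral.isIntegral (R := ℚ) θ).map φ'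
    · exact (hI z hz).tower_top
  let K := IntermediateField.normalClosure ℚ E ℂ
  have hN : IsNormalClosure ℚ E K :=
    Algebra.IsAlgebraic.isNormalClosure_normalClosure fun x => IsAlgClosed.splits _
  have hN' : Normal ℚ K := IsNormalClosure.normal (K := E)
  have hEK : E ≤ K := IntermediateField.le_normalClosure E
  have hK : NumberField K := {}
  have hφ : ∀ z, φ z ∈ K := fun z => by
    have h1 : z ∈ IntermediateField.adjoin ℚ {θ} := by rw [hθ]; trivial
    have h2 : φ' z ∈ (IntermediateField.adjoin ℚ {θ}).map φ' := ⟨z, h1, rfl⟩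
    rw [IntermediateField.adjoin_map, Set.image_singleton] at h2
    exact hEK (IntermediateField.adjoin.mono ℚ _ _ (by simp [φ']) h2)
  let a : Ω →+* K := φ.codRestrict K hφ
  refine ⟨K, inferInstance, hK, a.toAlgebra, {}, algebraMap K ℂ, fun z => rfl, fun z hz => ?_⟩
  have hz' : z ∈ K := hEK (IntermediateField.subset_adjoin ℚ _ (Set.mem_insert_of_mem _ hz))
  refine ⟨⟨⟨z, hz'⟩, ?_⟩, rfl⟩
  exact (isIntegral_algHom_iff (K.val.restrictScalars ℤ) K.val.injective).mp (hI z hz)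

variable {K : Type} [Field K] [NumberField K]

/-- Primes that do not contain any of finitely many nonzero elements. -/
theorem avoid (Z : Set (𝓞 K)) (hZ : Z.Finite) :
    ∃ D : ℕ, D ≠ 0 ∧ ∀ Q : Ideal (𝓞 K), (D : 𝓞 K) ∉ Q → ∀ z ∈ Z, z ∈ Q → z = 0 := by
  refine ⟨∏ z ∈ hZ.toFinset.erase 0, absNorm (span {z}), ?_, fun Q hQ z hz hzQ => ?_⟩
  · refine Finset.prod_ne_zero_iff.mpr fun z hz => ?_
    rw [Ne, absNorm_eq_zero_iff, span_singleton_eq_bot]
    exact Finset.ne_of_mem_erase hz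
  · by_contra h0
    apply hQ
    have h1 : z ∈ hZ.toFinset.erase 0 := Finset.mem_erase.mpr ⟨h0, hZ.mem_toFinset.mpr hz⟩
    rw [← Finset.mul_prod_erase _ _ h1, Nat.cast_mul]
    exact Q.mul_mem_right _ ((span_singleton_le_iff_mem _).mpr hzQ (absNorm_mem _))

/-- Almost all primes are unramified. -/
theorem unram : ∃ D : ℕ, D ≠ 0 ∧ ∀ p : Ideal (𝓞 K), (D : 𝓞 K) ∉ p → (absNorm p).Prime →
    (absNorm p : 𝓞 K) ∉ p ^ 2 := by
  refine ⟨absNorm (differentIdeal ℤ (𝓞 K)), ?_, fun p hp hpr h => hp ?_⟩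
  · rw [Ne, absNorm_eq_zero_iff]
    exact differentIdeal_ne_bot
  · have hp' : Prime (absNorm p : ℤ) := Nat.prime_iff_prime_int.mp hpr
    have h0 : span {(absNorm p : ℤ)} ≠ ⊥ := by simpa using hpr.ne_zero
    have : (span {(absNorm p : ℤ)}).IsMaximal :=
      ((span_singleton_prime hp'.ne_zero).mpr hp').isMaximal h0
    have h1 := pow_sub_one_dvd_differentIdeal ℤ p 2 h0 (by
      rw [dvd_iff_le, map_span, Set.image_singleton, span_singleton_le_iff_mem]
      simpa using h)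
    rw [show 2 - 1 = 1 from rfl, pow_one, dvd_iff_le] at h1
    exact h1 (absNorm_mem _)

omit [NumberField K] in
/-- A prime of the ring of all algebraic integers above a given prime. -/
theorem prime_over (ψ : K →+* ℂ) (Q : Ideal (𝓞 K)) (hQ : Q.IsMaximal) :
    ∃ P : Ideal (integralClosure ℤ ℂ), P.IsPrime ∧ ∀ z : 𝓞 K, InP P (ψ z) ↔ z ∈ Q := by
  have hint : ∀ z : 𝓞 K, IsIntegral ℤ (ψ z) := fun z =>
    (RingOfIntegers.isIntegral_coe z).map ψ.toIntAlgHom
  let a : 𝓞 K →+* integralClosure ℤ ℂ :=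
    (ψ.comp (algebraMap (𝓞 K) K)).codRestrict (integralClosure ℤ ℂ) hint
  let _ := a.toAlgebra
  have : Algebra.IsIntegral (𝓞 K) (integralClosure ℤ ℂ) :=
    Algebra.IsIntegral.tower_top (R := ℤ)
  obtain ⟨P, hP, hc⟩ := exists_ideal_over_maximal_of_isIntegral (S := integralClosure ℤ ℂ) Q (by
    intro z hz
    have h1 : ψ z = 0 := congrArg Subtype.val hz
    have h2 : z = 0 := by simpa using h1
    rw [h2]
    exact Q.zero_mem)
  refine ⟨P, hP.isPrime, fun z => ?_⟩
  rw [← hc]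
  exact ⟨fun ⟨_, h⟩ => h, fun h => ⟨hint z, h⟩⟩

omit [NumberField K] in
/-- The restriction of a Frobenius element. -/
theorem frob_res {F Ω : Type} [Field F] [Field Ω] [NumberField F] [NumberField Ω] [Algebra F Ω]
    [Algebra Ω K] [Algebra F K] [IsScalarTower F Ω K] [Normal F Ω] (Q : Ideal (𝓞 K))
    (σ : Gal(K/F)) (h : IsFrob Q σ) :
    IsFrob (Q.under (𝓞 Ω)) (AlgEquiv.restrictNormalHom Ω σ) := by
  intro z
  rw [under_under, under, mem_comap, map_sub, map_pow]
  convert h (algebraMap (𝓞 Ω) (𝓞 K) z) using 2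
  apply RingOfIntegers.ext
  exact AlgEquiv.restrictNormal_commutes σ Ω z

end Beta

end

end Pool.Agent.P.MP_29cb78_nt.C
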