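import Pool.Agent.P.MP_29cb78_nt.C.BetaAux1

/-!
The Galois action on a family of numbers indexed by a finite abelian group.
-/

namespace Pool.Agent.P.MP_29cb78_nt.C

open NumberField Set Ideal
open scoped Classical

set_option linter.unusedSectionVars false

noncomputable section

namespace Beta

variable {F Ω K B C1 C : Type} [Field F] [Field Ω] [Field K] [NumberField F] [NumberField Ω]
  [NumberField K] [Algebra F Ω] [Algebra Ω K] [Algebra F K] [IsScalarTower F Ω K]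
  [CommMonoid B] [CommGroup C1] [CommGroup C]

/-- From congruences for Frobenius elements to the Galois action. -/
theorem act (hG : GEN) [IsGalois F K] [Finite C1] (l : C1 → 𝓞 K) (A : C1 →* B)
    (r : Gal(K/F) →* B) (n : ℕ) (hn : n ≠ 0)
    (h : ∀ Q : Ideal (𝓞 K), Q.IsMaximal → (n : 𝓞 K) ∉ Q → (absNorm (Q.under (𝓞 F))).Prime →
      ∀ σ : Gal(K/F), IsFrob Q σ →
        ∃ δ, A δ = r σ ∧ ∀ c, l (c * δ) ^ absNorm (Q.under (𝓞 F)) - l c ∈ Q)
    (ρ : Gal(K/F)) : ∃ δ, A δ = r ρ ∧ ∀ c, ρ (l (c * δ)) = l c := by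
  obtain ⟨D, hD, hZ⟩ := avoid
    (Set.range fun t : Gal(K/F) × C1 × C1 => t.1 • l t.2.1 - l t.2.2) (Set.finite_range _)
  let H0 : Submonoid Gal(K/F) :=
    { carrier := {ρ | ∃ δ, A δ = r ρ ∧ ∀ c, ρ (l (c * δ)) = l c}
      one_mem' := ⟨1, by simp, fun c => by simp⟩
      mul_mem' := by
        rintro σ τ ⟨δ, h1, h2⟩ ⟨ε, h3, h4⟩
        refine ⟨δ * ε, by rw [map_mul, map_mul, h1, h3], fun c => ?_⟩
        rw [AlgEquiv.mul_apply, ← mul_assoc, h4, h2] }
  let H : Subgroup Gal(K/F) :=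
    { H0 with
      inv_mem' := fun {σ} hσ => by
        have h1 : σ⁻¹ ∈ Submonoid.powers σ :=
          mem_powers_iff_mem_zpowers.mpr (inv_mem (Subgroup.mem_zpowers σ))
        obtain ⟨k, hk⟩ := h1
        have := H0.pow_mem hσ k
        simp only at hk
        rw [hk] at this
        exact this }
  have hH : H = ⊤ := hG F K H (n * D) (mul_ne_zero hn hD) fun Q hQ hnQ hp σ hσ => by
    rw [Nat.cast_mul] at hnQ
    obtain ⟨δ, h1, h2⟩ := h Q hQ (fun h' => hnQ (Q.mul_mem_right _ h')) hp σ hσ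
    refine ⟨δ, h1, fun c => ?_⟩
    have h3 : σ • l (c * δ) - l c ∈ Q := by
      have := Q.add_mem (hσ (l (c * δ))) (h2 c)
      rwa [sub_add_sub_cancel] at this
    have h4 := hZ Q (fun h' => hnQ (Q.mul_mem_left _ h')) _ ⟨(σ, c * δ, c), rfl⟩ h3
    exact congrArg Subtype.val (sub_eq_zero.mp h4)
  have : ρ ∈ H := hH ▸ Subgroup.mem_top ρ
  exact this

/-- Automorphisms commute on roots of unity. -/
theorem comm_root (σ τ : Gal(K/ℚ)) {z : K} {m : ℕ} (hm : m ≠ 0) (hz : z ^ m = 1) :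
    σ (τ z) = τ (σ z) := by
  have h0 : orderOf z ≠ 0 := (isOfFinOrder_iff_pow_eq_one.mpr
    ⟨m, Nat.pos_of_ne_zero hm, hz⟩).orderOf_pos.ne'
  have : NeZero (orderOf z) := ⟨h0⟩
  have key : ∀ σ : Gal(K/ℚ), ∃ i : ℕ, z ^ i = σ z := fun σ => by
    obtain ⟨i, -, hi⟩ := (IsPrimitiveRoot.orderOf z).eq_pow_of_pow_eq_one (ξ := σ z)
      (by rw [← map_pow, pow_orderOf_eq_one, map_one])
    exact ⟨i, hi⟩
  obtain ⟨i, hi⟩ := key σ
  obtain ⟨j, hj⟩ := key τ
  calc σ (τ z) = (z ^ i) ^ j := by rw [← hj, map_pow, ← hi]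
    _ = (z ^ j) ^ i := by ring
    _ = τ (σ z) := by rw [← hi, map_pow, ← hj]

/-- Lifting a commutator. -/
theorem lift_comm [IsGalois ℚ Ω] [IsGalois ℚ K] [Normal F Ω] (g : Gal(Ω/F)) (x y : Gal(Ω/ℚ))
    (hg : ∀ t, g t = (x * y * x⁻¹ * y⁻¹) t) :
    ∃ g' : Gal(K/F), AlgEquiv.restrictNormalHom Ω g' = g ∧
      ∀ (z : K) (m : ℕ), m ≠ 0 → z ^ m = 1 → g' z = z := by
  obtain ⟨x', hx⟩ := AlgEquiv.restrictNormalHom_surjective (F := ℚ) (K₁ := Ω) K x
  obtain ⟨y', hy⟩ := AlgEquiv.restrictNormalHom_surjective (F := ℚ) (K₁ := Ω) K y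
  have hw : ∀ t : Ω, (x' * y' * x'⁻¹ * y'⁻¹) (algebraMap Ω K t) = algebraMap Ω K (g t) := by
    intro t
    rw [hg, ← hx, ← hy, ← map_inv, ← map_inv, ← map_mul, ← map_mul, ← map_mul]
    exact (AlgEquiv.restrictNormal_commutes _ Ω t).symm
  have hF : x' * y' * x'⁻¹ * y'⁻¹ ∈ fixSub ℚ F K := fun t => by
    rw [IsScalarTower.algebraMap_apply F Ω K, hw, g.commutes]
  refine ⟨toAut _ hF, ?_, fun z m hm hz => ?_⟩
  · ext t
    apply (algebraMap Ω K).injective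
    rw [← hw]
    exact AlgEquiv.restrictNormal_commutes _ Ω t
  · have h1 : ((x'⁻¹ * y'⁻¹) z) ^ m = 1 := by rw [← map_pow, hz, map_one]
    rw [toAut_apply, mul_assoc, AlgEquiv.mul_apply, AlgEquiv.mul_apply, comm_root x' y' hm h1,
      ← AlgEquiv.mul_apply, ← AlgEquiv.mul_apply]
    simp

/-- The product of the numbers over the kernel. -/
def LL [Fintype C] (ab : C →* B) (l : C1 → K) (s : C → C1) : K :=
  ∏ κ ∈ Finset.univ.filter fun κ => ab κ = 1, l (s κ)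

theorem core [IsGalois ℚ Ω] [IsGalois ℚ K] [Normal F Ω] [Fintype C] (pr : C1 →* C)
    (ab : C →* B) (l : C1 → K) (s : C → C1) (hs : ∀ κ, pr (s κ) = κ) (m : ℕ) (hm : m ≠ 0)
    (hl0 : ∀ c, l c ≠ 0) (hlm : ∀ c c', pr c = pr c' → l c ^ m = l c' ^ m) (r : Gal(Ω/F) →* B)
    (hact : ∀ ρ : Gal(K/F), ∃ δ, ab (pr δ) = r (AlgEquiv.restrictNormalHom Ω ρ) ∧
      ∀ c, ρ (l (c * δ)) = l c)
    (g : Gal(Ω/F)) (x y : Gal(Ω/ℚ)) (hg : ∀ t, g t = (x * y * x⁻¹ * y⁻¹) t) :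
    ∃ (β : Ω) (g' : Gal(K/F)), AlgEquiv.restrictNormalHom Ω g' = g ∧
      algebraMap Ω K β = LL ab l s / g' (LL ab l s) ∧
      ∀ n : ℕ, g ^ n = 1 → (∏ i ∈ Finset.range n, (g ^ i) β) ^ m = 1 := by
  obtain ⟨g', hg', hroot⟩ := lift_comm (K := K) g x y hg
  have hact' : ∀ ρ : Gal(K/F), ∃ δ, ab (pr δ) = r (AlgEquiv.restrictNormalHom Ω ρ) ∧
      ∀ c, ρ (l c) = l (c * δ⁻¹) := fun ρ => by
    obtain ⟨δ, h1, h2⟩ := hact ρ
    exact ⟨δ, h1, fun c => by rw [← h2 (c * δ⁻¹), inv_mul_cancel_right]⟩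
  set L := LL ab l s with hL
  have hL0 : L ≠ 0 := Finset.prod_ne_zero_iff.mpr fun κ _ => hl0 _
  have hL1 : ∀ ρ : Gal(K/F), ρ L ≠ 0 := fun ρ => (map_ne_zero ρ).mpr hL0
  have hcomm : ∀ ρ σ : Gal(K/F), ρ (σ L) = σ (ρ L) := fun ρ σ => by
    obtain ⟨δ, -, h1⟩ := hact' ρ
    obtain ⟨ε, -, h2⟩ := hact' σ
    simp only [hL, LL, map_prod, h1, h2]
    exact Finset.prod_congr rfl fun κ _ => by rw [mul_right_comm]
  have hpow : ∀ ρ : Gal(K/F), AlgEquiv.restrictNormalHom Ω ρ = 1 → (ρ L / L) ^ m = 1 := by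
    intro ρ hρ
    obtain ⟨δ, h1, h2⟩ := hact' ρ
    rw [hρ, map_one] at h1
    have h3 : ab (pr δ)⁻¹ = 1 := by
      have := map_mul ab (pr δ) (pr δ)⁻¹
      rw [mul_inv_cancel, map_one, h1, one_mul] at this
      exact this.symm
    rw [div_pow, div_eq_one_iff_eq (pow_ne_zero _ hL0)]
    simp only [hL, LL, map_prod, h2, ← Finset.prod_pow]
    refine Finset.prod_nbij' (fun κ => κ * (pr δ)⁻¹) (fun κ => κ * pr δ) ?_ ?_ ?_ ?_ ?_
    · intro κ hκ
      simp only [Finset.mem_filter, Finset.mem_univ, true_and] at hκ ⊢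
      rw [map_mul, hκ, h3, mul_one]
    · intro κ hκ
      simp only [Finset.mem_filter, Finset.mem_univ, true_and] at hκ ⊢
      rw [map_mul, hκ, h1, mul_one]
    · intro κ _
      simp
    · intro κ _
      simp
    · intro κ _
      exact hlm _ _ (by rw [map_mul, map_inv, hs, hs])
  have : IsGalois Ω K := IsGalois.tower_top_of_isGalois ℚ Ω K
  obtain ⟨β, hβ⟩ : L / g' L ∈ Set.range (algebraMap Ω K) := by
    refine (IsGalois.mem_range_algebraMap_iff_fixed _).mpr fun τ => ?_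
    have h1 : AlgEquiv.restrictNormalHom Ω (τ.restrictScalars F) = 1 := by
      ext t
      apply (algebraMap Ω K).injective
      exact (AlgEquiv.restrictNormal_commutes (τ.restrictScalars F) Ω t).trans (τ.commutes t)
    have h2 := hroot _ m hm (hpow _ h1)
    rw [map_div₀, hcomm] at h2
    have h3 := hL1 g'
    have h4 : (τ.restrictScalars F) (g' L) ≠ 0 := (map_ne_zero _).mpr h3
    change (τ.restrictScalars F) (L / g' L) = _
    rw [map_div₀]
    field_simp at h2 ⊢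
    linear_combination -h2
  refine ⟨β, g', hg', hβ, fun n hn => ?_⟩
  have h1 : ∀ k : ℕ, algebraMap Ω K (∏ i ∈ Finset.range k, (g ^ i) β) = L / (g' ^ k) L := by
    intro k
    induction k with
    | zero => simp [hL0]
    | succ k ih =>
      have h2 : algebraMap Ω K ((g ^ k) β) = (g' ^ k) (algebraMap Ω K β) := by
        rw [← hg', ← map_pow]
        exact AlgEquiv.restrictNormal_commutes _ Ω β
      rw [Finset.prod_range_succ, map_mul, ih, h2, hβ, map_div₀, pow_succ, AlgEquiv.mul_apply]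
      have h3 := hL1 (g' ^ k)
      field_simp
  apply (algebraMap Ω K).injective
  have h2 := hpow (g' ^ n) (by rw [map_pow, hg', hn])
  rw [map_pow, h1, map_one, ← inv_div, inv_pow, h2, inv_one]

end Beta

end

end Pool.Agent.P.MP_29cb78_nt.C
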