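import Pool.Agent.P.MP_29cb78_nt.C.Iface

/-!
The unit attached to the cubic character.
-/

namespace Pool.Agent.P.MP_29cb78_nt.C

open NumberField NumberField.InfinitePlace NumberField.Units Set Ideal Filter Topology
open NumberField.ComplexEmbedding (IsConj)
open scoped Classical

noncomputable section

namespace Cubeta

theorem summ (hD : DIRI) {F : Type} [Field F] [NumberField F] (p : Ideal (𝓞 F) → Prop)
    [∀ I, Decidable (p I)] {s : ℂ} (hs : 1 < s.re) :
    Summable fun I : Ideal (𝓞 F) => (if p I then (1 : ℂ) else 0) * (absNorm I : ℂ) ^ (-s) := by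
  refine Summable.of_norm_bounded (hD F s hs).1 fun I => ?_
  split_ifs
  · simp
  · simp

theorem ray_mono {F B : Type} [Field F] [Monoid B] {n N : ℕ} (h : n ∣ N)
    {a : Ideal (𝓞 F) →* B} (ha : Ray n a) : Ray N a := by
  intro α h0 h1
  refine ha α h0 ?_
  rw [mem_span_singleton] at h1 ⊢
  exact (Nat.cast_dvd_cast h).trans h1

theorem cube_cases {ω x : ℂ} (h3 : ω ^ 3 = 1) (h1 : ω ≠ 1) (hx : x ^ 3 = 1) :
    x = 1 ∨ x = ω ∨ x = ω * ω := by
  have h2 : ω ^ 2 + ω + 1 = 0 := by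
    apply mul_left_cancel₀ (sub_ne_zero.mpr h1)
    linear_combination h3
  have h4 : (x - 1) * ((x - ω) * (x - ω * ω)) = 0 := by
    linear_combination hx + (-x ^ 2 + x * ω) * h2 - h3
  rcases mul_eq_zero.mp h4 with h | h
  · exact Or.inl (sub_eq_zero.mp h)
  · rcases mul_eq_zero.mp h with h | h
    · exact Or.inr (Or.inl (sub_eq_zero.mp h))
    · exact Or.inr (Or.inr (sub_eq_zero.mp h))

/-- Ideals with norm prime to `m` that are not prime to `m n ^ (t + 1)` are killed. -/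
theorem vanish {F : Type} [Field F] [NumberField F] {m n t : ℕ} (hm : 3 ≤ m)
    (A : Ideal (𝓞 F) →* ℂ)
    (hA : ∀ P : Ideal (𝓞 F), P.IsMaximal → (n : 𝓞 F) ∈ P → A P = 0) (u : (ZMod m)ˣ)
    (I : Ideal (𝓞 F)) (hI : (absNorm I : ZMod m) = u) (hc : ¬ Cop (m * n ^ (t + 1)) I) :
    A I = 0 := by
  have hco : (absNorm I).Coprime m := by
    rw [← ZMod.isUnit_iff_coprime, hI]
    exact u.isUnit
  have h0 : I ≠ ⊥ := by
    rintro rfl
    rw [absNorm_bot, Nat.coprime_zero_left] at hco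
    omega
  have h1 : I ⊔ span {((m * n ^ (t + 1) : ℕ) : 𝓞 F)} ≠ ⊤ := fun h =>
    hc ⟨h0, isCoprime_iff_sup_eq.mpr h⟩
  obtain ⟨P, hP, hle⟩ := exists_le_maximal _ h1
  have hIP : I ≤ P := le_sup_left.trans hle
  have hN : ((m * n ^ (t + 1) : ℕ) : 𝓞 F) ∈ P :=
    hle (le_sup_right (a := I) (mem_span_singleton_self _))
  have hmP : (m : 𝓞 F) ∉ P := fun h => by
    have h2 : ((absNorm I : ℕ) : 𝓞 F) ∈ P := hIP (absNorm_mem I)
    obtain ⟨a, b, hab⟩ := (Nat.isCoprime_iff_coprime.mpr hco).map (Int.castRingHom (𝓞 F))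
    apply hP.ne_top
    rw [eq_top_iff_one, ← hab]
    refine P.add_mem (P.mul_mem_left _ ?_) (P.mul_mem_left _ ?_)
    · simpa using h2
    · simpa using h
  have hn : (n : 𝓞 F) ∈ P := by
    push_cast at hN
    rcases hP.isPrime.mem_or_mem hN with h | h
    · exact absurd h hmP
    · exact hP.isPrime.mem_of_pow_mem _ h
  obtain ⟨J, rfl⟩ := dvd_iff_le.mpr hIP
  rw [map_mul, hA P hP hn, zero_mul]

/-- The series in a residue class as a difference of two smaller series. -/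
theorem dz_eq (hD : DIRI) {F : Type} [Field F] [NumberField F] {m N : ℕ} {ω : ℂ}
    (h3 : ω ^ 3 = 1) (h1 : ω ≠ 1) (A : Ideal (𝓞 F) →* ℂ) (u : ZMod m)
    (hv : ∀ I, (absNorm I : ZMod m) = u → ¬ Cop N I → A I = 0)
    (hc : ∀ I, Cop N I → A I ^ 3 = 1) {s : ℂ} (hs : 1 < s.re)
    (hsym : fz2 N m A ω u s = fz2 N m A (ω * ω) u s) :
    Dz m A u s = fz2 N m A 1 u s - fz2 N m A ω u s := by
  have h2 : ω ^ 2 + ω + 1 = 0 := by
    apply mul_left_cancel₀ (sub_ne_zero.mpr h1)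
    linear_combination h3
  have h0 : ω ≠ 0 := by
    rintro rfl
    simp at h3
  have e1 : ω * ω ≠ 1 := fun h => h1 (by linear_combination h3 - ω * h)
  have e2 : ω * ω ≠ ω := fun h => h1 (mul_left_cancel₀ h0 (by linear_combination h))
  have key : Dz m A u s =
      fz2 N m A 1 u s + (ω * fz2 N m A ω u s + ω * ω * fz2 N m A (ω * ω) u s) := by
    have s1 := summ hD (fun I : Ideal (𝓞 F) => Cop N I ∧ A I = 1 ∧ (absNorm I : ZMod m) = u) hs
    have s2 := (summ hD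
      (fun I : Ideal (𝓞 F) => Cop N I ∧ A I = ω ∧ (absNorm I : ZMod m) = u) hs).mul_left ω
    have s3 := (summ hD (fun I : Ideal (𝓞 F) =>
      Cop N I ∧ A I = ω * ω ∧ (absNorm I : ZMod m) = u) hs).mul_left (ω * ω)
    simp only [Dz, fz2, Lser]
    rw [← tsum_mul_left, ← tsum_mul_left, ← s2.tsum_add s3, ← s1.tsum_add (s2.add s3)]
    refine tsum_congr fun I => ?_
    by_cases hu : (absNorm I : ZMod m) = u
    · by_cases hI : Cop N I
      · rcases cube_cases h3 h1 (hc I hI) with h | h | h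
        · simp [hu, hI, h, h1.symm, e1.symm]
        · simp [hu, hI, h, h1, e2.symm]
        · simp [hu, hI, h, e1, e2]
      · simp [hu, hI, hv I hu hI]
    · simp [hu]
  rw [key, ← hsym]
  linear_combination (fz2 N m A ω u s) * h2

end Cubeta

open Cubeta in
theorem cubeta : DIRI → CUNIQ → RECIP → RAM → SYM → UNIT → CUBETA := by
  intro hD hU hR hRam hS hUn k F Ω _ _ _ _ _ _ _ _ _ ζ φ Ψ g c m hC hm hζ
  obtain ⟨A, n, hn, hb, hL, hz, hF⟩ := hRam k F Ω ζ φ Ψ g c hC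
  have hmem : ∀ σ : Gal(Ω/F), σ.restrictScalars ℚ ∈ fixSub ℚ F Ω := fun σ y => σ.commutes y
  let χ : Gal(Ω/F) →* ℂ :=
    { toFun := fun σ => Ψ (σ.restrictScalars ℚ)
      map_one' := hC.char.one
      map_mul' := fun σ τ => hC.char.mul _ (hmem σ) _ (hmem τ) }
  have := hC.tc
  obtain ⟨x, y, hxy⟩ := hC.comm
  obtain ⟨t, ht⟩ := hR F Ω χ A n (toAut g hC.gF) x y hC.h2 hn (fun σ => hC.cube _ (hmem σ))
    (fun t => by rw [toAut_apply, hxy]) hC.gne hF
  have hN0 : m * n ^ (t + 1) ≠ 0 := mul_ne_zero (by omega) (pow_ne_zero _ hn)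
  have hF' : ∀ Q : Ideal (𝓞 Ω), Q.IsMaximal → ((m * n ^ (t + 1) : ℕ) : 𝓞 Ω) ∉ Q →
      ∀ σ : Gal(Ω/F), IsFrob Q σ → A (Q.under (𝓞 F)) = Ψ (σ.restrictScalars ℚ) := by
    intro Q hQ h
    refine hF Q hQ fun h' => h ?_
    push_cast
    rw [pow_succ, ← mul_assoc]
    exact Q.mul_mem_left _ h'
  obtain ⟨β, hβ⟩ := hUn k F Ω ζ φ Ψ g c m _ A hC hm hζ hN0 (dvd_mul_right _ _)
    (ray_mono (dvd_mul_left _ _) ht) hF'
  obtain ⟨hS1, hS2⟩ := hS k F Ω ζ φ Ψ g c m _ A hC (by omega) hζ hN0 (dvd_mul_right _ _) hF'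
  have h3 : Ψ g ^ 3 = 1 := hC.cube g hC.gF
  have hinv : (Ψ g)⁻¹ = Ψ g * Ψ g := inv_eq_of_mul_eq_one_right (by linear_combination h3)
  have hsym : ∀ (u : ZMod m) (s : ℂ), fz2 (m * n ^ (t + 1)) m A (Ψ g) u s =
      fz2 (m * n ^ (t + 1)) m A (Ψ g * Ψ g) u s := fun u s => by rw [hS1, hinv]
  have hc : ∀ I, Cop (m * n ^ (t + 1)) I → A I ^ 3 = 1 := fun I hI => by
    obtain ⟨ρ, h1, h2, -⟩ := hS2 I hI
    rw [h2]
    exact hC.cube ρ h1
  refine ⟨A, β, hb, hL, ?_, fun u => ⟨fun ρ h1 h2 h4 => ?_, fun h s hs => ?_⟩⟩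
  · have h1 := hβ g hC.gF 1 (by rw [ZMod.val_one'' (by omega), pow_one, hC.gζ])
    have h2 := hU _ _ _ (h1.congr (b := fun _ => 0) (fun s _ => by rw [hsym, sub_self]) rfl)
      Cont.zero
    have h4 : Real.log (‖φ (g β)‖ ^ 2) = 0 := by simpa using h2
    have h5 : φ (g β) ≠ 0 := by simp
    have h6 : ‖φ (g β)‖ ^ 2 = 1 := by
      have h7 : 0 < ‖φ (g β)‖ ^ 2 := by positivity
      rcases Real.log_eq_zero.mp h4 with h | h | h <;> linarith
    have h7 : c (g β) * g β = 1 := by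
      apply φ.injective
      rw [map_mul, hC.cj.eq, map_one, RCLike.star_def, Complex.conj_mul', ← Complex.ofReal_pow, h6,
        Complex.ofReal_one]
    apply g.injective
    rw [map_mul, map_one, ← h7, ← AlgEquiv.mul_apply, ← mul_assoc, ← mul_assoc, mul_inv_cancel,
      one_mul, AlgEquiv.mul_apply]
  · have h5 := hβ ρ h1 u h4
    rw [(hC.ker ρ h1).mp h2, one_mul] at h5
    exact h5.congr (fun s hs => (dz_eq hD h3 hC.gne A (u : ZMod m) (vanish hm A hz u) hc hs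
      (hsym u s)).symm) rfl
  · simp only [Dz, Lser]
    refine (tsum_congr fun I => ?_).trans tsum_zero
    by_cases hu : (absNorm I : ZMod m) = u
    · by_cases hI : Cop (m * n ^ (t + 1)) I
      · exfalso
        obtain ⟨ρ, h1, -, h2⟩ := hS2 I hI
        have h4 : ρ ζ = ζ ^ (u : ZMod m).val := by
          rw [h2, ← hu, ZMod.val_natCast, ← pow_eq_pow_mod _ hζ.pow_eq_one]
        have hg := hC.gF
        have hgg := Subgroup.mul_mem _ hg hg
        rcases cube_cases h3 hC.gne (hC.cube ρ h1) with e | e | e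
        · exact h ⟨ρ, h1, (hC.ker ρ h1).mpr e, h4⟩
        · refine h ⟨ρ * (g * g), Subgroup.mul_mem _ h1 hgg,
            (hC.ker _ (Subgroup.mul_mem _ h1 hgg)).mpr ?_, ?_⟩
          · rw [hC.char.mul _ h1 _ hgg, hC.char.mul _ hg _ hg, e]
            linear_combination h3
          · rw [AlgEquiv.mul_apply, AlgEquiv.mul_apply, hC.gζ, hC.gζ, h4]
        · refine h ⟨ρ * g, Subgroup.mul_mem _ h1 hg,
            (hC.ker _ (Subgroup.mul_mem _ h1 hg)).mpr ?_, ?_⟩
          · rw [hC.char.mul _ h1 _ hg, e]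
            linear_combination h3
          · rw [AlgEquiv.mul_apply, hC.gζ, h4]
      · simp [hu, vanish hm A hz u I hu hI]
    · simp [hu]

end

end Pool.Agent.P.MP_29cb78_nt.C
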