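import Pool.Agent.P.MP_29cb78_nt.C.Iface

/-!
Frobenius elements and inertia groups in a tower.
-/

namespace Pool.Agent.P.MP_29cb78_nt.C

open NumberField Set Ideal
open scoped Classical

namespace Fi

theorem ne_bot {L : Type} [Field L] [NumberField L] {P : Ideal (𝓞 L)} (hP : P.IsMaximal) :
    P ≠ ⊥ := Ring.ne_bot_of_isMaximal_of_not_isField hP (RingOfIntegers.not_isField L)

theorem finite_quot {L : Type} [Field L] [NumberField L] {P : Ideal (𝓞 L)} (hP : P.IsMaximal) :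
    Finite (𝓞 L ⧸ P) := Ideal.finiteQuotientOfFreeOfNeBot P (ne_bot hP)

theorem absNorm_eq_card {L : Type} [Field L] [NumberField L] (P : Ideal (𝓞 L)) :
    absNorm P = Nat.card (𝓞 L ⧸ P) := by
  rw [absNorm_apply, Submodule.cardQuot_apply]

theorem one_lt_norm {L : Type} [Field L] [NumberField L] {P : Ideal (𝓞 L)} (hP : P.IsMaximal) :
    1 < absNorm P := by
  have h0 : absNorm P ≠ 0 := fun h => ne_bot hP (absNorm_eq_zero_iff.mp h)
  have h1 : absNorm P ≠ 1 := fun h => hP.ne_top (absNorm_eq_one_iff.mp h)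
  omega

/-- If every element satisfies `y = y ^ N` modulo `P` then `N P - 1` divides `N - 1`. -/
theorem norm_sub_one_dvd {L : Type} [Field L] [NumberField L] (P : Ideal (𝓞 L))
    (hP : P.IsMaximal) (N : ℕ) (hN : 0 < N) (h : ∀ y : 𝓞 L, y - y ^ N ∈ P) :
    absNorm P - 1 ∣ N - 1 := by
  let : Field (𝓞 L ⧸ P) := Ideal.Quotient.field P
  have : Finite (𝓞 L ⧸ P) := finite_quot hP
  let : Fintype (𝓞 L ⧸ P) := Fintype.ofFinite _
  have hc : absNorm P = Fintype.card (𝓞 L ⧸ P) := by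
    rw [absNorm_eq_card, Nat.card_eq_fintype_card]
  rw [hc, ← FiniteField.forall_pow_eq_one_iff]
  intro x
  obtain ⟨y, hy⟩ := Ideal.Quotient.mk_surjective (x : 𝓞 L ⧸ P)
  have h1 : (x : 𝓞 L ⧸ P) = (x : 𝓞 L ⧸ P) ^ N := by
    rw [← hy, ← map_pow]
    exact Ideal.Quotient.eq.mpr (h y)
  have h2 : x = x ^ N := Units.ext (by simpa using h1)
  have h3 : x ^ N = x * x ^ (N - 1) := by
    rw [← pow_succ']
    congr 1
    omega
  rw [h3] at h2
  exact (left_eq_mul.mp h2)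

theorem exists_frob {F Ω : Type} [Field F] [Field Ω] [NumberField F] [NumberField Ω]
    [Algebra F Ω] [IsGalois F Ω] (Q : Ideal (𝓞 Ω)) (hQ : Q.IsMaximal) :
    ∃ σ : Gal(Ω/F), IsFrob Q σ := by
  have := finite_quot hQ
  obtain ⟨σ, hσ⟩ := IsArithFrobAt.exists_of_isInvariant (𝓞 F) Gal(Ω/F) Q
  refine ⟨σ, fun z => ?_⟩
  rw [absNorm_eq_card]
  exact hσ z

theorem frob_mul {F Ω : Type} [Field F] [Field Ω] [NumberField F] [Algebra F Ω]
    {Q : Ideal (𝓞 Ω)} {ι f : Gal(Ω/F)} (hι : ι ∈ Q.inertia Gal(Ω/F)) (hf : IsFrob Q f) :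
    IsFrob Q (ι * f) := by
  intro z
  have h1 : ι • (f • z) - f • z ∈ Q := hι (f • z)
  have h3 := Q.add_mem h1 (hf z)
  rw [sub_add_sub_cancel] at h3
  rw [mul_smul]
  exact h3

section tower

variable {F M Ω : Type} [Field F] [Field M] [Field Ω] [NumberField F] [NumberField M]
  [NumberField Ω] [Algebra F M] [Algebra F Ω] [Algebra M Ω] [IsScalarTower F M Ω]

theorem inertia_triv [IsGalois F Ω] [IsGalois F M] (Q : Ideal (𝓞 Ω)) (hQ : Q.IsMaximal)
    (h : ∀ ι ∈ Q.inertia Gal(Ω/F), ∀ y : M, ι (algebraMap M Ω y) = algebraMap M Ω y)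
    (σ : Gal(M/F)) (hσ : σ ∈ (Q.under (𝓞 M)).inertia Gal(M/F)) : σ = 1 := by
  have : IsGalois M Ω := IsGalois.tower_top_of_isGalois F M Ω
  have hP : (Q.under (𝓞 M)).IsMaximal := inferInstance
  have hp : (Q.under (𝓞 F)).IsMaximal := inferInstance
  have := finite_quot hP
  have := finite_quot hp
  have : (Q.under (𝓞 M)).LiesOver (Q.under (𝓞 F)) := LiesOver.tower_bot Q _ _
  have h1 := card_inertia_eq_ramificationIdxIn (G := Gal(Ω/F)) (Q.under (𝓞 F)) Q
  have h2 := card_inertia_eq_ramificationIdxIn (G := Gal(Ω/M)) (Q.under (𝓞 M)) Q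
  have h3 := card_inertia_eq_ramificationIdxIn (G := Gal(M/F)) (Q.under (𝓞 F)) (Q.under (𝓞 M))
  have h4 := ramificationIdxIn_mul_ramificationIdxIn (p := Q.under (𝓞 F)) (Q.under (𝓞 M))
    Gal(M/F) (𝓞 Ω) Gal(Ω/F) Gal(Ω/M)
  rw [← h1, ← h2, ← h3] at h4
  have h5 : Nat.card (Q.inertia Gal(Ω/F)) ≤ Nat.card (Q.inertia Gal(Ω/M)) := by
    refine Nat.card_le_card_of_injective
      (fun ι => ⟨{ ι.1.toRingEquiv with commutes' := h ι.1 ι.2 }, fun z => ι.2 z⟩) ?_
    intro a b hab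
    apply Subtype.ext
    ext x
    exact congrArg (fun t : Q.inertia Gal(Ω/M) => t.1 x) hab
  have h6 : 0 < Nat.card (Q.inertia Gal(Ω/M)) := Nat.card_pos
  have h7 : Nat.card ((Q.under (𝓞 M)).inertia Gal(M/F)) ≤ 1 := by
    by_contra hc
    nlinarith
  rw [Subgroup.card_le_one_iff_eq_bot] at h7
  rwa [h7, Subgroup.mem_bot] at hσ

omit [NumberField Ω] in
theorem norm_eq (Q : Ideal (𝓞 Ω)) (hQ : Q.IsMaximal) (f : Gal(Ω/F)) (hf : IsFrob Q f)
    (h : ∀ y : M, f (algebraMap M Ω y) = algebraMap M Ω y) :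
    absNorm (Q.under (𝓞 M)) = absNorm (Q.under (𝓞 F)) := by
  have hP : (Q.under (𝓞 M)).IsMaximal := inferInstance
  have hp : (Q.under (𝓞 F)).IsMaximal := inferInstance
  have : (Q.under (𝓞 M)).LiesOver (Q.under (𝓞 F)) := LiesOver.tower_bot Q _ _
  have h0 := one_lt_norm hp
  have h1 : absNorm (Q.under (𝓞 M)) - 1 ∣ absNorm (Q.under (𝓞 F)) - 1 := by
    refine norm_sub_one_dvd _ hP _ (by omega) fun y => ?_
    have h2 := hf (algebraMap (𝓞 M) (𝓞 Ω) y)
    have h3 : f • algebraMap (𝓞 M) (𝓞 Ω) y = algebraMap (𝓞 M) (𝓞 Ω) y := by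
      apply RingOfIntegers.ext
      exact h (y : M)
    rw [h3, ← map_pow, ← map_sub] at h2
    exact h2
  have h2 := Nat.le_of_dvd (by omega) h1
  have hN := absNorm_pow_inertiaDeg (Q.under (𝓞 F)) (Q.under (𝓞 M))
  have hd : 0 < (Q.under (𝓞 M)).inertiaDeg (𝓞 F) := inertiaDeg_pos _ _
  have h3 : absNorm (Q.under (𝓞 F)) ≤ absNorm (Q.under (𝓞 M)) := by
    rw [← hN]
    exact Nat.le_self_pow hd.ne' _
  omega

end tower

theorem index_ker {G : Type} [Group G] (χ : G →* ℂ) (h3 : ∀ σ, χ σ ^ 3 = 1)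
    (h1 : ∃ σ, χ σ ≠ 1) : χ.ker.index = 3 := by
  rw [← MonoidHom.ker_toHomUnits, Subgroup.index_ker]
  have hle : χ.toHomUnits.range ≤ rootsOfUnity 3 ℂ := by
    rintro _ ⟨σ, rfl⟩
    rw [mem_rootsOfUnity']
    exact h3 σ
  have hd := Subgroup.card_dvd_of_le hle
  rw [Complex.card_rootsOfUnity] at hd
  rcases (Nat.dvd_prime Nat.prime_three).mp hd with h | h
  · exfalso
    obtain ⟨σ, hσ⟩ := h1
    rw [Subgroup.card_eq_one] at h
    have h2 : χ.toHomUnits σ ∈ χ.toHomUnits.range := ⟨σ, rfl⟩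
    rw [h, Subgroup.mem_bot] at h2
    exact hσ (congrArg Units.val h2)
  · exact h

theorem fi (h0 : FI0) : FI := by
  intro F Ω _ _ _ _ _ _ _ χ A n h2 hn h3 h1 hA
  let M := IntermediateField.fixedField χ.ker
  have hfix : ∀ g : Gal(Ω/F), χ g = 1 → ∀ y : M, g (algebraMap M Ω y) = algebraMap M Ω y :=
    fun g hg y => (IntermediateField.mem_fixedField_iff _ _).mp y.2 g hg
  have hdeg : Module.finrank F M = 3 := by
    have e1 := Module.finrank_mul_finrank F M Ω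
    have e2 : Module.finrank M Ω = Nat.card χ.ker := IntermediateField.finrank_fixedField_eq_card _
    have e3 := IsGalois.card_aut_eq_finrank F Ω
    have e4 := χ.ker.card_mul_index
    rw [index_ker χ h3 h1] at e4
    have e5 : 0 < Nat.card χ.ker := Nat.card_pos
    rw [e2, ← e3, ← e4, mul_comm] at e1
    exact Nat.eq_of_mul_eq_mul_left e5 e1
  have : Nontrivial Gal(M/F) := by
    rw [← Finite.one_lt_card_iff_nontrivial, IsGalois.card_aut_eq_finrank, hdeg]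
    norm_num
  obtain ⟨σ, hσ⟩ := exists_ne (1 : Gal(M/F))
  have hnot : ∀ Q : Ideal (𝓞 Ω), (n : 𝓞 M) ∉ Q.under (𝓞 M) → (n : 𝓞 Ω) ∉ Q := by
    intro Q hQ h
    apply hQ
    rw [Ideal.under_def, Ideal.mem_comap, map_natCast]
    exact h
  obtain ⟨t, η, e1, e2, e3, e4⟩ := h0 F M σ n h2 hdeg hσ hn (by
    intro P hP hin
    by_contra hc
    obtain ⟨Q, hQ, hQP⟩ := Ideal.exists_maximal_ideal_liesOver_of_isIntegral (S := 𝓞 Ω) P
    have hPQ : Q.under (𝓞 M) = P := hQP.over.symm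
    subst hPQ
    refine hσ (inertia_triv Q hQ (fun ι hι => hfix ι ?_) σ hin)
    obtain ⟨f, hf⟩ := exists_frob (F := F) Q hQ
    have a1 := hA Q hQ (hnot Q hc) f hf
    have a2 := hA Q hQ (hnot Q hc) _ (frob_mul hι hf)
    rw [a1, map_mul] at a2
    have a3 : χ f ≠ 0 := fun h => by simpa [h] using h3 f
    exact (mul_eq_right₀ a3).mp a2.symm)
  refine ⟨t, η, e1, e2, e3, fun P hP hnP hAP => ?_⟩
  obtain ⟨Q, hQ, hQP⟩ := Ideal.exists_maximal_ideal_liesOver_of_isIntegral (S := 𝓞 Ω) P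
  have hPQ : Q.under (𝓞 F) = P := hQP.over.symm
  subst hPQ
  have hu : (Q.under (𝓞 M)).under (𝓞 F) = Q.under (𝓞 F) := Ideal.under_under Q
  have hc : (n : 𝓞 M) ∉ Q.under (𝓞 M) := by
    intro h
    apply hnP
    rw [← hu, Ideal.under_def, Ideal.mem_comap, map_natCast]
    exact h
  obtain ⟨f, hf⟩ := exists_frob (F := F) Q hQ
  have a1 := hA Q hQ (hnot Q hc) f hf
  rw [hAP] at a1
  have a2 := norm_eq (M := M) Q hQ f hf (hfix f a1.symm)
  have := e4 (Q.under (𝓞 M)) inferInstance hc (by rw [hu]; exact a2)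
  rwa [hu] at this

end Fi

end Pool.Agent.P.MP_29cb78_nt.C
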