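import Pool.Agent.P.MP_29cb78_nt.C.Iface

/-! Local norms at a totally ramified prime of a cyclic cubic extension. -/

namespace Pool.Agent.P.MP_29cb78_nt.C

open NumberField Ideal
open scoped Classical

set_option linter.unusedSectionVars false

noncomputable section

namespace Fil

section val

variable {B : Type} [CommRing B] [IsDedekindDomain B] {Q : Ideal B}

theorem mem_pow_iff (x : B) (n : ℕ) : x ∈ Q ^ n ↔ (n : ℕ∞) ≤ emultiplicity Q (span {x}) := by
  rw [← pow_dvd_iff_le_emultiplicity, Ideal.dvd_span_singleton]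

theorem cancel [Q.IsMaximal] (h0 : Q ≠ ⊥) {a b : B} {i n : ℕ} (ha : a ∉ Q ^ (i + 1))
    (h : a * b ∈ Q ^ (i + n)) : b ∈ Q ^ n := by
  rw [mem_pow_iff] at ha h ⊢
  rw [← span_singleton_mul_span_singleton,
    emultiplicity_mul (Ideal.prime_of_isPrime h0 inferInstance)] at h
  generalize emultiplicity Q (span {a}) = u at ha h
  generalize emultiplicity Q (span {b}) = v at h
  induction u using ENat.recTopCoe with
  | top => simp at ha
  | coe u =>
    induction v using ENat.recTopCoe with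
    | top => simp
    | coe v => norm_cast at ha h ⊢; omega

theorem mul_notMem [Q.IsMaximal] (h0 : Q ≠ ⊥) {a b : B} {i j : ℕ} (ha : a ∉ Q ^ (i + 1))
    (hb : b ∉ Q ^ (j + 1)) : a * b ∉ Q ^ (i + j + 1) := fun h =>
  hb (cancel h0 ha (by rwa [← add_assoc]))

theorem pow_notMem [hQ : Q.IsMaximal] (h0 : Q ≠ ⊥) {a : B} (ha : a ∉ Q ^ 2) (k : ℕ) :
    a ^ k ∉ Q ^ (k + 1) := by
  induction k with
  | zero => simpa using (ne_top_iff_one Q).1 hQ.ne_top
  | succ k ih => rw [pow_succ a]; exact mul_notMem h0 ih ha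

theorem mul_mem {a b : B} {i j n : ℕ} (ha : a ∈ Q ^ i) (hb : b ∈ Q ^ j) (h : n ≤ i + j) :
    a * b ∈ Q ^ n := by
  refine pow_le_pow_right h ?_
  rw [pow_add]; exact mul_mem_mul ha hb

theorem pow_sub_pow {x y : B} {t : ℕ} (hx : x ∈ Q) (hy : y ∈ Q) (h : x - y ∈ Q ^ (t + 1))
    (k : ℕ) : x ^ k - y ^ k ∈ Q ^ (k + t) := by
  induction k with
  | zero => simp
  | succ k ih =>
    have h1 : x ^ (k + 1) - y ^ (k + 1) = x * (x ^ k - y ^ k) + (x - y) * y ^ k := by ring
    rw [h1]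
    exact add_mem (mul_mem (i := 1) (by simpa using hx) ih (by omega))
      (mul_mem h (pow_mem_pow hy k) (by omega))

/-- The number of units modulo a prime power only depends on the size of the residue field. -/
theorem card_units [hQ : Q.IsMaximal] (h0 : Q ≠ ⊥) [Finite (B ⧸ Q)] (t : ℕ) :
    Finite (B ⧸ Q ^ (t + 1)) ∧
    Nat.card (B ⧸ Q ^ (t + 1))ˣ + Nat.card (B ⧸ Q) ^ t = Nat.card (B ⧸ Q) ^ (t + 1) := by
  have h1 : Nat.card (B ⧸ Q ^ (t + 1)) = Nat.card (B ⧸ Q) ^ (t + 1) := by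
    have := cardQuot_pow_of_prime (P := Q) h0 (i := t + 1)
    rwa [Submodule.cardQuot_apply, Submodule.cardQuot_apply] at this
  have hq : 0 < Nat.card (B ⧸ Q) := Nat.card_pos
  have hf : Finite (B ⧸ Q ^ (t + 1)) := Nat.finite_of_card_ne_zero (by rw [h1]; positivity)
  refine ⟨hf, ?_⟩
  set m := Q.map (Ideal.Quotient.mk (Q ^ (t + 1)))
  have hle : Q ^ (t + 1) ≤ Q := pow_le_self t.succ_ne_zero
  have h2 := Submodule.card_eq_card_quotient_mul_card m
  rw [h1, Nat.card_congr (DoubleQuot.quotQuotEquivQuotOfLE hle).toEquiv] at h2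
  have h3 : Nat.card m = Nat.card (B ⧸ Q) ^ t := by
    rw [pow_succ] at h2
    exact (Nat.eq_of_mul_eq_mul_right hq h2).symm
  have h4 : ∀ x : B ⧸ Q ^ (t + 1), IsUnit x ↔ x ∉ m := by
    intro x
    obtain ⟨x, rfl⟩ := Ideal.Quotient.mk_surjective x
    rw [Ideal.Quotient.isUnit_mk_pow_iff_notMem Q t.succ_ne_zero, mem_quotient_iff_mem hle]
  have h5 : Nat.card (B ⧸ Q ^ (t + 1))ˣ = Nat.card {x : B ⧸ Q ^ (t + 1) // ¬ x ∈ m} :=
    Nat.card_congr ⟨fun u => ⟨u, (h4 _).1 u.isUnit⟩, fun x => ((h4 _).2 x.2).unit,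
      fun u => by simp, fun x => by simp⟩
  rw [h5, ← h3, ← h1, add_comm, ← Nat.card_sum]
  exact Nat.card_congr (Equiv.sumCompl (· ∈ m))

end val

/-- The data of a totally ramified cyclic cubic extension. -/
structure Dat (A : Type) {B : Type} [CommRing A] [CommRing B] [Algebra A B] (Q : Ideal B)
    (s : B →+* B) : Prop where
  ne : Q ≠ ⊥
  s3 : ∀ x, s (s (s x)) = x
  fix : ∀ a, s (algebraMap A B a) = algebraMap A B a
  inv : ∀ x, s x = x → ∃ a, algebraMap A B a = x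
  ine : ∀ x, s x - x ∈ Q
  nid : ∃ x, s x ≠ x

variable {A B : Type} [CommRing A] [CommRing B] [Algebra A B] [IsDedekindDomain B] {Q : Ideal B}
  [hQ : Q.IsMaximal] {s : B →+* B}

theorem Dat.mem (h : Dat A Q s) {x : B} {m : ℕ} (hx : x ∈ Q ^ m) : s x ∈ Q ^ m := by
  have h1 : Q.map s ≤ Q := map_le_iff_le_comap.2 fun y hy => by
    simpa using Q.add_mem (h.ine y) hy
  have h2 := mem_map_of_mem s hx
  rw [Ideal.map_pow] at h2
  exact pow_right_mono h1 m h2

theorem Dat.notMem (h : Dat A Q s) {x : B} {m : ℕ} (hx : x ∉ Q ^ m) : s x ∉ Q ^ m :=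
  fun hc => hx (h.s3 x ▸ h.mem (h.mem hc))

theorem Dat.exN (h : Dat A Q s) (y : B) : ∃ a, algebraMap A B a = y * s y * s (s y) :=
  h.inv _ (by simp only [map_mul, h.s3]; ring)

theorem Dat.res (h : Dat A Q s) [Finite (B ⧸ Q)] (b : B) : ∃ a, b - algebraMap A B a ∈ Q := by
  let φ : A →+* B ⧸ Q := (Ideal.Quotient.mk Q).comp (algebraMap A B)
  have hs : ∀ x, Ideal.Quotient.mk Q (s x) = Ideal.Quotient.mk Q x := fun x =>
    Ideal.Quotient.eq.2 (h.ine x)
  have key : ∀ g : B ⧸ Q → B ⧸ Q, Function.Injective g → (∀ c ∈ φ.range, g c ∈ φ.range) →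
      g (Ideal.Quotient.mk Q b) ∈ φ.range → Ideal.Quotient.mk Q b ∈ φ.range := by
    intro g hg h1 h2
    have h3 : Function.Injective fun c : φ.range => (⟨g c, h1 c c.2⟩ : φ.range) :=
      fun c d hcd => Subtype.ext (hg (congrArg Subtype.val hcd))
    obtain ⟨c, hc⟩ := Finite.surjective_of_injective h3 ⟨_, h2⟩
    exact hg (congrArg Subtype.val hc) ▸ c.2
  have h4 : Ideal.Quotient.mk Q b ∈ φ.range := by
    by_cases h3 : (3 : B ⧸ Q) = 0
    · refine key (· ^ 3) (fun c d hcd => ?_) (fun c hc => pow_mem hc 3) ?_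
      · have h5 : (c - d) ^ 3 = 0 := by
          simp only at hcd
          linear_combination hcd + (c * d ^ 2 - c ^ 2 * d) * h3
        exact sub_eq_zero.1 (pow_eq_zero_iff (by norm_num) |>.1 h5)
      · obtain ⟨a, ha⟩ := h.exN b
        exact ⟨a, by simp only [φ, RingHom.comp_apply, ha, map_mul, hs]; ring⟩
    · refine key (3 * ·) (mul_right_injective₀ h3)
        (fun c hc => φ.range.mul_mem (by exact_mod_cast natCast_mem φ.range 3) hc) ?_
      obtain ⟨a, ha⟩ := h.inv (b + s b + s (s b)) (by simp only [map_add, h.s3]; ring)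
      exact ⟨a, by simp only [φ, RingHom.comp_apply, ha, map_add, hs]; ring⟩
  obtain ⟨a, ha⟩ := h4
  exact ⟨a, Ideal.Quotient.eq.1 ha.symm⟩

theorem Dat.sub (h : Dat A Q s) [Finite (B ⧸ Q)] {π : B} (h1 : π ∈ Q) (h2 : π ∉ Q ^ 2) {t : ℕ}
    (ht : s π - π ∈ Q ^ (t + 1)) {m : ℕ} {z : B} (hz : z ∈ Q ^ m) : s z - z ∈ Q ^ (m + t) := by
  have key : ∀ d k, m ≤ k → m + t ≤ k + d → ∀ z ∈ Q ^ k, s z - z ∈ Q ^ (m + t) := by
    intro d
    induction d with
    | zero => exact fun k _ hk z hz => pow_le_pow_right hk (sub_mem (h.mem hz) hz)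
    | succ d ih =>
      intro k hm hk z hz
      obtain ⟨c, e, he, rfl⟩ := exists_mul_add_mem_pow_succ h.ne (π ^ k) z (pow_mem_pow h1 k)
        (pow_notMem h.ne h2 k) hz
      obtain ⟨a, ha⟩ := h.res c
      have h3 := ih (k + 1) (by omega) (by omega) (π ^ k * (c - algebraMap A B a) + e)
        (add_mem (mul_mem (j := 1) (pow_mem_pow h1 k) (by simpa using ha) le_rfl) he)
      have h4 := pow_sub_pow (by simpa using h.mem (m := 1) (by simpa using h1)) h1 ht k
      have h5 : s (π ^ k * c + e) - (π ^ k * c + e) =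
          s (π ^ k * (c - algebraMap A B a) + e) - (π ^ k * (c - algebraMap A B a) + e) +
            algebraMap A B a * (s π ^ k - π ^ k) := by
        simp only [map_add, map_mul, map_sub, map_pow, h.fix]; ring
      rw [h5]
      exact add_mem h3 (mul_mem_left _ _ (pow_le_pow_right (by omega) h4))
  exact key t m le_rfl le_rfl z hz

theorem Dat.exT (h : Dat A Q s) [Finite (B ⧸ Q)] {π : B} (h1 : π ∈ Q) (h2 : π ∉ Q ^ 2) :
    ∃ t, s π - π ∈ Q ^ (t + 1) ∧ s π - π ∉ Q ^ (t + 2) := by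
  by_contra hc
  push Not at hc
  have h3 : ∀ t, s π - π ∈ Q ^ (t + 1) := fun t => by
    induction t with
    | zero => simpa using h.ine π
    | succ t ih => exact hc t ih
  obtain ⟨x, hx⟩ := h.nid
  have h4 : s x - x ∈ ⨅ t : ℕ, Q ^ t := Submodule.mem_iInf _ |>.2 fun t => by
    simpa using h.sub h1 h2 (h3 t) (m := 0) (z := x) (by simp)
  rw [Ideal.iInf_pow_eq_bot_of_isDomain Q hQ.ne_top] at h4
  exact hx (sub_eq_zero.1 h4)

theorem Dat.tr (h : Dat A Q s) [Finite (B ⧸ Q)] {π : B} (h1 : π ∈ Q) (h2 : π ∉ Q ^ 2) {t : ℕ}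
    (ht : s π - π ∈ Q ^ (t + 1)) (ht' : s π - π ∉ Q ^ (t + 2)) {m : ℕ} {z : B}
    (hz : z ∈ Q ^ m) : z + s z + s (s z) ∈ Q ^ (m + 2 * t) := by
  have key : ∀ {m : ℕ} {z : B}, z ∈ Q ^ m → z + s z + s (s z) - s z * 3 ∈ Q ^ (m + 2 * t) := by
    intro m z hz
    have h3 := h.sub h1 h2 ht (h.sub h1 h2 ht hz)
    have h4 : z + s z + s (s z) - s z * 3 = s (s z - z) - (s z - z) := by rw [map_sub]; ring
    rwa [h4, two_mul, ← add_assoc]
  have h3 : (3 : B) ∈ Q ^ (2 * t) := by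
    refine cancel h.ne (h.notMem ht') ?_
    have h4 := neg_mem (key ht)
    have h5 : -(s π - π + s (s π - π) + s (s (s π - π)) - s (s π - π) * 3) =
        s (s π - π) * 3 := by
      simp only [map_sub, h.s3]; ring
    rwa [h5] at h4
  simpa using add_mem (key hz) (mul_mem (h.mem hz) h3 le_rfl)

theorem Dat.nrm (h : Dat A Q s) [Finite (B ⧸ Q)] {π : B} (h1 : π ∈ Q) (h2 : π ∉ Q ^ 2) {t : ℕ}
    (ht : s π - π ∈ Q ^ (t + 1)) (ht' : s π - π ∉ Q ^ (t + 2)) {k : ℕ} {x y : B}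
    (hy : y ∈ Q ^ k) (hx : x - y ∈ Q ^ (k + t + 1)) :
    x * s x * s (s x) - y * s y * s (s y) ∈ Q ^ (3 * k + (3 * t + 1)) := by
  obtain ⟨x, rfl⟩ : ∃ z, x = y + z := ⟨x - y, by ring⟩
  rw [add_sub_cancel_left] at hx
  have a1 : x * s y * s (s y) ∈ Q ^ (3 * k + t + 1) :=
    mul_mem (mul_mem hx (h.mem hy) le_rfl) (h.mem (h.mem hy)) (by omega)
  have a2 : x * s x * s (s y) ∈ Q ^ (3 * k + t + 1) :=
    mul_mem (mul_mem hx (h.mem hx) le_rfl) (h.mem (h.mem hy)) (by omega)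
  have a3 : x * s x * s (s x) ∈ Q ^ (3 * k + (3 * t + 1)) :=
    mul_mem (mul_mem hx (h.mem hx) le_rfl) (h.mem (h.mem hx)) (by omega)
  have b1 := h.tr h1 h2 ht ht' a1
  have b2 := h.tr h1 h2 ht ht' a2
  rw [show 3 * k + t + 1 + 2 * t = 3 * k + (3 * t + 1) by ring] at b1 b2
  have := add_mem (add_mem b1 b2) a3
  convert this using 1
  simp only [map_add, map_mul, h.s3]; ring

variable [IsDedekindDomain A] [FaithfulSMul A B]

theorem Dat.desc (h : Dat A Q s) {π : B} (h1 : π ∈ Q) (h2 : π ∉ Q ^ 2) :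
    Q.under A ≠ ⊥ ∧ ∀ (a : A) (j : ℕ), algebraMap A B a ∈ Q ^ (3 * j + 1) →
      a ∈ Q.under A ^ (j + 1) := by
  obtain ⟨w, hw⟩ := h.exN π
  have w1 : algebraMap A B w ∉ Q ^ 4 := by
    rw [hw]
    exact mul_notMem h.ne (mul_notMem h.ne (i := 1) (j := 1) h2 (h.notMem h2)) (j := 1)
      (h.notMem (h.notMem h2))
  have w2 : w ∈ Q.under A := by
    rw [mem_under, hw, mul_assoc]; exact mul_mem_right _ _ h1
  have w3 : w ≠ 0 := by rintro rfl; simp at w1
  have hp : Q.under A ≠ ⊥ := fun hc => w3 (by simpa [hc] using w2)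
  refine ⟨hp, fun a j ha => ?_⟩
  by_cases ha0 : a = 0
  · simp [ha0]
  have key : ∀ a : A, a ≠ 0 → emultiplicity Q (span {algebraMap A B a}) =
      (Q.under A).ramificationIdx' Q * emultiplicity (Q.under A) (span {a}) := by
    intro a ha
    rw [← IsDedekindDomain.emultiplicity_map_eq_ramificationIdx'_mul (by simpa using ha)
      (Ideal.prime_of_isPrime hp inferInstance).irreducible
      (Ideal.prime_of_isPrime h.ne inferInstance).irreducible h.ne, map_span, Set.image_singleton]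
  rw [← pow_one (Q.under A)] at w2
  rw [mem_pow_iff] at w1 w2 ha ⊢
  rw [key w w3] at w1
  rw [key a ha0] at ha
  generalize (Q.under A).ramificationIdx' Q = e at w1 ha
  generalize emultiplicity (Q.under A) (span {w}) = u at w1 w2
  generalize emultiplicity (Q.under A) (span {a}) = v at ha
  have he : e ≤ 3 := by
    by_contra hc
    refine w1 (le_trans ?_ (mul_le_mul_right w2 _))
    norm_cast; omega
  induction v using ENat.recTopCoe with
  | top => simp
  | coe v =>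
    norm_cast at ha ⊢
    have := Nat.mul_le_mul_right v he
    omega

theorem exists_char {G : Type} [CommGroup G] [Finite G] {a : G} (ha : a ≠ 1) :
    ∃ φ : G →* ℂˣ, φ a ≠ 1 :=
  have : NeZero ((Monoid.exponent G : ℕ) : ℂ) :=
    ⟨Nat.cast_ne_zero.2 Monoid.exponent_ne_zero_of_finite⟩
  CommGroup.exists_apply_ne_one_of_hasEnoughRootsOfUnity G ℂ ha

/-- A nontrivial unit whose norm is trivial. -/
theorem Dat.ker (h : Dat A Q s) [Finite (B ⧸ Q)] {π : B} (h1 : π ∈ Q) (h2 : π ∉ Q ^ 2) {t : ℕ}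
    (ht : s π - π ∈ Q ^ (t + 1)) (ht' : s π - π ∉ Q ^ (t + 2)) :
    ∃ u, u ∉ Q ∧ u - 1 ∉ Q ^ (t + 1) ∧ u * s u * s (s u) - 1 ∈ Q ^ (3 * t + 1) := by
  obtain ⟨d, e, he, hde⟩ := exists_mul_add_mem_pow_succ h.ne (π ^ (t + 1)) _
    (pow_mem_pow h1 _) (pow_notMem h.ne h2 _) ht
  have hπ : π ∈ Q ^ 1 := by simpa using h1
  have h3 : π * (1 + π ^ t * d) - s π = -e := by linear_combination hde
  refine ⟨1 + π ^ t * d, fun hc => h.notMem h2 ?_, fun hc => ht' ?_, ?_⟩
  · have h4 : s π = π * (1 + π ^ t * d) + e := by linear_combination -h3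
    rw [h4]
    exact add_mem (mul_mem (j := 1) hπ (by simpa using hc) le_rfl)
      (pow_le_pow_right (by omega) he)
  · rw [← hde, pow_succ' π, mul_assoc]
    exact add_mem (mul_mem hπ (by simpa using hc) (by omega)) he
  · have h4 := h.nrm h1 h2 ht ht' (k := 1) (x := π * (1 + π ^ t * d)) (h.mem hπ)
      (by rw [h3, show 1 + t + 1 = t + 1 + 1 by ring]; exact neg_mem he)
    refine cancel h.ne (i := 3) (a := π * s π * s (s π))
      (mul_notMem h.ne (mul_notMem h.ne (i := 1) (j := 1) h2 (h.notMem h2)) (j := 1)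
        (h.notMem (h.notMem h2))) ?_
    generalize 1 + π ^ t * d = u at h4 ⊢
    convert h4 using 1
    simp only [map_mul, h.s3]; ring

theorem Dat.main (h : Dat A Q s) [Finite (B ⧸ Q)] : ∃ (t : ℕ) (η : A → ℂ),
    (∀ x y, x ∉ Q.under A → y ∉ Q.under A → η (x * y) = η x * η y) ∧
    (∀ x, x ∉ Q.under A → η x ^ 3 = 1) ∧
    (∀ x y, x ∉ Q.under A → y ∉ Q.under A → x - y ∈ Q.under A ^ t → η x = η y) ∧
    (∃ x, x ∉ Q.under A ∧ η x ≠ 1) ∧
    ∀ (x : A) (y : B), y ∉ Q → algebraMap A B x = y * s y * s (s y) → η x = 1 := by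
  obtain ⟨π, h1, h2⟩ := exists_mem_pow_notMem_pow_succ Q h.ne hQ.ne_top 1
  rw [pow_one] at h1
  obtain ⟨t, ht, ht'⟩ := h.exT h1 h2
  obtain ⟨hp, hd⟩ := h.desc h1 h2
  set p := Q.under A
  have hpm : p.IsMaximal := IsPrime.isMaximal inferInstance hp
  have hb : Function.Bijective (quotientMap Q (algebraMap A B) le_rfl : A ⧸ p →+* B ⧸ Q) := by
    refine ⟨quotientMap_injective, fun b => ?_⟩
    obtain ⟨b, rfl⟩ := Ideal.Quotient.mk_surjective b
    obtain ⟨a, ha⟩ := h.res b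
    exact ⟨Ideal.Quotient.mk _ a, (Ideal.Quotient.eq.2 ha).symm⟩
  have hfin : Finite (A ⧸ p) := Finite.of_injective _ hb.1
  obtain ⟨fA, cA⟩ := card_units hp t
  obtain ⟨fB, cB⟩ := card_units h.ne t
  rw [Nat.card_eq_of_bijective _ hb] at cA
  have hc : Nat.card (B ⧸ Q ^ (t + 1))ˣ ≤ Nat.card (A ⧸ p ^ (t + 1))ˣ := by omega
  choose N hN using h.exN
  have inj := FaithfulSMul.algebraMap_injective A B
  have hcong : ∀ x y, x - y ∈ Q ^ (t + 1) →
      Ideal.Quotient.mk (p ^ (t + 1)) (N x) = Ideal.Quotient.mk _ (N y) := fun x y hxy => by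
    refine Ideal.Quotient.eq.2 (hd _ t ?_)
    rw [map_sub, hN, hN]
    simpa using h.nrm h1 h2 ht ht' (k := 0) (x := x) (y := y) (by simp) (by simpa using hxy)
  have hout : ∀ y, Ideal.Quotient.mk (p ^ (t + 1)) (N (Ideal.Quotient.mk (Q ^ (t + 1)) y).out) =
      Ideal.Quotient.mk _ (N y) := fun y =>
    hcong _ _ (Ideal.Quotient.eq.1 (Ideal.Quotient.mk_out _))
  let f : B ⧸ Q ^ (t + 1) →* A ⧸ p ^ (t + 1) :=
    { toFun := fun x => Ideal.Quotient.mk _ (N x.out)
      map_one' := by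
        have h3 : N 1 = 1 := inj (by simp [hN])
        simpa [h3] using hout 1
      map_mul' := fun x y => by
        obtain ⟨x, rfl⟩ := Ideal.Quotient.mk_surjective x
        obtain ⟨y, rfl⟩ := Ideal.Quotient.mk_surjective y
        have h3 : N (x * y) = N x * N y := inj (by simp only [hN, map_mul]; ring)
        rw [← map_mul, hout, hout, hout, h3, map_mul] }
  have hf : ∀ y, f (Ideal.Quotient.mk _ y) = Ideal.Quotient.mk _ (N y) := hout
  have hns : ¬ Function.Surjective (Units.map f) := by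
    intro hs
    obtain ⟨u, u1, u2, u3⟩ := h.ker h1 h2 ht ht'
    have hu := Ideal.Quotient.isUnit_mk_pow_of_notMem Q (n := t + 1) u1
    have h3 : Units.map f hu.unit = Units.map f 1 := by
      ext
      simp only [Units.coe_map, IsUnit.unit_spec, hf, map_one, Units.val_one]
      rw [← map_one (Ideal.Quotient.mk _)]
      exact Ideal.Quotient.eq.2 (hd _ t (by rwa [map_sub, hN, map_one]))
    have h4 := congrArg Units.val ((hs.bijective_of_nat_card_le hc).1 h3)
    rw [IsUnit.unit_spec, Units.val_one, ← map_one (Ideal.Quotient.mk _)] at h4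
    exact u2 (Ideal.Quotient.eq.1 h4)
  obtain ⟨r, hr⟩ : ∃ r, r ∉ (Units.map f).range := by
    by_contra hc
    push Not at hc
    exact hns hc
  obtain ⟨χ, hχ⟩ := exists_char (a := (r : _ ⧸ (Units.map f).range))
    (fun hc => hr ((QuotientGroup.eq_one_iff r).1 hc))
  let η : A → ℂ := fun x => if hx : IsUnit (Ideal.Quotient.mk (p ^ (t + 1)) x) then
    (χ (hx.unit : _ ⧸ (Units.map f).range) : ℂˣ) else 0
  have hη : ∀ (x : A) (u : (A ⧸ p ^ (t + 1))ˣ), (u : A ⧸ p ^ (t + 1)) = Ideal.Quotient.mk _ x →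
      η x = (χ (u : _ ⧸ (Units.map f).range) : ℂˣ) := by
    intro x u hu
    have hx : IsUnit (Ideal.Quotient.mk (p ^ (t + 1)) x) := ⟨u, hu⟩
    have h3 : hx.unit = u := Units.ext (by simp [hu])
    simp only [η, dif_pos hx, h3]
  have hun : ∀ x, x ∉ p → ∃ u : (A ⧸ p ^ (t + 1))ˣ,
      (u : A ⧸ p ^ (t + 1)) = Ideal.Quotient.mk _ x := fun x hx =>
    Ideal.Quotient.isUnit_mk_pow_of_notMem p hx
  have hmul : ∀ x y, x ∉ p → y ∉ p → η (x * y) = η x * η y := fun x y hx hy => by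
    obtain ⟨u, hu⟩ := hun x hx
    obtain ⟨v, hv⟩ := hun y hy
    rw [hη x u hu, hη y v hv, hη (x * y) (u * v) (by simp [hu, hv])]
    simp
  have hnorm : ∀ (x : A) (y : B), y ∉ Q → algebraMap A B x = y * s y * s (s y) → η x = 1 := by
    intro x y hy hxy
    have hu := Ideal.Quotient.isUnit_mk_pow_of_notMem Q (n := t + 1) hy
    have h3 : N y = x := inj (by rw [hN, hxy])
    rw [hη x (Units.map f hu.unit) (by simp [hf, h3]),
      (QuotientGroup.eq_one_iff _).2 (MonoidHom.mem_range.2 ⟨_, rfl⟩)]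
    simp
  refine ⟨t + 1, η, hmul, fun x hx => ?_, fun x y hx _ hxy => ?_, ?_, hnorm⟩
  · have h3 : x * x ∉ p := fun hc => (hpm.isPrime.mem_or_mem hc).elim hx hx
    have h4 := hnorm (x * x * x) (algebraMap A B x) hx (by simp [h.fix])
    rw [hmul _ _ h3 hx, hmul _ _ hx hx] at h4
    rw [← h4]; ring
  · obtain ⟨u, hu⟩ := hun x hx
    rw [hη x u hu, hη y u (hu.trans (Ideal.Quotient.eq.2 hxy))]
  · obtain ⟨x, hx⟩ := Ideal.Quotient.mk_surjective (r : A ⧸ p ^ (t + 1))
    refine ⟨x, (Ideal.Quotient.isUnit_mk_pow_iff_notMem p t.succ_ne_zero).1 ⟨r, hx.symm⟩, ?_⟩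
    rw [hη x r hx.symm]
    simpa using hχ

end Fil

theorem fil : FIL := by
  intro F M _ _ _ _ _ _ σ Q h3 hσ hQ hin
  have hcard : Nat.card Gal(M/F) = 3 := by rw [IsGalois.card_aut_eq_finrank, h3]
  have : Fact (Nat.Prime 3) := ⟨by norm_num⟩
  have hσ3 : σ ^ 3 = 1 := by rw [← hcard]; exact pow_card_eq_one'
  have hQ0 : Q ≠ ⊥ := Ring.ne_bot_of_isMaximal_of_not_isField hQ (RingOfIntegers.not_isField M)
  have : Finite (𝓞 M ⧸ Q) := Ideal.finiteQuotientOfFreeOfNeBot Q hQ0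
  have hco : ∀ x : 𝓞 M, ((σ • x : 𝓞 M) : M) = σ x := fun x => rfl
  have h : Fil.Dat (𝓞 F) Q (MulSemiringAction.toRingHom Gal(M/F) (𝓞 M) σ) := by
    refine ⟨hQ0, fun x => ?_, fun a => ?_, fun x hx => ?_, hin, ?_⟩
    · change σ • σ • σ • x = x
      rw [smul_smul, smul_smul, ← pow_three', hσ3, one_smul]
    · exact Subtype.ext (σ.commutes a)
    · have h1 : σ (x : M) = x := congrArg Subtype.val hx
      have h2 : ∀ τ : Gal(M/F), τ (x : M) = x := by
        intro τ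
        have h4 : τ ∈ Subgroup.zpowers σ := mem_zpowers_of_prime_card hcard hσ
        exact (Subgroup.zpowers_le.2 h1 : _ ≤ MulAction.stabilizer Gal(M/F) (x : M)) h4
      obtain ⟨a, ha⟩ := (IsGalois.mem_range_algebraMap_iff_fixed (x : M)).2 h2
      have h5 : IsIntegral ℤ a := by
        rw [← isIntegral_algebraMap_iff (algebraMap F M).injective, ha]
        exact x.isIntegral_coe
      exact ⟨⟨a, h5⟩, Subtype.ext ha⟩
    · by_contra hc
      push Not at hc
      refine hσ (AlgEquiv.ext fun z => ?_)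
      obtain ⟨x, y, hy, rfl⟩ := IsFractionRing.div_surjective (A := 𝓞 M) z
      have h1 : ∀ x : 𝓞 M, σ (algebraMap (𝓞 M) M x) = algebraMap (𝓞 M) M x := fun x =>
        congrArg Subtype.val (hc x)
      simp [map_div₀, h1]
  exact h.main

end

end Pool.Agent.P.MP_29cb78_nt.C
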