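import Pool.Agent.P.MP_29cb78_nt.C.Iface
import Pool.Agent.P.MP_29cb78_nt.Imp

/-!
The action of odd functions on the unit attached to the cubic character.
-/

namespace Pool.Agent.P.MP_29cb78_nt.C

open NumberField NumberField.InfinitePlace NumberField.Units Set Ideal Filter Topology
open NumberField.ComplexEmbedding (IsConj)
open scoped Classical ComplexConjugate nonZeroDivisors

set_option linter.unusedSectionVars false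

noncomputable section

variable {k F Ω : Type} [Field k] [Field F] [Field Ω] [NumberField k] [NumberField F]
  [NumberField Ω] [Algebra k Ω] [Algebra F Ω] [IsGalois ℚ Ω] {ζ : Ω} {φ : Ω →+* ℂ}
  {Ψ : Gal(Ω/ℚ) → ℂ} {g c : Gal(Ω/ℚ)} {m : ℕ} [NeZero m]

theorem cy_eq (hζ : IsPrimitiveRoot ζ m) {ρ : Gal(Ω/ℚ)} {u : (ZMod m)ˣ} :
    hζ.autToPow ℚ ρ = u ↔ ρ ζ = ζ ^ (u : ZMod m).val := by
  rw [← hζ.autToPow_spec ℚ ρ]
  refine ⟨fun h => by rw [h], fun h => Units.ext (ZMod.val_injective m ?_)⟩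
  exact hζ.pow_inj (ZMod.val_lt _) (ZMod.val_lt _) h

theorem cy_conj (hζ : IsPrimitiveRoot ζ m) {ψ : Ω →+* ℂ} {j : Gal(Ω/ℚ)} (h : IsConj ψ j) :
    hζ.autToPow ℚ j = -1 := by
  have h1 : ‖ψ ζ‖ = 1 := (hζ.map_of_injective ψ.injective).norm'_eq_one (NeZero.ne m)
  have h2 : j ζ * ζ = 1 := ψ.injective (by
    rw [map_mul, h.eq, map_one, RCLike.star_def, Complex.conj_mul', h1]
    simp)
  rw [← hζ.autToPow_spec ℚ j, ← pow_succ, hζ.pow_eq_one_iff_dvd, ← ZMod.natCast_eq_zero_iff] at h2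
  apply Units.ext
  push_cast at h2
  rw [ZMod.natCast_zmod_val] at h2
  simpa using eq_neg_of_add_eq_zero_left h2

variable (k F Ω) in
/-- The automorphisms fixing the Galois closure of `k`. -/
def CC : Finset Gal(Ω/ℚ) := Finset.univ.filter fun ρ => ρ ∈ fixSub ℚ F Ω ∧ ρ ∈ fixSub ℚ k Ω

theorem mem_CC {ρ : Gal(Ω/ℚ)} : ρ ∈ CC k F Ω ↔ ρ ∈ fixSub ℚ F Ω ∧ ρ ∈ fixSub ℚ k Ω := by
  simp [CC]

namespace Cub

variable (D : Cub k F Ω ζ φ Ψ g c)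
include D

theorem index (hA : ARTEX) : (fixSub ℚ F Ω).index = 2 := by
  have h := (fixSub ℚ F Ω).index_mul_card
  rw [IsGalois.card_aut_eq_finrank, (hA ℚ F Ω).1, ← Module.finrank_mul_finrank ℚ F Ω, D.h2] at h
  exact Nat.eq_of_mul_eq_mul_right Module.finrank_pos h

theorem cy_inj (hζ : IsPrimitiveRoot ζ m) {a b : Gal(Ω/ℚ)} (ha : a ∈ CC k F Ω)
    (hb : b ∈ CC k F Ω) (h : hζ.autToPow ℚ a = hζ.autToPow ℚ b) : a = b := by
  rw [mem_CC] at ha hb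
  have h1 := mul_mem (inv_mem ha.1) hb.1
  have h2 : a⁻¹ * b = 1 := D.inj _ h1 ((D.ker _ h1).mp (mul_mem (inv_mem ha.2) hb.2)) (by
    have : hζ.autToPow ℚ (a⁻¹ * b) = hζ.autToPow ℚ 1 := by simp [h]
    rw [← hζ.autToPow_spec ℚ, this, hζ.autToPow_spec ℚ]
    rfl)
  exact inv_mul_eq_one.mp h2

end Cub

variable {G : Type} [Group G]

variable (k F) in
/-- The unit attached to a function on `G`. -/
def UU (κ : Gal(Ω/ℚ) →* G) (β : (𝓞 Ω)ˣ) (t : G → ℤ) : (𝓞 Ω)ˣ :=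
  ∏ ρ ∈ CC k F Ω, uact ρ β ^ t (κ ρ)⁻¹

theorem UU_add (κ : Gal(Ω/ℚ) →* G) (β : (𝓞 Ω)ˣ) (t t' : G → ℤ) :
    UU k F κ β (fun x => t x + t' x) = UU k F κ β t * UU k F κ β t' := by
  simp only [UU, zpow_add, Finset.prod_mul_distrib]

theorem UU_mul (κ : Gal(Ω/ℚ) →* G) (β : (𝓞 Ω)ˣ) (t : G → ℤ) (n : ℤ) :
    UU k F κ β (fun x => t x * n) = UU k F κ β t ^ n := by
  simp only [UU, zpow_mul, Finset.prod_zpow]

theorem coe_UU (κ : Gal(Ω/ℚ) →* G) (β : (𝓞 Ω)ˣ) (t : G → ℤ) :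
    (UU k F κ β t : Ω) = ∏ ρ ∈ CC k F Ω, ρ (β : Ω) ^ t (κ ρ)⁻¹ := by
  let e : (𝓞 Ω)ˣ →* Ω := (algebraMap (𝓞 Ω) Ω).toMonoidHom.comp (Units.coeHom _)
  refine (map_prod e _ _).trans (Finset.prod_congr rfl fun ρ _ => ?_)
  exact NumberField.Units.coe_zpow _ _

theorem log_UU (φ : Ω →+* ℂ) (κ : Gal(Ω/ℚ) →* G) (β : (𝓞 Ω)ˣ) (t : G → ℤ) :
    Real.log (‖φ (UU k F κ β t)‖ ^ 2) =
      ∑ ρ ∈ CC k F Ω, t (κ ρ)⁻¹ * Real.log (‖φ (ρ β)‖ ^ 2) := by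
  rw [coe_UU, map_prod, norm_prod, ← Finset.prod_pow, Real.log_prod fun ρ _ => ?_]
  · refine Finset.sum_congr rfl fun ρ _ => ?_
    rw [map_zpow₀, norm_zpow, Real.log_pow, Real.log_pow, Real.log_zpow]
    ring
  · rw [map_zpow₀, norm_zpow]
    exact pow_ne_zero _ (zpow_ne_zero _ (norm_pos_unit φ ρ β).ne')

theorem act_UU_of_mem (κ : Gal(Ω/ℚ) →* G) (hc : ∀ a b : G, a * b = b * a) (β : (𝓞 Ω)ˣ)
    (t : G → ℤ) {a : Gal(Ω/ℚ)} (ha : a ∈ CC k F Ω) :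
    a (UU k F κ β t : Ω) = UU k F κ β fun x => t (κ a * x) := by
  rw [coe_UU, coe_UU, map_prod]
  rw [mem_CC] at ha
  refine Finset.prod_nbij' (fun ρ => a * ρ) (fun ρ => a⁻¹ * ρ) (fun ρ h => ?_) (fun ρ h => ?_)
    (fun ρ _ => by simp) (fun ρ _ => by simp) fun ρ _ => ?_
  · rw [mem_CC] at h ⊢
    exact ⟨mul_mem ha.1 h.1, mul_mem ha.2 h.2⟩
  · rw [mem_CC] at h ⊢
    exact ⟨mul_mem (inv_mem ha.1) h.1, mul_mem (inv_mem ha.2) h.2⟩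
  · rw [map_zpow₀, map_mul, mul_inv_rev, hc (κ ρ)⁻¹, mul_inv_cancel_left]
    rfl

theorem act_UU (hA : ARTEX) (D : Cub k F Ω ζ φ Ψ g c) (hζ : IsPrimitiveRoot ζ m)
    (pm : (ZMod m)ˣ →* G) (hc : ∀ a b : G, a * b = b * a) {β : (𝓞 Ω)ˣ}
    (hβ : (g⁻¹ * c * g) (β : Ω) * β = 1) {t : G → ℤ} (ht : ∀ x, t (pm (-1) * x) = -t x)
    {a : Gal(Ω/ℚ)} (ha : a ∈ fixSub ℚ k Ω) :
    a (UU k F (pm.comp (hζ.autToPow ℚ)) β t : Ω) =
      UU k F (pm.comp (hζ.autToPow ℚ)) β fun x => t (pm (hζ.autToPow ℚ a) * x) := by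
  by_cases h : a ∈ fixSub ℚ F Ω
  · exact act_UU_of_mem _ hc β t (mem_CC.mpr ⟨h, ha⟩)
  have hi := fun a b => Subgroup.mul_mem_iff_of_index_two (D.index hA) (a := a) (b := b)
  set j := g⁻¹ * c * g with hj
  have hjF : j ∉ fixSub ℚ F Ω := by
    simp [hj, hi, D.gF, D.cF]
  have hjc : hζ.autToPow ℚ j = -1 := by
    simp [hj, cy_conj hζ D.cj]
  have h1 : a * j⁻¹ ∈ CC k F Ω :=
    mem_CC.mpr ⟨by simp [hi, h, hjF], mul_mem ha (inv_mem D.jk)⟩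
  have h2 : j (UU k F (pm.comp (hζ.autToPow ℚ)) β t : Ω) =
      UU k F (pm.comp (hζ.autToPow ℚ)) β fun x => t (pm (-1) * x) := by
    rw [coe_UU, coe_UU, map_prod]
    refine Finset.prod_congr rfl fun ρ hρ => ?_
    have h3 : j * ρ * j⁻¹ = ρ := D.cy_inj hζ (mem_CC.mpr ⟨by
      simp [hi, hjF, (mem_CC.mp hρ).1], mul_mem (mul_mem D.jk (mem_CC.mp hρ).2) (inv_mem D.jk)⟩)
      hρ (by simp)
    have h4 : j (ρ (β : Ω)) = ρ (j β) := by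
      rw [← AlgEquiv.mul_apply, ← AlgEquiv.mul_apply, ← mul_inv_eq_iff_eq_mul.mp h3]
    rw [ht, map_zpow₀, h4, eq_inv_of_mul_eq_one_left hβ, map_inv₀, inv_zpow, zpow_neg]
  have h5 : a = a * j⁻¹ * j := by simp
  conv_lhs => rw [h5, AlgEquiv.mul_apply, h2, act_UU_of_mem _ hc β _ h1]
  congr 3
  ext x
  simp only [MonoidHom.comp_apply, map_mul, map_inv, hjc]
  rw [← mul_assoc, hc (pm (-1)), inv_mul_cancel_right]

end

end Pool.Agent.P.MP_29cb78_nt.C
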