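import Pool.Agent.P.MP_29cb78_nt.C.FinA

/-!
Derivatives at `0` of the series over the classes of ideals of the cubic field.
-/

namespace Pool.Agent.P.MP_29cb78_nt.C

open NumberField NumberField.InfinitePlace NumberField.Units Set Ideal Filter Topology
open scoped Classical ComplexConjugate nonZeroDivisors

set_option linter.unusedSectionVars false

noncomputable section

variable {k : Type} [Field k] [NumberField k] {m : ℕ} [NeZero m] {G : Type} [Group G]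

/-- The indicator of the fibre of `pm` over `σ`. -/
def ind (pm : (ZMod m)ˣ →* G) (σ : G) (b : ZMod m) : ℂ :=
  if ∃ u : (ZMod m)ˣ, b = u ∧ pm u = σ then 1 else 0

theorem ind_mul (pm : (ZMod m)ˣ →* G) (σ : G) (v : (ZMod m)ˣ) (b : ZMod m) :
    ind pm σ (v * b) = ind pm ((pm v)⁻¹ * σ) b := by
  unfold ind
  congr 1
  refine propext ⟨fun ⟨u, h1, h2⟩ => ⟨v⁻¹ * u, by simp [← h1], by simp [h2]⟩,
    fun ⟨u, h1, h2⟩ => ⟨v * u, by simp [h1], by simp [h2]⟩⟩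

variable (k m) in
/-- The norm modulo `m`. -/
def nrm : Ideal (𝓞 k) →* ZMod m :=
  (Nat.castRingHom (ZMod m)).toMonoidHom.comp (absNorm (S := 𝓞 k)).toMonoidHom

theorem nrm_apply (I : Ideal (𝓞 k)) : nrm k m I = (absNorm I : ZMod m) := rfl

/-- The series over the ideals coprime to `J` with norm in the fibre over `σ`. -/
def ZJ (pm : (ZMod m)ˣ →* G) (J : Ideal (𝓞 k)) (σ : G) : ℂ → ℂ :=
  Lser fun I : Ideal (𝓞 k) => if IsCoprime I J then ind pm σ (nrm k m I) else 0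

theorem isCoprime_of_isUnit {I : Ideal (𝓞 k)} (h : IsUnit (absNorm I : ZMod m)) :
    IsCoprime I (span {(m : 𝓞 k)}) := by
  obtain ⟨a, b, h1⟩ := Nat.isCoprime_iff_coprime.mpr ((ZMod.isUnit_iff_coprime _ _).mp h)
  rw [Ideal.isCoprime_iff_exists]
  refine ⟨a * absNorm I, I.mul_mem_left _ (absNorm_mem I), b * m,
    Ideal.mul_mem_left _ _ (mem_span_singleton_self _), ?_⟩
  exact_mod_cast congrArg (Int.cast : ℤ → 𝓞 k) h1

theorem isUnit_of_notMem {P : Ideal (𝓞 k)} (hP : P.IsMaximal) (h : (m : 𝓞 k) ∉ P) :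
    IsUnit (absNorm P : ZMod m) := by
  rw [ZMod.isUnit_iff_coprime]
  refine Nat.coprime_of_dvd fun p hp h1 h2 => h ?_
  have h3 : (p : 𝓞 k) ∈ P := by
    obtain ⟨Q, hQ, h4, h5⟩ := Ideal.exists_isMaximal_dvd_of_dvd_absNorm' hp P h1
    have h6 : Q = P := (hP.eq_of_le hQ.ne_top (Ideal.le_of_dvd h5)).symm
    have : ((p : ℤ) : ℤ) ∈ Q.under ℤ := h4 ▸ mem_span_singleton_self _
    simpa [h6] using Ideal.mem_comap.mp this
  obtain ⟨d, rfl⟩ := h2
  push_cast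
  exact P.mul_mem_right _ h3

theorem zJ_zero (hD : DIRI) (pm : (ZMod m)ˣ →* G) (σ : G) {s : ℂ} (hs : 1 < s.re) :
    ZJ pm (span {(m : 𝓞 k)}) σ s = ∑ u ∈ Finset.univ.filter fun u : (ZMod m)ˣ => pm u = σ,
      Dz m (fun _ : Ideal (𝓞 k) => 1) u s := by
  simp only [ZJ, Dz, Lser]
  rw [← Summable.tsum_finsetSum fun u _ => Summable.of_norm_bounded (hD k s hs).1 fun I => by
    rw [norm_mul]
    refine mul_le_of_le_one_left (norm_nonneg _) ?_
    split_ifs <;> simp]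
  refine tsum_congr fun I => ?_
  rw [← Finset.sum_mul]
  congr 1
  by_cases h : ∃ u : (ZMod m)ˣ, (absNorm I : ZMod m) = u ∧ pm u = σ
  · obtain ⟨u, h1, h2⟩ := h
    rw [if_pos (isCoprime_of_isUnit (h1 ▸ u.isUnit)), ind, if_pos ⟨u, h1, h2⟩,
      Finset.sum_eq_single u (fun v _ hv => if_neg fun h3 => hv (Units.ext (h3.symm.trans h1)))
        (fun h3 => (h3 (by simp [h2])).elim), if_pos h1]
  · rw [ind, nrm_apply, if_neg h, ite_self]
    exact (Finset.sum_eq_zero fun u hu => if_neg fun h1 =>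
      h ⟨u, h1, (Finset.mem_filter.mp hu).2⟩).symm

/-- The invariant of the induction on the primes dividing the modulus. -/
def Good (pm : (ZMod m)ˣ →* G) (w : ℕ) (b : G → ℤ) {ι : Type} (S : Finset ι) (κ : ι → G)
    (μ : ι → ℝ) (J : Ideal (𝓞 k)) : Prop :=
  ∃ z : G → ℚ, (∀ x, z (pm (-1) * x) = -z x) ∧ (∀ x, ∃ n : ℤ, w * z x = n) ∧
    (∀ σ x, ∃ n : ℤ, z (σ * x) - b σ * z x = n) ∧
    ∀ σ, Cont (ZJ pm J σ) (-(∑ i ∈ S, z (σ * (κ i)⁻¹) * μ i : ℝ))

theorem Good.mul (hR : RMV) {pm : (ZMod m)ˣ →* G} (hc : ∀ a b : G, a * b = b * a) {w : ℕ}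
    {b : G → ℤ} {ι : Type} {S : Finset ι} {κ : ι → G} {μ : ι → ℝ} {J P : Ideal (𝓞 k)}
    (h : Good pm w b S κ μ J) (hP : P.IsMaximal) (hm : (m : 𝓞 k) ∉ P) (hJ : IsCoprime P J) :
    Good pm w b S κ μ (J * P) := by
  obtain ⟨z, h1, h2, h3, h4⟩ := h
  obtain ⟨v, hv⟩ := isUnit_of_notMem hP hm
  have e : ∀ σ x : G, (pm v)⁻¹ * (σ * x) = σ * ((pm v)⁻¹ * x) := fun σ x => by
    rw [← mul_assoc, hc _ σ, mul_assoc]
  refine ⟨fun x => z x - z ((pm v)⁻¹ * x), fun x => ?_, fun x => ?_, fun σ x => ?_, fun σ => ?_⟩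
  · simp only [e, h1]
    ring
  · obtain ⟨n, hn⟩ := h2 x
    obtain ⟨n', hn'⟩ := h2 ((pm v)⁻¹ * x)
    exact ⟨n - n', by rw [mul_sub, hn, hn', Int.cast_sub]⟩
  · obtain ⟨n, hn⟩ := h3 σ x
    obtain ⟨n', hn'⟩ := h3 σ ((pm v)⁻¹ * x)
    refine ⟨n - n', ?_⟩
    simp only [e]
    rw [Int.cast_sub, ← hn, ← hn']
    ring
  · have h5 : (absNorm P : ℂ) ≠ 0 := Nat.cast_ne_zero.mpr (absNorm_ne_zero_of_isMaximal hP)
    have h6 : Differentiable ℂ fun s : ℂ => -(absNorm P : ℂ) ^ (-s) :=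
      (differentiable_id.neg.const_cpow (Or.inl h5)).neg
    refine ((h4 σ).add ((h4 ((pm v)⁻¹ * σ)).mul_entire h6)).congr (fun s hs => ?_) ?_
    · have := hR k (ZMod m) (nrm k m) (ind pm σ) J P (fun b => by
        unfold ind
        split_ifs <;> simp) hP hJ s hs
      simp only [nrm_apply P, ← hv, ind_mul] at this
      simp only [ZJ]
      rw [this]
      ring
    · simp only [mul_assoc, Rat.cast_sub, sub_mul, Finset.sum_sub_distrib]
      simp
      ring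

theorem Good.prod (hR : RMV) {pm : (ZMod m)ˣ →* G} (hc : ∀ a b : G, a * b = b * a) {w : ℕ}
    {b : G → ℤ} {ι : Type} {S : Finset ι} {κ : ι → G} {μ : ι → ℝ}
    (h : Good pm w b S κ μ (span {(m : 𝓞 k)})) (T : Finset (Ideal (𝓞 k)))
    (hT : ∀ P ∈ T, P.IsMaximal ∧ (m : 𝓞 k) ∉ P) :
    Good pm w b S κ μ (span {(m : 𝓞 k)} * ∏ P ∈ T, P) := by
  induction T using Finset.induction_on with
  | empty => simpa using h
  | insert P T hP ih =>
    obtain ⟨h1, h2⟩ := hT P (Finset.mem_insert_self _ _)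
    rw [Finset.prod_insert hP, mul_comm P, ← mul_assoc]
    refine (ih fun Q hQ => hT Q (Finset.mem_insert_of_mem hQ)).mul hR hc h1 h2
      (IsCoprime.mul_right ?_ (IsCoprime.prod_right fun Q hQ => ?_))
    · rw [Ideal.isCoprime_iff_sup_eq]
      exact h1.out.2 _ (left_lt_sup.mpr fun h3 => h2 (h3 (mem_span_singleton_self _)))
    · rw [Ideal.isCoprime_iff_sup_eq]
      exact h1.coprime_of_ne (hT Q (Finset.mem_insert_of_mem hQ)).1 fun h3 => hP (h3 ▸ hQ)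

theorem coprime_iff {f : Ideal (𝓞 k)} (hf : f ≠ ⊥)
    (hm : ∀ P : Ideal (𝓞 k), P.IsMaximal → (m : 𝓞 k) ∈ P → f ≤ P) (I : Ideal (𝓞 k)) :
    IsCoprime I (span {(m : 𝓞 k)} * ∏ P ∈ (pdiv f).filter fun P => (m : 𝓞 k) ∉ P, P) ↔
      IsCoprime I f := by
  have key : ∀ I J : Ideal (𝓞 k), IsCoprime I J ↔
      ∀ P : Ideal (𝓞 k), P.IsMaximal → I ≤ P → ¬ J ≤ P := fun I J => by
    rw [Ideal.isCoprime_iff_sup_eq]
    refine ⟨fun h P hP h1 h2 => hP.ne_top (top_le_iff.mp (h ▸ sup_le h1 h2)), fun h => ?_⟩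
    by_contra h1
    obtain ⟨P, hP, h2⟩ := Ideal.exists_le_maximal _ h1
    exact h P hP (le_sup_left.trans h2) (le_sup_right.trans h2)
  have mem : ∀ P : Ideal (𝓞 k), P.IsMaximal → (P ∈ pdiv f ↔ f ≤ P) := fun P hP => by
    rw [pdiv, Multiset.mem_toFinset, Ideal.mem_normalizedFactors_iff hf, and_iff_right hP.isPrime]
  rw [key, key]
  refine forall_congr' fun P => forall_congr' fun hP => forall_congr' fun _ => not_congr ?_
  rw [hP.isPrime.mul_le, hP.isPrime.prod_le, span_singleton_le_iff_mem]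
  constructor
  · rintro (h | ⟨Q, h1, h2⟩)
    · exact hm P hP h
    · have h3 := (Finset.mem_filter.mp h1).1
      exact ((mem Q (isMaximal_of_mem_pdiv h3)).mp h3).trans h2
  · intro h
    by_cases h1 : (m : 𝓞 k) ∈ P
    · exact Or.inl h1
    · exact Or.inr ⟨P, Finset.mem_filter.mpr ⟨(mem P hP).mpr h, h1⟩, le_rfl⟩

/-- The starting point of the induction. -/
theorem cont_zero (hD : DIRI) (hC : CONV) (hH : HURW) (hm : 2 ≤ m) {F : Type} [Field F]
    [NumberField F] (A : Ideal (𝓞 F) → ℂ) (hA : ∀ I, ‖A I‖ ≤ 1)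
    (hz : ∀ s : ℂ, 1 < s.re → Lser (fun _ : Ideal (𝓞 ℚ) => 1) s * Lser A s =
      Lser (fun _ : Ideal (𝓞 k) => 1) s) {ι : Type} (S : Finset ι) (cy : ι → (ZMod m)ˣ)
    (μ : ι → ℝ) (h : ∀ u : (ZMod m)ˣ,
      Cont (Dz m A u) (-(∑ i ∈ S, if cy i = u then μ i else 0 : ℝ)))
    (pm : (ZMod m)ˣ →* G) (σ : G) :
    Cont (ZJ pm (span {(m : 𝓞 k)}) σ) (-(∑ i ∈ S, stz pm (σ * (pm (cy i))⁻¹) * μ i : ℝ)) := by
  refine (Cont.sum (Finset.univ.filter fun u : (ZMod m)ˣ => pm u = σ) fun u _ =>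
    Cont.sum Finset.univ fun x _ => hH m x _ _ hm (h (x⁻¹ * u))).congr (fun s hs => ?_) ?_
  · rw [zJ_zero hD pm σ hs]
    exact Finset.sum_congr rfl fun u _ => (hC k F A hA hz m u s hs).symm
  · simp only [stz, mul_neg, Finset.sum_neg_distrib, neg_inj, Complex.ofReal_sum, Finset.mul_sum,
      Rat.cast_sum, Finset.sum_mul]
    rw [Finset.sum_comm]
    simp only [Finset.sum_comm (t := S)]
    refine Finset.sum_congr rfl fun i _ => Finset.sum_congr rfl fun x _ => ?_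
    rw [Finset.sum_filter, Finset.sum_eq_single (x * cy i) (fun u _ hu => by
      rw [if_neg (fun h1 : cy i = x⁻¹ * u => hu (by simp [h1]))]
      simp) (by simp)]
    simp only [map_mul, inv_mul_cancel_left, if_true, eq_mul_inv_iff_mul_eq]
    split_ifs <;> simp

end

end Pool.Agent.P.MP_29cb78_nt.C
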