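import Pool.Agent.P.MP_29cb78_nt.C.FinB

/-!
Assembly of the Stark unit.
-/

namespace Pool.Agent.P.MP_29cb78_nt.C

open NumberField NumberField.InfinitePlace NumberField.Units Set Ideal Filter Topology
open scoped Classical ComplexConjugate nonZeroDivisors

set_option linter.unusedSectionVars false

noncomputable section

theorem descend {K Ω : Type} [Field K] [Field Ω] [NumberField K] [NumberField Ω] [Algebra K Ω]
    [IsGalois K Ω] (U : (𝓞 Ω)ˣ) (h : ∀ a : Gal(Ω/K), a (U : Ω) = U) :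
    ∃ u : (𝓞 K)ˣ, algebraMap K Ω u = U := by
  obtain ⟨x, hx⟩ := (IsGalois.mem_range_algebraMap_iff_fixed (F := K) (U : Ω)).mpr h
  have h0 : x ≠ 0 := fun h => NumberField.Units.coe_ne_zero U (by rw [← hx, h, map_zero])
  have h1 : IsIntegral ℤ x := (isIntegral_algebraMap_iff (algebraMap K Ω).injective).mp
    (hx ▸ (U : 𝓞 Ω).isIntegral_coe)
  have h2 : IsIntegral ℤ x⁻¹ := (isIntegral_algebraMap_iff (algebraMap K Ω).injective).mp (by
    rw [map_inv₀, hx, ← zpow_neg_one, ← NumberField.Units.coe_zpow]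
    exact ((U ^ (-1 : ℤ) : (𝓞 Ω)ˣ) : 𝓞 Ω).isIntegral_coe)
  exact ⟨⟨⟨x, h1⟩, ⟨x⁻¹, h2⟩, Subtype.ext (mul_inv_cancel₀ h0), Subtype.ext (inv_mul_cancel₀ h0)⟩,
    hx⟩

variable {k K E : Type} [Field k] [Field K] [Field E] [NumberField k] [NumberField K]
  [NumberField E] [Algebra k K] [Algebra K E] [Algebra k E] [IsScalarTower k K E] {m : ℕ}
  [NeZero m] [IsCyclotomicExtension {m} k E] {f : Ideal (𝓞 k)}

theorem class_eq (hD : DIRI) (hAC : ARTCYC) {ζ : E} (hζ : IsPrimitiveRoot ζ m)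
    {pm : (ZMod m)ˣ →* Gal(K/k)} (hp : IsCycMap ζ pm)
    (hm : ∀ P : Ideal (𝓞 k), P.IsMaximal → (m : 𝓞 k) ∈ P → f ≤ P)
    (art : (Ideal (𝓞 k))⁰ →* Gal(K/k))
    (hart : ∀ (P : (Ideal (𝓞 k))⁰) (Q : Ideal (𝓞 K)), Q.IsMaximal → Q.under (𝓞 k) = P →
      ¬ f ≤ P → ∀ z : 𝓞 K, art P • z - z ^ absNorm P.1 ∈ Q) {J : Ideal (𝓞 k)}
    (hJ : ∀ I, IsCoprime I J ↔ IsCoprime I f) (σ : Gal(K/k)) {s : ℂ} (hs : 1 < s.re) :
    ZJ pm J σ s = LSeries (fun n => (Nat.card {I : (Ideal (𝓞 k))⁰ //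
      IsCoprime I.1 f ∧ art I = σ ∧ absNorm I.1 = n} : ℂ)) s := by
  have h3 := (hD k s hs).2.2 fun I => ∃ h : I ∈ (Ideal (𝓞 k))⁰, IsCoprime I f ∧ art ⟨I, h⟩ = σ
  have h4 : ∀ n, Nat.card {I : (Ideal (𝓞 k))⁰ // IsCoprime I.1 f ∧ art I = σ ∧ absNorm I.1 = n} =
      Nat.card {I : Ideal (𝓞 k) // (∃ h : I ∈ (Ideal (𝓞 k))⁰, IsCoprime I f ∧ art ⟨I, h⟩ = σ) ∧
        absNorm I = n} := fun n => Nat.card_congr
    { toFun := fun I => ⟨I.1.1, ⟨I.1.2, I.2.1, I.2.2.1⟩, I.2.2.2⟩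
      invFun := fun I => ⟨⟨I.1, I.2.1.1⟩, I.2.1.2.1, I.2.1.2.2, I.2.2⟩
      left_inv := fun _ => rfl
      right_inv := fun _ => rfl }
  simp only [h4, h3, ZJ, Lser, hJ]
  refine tsum_congr fun I => ?_
  by_cases h : I ∈ (Ideal (𝓞 k))⁰
  · congr 1
    by_cases h1 : IsCoprime I f
    · obtain ⟨u, h5, h6⟩ := hAC k K E m ζ pm f art hζ hp hm hart ⟨I, h⟩ h1
      rw [if_pos h1, ind, nrm_apply, h5]
      congr 1
      exact propext ⟨fun ⟨v, h7, h8⟩ => ⟨h, h1, by rw [h6, Units.ext h7, h8]⟩,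
        fun ⟨_, _, h8⟩ => ⟨u, rfl, h6 ▸ h8⟩⟩
    · rw [if_neg h1, if_neg fun ⟨_, h7, _⟩ => h1 h7]
  · have h0 : I = ⊥ := by
      by_contra h0
      exact h (mem_nonZeroDivisors_of_ne_zero h0)
    have h1 : -s ≠ 0 := fun h1 => by
      rw [neg_eq_zero.mp h1] at hs
      norm_num at hs
    simp [h0, Complex.zero_cpow h1]

theorem final (E : Type) [Field E] [NumberField E] [Algebra K E] [Algebra k E]
    [IsScalarTower k K E] [IsCyclotomicExtension {m} k E] (hD : DIRI) (hA : ARTEX) (hC : CONV) (hH : HURW) (hR : RMV) (hS : STICK)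
    (hAC : ARTCYC) (hAb : ABEL2) (hSe : SETUP) (hB : CUBETA) (h3 : Module.finrank ℚ k = 3)
    (hc : nrComplexPlaces k = 1) (hm : 3 ≤ m) (hf : f ≠ ⊥)
    (hfm : ∀ P : Ideal (𝓞 k), P.IsMaximal → (m : 𝓞 k) ∈ P → f ≤ P)
    (art : (Ideal (𝓞 k))⁰ →* Gal(K/k))
    (hart : ∀ (P : (Ideal (𝓞 k))⁰) (Q : Ideal (𝓞 K)), Q.IsMaximal → Q.under (𝓞 k) = P →
      ¬ f ≤ P → ∀ z : 𝓞 K, art P • z - z ^ absNorm P.1 ∈ Q) (φ0 : K →+* ℂ)
    (hφ0 : ¬ ComplexEmbedding.IsReal (φ0.comp (algebraMap k K))) :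
    ∃ u : (𝓞 K)ˣ, (∀ σ : Gal(K/k), Cont (LSeries fun n => (Nat.card {I : (Ideal (𝓞 k))⁰ //
        IsCoprime I.1 f ∧ art I = σ ∧ absNorm I.1 = n} : ℂ))
        (-(1 / torsionOrder K * Real.log (‖φ0 (σ u)‖ ^ 2) : ℝ))) ∧
      (∀ ψ : K →+* ℂ, ComplexEmbedding.IsReal (ψ.comp (algebraMap k K)) → ‖ψ u‖ = 1) ∧
      ∀ x : AlgebraicClosure K, x ^ torsionOrder K = algebraMap K (AlgebraicClosure K) u →
        IsAbelianGalois k (IntermediateField.adjoin K {x}) := by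
  have hζ0 := IsCyclotomicExtension.zeta_spec m k E
  obtain ⟨hab, pm, -, hcyc, hodd, hint, hb⟩ := hS k K E m _ h3 hc hm hζ0
  choose b hb1 hb2 using hb
  obtain ⟨Ω, F, _, _, _, _, _, _, _, _, _, _, _, φ, Ψ, g, c, hφ, D⟩ :=
    hSe k K E m _ φ0 h3 hc hζ0 hφ0
  have hζ := hζ0.map_of_injective (algebraMap E Ω).injective
  obtain ⟨A, β, hA1, hA2, hβ, hcont⟩ := hB k F Ω _ φ Ψ g c m D hm hζ
  have hcomm : ∀ a b : Gal(K/k), a * b = b * a := hab.is_comm.comm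
  have h1 : ∀ u : (ZMod m)ˣ, Cont (Dz m A u) (-(∑ ρ ∈ CC k F Ω,
      if hζ.autToPow ℚ ρ = u then Real.log (‖φ (ρ β)‖ ^ 2) else 0 : ℝ)) := fun u => by
    by_cases h : ∃ ρ ∈ fixSub ℚ F Ω, ρ ∈ fixSub ℚ k Ω ∧
        ρ (algebraMap E Ω (IsCyclotomicExtension.zeta m k E)) =
          algebraMap E Ω (IsCyclotomicExtension.zeta m k E) ^ (u : ZMod m).val
    · obtain ⟨ρ, r1, r2, r3⟩ := h
      have r4 := (cy_eq hζ).mpr r3
      have r5 := mem_CC.mpr ⟨r1, r2⟩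
      rw [Finset.sum_eq_single ρ (fun a ha h => if_neg fun h' =>
        h (D.cy_inj hζ ha r5 (h'.trans r4.symm))) (fun h => (h r5).elim), if_pos r4]
      exact (hcont u).1 ρ r1 r2 r3
    · rw [Finset.sum_eq_zero fun ρ hρ => if_neg fun h' =>
        h ⟨ρ, (mem_CC.mp hρ).1, (mem_CC.mp hρ).2, (cy_eq hζ).mp h'⟩]
      exact Cont.zero.congr (fun s hs => ((hcont u).2 h s hs).symm) (by simp)
  have h2 : Good pm (torsionOrder K) b (CC k F Ω) (fun ρ => pm (hζ.autToPow ℚ ρ))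
      (fun ρ => Real.log (‖φ (ρ β)‖ ^ 2)) (span {(m : 𝓞 k)}) :=
    ⟨stz pm, hodd, hint, hb2, cont_zero hD hC hH (by omega) A hA1 hA2 _ _ _ h1 pm⟩
  obtain ⟨z, z1, z2, z3, z4⟩ := h2.prod hR hcomm ((pdiv f).filter fun P => (m : 𝓞 k) ∉ P)
    fun P hP => ⟨isMaximal_of_mem_pdiv (Finset.mem_filter.mp hP).1, (Finset.mem_filter.mp hP).2⟩
  choose t ht using z2
  choose r hr using z3
  have : IsGalois k Ω := IsGalois.tower_top_of_isGalois ℚ k Ω
  have : IsGalois K Ω := IsGalois.tower_top_of_isGalois ℚ K Ω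
  have inj := (algebraMap K Ω).injective
  have res : ∀ ρ ∈ fixSub ℚ k Ω, ∀ x : K,
      ρ (algebraMap K Ω x) = algebraMap K Ω (pm (hζ.autToPow ℚ ρ) x) := fun ρ hρ x => by
    have := hcyc Ω (algebraMap E Ω) ((ρ : Ω →+* Ω).comp (algebraMap E Ω)) (hζ.autToPow ℚ ρ)
      (fun y => by
        rw [RingHom.comp_apply, ← IsScalarTower.algebraMap_apply K E Ω,
          ← IsScalarTower.algebraMap_apply k K Ω]
        exact hρ y) ((cy_eq hζ).mp rfl) x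
    simp only [RingHom.comp_apply, ← IsScalarTower.algebraMap_apply] at this
    exact this
  have lift : ∀ σ : Gal(K/k), ∃ ρ ∈ fixSub ℚ k Ω, pm (hζ.autToPow ℚ ρ) = σ := fun σ =>
    ⟨(σ.liftNormal Ω).restrictScalars ℚ, (σ.liftNormal Ω).commutes, AlgEquiv.ext fun x =>
      inj ((res ((σ.liftNormal Ω).restrictScalars ℚ) (σ.liftNormal Ω).commutes x).symm.trans
        (σ.liftNormal_commutes Ω x))⟩
  have desc : ∀ y : Gal(K/k) → ℤ, (∀ x, y (pm (-1) * x) = -y x) → ∃ u : (𝓞 K)ˣ,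
      ∀ σ : Gal(K/k), algebraMap K Ω (σ u) =
        UU k F (pm.comp (hζ.autToPow ℚ)) β fun x => y (σ * x) := fun y hy => by
    obtain ⟨u, hu⟩ := descend (K := K) (UU k F (pm.comp (hζ.autToPow ℚ)) β y) fun a => by
      have ha : a.restrictScalars ℚ ∈ fixSub ℚ k Ω := fun x => by
        rw [IsScalarTower.algebraMap_apply k K Ω]
        exact a.commutes _
      have h4 : pm (hζ.autToPow ℚ (a.restrictScalars ℚ)) = 1 :=
        AlgEquiv.ext fun x => inj ((res _ ha x).symm.trans (a.commutes x))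
      have h5 := act_UU hA D hζ pm hcomm hβ hy ha
      simp only [h4, one_mul] at h5
      exact h5
    refine ⟨u, fun σ => ?_⟩
    obtain ⟨ρ, hρ, rfl⟩ := lift σ
    rw [← res ρ hρ, hu, act_UU hA D hζ pm hcomm hβ hy hρ]
  have e : ∀ σ x : Gal(K/k), σ * (pm (-1) * x) = pm (-1) * (σ * x) := fun σ x => by
    rw [← mul_assoc, hcomm σ, mul_assoc]
  have t1 : ∀ x, t (pm (-1) * x) = -t x := fun x => by
    have : (t (pm (-1) * x) : ℚ) = -t x := by rw [← ht, ← ht, z1, mul_neg]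
    exact_mod_cast this
  obtain ⟨u, hu⟩ := desc t t1
  choose α hα using fun σ => desc (r σ) fun x => by
    have : (r σ (pm (-1) * x) : ℚ) = -r σ x := by
      rw [← hr, ← hr, e, z1, z1]
      ring
    exact_mod_cast this
  have hu1 := hu 1
  have hα1 := fun σ => hα σ 1
  simp only [AlgEquiv.one_apply, one_mul] at hu1 hα1
  have cmul := fun a b : (𝓞 Ω)ˣ => NumberField.Units.coe_mul a b
  have cpow := fun (a : (𝓞 Ω)ˣ) (n : ℤ) => NumberField.Units.coe_zpow a n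
  refine ⟨u, fun σ => (z4 σ).congr (fun s hs =>
    class_eq hD hAC hζ0 hcyc hfm art hart (coprime_iff hf hfm) σ hs) ?_, fun ψ hψ => ?_,
    hAb k K u b (fun σ => α σ) (NumberField.Units.coe_ne_zero u) hb1 (fun σ => inj ?_)
      fun σ τ => inj ?_⟩
  · have hw : (torsionOrder K : ℝ) ≠ 0 := Nat.cast_ne_zero.mpr (torsionOrder_ne_zero K)
    rw [← hφ, RingHom.comp_apply, hu, log_UU, Finset.mul_sum]
    congr 2
    refine Finset.sum_congr rfl fun ρ _ => ?_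
    have := congrArg (Rat.cast : ℚ → ℝ) (ht (σ * (pm (hζ.autToPow ℚ ρ))⁻¹))
    push_cast at this
    rw [MonoidHom.comp_apply, ← this]
    field_simp
  · obtain ⟨j, hj⟩ := exists_isConj (k0 := ℚ) (ComplexEmbedding.lift Ω ψ)
    have h4 : j ∈ fixSub ℚ k Ω := (isReal_iff_mem hj).mp (by
      rwa [IsScalarTower.algebraMap_eq k K Ω, ← RingHom.comp_assoc,
        ComplexEmbedding.lift_comp_algebraMap])
    rw [← ComplexEmbedding.lift_algebraMap_apply Ω ψ]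
    refine norm_eq_one_of_conj hj ?_
    rw [res j h4, cy_conj hζ hj, hu, hu1, ← cmul, ← UU_add]
    simp [t1, UU]
  · rw [map_mul, map_zpow₀, ← zpow_natCast, map_zpow₀, hu, hu1, hα1, ← cpow, ← cpow, ← cmul,
      ← UU_mul, ← UU_mul, ← UU_add]
    congr 3
    ext x
    have : (t (σ * x) : ℚ) = t x * b σ + r σ x * torsionOrder K := by
      rw [← ht, ← ht, ← hr]
      ring
    exact_mod_cast this
  · rw [map_mul, map_mul, map_zpow₀, map_zpow₀, hα, hα, hα1, hα1, ← cpow, ← cpow, ← cmul, ← cmul,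
      ← UU_mul, ← UU_mul, ← UU_add, ← UU_add]
    congr 3
    ext x
    have : (r σ (τ * x) + r τ x * b σ : ℚ) = r τ (σ * x) + r σ x * b τ := by
      simp only [← hr, ← mul_assoc, hcomm σ τ]
      ring
    exact_mod_cast this

end

end Pool.Agent.P.MP_29cb78_nt.C
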