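import Pool.Agent.P.MP_29cb78_nt.Tower

/-!
Definitions and statements of the pieces of the proof of the rank one abelian Stark conjecture
for subextensions of cyclotomic extensions of complex cubic fields.
-/

namespace Pool.Agent.P.MP_29cb78_nt.C

open NumberField NumberField.InfinitePlace NumberField.Units Set Ideal Filter Topology
open NumberField.ComplexEmbedding (IsConj)
open scoped Classical Real Matrix MatrixGroups nonZeroDivisors UpperHalfPlane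

noncomputable section

/-! ### Ray classes, Frobenius elements, densities -/

/-- Nonzero ideals coprime to the integer `n`. -/
def Cop {F : Type} [Field F] (n : ℕ) (I : Ideal (𝓞 F)) : Prop :=
  I ≠ ⊥ ∧ IsCoprime I (span {(n : 𝓞 F)})

/-- `a` is trivial on the principal ideals with a generator congruent to `1` modulo `n`. -/
def Ray {F B : Type} [Field F] [Monoid B] (n : ℕ) (a : Ideal (𝓞 F) →* B) : Prop :=
  ∀ α : 𝓞 F, α ≠ 0 → α - 1 ∈ span {(n : 𝓞 F)} → a (span {α}) = 1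

/-- Ray equivalence modulo `n` (no sign conditions). -/
def RayEq {F : Type} [Field F] (n : ℕ) (I J : Ideal (𝓞 F)) : Prop :=
  ∃ α β : 𝓞 F, α ≠ 0 ∧ β ≠ 0 ∧ α - 1 ∈ span {(n : 𝓞 F)} ∧ β - 1 ∈ span {(n : 𝓞 F)} ∧
    span {α} * I = span {β} * J

/-- The ray class group. -/
def RAY : Prop :=
  ∀ (F : Type) [Field F] [NumberField F] (n : ℕ), n ≠ 0 →
    ∃ (C : Type) (_ : CommGroup C) (_ : Finite C) (cl : Ideal (𝓞 F) → C),
      (∀ I J, Cop n I → Cop n J → cl (I * J) = cl I * cl J) ∧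
      (∀ I J, Cop n I → Cop n J → (cl I = cl J ↔ RayEq n I J)) ∧
      ∀ n' : ℕ, n' ≠ 0 → ∀ c : C, ∃ I, Cop (n * n') I ∧ cl I = c

/-- `σ` is a Frobenius element at `Q`. -/
def IsFrob {F Ω : Type} [Field F] [Field Ω] [NumberField F] [Algebra F Ω] (Q : Ideal (𝓞 Ω))
    (σ : Gal(Ω/F)) : Prop :=
  ∀ z : 𝓞 Ω, σ • z - z ^ absNorm (Q.under (𝓞 F)) ∈ Q

/-- `A` is the value of `χ` at Frobenius elements, away from `n`. -/
def FrobChar {F Ω B : Type} [Field F] [Field Ω] [NumberField F] [Algebra F Ω] [Monoid B] (n : ℕ)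
    (χ : Gal(Ω/F) →* B) (A : Ideal (𝓞 F) →* B) : Prop :=
  ∀ Q : Ideal (𝓞 Ω), Q.IsMaximal → (n : 𝓞 Ω) ∉ Q → ∀ σ : Gal(Ω/F), IsFrob Q σ →
    A (Q.under (𝓞 F)) = χ σ

/-- The sum of `N(P) ^ (-s)` over `W`. -/
def psum {F : Type} [Field F] [NumberField F] (W : Set (Ideal (𝓞 F))) (s : ℝ) : ℝ :=
  ∑' P : Ideal (𝓞 F), if P ∈ W then (absNorm P : ℝ) ^ (-s) else 0

/-- Dirichlet density. -/
def HasDens {F : Type} [Field F] [NumberField F] (W : Set (Ideal (𝓞 F))) (d : ℝ) : Prop :=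
  Tendsto (fun s : ℝ => psum W s / Real.log (1 / (s - 1))) (𝓝[>] 1) (𝓝 d)

/-- Upper Dirichlet density at most `d`. -/
def DensLe {F : Type} [Field F] [NumberField F] (W : Set (Ideal (𝓞 F))) (d : ℝ) : Prop :=
  ∀ ε : ℝ, 0 < ε → ∀ᶠ s : ℝ in 𝓝[>] 1, psum W s / Real.log (1 / (s - 1)) ≤ d + ε

/-- Density of the primes with Frobenius in a normal subgroup. -/
def DENS : Prop :=
  ∀ (F Ω : Type) [Field F] [Field Ω] [NumberField F] [NumberField Ω] [Algebra F Ω] [IsGalois F Ω]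
    (H : Subgroup Gal(Ω/F)) (n : ℕ), H.Normal → n ≠ 0 →
    HasDens {P : Ideal (𝓞 F) | P.IsMaximal ∧ (n : 𝓞 F) ∉ P ∧ ∃ Q : Ideal (𝓞 Ω), Q.IsMaximal ∧
      Q.under (𝓞 F) = P ∧ ∃ σ ∈ H, IsFrob Q σ} (Nat.card H / Nat.card Gal(Ω/F))

/-- Frobenius elements above primes of degree one generate the Galois group. -/
def GEN : Prop :=
  ∀ (F Ω : Type) [Field F] [Field Ω] [NumberField F] [NumberField Ω] [Algebra F Ω] [IsGalois F Ω]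
    (H : Subgroup Gal(Ω/F)) (n : ℕ), n ≠ 0 →
    (∀ Q : Ideal (𝓞 Ω), Q.IsMaximal → (n : 𝓞 Ω) ∉ Q → (absNorm (Q.under (𝓞 F))).Prime →
      ∀ σ : Gal(Ω/F), IsFrob Q σ → σ ∈ H) → H = ⊤

/-! ### Siegel functions and lattice functions -/

/-- `exp (2 π i x)`. -/
def ee (x : ℂ) : ℂ := Complex.exp (2 * π * Complex.I * x)

/-- The product part of the Siegel function. -/
def sgP (z τ : ℂ) : ℂ :=
  (1 - ee z) * ∏' n : ℕ, ((1 - ee ((n + 1) * τ + z)) * (1 - ee ((n + 1) * τ - z)))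

/-- The Siegel function. -/
def sg (a b : ℝ) (τ : ℂ) : ℂ :=
  -ee ((a ^ 2 - a + 1 / 6) * τ / 2) * ee (b * (a - 1) / 2) * sgP (a * τ + b) τ

/-- Transformation laws of the Siegel function under the generators. -/
def SGT : Prop :=
  ∀ (a b : ℝ) (τ : ℂ), 0 < τ.im →
    sg a b (τ + 1) = ee (1 / 12) * sg a (a + b) τ ∧
    sg a b (-1 / τ) = -Complex.I * sg b (-a) τ ∧
    sg (a + 1) b τ = -ee (-b / 2) * sg a b τ ∧
    sg a (b + 1) τ = -ee (a / 2) * sg a b τ ∧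
    (¬ ((∃ m : ℤ, a = m) ∧ ∃ n : ℤ, b = n) → sg a b τ ≠ 0)

/-- Integer `2 × 2` matrices. -/
abbrev Mat := Matrix (Fin 2) (Fin 2) ℤ

/-- Action on column vectors. -/
def mv (A : Mat) (w : Fin 2 → ℂ) : Fin 2 → ℂ := (A.map ((↑) : ℤ → ℂ)) *ᵥ w

/-- Moebius action. -/
def mob (A : Mat) (τ : ℂ) : ℂ := (A 0 0 * τ + A 0 1) / (A 1 0 * τ + A 1 1)

/-- Oriented bases. -/
def Ori (w : Fin 2 → ℂ) : Prop := 0 < (w 0 / w 1).im

/-- The Siegel function at the point `b / N`. -/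
def sgN (N : ℕ) (b : Fin 2 → ℤ) (τ : ℂ) : ℂ := sg (b 0 / N) (b 1 / N) τ

/-- The modular invariant. -/
def jf (τ : ℂ) : ℂ := ModularForm.E₄ (UpperHalfPlane.ofComplex τ) ^ 3 / ModularForm.eta τ ^ 24

/-- The discriminant of a lattice basis. -/
def DD (w : Fin 2 → ℂ) : ℂ := ModularForm.eta (w 0 / w 1) ^ 24 / w 1 ^ 12

/-- Basic facts on lattice functions. -/
def LATB : Prop :=
  (∀ (A : Mat) (w : Fin 2 → ℂ), Ori w → mv A w 0 / mv A w 1 = mob A (w 0 / w 1)) ∧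
  (∀ (A : Mat) (τ : ℂ), 0 < A.det → 0 < τ.im → 0 < (mob A τ).im) ∧
  (∀ (A B : Mat) (τ : ℂ), 0 < B.det → 0 < τ.im → mob (A * B) τ = mob A (mob B τ)) ∧
  (∀ (A : Mat) (w : Fin 2 → ℂ), A.det = 1 → Ori w → DD (mv A w) = DD w) ∧
  (∀ w : Fin 2 → ℂ, Ori w → DD w ≠ 0) ∧
  ∀ (A : Mat) (τ : ℂ), A.det = 1 → 0 < τ.im → jf (mob A τ) = jf τ

/-- The multiplier of the square of the eta function, extended to `GL(2, ℤ / 12)`. -/
structure ChiData (X : Matrix (Fin 2) (Fin 2) (ZMod 12) → ZMod 12) : Prop where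
  mul : ∀ A B, IsUnit A.det → IsUnit B.det → X (A * B) = B.det * X A + X B
  T : X !![1, 1; 0, 1] = 1
  S : X !![0, -1; 1, 0] = 9
  diag : ∀ u : ZMod 12, IsUnit u → X !![1, 0; 0, u] = 0

/-- Existence of the multiplier. -/
def CHI : Prop := ∃ X, ChiData X

/-- Reduction modulo twelve. -/
def red (A : Mat) : Matrix (Fin 2) (Fin 2) (ZMod 12) := A.map ((↑) : ℤ → ZMod 12)

/-- The standard character of `ℤ / 12`. -/
def e12 (x : ZMod 12) : ℂ := ZMod.stdAddChar x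

/-- Transformation laws of the Siegel function at rational points. -/
def SGM : Prop :=
  ∀ (N : ℕ) (b : Fin 2 → ℤ) (τ : ℂ), N ≠ 0 → 0 < τ.im →
    (∀ X, ChiData X → ∀ A : Mat, A.det = 1 →
      sgN N b (mob A τ) = e12 (X (red A)) * sgN N (b ᵥ* A) τ) ∧
    (∀ b' : Fin 2 → ℤ, (∀ i, (2 * N ^ 2 : ℤ) ∣ b' i - b i) → sgN N b' τ = sgN N b τ) ∧
    (∀ b' : Fin 2 → ℤ, (∀ i, (N : ℤ) ∣ b' i - b i) →
      sgN N b' τ ^ (2 * N) = sgN N b τ ^ (2 * N)) ∧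
    (¬ (∀ i, (N : ℤ) ∣ b i) → sgN N b τ ≠ 0)

/-! ### Kronecker's second limit formula -/

/-- The shifted Epstein zeta function. -/
def epst (a b : ℝ) (w : Fin 2 → ℂ) (s : ℂ) : ℂ :=
  ∑' m : ℤ × ℤ, ((‖(a + m.1) * w 0 + (b + m.2) * w 1‖ ^ 2 : ℝ) : ℂ) ^ (-s)

/-- The nonconstant part after Poisson summation in the second variable. -/
def Wk (a b : ℝ) (τ : ℂ) (t : ℝ) : ℂ :=
  ∑' m : ℤ × {k : ℤ // k ≠ 0}, ee ((m.2.1 * ((m.1 + a) * τ.re + b) : ℝ) : ℂ) *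
    ((t ^ (-(1 / 2) : ℝ) * Real.exp (-π * t * ((m.1 + a) * τ.im) ^ 2 - π * m.2.1 ^ 2 / t) : ℝ) : ℂ)

/-- Fourier expansion of the shifted Epstein zeta function. -/
def KLFA : Prop :=
  ∀ (a b : ℝ) (τ s : ℂ), 0 < a → a < 1 → 0 < τ.im → 1 < s.re →
    Complex.Gamma s * (π : ℂ) ^ (-s) * epst a b ![τ, 1] s =
      (π : ℂ) ^ (1 / 2 - s) * Complex.Gamma (s - 1 / 2) * (τ.im : ℂ) ^ (1 - 2 * s) *
        (2 * HurwitzZeta.hurwitzZetaEven (a : UnitAddCircle) (2 * s - 1)) + mellin (Wk a b τ) s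

/-- The Mellin transform of the nonconstant part. -/
def KLFB : Prop :=
  ∀ (a b : ℝ) (τ : ℂ), 0 < a → a < 1 → 0 < τ.im →
    Differentiable ℂ (mellin (Wk a b τ)) ∧
    mellin (Wk a b τ) 0 = -(Real.log (‖sgP (a * τ + b) τ‖ ^ 2) : ℝ)

/-- Kronecker's second limit formula, and the pole at `1`. -/
def KLF : Prop :=
  ∀ (a b : ℝ) (w : Fin 2 → ℂ), Ori w → ¬ ((∃ m : ℤ, a = m) ∧ ∃ n : ℤ, b = n) →
    Cont (epst a b w) (-(Real.log (‖sg a b (w 0 / w 1)‖ ^ 2) : ℝ)) ∧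
    ∃ C : ℝ, ∀ᶠ s : ℝ in 𝓝[>] 1,
      ‖epst a b w s - ((π / (‖w 1‖ ^ 2 * (w 0 / w 1).im) / (s - 1) : ℝ) : ℂ)‖ ≤ C

/-! ### Integral `q`-expansions -/

/-- Expansion in powers of `exp (2 π i τ / M)`, starting at the exponent `n0`. -/
def QExp (f : ℂ → ℂ) (M : ℕ) (n0 : ℤ) (c : ℕ → ℂ) : Prop :=
  ∀ τ : ℂ, 0 < τ.im → HasSum (fun n : ℕ => c n * ee ((n + n0) * τ / M)) (f τ)

/-- Expansion with algebraic integer coefficients and denominator `M`. -/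
def QIntM (M : ℕ) (f : ℂ → ℂ) : Prop :=
  ∃ (n0 : ℤ) (c : ℕ → ℂ), (∀ n, IsIntegral ℤ (c n)) ∧ QExp f M n0 c

/-- Expansion with algebraic integer coefficients. -/
def QInt (f : ℂ → ℂ) : Prop := ∃ M : ℕ, M ≠ 0 ∧ QIntM M f

/-- Expansion with algebraic integer coefficients and leading term `u exp (2 π i r τ)`. -/
def QLead (f : ℂ → ℂ) (u : ℂ) (r : ℚ) : Prop :=
  ∃ (M : ℕ) (n0 : ℤ) (c : ℕ → ℂ), M ≠ 0 ∧ (∀ n, IsIntegral ℤ (c n)) ∧ QExp f M n0 c ∧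
    c 0 = u ∧ r = n0 / M

/-- The prime element above `p` in the `p`-th cyclotomic field. -/
def pi1 (p : ℕ) : ℂ := 1 - ee (1 / p)

/-- Closure properties of integral expansions. -/
structure QAPI : Prop where
  congr : ∀ M f g, QIntM M f → (∀ τ : ℂ, 0 < τ.im → f τ = g τ) → QIntM M g
  mono : ∀ M M' f, M' ≠ 0 → M ∣ M' → QIntM M f → QIntM M' f
  add : ∀ M f g, M ≠ 0 → QIntM M f → QIntM M g → QIntM M fun τ => f τ + g τ
  mul : ∀ M f g, M ≠ 0 → QIntM M f → QIntM M g → QIntM M fun τ => f τ * g τ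
  mon : ∀ (M : ℕ) (c : ℂ) (n : ℤ), IsIntegral ℤ c → QIntM M fun τ => c * ee (n * τ / M)
  add' : ∀ f g, QInt f → QInt g → QInt fun τ => f τ + g τ
  mul' : ∀ f g, QInt f → QInt g → QInt fun τ => f τ * g τ
  const : ∀ c : ℂ, IsIntegral ℤ c → QInt fun _ => c
  aff : ∀ f (A D : ℕ) (B : ℤ), A ≠ 0 → D ≠ 0 → QInt f → QInt fun τ => f ((A * τ + B) / D)
  shift : ∀ (M p : ℕ) (i : ℤ) f, M ≠ 0 → p.Prime → (M : ℤ) ∣ i → QIntM M f →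
    QInt fun τ => (f ((τ + i) / p) - f (τ / p)) / pi1 p
  lead_mul : ∀ f g u v r t, QLead f u r → QLead g v t → QLead (fun τ => f τ * g τ) (u * v) (r + t)
  lead_add : ∀ f g u v r t, QLead f u r → QLead g v t → r < t → QLead (fun τ => f τ + g τ) u r
  lead_aff : ∀ f u r (A D : ℕ) (B : ℤ), A ≠ 0 → D ≠ 0 → QLead f u r →
    QLead (fun τ => f ((A * τ + B) / D)) (u * ee (r * B / D)) (r * A / D)
  pi_int : ∀ p : ℕ, p.Prime → pi1 p ≠ 0 ∧ IsIntegral ℤ (pi1 p) ∧ IsIntegral ℤ (p / pi1 p) ∧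
    IsIntegral ℤ (pi1 p ^ p / p)

/-- Expansions of infinite products. -/
def PROD : Prop :=
  ∀ (M : ℕ) (c : ℕ → ℂ) (r : ℕ → ℕ), M ≠ 0 → (∀ n, IsIntegral ℤ (c n)) → (∀ n, ‖c n‖ ≤ 1) →
    (∀ n, n + 1 ≤ r n) →
    (∃ d : ℕ → ℂ, (∀ n, IsIntegral ℤ (d n)) ∧ d 0 = 1 ∧
      QExp (fun τ => ∏' n, (1 - c n * ee (r n * τ / M))) M 0 d) ∧
    (∃ d : ℕ → ℂ, (∀ n, IsIntegral ℤ (d n)) ∧ d 0 = 1 ∧
      QExp (fun τ => (∏' n, (1 - c n * ee (r n * τ / M)))⁻¹) M 0 d) ∧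
    ∀ p : ℕ, p.Prime → QIntM M fun τ => ((∏' n, (1 - c n * ee (r n * τ / M))) ^ p -
      ∏' n, (1 - c n ^ p * ee (p * r n * τ / M))) / p

/-- Expansions of `j` and of the discriminant. -/
def JQ : Prop :=
  (∃ c : ℕ → ℂ, (∀ n, IsIntegral ℤ (c n)) ∧ c 0 = 1 ∧ QExp jf 1 (-1) c) ∧
  (∃ c : ℕ → ℂ, (∀ n, IsIntegral ℤ (c n)) ∧ c 0 = 1 ∧
    QExp (fun τ => ModularForm.eta τ ^ 24) 1 1 c) ∧
  ∃ c : ℕ → ℂ, (∀ n, IsIntegral ℤ (c n)) ∧ c 0 = 1 ∧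
    QExp (fun τ => (ModularForm.eta τ ^ 24)⁻¹) 1 (-1) c

/-- Invariant functions are polynomials in `j`. -/
def POLYJ : Prop :=
  ∀ (f : ℂ → ℂ) (M : ℕ) (n0 : ℤ) (c : ℕ → ℂ), M ≠ 0 → (∀ n, IsIntegral ℤ (c n)) → QExp f M n0 c →
    (∀ (A : Mat) (τ : ℂ), A.det = 1 → 0 < τ.im → f (mob A τ) = f τ) →
    ∃ P : Polynomial ℂ, (∀ i, IsIntegral ℤ (P.coeff i)) ∧
      (∀ τ : ℂ, 0 < τ.im → f τ = P.eval (jf τ)) ∧
      (c 0 ≠ 0 → P.leadingCoeff = c 0 ∧ (P.natDegree : ℤ) * M = -n0)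

/-- Functions with finite orbit under the modular group and integral expansions at all cusps. -/
def IsR (f : ℂ → ℂ) : Prop :=
  (Set.range fun A : SL(2, ℤ) => fun τ : ℍ => f (mob A τ)).Finite ∧
    ∀ A : SL(2, ℤ), QInt fun τ => f (mob A τ)

/-- The `q`-expansion principle. -/
def INT : Prop :=
  ∀ f : ℂ → ℂ, IsR f → ∀ τ : ℂ, 0 < τ.im → IsIntegral ℤ (jf τ) → IsIntegral ℤ (f τ)

/-- Expansions of Siegel functions. -/
def SGQ : Prop :=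
  ∀ (N : ℕ) (b : Fin 2 → ℤ), N ≠ 0 →
    QIntM (12 * N ^ 2) (sgN N b) ∧
    (2 ≤ N → ¬ IsPrimePow N → IsCoprime (Int.gcd (b 0) (b 1) : ℤ) N →
      QInt fun τ => (sgN N b τ)⁻¹) ∧
    ∀ p : ℕ, p.Prime → p ≠ 2 →
      QInt fun τ => (sgN N b τ ^ p - sgN N ![b 0, p * b 1] (p * τ)) / p

/-- Hermite normal forms of determinant `d`. -/
def hnf (d : ℕ) : Finset Mat :=
  (d.divisorsAntidiagonal.sigma fun x => Finset.range x.2).image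
    fun y => !![(y.1.1 : ℤ), (y.2 : ℤ); 0, (y.1.2 : ℤ)]

/-- Representatives of determinant `p`. -/
def rp (p M : ℕ) : Option (Fin p) → Mat
  | none => !![(p : ℤ), 0; 0, 1]
  | some i => !![1, (M : ℤ) * (i : ℕ); 0, (p : ℤ)]

/-- Coset representatives. -/
def COSET : Prop :=
  (∀ d : ℕ, d ≠ 0 → (∀ C : Mat, C.det = d → ∃ R ∈ hnf d, ∃ G : Mat, G.det = 1 ∧ C = G * R) ∧
    ∀ A : Mat, A.det = 1 → ∃ e : Mat → Mat, Set.BijOn e (hnf d) (hnf d) ∧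
      ∀ R ∈ hnf d, ∃ G : Mat, G.det = 1 ∧ R * A = G * e R) ∧
  ∀ p M : ℕ, p.Prime → M.Coprime p →
    (∀ C : Mat, C.det = p → ∃ x, ∃ G : Mat, G.det = 1 ∧ C = G * rp p M x) ∧
    ∀ A : Mat, A.det = 1 → ∃ e : Equiv.Perm (Option (Fin p)),
      ∀ x, ∃ G : Mat, G.det = 1 ∧ rp p M x * A = G * rp p M (e x)

/-- Singular moduli are algebraic integers. -/
def JINT : Prop :=
  ∀ (C : Mat) (τ : ℂ), 0 < τ.im → 0 < C.det → ¬ IsSquare C.det → mob C τ = τ →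
    IsIntegral ℤ (jf τ)

/-- The quotient of discriminants attached to an isogeny of degree `p`. -/
def ph (p : ℕ) (C : Mat) (w : Fin 2 → ℂ) : ℂ := (p : ℂ) ^ 12 * DD (mv C w) / DD w

/-- Properties of the quotients of discriminants. -/
def PHI : Prop :=
  ∀ p : ℕ, p.Prime → p ≠ 2 →
    (∀ M : ℕ, M.Coprime p → (∀ x, QInt fun τ => ph p (rp p M x) ![τ, 1]) ∧
      (∀ i i' : Fin p, QInt fun τ =>
        (ph p (rp p M (some i)) ![τ, 1] - ph p (rp p M (some i')) ![τ, 1]) / pi1 p) ∧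
      ∀ τ : ℂ, 0 < τ.im → ∏ x, ph p (rp p M x) ![τ, 1] = (p : ℂ) ^ 12) ∧
    ∀ (C : Mat) (w : Fin 2 → ℂ), C.det = p → Ori w → IsIntegral ℤ (jf (w 0 / w 1)) →
      IsIntegral ℤ (ph p C w)

/-- Membership in an ideal of the ring of all algebraic integers. -/
def InP (P : Ideal (integralClosure ℤ ℂ)) (x : ℂ) : Prop :=
  ∃ h : IsIntegral ℤ x, (⟨x, h⟩ : integralClosure ℤ ℂ) ∈ P

/-- The abstract form of the congruence of Kronecker and Hasse. -/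
def KEY : Prop :=
  ∀ (ι : Type) (p : ℕ) (u : ι → ℂ → ℂ) (v : ι → Option (Fin p) → ℂ → ℂ)
    (φ : Option (Fin p) → ℂ → ℂ), p.Prime →
    (Set.range fun a => fun τ : ℍ => u a τ).Finite →
    (∀ x, (Set.range fun a => fun τ : ℍ => v a x τ).Finite) →
    (∀ (A : Mat), A.det = 1 → ∀ a, ∃ (a' : ι) (μ : ℂ) (e : Equiv.Perm (Option (Fin p))),
      μ ^ 12 = 1 ∧ ∀ τ : ℂ, 0 < τ.im → u a (mob A τ) = μ * u a' τ ∧
        ∀ x, v a x (mob A τ) = μ * v a' (e x) τ ∧ φ x (mob A τ) = φ (e x) τ) →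
    (∀ a, QInt (u a)) → (∀ a x, QInt (v a x)) → (∀ x, QInt (φ x)) →
    (∀ a, QInt fun τ => (u a τ - v a none τ) / pi1 p) →
    (∀ a i i', QInt fun τ => (v a (some i) τ - v a (some i') τ) / pi1 p) →
    (∀ i i', QInt fun τ => (φ (some i) τ - φ (some i') τ) / pi1 p) →
    ∀ (τ : ℂ) (P : Ideal (integralClosure ℤ ℂ)) (x0 : Option (Fin p)), 0 < τ.im →
      IsIntegral ℤ (jf τ) → P.IsPrime → InP P p → InP P (φ x0 τ) →
      (∀ x, x ≠ x0 → ¬ InP P (φ x τ)) → ∀ a, InP P (u a τ - v a x0 τ)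

/-- The Frobenius congruence for Siegel functions. -/
def CMF : Prop :=
  ∀ X, ChiData X → ∀ (N p : ℕ) (b : Fin 2 → ℤ) (w : Fin 2 → ℂ) (B : Mat)
    (P : Ideal (integralClosure ℤ ℂ)), N ≠ 0 → p.Prime → ¬ p ∣ 6 * N → Ori w → B.det = p →
    IsIntegral ℤ (jf (w 0 / w 1)) → IsIntegral ℤ (jf (mob B (w 0 / w 1))) → P.IsPrime →
    InP P p → ¬ InP P (ph p B w) →
    InP P (sgN N b (mob B (w 0 / w 1)) ^ p - e12 (X (red B)) * sgN N (b ᵥ* B) (w 0 / w 1))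

/-- Integrality of the values of Siegel functions. -/
def GINT : Prop :=
  ∀ (N : ℕ) (b : Fin 2 → ℤ) (τ : ℂ), N ≠ 0 → 0 < τ.im → IsIntegral ℤ (jf τ) →
    IsIntegral ℤ (sgN N b τ) ∧
    (2 ≤ N → ¬ IsPrimePow N → IsCoprime (Int.gcd (b 0) (b 1) : ℤ) N → IsIntegral ℤ (sgN N b τ)⁻¹)

/-! ### Imaginary quadratic fields -/

/-- `w` is an oriented basis of the ideal `I`. -/
def IsBas {F : Type} [Field F] (φ : F →+* ℂ) (I : Ideal (𝓞 F)) (w : Fin 2 → 𝓞 F) : Prop :=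
  Ori (fun i => φ (w i)) ∧ ∀ x : 𝓞 F, x ∈ I ↔ ∃ m n : ℤ, x = m * w 0 + n * w 1

/-- Bases of ideals. -/
def BAS : Prop :=
  ∀ (F : Type) [Field F] [NumberField F] [IsTotallyComplex F] (φ : F →+* ℂ),
    Module.finrank ℚ F = 2 →
    (∀ I : Ideal (𝓞 F), I ≠ ⊥ → ∃ w, IsBas φ I w) ∧
    (∀ (I J : Ideal (𝓞 F)) (w w' : Fin 2 → 𝓞 F), IsBas φ I w → IsBas φ J w' → J ≤ I →
      ∃ A : Mat, (∀ i, w' i = A i 0 * w 0 + A i 1 * w 1) ∧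
        A.det * (absNorm I : ℤ) = absNorm J) ∧
    (∀ α : 𝓞 F, (absNorm (span {α}) : ℝ) = ‖φ α‖ ^ 2) ∧
    (∀ (n : ℕ) (α : 𝓞 F), α - 1 ∈ span {(n : 𝓞 F)} → (absNorm (span {α}) : ZMod n) = 1) ∧
    (∀ (n : ℕ) (u : (𝓞 F)ˣ), 3 ≤ n → (u : 𝓞 F) - 1 ∈ span {(n : 𝓞 F)} → u = 1) ∧
    ∃ α : 𝓞 F, ¬ IsSquare (absNorm (span {α}))

/-- The zeta function of the inverse of the ray class of `c`. -/
def rz {F : Type} [Field F] [NumberField F] (N : ℕ) (c : Ideal (𝓞 F)) : ℂ → ℂ :=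
  Lser fun I : Ideal (𝓞 F) => if Cop N I ∧ RayEq N (I * c) 1 then 1 else 0

/-- The limit formula and the residue for ray classes. -/
def ZRAY : Prop :=
  ∀ (F : Type) [Field F] [NumberField F] [IsTotallyComplex F] (φ : F →+* ℂ) (N : ℕ),
    Module.finrank ℚ F = 2 → 3 ≤ N →
    (∀ (c : Ideal (𝓞 F)) (z : 𝓞 F) (w : Fin 2 → 𝓞 F) (b : Fin 2 → ℤ), Cop N c → z ∈ c →
      z - 1 ∈ span {(N : 𝓞 F)} → IsBas φ c w → z = b 0 * w 0 + b 1 * w 1 →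
      Cont (rz N c) (-(Real.log (‖sgN N b (φ (w 0) / φ (w 1))‖ ^ 2) : ℝ))) ∧
    ∃ ρ : ℝ, ∀ c : Ideal (𝓞 F), Cop N c → ∃ C : ℝ, ∀ᶠ s : ℝ in 𝓝[>] 1,
      ‖rz N c s - ((ρ / (s - 1) : ℝ) : ℂ)‖ ≤ C

/-- The invariants of ray classes. -/
def LAM : Prop :=
  ∀ (F : Type) [Field F] [NumberField F] [IsTotallyComplex F] (φ : F →+* ℂ) (N : ℕ),
    Module.finrank ℚ F = 2 → 3 ≤ N → ∃ lam : Ideal (𝓞 F) → ℂ,
    (∀ c, Cop (24 * N ^ 2) c → IsIntegral ℤ (lam c) ∧ lam c ≠ 0 ∧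
      (¬ IsPrimePow N → IsIntegral ℤ (lam c)⁻¹) ∧
      Cont (rz N c) (-(Real.log (‖lam c‖ ^ 2) : ℝ))) ∧
    (∀ c c', Cop (24 * N ^ 2) c → Cop (24 * N ^ 2) c' →
      (RayEq (24 * N ^ 2) c c' → lam c = lam c') ∧
      (RayEq N c c' → lam c ^ (24 * N) = lam c' ^ (24 * N))) ∧
    ∀ (c p : Ideal (𝓞 F)) (P : Ideal (integralClosure ℤ ℂ)), Cop (24 * N ^ 2) c →
      Cop (24 * N ^ 2) p → (absNorm p).Prime → (absNorm p : 𝓞 F) ∉ p ^ 2 → P.IsPrime →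
      (∀ x ∈ p, InP P (φ x)) → InP P (lam (c * p) ^ absNorm p - lam c)

/-- The series over the ideals coprime to `N` with a given image under `a`. -/
def fz {F B : Type} [Field F] [NumberField F] [Monoid B] (N : ℕ) (a : Ideal (𝓞 F) →* B) (b : B) :
    ℂ → ℂ :=
  Lser fun I : Ideal (𝓞 F) => if Cop N I ∧ a I = b then 1 else 0

/-- The elliptic element attached to a commutator. -/
def BETA : Prop :=
  ∀ (F Ω B : Type) [Field F] [Field Ω] [NumberField F] [NumberField Ω] [Algebra F Ω]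
    [IsGalois ℚ Ω] [IsTotallyComplex F] [CommMonoid B] (φ : Ω →+* ℂ) (N : ℕ)
    (a : Ideal (𝓞 F) →* B) (r : Gal(Ω/F) →* B) (g : Gal(Ω/F)) (x y : Gal(Ω/ℚ)),
    Module.finrank ℚ F = 2 → 3 ≤ N → Ray N a → FrobChar N r a →
    (∀ t, g t = (x * y * x⁻¹ * y⁻¹) t) →
    ∃ β : Ω, β ≠ 0 ∧ (¬ IsPrimePow N → IsIntegral ℤ β ∧ IsIntegral ℤ β⁻¹) ∧
      (∀ n : ℕ, g ^ n = 1 → (∏ i ∈ Finset.range n, (g ^ i) β) ^ (24 * N) = 1) ∧
      ∀ ρ : Gal(Ω/F), Cont (fun s => fz N a (r ρ) s - fz N a (r ρ * r g) s)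
        (-(Real.log (‖φ (ρ β)‖ ^ 2) : ℝ))

/-! ### Reciprocity for cubic extensions -/

/-- The second inequality. -/
def SI : Prop :=
  ∀ (F E : Type) [Field F] [NumberField F] [IsTotallyComplex F] [Fintype E] (n : ℕ)
    (ψ : E → Ideal (𝓞 F) →* ℂ) (e0 : E), Module.finrank ℚ F = 2 → 3 ≤ n → (∀ e, Ray n (ψ e)) →
    (∀ e I, Cop n I → ‖ψ e I‖ = 1) → (∀ e, e ≠ e0 → ∃ I, Cop n I ∧ ψ e I ≠ 1) →
    (∀ I, Cop n I → 0 ≤ (∑ e, ψ e I).re) →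
    DensLe {P : Ideal (𝓞 F) | P.IsMaximal ∧ (n : 𝓞 F) ∉ P ∧ ∀ e, ψ e P = 1}
      (1 / Fintype.card E)

/-- Local norms at a ramified prime. -/
def FIL : Prop :=
  ∀ (F M : Type) [Field F] [Field M] [NumberField F] [NumberField M] [Algebra F M] [IsGalois F M]
    (σ : Gal(M/F)) (Q : Ideal (𝓞 M)), Module.finrank F M = 3 → σ ≠ 1 → Q.IsMaximal →
    σ ∈ Q.inertia Gal(M/F) → ∃ (t : ℕ) (η : 𝓞 F → ℂ),
      (∀ x y, x ∉ Q.under (𝓞 F) → y ∉ Q.under (𝓞 F) → η (x * y) = η x * η y) ∧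
      (∀ x, x ∉ Q.under (𝓞 F) → η x ^ 3 = 1) ∧
      (∀ x y, x ∉ Q.under (𝓞 F) → y ∉ Q.under (𝓞 F) → x - y ∈ Q.under (𝓞 F) ^ t → η x = η y) ∧
      (∃ x, x ∉ Q.under (𝓞 F) ∧ η x ≠ 1) ∧
      ∀ (x : 𝓞 F) (y : 𝓞 M), y ∉ Q → algebraMap (𝓞 F) (𝓞 M) x = y * σ • y * σ • σ • y → η x = 1

/-- The units that are norms of elements. -/
def normUnits {F M : Type} [Field F] [Field M] [Algebra F M] (σ : Gal(M/F)) : Subgroup (𝓞 F)ˣ :=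
  Subgroup.closure {u | ∃ y : M, algebraMap F M (u : F) = y * σ y * σ (σ y)}

/-- The subgroup of the classes of the form `c / σ c`. -/
def cobCl {F M : Type} [Field F] [Field M] [NumberField M] [Algebra F M] (σ : Gal(M/F)) :
    Subgroup (ClassGroup (𝓞 M)) :=
  Subgroup.closure {c | ∃ I J : (Ideal (𝓞 M))⁰,
    J.1 = I.1.map (MulSemiringAction.toRingHom Gal(M/F) (𝓞 M) σ) ∧
      c = ClassGroup.mk0 I / ClassGroup.mk0 J}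

/-- The ambiguous class number inequality. -/
def CHEV : Prop :=
  ∀ (F M : Type) [Field F] [Field M] [NumberField F] [NumberField M] [Algebra F M] [IsGalois F M]
    [IsTotallyComplex F] (σ : Gal(M/F)), Module.finrank ℚ F = 2 → Module.finrank F M = 3 →
    σ ≠ 1 → (cobCl σ).index * (normUnits σ).index < classNumber F *
      3 ^ Set.ncard {Q : Ideal (𝓞 M) | Q.IsMaximal ∧ σ ∈ Q.inertia Gal(M/F)}

/-- The first inequality. -/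
def FI0 : Prop :=
  ∀ (F M : Type) [Field F] [Field M] [NumberField F] [NumberField M] [Algebra F M] [IsGalois F M]
    [IsTotallyComplex F] (σ : Gal(M/F)) (n : ℕ), Module.finrank ℚ F = 2 →
    Module.finrank F M = 3 → σ ≠ 1 → n ≠ 0 →
    (∀ Q : Ideal (𝓞 M), Q.IsMaximal → σ ∈ Q.inertia Gal(M/F) → (n : 𝓞 M) ∈ Q) →
    ∃ (t : ℕ) (η : Ideal (𝓞 F) →* ℂ), Ray (n ^ (t + 1)) η ∧ (∀ I, Cop n I → η I ^ 3 = 1) ∧
      (∀ n' : ℕ, n' ≠ 0 → ∃ I, Cop (n * n') I ∧ η I ≠ 1) ∧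
      ∀ Q : Ideal (𝓞 M), Q.IsMaximal → (n : 𝓞 M) ∉ Q → absNorm Q = absNorm (Q.under (𝓞 F)) →
        η (Q.under (𝓞 F)) = 1

/-- The first inequality for a cubic character. -/
def FI : Prop :=
  ∀ (F Ω : Type) [Field F] [Field Ω] [NumberField F] [NumberField Ω] [Algebra F Ω] [IsGalois F Ω]
    [IsTotallyComplex F] (χ : Gal(Ω/F) →* ℂ) (A : Ideal (𝓞 F) →* ℂ) (n : ℕ),
    Module.finrank ℚ F = 2 → n ≠ 0 → (∀ σ, χ σ ^ 3 = 1) → (∃ σ, χ σ ≠ 1) → FrobChar n χ A →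
    ∃ (t : ℕ) (η : Ideal (𝓞 F) →* ℂ), Ray (n ^ (t + 1)) η ∧ (∀ I, Cop n I → η I ^ 3 = 1) ∧
      (∀ n' : ℕ, n' ≠ 0 → ∃ I, Cop (n * n') I ∧ η I ≠ 1) ∧
      ∀ P : Ideal (𝓞 F), P.IsMaximal → (n : 𝓞 F) ∉ P → A P = 1 → η P = 1

/-- Cubic Dirichlet characters that are nontrivial at two given primes. -/
def NC2 : Prop :=
  ∀ q q' : ℕ, q.Prime → q'.Prime → ∃ (l : ℕ) (ψ : ZMod l →* ℂ), 3 ≤ l ∧ l.Coprime (q * q') ∧
    (∀ u : ZMod l, IsUnit u → ψ u ^ 3 = 1) ∧ ψ q ≠ 1 ∧ ψ q' ≠ 1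

/-- The crossing argument for one auxiliary character. -/
def CROSS : Prop :=
  ∀ (F Ω : Type) [Field F] [Field Ω] [NumberField F] [NumberField Ω] [Algebra F Ω] [IsGalois F Ω]
    [IsTotallyComplex F] (χ ψ : Gal(Ω/F) →* ℂ) (A B η : Ideal (𝓞 F) →* ℂ) (n t : ℕ),
    Module.finrank ℚ F = 2 → 3 ≤ n → (∀ σ, χ σ ^ 3 = 1) → (∀ σ, ψ σ ^ 3 = 1) →
    (∃ σ, ψ σ = 1 ∧ χ σ ≠ 1) → (∃ σ, ψ σ ≠ 1) → FrobChar n χ A → FrobChar n ψ B →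
    Ray (n ^ (t + 1)) B → Ray (n ^ (t + 1)) η → (∀ I, Cop n I → η I ^ 3 = 1) →
    (∃ I, Cop n I ∧ η I ≠ 1) →
    (∀ P : Ideal (𝓞 F), P.IsMaximal → (n : 𝓞 F) ∉ P → A P = 1 → η P = 1) →
    (∀ P : Ideal (𝓞 F), P.IsMaximal → (n : 𝓞 F) ∉ P → B P ≠ 1 → η P = A P) ∨
    (∀ P : Ideal (𝓞 F), P.IsMaximal → (n : 𝓞 F) ∉ P → B P ≠ 1 → η P ^ 2 = A P)

/-- The reciprocity law for a cubic character that is nontrivial on a commutator. -/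
def RECIP : Prop :=
  ∀ (F Ω : Type) [Field F] [Field Ω] [NumberField F] [NumberField Ω] [Algebra F Ω] [IsGalois ℚ Ω]
    [IsTotallyComplex F] (χ : Gal(Ω/F) →* ℂ) (A : Ideal (𝓞 F) →* ℂ) (n : ℕ) (g : Gal(Ω/F))
    (x y : Gal(Ω/ℚ)), Module.finrank ℚ F = 2 → n ≠ 0 → (∀ σ, χ σ ^ 3 = 1) →
    (∀ t, g t = (x * y * x⁻¹ * y⁻¹) t) → χ g ≠ 1 → FrobChar n χ A → ∃ t : ℕ, Ray (n ^ (t + 1)) A

/-! ### Dirichlet series -/

/-- The derivative is determined by the series. -/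
def CUNIQ : Prop := ∀ (a : ℂ → ℂ) (d d' : ℂ), Cont a d → Cont a d' → d = d'

/-- The series over the ideals with norm in a given residue class. -/
def Dz {F : Type} [Field F] [NumberField F] (m : ℕ) (A : Ideal (𝓞 F) → ℂ) (u : ZMod m) : ℂ → ℂ :=
  Lser fun I : Ideal (𝓞 F) => if (absNorm I : ZMod m) = u then A I else 0

/-- The series over the positive integers in a residue class. -/
def Hz (m : ℕ) (u : ZMod m) : ℂ → ℂ := LSeries fun d => if (d : ZMod m) = u then 1 else 0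

/-- A factorisation of the zeta function, in residue classes. -/
def CONV : Prop :=
  ∀ (k F : Type) [Field k] [Field F] [NumberField k] [NumberField F] (A : Ideal (𝓞 F) → ℂ),
    (∀ I, ‖A I‖ ≤ 1) → (∀ s : ℂ, 1 < s.re → Lser (fun _ : Ideal (𝓞 ℚ) => 1) s * Lser A s =
      Lser (fun _ : Ideal (𝓞 k) => 1) s) →
    ∀ (m : ℕ) [NeZero m] (u : (ZMod m)ˣ) (s : ℂ), 1 < s.re →
      Dz m (fun _ : Ideal (𝓞 k) => 1) u s = ∑ x : (ZMod m)ˣ, Hz m x s * Dz m A (x⁻¹ * u : (ZMod m)ˣ) s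

/-- Values at `0` of the series over residue classes. -/
def HURW : Prop :=
  ∀ (m : ℕ) (x : (ZMod m)ˣ) (a : ℂ → ℂ) (d : ℂ), 2 ≤ m → Cont a d →
    Cont (fun s => Hz m x s * a s) (((1 / 2 - (x : ZMod m).val / m : ℚ) : ℂ) * d)

/-- Removing one prime. -/
def RMV : Prop :=
  ∀ (L B : Type) [Field L] [NumberField L] [Monoid B] (a : Ideal (𝓞 L) →* B) (h : B → ℂ)
    (J P : Ideal (𝓞 L)), (∀ b, ‖h b‖ ≤ 1) → P.IsMaximal → IsCoprime P J → ∀ s : ℂ, 1 < s.re →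
    Lser (fun I => if IsCoprime I (J * P) then h (a I) else 0) s =
      Lser (fun I => if IsCoprime I J then h (a I) else 0) s -
        (absNorm P : ℂ) ^ (-s) * Lser (fun I => if IsCoprime I J then h (a P * a I) else 0) s

/-! ### Cubic fields -/

/-- Cyclotomic extensions of a complex cubic field. -/
def CYC : Prop :=
  ∀ (k E : Type) [Field k] [Field E] [NumberField k] [NumberField E] [Algebra k E] (m : ℕ)
    [NeZero m] [IsCyclotomicExtension {m} k E] (ζ : E), Module.finrank ℚ k = 3 →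
    nrComplexPlaces k = 1 → IsPrimitiveRoot ζ m →
    (∀ u : (ZMod m)ˣ, ∃ σ : Gal(E/k), σ ζ = ζ ^ (u : ZMod m).val) ∧
    ∀ (x : E) (n : ℕ), n ≠ 0 → x ^ n = 1 → ∃ i : ℕ, x = ζ ^ i ∨ x = -ζ ^ i

/-- The value at `0` of the series over a fibre of `pm`. -/
def stz {m : ℕ} [NeZero m] {G : Type} [Group G] (pm : (ZMod m)ˣ →* G) (x : G) : ℚ :=
  ∑ u : (ZMod m)ˣ, if pm u = x then (1 / 2 - (u : ZMod m).val / m : ℚ) else 0

/-- `pm` is the explicit Artin map. -/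
def IsCycMap {k K E : Type} [Field k] [Field K] [Field E] [Algebra k K] [Algebra K E]
    {m : ℕ} (ζ : E) (pm : (ZMod m)ˣ →* Gal(K/k)) : Prop :=
  ∀ (Ω : Type) [Field Ω] (i j : E →+* Ω) (u : (ZMod m)ˣ),
    (∀ y : k, j (algebraMap K E (algebraMap k K y)) = i (algebraMap K E (algebraMap k K y))) →
    j ζ = i ζ ^ (u : ZMod m).val → ∀ x : K, j (algebraMap K E x) = i (algebraMap K E (pm u x))

/-- Integrality of the Stickelberger element. -/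
def STICK : Prop :=
  ∀ (k K E : Type) [Field k] [Field K] [Field E] [NumberField k] [NumberField K] [NumberField E]
    [Algebra k K] [Algebra K E] [Algebra k E] [IsScalarTower k K E] (m : ℕ) [NeZero m]
    [IsCyclotomicExtension {m} k E] (ζ : E), Module.finrank ℚ k = 3 → nrComplexPlaces k = 1 →
    3 ≤ m → IsPrimitiveRoot ζ m → IsAbelianGalois k K ∧
    ∃ pm : (ZMod m)ˣ →* Gal(K/k), Function.Surjective pm ∧ IsCycMap ζ pm ∧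
      (∀ x, stz pm (pm (-1) * x) = -stz pm x) ∧
      (∀ x, ∃ n : ℤ, torsionOrder K * stz pm x = n) ∧
      ∀ σ : Gal(K/k), ∃ b : ℤ, (∀ y : K, y ^ torsionOrder K = 1 → σ y = y ^ b) ∧
        ∀ x, ∃ n : ℤ, stz pm (σ * x) - b * stz pm x = n

/-- The Artin map is given by the norm. -/
def ARTCYC : Prop :=
  ∀ (k K E : Type) [Field k] [Field K] [Field E] [NumberField k] [NumberField K] [NumberField E]
    [Algebra k K] [Algebra K E] [Algebra k E] [IsScalarTower k K E] (m : ℕ) [NeZero m]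
    [IsCyclotomicExtension {m} k E] (ζ : E) (pm : (ZMod m)ˣ →* Gal(K/k)) (f : Ideal (𝓞 k))
    (art : (Ideal (𝓞 k))⁰ →* Gal(K/k)), IsPrimitiveRoot ζ m → IsCycMap ζ pm →
    (∀ P : Ideal (𝓞 k), P.IsMaximal → (m : 𝓞 k) ∈ P → f ≤ P) →
    (∀ (P : (Ideal (𝓞 k))⁰) (Q : Ideal (𝓞 K)), Q.IsMaximal → Q.under (𝓞 k) = P →
      ¬ f ≤ P → ∀ z : 𝓞 K, art P • z - z ^ absNorm P.1 ∈ Q) →
    ∀ I : (Ideal (𝓞 k))⁰, IsCoprime I.1 f →
      ∃ u : (ZMod m)ˣ, (absNorm I.1 : ZMod m) = u ∧ art I = pm u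

/-- The abelian condition from a compatible family. -/
def ABEL2 : Prop :=
  ∀ (k K : Type) [Field k] [Field K] [NumberField k] [NumberField K] [Algebra k K]
    [IsAbelianGalois k K] (u : K) (n : Gal(K/k) → ℤ) (α : Gal(K/k) → K), u ≠ 0 →
    (∀ (σ : Gal(K/k)) (y : K), y ^ torsionOrder K = 1 → σ y = y ^ n σ) →
    (∀ σ : Gal(K/k), σ u = u ^ n σ * α σ ^ torsionOrder K) →
    (∀ σ τ : Gal(K/k), τ (α σ) * α τ ^ n σ = σ (α τ) * α σ ^ n τ) →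
    ∀ x : AlgebraicClosure K, x ^ torsionOrder K = algebraMap K (AlgebraicClosure K) u →
      IsAbelianGalois k (IntermediateField.adjoin K {x})

/-- The Galois closure of a cyclotomic extension of a complex cubic field. -/
structure Cub (k F Ω : Type) [Field k] [Field F] [Field Ω] [NumberField k] [NumberField F]
    [NumberField Ω] [Algebra k Ω] [Algebra F Ω] (ζ : Ω) (φ : Ω →+* ℂ) (Ψ : Gal(Ω/ℚ) → ℂ)
    (g c : Gal(Ω/ℚ)) : Prop where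
  h2 : Module.finrank ℚ F = 2
  h3 : Module.finrank ℚ k = 3
  tc : IsTotallyComplex F
  char : IsChar ℚ F Ω Ψ
  cube : ∀ ρ ∈ fixSub ℚ F Ω, Ψ ρ ^ 3 = 1
  gF : g ∈ fixSub ℚ F Ω
  gne : Ψ g ≠ 1
  g3 : g ^ 3 = 1
  gζ : g ζ = ζ
  comm : ∃ x y : Gal(Ω/ℚ), g = x * y * x⁻¹ * y⁻¹
  ker : ∀ ρ ∈ fixSub ℚ F Ω, (ρ ∈ fixSub ℚ k Ω ↔ Ψ ρ = 1)
  inj : ∀ ρ ∈ fixSub ℚ F Ω, Ψ ρ = 1 → ρ ζ = ζ → ρ = 1
  anti : ∀ x, x ∉ fixSub ℚ F Ω → ∀ ρ ∈ fixSub ℚ F Ω, Ψ (x * ρ * x⁻¹) * Ψ ρ = 1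
  cj : IsConj φ c
  cF : c ∉ fixSub ℚ F Ω
  jk : g⁻¹ * c * g ∈ fixSub ℚ k Ω

/-- Existence of the Galois closure. -/
def SETUP : Prop :=
  ∀ (k K E : Type) [Field k] [Field K] [Field E] [NumberField k] [NumberField K] [NumberField E]
    [Algebra k K] [Algebra K E] [Algebra k E] [IsScalarTower k K E] (m : ℕ) [NeZero m]
    [IsCyclotomicExtension {m} k E] (ζ : E) (φ0 : K →+* ℂ), Module.finrank ℚ k = 3 →
    nrComplexPlaces k = 1 → IsPrimitiveRoot ζ m →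
    ¬ ComplexEmbedding.IsReal (φ0.comp (algebraMap k K)) →
    ∃ (Ω F : Type) (_ : Field Ω) (_ : Field F) (_ : NumberField Ω) (_ : NumberField F)
      (_ : Algebra E Ω) (_ : Algebra K Ω) (_ : Algebra k Ω) (_ : Algebra F Ω)
      (_ : IsScalarTower k K Ω) (_ : IsScalarTower K E Ω) (_ : IsGalois ℚ Ω)
      (φ : Ω →+* ℂ) (Ψ : Gal(Ω/ℚ) → ℂ) (g c : Gal(Ω/ℚ)),
      φ.comp (algebraMap K Ω) = φ0 ∧ Cub k F Ω (algebraMap E Ω ζ) φ Ψ g c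

/-- The cubic character on ideals. -/
def RAM : Prop :=
  ∀ (k F Ω : Type) [Field k] [Field F] [Field Ω] [NumberField k] [NumberField F]
    [NumberField Ω] [Algebra k Ω] [Algebra F Ω] [IsGalois ℚ Ω] (ζ : Ω) (φ : Ω →+* ℂ)
    (Ψ : Gal(Ω/ℚ) → ℂ) (g c : Gal(Ω/ℚ)), Cub k F Ω ζ φ Ψ g c →
    ∃ (A : Ideal (𝓞 F) →* ℂ) (n : ℕ), n ≠ 0 ∧ (∀ I, ‖A I‖ ≤ 1) ∧
      (∀ s : ℂ, 1 < s.re → Lser (fun _ : Ideal (𝓞 ℚ) => 1) s * Lser A s =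
        Lser (fun _ : Ideal (𝓞 k) => 1) s) ∧
      (∀ P : Ideal (𝓞 F), P.IsMaximal → (n : 𝓞 F) ∈ P → A P = 0) ∧
      ∀ Q : Ideal (𝓞 Ω), Q.IsMaximal → (n : 𝓞 Ω) ∉ Q → ∀ σ : Gal(Ω/F), IsFrob Q σ →
        A (Q.under (𝓞 F)) = Ψ (σ.restrictScalars ℚ)

/-- The series over the ideals coprime to `N` with given character value and norm class. -/
def fz2 {F : Type} [Field F] [NumberField F] (N m : ℕ) (A : Ideal (𝓞 F) →* ℂ) (x : ℂ)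
    (u : ZMod m) : ℂ → ℂ :=
  Lser fun I : Ideal (𝓞 F) =>
    if Cop N I ∧ A I = x ∧ (absNorm I : ZMod m) = u then 1 else 0

/-- The elliptic element is a unit. -/
def UNIT : Prop :=
  ∀ (k F Ω : Type) [Field k] [Field F] [Field Ω] [NumberField k] [NumberField F]
    [NumberField Ω] [Algebra k Ω] [Algebra F Ω] [IsGalois ℚ Ω] (ζ : Ω) (φ : Ω →+* ℂ)
    (Ψ : Gal(Ω/ℚ) → ℂ) (g c : Gal(Ω/ℚ)) (m N : ℕ) (A : Ideal (𝓞 F) →* ℂ),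
    Cub k F Ω ζ φ Ψ g c → 3 ≤ m → IsPrimitiveRoot ζ m → N ≠ 0 → m ∣ N → Ray N A →
    (∀ Q : Ideal (𝓞 Ω), Q.IsMaximal → (N : 𝓞 Ω) ∉ Q → ∀ σ : Gal(Ω/F), IsFrob Q σ →
      A (Q.under (𝓞 F)) = Ψ (σ.restrictScalars ℚ)) →
    ∃ β : (𝓞 Ω)ˣ, ∀ ρ ∈ fixSub ℚ F Ω, ∀ u : ZMod m, ρ ζ = ζ ^ u.val →
      Cont (fun s => fz2 N m A (Ψ ρ) u s - fz2 N m A (Ψ ρ * Ψ g) u s)
        (-(Real.log (‖φ (ρ β)‖ ^ 2) : ℝ))

/-- Symmetry under conjugation of ideals, and the possible values. -/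
def SYM : Prop :=
  ∀ (k F Ω : Type) [Field k] [Field F] [Field Ω] [NumberField k] [NumberField F]
    [NumberField Ω] [Algebra k Ω] [Algebra F Ω] [IsGalois ℚ Ω] (ζ : Ω) (φ : Ω →+* ℂ)
    (Ψ : Gal(Ω/ℚ) → ℂ) (g c : Gal(Ω/ℚ)) (m N : ℕ) (A : Ideal (𝓞 F) →* ℂ),
    Cub k F Ω ζ φ Ψ g c → m ≠ 0 → IsPrimitiveRoot ζ m → N ≠ 0 → m ∣ N →
    (∀ Q : Ideal (𝓞 Ω), Q.IsMaximal → (N : 𝓞 Ω) ∉ Q → ∀ σ : Gal(Ω/F), IsFrob Q σ →
      A (Q.under (𝓞 F)) = Ψ (σ.restrictScalars ℚ)) →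
    (∀ (x : ℂ) (u : ZMod m) (s : ℂ), fz2 N m A x u s = fz2 N m A x⁻¹ u s) ∧
    ∀ I : Ideal (𝓞 F), Cop N I → ∃ ρ ∈ fixSub ℚ F Ω, A I = Ψ ρ ∧ ρ ζ = ζ ^ absNorm I

/-- The unit attached to the cubic character. -/
def CUBETA : Prop :=
  ∀ (k F Ω : Type) [Field k] [Field F] [Field Ω] [NumberField k] [NumberField F]
    [NumberField Ω] [Algebra k Ω] [Algebra F Ω] [IsGalois ℚ Ω] (ζ : Ω) (φ : Ω →+* ℂ)
    (Ψ : Gal(Ω/ℚ) → ℂ) (g c : Gal(Ω/ℚ)) (m : ℕ),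
    Cub k F Ω ζ φ Ψ g c → 3 ≤ m → IsPrimitiveRoot ζ m →
    ∃ (A : Ideal (𝓞 F) →* ℂ) (β : (𝓞 Ω)ˣ), (∀ I, ‖A I‖ ≤ 1) ∧
      (∀ s : ℂ, 1 < s.re → Lser (fun _ : Ideal (𝓞 ℚ) => 1) s * Lser A s =
        Lser (fun _ : Ideal (𝓞 k) => 1) s) ∧
      (g⁻¹ * c * g) (β : Ω) * β = 1 ∧
      ∀ u : (ZMod m)ˣ,
        (∀ ρ ∈ fixSub ℚ F Ω, ρ ∈ fixSub ℚ k Ω → ρ ζ = ζ ^ (u : ZMod m).val →
          Cont (Dz m A u) (-(Real.log (‖φ (ρ β)‖ ^ 2) : ℝ))) ∧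
        ((¬ ∃ ρ ∈ fixSub ℚ F Ω, ρ ∈ fixSub ℚ k Ω ∧ ρ ζ = ζ ^ (u : ZMod m).val) →
          ∀ s : ℂ, 1 < s.re → Dz m A u s = 0)

end

end Pool.Agent.P.MP_29cb78_nt.C
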