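import Pool.Agent.P.MP_29cb78_nt.C.Iface

/-! Integral expansions of infinite products. -/

namespace Pool.Agent.P.MP_29cb78_nt.C

open Filter Topology PowerSeries Finset
open scoped Real

noncomputable section

namespace Prod

/-- The ring of algebraic integers. -/
abbrev R : Type := integralClosure ℤ ℂ

/-- Terms of the series. -/
def tm (φ : R⟦X⟧) (x : ℂ) (k : ℕ) : ℂ := ((coeff k φ : R) : ℂ) * x ^ k

/-- Value of the series. -/
def val (φ : R⟦X⟧) (x : ℂ) : ℂ := ∑' k, tm φ x k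

/-- Absolute convergence with a bound. -/
def Bd (φ : R⟦X⟧) (x : ℂ) (B : ℝ) : Prop :=
  Summable (fun k => ‖tm φ x k‖) ∧ ∑' k, ‖tm φ x k‖ ≤ B

variable {φ ψ : R⟦X⟧} {x : ℂ} {B B' : ℝ}

theorem Bd.hasSum (h : Bd φ x B) : HasSum (tm φ x) (val φ x) := h.1.of_norm.hasSum

theorem Bd.nonneg (h : Bd φ x B) : 0 ≤ B := (tsum_nonneg fun _ => norm_nonneg _).trans h.2

theorem Bd.mono (h : Bd φ x B) (hB : B ≤ B') : Bd φ x B' := ⟨h.1, h.2.trans hB⟩

theorem Bd.term (h : Bd φ x B) (k : ℕ) : ‖tm φ x k‖ ≤ B :=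
  (h.1.le_tsum k fun _ _ => norm_nonneg _).trans h.2

theorem tm_mul (k : ℕ) : tm (φ * ψ) x k = ∑ p ∈ antidiagonal k, tm φ x p.1 * tm ψ x p.2 := by
  simp only [tm, coeff_mul, AddSubmonoidClass.coe_finsetSum, sum_mul, MulMemClass.coe_mul]
  refine sum_congr rfl fun p hp => ?_
  rw [← mem_antidiagonal.1 hp]; ring

theorem tm_add (k : ℕ) : tm (φ + ψ) x k = tm φ x k + tm ψ x k := by
  simp [tm, add_mul]

theorem tm_sub (k : ℕ) : tm (φ - ψ) x k = tm φ x k - tm ψ x k := by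
  simp [tm, sub_mul]

theorem Bd.mul (h : Bd φ x B) (h' : Bd ψ x B') : Bd (φ * ψ) x (B * B') := by
  have h1 : Summable fun k => ‖‖tm φ x k‖‖ := by simpa using h.1
  have h2 : Summable fun k => ‖‖tm ψ x k‖‖ := by simpa using h'.1
  have hs : Summable fun k => ‖tm (φ * ψ) x k‖ := by
    simp only [tm_mul]; exact summable_norm_sum_mul_antidiagonal_of_summable_norm h.1 h'.1
  refine ⟨hs, le_trans ?_ (mul_le_mul h.2 h'.2 (tsum_nonneg fun _ => norm_nonneg _) h.nonneg)⟩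
  rw [tsum_mul_tsum_eq_tsum_sum_antidiagonal_of_summable_norm h1 h2]
  refine hs.tsum_le_tsum (fun k => ?_)
    (summable_norm_sum_mul_antidiagonal_of_summable_norm h1 h2).of_norm
  rw [tm_mul]
  exact (norm_sum_le _ _).trans (le_of_eq (sum_congr rfl fun p _ => norm_mul _ _))

theorem val_mul (h : Bd φ x B) (h' : Bd ψ x B') : val (φ * ψ) x = val φ x * val ψ x := by
  simp only [val, tm_mul]
  exact (tsum_mul_tsum_eq_tsum_sum_antidiagonal_of_summable_norm h.1 h'.1).symm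

theorem Bd.add (h : Bd φ x B) (h' : Bd ψ x B') : Bd (φ + ψ) x (B + B') := by
  have hle : ∀ k, ‖tm (φ + ψ) x k‖ ≤ ‖tm φ x k‖ + ‖tm ψ x k‖ := fun k => by
    rw [tm_add]; exact norm_add_le _ _
  have hs : Summable fun k => ‖tm (φ + ψ) x k‖ :=
    (h.1.add h'.1).of_nonneg_of_le (fun _ => norm_nonneg _) hle
  refine ⟨hs, (hs.tsum_le_tsum hle (h.1.add h'.1)).trans ?_⟩
  rw [h.1.tsum_add h'.1]; exact add_le_add h.2 h'.2

theorem val_add (h : Bd φ x B) (h' : Bd ψ x B') : val (φ + ψ) x = val φ x + val ψ x := by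
  simp only [val, tm_add]; exact h.1.of_norm.tsum_add h'.1.of_norm

theorem tm_mon (a : R) (j k : ℕ) (hk : k ≠ j) : tm (C a * X ^ j) x k = 0 := by
  simp [tm, coeff_X_pow, hk]

theorem tm_mon' (a : R) (j : ℕ) : tm (C a * X ^ j) x j = a * x ^ j := by
  simp [tm, coeff_X_pow]

theorem bd_mon (a : R) (j : ℕ) : Bd (C a * X ^ j) x (‖(a : ℂ)‖ * ‖x‖ ^ j) := by
  have h := hasSum_single (f := fun k => ‖tm (C a * X ^ j) x k‖) j fun k hk => by
    simp [tm_mon a j k hk]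
  exact ⟨h.summable, by rw [h.tsum_eq, tm_mon', norm_mul, norm_pow]⟩

theorem val_mon (a : R) (j : ℕ) : val (C a * X ^ j) x = a * x ^ j := by
  rw [val, tsum_eq_single j fun k hk => tm_mon a j k hk, tm_mon']

theorem bd_one : Bd 1 x 1 := by simpa using bd_mon (x := x) 1 0

theorem val_one : val 1 x = 1 := by simpa using val_mon (x := x) 1 0

theorem bd_geom (hx : ‖x‖ < 1) (h : ∀ k, ‖((coeff k φ : R) : ℂ)‖ ≤ 1) : Bd φ x (1 - ‖x‖)⁻¹ := by
  have hle : ∀ k, ‖tm φ x k‖ ≤ ‖x‖ ^ k := fun k => by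
    rw [tm, norm_mul, norm_pow]
    exact mul_le_of_le_one_left (by positivity) (h k)
  have hg := hasSum_geometric_of_lt_one (norm_nonneg x) hx
  have hs := hg.summable.of_nonneg_of_le (fun _ => norm_nonneg _) hle
  exact ⟨hs, (hs.tsum_le_tsum hle hg.summable).trans hg.tsum_eq.le⟩

theorem bd_prod {f : ℕ → R⟦X⟧} {b : ℕ → ℝ} (h : ∀ n, Bd (f n) x (b n)) (K : ℕ) :
    Bd (∏ n ∈ range K, f n) x (∏ n ∈ range K, b n) ∧
      val (∏ n ∈ range K, f n) x = ∏ n ∈ range K, val (f n) x := by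
  induction K with
  | zero => simpa using ⟨bd_one, val_one⟩
  | succ K ih =>
    simp only [prod_range_succ]
    exact ⟨ih.1.mul (h K), by rw [val_mul ih.1 (h K), ih.2]⟩

section Lim

variable {a : ℕ → R} {r : ℕ → ℕ} {g : ℕ → R⟦X⟧}

/-- The factors. -/
def fac (a : ℕ → R) (r : ℕ → ℕ) (g : ℕ → R⟦X⟧) (n : ℕ) : R⟦X⟧ := 1 + C (a n) * X ^ r n * g n

/-- The finite products. -/
def pp (a : ℕ → R) (r : ℕ → ℕ) (g : ℕ → R⟦X⟧) (K : ℕ) : R⟦X⟧ := ∏ n ∈ range K, fac a r g n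

/-- The formal infinite product. -/
def lim (a : ℕ → R) (r : ℕ → ℕ) (g : ℕ → R⟦X⟧) : R⟦X⟧ := mk fun k => coeff k (pp a r g k)

theorem stab (hr : ∀ n, n + 1 ≤ r n) {j K : ℕ} (h : j ≤ K) :
    coeff j (pp a r g K) = coeff j (pp a r g j) := by
  have : X ^ (j + 1) ∣ pp a r g K - pp a r g j := by
    induction K, h using Nat.le_induction with
    | base => simp
    | succ K hK ih =>
      have e : pp a r g (K + 1) - pp a r g j =
          X ^ r K * (pp a r g K * C (a K) * g K) + (pp a r g K - pp a r g j) := by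
        rw [pp, prod_range_succ, fac, ← pp]; ring
      rw [e]
      exact ((pow_dvd_pow X (by have := hr K; omega)).mul_right _).add ih
  have h1 := X_pow_dvd_iff.1 this j (by omega)
  rwa [map_sub, sub_eq_zero] at h1

theorem lim_dvd (hr : ∀ n, n + 1 ≤ r n) (k : ℕ) : X ^ (k + 1) ∣ lim a r g - pp a r g k :=
  X_pow_dvd_iff.2 fun j hj => by
    rw [map_sub, lim, coeff_mk, stab hr (show j ≤ k by omega), sub_self]

theorem lim_zero : coeff 0 (lim a r g) = 1 := by simp [lim, pp]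

theorem bd_fac (hr : ∀ n, n + 1 ≤ r n) (ha : ∀ n, ‖(a n : ℂ)‖ ≤ 1)
    (hg : ∀ n k, ‖((coeff k (g n) : R) : ℂ)‖ ≤ 1) (hx : ‖x‖ < 1) (n : ℕ) :
    Bd (fac a r g n) x (Real.exp (‖x‖ ^ n * (1 - ‖x‖)⁻¹)) ∧
      val (fac a r g n) x = 1 + a n * x ^ r n * val (g n) x := by
  have h1 := bd_mon (x := x) (a n) (r n)
  have h2 := bd_geom hx (hg n)
  refine ⟨(bd_one.add (h1.mul h2)).mono ?_, ?_⟩
  · refine le_trans ?_ (Real.add_one_le_exp _)
    have h3 : ‖x‖ ^ r n ≤ ‖x‖ ^ n :=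
      pow_le_pow_of_le_one (norm_nonneg x) hx.le (by have := hr n; omega)
    have h4 : ‖(a n : ℂ)‖ * ‖x‖ ^ r n ≤ ‖x‖ ^ n :=
      (mul_le_of_le_one_left (by positivity) (ha n)).trans h3
    have := mul_le_mul_of_nonneg_right h4 h2.nonneg
    linarith
  · rw [fac, val_add bd_one (h1.mul h2), val_mul h1 h2, val_one, val_mon]

theorem bd_pp (hr : ∀ n, n + 1 ≤ r n) (ha : ∀ n, ‖(a n : ℂ)‖ ≤ 1)
    (hg : ∀ n k, ‖((coeff k (g n) : R) : ℂ)‖ ≤ 1) (hx : ‖x‖ < 1) (K : ℕ) :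
    Bd (pp a r g K) x (Real.exp ((1 - ‖x‖)⁻¹ * (1 - ‖x‖)⁻¹)) ∧
      val (pp a r g K) x = ∏ n ∈ range K, (1 + a n * x ^ r n * val (g n) x) := by
  obtain ⟨h1, h2⟩ := bd_prod (fun n => (bd_fac hr ha hg hx n).1) K
  refine ⟨h1.mono ?_, h2.trans (prod_congr rfl fun n _ => (bd_fac hr ha hg hx n).2)⟩
  rw [← Real.exp_sum, ← sum_mul, Real.exp_le_exp]
  have hg := hasSum_geometric_of_lt_one (norm_nonneg x) hx
  exact mul_le_mul_of_nonneg_right (sum_le_hasSum _ (fun _ _ => by positivity) hg)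
    (inv_nonneg.2 (by linarith))

theorem main (hr : ∀ n, n + 1 ≤ r n) (ha : ∀ n, ‖(a n : ℂ)‖ ≤ 1)
    (hg : ∀ n k, ‖((coeff k (g n) : R) : ℂ)‖ ≤ 1) (hx : ‖x‖ < 1) :
    (∃ B, Bd (lim a r g) x B) ∧
      Tendsto (fun K => ∏ n ∈ range K, (1 + a n * x ^ r n * val (g n) x)) atTop
        (𝓝 (val (lim a r g) x)) := by
  obtain ⟨s, hs1, hs2⟩ := exists_between hx
  have hs0 : 0 < s := (norm_nonneg x).trans_lt hs1
  have hn : ‖(s : ℂ)‖ = s := by simp [hs0.le]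
  obtain ⟨B, hB⟩ : ∃ B : ℝ, ∀ K k, ‖tm (pp a r g K) s k‖ ≤ B :=
    ⟨_, fun K k => (bd_pp hr ha hg (by rwa [hn]) K).1.term k⟩
  have hb : ∀ K k, ‖tm (pp a r g K) x k‖ ≤ B * (‖x‖ / s) ^ k := fun K k => by
    have := hB K k
    rw [tm, norm_mul, norm_pow, hn] at this
    rw [tm, norm_mul, norm_pow]
    calc _ = ‖((coeff k (pp a r g K) : R) : ℂ)‖ * s ^ k * (‖x‖ / s) ^ k := by
          rw [mul_assoc, ← mul_pow, mul_div_cancel₀ _ hs0.ne']
      _ ≤ _ := mul_le_mul_of_nonneg_right this (by positivity)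
  have hsum : Summable fun k => B * (‖x‖ / s) ^ k :=
    (summable_geometric_of_lt_one (by positivity) ((div_lt_one hs0).2 hs1)).mul_left B
  have hl : ∀ k, tm (lim a r g) x k = tm (pp a r g k) x k := fun k => by simp [tm, lim]
  refine ⟨⟨_, hsum.of_nonneg_of_le (fun _ => norm_nonneg _) fun k => ?_, le_rfl⟩, ?_⟩
  · rw [hl]; exact hb k k
  · simp only [← (bd_pp hr ha hg hx _).2]
    refine tendsto_tsum_of_dominated_convergence hsum (fun k => ?_) (Eventually.of_forall hb)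
    refine tendsto_const_nhds.congr' ((eventually_ge_atTop k).mono fun K hK => ?_)
    rw [hl]; simp only [tm, stab hr hK]

end Lim

theorem hone (k : ℕ) : ‖((coeff k (1 : R⟦X⟧) : R) : ℂ)‖ ≤ 1 := by
  rw [coeff_one]; split_ifs <;> simp

theorem tend {c : ℕ → R} {r : ℕ → ℕ} (hr : ∀ n, n + 1 ≤ r n) (hc : ∀ n, ‖(c n : ℂ)‖ ≤ 1)
    (hx : ‖x‖ < 1) : Tendsto (fun K => ∏ n ∈ range K, (1 + -((c n : ℂ) * x ^ r n))) atTop
      (𝓝 (∏' n, (1 - (c n : ℂ) * x ^ r n))) := by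
  simp only [sub_eq_add_neg]
  refine (multipliable_one_add_of_summable ?_).tendsto_prod_tprod_nat
  refine (summable_geometric_of_lt_one (norm_nonneg x) hx).of_nonneg_of_le
    (fun _ => norm_nonneg _) fun n => ?_
  rw [norm_neg, norm_mul, norm_pow]
  exact (mul_le_of_le_one_left (by positivity) (hc n)).trans
    (pow_le_pow_of_le_one (norm_nonneg x) hx.le (by have := hr n; omega))

theorem part1 {c : ℕ → R} {r : ℕ → ℕ} (hr : ∀ n, n + 1 ≤ r n) (hc : ∀ n, ‖(c n : ℂ)‖ ≤ 1)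
    (hx : ‖x‖ < 1) : (∃ B, Bd (lim (fun n => -c n) r fun _ => 1) x B) ∧
      val (lim (fun n => -c n) r fun _ => 1) x = ∏' n, (1 - (c n : ℂ) * x ^ r n) := by
  obtain ⟨h1, h2⟩ := main (a := fun n => -c n) (g := fun _ => 1) hr (by simpa using hc)
    (fun _ => hone) hx
  refine ⟨h1, tendsto_nhds_unique h2 ?_⟩
  simpa [val_one] using tend hr hc hx

/-- The geometric series. -/
def geo (c : R) (r : ℕ) : R⟦X⟧ := mk fun k => if r ∣ k then c ^ (k / r) else 0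

theorem geo_eq (c : R) {r : ℕ} (hr : 1 ≤ r) : geo c r = 1 + C c * X ^ r * geo c r := by
  ext1 k
  rw [map_add, mul_assoc, coeff_C_mul, coeff_X_pow_mul', coeff_one, geo, coeff_mk]
  rcases Nat.eq_zero_or_pos k with rfl | hk
  · simp [show ¬ r ≤ 0 by omega]
  · rw [if_neg hk.ne', zero_add]
    by_cases h : r ≤ k
    · obtain ⟨j, rfl⟩ := Nat.exists_eq_add_of_le h
      rw [if_pos h, Nat.add_sub_cancel_left, coeff_mk]
      by_cases h' : r ∣ j
      · rw [if_pos h', if_pos ((dvd_refl r).add h'), Nat.add_div_left _ hr, pow_succ']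
      · rw [if_neg h', if_neg (by rwa [Nat.dvd_add_right (dvd_refl r)]), mul_zero]
    · rw [if_neg h, if_neg fun h' => h (Nat.le_of_dvd hk h'), mul_zero]

theorem part2 {c : ℕ → R} {r : ℕ → ℕ} (hr : ∀ n, n + 1 ≤ r n) (hc : ∀ n, ‖(c n : ℂ)‖ ≤ 1)
    (hx : ‖x‖ < 1) : HasSum (tm (lim c r fun n => geo (c n) (r n)) x)
      (∏' n, (1 - (c n : ℂ) * x ^ r n))⁻¹ := by
  have hg : ∀ n k, ‖((coeff k (geo (c n) (r n)) : R) : ℂ)‖ ≤ 1 := fun n k => by
    rw [geo, coeff_mk]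
    split_ifs
    · rw [SubmonoidClass.coe_pow, norm_pow]; exact pow_le_one₀ (norm_nonneg _) (hc n)
    · simp
  obtain ⟨⟨B, h1⟩, h2⟩ := main (a := c) (g := fun n => geo (c n) (r n)) hr hc hg hx
  have h3 := (tend hr hc hx).mul h2
  have h4 : ∀ n, (1 + -((c n : ℂ) * x ^ r n)) *
      (1 + c n * x ^ r n * val (geo (c n) (r n)) x) = 1 := fun n => by
    have h5 := (bd_fac (a := c) (g := fun n => geo (c n) (r n)) hr hc hg hx n).2
    rw [fac, ← geo_eq _ (by have := hr n; omega)] at h5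
    linear_combination (-((c n : ℂ) * x ^ r n)) * (-h5)
  simp only [← prod_mul_distrib, h4, prod_const_one] at h3
  rw [← eq_inv_of_mul_eq_one_right (tendsto_nhds_unique h3 tendsto_const_nhds)]
  exact h1.hasSum

theorem frob {A : Type} [CommRing A] {p : ℕ} (hp : p.Prime) (u : A) :
    (p : A) ∣ (1 - u) ^ p - (1 - u ^ p) := by
  obtain ⟨t, ht⟩ := exists_add_pow_prime_eq hp (1 - u) u
  exact ⟨-((1 - u) * u * t), by rw [sub_add_cancel, one_pow] at ht; linear_combination -ht⟩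

theorem part3 {c : ℕ → R} {r : ℕ → ℕ} (hr : ∀ n, n + 1 ≤ r n) {p : ℕ} (hp : p.Prime) (k : ℕ) :
    (p : R) ∣ coeff k ((lim (fun n => -c n) r fun _ => 1) ^ p -
      lim (fun n => -c n ^ p) (fun n => p * r n) fun _ => 1) := by
  have hr' : ∀ n, n + 1 ≤ p * r n := fun n => (hr n).trans (Nat.le_mul_of_pos_left _ hp.pos)
  have h1 := (lim_dvd (a := fun n => -c n) (g := fun _ => 1) hr k).trans (sub_dvd_pow_sub_pow _ _ p)
  have h2 := lim_dvd (a := fun n => -c n ^ p) (g := fun _ => 1) hr' k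
  have h3 : ∀ K, (p : R⟦X⟧) ∣ (pp (fun n => -c n) r (fun _ => 1) K) ^ p -
      pp (fun n => -c n ^ p) (fun n => p * r n) (fun _ => 1) K := fun K => by
    induction K with
    | zero => simp [pp]
    | succ K ih =>
      simp only [pp, prod_range_succ] at ih ⊢
      have h4 := frob hp (C (c K) * X ^ r K)
      have e1 : fac (fun n => -c n) r (fun _ => 1) K = 1 - C (c K) * X ^ r K := by
        simp [fac, sub_eq_add_neg]
      have e2 : fac (fun n => -c n ^ p) (fun n => p * r n) (fun _ => 1) K =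
          1 - (C (c K) * X ^ r K) ^ p := by
        simp [fac, sub_eq_add_neg, mul_pow, ← pow_mul, mul_comm p]
      rw [e1, e2, mul_pow]
      convert (ih.mul_right ((1 - C (c K) * X ^ r K) ^ p)).add (h4.mul_left
        (∏ n ∈ range K, fac (fun n => -c n ^ p) (fun n => p * r n) (fun _ => 1) n)) using 1
      ring
  obtain ⟨E, hE⟩ := h3 k
  have h5 := X_pow_dvd_iff.1 (h1.sub h2) k (by omega)
  refine ⟨coeff k E, ?_⟩
  have h6 : coeff k ((p : R⟦X⟧) * E) = p * coeff k E := by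
    rw [← map_natCast (C (R := R)) p, coeff_C_mul]
  rw [← h6, ← hE]
  simp only [map_sub] at h5 ⊢
  linear_combination h5

theorem bd_pow (h : Bd φ x B) (p : ℕ) : Bd (φ ^ p) x (B ^ p) ∧ val (φ ^ p) x = val φ x ^ p := by
  simpa using bd_prod (f := fun _ => φ) (b := fun _ => B) (fun _ => h) p

theorem ee_nat (n : ℕ) (τ : ℂ) (M : ℕ) : ee (n * τ / M) = ee (τ / M) ^ n := by
  rw [ee, ee, ← Complex.exp_nat_mul]; congr 1; ring

theorem ee_lt {M : ℕ} (hM : M ≠ 0) {τ : ℂ} (hτ : 0 < τ.im) : ‖ee (τ / M)‖ < 1 := by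
  rw [ee, Complex.norm_exp, Real.exp_lt_one_iff]
  have h : (2 * π * Complex.I * (τ / M)).re = -(2 * π * (τ.im / M)) := by
    simp [Complex.mul_re, Complex.mul_im]
  have : (0 : ℝ) < M := Nat.cast_pos.2 (Nat.pos_of_ne_zero hM)
  rw [h, neg_lt_zero]; positivity

theorem qexp {M : ℕ} {f : ℂ → ℂ} (φ : R⟦X⟧)
    (h : ∀ τ : ℂ, 0 < τ.im → HasSum (tm φ (ee (τ / M))) (f τ)) :
    QExp f M 0 fun k => ((coeff k φ : R) : ℂ) := fun τ hτ => by
  simp only [Int.cast_zero, add_zero, ee_nat]; exact h τ hτ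

theorem isI (φ : R⟦X⟧) (k : ℕ) : IsIntegral ℤ ((coeff k φ : R) : ℂ) := (coeff k φ).2

end Prod

open _root_.Pool.Agent.P.MP_29cb78_nt.C.Prod in
theorem prod_exp : PROD := by
  intro M c r hM hi hc hr
  lift c to ℕ → R using hi
  replace hc : ∀ n, ‖(c n : ℂ)‖ ≤ 1 := hc
  refine ⟨⟨_, isI (lim (fun n => -c n) r fun _ => 1), by rw [lim_zero]; rfl,
    qexp _ fun τ hτ => ?_⟩, ⟨_, isI (lim c r fun n => geo (c n) (r n)), by rw [lim_zero]; rfl,
    qexp _ fun τ hτ => ?_⟩, fun p hp => ?_⟩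
  · obtain ⟨⟨B, h1⟩, h2⟩ := part1 hr hc (ee_lt hM hτ)
    simp only [ee_nat]
    rw [← h2]
    exact h1.hasSum
  · simp only [ee_nat]
    exact part2 hr hc (ee_lt hM hτ)
  · choose E hE using part3 (c := c) hr hp
    refine ⟨0, _, isI (mk E), qexp _ fun τ hτ => ?_⟩
    have hr' : ∀ n, n + 1 ≤ p * r n := fun n => (hr n).trans (Nat.le_mul_of_pos_left _ hp.pos)
    obtain ⟨⟨B, h1⟩, h2⟩ := part1 hr hc (ee_lt hM hτ)
    obtain ⟨⟨B', h3⟩, h4⟩ := part1 (c := fun n => c n ^ p) hr' (fun n => by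
      rw [SubmonoidClass.coe_pow, norm_pow]; exact pow_le_one₀ (norm_nonneg _) (hc n))
      (ee_lt hM hτ)
    have h5 := ((bd_pow h1 p).1.hasSum.sub h3.hasSum).div_const (p : ℂ)
    rw [(bd_pow h1 p).2, h2, h4] at h5
    have hp0 : (p : ℂ) ≠ 0 := Nat.cast_ne_zero.2 hp.ne_zero
    simp only [← Nat.cast_mul, ee_nat]
    simp only [SubmonoidClass.coe_pow] at h5
    have h6 : ∀ k, (tm ((lim (fun n => -c n) r fun _ => 1) ^ p) (ee (τ / M)) k -
        tm (lim (fun n => -c n ^ p) (fun n => p * r n) fun _ => 1) (ee (τ / M)) k) / p =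
        tm (mk E) (ee (τ / M)) k := fun k => by
      rw [← tm_sub, tm, tm, hE, coeff_mk]
      push_cast
      field_simp
    simp only [h6] at h5
    exact h5

end

end Pool.Agent.P.MP_29cb78_nt.C
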